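import Pool.Agent.DEC.Defs

/-!
# l^2 decoupling, block W: basic lemmas

Elementary facts on the characters, the pairing, trigonometric sums and the kernels `wt`, `wT`.
-/

open MeasureTheory
open scoped ENNReal Matrix

namespace DEC

/-! ### The character -/

lemma ee_add (a b : ℝ) : ee (a + b) = ee a * ee b := by
  unfold ee; rw [← Complex.exp_add]; congr 1; push_cast; ring

lemma ee_zero : ee 0 = 1 := by simp [ee]

lemma ee_eq (θ : ℝ) : ee θ = Complex.exp ((2 * Real.pi * θ : ℝ) * Complex.I) := by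
  unfold ee; push_cast; rfl

lemma norm_ee (θ : ℝ) : ‖ee θ‖ = 1 := by
  rw [ee_eq]; exact Complex.norm_exp_ofReal_mul_I _

lemma enorm_ee (θ : ℝ) : ‖ee θ‖ₑ = 1 := by
  rw [← ofReal_norm, norm_ee, ENNReal.ofReal_one]

lemma continuous_ee : Continuous ee := by
  unfold ee; fun_prop

lemma ee_neg (θ : ℝ) : ee (-θ) = (starRingEnd ℂ) (ee θ) := by
  rw [ee_eq, ee_eq, ← Complex.exp_conj, map_mul, Complex.conj_ofReal, Complex.conj_I]
  congr 1
  push_cast
  ring

lemma ee_sub (a b : ℝ) : ee (a - b) = ee a * (starRingEnd ℂ) (ee b) := by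
  rw [sub_eq_add_neg, ee_add, ee_neg]

/-! ### The pairing -/

variable {r : ℕ}

/-- Lebesgue measure on `R^r x R` is a Haar measure (Mathlib does not find this instance). -/
instance instHaarX (r : ℕ) : (volume : Measure ((Fin r → ℝ) × ℝ)).IsAddHaarMeasure :=
  inferInstanceAs (((volume : Measure (Fin r → ℝ)).prod (volume : Measure ℝ)).IsAddHaarMeasure)

lemma pr_add_left (w w' z : X r) : pr (w + w') z = pr w z + pr w' z := by
  unfold pr; simp only [Prod.fst_add, Prod.snd_add, add_dotProduct]; ring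

lemma pr_neg_left (w z : X r) : pr (-w) z = -pr w z := by
  unfold pr; simp only [Prod.fst_neg, Prod.snd_neg, neg_dotProduct]; ring

lemma pr_sub_left (w w' z : X r) : pr (w - w') z = pr w z - pr w' z := by
  rw [sub_eq_add_neg, pr_add_left, pr_neg_left]; ring

lemma pr_add_right (w z z' : X r) : pr w (z + z') = pr w z + pr w z' := by
  unfold pr; simp only [Prod.fst_add, Prod.snd_add, dotProduct_add]; ring

lemma pr_neg_right (w z : X r) : pr w (-z) = -pr w z := by
  unfold pr; simp only [Prod.fst_neg, Prod.snd_neg, dotProduct_neg]; ring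

lemma pr_sub_right (w z z' : X r) : pr w (z - z') = pr w z - pr w z' := by
  rw [sub_eq_add_neg, pr_add_right, pr_neg_right]; ring

lemma pr_smul_left (c : ℝ) (w z : X r) : pr (c • w) z = c * pr w z := by
  unfold pr; simp only [Prod.smul_fst, Prod.smul_snd, smul_dotProduct, smul_eq_mul]; ring

lemma pr_smul_right (c : ℝ) (w z : X r) : pr w (c • z) = c * pr w z := by
  unfold pr; simp only [Prod.smul_fst, Prod.smul_snd, dotProduct_smul, smul_eq_mul]; ring

lemma pr_zero_left (z : X r) : pr (0 : X r) z = 0 := by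
  unfold pr; simp

lemma pr_comm (w z : X r) : pr w z = pr z w := by
  unfold pr; rw [dotProduct_comm]; ring

lemma continuous_pr (w : X r) : Continuous (pr w) := by
  unfold pr dotProduct; fun_prop

lemma continuous_ee_pr (w : X r) : Continuous fun z : X r => ee (pr w z) :=
  continuous_ee.comp (continuous_pr w)

/-! ### Trigonometric sums -/

lemma Trig.continuous {F : X r → ℂ} {S : Set (X r)} (h : Trig F S) : Continuous F := by
  obtain ⟨m, a, w, -, hF⟩ := h
  have : F = fun z => ∑ i, a i * ee (pr (w i) z) := funext hF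
  rw [this]
  exact continuous_finsetSum _ fun i _ => continuous_const.mul (continuous_ee_pr (w i))

lemma Trig.bounded {F : X r → ℂ} {S : Set (X r)} (h : Trig F S) : ∃ B : ℝ, 0 ≤ B ∧ ∀ z, ‖F z‖ ≤ B := by
  obtain ⟨m, a, w, -, hF⟩ := h
  refine ⟨∑ i, ‖a i‖, Finset.sum_nonneg fun i _ => norm_nonneg _, fun z => ?_⟩
  rw [hF]
  refine (norm_sum_le _ _).trans (Finset.sum_le_sum fun i _ => ?_)
  rw [norm_mul, norm_ee, mul_one]

lemma Trig.mono {F : X r → ℂ} {S T : Set (X r)} (h : Trig F S) (hST : S ⊆ T) : Trig F T := by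
  obtain ⟨m, a, w, hw, hF⟩ := h
  exact ⟨m, a, w, fun i => hST (hw i), hF⟩

lemma Trig.zero (S : Set (X r)) : Trig (fun _ => 0) S :=
  ⟨0, fun _ => 0, fun _ => 0, fun i => i.elim0, fun z => by simp⟩

lemma Trig.add {F G : X r → ℂ} {S : Set (X r)} (hF : Trig F S) (hG : Trig G S) :
    Trig (fun z => F z + G z) S := by
  obtain ⟨m, a, w, hw, hF⟩ := hF
  obtain ⟨m', a', w', hw', hG⟩ := hG
  refine ⟨m + m', Fin.append a a', Fin.append w w', fun i => ?_, fun z => ?_⟩
  · refine Fin.addCases (fun i => ?_) (fun i => ?_) i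
    · rw [Fin.append_left]; exact hw i
    · rw [Fin.append_right]; exact hw' i
  · show F z + G z = _
    rw [hF, hG, Fin.sum_univ_add]
    simp only [Fin.append_left, Fin.append_right]

lemma Trig.sum {ι : Type} (s : Finset ι) {F : ι → X r → ℂ} {S : Set (X r)}
    (hF : ∀ i ∈ s, Trig (F i) S) : Trig (fun z => ∑ i ∈ s, F i z) S := by
  classical
  induction s using Finset.induction_on with
  | empty => simpa using Trig.zero S
  | insert i s hi ih =>
    have h1 := (hF i (Finset.mem_insert_self i s)).add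
      (ih fun j hj => hF j (Finset.mem_insert_of_mem hj))
    simpa only [Finset.sum_insert hi] using h1

lemma Trig.smul {F : X r → ℂ} {S : Set (X r)} (h : Trig F S) (c : ℂ) :
    Trig (fun z => c * F z) S := by
  obtain ⟨m, a, w, hw, hF⟩ := h
  refine ⟨m, fun i => c * a i, w, hw, fun z => ?_⟩
  show c * F z = _
  rw [hF, Finset.mul_sum]
  exact Finset.sum_congr rfl fun i _ => by ring

/-- Modulation shifts the frequencies. -/
lemma Trig.modul {F : X r → ℂ} {S : Set (X r)} (h : Trig F S) (q : X r) :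
    Trig (fun z => F z * ee (pr q z)) {w | w - q ∈ S} := by
  obtain ⟨m, a, w, hw, hF⟩ := h
  refine ⟨m, a, fun i => w i + q, fun i => ?_, fun z => ?_⟩
  · show w i + q - q ∈ S
    rw [add_sub_cancel_right]; exact hw i
  · show F z * ee (pr q z) = _
    rw [hF, Finset.sum_mul]
    exact Finset.sum_congr rfl fun i _ => by rw [pr_add_left, ee_add]; ring

/-- Translation does not change the frequencies. -/
lemma Trig.translate {F : X r → ℂ} {S : Set (X r)} (h : Trig F S) (y : X r) :
    Trig (fun z => F (z + y)) S := by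
  obtain ⟨m, a, w, hw, hF⟩ := h
  refine ⟨m, fun i => a i * ee (pr (w i) y), w, hw, fun z => ?_⟩
  show F (z + y) = _
  rw [hF]
  exact Finset.sum_congr rfl fun i _ => by rw [pr_add_right, ee_add]; ring

lemma Trig.measurable_pw {F : X r → ℂ} {S : Set (X r)} (h : Trig F S) (s : ℝ) :
    Measurable (pw s F) := by
  unfold pw
  exact (h.continuous.measurable.enorm).pow_const s

lemma measurable_pw_of_continuous {F : X r → ℂ} (h : Continuous F) (s : ℝ) :
    Measurable (pw s F) := by
  unfold pw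
  exact (h.measurable.enorm).pow_const s

/-! ### The kernels -/

lemma measurable_wt (R a : ℝ) : Measurable (wt R a : X r → ℝ≥0∞) := by
  unfold wt; fun_prop

lemma measurable_wT (R a : ℝ) (v : Fin r → ℝ) : Measurable (wT R a v : X r → ℝ≥0∞) := by
  unfold wT; fun_prop

lemma wt_neg (R a : ℝ) (u : X r) : wt R a (-u) = wt R a u := by
  unfold wt; rw [norm_neg]

lemma wt_sub_comm (R a : ℝ) (y z : X r) : wt R a (y - z) = wt R a (z - y) := by
  rw [← wt_neg, neg_sub]

lemma wt_ne_top (R a : ℝ) (u : X r) : wt R a u ≠ ∞ := ENNReal.ofReal_ne_top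

lemma wT_ne_top (R a : ℝ) (v : Fin r → ℝ) (u : X r) : wT R a v u ≠ ∞ := ENNReal.ofReal_ne_top

lemma one_le_br {R : ℝ} (hR : 0 < R) (u : X r) : 1 ≤ 1 + ‖u‖ / R :=
  le_add_of_nonneg_right (div_nonneg (norm_nonneg _) hR.le)

lemma br_pos {R : ℝ} (hR : 0 < R) (u : X r) : 0 < 1 + ‖u‖ / R :=
  lt_of_lt_of_le one_pos (one_le_br hR u)

lemma br_add_le {R : ℝ} (hR : 0 < R) (u v : X r) :
    1 + ‖u + v‖ / R ≤ (1 + ‖u‖ / R) * (1 + ‖v‖ / R) := by
  have h1 : ‖u + v‖ / R ≤ ‖u‖ / R + ‖v‖ / R := by
    rw [← add_div]; exact div_le_div_of_nonneg_right (norm_add_le u v) hR.le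
  have h2 : 0 ≤ ‖u‖ / R * (‖v‖ / R) := by positivity
  nlinarith

lemma br_sub_le {R : ℝ} (hR : 0 < R) (x y z : X r) :
    1 + ‖x - z‖ / R ≤ (1 + ‖x - y‖ / R) * (1 + ‖y - z‖ / R) := by
  have := br_add_le hR (x - y) (y - z)
  rwa [sub_add_sub_cancel] at this

/-- `av` with the variables exchanged. -/
lemma av_eq (R a : ℝ) (f : X r → ℝ≥0∞) (z : X r) : av R a f z = ∫⁻ y, f (z - y) * wt R a y := by
  unfold av
  rw [← lintegral_sub_left_eq_self (fun y => f y * wt R a (z - y)) z]
  simp only [sub_sub_cancel]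

lemma avT_eq (R a : ℝ) (v : Fin r → ℝ) (f : X r → ℝ≥0∞) (z : X r) :
    avT R a v f z = ∫⁻ y, f (z - y) * wT R a v y := by
  unfold avT
  rw [← lintegral_sub_left_eq_self (fun y => f y * wT R a v (z - y)) z]
  simp only [sub_sub_cancel]

lemma av_mono {R a : ℝ} {f g : X r → ℝ≥0∞} (h : ∀ y, f y ≤ g y) (z : X r) :
    av R a f z ≤ av R a g z :=
  lintegral_mono fun y => mul_le_mul' (h y) le_rfl

lemma avT_mono {R a : ℝ} {v : Fin r → ℝ} {f g : X r → ℝ≥0∞} (h : ∀ y, f y ≤ g y) (z : X r) :
    avT R a v f z ≤ avT R a v g z :=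
  lintegral_mono fun y => mul_le_mul' (h y) le_rfl

lemma measurable_av {R a : ℝ} {f : X r → ℝ≥0∞} (hf : Measurable f) : Measurable (av R a f) := by
  unfold av
  refine Measurable.lintegral_prod_right' (f := fun p : X r × X r => f p.2 * wt R a (p.1 - p.2)) ?_
  exact (hf.comp measurable_snd).mul ((measurable_wt R a).comp (measurable_fst.sub measurable_snd))

lemma measurable_avT {R a : ℝ} {v : Fin r → ℝ} {f : X r → ℝ≥0∞} (hf : Measurable f) :
    Measurable (avT R a v f) := by
  unfold avT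
  refine Measurable.lintegral_prod_right'
    (f := fun p : X r × X r => f p.2 * wT R a v (p.1 - p.2)) ?_
  exact (hf.comp measurable_snd).mul
    ((measurable_wT R a v).comp (measurable_fst.sub measurable_snd))

lemma finrank_X (r : ℕ) : Module.finrank ℝ (X r) = r + 1 := by
  simp [X]

end DEC
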