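import Pool.Agent.DEC.StmtsB
import Pool.Agent.DEC.WBasic

/-!
# l^2 decoupling, block B: the broad/narrow inequality
-/

open MeasureTheory Finset
open scoped ENNReal Matrix

namespace DEC
namespace BBN

theorem wd {n : ℕ} {w : X n → ℝ≥0∞} (hw : Measurable w) {f : X n → ℝ≥0∞} (hf : Measurable f) :
    ∫⁻ x, f x ∂(volume.withDensity w) = ∫⁻ x, f x * w x := by
  rw [lintegral_withDensity_eq_lintegral_mul _ hw hf]
  refine lintegral_congr fun x => ?_
  simp [mul_comm]

theorem assemble {κ : Type} {n : ℕ} {p R a' a : ℝ} (hp : 2 ≤ p) {m : ℕ} {e : ℝ}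
    {w : X n → ℝ≥0∞} (hw : Measurable w)
    {F : X n → ℂ} (hF : Continuous F) (T : Finset κ) (G : κ → X n → ℂ) (hG : ∀ k, Continuous (G k))
    (Bd : Finset (Fin m → κ)) {α β γ δ ν CA Q : ℝ≥0∞}
    (hloc : ∀ x, (av R a' (pw p F) x) ^ (1 / p) ≤
      α * (∑ k ∈ T, ((av R a' (pw p (G k)) x) ^ (1 / p)) ^ (2 : ℝ)) ^ (1 / 2 : ℝ) +
      β * ∑ t ∈ Bd, ∏ k, (av 1 a (pw 2 (G (t k))) x) ^ (1 / e))
    (hnar : (∑ k ∈ T, (nw p w (G k)) ^ (2 : ℝ)) ^ (1 / 2 : ℝ) ≤ γ * Q)
    (hbr : ∀ t ∈ Bd, ∫⁻ x, (∏ k, (av 1 a (pw 2 (G (t k))) x) ^ (p / e)) * w x ≤ (δ * Q) ^ p)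
    (hcard : (Bd.card : ℝ≥0∞) ≤ ν)
    (hA1 : ∀ f : X n → ℝ≥0∞, Measurable f → ∫⁻ z, av R a' f z * w z ≤ CA * ∫⁻ z, f z * w z)
    (hA2 : ∀ f : X n → ℝ≥0∞, Measurable f → ∫⁻ z, f z * w z ≤ CA * ∫⁻ z, av R a' f z * w z) :
    nw p w F ≤ CA ^ (1 / p) * (α * (CA ^ (1 / p) * (γ * Q)) + β * (ν * (δ * Q))) := by
  have hp0 : 0 < p := by linarith
  have hp1 : 1 ≤ p := by linarith
  have hp' : 0 ≤ 1 / p := by positivity
  have pp : ∀ y : ℝ≥0∞, (y ^ (1 / p)) ^ p = y := by
    intro y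
    rw [← ENNReal.rpow_mul, one_div_mul_cancel hp0.ne', ENNReal.rpow_one]
  have p1 : ∀ y : ℝ≥0∞, (y ^ p) ^ (1 / p) = y := by
    intro y
    rw [← ENNReal.rpow_mul, mul_one_div_cancel hp0.ne', ENNReal.rpow_one]
  have mA : ∀ H : X n → ℂ, Continuous H → Measurable (av R a' (pw p H)) := fun H hH =>
    measurable_av (measurable_pw_of_continuous hH p)
  have mB : ∀ H : X n → ℂ, Continuous H → Measurable (av 1 a (pw 2 H)) := fun H hH =>
    measurable_av (measurable_pw_of_continuous hH 2)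
  set μ : Measure (X n) := volume.withDensity w with hμ
  set N0 : X n → ℝ≥0∞ := fun x =>
    (∑ k ∈ T, ((av R a' (pw p (G k)) x) ^ (1 / p)) ^ (2 : ℝ)) with hN0
  set B0 : X n → ℝ≥0∞ := fun x => ∑ t ∈ Bd, ∏ k, (av 1 a (pw 2 (G (t k))) x) ^ (1 / e) with hB0
  have mN0 : Measurable N0 := by
    apply Finset.measurable_sum
    intro k _
    exact ((mA _ (hG k)).pow_const _).pow_const _
  have mP : ∀ t : Fin m → κ, Measurable fun x => ∏ k, (av 1 a (pw 2 (G (t k))) x) ^ (1 / e) := by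
    intro t
    apply Finset.measurable_prod
    intro k _
    exact (mB _ (hG _)).pow_const _
  have mB0 : Measurable B0 := by
    apply Finset.measurable_sum
    intro t _
    exact mP t
  -- step 1
  have step1 : nw p w F ≤ CA ^ (1 / p) *
      (∫⁻ x, ((av R a' (pw p F) x) ^ (1 / p)) ^ p ∂μ) ^ (1 / p) := by
    have h1 : nw p w F = (∫⁻ x, pw p F x * w x) ^ (1 / p) := rfl
    rw [h1]
    have h2 := ENNReal.rpow_le_rpow (hA2 _ (measurable_pw_of_continuous hF p)) hp'
    refine h2.trans ?_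
    rw [ENNReal.mul_rpow_of_nonneg _ _ hp', ← wd hw (mA F hF)]
    simp only [pp]
    exact le_rfl
  -- step 2
  have step2 : (∫⁻ x, ((av R a' (pw p F) x) ^ (1 / p)) ^ p ∂μ) ^ (1 / p) ≤
      (∫⁻ x, (α * N0 x ^ (1 / 2 : ℝ)) ^ p ∂μ) ^ (1 / p) +
      (∫⁻ x, (β * B0 x) ^ p ∂μ) ^ (1 / p) := by
    have h := ENNReal.lintegral_Lp_add_le (μ := μ) (p := p)
      (f := fun x => α * N0 x ^ (1 / 2 : ℝ)) (g := fun x => β * B0 x)
      ((mN0.pow_const _).const_mul _).aemeasurable (mB0.const_mul _).aemeasurable hp1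
    refine le_trans ?_ h
    refine ENNReal.rpow_le_rpow (lintegral_mono fun x => ?_) hp'
    exact ENNReal.rpow_le_rpow (hloc x) hp0.le
  -- step 3
  have step3 : (∫⁻ x, (α * N0 x ^ (1 / 2 : ℝ)) ^ p ∂μ) ^ (1 / p) ≤
      α * (CA ^ (1 / p) * (γ * Q)) := by
    have h1 : ∀ x, (α * N0 x ^ (1 / 2 : ℝ)) ^ p = α ^ p * N0 x ^ (p / 2) := by
      intro x
      rw [ENNReal.mul_rpow_of_nonneg _ _ hp0.le, ← ENNReal.rpow_mul]
      have : (1 / 2 : ℝ) * p = p / 2 := by ring
      rw [this]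
    simp only [h1]
    rw [lintegral_const_mul _ (mN0.pow_const _), ENNReal.mul_rpow_of_nonneg _ _ hp', p1]
    refine mul_le_mul' le_rfl ?_
    have h2 := BNEnn.mink2 μ p hp T (fun k x => (av R a' (pw p (G k)) x) ^ (1 / p))
      (fun k _ => ((mA _ (hG k)).pow_const _).aemeasurable)
    refine h2.trans ?_
    have h3 : ∀ k ∈ T, (∫⁻ x, ((av R a' (pw p (G k)) x) ^ (1 / p)) ^ p ∂μ) ^ (1 / p) ≤
        CA ^ (1 / p) * nw p w (G k) := by
      intro k _
      simp only [pp]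
      rw [wd hw (mA _ (hG k))]
      have h4 := ENNReal.rpow_le_rpow (hA1 _ (measurable_pw_of_continuous (hG k) p)) hp'
      rw [ENNReal.mul_rpow_of_nonneg _ _ hp'] at h4
      exact h4
    refine (B.l2_mono T h3).trans ?_
    rw [B.l2_const_mul]
    exact mul_le_mul' le_rfl hnar
  -- step 4
  have step4 : (∫⁻ x, (β * B0 x) ^ p ∂μ) ^ (1 / p) ≤ β * (ν * (δ * Q)) := by
    have h1 : ∀ x, (β * B0 x) ^ p = β ^ p * B0 x ^ p := fun x =>
      ENNReal.mul_rpow_of_nonneg _ _ hp0.le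
    simp only [h1]
    rw [lintegral_const_mul _ (mB0.pow_const _), ENNReal.mul_rpow_of_nonneg _ _ hp', p1]
    refine mul_le_mul' le_rfl ?_
    have h2 := BNEnn.mink μ p hp1 Bd (fun t x => ∏ k, (av 1 a (pw 2 (G (t k))) x) ^ (1 / e))
      (fun t _ => (mP t).aemeasurable)
    refine h2.trans ?_
    have h3 : ∀ t ∈ Bd,
        (∫⁻ x, (∏ k, (av 1 a (pw 2 (G (t k))) x) ^ (1 / e)) ^ p ∂μ) ^ (1 / p) ≤ δ * Q := by
      intro t ht
      have h4 : ∀ x, (∏ k, (av 1 a (pw 2 (G (t k))) x) ^ (1 / e)) ^ p =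
          ∏ k, (av 1 a (pw 2 (G (t k))) x) ^ (p / e) := by
        intro x
        rw [← ENNReal.prod_rpow_of_nonneg hp0.le]
        refine Finset.prod_congr rfl fun k _ => ?_
        rw [← ENNReal.rpow_mul]
        have : 1 / e * p = p / e := by ring
        rw [this]
      simp only [h4]
      have mQ : Measurable fun x => ∏ k, (av 1 a (pw 2 (G (t k))) x) ^ (p / e) := by
        apply Finset.measurable_prod
        intro k _
        exact (mB _ (hG _)).pow_const _
      rw [wd hw mQ]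
      have h5 := ENNReal.rpow_le_rpow (hbr t ht) hp'
      rw [p1] at h5
      exact h5
    calc ∑ t ∈ Bd, (∫⁻ x, (∏ k, (av 1 a (pw 2 (G (t k))) x) ^ (1 / e)) ^ p ∂μ) ^ (1 / p)
        ≤ ∑ _t ∈ Bd, δ * Q := Finset.sum_le_sum h3
      _ = (Bd.card : ℝ≥0∞) * (δ * Q) := by rw [Finset.sum_const, nsmul_eq_mul]
      _ ≤ ν * (δ * Q) := mul_le_mul' hcard le_rfl
  refine step1.trans (mul_le_mul' le_rfl (step2.trans (add_le_add step3 step4)))

variable {r : ℕ}

theorem cell_close {K : ℝ} (hK : 0 < K) {x y : Fin r → ℝ} (h : cel K x = cel K y) :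
    ‖x - y‖ ≤ 1 / K := by
  rw [pi_norm_le_iff_of_nonneg (by positivity)]
  intro i
  have h1 : ⌊K * x i⌋ = ⌊K * y i⌋ := congrFun h i
  have h2 := Int.abs_sub_lt_one_of_floor_eq_floor h1
  rw [Pi.sub_apply, Real.norm_eq_abs, le_div_iff₀ hK]
  have h3 : |x i - y i| * K = |K * x i - K * y i| := by
    rw [← mul_sub, abs_mul, abs_of_pos hK]; ring
  rw [h3]
  exact h2.le

theorem card_T {K : ℝ} (hK : 1 ≤ K) {ι : Type} (S : Finset ι) (c : ι → Fin r → ℝ)
    (hc : ∀ i ∈ S, ‖c i‖ ≤ 1) :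
    ((S.image fun i => cel K (c i)).card : ℝ) ≤ (4 * K) ^ r := by
  classical
  have hK0 : 0 < K := by linarith
  have hsub : (S.image fun i => cel K (c i)) ⊆
      Fintype.piFinset (fun _ : Fin r => Finset.Icc ⌊-K⌋ ⌊K⌋) := by
    intro k hk
    obtain ⟨i, hi, rfl⟩ := Finset.mem_image.1 hk
    rw [Fintype.mem_piFinset]
    intro j
    have h1 : |c i j| ≤ 1 := by
      have := norm_le_pi_norm (c i) j
      rw [Real.norm_eq_abs] at this
      exact this.trans (hc i hi)
    have h2 := abs_le.1 h1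
    rw [Finset.mem_Icc]
    unfold cel
    constructor
    · apply Int.floor_le_floor
      nlinarith
    · apply Int.floor_le_floor
      nlinarith
  have h := Finset.card_le_card hsub
  rw [Fintype.card_piFinset, Finset.prod_const, Finset.card_univ, Fintype.card_fin,
    Int.card_Icc] at h
  have h1 : (((⌊K⌋ + 1 - ⌊-K⌋).toNat : ℕ) : ℝ) ≤ 4 * K := by
    have h2 : (0 : ℤ) ≤ ⌊K⌋ + 1 - ⌊-K⌋ := by
      have : ⌊-K⌋ ≤ ⌊K⌋ := Int.floor_le_floor (by linarith)
      linarith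
    have h3 : (((⌊K⌋ + 1 - ⌊-K⌋).toNat : ℕ) : ℝ) = ((⌊K⌋ + 1 - ⌊-K⌋ : ℤ) : ℝ) := by
      have h4 : (((⌊K⌋ + 1 - ⌊-K⌋).toNat : ℕ) : ℤ) = ⌊K⌋ + 1 - ⌊-K⌋ := Int.toNat_of_nonneg h2
      exact_mod_cast h4
    rw [h3]
    push_cast
    have h5 := Int.floor_le K
    have h6 := Int.lt_floor_add_one (-K)
    linarith
  calc ((S.image fun i => cel K (c i)).card : ℝ) ≤ (((⌊K⌋ + 1 - ⌊-K⌋).toNat ^ r : ℕ) : ℝ) := by
        exact_mod_cast h
    _ = (((⌊K⌋ + 1 - ⌊-K⌋).toNat : ℕ) : ℝ) ^ r := by push_cast; rfl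
    _ ≤ (4 * K) ^ r := pow_le_pow_left₀ (Nat.cast_nonneg _) h1 r

theorem rpow_ofReal_le {C p : ℝ} (hC : 1 ≤ C) (hp : 1 ≤ p) :
    ENNReal.ofReal C ^ (1 / p) ≤ ENNReal.ofReal C := by
  have h1 : (1 : ℝ≥0∞) ≤ ENNReal.ofReal C := by rw [ENNReal.one_le_ofReal]; exact hC
  calc ENNReal.ofReal C ^ (1 / p) ≤ ENNReal.ofReal C ^ (1 : ℝ) := by
        refine ENNReal.rpow_le_rpow_of_exponent_le h1 ?_
        rw [div_le_one (by linarith)]; exact hp
    _ = _ := ENNReal.rpow_one _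

end BBN

open BBN in
open Classical in
theorem t_BN (h1 : Stmt_Loc) (h2 : Stmt_PR) (h3 : Stmt_AvBasic) (h4 : Stmt_WtBasic) :
    Stmt_BN := by
  intro r p E a l L b hp hE ha hl hb
  have hp1 : 1 ≤ p := by linarith
  have hE' : a * p / 2 + (r : ℝ) + 2 < a * p / 2 + E + r + 3 := by linarith
  obtain ⟨b', c, CL, hb', hc, hc1, hCL, HL⟩ := h1 r p a l L b hp ha hl hb _ hE'
  obtain ⟨CP, hCP, HP⟩ := h2 (r + 1) p E l L 1 hp1 hE hl
  have hEa : E + ((r + 1 : ℕ) : ℝ) + 1 < a * p / 2 + E + r + 3 := by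
    push_cast
    have : 0 ≤ a * p / 2 := by positivity
    linarith
  obtain ⟨CA, hCA, HA⟩ := h3.2.2.2 (r + 1) _ E hE hEa
  set C1 : ℝ := max CA 1 with hC1
  have hC11 : 1 ≤ C1 := le_max_right _ _
  have hC1A : CA ≤ C1 := le_max_left _ _
  have hC10 : 0 < C1 := by linarith
  set m : ℕ := (r + 1) * (r + 2) with hm
  set C : ℝ := C1 * (CL * (C1 * CP)) + C1 * (CL * 4 ^ m) + CL + m with hC
  have hCpos : 0 < C := by positivity
  refine ⟨a * p / 2 + E + r + 3, (r + 2) * L, b', c, C, by positivity, hb', hc, hCpos, ?_⟩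
  intro K N D' D₁ M hcK hK hKN hD' hD₁ hM hDec' hDec hMDec A hA ι S c' F hFam w hw
  have hK0 : 0 < K := by linarith
  have hN0 : 0 < N := by linarith
  obtain ⟨hwm, hwmono⟩ := (h4 (r + 1) (N ^ 2) E (by positivity) hE).1 w hw
  have hwK : Wt (K ^ 2) E w := hwmono (K ^ 2) E (by positivity) (by gcongr) le_rfl
  have hFc : ∀ i ∈ S, Continuous (F i) := fun i hi => (hFam.trig i hi).continuous
  have hlocx := HL K N D' hcK hKN hD' hDec' A hA ι S c' F hFam
  have hA1 : ∀ f : X (r + 1) → ℝ≥0∞, Measurable f →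
      ∫⁻ z, av (K ^ 2) (a * p / 2 + E + r + 3) f z * w z ≤ ENNReal.ofReal C1 * ∫⁻ z, f z * w z :=
    fun f hf => ((HA (K ^ 2) w (by positivity) hwK f hf).1).trans
      (mul_le_mul' (ENNReal.ofReal_le_ofReal hC1A) le_rfl)
  have hA2 : ∀ f : X (r + 1) → ℝ≥0∞, Measurable f →
      ∫⁻ z, f z * w z ≤ ENNReal.ofReal C1 *
        ∫⁻ z, av (K ^ 2) (a * p / 2 + E + r + 3) f z * w z :=
    fun f hf => ((HA (K ^ 2) w (by positivity) hwK f hf).2).trans
      (mul_le_mul' (ENNReal.ofReal_le_ofReal hC1A) le_rfl)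
  have hmain := assemble (p := p) (R := K ^ 2) (a' := a * p / 2 + E + r + 3) (a := a) hp
    (m := r + 2) (e := 2 * ((r : ℝ) + 2)) hwm
    (F := fun z => ∑ i ∈ S, F i z) (continuous_finsetSum _ hFc)
    (S.image fun i => cel K (c' i))
    (fun k z => ∑ i ∈ S.filter (fun i => cel K (c' i) = k), F i z)
    (fun k => continuous_finsetSum _ fun i hi => hFc i (Finset.mem_filter.1 hi).1)
    ((Fintype.piFinset fun _ : Fin (r + 2) => S.image fun i => cel K (c' i)).filter
      (fun t => Tr (c * K ^ (-((r : ℝ) + 2)))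
        (fun k => S.filter fun i => cel K (c' i) = t k) c'))
    (α := ENNReal.ofReal (CL * (D' + 1))) (β := ENNReal.ofReal (CL * K ^ CL))
    (γ := ENNReal.ofReal (CP * D₁)) (δ := ENNReal.ofReal M)
    (ν := ENNReal.ofReal ((4 * K) ^ m)) (CA := ENNReal.ofReal C1) (Q := sq p w S F)
    hlocx ?_ ?_ ?_ hA1 hA2
  · -- final estimate
    refine hmain.trans ?_
    have e1 : ENNReal.ofReal C1 ^ (1 / p) ≤ ENNReal.ofReal C1 := rpow_ofReal_le hC11 hp1
    calc ENNReal.ofReal C1 ^ (1 / p) * (ENNReal.ofReal (CL * (D' + 1)) *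
          (ENNReal.ofReal C1 ^ (1 / p) * (ENNReal.ofReal (CP * D₁) * sq p w S F)) +
          ENNReal.ofReal (CL * K ^ CL) * (ENNReal.ofReal ((4 * K) ^ m) *
            (ENNReal.ofReal M * sq p w S F)))
        ≤ ENNReal.ofReal C1 * (ENNReal.ofReal (CL * (D' + 1)) *
          (ENNReal.ofReal C1 * (ENNReal.ofReal (CP * D₁) * sq p w S F)) +
          ENNReal.ofReal (CL * K ^ CL) * (ENNReal.ofReal ((4 * K) ^ m) *
            (ENNReal.ofReal M * sq p w S F))) := by gcongr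
      _ = (ENNReal.ofReal C1 * (ENNReal.ofReal (CL * (D' + 1)) *
          (ENNReal.ofReal C1 * ENNReal.ofReal (CP * D₁))) +
          ENNReal.ofReal C1 * (ENNReal.ofReal (CL * K ^ CL) * (ENNReal.ofReal ((4 * K) ^ m) *
            ENNReal.ofReal M))) * sq p w S F := by ring
      _ = ENNReal.ofReal (C1 * (CL * (D' + 1) * (C1 * (CP * D₁))) +
          C1 * (CL * K ^ CL * ((4 * K) ^ m * M))) * sq p w S F := by
          have q1 : ENNReal.ofReal (C1 * (CL * (D' + 1) * (C1 * (CP * D₁)))) =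
              ENNReal.ofReal C1 * (ENNReal.ofReal (CL * (D' + 1)) *
                (ENNReal.ofReal C1 * ENNReal.ofReal (CP * D₁))) := by
            rw [ENNReal.ofReal_mul (p := C1) (q := CL * (D' + 1) * (C1 * (CP * D₁))) hC10.le,
              ENNReal.ofReal_mul (p := CL * (D' + 1)) (q := C1 * (CP * D₁)) (by positivity),
              ENNReal.ofReal_mul (p := C1) (q := CP * D₁) hC10.le]
          have q2 : ENNReal.ofReal (C1 * (CL * K ^ CL * ((4 * K) ^ m * M))) =
              ENNReal.ofReal C1 * (ENNReal.ofReal (CL * K ^ CL) *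
                (ENNReal.ofReal ((4 * K) ^ m) * ENNReal.ofReal M)) := by
            rw [ENNReal.ofReal_mul (p := C1) (q := CL * K ^ CL * ((4 * K) ^ m * M)) hC10.le,
              ENNReal.ofReal_mul (p := CL * K ^ CL) (q := (4 * K) ^ m * M) (by positivity),
              ENNReal.ofReal_mul (p := (4 * K) ^ m) (q := M) (by positivity)]
          rw [ENNReal.ofReal_add (by positivity) (by positivity), q1, q2]
      _ ≤ ENNReal.ofReal (C * (D' + 1) * D₁ + C * K ^ C * M) * sq p w S F := by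
          refine mul_le_mul' (ENNReal.ofReal_le_ofReal ?_) le_rfl
          have hpow : K ^ CL * K ^ (m : ℝ) ≤ K ^ C := by
            rw [← Real.rpow_add hK0]
            apply Real.rpow_le_rpow_of_exponent_le hK
            have : 0 < C1 * (CL * (C1 * CP)) + C1 * (CL * 4 ^ m) := by positivity
            rw [hC]; linarith
          have hcoef1 : C1 * (CL * (C1 * CP)) ≤ C := by
            have : 0 < C1 * (CL * 4 ^ m) + CL + m := by positivity
            rw [hC]; linarith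
          have hcoef2 : C1 * (CL * 4 ^ m) ≤ C := by
            have : 0 < C1 * (CL * (C1 * CP)) := by positivity
            have h5 : (0 : ℝ) ≤ m := Nat.cast_nonneg m
            rw [hC]; linarith
          apply add_le_add
          · calc C1 * (CL * (D' + 1) * (C1 * (CP * D₁)))
                = C1 * (CL * (C1 * CP)) * ((D' + 1) * D₁) := by ring
              _ ≤ C * ((D' + 1) * D₁) := by gcongr
              _ = C * (D' + 1) * D₁ := by ring
          · calc C1 * (CL * K ^ CL * ((4 * K) ^ m * M))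
                = C1 * (CL * 4 ^ m) * (K ^ CL * K ^ (m : ℝ)) * M := by
                  rw [Real.rpow_natCast, mul_pow]; ring
              _ ≤ C * K ^ C * M := by gcongr
  · -- narrow terms
    have hk : ∀ k ∈ S.image (fun i => cel K (c' i)),
        nw p w (fun z => ∑ i ∈ S.filter (fun i => cel K (c' i) = k), F i z) ≤
          ENNReal.ofReal (CP * D₁) * sq p w (S.filter fun i => cel K (c' i) = k) F := by
      intro k hk
      obtain ⟨i₀, hi₀, hik⟩ := Finset.mem_image.1 hk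
      refine HP b N K D₁ hK hKN hD₁ hDec A ι _ c' F (c' i₀) hA ?_ ?_ (hFam.ball i₀ hi₀) ?_ w hw
      · intro i hi j hj hij
        exact hFam.sep i (Finset.mem_filter.1 hi).1 j (Finset.mem_filter.1 hj).1 hij
      · intro i hi
        exact hFam.trig i (Finset.mem_filter.1 hi).1
      · intro i hi
        apply cell_close hK0
        rw [(Finset.mem_filter.1 hi).2, hik]
    exact B.sq_groups S F (fun i => cel K (c' i)) (S.image fun i => cel K (c' i))
      (fun i hi => Finset.mem_image_of_mem (fun i => cel K (c' i)) hi) _ hk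
  · -- broad terms
    intro t ht
    have htr := (Finset.mem_filter.1 ht).2
    have hM' := hMDec A hA ι S c' F hFam (fun k => S.filter fun i => cel K (c' i) = t k)
      (fun k => Finset.filter_subset _ _) htr w hw
    have e : (((r + 1 : ℕ) : ℝ) + 1) = (r : ℝ) + 2 := by push_cast; ring
    rw [e] at hM'
    exact hM'
  · -- the number of tuples
    have hc0 := card_T hK S c' hFam.ball
    have h5 : (((Fintype.piFinset fun _ : Fin (r + 2) => S.image fun i => cel K (c' i)).filter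
      (fun t => Tr (c * K ^ (-((r : ℝ) + 2)))
        (fun k => S.filter fun i => cel K (c' i) = t k) c')).card : ℝ) ≤ (4 * K) ^ m := by
      calc (((Fintype.piFinset fun _ : Fin (r + 2) => S.image fun i => cel K (c' i)).filter
          (fun t => Tr (c * K ^ (-((r : ℝ) + 2)))
            (fun k => S.filter fun i => cel K (c' i) = t k) c')).card : ℝ)
          ≤ ((Fintype.piFinset fun _ : Fin (r + 2) => S.image fun i => cel K (c' i)).card : ℝ) := by
            exact_mod_cast Finset.card_filter_le _ _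
        _ = ((S.image fun i => cel K (c' i)).card : ℝ) ^ (r + 2) := by
            rw [Fintype.card_piFinset, Finset.prod_const, Finset.card_univ, Fintype.card_fin]
            push_cast
            rfl
        _ ≤ ((4 * K) ^ (r + 1)) ^ (r + 2) := pow_le_pow_left₀ (Nat.cast_nonneg _) hc0 _
        _ = (4 * K) ^ m := by rw [← pow_mul]
    rw [← ENNReal.ofReal_natCast]
    exact ENNReal.ofReal_le_ofReal h5

end DEC
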