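import Mathlib

/-!
# Minkowski and Cauchy-Schwarz for lower integrals
-/

namespace DEC
namespace BNEnn

open MeasureTheory Finset
open scoped ENNReal

variable {α ι : Type*} [MeasurableSpace α]

/-- Minkowski for finite sums -/
theorem mink (μ : Measure α) (q : ℝ) (hq : 1 ≤ q) (s : Finset ι) (f : ι → α → ℝ≥0∞)
    (hf : ∀ c ∈ s, AEMeasurable (f c) μ) :
    (∫⁻ x, (∑ c ∈ s, f c x) ^ q ∂μ) ^ (1 / q) ≤ ∑ c ∈ s, (∫⁻ x, f c x ^ q ∂μ) ^ (1 / q) := by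
  classical
  induction s using Finset.induction_on with
  | empty =>
    simp only [Finset.sum_empty]
    rw [ENNReal.zero_rpow_of_pos (by linarith)]
    simp only [lintegral_zero]
    rw [ENNReal.zero_rpow_of_pos (by positivity)]
  | insert a s ha ih =>
    rw [Finset.sum_insert ha]
    have h1 : ∀ x, (∑ c ∈ insert a s, f c x) = (f a + fun x => ∑ c ∈ s, f c x) x := by
      intro x; rw [Finset.sum_insert ha]; rfl
    simp only [h1]
    have hs : ∀ c ∈ s, AEMeasurable (f c) μ := fun c hc => hf c (Finset.mem_insert_of_mem hc)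
    have hsum : AEMeasurable (fun x => ∑ c ∈ s, f c x) μ := by
      have := Finset.aemeasurable_sum s hs
      refine this.congr ?_
      filter_upwards with x
      simp
    refine le_trans (ENNReal.lintegral_Lp_add_le (hf a (Finset.mem_insert_self a s)) hsum hq) ?_
    exact add_le_add le_rfl (ih hs)

/-- `l^2` form of Minkowski, `p ≥ 2` -/
theorem mink2 (μ : Measure α) (p : ℝ) (hp : 2 ≤ p) (s : Finset ι) (g : ι → α → ℝ≥0∞)
    (hg : ∀ c ∈ s, AEMeasurable (g c) μ) :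
    (∫⁻ x, (∑ c ∈ s, g c x ^ (2 : ℝ)) ^ (p / 2) ∂μ) ^ (1 / p) ≤
      (∑ c ∈ s, ((∫⁻ x, g c x ^ p ∂μ) ^ (1 / p)) ^ (2 : ℝ)) ^ (1 / 2 : ℝ) := by
  have h := mink μ (p / 2) (by linarith) s (fun c x => g c x ^ (2 : ℝ)) (fun c hc => (hg c hc).pow_const _)
  have h1 : (∫⁻ x, (∑ c ∈ s, g c x ^ (2 : ℝ)) ^ (p / 2) ∂μ) ^ (1 / p) =
      ((∫⁻ x, (∑ c ∈ s, g c x ^ (2 : ℝ)) ^ (p / 2) ∂μ) ^ (1 / (p / 2))) ^ (1 / 2 : ℝ) := by
    rw [← ENNReal.rpow_mul]; congr 1; field_simp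
  rw [h1]
  refine ENNReal.rpow_le_rpow (le_trans h (le_of_eq ?_)) (by norm_num)
  refine Finset.sum_congr rfl fun c _ => ?_
  have h2 : ∀ x, (g c x ^ (2 : ℝ)) ^ (p / 2) = g c x ^ p := by
    intro x; rw [← ENNReal.rpow_mul]; congr 1; ring
  simp only [h2]
  rw [← ENNReal.rpow_mul]; congr 1; field_simp

/-- Cauchy-Schwarz for a finite sum -/
theorem cs (s : Finset ι) (a : ι → ℝ≥0∞) :
    ∑ c ∈ s, a c ≤ (s.card : ℝ≥0∞) ^ (1 / 2 : ℝ) * (∑ c ∈ s, a c ^ (2 : ℝ)) ^ (1 / 2 : ℝ) := by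
  have h := ENNReal.inner_le_Lp_mul_Lq s (fun _ => 1) a (Real.HolderConjugate.two_two)
  simpa using h

/-- a term is at most the `l^2` sum -/
theorem le_l2 (s : Finset ι) (a : ι → ℝ≥0∞) (c : ι) (hc : c ∈ s) :
    a c ≤ (∑ c ∈ s, a c ^ (2 : ℝ)) ^ (1 / 2 : ℝ) := by
  have h : a c ^ (2 : ℝ) ≤ ∑ c ∈ s, a c ^ (2 : ℝ) :=
    Finset.single_le_sum (f := fun c => a c ^ (2 : ℝ)) (fun _ _ => bot_le) hc
  calc a c = (a c ^ (2 : ℝ)) ^ (1 / 2 : ℝ) := by rw [← ENNReal.rpow_mul]; norm_num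
    _ ≤ _ := ENNReal.rpow_le_rpow h (by norm_num)

end BNEnn
end DEC
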