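import Pool.Agent.DEC.Stmts
import Pool.Agent.DEC.BNEnn

/-!
# Basic facts on trigonometric sums and weighted norms (used by block B)
-/

open MeasureTheory Finset
open scoped ENNReal Matrix

namespace DEC
namespace B

/-! ### Trigonometric sums -/

theorem norm_ee (θ : ℝ) : ‖ee θ‖ = 1 := by
  unfold ee
  have h : (2 * Real.pi * θ * Complex.I : ℂ) = ((2 * Real.pi * θ : ℝ) : ℂ) * Complex.I := by
    push_cast; ring
  rw [h, Complex.norm_exp_ofReal_mul_I]

theorem ee_add (x y : ℝ) : ee (x + y) = ee x * ee y := by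
  unfold ee; rw [← Complex.exp_add]; congr 1; push_cast; ring

theorem ee_zero : ee 0 = 1 := by simp [ee]

theorem continuous_ee : Continuous ee := by unfold ee; fun_prop

theorem continuous_pr {r : ℕ} (w : X r) : Continuous fun z : X r => pr w z := by
  unfold pr dotProduct; fun_prop

theorem Trig.continuous {r : ℕ} {F : X r → ℂ} {S : Set (X r)} (h : Trig F S) : Continuous F := by
  obtain ⟨m, a, w, _, hF⟩ := h
  have : F = fun z => ∑ i, a i * ee (pr (w i) z) := funext hF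
  rw [this]
  exact continuous_finset_sum _ fun i _ => continuous_const.mul (continuous_ee.comp (continuous_pr _))

theorem Trig.mono {r : ℕ} {F : X r → ℂ} {S S' : Set (X r)} (h : Trig F S) (hS : S ⊆ S') :
    Trig F S' := by
  obtain ⟨m, a, w, hw, hF⟩ := h
  exact ⟨m, a, w, fun i => hS (hw i), hF⟩

theorem Trig.zero {r : ℕ} (S : Set (X r)) : Trig (fun _ => 0) S :=
  ⟨0, fun i => i.elim0, fun i => i.elim0, fun i => i.elim0, fun z => by simp⟩

theorem Trig.add {r : ℕ} {F G : X r → ℂ} {S : Set (X r)} (hF : Trig F S) (hG : Trig G S) :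
    Trig (fun z => F z + G z) S := by
  obtain ⟨m, a, w, hw, hF⟩ := hF
  obtain ⟨m', a', w', hw', hG⟩ := hG
  refine ⟨m + m', Fin.append a a', Fin.append w w', ?_, ?_⟩
  · intro i
    induction i using Fin.addCases with
    | left i => simpa using hw i
    | right i => simpa using hw' i
  · intro z
    show F z + G z = _
    rw [Fin.sum_univ_add, hF, hG]
    simp

theorem Trig.sum {r : ℕ} {ι : Type*} {S : Set (X r)} (T : Finset ι) (F : ι → X r → ℂ)
    (h : ∀ i ∈ T, Trig (F i) S) : Trig (fun z => ∑ i ∈ T, F i z) S := by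
  classical
  induction T using Finset.induction_on with
  | empty => simpa using Trig.zero S
  | insert a T ha ih =>
    have h1 := ih fun i hi => h i (Finset.mem_insert_of_mem hi)
    have h2 := Trig.add (h a (Finset.mem_insert_self _ _)) h1
    simp only [Finset.sum_insert ha]
    exact h2

/-- change of the coefficients by factors depending on the frequency, and of the frequencies -/
theorem Trig.map {r r' : ℕ} {F : X r → ℂ} {G : X r' → ℂ} {S : Set (X r)} {S' : Set (X r')}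
    (h : Trig F S) (φ : X r → X r') (hφ : ∀ w ∈ S, φ w ∈ S') (u : X r → ℂ)
    (hG : ∀ (m : ℕ) (a : Fin m → ℂ) (w : Fin m → X r), (∀ z, F z = ∑ i, a i * ee (pr (w i) z)) →
      ∀ z, G z = ∑ i, (a i * u (w i)) * ee (pr (φ (w i)) z)) : Trig G S' := by
  obtain ⟨m, a, w, hw, hF⟩ := h
  exact ⟨m, fun i => a i * u (w i), fun i => φ (w i), fun i => hφ _ (hw i), hG m a w hF⟩

/-- a trigonometric sum is bounded -/
theorem Trig.bounded {r : ℕ} {F : X r → ℂ} {S : Set (X r)} (h : Trig F S) :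
    ∃ C : ℝ, ∀ z, ‖F z‖ ≤ C := by
  obtain ⟨m, a, w, _, hF⟩ := h
  refine ⟨∑ i, ‖a i‖, fun z => ?_⟩
  rw [hF z]
  refine le_trans (norm_sum_le _ _) (Finset.sum_le_sum fun i _ => ?_)
  rw [norm_mul, norm_ee, mul_one]

/-! ### Weighted norms -/

variable {r : ℕ}

theorem nw_eq (p : ℝ) {w : X r → ℝ≥0∞} (hw : Measurable w) {F : X r → ℂ} (hF : Measurable F) :
    nw p w F = (∫⁻ x, ‖F x‖ₑ ^ p ∂(volume.withDensity w)) ^ (1 / p) := by
  unfold nw
  rw [lintegral_withDensity_eq_lintegral_mul _ hw (hF.enorm.pow_const p)]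
  congr 1
  refine lintegral_congr fun x => ?_
  simp [mul_comm]

theorem nw_add_le {p : ℝ} (hp : 1 ≤ p) {w : X r → ℝ≥0∞} (hw : Measurable w) {F G : X r → ℂ}
    (hF : Measurable F) (hG : Measurable G) :
    nw p w (fun z => F z + G z) ≤ nw p w F + nw p w G := by
  rw [nw_eq p hw hF, nw_eq p hw hG, nw_eq p hw (F := fun z => F z + G z) (hF.add hG)]
  refine le_trans ?_ (ENNReal.lintegral_Lp_add_le (μ := volume.withDensity w)
    hF.enorm.aemeasurable hG.enorm.aemeasurable hp)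
  refine ENNReal.rpow_le_rpow (lintegral_mono fun x => ?_) (by positivity)
  exact ENNReal.rpow_le_rpow (enorm_add_le _ _) (by linarith)

theorem nw_zero {p : ℝ} (hp : 0 < p) (w : X r → ℝ≥0∞) : nw p w (fun _ => 0) = 0 := by
  unfold nw
  simp [ENNReal.zero_rpow_of_pos hp, hp]

theorem nw_sum_le {p : ℝ} (hp : 1 ≤ p) {w : X r → ℝ≥0∞} (hw : Measurable w) {ι : Type*}
    (S : Finset ι) (F : ι → X r → ℂ) (hF : ∀ i ∈ S, Measurable (F i)) :
    nw p w (fun z => ∑ i ∈ S, F i z) ≤ ∑ i ∈ S, nw p w (F i) := by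
  classical
  induction S using Finset.induction_on with
  | empty => simp [nw_zero (by linarith : 0 < p)]
  | insert a S ha ih =>
    simp only [Finset.sum_insert ha]
    have hS : ∀ i ∈ S, Measurable (F i) := fun i hi => hF i (Finset.mem_insert_of_mem hi)
    refine le_trans (nw_add_le hp hw (hF a (Finset.mem_insert_self _ _))
      (Finset.measurable_sum S hS)) ?_
    exact add_le_add le_rfl (ih hS)

theorem nw_congr (p : ℝ) (w : X r → ℝ≥0∞) {F G : X r → ℂ} (h : ∀ z, ‖F z‖ = ‖G z‖) :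
    nw p w F = nw p w G := by
  unfold nw
  congr 1
  refine lintegral_congr fun x => ?_
  have : ‖F x‖ₑ = ‖G x‖ₑ := by rw [← ofReal_norm_eq_enorm, ← ofReal_norm_eq_enorm, h x]
  rw [this]

theorem nw_neg (p : ℝ) (w : X r → ℝ≥0∞) (F : X r → ℂ) : nw p w (fun z => -F z) = nw p w F :=
  nw_congr p w fun z => norm_neg _

theorem nw_sub_le {p : ℝ} (hp : 1 ≤ p) {w : X r → ℝ≥0∞} (hw : Measurable w) {F G : X r → ℂ}
    (hF : Measurable F) (hG : Measurable G) :
    nw p w (fun z => F z - G z) ≤ nw p w F + nw p w G := by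
  have h := nw_add_le hp hw hF hG.neg
  simp only [Pi.neg_apply] at h
  have h2 : nw p w (-G) = nw p w G := nw_neg p w G
  rw [h2] at h
  simpa [sub_eq_add_neg] using h

/-- change of the weight -/
theorem nw_mono {p : ℝ} (hp : 0 < p) {w w' : X r → ℝ≥0∞} (h : ∀ x, w x ≤ w' x) (F : X r → ℂ) :
    nw p w F ≤ nw p w' F := by
  unfold nw
  refine ENNReal.rpow_le_rpow (lintegral_mono fun x => ?_) (by positivity)
  exact mul_le_mul_right (h x) _

theorem nw_le_mul {p : ℝ} (hp : 0 < p) {w w' : X r → ℝ≥0∞} (B : ℝ≥0∞) (hB : B ≠ ⊤)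
    (h : ∀ x, w x ≤ B * w' x) (F : X r → ℂ) : nw p w F ≤ B ^ (1 / p) * nw p w' F := by
  unfold nw
  rw [← ENNReal.mul_rpow_of_nonneg _ _ (by positivity)]
  refine ENNReal.rpow_le_rpow ?_ (by positivity)
  rw [← lintegral_const_mul' B _ hB]
  refine lintegral_mono fun x => ?_
  calc ‖F x‖ₑ ^ p * w x ≤ ‖F x‖ₑ ^ p * (B * w' x) := mul_le_mul_right (h x) _
    _ = B * (‖F x‖ₑ ^ p * w' x) := by ring

/-- `B ≥ 1` gives `B^(1/p) ≤ B`, the version with a real constant -/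
theorem nw_le_ofReal {p : ℝ} (hp : 1 ≤ p) {w w' : X r → ℝ≥0∞} (B : ℝ) (hB : 1 ≤ B)
    (h : ∀ x, w x ≤ ENNReal.ofReal B * w' x) (F : X r → ℂ) :
    nw p w F ≤ ENNReal.ofReal B * nw p w' F := by
  refine le_trans (nw_le_mul (by linarith) (ENNReal.ofReal B) ENNReal.ofReal_ne_top h F) ?_
  refine mul_le_mul_left ?_ _
  have h1 : (1 : ℝ≥0∞) ≤ ENNReal.ofReal B := by rw [ENNReal.one_le_ofReal]; exact hB
  calc ENNReal.ofReal B ^ (1 / p) ≤ ENNReal.ofReal B ^ (1 : ℝ) := by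
        refine ENNReal.rpow_le_rpow_of_exponent_le h1 ?_
        rw [div_le_one (by linarith)]; exact hp
    _ = _ := ENNReal.rpow_one _

/-- a pointwise bound -/
theorem nw_mono_fun {p : ℝ} (hp : 0 < p) (w : X r → ℝ≥0∞) {F G : X r → ℂ} (h : ∀ z, ‖F z‖ ≤ ‖G z‖) :
    nw p w F ≤ nw p w G := by
  unfold nw
  refine ENNReal.rpow_le_rpow (lintegral_mono fun x => ?_) (by positivity)
  refine mul_le_mul_left (ENNReal.rpow_le_rpow ?_ hp.le) _
  rw [← ofReal_norm_eq_enorm, ← ofReal_norm_eq_enorm]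
  exact ENNReal.ofReal_le_ofReal (h x)

theorem sq_mono_weight {ι : Type} {p : ℝ} (hp : 0 < p) {w w' : X r → ℝ≥0∞} (h : ∀ x, w x ≤ w' x)
    (S : Finset ι) (F : ι → X r → ℂ) : sq p w S F ≤ sq p w' S F := by
  unfold sq
  refine ENNReal.rpow_le_rpow (Finset.sum_le_sum fun i _ => ?_) (by norm_num)
  exact ENNReal.rpow_le_rpow (nw_mono hp h _) (by norm_num)

theorem sq_le_ofReal {ι : Type} {p : ℝ} (hp : 1 ≤ p) {w w' : X r → ℝ≥0∞} (B : ℝ) (hB : 1 ≤ B)
    (h : ∀ x, w x ≤ ENNReal.ofReal B * w' x) (S : Finset ι) (F : ι → X r → ℂ) :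
    sq p w S F ≤ ENNReal.ofReal B * sq p w' S F := by
  unfold sq
  have h1 : ENNReal.ofReal B * (∑ i ∈ S, nw p w' (F i) ^ (2 : ℝ)) ^ (1 / 2 : ℝ) =
      (∑ i ∈ S, (ENNReal.ofReal B * nw p w' (F i)) ^ (2 : ℝ)) ^ (1 / 2 : ℝ) := by
    have : ∀ i, (ENNReal.ofReal B * nw p w' (F i)) ^ (2 : ℝ) =
        ENNReal.ofReal B ^ (2 : ℝ) * nw p w' (F i) ^ (2 : ℝ) := fun i =>
      ENNReal.mul_rpow_of_nonneg _ _ (by norm_num)
    simp only [this]
    rw [← Finset.mul_sum, ENNReal.mul_rpow_of_nonneg _ _ (by norm_num), ← ENNReal.rpow_mul]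
    norm_num
  rw [h1]
  refine ENNReal.rpow_le_rpow (Finset.sum_le_sum fun i _ => ?_) (by norm_num)
  exact ENNReal.rpow_le_rpow (nw_le_ofReal hp B hB h _) (by norm_num)

theorem sq_subset {ι : Type} (p : ℝ) (w : X r → ℝ≥0∞) {S T : Finset ι} (h : S ⊆ T)
    (F : ι → X r → ℂ) : sq p w S F ≤ sq p w T F := by
  unfold sq
  exact ENNReal.rpow_le_rpow (Finset.sum_le_sum_of_subset h) (by norm_num)

theorem nw_le_sq {ι : Type} (p : ℝ) (w : X r → ℝ≥0∞) (S : Finset ι) (F : ι → X r → ℂ) (i : ι)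
    (hi : i ∈ S) : nw p w (F i) ≤ sq p w S F :=
  BNEnn.le_l2 S (fun i => nw p w (F i)) i hi

/-- Cauchy-Schwarz: the trivial decoupling inequality -/
theorem nw_sum_le_sq {ι : Type} {p : ℝ} (hp : 1 ≤ p) {w : X r → ℝ≥0∞} (hw : Measurable w)
    (S : Finset ι) (F : ι → X r → ℂ) (hF : ∀ i ∈ S, Measurable (F i)) :
    nw p w (fun z => ∑ i ∈ S, F i z) ≤ (S.card : ℝ≥0∞) ^ (1 / 2 : ℝ) * sq p w S F :=
  le_trans (nw_sum_le hp hw S F hF) (BNEnn.cs S fun i => nw p w (F i))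

/-- a partition into fibres: `(∑_k (sq over the fibre)^2)^(1/2) = sq` -/
theorem sq_fiber {ι κ : Type} [DecidableEq κ] (p : ℝ) (w : X r → ℝ≥0∞) (S : Finset ι)
    (F : ι → X r → ℂ) (g : ι → κ) (T : Finset κ) (hg : ∀ i ∈ S, g i ∈ T) :
    (∑ k ∈ T, sq p w (S.filter fun i => g i = k) F ^ (2 : ℝ)) ^ (1 / 2 : ℝ) = sq p w S F := by
  unfold sq
  congr 1
  rw [← Finset.sum_fiberwise_of_maps_to hg]
  refine Finset.sum_congr rfl fun k _ => ?_
  rw [← ENNReal.rpow_mul]; norm_num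

/-- homogeneity of the `l^2` norm -/
theorem l2_const_mul {κ : Type*} (T : Finset κ) (C : ℝ≥0∞) (a : κ → ℝ≥0∞) :
    (∑ k ∈ T, (C * a k) ^ (2 : ℝ)) ^ (1 / 2 : ℝ) = C * (∑ k ∈ T, a k ^ (2 : ℝ)) ^ (1 / 2 : ℝ) := by
  have : ∀ i, (C * a i) ^ (2 : ℝ) = C ^ (2 : ℝ) * a i ^ (2 : ℝ) := fun i =>
    ENNReal.mul_rpow_of_nonneg _ _ (by norm_num)
  simp only [this]
  rw [← Finset.mul_sum, ENNReal.mul_rpow_of_nonneg _ _ (by norm_num), ← ENNReal.rpow_mul]
  norm_num

theorem l2_mono {κ : Type*} (T : Finset κ) {a b : κ → ℝ≥0∞} (h : ∀ k ∈ T, a k ≤ b k) :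
    (∑ k ∈ T, a k ^ (2 : ℝ)) ^ (1 / 2 : ℝ) ≤ (∑ k ∈ T, b k ^ (2 : ℝ)) ^ (1 / 2 : ℝ) :=
  ENNReal.rpow_le_rpow (Finset.sum_le_sum fun k hk => ENNReal.rpow_le_rpow (h k hk) (by norm_num))
    (by norm_num)

/-- decoupling into groups, then inside the groups -/
theorem sq_groups {ι κ : Type} [DecidableEq κ] {p : ℝ} {w : X r → ℝ≥0∞} (S : Finset ι)
    (F : ι → X r → ℂ) (g : ι → κ) (T : Finset κ) (hg : ∀ i ∈ S, g i ∈ T) (C : ℝ≥0∞)
    (h : ∀ k ∈ T, nw p w (fun z => ∑ i ∈ S.filter (fun i => g i = k), F i z) ≤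
      C * sq p w (S.filter fun i => g i = k) F) :
    sq p w T (fun k z => ∑ i ∈ S.filter (fun i => g i = k), F i z) ≤ C * sq p w S F := by
  rw [← sq_fiber p w S F g T hg, ← l2_const_mul]
  exact l2_mono T h

/-- the average as a norm -/
theorem nw_wt {p : ℝ} (hp : 0 < p) (R a : ℝ) (z : X r) (F : X r → ℂ) :
    nw p (fun y => wt R a (z - y)) F = (av R a (pw p F) z) ^ (1 / p) := rfl

end B
end DEC
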