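import Pool.Agent.DEC.StmtsB
import Pool.Agent.DEC.WBasic

/-!
# DEC, module B_Bro: the broad term
-/

open MeasureTheory Finset
open scoped ENNReal Matrix

namespace DEC

namespace BBro

lemma meas_wt_sub {r : ℕ} (R a : ℝ) (x : X r) : Measurable fun y : X r => wt R a (x - y) := by
  unfold wt
  fun_prop

lemma wt_shift {r : ℕ} (K a p E : ℝ) (hK : 1 ≤ K) (ha : 0 ≤ a) (hp : 0 ≤ p) (v : X r) :
    ENNReal.ofReal ((1 + ‖v‖) ^ (a * p / 2)) * wt (K ^ 2) E v ≤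
      ENNReal.ofReal (K ^ (a * p)) * wt (K ^ 2) (E - a * p / 2) v := by
  have hK2 : (0 : ℝ) < K ^ 2 := by positivity
  have hv : 0 ≤ ‖v‖ := norm_nonneg v
  have hq : 0 ≤ ‖v‖ / K ^ 2 := by positivity
  have he : 0 ≤ a * p / 2 := by positivity
  unfold wt
  rw [← ENNReal.ofReal_mul (by positivity), ← ENNReal.ofReal_mul (by positivity)]
  apply ENNReal.ofReal_le_ofReal
  have h1 : (1 + ‖v‖) ^ (a * p / 2) ≤ K ^ (a * p) * (1 + ‖v‖ / K ^ 2) ^ (a * p / 2) := by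
    have h2 : K ^ (a * p) = (K ^ 2) ^ (a * p / 2) := by
      rw [← Real.rpow_natCast, ← Real.rpow_mul (by linarith)]
      congr 1
      push_cast
      ring
    rw [h2, ← Real.mul_rpow hK2.le (by linarith)]
    apply Real.rpow_le_rpow (by linarith) _ he
    have h3 : K ^ 2 * (1 + ‖v‖ / K ^ 2) = K ^ 2 + ‖v‖ := by field_simp
    rw [h3]
    nlinarith
  have h4 : (1 + ‖v‖ / K ^ 2) ^ (-(E - a * p / 2)) =
      (1 + ‖v‖ / K ^ 2) ^ (a * p / 2) * (1 + ‖v‖ / K ^ 2) ^ (-E) := by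
    rw [← Real.rpow_add (by linarith)]
    congr 1
    ring
  rw [h4]
  have h5 : 0 ≤ (K ^ 2) ^ (-((r : ℝ) + 1)) * (1 + ‖v‖ / K ^ 2) ^ (-E) := by positivity
  calc (1 + ‖v‖) ^ (a * p / 2) * ((K ^ 2) ^ (-((r : ℝ) + 1)) * (1 + ‖v‖ / K ^ 2) ^ (-E))
      ≤ (K ^ (a * p) * (1 + ‖v‖ / K ^ 2) ^ (a * p / 2)) *
        ((K ^ 2) ^ (-((r : ℝ) + 1)) * (1 + ‖v‖ / K ^ 2) ^ (-E)) :=
        mul_le_mul_of_nonneg_right h1 h5
    _ = _ := by ring

lemma pw_point {r : ℕ} (p a C1 : ℝ) (hp : 2 ≤ p) (ha : 0 ≤ a) (hC : 0 < C1) (F : X r → ℂ)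
    (x y : X r) (A : ℝ≥0∞)
    (h : pw 2 F y ≤ ENNReal.ofReal C1 * (ENNReal.ofReal ((1 + ‖x - y‖) ^ a) * A)) :
    pw p F y ≤ ENNReal.ofReal (C1 ^ (p / 2)) * A ^ (p / 2) *
      ENNReal.ofReal ((1 + ‖x - y‖) ^ (a * p / 2)) := by
  have hp2 : 0 ≤ p / 2 := by linarith
  have h1 : pw p F y = (pw 2 F y) ^ (p / 2) := by
    unfold pw
    rw [← ENNReal.rpow_mul]
    congr 1
    ring
  rw [h1]
  refine (ENNReal.rpow_le_rpow h hp2).trans ?_
  rw [ENNReal.mul_rpow_of_nonneg _ _ hp2, ENNReal.mul_rpow_of_nonneg _ _ hp2,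
    ENNReal.ofReal_rpow_of_nonneg hC.le hp2, ENNReal.ofReal_rpow_of_nonneg (by positivity) hp2,
    ← Real.rpow_mul (by positivity)]
  have h2 : a * (p / 2) = a * p / 2 := by ring
  rw [h2]
  ring_nf
  exact le_rfl

end BBro

open BBro in
theorem t_Bro (h1 : Stmt_Bern) (h2 : Stmt_AvBasic) : Stmt_Bro := by
  intro r p a E b hp ha hE
  obtain ⟨C1, hC1, hB⟩ := h1 r 2 a b (by norm_num) ha
  obtain ⟨C2, hC2, hI⟩ := h2.1 r (E - a * p / 2) (by linarith)
  refine ⟨C1 ^ (p / 2) * C2, by positivity, ?_⟩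
  intro K q F x hK hF
  have hK0 : 0 < K := by linarith
  set A := av 1 a (pw 2 F) x with hA
  have hpt : ∀ y, pw p F y ≤ ENNReal.ofReal (C1 ^ (p / 2)) * A ^ (p / 2) *
      ENNReal.ofReal ((1 + ‖x - y‖) ^ (a * p / 2)) := by
    intro y
    apply pw_point p a C1 hp ha hC1
    refine (hB 1 q F one_pos (by simpa using hF) y).trans ?_
    gcongr
    have h3 := h2.2.2.1 r a 1 (pw 2 F) y x ha one_pos
    rwa [div_one, norm_sub_rev] at h3
  calc av (K ^ 2) E (pw p F) x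
      = ∫⁻ y, pw p F y * wt (K ^ 2) E (x - y) := rfl
    _ ≤ ∫⁻ y, (ENNReal.ofReal (C1 ^ (p / 2)) * A ^ (p / 2) * ENNReal.ofReal (K ^ (a * p))) *
          wt (K ^ 2) (E - a * p / 2) (x - y) := by
        refine lintegral_mono fun y => ?_
        calc pw p F y * wt (K ^ 2) E (x - y)
            ≤ (ENNReal.ofReal (C1 ^ (p / 2)) * A ^ (p / 2) *
                ENNReal.ofReal ((1 + ‖x - y‖) ^ (a * p / 2))) * wt (K ^ 2) E (x - y) := by
              exact mul_le_mul' (hpt y) le_rfl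
          _ = (ENNReal.ofReal (C1 ^ (p / 2)) * A ^ (p / 2)) *
                (ENNReal.ofReal ((1 + ‖x - y‖) ^ (a * p / 2)) * wt (K ^ 2) E (x - y)) := by
              rw [mul_assoc]
          _ ≤ (ENNReal.ofReal (C1 ^ (p / 2)) * A ^ (p / 2)) *
                (ENNReal.ofReal (K ^ (a * p)) * wt (K ^ 2) (E - a * p / 2) (x - y)) := by
              exact mul_le_mul' le_rfl (wt_shift K a p E hK ha (by linarith) _)
          _ = _ := by rw [← mul_assoc]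
    _ = (ENNReal.ofReal (C1 ^ (p / 2)) * A ^ (p / 2) * ENNReal.ofReal (K ^ (a * p))) *
          ENNReal.ofReal C2 := by
        rw [lintegral_const_mul _ (meas_wt_sub _ _ _),
          lintegral_sub_left_eq_self (fun y : X r => wt (K ^ 2) (E - a * p / 2) y) x,
          hI (K ^ 2) (by positivity)]
    _ = ENNReal.ofReal (C1 ^ (p / 2) * C2 * K ^ (a * p)) * A ^ (p / 2) := by
        rw [ENNReal.ofReal_mul (by positivity), ENNReal.ofReal_mul (by positivity)]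
        ring

end DEC
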