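import Pool.Agent.DEC.StmtsB

/-!
# DEC, block B, module CAlg: trigonometric sums on the slices
-/

set_option autoImplicit false

open MeasureTheory Finset
open scoped ENNReal Matrix

namespace DEC

namespace BCAlg

variable {r : ℕ}

theorem dot_insert (j : Fin (r + 1)) (ξ : Fin (r + 1) → ℝ) (a : ℝ) (f : Fin r → ℝ) :
    ξ ⬝ᵥ (j.insertNth (α := fun _ => ℝ) a f) = ξ j * a + ∑ i, ξ (j.succAbove i) * f i := by
  unfold dotProduct
  rw [Fin.sum_univ_succAbove _ j]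
  simp

theorem dot_split (j : Fin (r + 1)) (u ξ : Fin (r + 1) → ℝ) :
    u ⬝ᵥ ξ = u j * ξ j + ∑ i, u (j.succAbove i) * ξ (j.succAbove i) := by
  unfold dotProduct
  rw [Fin.sum_univ_succAbove _ j]

/-- The pairing with the space part of `Psi`. -/
theorem dot_psi (j : Fin (r + 1)) (u om : Fin (r + 1) → ℝ) (kap : ℝ) (v : X r) (z : ℝ)
    (hu : u j = 1) (ho : u ⬝ᵥ om = 1) (ξ : Fin (r + 1) → ℝ) :
    ξ ⬝ᵥ (Psi j u om kap v z).1
      = pm j u om ξ ⬝ᵥ v.1 + (u ⬝ᵥ ξ) * (om ⬝ᵥ (Psi j u om kap v z).1) := by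
  unfold Psi
  simp only []
  generalize hx : z - (∑ i, om (j.succAbove i) * v.1 i) - kap * v.2 = xj
  rw [dot_insert, dot_insert]
  have e1 : pm j u om ξ ⬝ᵥ v.1 = ∑ i, ξ (j.succAbove i) * v.1 i
      - (u ⬝ᵥ ξ) * ∑ i, om (j.succAbove i) * v.1 i := by
    unfold pm
    rw [dotProduct, Finset.mul_sum, ← Finset.sum_sub_distrib]
    refine Finset.sum_congr rfl fun i _ => ?_
    ring
  have e2 : ∀ η : Fin (r + 1) → ℝ, ∑ i, η (j.succAbove i) * (v.1 i + u (j.succAbove i) * xj)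
      = ∑ i, η (j.succAbove i) * v.1 i + (∑ i, u (j.succAbove i) * η (j.succAbove i)) * xj := by
    intro η
    rw [Finset.sum_mul, ← Finset.sum_add_distrib]
    refine Finset.sum_congr rfl fun i _ => ?_
    ring
  rw [e1, e2 ξ, e2 om]
  have e3 := dot_split j u ξ
  have e4 := dot_split j u om
  rw [hu, one_mul] at e3 e4
  rw [ho] at e4
  rw [e3]
  have e5 : ∑ i, u (j.succAbove i) * om (j.succAbove i) = 1 - om j := by linarith
  rw [e5]
  ring

/-- `om · x + kap t = z`. -/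
theorem om_psi (j : Fin (r + 1)) (u om : Fin (r + 1) → ℝ) (kap : ℝ) (v : X r) (z : ℝ)
    (hu : u j = 1) (ho : u ⬝ᵥ om = 1) :
    om ⬝ᵥ (Psi j u om kap v z).1 + kap * v.2 = z := by
  unfold Psi
  simp only []
  generalize hx : z - (∑ i, om (j.succAbove i) * v.1 i) - kap * v.2 = xj
  rw [dot_insert]
  have e2 : ∑ i, om (j.succAbove i) * (v.1 i + u (j.succAbove i) * xj)
      = ∑ i, om (j.succAbove i) * v.1 i + (∑ i, u (j.succAbove i) * om (j.succAbove i)) * xj := by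
    rw [Finset.sum_mul, ← Finset.sum_add_distrib]
    refine Finset.sum_congr rfl fun i _ => ?_
    ring
  have e4 := dot_split j u om
  rw [hu, one_mul, ho] at e4
  have e5 : ∑ i, u (j.succAbove i) * om (j.succAbove i) = 1 - om j := by linarith
  rw [e2, e5]
  linear_combination -hx

theorem dot_le (u : Fin (r + 1) → ℝ) (hu : ∀ i, |u i| ≤ 1) (η : Fin (r + 1) → ℝ) {a : ℝ}
    (ha : ‖η‖ ≤ a) : |u ⬝ᵥ η| ≤ (r + 1) * a := by
  unfold dotProduct
  refine (Finset.abs_sum_le_sum_abs _ _).trans ?_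
  calc ∑ i, |u i * η i| ≤ ∑ _i : Fin (r + 1), a := by
        refine Finset.sum_le_sum fun i _ => ?_
        rw [abs_mul]
        have h1 : |η i| ≤ a := (norm_le_pi_norm η i).trans ha
        calc |u i| * |η i| ≤ 1 * a :=
              mul_le_mul (hu i) h1 (abs_nonneg _) zero_le_one
          _ = a := one_mul a
    _ = (r + 1) * a := by simp

theorem pm_sub (j : Fin (r + 1)) (u om ξ c : Fin (r + 1) → ℝ) :
    pm j u om ξ - pm j u om c = pm j u om (ξ - c) := by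
  funext i
  unfold pm
  simp only [Pi.sub_apply, dotProduct_sub]
  ring

theorem pm_norm (j : Fin (r + 1)) (u om : Fin (r + 1) → ℝ) (hu : ∀ i, |u i| ≤ 1) {C₁ : ℝ}
    (ho : ‖om‖ ≤ C₁) (η : Fin (r + 1) → ℝ) {a : ℝ} (ha : ‖η‖ ≤ a) :
    ‖pm j u om η‖ ≤ (1 + (r + 1) * C₁) * a := by
  have ha0 : 0 ≤ a := (norm_nonneg _).trans ha
  have hC : 0 ≤ C₁ := (norm_nonneg _).trans ho
  rw [pi_norm_le_iff_of_nonneg (by positivity)]
  intro i
  unfold pm
  rw [Real.norm_eq_abs]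
  refine (abs_sub _ _).trans ?_
  rw [abs_mul]
  have h1 : |η (j.succAbove i)| ≤ a := (norm_le_pi_norm η _).trans ha
  have h2 : |om (j.succAbove i)| ≤ C₁ := (norm_le_pi_norm om _).trans ho
  have h3 := dot_le u hu η ha
  calc |η (j.succAbove i)| + |u ⬝ᵥ η| * |om (j.succAbove i)|
      ≤ a + ((r + 1) * a) * C₁ :=
        add_le_add h1 (mul_le_mul h3 h2 (abs_nonneg _) (by positivity))
    _ = (1 + (r + 1) * C₁) * a := by ring

end BCAlg

open BCAlg in
theorem t_CAlg : Stmt_CAlg := by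
  intro r b C₁ hb hC₁
  refine ⟨1 + (1 + (r + 1) * C₁) * b + C₁ * ((r + 1) * b + C₁) ^ 2 + b, ?_, ?_⟩
  · have h1 : 0 ≤ (1 + ((r : ℝ) + 1) * C₁) * b := by positivity
    have h2 : 0 ≤ C₁ * (((r : ℝ) + 1) * b + C₁) ^ 2 := by positivity
    linarith
  intro A B j u om q h K c F hu hu1 ho hoC hq hA hK hc hF z
  obtain ⟨m, a, w, hw, hFw⟩ := hF
  refine ⟨fun v => ∑ i, (a i * ee ((u ⬝ᵥ (w i).1 - h) * z)) *
    ee (pr (pm j u om (w i).1, qf B (pm j u om (w i).1) + q * (u ⬝ᵥ (w i).1 - h) ^ 2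
      + ((w i).2 - qf A (w i).1)) v), ?_, ?_⟩
  · refine ⟨m, fun i => a i * ee ((u ⬝ᵥ (w i).1 - h) * z),
      fun i => (pm j u om (w i).1, qf B (pm j u om (w i).1) + q * (u ⬝ᵥ (w i).1 - h) ^ 2
      + ((w i).2 - qf A (w i).1)), fun i => ?_, fun v => rfl⟩
    obtain ⟨h1, h2⟩ := hw i
    have hbK : 0 ≤ b / K := by positivity
    have hs : |u ⬝ᵥ (w i).1 - h| ≤ ((r + 1) * b + C₁) / K := by
      have e : u ⬝ᵥ (w i).1 - h = u ⬝ᵥ ((w i).1 - c) + (u ⬝ᵥ c - h) := by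
        rw [dotProduct_sub]; ring
      rw [e]
      refine (abs_add_le _ _).trans ?_
      have h3 := dot_le u hu1 ((w i).1 - c) h1
      calc |u ⬝ᵥ ((w i).1 - c)| + |u ⬝ᵥ c - h| ≤ (r + 1) * (b / K) + C₁ / K := add_le_add h3 hc
        _ = ((r + 1) * b + C₁) / K := by ring
    refine ⟨?_, ?_⟩
    · show ‖pm j u om (w i).1 - pm j u om c‖ ≤ _
      rw [pm_sub]
      refine (pm_norm j u om hu1 hoC _ h1).trans ?_
      rw [← mul_div_assoc]
      refine div_le_div_of_nonneg_right ?_ hK.le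
      have h2 : 0 ≤ C₁ * (((r : ℝ) + 1) * b + C₁) ^ 2 := by positivity
      linarith
    · show |qf B (pm j u om (w i).1) + q * (u ⬝ᵥ (w i).1 - h) ^ 2
        + ((w i).2 - qf A (w i).1) - qf B (pm j u om (w i).1)| ≤ _
      have e : qf B (pm j u om (w i).1) + q * (u ⬝ᵥ (w i).1 - h) ^ 2
        + ((w i).2 - qf A (w i).1) - qf B (pm j u om (w i).1)
        = q * (u ⬝ᵥ (w i).1 - h) ^ 2 + ((w i).2 - qf A (w i).1) := by ring
      rw [e]
      refine (abs_add_le _ _).trans ?_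
      rw [abs_mul, abs_of_nonneg (sq_nonneg (u ⬝ᵥ (w i).1 - h))]
      have h3 : (u ⬝ᵥ (w i).1 - h) ^ 2 ≤ (((r + 1) * b + C₁) / K) ^ 2 := by
        rw [← sq_abs (u ⬝ᵥ (w i).1 - h)]
        exact pow_le_pow_left₀ (abs_nonneg _) hs 2
      have h4 : |q| * (u ⬝ᵥ (w i).1 - h) ^ 2 ≤ C₁ * (((r + 1) * b + C₁) / K) ^ 2 :=
        mul_le_mul hq h3 (sq_nonneg _) hC₁
      calc |q| * (u ⬝ᵥ (w i).1 - h) ^ 2 + |(w i).2 - qf A (w i).1|
          ≤ C₁ * (((r + 1) * b + C₁) / K) ^ 2 + b / K ^ 2 := add_le_add h4 h2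
        _ = (C₁ * ((r + 1) * b + C₁) ^ 2 + b) / K ^ 2 := by rw [div_pow]; ring
        _ ≤ _ := by
          refine div_le_div_of_nonneg_right ?_ (by positivity)
          have h5 : 0 ≤ (1 + ((r : ℝ) + 1) * C₁) * b := by positivity
          linarith
  · intro v
    rw [hFw, Finset.mul_sum]
    refine Finset.sum_congr rfl fun i _ => ?_
    have hom := om_psi j u om (2 * h * q) v z hu ho
    have hdp := dot_psi j u om (2 * h * q) v z hu ho (w i).1
    have e2 : (Psi j u om (2 * h * q) v z).2 = v.2 := rfl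
    have hph : pr (w i) (Psi j u om (2 * h * q) v z)
        = (h * (om ⬝ᵥ (Psi j u om (2 * h * q) v z).1) + q * h ^ 2 * v.2)
          + ((u ⬝ᵥ (w i).1 - h) * z
          + pr (pm j u om (w i).1, qf B (pm j u om (w i).1) + q * (u ⬝ᵥ (w i).1 - h) ^ 2
            + ((w i).2 - qf A (w i).1)) v) := by
      unfold pr
      rw [hdp, e2, hA (w i).1]
      simp only []
      linear_combination (u ⬝ᵥ (w i).1 - h) * hom
    rw [hph, DEC.B.ee_add (h * (om ⬝ᵥ (Psi j u om (2 * h * q) v z).1) + q * h ^ 2 * v.2) _,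
      DEC.B.ee_add ((u ⬝ᵥ (w i).1 - h) * z) _]
    ring

end DEC
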