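import Pool.Agent.DEC.StmtsB

/-!
# l^2 decoupling, block B: linear changes of variables up to a constant
-/

open MeasureTheory
open scoped ENNReal

namespace DEC

theorem t_ChV : Stmt_ChV := by
  intro E F _ _ _ _ _ _ _ _ _ _ _ _ Λ
  have : (Measure.map Λ (volume : Measure E)).IsAddHaarMeasure :=
    Λ.toContinuousLinearEquiv.isAddHaarMeasure_map volume
  have h := Measure.isAddLeftInvariant_eq_smul (volume : Measure F)
    (Measure.map Λ (volume : Measure E))
  refine ⟨Measure.addHaarScalarFactor (volume : Measure F) (Measure.map Λ (volume : Measure E)),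
    ?_, ENNReal.coe_ne_top, ?_⟩
  · exact ENNReal.coe_ne_zero.2 (Measure.addHaarScalarFactor_pos_of_isAddHaarMeasure _ _).ne'
  · intro G hG
    have hΛ : Measurable Λ := (Λ.toContinuousLinearEquiv.continuous).measurable
    calc ∫⁻ x, G x = ∫⁻ x, G x ∂(Measure.addHaarScalarFactor (volume : Measure F)
          (Measure.map Λ (volume : Measure E)) • Measure.map Λ (volume : Measure E)) := by
            rw [← h]
      _ = (Measure.addHaarScalarFactor (volume : Measure F)
          (Measure.map Λ (volume : Measure E)) : ℝ≥0∞) * ∫⁻ x, G x ∂(Measure.map Λ volume) := by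
            rw [lintegral_smul_measure]; rfl
      _ = _ := by rw [lintegral_map hG hΛ]

end DEC
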