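import Pool.Agent.DEC.StmtsB

/-!
# The number of separated points in a cube (B_Cnt)
-/

set_option autoImplicit false

open MeasureTheory

namespace DEC

theorem t_Cnt : Stmt_Cnt := by
  intro r N d ι S c ξ hN hd hsep hball
  set ρ : ℝ := 1 / (2 * N) with hρ
  have hρ0 : 0 < ρ := by positivity
  have h2 : 2 * ρ = 1 / N := by
    rw [hρ]
    field_simp
  have hdis : (S : Set ι).PairwiseDisjoint fun i => Metric.ball (c i) ρ := by
    intro i hi j hj hij
    refine Metric.ball_disjoint_ball ?_
    have := hsep i hi j hj hij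
    rw [dist_eq_norm]
    linarith
  have hsub : (⋃ i ∈ S, Metric.ball (c i) ρ) ⊆ Metric.closedBall ξ (d + ρ) := by
    refine Set.iUnion₂_subset fun i hi => ?_
    intro x hx
    rw [Metric.mem_closedBall]
    have h3 := hball i hi
    rw [← dist_eq_norm] at h3
    have h4 : dist x (c i) < ρ := hx
    linarith [dist_triangle x (c i) ξ]
  have h5 : (S.card : ENNReal) * ENNReal.ofReal ((1 / N) ^ r) ≤
      ENNReal.ofReal ((2 * d + 1 / N) ^ r) := by
    calc (S.card : ENNReal) * ENNReal.ofReal ((1 / N) ^ r)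
        = ∑ i ∈ S, volume (Metric.ball (c i) ρ) := by
          rw [Finset.sum_congr rfl fun i _ => Real.volume_pi_ball (c i) hρ0]
          rw [Finset.sum_const, nsmul_eq_mul, Fintype.card_fin, h2]
      _ = volume (⋃ i ∈ S, Metric.ball (c i) ρ) :=
          (measure_biUnion_finset hdis fun i _ => measurableSet_ball).symm
      _ ≤ volume (Metric.closedBall ξ (d + ρ)) := measure_mono hsub
      _ = ENNReal.ofReal ((2 * d + 1 / N) ^ r) := by
          rw [Real.volume_pi_closedBall ξ (by positivity), Fintype.card_fin, mul_add, h2]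
  have h6 : (S.card : ℝ) * (1 / N) ^ r ≤ (2 * d + 1 / N) ^ r := by
    rw [← ENNReal.ofReal_natCast, ← ENNReal.ofReal_mul (by positivity)] at h5
    exact (ENNReal.ofReal_le_ofReal_iff (by positivity)).1 h5
  have h7 : (2 * d * N + 1) ^ r = (2 * d + 1 / N) ^ r * N ^ r := by
    rw [← mul_pow]
    congr 1
    field_simp
  rw [h7]
  calc (S.card : ℝ) = (S.card : ℝ) * (1 / N) ^ r * N ^ r := by
        rw [mul_assoc, ← mul_pow, one_div_mul_cancel hN.ne', one_pow, mul_one]
    _ ≤ (2 * d + 1 / N) ^ r * N ^ r := mul_le_mul_of_nonneg_right h6 (by positivity)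

end DEC
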