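import Pool.Agent.DEC.StmtsB

/-!
# l^2 decoupling, block B: the narrow estimate
-/

open MeasureTheory Finset
open scoped ENNReal Matrix

namespace DEC

namespace BCyl

theorem dot_succ {r : ℕ} (j : Fin (r + 1)) (u v : Fin (r + 1) → ℝ) :
    u ⬝ᵥ v = u j * v j + ∑ i : Fin r, u (j.succAbove i) * v (j.succAbove i) := by
  unfold dotProduct
  rw [Fin.sum_univ_succAbove _ j]

theorem pm_sub {r : ℕ} (j : Fin (r + 1)) (u om ξ η : Fin (r + 1) → ℝ) :
    pm j u om ξ - pm j u om η = pm j u om (ξ - η) := by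
  funext i
  simp only [pm, Pi.sub_apply, dotProduct_sub]
  ring

/-- the full vector is controlled by its projection and its height -/
theorem key {r : ℕ} (j : Fin (r + 1)) (u om : Fin (r + 1) → ℝ) (C : ℝ) (hj : u j = 1)
    (hu : ∀ i, |u i| ≤ 1) (h1 : u ⬝ᵥ om = 1) (hom : ‖om‖ ≤ C) (x : Fin (r + 1) → ℝ) :
    ‖x‖ ≤ ((r : ℝ) + 1) * ‖pm j u om x‖ + |u ⬝ᵥ x| * C := by
  have hC : 0 ≤ C := le_trans (norm_nonneg _) hom
  have hr : (0 : ℝ) ≤ r := Nat.cast_nonneg r
  have hn : 0 ≤ ‖pm j u om x‖ := norm_nonneg _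
  have hs : 0 ≤ |u ⬝ᵥ x| * C := mul_nonneg (abs_nonneg _) hC
  have hom' : ∀ k, |om k| ≤ C := fun k => le_trans (norm_le_pi_norm om k) hom
  have hso : ∀ k, |(u ⬝ᵥ x) * om k| ≤ |u ⬝ᵥ x| * C := fun k => by
    rw [abs_mul]
    exact mul_le_mul_of_nonneg_left (hom' k) (abs_nonneg _)
  have hpm : ∀ i, |pm j u om x i| ≤ ‖pm j u om x‖ := fun i => norm_le_pi_norm (pm j u om x) i
  rw [pi_norm_le_iff_of_nonneg (by positivity)]
  intro k
  rw [Real.norm_eq_abs]
  rcases Fin.eq_self_or_eq_succAbove j k with h | ⟨i, h⟩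
  · subst h
    have e1 := dot_succ k u x
    have e2 := dot_succ k u om
    rw [h1, hj, one_mul] at e2
    rw [hj, one_mul] at e1
    have e3 : ∑ i : Fin r, u (k.succAbove i) * x (k.succAbove i)
        = ∑ i : Fin r, u (k.succAbove i) * pm k u om x i
          + (u ⬝ᵥ x) * ∑ i : Fin r, u (k.succAbove i) * om (k.succAbove i) := by
      rw [Finset.mul_sum, ← Finset.sum_add_distrib]
      refine Finset.sum_congr rfl fun i _ => ?_
      simp only [pm]
      ring
    have e4 : x k = (u ⬝ᵥ x) * om k - ∑ i : Fin r, u (k.succAbove i) * pm k u om x i := by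
      have : ∑ i : Fin r, u (k.succAbove i) * om (k.succAbove i) = 1 - om k := by linarith
      rw [this] at e3
      linarith
    rw [e4]
    have e5 : |∑ i : Fin r, u (k.succAbove i) * pm k u om x i| ≤ (r : ℝ) * ‖pm k u om x‖ := by
      refine le_trans (Finset.abs_sum_le_sum_abs _ _) ?_
      have : ∀ i ∈ (Finset.univ : Finset (Fin r)),
          |u (k.succAbove i) * pm k u om x i| ≤ ‖pm k u om x‖ := by
        intro i _
        rw [abs_mul]
        calc |u (k.succAbove i)| * |pm k u om x i| ≤ 1 * ‖pm k u om x‖ :=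
              mul_le_mul (hu _) (hpm i) (abs_nonneg _) (by norm_num)
          _ = _ := one_mul _
      refine le_trans (Finset.sum_le_card_nsmul _ _ _ this) ?_
      simp
    refine le_trans (abs_sub _ _) ?_
    have := hso k
    nlinarith
  · subst h
    have e1 : x (j.succAbove i) = pm j u om x i + (u ⬝ᵥ x) * om (j.succAbove i) := by
      simp only [pm]
      ring
    rw [e1]
    refine le_trans (abs_add_le _ _) ?_
    have := hso (j.succAbove i)
    have := hpm i
    nlinarith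

/-- different indices of the same residue class have separated centres -/
theorem sep {r : ℕ} (m : ℕ) (K : ℝ) (hK : 0 < K) (x y : Fin (r + 1) → ℝ)
    (a b : Fin (r + 1) → ℤ) (ha : ∀ k, |K * x k - a k| ≤ 1) (hb : ∀ k, |K * y k - b k| ≤ 1)
    (hne : a ≠ b) (hmod : ∀ k, a k % (m : ℤ) = b k % (m : ℤ)) :
    ((m : ℝ) - 2) / K ≤ ‖x - y‖ := by
  obtain ⟨k, hk⟩ := Function.ne_iff.mp hne
  have hdvd : (m : ℤ) ∣ a k - b k :=
    Int.ModEq.dvd (show b k ≡ a k [ZMOD (m : ℤ)] from (hmod k).symm)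
  have habs : (m : ℤ) ≤ |a k - b k| := by
    have hne' : a k - b k ≠ 0 := sub_ne_zero.mpr hk
    exact Int.le_of_dvd (abs_pos.mpr hne') ((dvd_abs _ _).mpr hdvd)
  have habs' : (m : ℝ) ≤ |(a k : ℝ) - b k| := by
    have : ((m : ℤ) : ℝ) ≤ ((|a k - b k| : ℤ) : ℝ) := by exact_mod_cast habs
    simpa using this
  have h1 := ha k
  have h2 := hb k
  have h3 : (m : ℝ) - 2 ≤ |K * x k - K * y k| := by
    have e : (a k : ℝ) - b k = (K * x k - K * y k) - (K * x k - a k) + (K * y k - b k) := by ring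
    have : |(a k : ℝ) - b k| ≤ |K * x k - K * y k| + |K * x k - a k| + |K * y k - b k| := by
      rw [e]
      refine le_trans (abs_add_le _ _) ?_
      have := abs_sub (K * x k - K * y k) (K * x k - a k)
      linarith
    linarith
  have h4 : |K * x k - K * y k| = K * |(x - y) k| := by
    rw [Pi.sub_apply, ← mul_sub, abs_mul, abs_of_pos hK]
  rw [h4] at h3
  have h5 : |(x - y) k| ≤ ‖x - y‖ := norm_le_pi_norm (x - y) k
  rw [div_le_iff₀ hK]
  nlinarith

end BCyl

theorem t_Cyl (h1 : Stmt_Lin) (h2 : Stmt_Cyl1) (h3 : Stmt_WtBasic) : Stmt_Cyl := by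
  classical
  intro r p E l L b C₁ c₀ hp hE hl hb hC₁ hc₀ hc₀'
  obtain ⟨C, hC, hLin⟩ := h1 r l L hl
  obtain ⟨b', C', hb', hC', hCyl⟩ := h2 r p E l L b (max C C₁) hp hE hl hb
    (le_trans hC₁ (le_max_right _ _))
  obtain ⟨m, hm⟩ := exists_nat_ge (((r : ℝ) + 2) / c₀ + 2 * C₁ * C + 3)
  have hr : (0 : ℝ) ≤ r := Nat.cast_nonneg r
  have hq1 : 0 ≤ ((r : ℝ) + 2) / c₀ := by positivity
  have hq2 : 0 ≤ 2 * C₁ * C := by positivity
  have hm2 : (2 : ℝ) ≤ m := by linarith
  have hm0 : 0 < m := by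
    have : (0 : ℝ) < m := by linarith
    exact_mod_cast this
  refine ⟨b', (m : ℝ) ^ (r + 1) * C', hb', by positivity, ?_⟩
  intro K D hK hD hDec A j u h ι S c κ F hA hj hu hball hslab hinj hcell htrig w hw
  have hKpos : 0 < K := by
    by_contra hcon
    have hcon' : K ≤ 0 := not_lt.mp hcon
    nlinarith
  have hK1 : 0 < c₀ * K := by positivity
  have hK1K : c₀ * K ≤ K := by nlinarith
  obtain ⟨om, B₀, q, hB, huom, hom, hq, hqf⟩ := hLin A hA j u hj hu
  have hwb := (h3 (r + 1) (K ^ 2) E (by positivity) hE).1 w hw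
  have hwm : Measurable w := hwb.1
  have hw1 : Wt ((c₀ * K) ^ 2) E w :=
    hwb.2 ((c₀ * K) ^ 2) E (by positivity) (by gcongr) le_rfl
  set g : ι → Fin (r + 1) → ℤ := fun i k => κ i k % (m : ℤ) with hg
  set T : Finset (Fin (r + 1) → ℤ) := S.image g with hT
  have hmeas : ∀ i ∈ S, Measurable (F i) := fun i hi => (B.Trig.continuous (htrig i hi)).measurable
  -- one class
  have hclass : ∀ t ∈ T, nw p w (fun z => ∑ i ∈ S.filter (fun i => g i = t), F i z)
      ≤ ENNReal.ofReal (C' * D) * sq p w S F := by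
    intro t _
    have hsub : S.filter (fun i => g i = t) ⊆ S := Finset.filter_subset _ _
    refine le_trans (hCyl (c₀ * K) D hK hD hDec A B₀ j u om q h ι (S.filter fun i => g i = t) c F hj
      hu huom (le_trans hom (le_max_left _ _)) (le_trans hq (le_max_left _ _)) hB hqf
      (fun i hi => hball i (hsub hi)) ?_ ?_ ?_ w hw1) ?_
    · intro i hi
      refine le_trans (hslab i (hsub hi)) ?_
      exact div_le_div₀ (le_trans hC₁ (le_max_right _ _)) (le_max_right _ _) hK1 hK1K
    · intro i hi i' hi' hne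
      rw [Finset.mem_filter] at hi hi'
      have hne' : κ i ≠ κ i' := fun e => hne (hinj i hi.1 i' hi'.1 e)
      have hmod : ∀ k, κ i k % (m : ℤ) = κ i' k % (m : ℤ) := by
        intro k
        have e : g i = g i' := hi.2.trans hi'.2.symm
        exact congrFun e k
      have hs := BCyl.sep m K hKpos (c i) (c i') (κ i) (κ i') (hcell i hi.1)
        (hcell i' hi'.1) hne' hmod
      have hk := BCyl.key j u om C hj hu huom hom (c i - c i')
      have hd : |u ⬝ᵥ (c i - c i')| ≤ 2 * C₁ / K := by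
        have e : u ⬝ᵥ (c i - c i') = (u ⬝ᵥ c i - h) - (u ⬝ᵥ c i' - h) := by
          rw [dotProduct_sub]; ring
        rw [e]
        refine le_trans (abs_sub _ _) ?_
        have a1 := hslab i hi.1
        have a2 := hslab i' hi'.1
        have a3 : 2 * C₁ / K = C₁ / K + C₁ / K := by ring
        linarith
      rw [BCyl.pm_sub]
      have hd2 : |u ⬝ᵥ (c i - c i')| * C ≤ 2 * C₁ / K * C := mul_le_mul_of_nonneg_right hd hC.le
      have h5 : ((m : ℝ) - 2) / K - 2 * C₁ / K * C
          ≤ ((r : ℝ) + 1) * ‖pm j u om (c i - c i')‖ := by linarith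
      have h6 : (((r : ℝ) + 2) / c₀) / K ≤ ((m : ℝ) - 2) / K - 2 * C₁ / K * C := by
        have : ((m : ℝ) - 2) / K - 2 * C₁ / K * C = ((m : ℝ) - 2 - 2 * C₁ * C) / K := by ring
        rw [this]
        exact div_le_div_of_nonneg_right (by linarith) hKpos.le
      have h7 : (((r : ℝ) + 1) * (1 / (c₀ * K))) ≤ (((r : ℝ) + 2) / c₀) / K := by
        rw [div_div, mul_one_div]
        exact div_le_div_of_nonneg_right (by linarith) hK1.le
      have h8 : ((r : ℝ) + 1) * (1 / (c₀ * K)) ≤ ((r : ℝ) + 1) * ‖pm j u om (c i - c i')‖ := by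
        linarith
      exact le_of_mul_le_mul_left h8 (by positivity)
    · intro i hi
      refine B.Trig.mono (htrig i (hsub hi)) ?_
      intro v hv
      refine ⟨le_trans hv.1 (div_le_div_of_nonneg_left hb hK1 hK1K), le_trans hv.2 ?_⟩
      exact div_le_div_of_nonneg_left hb (by positivity) (by gcongr)
    · exact mul_le_mul' le_rfl (B.sq_subset p w hsub F)
  -- the number of classes
  have hcard : T.card ≤ m ^ (r + 1) := by
    have hsub : T ⊆ Fintype.piFinset fun _ : Fin (r + 1) => Finset.Ico (0 : ℤ) m := by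
      intro t ht
      rw [hT, Finset.mem_image] at ht
      obtain ⟨i, _, rfl⟩ := ht
      rw [Fintype.mem_piFinset]
      intro k
      rw [Finset.mem_Ico]
      have hmz : (m : ℤ) ≠ 0 := by exact_mod_cast hm0.ne'
      exact ⟨Int.emod_nonneg _ hmz, Int.emod_lt_of_pos _ (by exact_mod_cast hm0)⟩
    refine le_trans (Finset.card_le_card hsub) ?_
    rw [Fintype.card_piFinset]
    simp
  -- assembly
  have hsum : (fun z => ∑ i ∈ S, F i z)
      = fun z => ∑ t ∈ T, ∑ i ∈ S.filter (fun i => g i = t), F i z := by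
    funext z
    rw [Finset.sum_fiberwise_of_maps_to (fun i hi => Finset.mem_image_of_mem g hi)]
  rw [hsum]
  refine le_trans (B.nw_sum_le (by linarith) hwm T _ ?_) ?_
  · intro t _
    exact Finset.measurable_sum _ fun i hi => hmeas i (Finset.mem_filter.mp hi).1
  · refine le_trans (Finset.sum_le_card_nsmul T _ _ hclass) ?_
    rw [nsmul_eq_mul, ← mul_assoc]
    refine mul_le_mul' ?_ le_rfl
    have e1 : (T.card : ℝ≥0∞) ≤ ENNReal.ofReal ((m : ℝ) ^ (r + 1)) := by
      rw [← ENNReal.ofReal_natCast]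
      exact ENNReal.ofReal_le_ofReal (by exact_mod_cast hcard)
    calc (T.card : ℝ≥0∞) * ENNReal.ofReal (C' * D)
        ≤ ENNReal.ofReal ((m : ℝ) ^ (r + 1)) * ENNReal.ofReal (C' * D) := mul_le_mul' e1 le_rfl
      _ = ENNReal.ofReal ((m : ℝ) ^ (r + 1) * C' * D) := by
          rw [← ENNReal.ofReal_mul (by positivity), mul_assoc]

end DEC
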