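import Pool.Agent.DEC.StmtsB

/-!
# B-Cyl1: the narrow estimate for a family with separated projected centres
-/

open MeasureTheory Finset
open scoped ENNReal Matrix

namespace DEC

namespace BCyl1

open DEC.B

theorem dot_le {n : ℕ} {u ξ : Fin n → ℝ} (hu : ∀ i, |u i| ≤ 1) (hξ : ‖ξ‖ ≤ 1) :
    |u ⬝ᵥ ξ| ≤ n := by
  unfold dotProduct
  refine (Finset.abs_sum_le_sum_abs _ _).trans ?_
  have h1 : ∀ i ∈ (Finset.univ : Finset (Fin n)), |u i * ξ i| ≤ 1 := by
    intro i _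
    rw [abs_mul]
    have h2 : |ξ i| ≤ 1 := by
      have := norm_le_pi_norm ξ i
      rw [Real.norm_eq_abs] at this
      exact this.trans hξ
    exact mul_le_one₀ (hu i) (abs_nonneg _) h2
  refine (Finset.sum_le_sum h1).trans ?_
  simp

theorem pm_le {r : ℕ} {j : Fin (r + 1)} {u om ξ : Fin (r + 1) → ℝ} {C₁ : ℝ}
    (hu : ∀ i, |u i| ≤ 1) (hom : ‖om‖ ≤ C₁) (hξ : ‖ξ‖ ≤ 1) (hC : 0 ≤ C₁) :
    ‖pm j u om ξ‖ ≤ 1 + ((r : ℝ) + 1) * C₁ := by
  have h0 := dot_le hu hξ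
  push_cast at h0
  refine (pi_norm_le_iff_of_nonneg (by positivity)).2 fun i => ?_
  unfold pm
  rw [Real.norm_eq_abs]
  have h1 : |ξ (j.succAbove i)| ≤ 1 := by
    have := norm_le_pi_norm ξ (j.succAbove i)
    rw [Real.norm_eq_abs] at this
    exact this.trans hξ
  have h2 : |om (j.succAbove i)| ≤ C₁ := by
    have := norm_le_pi_norm om (j.succAbove i)
    rw [Real.norm_eq_abs] at this
    exact this.trans hom
  refine (abs_sub _ _).trans (add_le_add h1 ?_)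
  rw [abs_mul]
  exact mul_le_mul h0 h2 (abs_nonneg _) (by positivity)

/-- The norm of the slice. -/
noncomputable def sl {r : ℕ} (p : ℝ) (j : Fin (r + 1)) (u om : Fin (r + 1) → ℝ) (kap : ℝ)
    (w : X (r + 1) → ℝ≥0∞) (H : X (r + 1) → ℂ) (z : ℝ) : ℝ≥0∞ :=
  nw p (fun v => w (Psi j u om kap v z)) (fun v => H (Psi j u om kap v z))

theorem sl_meas {r : ℕ} {p : ℝ} {j : Fin (r + 1)} {u om : Fin (r + 1) → ℝ} {kap : ℝ}
    {w : X (r + 1) → ℝ≥0∞} {H : X (r + 1) → ℂ} (hw : Measurable w) (hH : Measurable H)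
    (hP : Measurable fun vz : X r × ℝ => Psi j u om kap vz.1 vz.2) :
    Measurable (sl p j u om kap w H) := by
  unfold sl nw
  refine Measurable.pow_const ?_ _
  have h1 : Measurable fun vz : X r × ℝ =>
      ‖H (Psi j u om kap vz.1 vz.2)‖ₑ ^ p * w (Psi j u om kap vz.1 vz.2) :=
    ((hH.comp hP).enorm.pow_const _).mul (hw.comp hP)
  exact h1.lintegral_prod_left'

theorem sl_eq {r : ℕ} {p : ℝ} (hp : 0 < p) {j : Fin (r + 1)} {u om : Fin (r + 1) → ℝ} {kap : ℝ}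
    {w : X (r + 1) → ℝ≥0∞} {H : X (r + 1) → ℂ} (hw : Measurable w) (hH : Measurable H)
    {c : ℝ≥0∞} (hc : ∀ G : X (r + 1) → ℝ≥0∞, Measurable G →
      ∫⁻ x, G x = c * ∫⁻ z : ℝ, ∫⁻ v : X r, G (Psi j u om kap v z)) :
    nw p w H = c ^ (1 / p) * (∫⁻ z, sl p j u om kap w H z ^ p) ^ (1 / p) := by
  have h1 : ∀ z, sl p j u om kap w H z ^ p
      = ∫⁻ v : X r, ‖H (Psi j u om kap v z)‖ₑ ^ p * w (Psi j u om kap v z) := by
    intro z
    unfold sl nw
    rw [← ENNReal.rpow_mul, one_div_mul_cancel hp.ne', ENNReal.rpow_one]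
  rw [← ENNReal.mul_rpow_of_nonneg _ _ (by positivity)]
  simp only [h1]
  have h2 : Measurable fun x : X (r + 1) => ‖H x‖ₑ ^ p * w x := (hH.enorm.pow_const _).mul hw
  rw [← hc _ h2]
  rfl

end BCyl1

open BCyl1 DEC.B in
theorem t_Cyl1 (h1 : Stmt_Psi) (h2 : Stmt_CAlg) (h3 : Stmt_PRV) (h4 : Stmt_WtBasic) :
    Stmt_Cyl1 := by
  classical
  intro r p E l L b C₁ hp hE hl hb hC₁
  have hp0 : 0 < p := by linarith
  obtain ⟨b', hb', hCA⟩ := h2 r b C₁ hb hC₁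
  obtain ⟨C₀, hC₀, hPR⟩ := h3 r p E l (((r : ℝ) + 2) * L) (1 + ((r : ℝ) + 1) * C₁) (by linarith) hE hl
    (by positivity)
  obtain ⟨C₂, hC₂⟩ : ∃ C₂ : ℝ, C₂ = 1 + r * C₁ + 2 * ((r : ℝ) + 1 + C₁) * C₁ := ⟨_, rfl⟩
  have hC₂1 : 1 ≤ C₂ := by
    rw [hC₂]
    have h5 : 0 ≤ (r : ℝ) * C₁ := by positivity
    have h6 : 0 ≤ 2 * ((r : ℝ) + 1 + C₁) * C₁ := by positivity
    linarith
  obtain ⟨Bw, hBw⟩ : ∃ Bw : ℝ, Bw = C₂ ^ E := ⟨_, rfl⟩
  have hBw1 : 1 ≤ Bw := by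
    rw [hBw]
    exact Real.one_le_rpow hC₂1 hE
  refine ⟨b', C₀ * Bw, hb', by positivity, ?_⟩
  intro K D hK hD hDec A B j u om q h ι S c F huj hu huom hom hq hB hqf hc1 hch hsep hF w hw
  have hK0 : 0 < K := by linarith
  have hK2 : 0 < K ^ 2 := by positivity
  have hwm : Measurable w := ((h4 (r + 1) (K ^ 2) E hK2 hE).1 w hw).1
  rcases S.eq_empty_or_nonempty with hS | ⟨i₀, hi₀⟩
  · subst hS
    simp only [Finset.sum_empty]
    rw [nw_zero hp0]
    exact bot_le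
  -- the size of `h`
  have hh : |h| ≤ (r : ℝ) + 1 + C₁ := by
    have e1 := hch i₀ hi₀
    have e2 := dot_le hu (hc1 i₀ hi₀)
    push_cast at e2
    have e3 : C₁ / K ≤ C₁ := div_le_self hC₁ hK
    have e4 : |h| ≤ |u ⬝ᵥ c i₀| + |u ⬝ᵥ c i₀ - h| := by
      have := abs_sub (u ⬝ᵥ c i₀) (u ⬝ᵥ c i₀ - h)
      rwa [sub_sub_cancel] at this
    linarith
  obtain ⟨kap, hkap⟩ : ∃ kap : ℝ, kap = 2 * h * q := ⟨_, rfl⟩
  obtain ⟨⟨cc, _, _, hcc⟩, hLip, hz, hPm⟩ := h1 r j u om kap huj hu huom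
  have hL2 : 1 + r * ‖om‖ + |kap| ≤ C₂ := by
    rw [hkap, abs_mul, abs_mul, abs_two, hC₂]
    have e1 : (r : ℝ) * ‖om‖ ≤ r * C₁ := mul_le_mul_of_nonneg_left hom (by positivity)
    have e2 : 2 * |h| * |q| ≤ 2 * ((r : ℝ) + 1 + C₁) * C₁ :=
      mul_le_mul (by linarith) hq (abs_nonneg _) (by positivity)
    linarith
  have hFm : ∀ i ∈ S, Measurable (F i) := fun i hi => (DEC.B.Trig.continuous (hF i hi)).measurable
  -- the slices
  have key : ∀ z : ℝ, sl p j u om kap w (fun x => ∑ i ∈ S, F i x) z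
      ≤ ENNReal.ofReal (C₀ * Bw * D)
        * (∑ i ∈ S, sl p j u om kap w (F i) z ^ (2 : ℝ)) ^ (1 / 2 : ℝ) := by
    intro z
    have hG : ∀ i, ∃ G : X r → ℂ, i ∈ S → (Trig G (Box B b' K (pm j u om (c i))) ∧
        ∀ v : X r, F i (Psi j u om kap v z) =
          ee (h * (om ⬝ᵥ (Psi j u om kap v z).1) + q * h ^ 2 * v.2) * G v) := by
      intro i
      by_cases hi : i ∈ S
      · obtain ⟨G, hG1, hG2⟩ := hCA A B j u om q h K (c i) (F i) huj hu huom hom hq hqf hK0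
          (hch i hi) (hF i hi) z
        refine ⟨G, fun _ => ⟨hG1, fun v => ?_⟩⟩
        rw [hkap]
        exact hG2 v
      · exact ⟨0, fun hi' => absurd hi' hi⟩
    choose G hG using hG
    -- the weight
    obtain ⟨w', hw', hww⟩ := (h4 r (K ^ 2) E hK2 hE).2.1
      (fun v => w (Psi j u om kap v z)) Bw hBw1 (by
        intro x y
        refine (hw (Psi j u om kap x z) (Psi j u om kap y z)).trans ?_
        rw [mul_comm (ENNReal.ofReal Bw), mul_assoc]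
        refine mul_le_mul_right ?_ _
        rw [← ENNReal.ofReal_mul (by linarith)]
        refine ENNReal.ofReal_le_ofReal ?_
        rw [hBw, ← Real.mul_rpow (by linarith) (by positivity)]
        refine Real.rpow_le_rpow (by positivity) ?_ hE
        have e1 := (hLip x y z).trans (mul_le_mul_of_nonneg_right hL2 (norm_nonneg _))
        have e2 : ‖Psi j u om kap x z - Psi j u om kap y z‖ / K ^ 2 ≤ C₂ * ‖x - y‖ / K ^ 2 :=
          div_le_div_of_nonneg_right e1 hK2.le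
        have e3 : C₂ * (1 + ‖x - y‖ / K ^ 2) = C₂ + C₂ * ‖x - y‖ / K ^ 2 := by ring
        rw [e3]
        linarith)
    have s1 : sl p j u om kap w (fun x => ∑ i ∈ S, F i x) z
        = nw p (fun v => w (Psi j u om kap v z)) (fun v => ∑ i ∈ S, G i v) := by
      unfold sl
      refine nw_congr p _ fun v => ?_
      have e1 : ∑ i ∈ S, F i (Psi j u om kap v z)
          = ee (h * (om ⬝ᵥ (Psi j u om kap v z).1) + q * h ^ 2 * v.2) * ∑ i ∈ S, G i v := by
        rw [Finset.mul_sum]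
        exact Finset.sum_congr rfl fun i hi => (hG i hi).2 v
      change ‖∑ i ∈ S, F i (Psi j u om kap v z)‖ = ‖∑ i ∈ S, G i v‖
      rw [e1, norm_mul, DEC.B.norm_ee, one_mul]
    have s2 : ∀ i ∈ S, sl p j u om kap w (F i) z
        = nw p (fun v => w (Psi j u om kap v z)) (G i) := by
      intro i hi
      unfold sl
      refine nw_congr p _ fun v => ?_
      rw [(hG i hi).2 v, norm_mul, DEC.B.norm_ee, one_mul]
    have s3 : sq p (fun v => w (Psi j u om kap v z)) S G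
        = (∑ i ∈ S, sl p j u om kap w (F i) z ^ (2 : ℝ)) ^ (1 / 2 : ℝ) := by
      unfold sq
      congr 1
      exact Finset.sum_congr rfl fun i hi => by rw [s2 i hi]
    have s4 := hPR b' K D hK hD hDec B ι S (fun i => pm j u om (c i)) G hB hsep
      (fun i hi => (hG i hi).1) (fun i hi => pm_le hu hom (hc1 i hi) hC₁) w' hw'
    rw [s1]
    calc nw p (fun v => w (Psi j u om kap v z)) (fun v => ∑ i ∈ S, G i v)
        ≤ nw p w' (fun v => ∑ i ∈ S, G i v) := nw_mono hp0 (fun x => (hww x).1) _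
      _ ≤ ENNReal.ofReal (C₀ * D) * sq p w' S G := s4
      _ ≤ ENNReal.ofReal (C₀ * D) * (ENNReal.ofReal Bw
            * sq p (fun v => w (Psi j u om kap v z)) S G) := by
          refine mul_le_mul_right ?_ _
          exact sq_le_ofReal (by linarith) Bw hBw1 (fun x => (hww x).2) S G
      _ = ENNReal.ofReal (C₀ * Bw * D)
            * (∑ i ∈ S, sl p j u om kap w (F i) z ^ (2 : ℝ)) ^ (1 / 2 : ℝ) := by
          rw [s3, ← mul_assoc, ← ENNReal.ofReal_mul (by positivity)]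
          congr 2
          ring
  -- integration over `z`
  have hsum : Measurable fun x => ∑ i ∈ S, F i x := Finset.measurable_sum S hFm
  rw [sl_eq hp0 hwm hsum hcc]
  have t1 : (∫⁻ z, sl p j u om kap w (fun x => ∑ i ∈ S, F i x) z ^ p) ^ (1 / p)
      ≤ ENNReal.ofReal (C₀ * Bw * D)
        * (∑ i ∈ S, ((∫⁻ z, sl p j u om kap w (F i) z ^ p) ^ (1 / p)) ^ (2 : ℝ)) ^ (1 / 2 : ℝ) := by
    have e1 : ∀ z, sl p j u om kap w (fun x => ∑ i ∈ S, F i x) z ^ p
        ≤ ENNReal.ofReal (C₀ * Bw * D) ^ p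
          * (∑ i ∈ S, sl p j u om kap w (F i) z ^ (2 : ℝ)) ^ (p / 2) := by
      intro z
      refine (ENNReal.rpow_le_rpow (key z) hp0.le).trans (le_of_eq ?_)
      rw [ENNReal.mul_rpow_of_nonneg _ _ hp0.le, ← ENNReal.rpow_mul]
      congr 2
      ring
    have e2 : ∫⁻ z, sl p j u om kap w (fun x => ∑ i ∈ S, F i x) z ^ p
        ≤ ENNReal.ofReal (C₀ * Bw * D) ^ p
          * ∫⁻ z, (∑ i ∈ S, sl p j u om kap w (F i) z ^ (2 : ℝ)) ^ (p / 2) := by
      rw [← lintegral_const_mul' _ _ (ENNReal.rpow_ne_top_of_nonneg hp0.le ENNReal.ofReal_ne_top)]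
      exact lintegral_mono e1
    refine (ENNReal.rpow_le_rpow e2 (by positivity)).trans ?_
    rw [ENNReal.mul_rpow_of_nonneg _ _ (by positivity), ← ENNReal.rpow_mul,
      mul_one_div_cancel hp0.ne', ENNReal.rpow_one]
    refine mul_le_mul_right ?_ _
    exact BNEnn.mink2 volume p hp S (fun i z => sl p j u om kap w (F i) z)
      fun i hi => (sl_meas hwm (hFm i hi) hPm).aemeasurable
  have t2 : cc ^ (1 / p)
      * (∑ i ∈ S, ((∫⁻ z, sl p j u om kap w (F i) z ^ p) ^ (1 / p)) ^ (2 : ℝ)) ^ (1 / 2 : ℝ)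
      = sq p w S F := by
    rw [← l2_const_mul]
    unfold sq
    congr 1
    refine Finset.sum_congr rfl fun i hi => ?_
    rw [sl_eq hp0 hwm (hFm i hi) hcc]
  rw [← t2]
  calc cc ^ (1 / p) * (∫⁻ z, sl p j u om kap w (fun x => ∑ i ∈ S, F i x) z ^ p) ^ (1 / p)
      ≤ cc ^ (1 / p) * (ENNReal.ofReal (C₀ * Bw * D)
        * (∑ i ∈ S, ((∫⁻ z, sl p j u om kap w (F i) z ^ p) ^ (1 / p)) ^ (2 : ℝ)) ^ (1 / 2 : ℝ)) :=
        mul_le_mul_right t1 _
    _ = _ := by ring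

end DEC
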