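import Pool.Agent.DEC.StmtsB

/-!
# DEC, module B_DR: discrete restriction from decoupling
-/

set_option autoImplicit false

open MeasureTheory
open scoped ENNReal Matrix

namespace DEC
namespace BDR

/-! ### Scaling and periodicity -/

lemma scale {E : Type*} [NormedAddCommGroup E] [NormedSpace ℝ E] [FiniteDimensional ℝ E]
    [MeasurableSpace E] [BorelSpace E] (μ : Measure E) [μ.IsAddHaarMeasure] (R : ℝ) (hR : 0 < R)
    (g : E → ℝ≥0∞) (hg : Measurable g) :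
    ∫⁻ x, g (R⁻¹ • x) ∂μ = ENNReal.ofReal (R ^ Module.finrank ℝ E) * ∫⁻ x, g x ∂μ := by
  have h := Measure.map_addHaar_smul μ (inv_ne_zero hR.ne')
  have h1 : ∫⁻ x, g (R⁻¹ • x) ∂μ = ∫⁻ x, g x ∂(Measure.map (R⁻¹ • ·) μ) :=
    (lintegral_map hg (measurable_const_smul R⁻¹)).symm
  rw [h1, h, lintegral_smul_measure, smul_eq_mul]
  congr 2
  rw [inv_pow, inv_inv, abs_of_pos (pow_pos hR _)]

/-- The half-open unit cube with the corner `k`. -/
def cube {r : ℕ} (k : Fin r → ℤ) : Set (Fin r → ℝ) :=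
  Set.pi Set.univ fun i => Set.Ico (k i : ℝ) ((k i : ℝ) + 1)

lemma mem_cube {r : ℕ} (k : Fin r → ℤ) (x : Fin r → ℝ) :
    x ∈ cube k ↔ ∀ i, (k i : ℝ) ≤ x i ∧ x i < (k i : ℝ) + 1 := by
  simp [cube, Set.mem_pi, Set.mem_Ico]

lemma measurable_cube {r : ℕ} (k : Fin r → ℤ) : MeasurableSet (cube k) :=
  MeasurableSet.univ_pi fun _ => measurableSet_Ico

lemma cube_floor {r : ℕ} {k : Fin r → ℤ} {x : Fin r → ℝ} (h : x ∈ cube k) :
    k = fun i => ⌊x i⌋ := by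
  funext i
  rw [mem_cube] at h
  exact (Int.floor_eq_iff.2 (h i)).symm

lemma int_cube {r : ℕ} (H : (Fin r → ℝ) → ℝ≥0∞)
    (hper : ∀ (x : Fin r → ℝ) (k : Fin r → ℤ), H (x + fun i => (k i : ℝ)) = H x)
    (k : Fin r → ℤ) : ∫⁻ x in cube k, H x = ∫⁻ x in Set.Icc (0 : Fin r → ℝ) 1, H x := by
  have h1 : ∫⁻ x in cube k, H x = ∫⁻ x in cube 0, H x := by
    rw [← lintegral_indicator (measurable_cube k), ← lintegral_indicator (measurable_cube 0),
      ← lintegral_add_right_eq_self _ (fun i => (k i : ℝ))]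
    refine lintegral_congr fun x => ?_
    have hiff : (x + fun i => (k i : ℝ)) ∈ cube k ↔ x ∈ cube (0 : Fin r → ℤ) := by
      rw [mem_cube, mem_cube]
      refine forall_congr' fun i => ?_
      simp only [Pi.add_apply, Pi.zero_apply, Int.cast_zero]
      constructor <;> rintro ⟨h1, h2⟩ <;> constructor <;> linarith
    by_cases hx : x ∈ cube (0 : Fin r → ℤ)
    · rw [Set.indicator_of_mem hx, Set.indicator_of_mem (hiff.2 hx), hper]
    · rw [Set.indicator_of_notMem hx, Set.indicator_of_notMem (fun h => hx (hiff.1 h))]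
  rw [h1]
  refine setLIntegral_congr ?_
  have h2 := Measure.univ_pi_Ico_ae_eq_Icc (μ := fun _ : Fin r => (volume : Measure ℝ))
    (f := fun _ => 0) (g := fun _ => 1)
  have h3 : cube (0 : Fin r → ℤ) = Set.pi Set.univ fun _ : Fin r => Set.Ico (0 : ℝ) 1 := by
    unfold cube
    simp
  rw [h3]
  exact h2

lemma period_le {r : ℕ} (H : (Fin r → ℝ) → ℝ≥0∞)
    (hper : ∀ (x : Fin r → ℝ) (k : Fin r → ℤ), H (x + fun i => (k i : ℝ)) = H x) (N : ℕ) :
    (N : ℝ≥0∞) ^ r * ∫⁻ x in Set.Icc (0 : Fin r → ℝ) 1, H x ≤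
      ∫⁻ x in Set.Icc (0 : Fin r → ℝ) (fun _ => (N : ℝ)), H x := by
  have h1 : (N : ℝ≥0∞) ^ r * ∫⁻ x in Set.Icc (0 : Fin r → ℝ) 1, H x =
      ∑ k ∈ Fintype.piFinset fun _ : Fin r => Finset.Ico (0 : ℤ) N, ∫⁻ x in cube k, H x := by
    simp only [int_cube H hper]
    rw [Finset.sum_const, Fintype.card_piFinset, Finset.prod_const, Finset.card_univ,
      Fintype.card_fin, Int.card_Ico, nsmul_eq_mul]
    simp
  rw [h1, ← lintegral_biUnion_finset]
  · refine lintegral_mono_set ?_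
    intro x hx
    simp only [Set.mem_iUnion] at hx
    obtain ⟨k, hk, hx⟩ := hx
    rw [Fintype.mem_piFinset] at hk
    rw [mem_cube] at hx
    constructor
    · intro i
      have h2 := (Finset.mem_Ico.1 (hk i)).1
      have h3 : (0 : ℝ) ≤ k i := by exact_mod_cast h2
      exact h3.trans (hx i).1
    · intro i
      have h2 := (Finset.mem_Ico.1 (hk i)).2
      have h3 : (k i : ℝ) + 1 ≤ N := by exact_mod_cast h2
      exact ((hx i).2.le).trans h3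
  · intro k _ k' _ hne
    refine Set.disjoint_left.2 fun x hx hx' => hne ?_
    rw [cube_floor hx, cube_floor hx']
  · intro k _
    exact measurable_cube k

/-! ### The exponential sum -/

/-- The exponential sum. -/
noncomputable def FF {r : ℕ} (A : Matrix (Fin r) (Fin r) ℝ) (S : Finset (Fin r → ℤ))
    (a : (Fin r → ℤ) → ℂ) (z : X r) : ℂ :=
  ∑ n ∈ S, a n * ee (pr (fun i => (n i : ℝ), qf A fun i => (n i : ℝ)) z)

lemma continuous_FF {r : ℕ} (A : Matrix (Fin r) (Fin r) ℝ) (S : Finset (Fin r → ℤ))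
    (a : (Fin r → ℤ) → ℂ) : Continuous (FF A S a) := by
  unfold FF
  exact continuous_finsetSum _ fun n _ =>
    continuous_const.mul (B.continuous_ee.comp (B.continuous_pr _))

lemma ee_int (k : ℤ) : ee (k : ℝ) = 1 := by
  unfold ee
  rw [Complex.exp_eq_one_iff]
  exact ⟨k, by push_cast; ring⟩

lemma FF_period {r : ℕ} (A : Matrix (Fin r) (Fin r) ℝ) (S : Finset (Fin r → ℤ))
    (a : (Fin r → ℤ) → ℂ) (t : ℝ) (x : Fin r → ℝ) (k : Fin r → ℤ) :
    FF A S a (x + fun i => (k i : ℝ), t) = FF A S a (x, t) := by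
  unfold FF
  refine Finset.sum_congr rfl fun n _ => ?_
  congr 1
  have h : pr (fun i => (n i : ℝ), qf A fun i => (n i : ℝ)) (x + fun i => (k i : ℝ), t) =
      pr (fun i => (n i : ℝ), qf A fun i => (n i : ℝ)) (x, t) +
        ((∑ i, n i * k i : ℤ) : ℝ) := by
    unfold pr dotProduct
    push_cast
    simp only [Pi.add_apply, mul_add, Finset.sum_add_distrib]
    ring
  rw [h, B.ee_add, ee_int, mul_one]

/-- The integral over the period is controlled by the weighted integral at the scale `N ^ 2`. -/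
lemma int_le {r : ℕ} (N : ℕ) (hN : 1 ≤ N) (a : ℝ) (ha : 0 ≤ a) (g : X r → ℝ≥0∞)
    (hg : Measurable g)
    (hper : ∀ (t : ℝ) (x : Fin r → ℝ) (k : Fin r → ℤ), g (x + fun i => (k i : ℝ), t) = g (x, t)) :
    ENNReal.ofReal ((2 : ℝ) ^ (-a)) *
        ∫⁻ t in Set.Icc (0 : ℝ) 1, ∫⁻ x in Set.Icc (0 : Fin r → ℝ) 1, g (x, t) ≤
      ∫⁻ z : X r, g ((N : ℝ)⁻¹ • z.1, ((N : ℝ) ^ 2)⁻¹ • z.2) * wt ((N : ℝ) ^ 2) a (0 - z) := by
  have hN0 : (0 : ℝ) < N := by exact_mod_cast hN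
  have hN2 : (0 : ℝ) < (N : ℝ) ^ 2 := by positivity
  set B : Set (X r) := Set.Icc (0 : Fin r → ℝ) (fun _ => (N : ℝ)) ×ˢ Set.Icc (0 : ℝ) 1 with hB
  have hBm : MeasurableSet B := measurableSet_Icc.prod measurableSet_Icc
  set Ψ : X r → ℝ≥0∞ := B.indicator g with hΨ
  have hΨm : Measurable Ψ := hg.indicator hBm
  set c : ℝ := ((N : ℝ) ^ 2) ^ (-((r : ℝ) + 1)) * (2 : ℝ) ^ (-a) with hc
  have hc0 : 0 < c := by positivity
  -- the weight on the box
  have hw : ∀ z : X r, ENNReal.ofReal c * Ψ ((N : ℝ)⁻¹ • z.1, ((N : ℝ) ^ 2)⁻¹ • z.2) ≤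
      g ((N : ℝ)⁻¹ • z.1, ((N : ℝ) ^ 2)⁻¹ • z.2) * wt ((N : ℝ) ^ 2) a (0 - z) := by
    intro z
    by_cases hz : (((N : ℝ)⁻¹ • z.1, ((N : ℝ) ^ 2)⁻¹ • z.2) : X r) ∈ B
    · rw [hΨ, Set.indicator_of_mem hz, mul_comm]
      refine mul_le_mul_right ?_ _
      unfold wt
      refine ENNReal.ofReal_le_ofReal ?_
      rw [hc]
      refine mul_le_mul_of_nonneg_left ?_ (by positivity)
      have hz1 : ‖z‖ ≤ (N : ℝ) ^ 2 := by
        obtain ⟨⟨h1, h2⟩, h3, h4⟩ := hz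
        simp only at h1 h2 h3 h4
        rw [Prod.norm_def]
        refine max_le ?_ ?_
        · refine (pi_norm_le_iff_of_nonneg hN2.le).2 fun i => ?_
          have h5 := h1 i
          have h6 := h2 i
          simp only [Pi.smul_apply, Pi.zero_apply, smul_eq_mul] at h5 h6
          have h7 : 0 ≤ z.1 i := by
            have := mul_nonneg hN0.le h5
            rwa [mul_inv_cancel_left₀ hN0.ne'] at this
          have h8 : z.1 i ≤ (N : ℝ) ^ 2 := by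
            have := mul_le_mul_of_nonneg_left h6 hN0.le
            rw [mul_inv_cancel_left₀ hN0.ne'] at this
            nlinarith
          rw [Real.norm_eq_abs, abs_of_nonneg h7]
          exact h8
        · simp only [smul_eq_mul] at h3 h4
          have h7 : 0 ≤ z.2 := by
            have := mul_nonneg hN2.le h3
            rwa [mul_inv_cancel_left₀ hN2.ne'] at this
          have h8 : z.2 ≤ (N : ℝ) ^ 2 := by
            have := mul_le_mul_of_nonneg_left h4 hN2.le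
            rwa [mul_inv_cancel_left₀ hN2.ne', mul_one] at this
          rw [Real.norm_eq_abs, abs_of_nonneg h7]
          exact h8
      have h9 : ‖(0 : X r) - z‖ = ‖z‖ := by rw [zero_sub, norm_neg]
      rw [h9]
      have h10 : ‖z‖ / (N : ℝ) ^ 2 ≤ 1 := by rwa [div_le_one hN2]
      have h11 : 0 ≤ ‖z‖ / (N : ℝ) ^ 2 := by positivity
      refine Real.rpow_le_rpow_of_nonpos (by linarith) (by linarith) (by linarith)
    · rw [hΨ, Set.indicator_of_notMem hz, mul_zero]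
      exact zero_le
  -- the integral of the rescaled function
  have hm1 : Measurable fun z : X r => Ψ ((N : ℝ)⁻¹ • z.1, ((N : ℝ) ^ 2)⁻¹ • z.2) :=
    hΨm.comp (by fun_prop)
  have h1 : ∫⁻ z : X r, Ψ ((N : ℝ)⁻¹ • z.1, ((N : ℝ) ^ 2)⁻¹ • z.2) =
      ENNReal.ofReal ((N : ℝ) ^ r) * (ENNReal.ofReal ((N : ℝ) ^ 2) * ∫⁻ t, ∫⁻ x, Ψ (x, t)) := by
    rw [Measure.volume_eq_prod, lintegral_prod_symm' _ hm1]
    have h2 : ∀ T : ℝ, ∫⁻ y : Fin r → ℝ, Ψ ((N : ℝ)⁻¹ • y, ((N : ℝ) ^ 2)⁻¹ • T) =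
        ENNReal.ofReal ((N : ℝ) ^ r) * ∫⁻ x, Ψ (x, ((N : ℝ) ^ 2)⁻¹ • T) := by
      intro T
      have h3 := scale (volume : Measure (Fin r → ℝ)) (N : ℝ) hN0
        (fun x => Ψ (x, ((N : ℝ) ^ 2)⁻¹ • T)) (hΨm.comp measurable_prodMk_right)
      rw [h3, Module.finrank_fin_fun]
    simp only [h2]
    rw [lintegral_const_mul' _ _ ENNReal.ofReal_ne_top]
    congr 1
    have h4 := scale (volume : Measure ℝ) ((N : ℝ) ^ 2) hN2 (fun t => ∫⁻ x, Ψ (x, t))
      hΨm.lintegral_prod_left'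
    rw [h4, Module.finrank_self, pow_one]
  -- the periods
  have h2 : (N : ℝ≥0∞) ^ r *
      ∫⁻ t in Set.Icc (0 : ℝ) 1, ∫⁻ x in Set.Icc (0 : Fin r → ℝ) 1, g (x, t) ≤
        ∫⁻ t, ∫⁻ x, Ψ (x, t) := by
    rw [← lintegral_const_mul' _ _ (ENNReal.pow_ne_top (ENNReal.natCast_ne_top N))]
    refine le_trans ?_ (setLIntegral_le_lintegral (Set.Icc (0 : ℝ) 1) _)
    refine setLIntegral_mono' measurableSet_Icc fun t ht => ?_
    refine (period_le (fun x => g (x, t)) (hper t) N).trans ?_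
    rw [← lintegral_indicator measurableSet_Icc]
    refine lintegral_mono fun x => ?_
    by_cases hx : x ∈ Set.Icc (0 : Fin r → ℝ) (fun _ => (N : ℝ))
    · have hmem : ((x, t) : X r) ∈ B := ⟨hx, ht⟩
      rw [Set.indicator_of_mem hx, hΨ, Set.indicator_of_mem hmem]
    · rw [Set.indicator_of_notMem hx]
      exact zero_le
  have hconst : c * (((N : ℝ) ^ r) * (((N : ℝ) ^ 2) * (N : ℝ) ^ r)) = (2 : ℝ) ^ (-a) := by
    have h3 : ((N : ℝ) ^ 2) ^ (-((r : ℝ) + 1)) = (((N : ℝ) ^ 2) ^ (r + 1))⁻¹ := by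
      rw [Real.rpow_neg hN2.le]
      congr 1
      have h5 : ((r : ℝ) + 1) = ((r + 1 : ℕ) : ℝ) := by push_cast; rfl
      rw [h5, Real.rpow_natCast]
    have h4 : ((N : ℝ) ^ r) * (((N : ℝ) ^ 2) * (N : ℝ) ^ r) = ((N : ℝ) ^ 2) ^ (r + 1) := by
      ring
    rw [hc, h3, h4]
    have h5 : ((N : ℝ) ^ 2) ^ (r + 1) ≠ 0 := by positivity
    field_simp
  have hNr : (N : ℝ≥0∞) ^ r = ENNReal.ofReal ((N : ℝ) ^ r) := by
    rw [ENNReal.ofReal_pow hN0.le, ENNReal.ofReal_natCast]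
  calc ENNReal.ofReal ((2 : ℝ) ^ (-a)) *
        ∫⁻ t in Set.Icc (0 : ℝ) 1, ∫⁻ x in Set.Icc (0 : Fin r → ℝ) 1, g (x, t)
      = ENNReal.ofReal c * (ENNReal.ofReal ((N : ℝ) ^ r) * (ENNReal.ofReal ((N : ℝ) ^ 2) *
          ((N : ℝ≥0∞) ^ r *
            ∫⁻ t in Set.Icc (0 : ℝ) 1, ∫⁻ x in Set.Icc (0 : Fin r → ℝ) 1, g (x, t)))) := by
        rw [hNr, ← hconst, ENNReal.ofReal_mul (p := c) hc0.le,
          ENNReal.ofReal_mul (p := (N : ℝ) ^ r) (by positivity),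
          ENNReal.ofReal_mul (p := (N : ℝ) ^ 2) hN2.le]
        ring
    _ ≤ ENNReal.ofReal c * (ENNReal.ofReal ((N : ℝ) ^ r) * (ENNReal.ofReal ((N : ℝ) ^ 2) *
          ∫⁻ t, ∫⁻ x, Ψ (x, t))) := by gcongr
    _ = ∫⁻ z : X r, ENNReal.ofReal c * Ψ ((N : ℝ)⁻¹ • z.1, ((N : ℝ) ^ 2)⁻¹ • z.2) := by
        rw [← h1, lintegral_const_mul' _ _ ENNReal.ofReal_ne_top]
    _ ≤ _ := lintegral_mono hw

/-! ### The family -/

/-- The centres. -/
noncomputable def cc {r : ℕ} (N : ℕ) (n : Fin r → ℤ) : Fin r → ℝ :=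
  (N : ℝ)⁻¹ • fun i => (n i : ℝ)

lemma qf_smul {r : ℕ} (A : Matrix (Fin r) (Fin r) ℝ) (c : ℝ) (η : Fin r → ℝ) :
    qf A (c • η) = c ^ 2 * qf A η := by
  unfold qf
  rw [Matrix.mulVec_smul, smul_dotProduct, dotProduct_smul, smul_eq_mul, smul_eq_mul]
  ring

lemma FF_scaled {r : ℕ} (A : Matrix (Fin r) (Fin r) ℝ) (S : Finset (Fin r → ℤ))
    (a : (Fin r → ℤ) → ℂ) (N : ℕ) (z : X r) :
    FF A S a ((N : ℝ)⁻¹ • z.1, ((N : ℝ) ^ 2)⁻¹ • z.2) =
      ∑ n ∈ S, a n * ee (pr (cc N n, qf A (cc N n)) z) := by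
  unfold FF
  refine Finset.sum_congr rfl fun n _ => ?_
  congr 2
  unfold pr cc
  rw [qf_smul]
  simp only [smul_eq_mul, smul_dotProduct, dotProduct_smul, inv_pow]
  ring

lemma fam {r : ℕ} (A : Matrix (Fin r) (Fin r) ℝ) (S : Finset (Fin r → ℤ))
    (a : (Fin r → ℤ) → ℂ) (N : ℕ) (hN : 1 ≤ N) (hS : ∀ n ∈ S, ∀ i, -(N : ℤ) ≤ n i ∧ n i ≤ N) :
    Fam A 1 N S (cc N) (fun n z => a n * ee (pr (cc N n, qf A (cc N n)) z)) := by
  have hN0 : (0 : ℝ) < N := by exact_mod_cast hN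
  refine ⟨fun n hn => ?_, fun n hn m hm hne => ?_, fun n hn => ?_⟩
  · refine (pi_norm_le_iff_of_nonneg zero_le_one).2 fun i => ?_
    unfold cc
    rw [Pi.smul_apply, smul_eq_mul, Real.norm_eq_abs, abs_mul, abs_of_pos (inv_pos.2 hN0),
      inv_mul_le_iff₀ hN0, mul_one, abs_le]
    obtain ⟨h1, h2⟩ := hS n hn i
    exact ⟨by exact_mod_cast h1, by exact_mod_cast h2⟩
  · obtain ⟨i, hi⟩ := Function.ne_iff.1 hne
    refine le_trans ?_ (norm_le_pi_norm (cc N n - cc N m) i)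
    unfold cc
    rw [Pi.sub_apply, Pi.smul_apply, Pi.smul_apply, smul_eq_mul, smul_eq_mul, ← mul_sub,
      Real.norm_eq_abs, abs_mul, abs_of_pos (inv_pos.2 hN0), one_div]
    refine le_mul_of_one_le_right (inv_pos.2 hN0).le ?_
    have h1 : 1 ≤ |n i - m i| := Int.one_le_abs (sub_ne_zero.2 hi)
    exact_mod_cast h1
  · refine ⟨1, fun _ => a n, fun _ => (cc N n, qf A (cc N n)), fun _ => ?_, fun z => ?_⟩
    · constructor
      · simp only [sub_self, norm_zero]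
        positivity
      · simp only [sub_self, abs_zero]
        positivity
    · simp

lemma nw_one {r : ℕ} (p : ℝ) (hp : 0 < p) (w : X r → ℝ≥0∞) (a : ℂ) (q : X r) :
    nw p w (fun z => a * ee (pr q z)) = ‖a‖ₑ * (∫⁻ x, w x) ^ (1 / p) := by
  unfold nw
  have h1 : ∀ x : X r, ‖a * ee (pr q x)‖ₑ ^ p * w x = ‖a‖ₑ ^ p * w x := by
    intro x
    have h2 : ‖ee (pr q x)‖ₑ = 1 := by
      rw [← ofReal_norm, B.norm_ee, ENNReal.ofReal_one]
    rw [enorm_mul, h2, mul_one]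
  simp only [h1]
  rw [lintegral_const_mul' _ _ (ENNReal.rpow_ne_top_of_nonneg hp.le enorm_ne_top),
    ENNReal.mul_rpow_of_nonneg _ _ (by positivity), ← ENNReal.rpow_mul, mul_one_div_cancel hp.ne',
    ENNReal.rpow_one]

end BDR

open BDR in
theorem t_DR (h1 : Stmt_Main) (h2 : Stmt_AvBasic) (h3 : Stmt_WtBasic) : Stmt_DR := by
  intro r p l L ε hp hpr hl hε
  have hE0 : (0 : ℝ) ≤ (r : ℝ) + 2 := by positivity
  obtain ⟨C0, hC0, hdec⟩ := h1 r p ((r : ℝ) + 2) l L 1 ε hp hpr hE0 hl le_rfl hε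
  obtain ⟨C1, hC1, hint⟩ := h2.1 r ((r : ℝ) + 2) (by linarith)
  have hp0 : 0 < p := by linarith
  refine ⟨C0 * ((2 : ℝ) ^ ((r : ℝ) + 2) * C1) ^ (1 / p), by positivity, ?_⟩
  intro A hA N a hN
  have hN0 : (0 : ℝ) < N := by exact_mod_cast hN
  have hN2 : (0 : ℝ) < (N : ℝ) ^ 2 := by positivity
  set S : Finset (Fin r → ℤ) := Fintype.piFinset fun _ : Fin r => Finset.Icc (-(N : ℤ)) N with hS
  have hS' : ∀ n ∈ S, ∀ i, -(N : ℤ) ≤ n i ∧ n i ≤ N := by
    intro n hn i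
    rw [hS, Fintype.mem_piFinset] at hn
    exact Finset.mem_Icc.1 (hn i)
  -- decoupling
  have hd := hdec N (by exact_mod_cast hN) A hA (Fin r → ℤ) S (cc N) _ (fam A S a N hN hS')
    (fun y => wt ((N : ℝ) ^ 2) ((r : ℝ) + 2) (0 - y)) ((h3 r ((N : ℝ) ^ 2) ((r : ℝ) + 2) hN2 hE0).2.2 0)
  -- the mass of the weight
  have hmass : ∫⁻ y : X r, wt ((N : ℝ) ^ 2) ((r : ℝ) + 2) (0 - y) = ENNReal.ofReal C1 := by
    rw [← hint ((N : ℝ) ^ 2) hN2]
    refine lintegral_congr fun y => ?_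
    unfold wt
    rw [zero_sub, norm_neg]
  -- the square function
  have hsq : sq p (fun y : X r => wt ((N : ℝ) ^ 2) ((r : ℝ) + 2) (0 - y)) S
      (fun n z => a n * ee (pr (cc N n, qf A (cc N n)) z)) =
      ENNReal.ofReal C1 ^ (1 / p) * (∑ n ∈ S, ‖a n‖ₑ ^ (2 : ℝ)) ^ (1 / 2 : ℝ) := by
    unfold sq
    rw [← B.l2_const_mul]
    congr 1
    refine Finset.sum_congr rfl fun n _ => ?_
    rw [nw_one p hp0, hmass, mul_comm]
  -- the left side
  have hg : Measurable fun z : X r => ‖FF A S a z‖ₑ ^ p :=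
    ((continuous_FF A S a).measurable.enorm).pow_const p
  have hle := int_le N hN ((r : ℝ) + 2) hE0 (fun z : X r => ‖FF A S a z‖ₑ ^ p) hg
    (fun t x k => by simp only [FF_period])
  have hnw : nw p (fun y : X r => wt ((N : ℝ) ^ 2) ((r : ℝ) + 2) (0 - y))
      (fun z => ∑ n ∈ S, a n * ee (pr (cc N n, qf A (cc N n)) z)) =
      (∫⁻ z : X r, ‖FF A S a ((N : ℝ)⁻¹ • z.1, ((N : ℝ) ^ 2)⁻¹ • z.2)‖ₑ ^ p *
        wt ((N : ℝ) ^ 2) ((r : ℝ) + 2) (0 - z)) ^ (1 / p) := by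
    unfold nw
    simp only [FF_scaled]
  set I : ℝ≥0∞ := ∫⁻ t in Set.Icc (0 : ℝ) 1, ∫⁻ x in Set.Icc (0 : Fin r → ℝ) 1,
    ‖FF A S a (x, t)‖ₑ ^ p with hI
  have hgoal : I ^ (1 / p) ≤ ENNReal.ofReal ((2 : ℝ) ^ ((r : ℝ) + 2)) ^ (1 / p) *
      nw p (fun y : X r => wt ((N : ℝ) ^ 2) ((r : ℝ) + 2) (0 - y))
        (fun z => ∑ n ∈ S, a n * ee (pr (cc N n, qf A (cc N n)) z)) := by
    rw [hnw, ← ENNReal.mul_rpow_of_nonneg _ _ (by positivity)]
    refine ENNReal.rpow_le_rpow ?_ (by positivity)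
    calc I = ENNReal.ofReal ((2 : ℝ) ^ ((r : ℝ) + 2)) *
          (ENNReal.ofReal ((2 : ℝ) ^ (-((r : ℝ) + 2))) * I) := by
          rw [← mul_assoc, ← ENNReal.ofReal_mul (by positivity), ← Real.rpow_add two_pos,
            add_neg_cancel, Real.rpow_zero, ENNReal.ofReal_one, one_mul]
      _ ≤ _ := by gcongr
  show I ^ (1 / p) ≤ _
  calc I ^ (1 / p) ≤ ENNReal.ofReal ((2 : ℝ) ^ ((r : ℝ) + 2)) ^ (1 / p) *
        (ENNReal.ofReal (C0 * (N : ℝ) ^ ε) *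
          (ENNReal.ofReal C1 ^ (1 / p) * (∑ n ∈ S, ‖a n‖ₑ ^ (2 : ℝ)) ^ (1 / 2 : ℝ))) := by
        rw [← hsq]
        exact hgoal.trans (mul_le_mul_right hd _)
    _ = _ := by
        rw [ENNReal.ofReal_rpow_of_nonneg (by positivity) (by positivity),
          ENNReal.ofReal_rpow_of_nonneg hC1.le (by positivity), ← mul_assoc, ← mul_assoc,
          ← ENNReal.ofReal_mul (by positivity), ← ENNReal.ofReal_mul (by positivity)]
        congr 2
        rw [Real.mul_rpow (by positivity) hC1.le]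
        ring

end DEC
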