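import Pool.Agent.DEC.StmtsB

/-!
# l^2 decoupling, block B: determinants of the directions (module B_DetA)
-/

open MeasureTheory
open scoped ENNReal Matrix

namespace DEC

namespace BDetA

variable {r : ℕ}

/-- The block diagonal matrix with the blocks `2 Aᵀ` and `1`. -/
noncomputable def blk (A : Matrix (Fin r) (Fin r) ℝ) : Matrix (Fin (r + 1)) (Fin (r + 1)) ℝ :=
  (Matrix.fromBlocks ((2 : ℝ) • Aᵀ) 0 0 (1 : Matrix (Fin 1) (Fin 1) ℝ)).submatrix
    finSumFinEquiv.symm finSumFinEquiv.symm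

lemma det_blk (A : Matrix (Fin r) (Fin r) ℝ) : (blk A).det = 2 ^ r * A.det := by
  unfold blk
  rw [Matrix.det_submatrix_equiv_self, Matrix.det_fromBlocks_zero₂₁, Matrix.det_one, mul_one,
    Matrix.det_smul, Matrix.det_transpose, Fintype.card_fin]

lemma cs_eq (c : Fin r) : c.castSucc = Fin.castAdd 1 c := rfl

lemma blk_cc (A : Matrix (Fin r) (Fin r) ℝ) (c j : Fin r) :
    blk A c.castSucc j.castSucc = 2 * A j c := by
  unfold blk
  rw [Matrix.submatrix_apply, cs_eq, cs_eq,
    finSumFinEquiv_symm_apply_castAdd, finSumFinEquiv_symm_apply_castAdd,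
    Matrix.fromBlocks_apply₁₁, Matrix.smul_apply, Matrix.transpose_apply, smul_eq_mul]

lemma last_eq (r : ℕ) : Fin.last r = Fin.natAdd r (0 : Fin 1) := by
  ext; simp

lemma blk_cl (A : Matrix (Fin r) (Fin r) ℝ) (c : Fin r) :
    blk A c.castSucc (Fin.last r) = 0 := by
  unfold blk
  rw [Matrix.submatrix_apply, cs_eq, last_eq,
    finSumFinEquiv_symm_apply_castAdd, finSumFinEquiv_symm_apply_natAdd,
    Matrix.fromBlocks_apply₁₂, Matrix.zero_apply]

lemma blk_lc (A : Matrix (Fin r) (Fin r) ℝ) (j : Fin r) :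
    blk A (Fin.last r) j.castSucc = 0 := by
  unfold blk
  rw [Matrix.submatrix_apply, cs_eq, last_eq,
    finSumFinEquiv_symm_apply_castAdd, finSumFinEquiv_symm_apply_natAdd,
    Matrix.fromBlocks_apply₂₁, Matrix.zero_apply]

lemma blk_ll (A : Matrix (Fin r) (Fin r) ℝ) :
    blk A (Fin.last r) (Fin.last r) = 1 := by
  unfold blk
  rw [Matrix.submatrix_apply, last_eq, finSumFinEquiv_symm_apply_natAdd,
    Matrix.fromBlocks_apply₂₂, Matrix.one_apply_eq]

lemma dt_eq (A : Matrix (Fin r) (Fin r) ℝ) (x : Fin (r + 1) → Fin r → ℝ) :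
    (dt fun k => (2 : ℝ) • (A *ᵥ x k)) = dt x * (2 ^ r * A.det) := by
  unfold dt
  rw [← det_blk, ← Matrix.det_mul]
  congr 1
  ext a b
  rw [Matrix.mul_apply, Fin.sum_univ_castSucc]
  simp only [Matrix.of_apply, Fin.snoc_castSucc, Fin.snoc_last, one_mul]
  refine Fin.lastCases ?_ (fun j => ?_) b
  · simp only [Fin.snoc_last, blk_cl, blk_ll, mul_zero, Finset.sum_const_zero, zero_add]
  · simp only [Fin.snoc_castSucc, blk_cc, blk_lc, add_zero, Pi.smul_apply, smul_eq_mul,
      Matrix.mulVec, dotProduct, Finset.mul_sum]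
    exact Finset.sum_congr rfl fun c _ => by ring

lemma det_ge {l L : ℝ} {A : Matrix (Fin r) (Fin r) ℝ} (hl : 0 < l) (hA : QF l L A) :
    l ^ r ≤ A.det := by
  have hH : A.IsHermitian := by
    rw [Matrix.IsHermitian, Matrix.conjTranspose_eq_transpose_of_trivial]
    exact hA.symm
  have he : ∀ i, l ≤ hH.eigenvalues i := by
    intro i
    rw [hH.eigenvalues_eq i]
    have h1 := hA.lower (⇑(hH.eigenvectorBasis i))
    have h2 : ∑ k, (hH.eigenvectorBasis i) k ^ 2 = 1 := by
      have h3 := hH.eigenvectorBasis.orthonormal.1 i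
      have h4 := EuclideanSpace.norm_sq_eq (hH.eigenvectorBasis i)
      rw [h3] at h4
      simp only [Real.norm_eq_abs, sq_abs, one_pow] at h4
      exact h4.symm
    rw [h2, mul_one] at h1
    unfold qf at h1
    simpa using h1
  rw [hH.det_eq_prod_eigenvalues]
  calc l ^ r = ∏ _i : Fin r, l := by rw [Finset.prod_const, Finset.card_univ, Fintype.card_fin]
    _ ≤ ∏ i, hH.eigenvalues i := Finset.prod_le_prod (fun _ _ => hl.le) fun i _ => he i
    _ = _ := by simp

end BDetA

open BDetA in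
theorem t_DetA : Stmt_DetA := by
  intro r l L A x hl hA
  rw [dt_eq, abs_mul, abs_mul, mul_pow]
  have h1 := det_ge hl hA
  have h2 : 0 < l ^ r := by positivity
  rw [abs_of_pos (by positivity : (0 : ℝ) < 2 ^ r), abs_of_pos (lt_of_lt_of_le h2 h1),
    mul_comm |dt x|]
  exact mul_le_mul_of_nonneg_right (mul_le_mul_of_nonneg_left h1 (by positivity)) (abs_nonneg _)

end DEC
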