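import Pool.Agent.DEC.StmtsB

/-!
# DEC: abstract broad/narrow dichotomy
-/

set_option autoImplicit false

namespace DEC

open Finset
open scoped ENNReal

namespace BDich

/-- finite subadditivity -/
theorem le_sum {κ : Type} [DecidableEq κ] (T : Finset κ) (N : Finset κ → ℝ≥0∞) (h0 : N ∅ = 0)
    (hs : ∀ A B, A ⊆ T → B ⊆ T → Disjoint A B → N (A ∪ B) ≤ N A + N B) :
    ∀ A : Finset κ, A ⊆ T → N A ≤ ∑ c ∈ A, N {c} := by
  intro A
  induction A using Finset.induction_on with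
  | empty =>
    intro _
    rw [h0]
    exact bot_le
  | insert a s ha ih =>
    intro hA
    have ha' : ({a} : Finset κ) ⊆ T := by
      intro x hx
      rw [Finset.mem_singleton] at hx
      subst hx
      exact hA (Finset.mem_insert_self _ _)
    have hs' : s ⊆ T := fun x hx => hA (Finset.mem_insert_of_mem hx)
    have hd : Disjoint ({a} : Finset κ) s := Finset.disjoint_singleton_left.mpr ha
    rw [Finset.sum_insert ha, Finset.insert_eq]
    exact le_trans (hs {a} s ha' hs' hd) (add_le_add le_rfl (ih hs'))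

theorem l2_mono {κ : Type} (N : Finset κ → ℝ≥0∞) (S T : Finset κ) (h : S ⊆ T) :
    (∑ c ∈ S, N {c} ^ (2 : ℝ)) ^ (1 / 2 : ℝ) ≤ (∑ c ∈ T, N {c} ^ (2 : ℝ)) ^ (1 / 2 : ℝ) :=
  ENNReal.rpow_le_rpow (Finset.sum_le_sum_of_subset h) (by norm_num)

theorem le_l2 {κ : Type} (N : Finset κ → ℝ≥0∞) (T : Finset κ) (c : κ) (hc : c ∈ T) :
    N {c} ≤ (∑ c ∈ T, N {c} ^ (2 : ℝ)) ^ (1 / 2 : ℝ) := by
  have h : N {c} ^ (2 : ℝ) ≤ ∑ c ∈ T, N {c} ^ (2 : ℝ) :=
    Finset.single_le_sum (f := fun c => N {c} ^ (2 : ℝ)) (fun _ _ => bot_le) hc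
  calc N {c} = (N {c} ^ (2 : ℝ)) ^ (1 / 2 : ℝ) := by rw [← ENNReal.rpow_mul]; norm_num
    _ ≤ _ := ENNReal.rpow_le_rpow h (by norm_num)

/-- `x = ∏ x^(1/m)` -/
theorem prod_root (m : ℕ) (hm : 0 < m) (x : ℝ≥0∞) :
    ∏ _k : Fin m, x ^ (1 / (m : ℝ)) = x := by
  rw [Finset.prod_const, Finset.card_univ, Fintype.card_fin, ← ENNReal.rpow_natCast,
    ← ENNReal.rpow_mul]
  have : (1 / (m : ℝ)) * (m : ℝ) = 1 := by
    have : (m : ℝ) ≠ 0 := by exact_mod_cast hm.ne'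
    field_simp
  rw [this, ENNReal.rpow_one]

theorem root_bound {κ : Type} (m : ℕ) (hm : 0 < m) (N : Finset κ → ℝ≥0∞) (Φ n : ℝ≥0∞)
    (t : Fin m → κ) (h : ∀ k, Φ ≤ n * N {t k}) :
    Φ ≤ n * ∏ k, N {t k} ^ (1 / (m : ℝ)) := by
  have hp : (0 : ℝ) ≤ 1 / (m : ℝ) := by positivity
  calc Φ = ∏ _k : Fin m, Φ ^ (1 / (m : ℝ)) := (prod_root m hm Φ).symm
    _ ≤ ∏ k : Fin m, (n * N {t k}) ^ (1 / (m : ℝ)) :=
        Finset.prod_le_prod' fun k _ => ENNReal.rpow_le_rpow (h k) hp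
    _ = ∏ k : Fin m, (n ^ (1 / (m : ℝ)) * N {t k} ^ (1 / (m : ℝ))) :=
        Finset.prod_congr rfl fun k _ => ENNReal.mul_rpow_of_nonneg _ _ hp
    _ = n * ∏ k, N {t k} ^ (1 / (m : ℝ)) := by
        rw [Finset.prod_mul_distrib, prod_root m hm n]

end BDich

open BDich in
theorem t_Dich : Stmt_Dich := by
  classical
  intro κ m T N Nar Brd Λ hm h0 hs hnar hd
  have hsum := le_sum T N h0 hs
  rcases T.eq_empty_or_nonempty with hT | hT
  · subst hT
    rw [h0]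
    exact bot_le
  obtain ⟨c0, hc0, hmax⟩ := Finset.exists_max_image T (fun c => N {c}) hT
  have hn : 1 ≤ (T.card : ℝ≥0∞) := by
    have : 1 ≤ T.card := Finset.card_pos.mpr hT
    exact_mod_cast this
  have hn0 : (T.card : ℝ≥0∞) ≠ 0 := (lt_of_lt_of_le zero_lt_one hn).ne'
  have hnt : (T.card : ℝ≥0∞) ≠ ∞ := ENNReal.natCast_ne_top _
  obtain ⟨S, hS⟩ : ∃ S : Finset κ, S = T.filter fun c => N {c0} ≤ T.card * N {c} := ⟨_, rfl⟩
  have hST : S ⊆ T := by
    intro x hx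
    rw [hS, Finset.mem_filter] at hx
    exact hx.1
  have hSn : S.Nonempty := by
    refine ⟨c0, ?_⟩
    rw [hS, Finset.mem_filter]
    refine ⟨hc0, ?_⟩
    calc N {c0} = 1 * N {c0} := (one_mul _).symm
      _ ≤ T.card * N {c0} := mul_le_mul' hn le_rfl
  rcases hd S hST hSn with hN | ⟨t, ht, hb⟩
  · -- narrow
    refine le_trans ?_ le_self_add
    have hrest : N (T \ S) ≤ N {c0} := by
      refine le_trans (hsum (T \ S) Finset.sdiff_subset) ?_
      have h1 : (T.card : ℝ≥0∞) * ∑ c ∈ T \ S, N {c} ≤ T.card * N {c0} := by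
        rw [Finset.mul_sum]
        calc ∑ c ∈ T \ S, (T.card : ℝ≥0∞) * N {c} ≤ ∑ _c ∈ T \ S, N {c0} := by
              refine Finset.sum_le_sum fun c hc => ?_
              rw [Finset.mem_sdiff, hS, Finset.mem_filter] at hc
              by_contra hcon
              exact hc.2 ⟨hc.1, (not_le.mp hcon).le⟩
          _ = ((T \ S).card : ℝ≥0∞) * N {c0} := by
              rw [Finset.sum_const, nsmul_eq_mul]
          _ ≤ T.card * N {c0} := by
              refine mul_le_mul' ?_ le_rfl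
              exact_mod_cast Finset.card_le_card Finset.sdiff_subset
      exact (ENNReal.mul_le_mul_iff_right hn0 hnt).mp h1
    have hun : N T ≤ N S + N (T \ S) := by
      have h := hs S (T \ S) hST Finset.sdiff_subset Finset.disjoint_sdiff
      have e : S ∪ (T \ S) = T := Finset.union_sdiff_of_subset hST
      have e2 : N T = N (S ∪ (T \ S)) := by rw [e]
      rw [e2]
      exact h
    calc N T ≤ N S + N (T \ S) := hun
      _ ≤ Λ * (∑ c ∈ S, N {c} ^ (2 : ℝ)) ^ (1 / 2 : ℝ) + (∑ c ∈ T, N {c} ^ (2 : ℝ)) ^ (1 / 2 : ℝ) :=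
          add_le_add (hnar S hST hN) (le_trans hrest (le_l2 N T c0 hc0))
      _ ≤ Λ * (∑ c ∈ T, N {c} ^ (2 : ℝ)) ^ (1 / 2 : ℝ) + (∑ c ∈ T, N {c} ^ (2 : ℝ)) ^ (1 / 2 : ℝ) :=
          add_le_add (mul_le_mul' le_rfl (l2_mono N S T hST)) le_rfl
      _ = (Λ + 1) * (∑ c ∈ T, N {c} ^ (2 : ℝ)) ^ (1 / 2 : ℝ) := by
          rw [add_mul, one_mul]
  · -- broad
    refine le_trans ?_ le_add_self
    have h1 : N T ≤ T.card * N {c0} := by
      refine le_trans (hsum T (Finset.Subset.refl T)) ?_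
      calc ∑ c ∈ T, N {c} ≤ ∑ _c ∈ T, N {c0} := Finset.sum_le_sum fun c hc => hmax c hc
        _ = T.card * N {c0} := by rw [Finset.sum_const, nsmul_eq_mul]
    have h2 : N {c0} ≤ T.card * ∏ k, N {t k} ^ (1 / (m : ℝ)) := by
      refine root_bound m hm N (N {c0}) T.card t fun k => ?_
      have := ht k
      rw [hS, Finset.mem_filter] at this
      exact this.2
    have h3 : ∏ k, N {t k} ^ (1 / (m : ℝ)) ≤
        ∑ t ∈ (Fintype.piFinset fun _ : Fin m => T).filter Brd, ∏ k, N {t k} ^ (1 / (m : ℝ)) := by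
      refine Finset.single_le_sum (f := fun t : Fin m → κ => ∏ k, N {t k} ^ (1 / (m : ℝ)))
        (fun _ _ => bot_le) ?_
      rw [Finset.mem_filter, Fintype.mem_piFinset]
      exact ⟨fun k => hST (ht k), hb⟩
    calc N T ≤ T.card * N {c0} := h1
      _ ≤ T.card * (T.card * ∏ k, N {t k} ^ (1 / (m : ℝ))) := mul_le_mul' le_rfl h2
      _ = (T.card : ℝ≥0∞) ^ 2 * ∏ k, N {t k} ^ (1 / (m : ℝ)) := by ring
      _ ≤ _ := mul_le_mul' le_rfl h3

end DEC
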