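import Mathlib

/-!
# Minor lemma (broad or narrow)

A finite set of vectors in R^n either contains n vectors with determinant at least K^(-n), or is contained
in the set where some functional with largest coefficient 1 is smaller than 1/K.
-/

namespace DEC
namespace BNMinor

open Matrix

/-- the minor of the rows v and columns c -/
noncomputable def mn {n j : ℕ} (v : Fin j → Fin n → ℝ) (c : Fin j → Fin n) : ℝ :=
  (Matrix.of fun a b => v a (c b)).det

theorem mn_le_of_zero {n : ℕ} (v : Fin 0 → Fin n → ℝ) (c : Fin 0 → Fin n) : mn v c = 1 := by
  simp [mn]

/-- expansion of the bordered minor along the last row -/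
theorem mn_snoc {n j : ℕ} (v : Fin j → Fin n → ℝ) (x : Fin n → ℝ) (c : Fin (j + 1) → Fin n) :
    mn (Fin.snoc v x : Fin (j + 1) → Fin n → ℝ) c =
      ∑ b : Fin (j + 1), (-1) ^ (j + (b : ℕ)) * x (c b) * mn v (fun a => c (b.succAbove a)) := by
  unfold mn
  rw [Matrix.det_succ_row _ (Fin.last j)]
  refine Finset.sum_congr rfl fun b _ => ?_
  congr 1
  · simp [Matrix.of_apply, Fin.snoc_last]
  · congr 1
    ext a b'
    simp [Matrix.submatrix_apply, Matrix.of_apply, Fin.snoc_castSucc]

theorem minor_lemma {n : ℕ} (V : Finset (Fin n → ℝ)) (K : ℝ) (hK : 1 ≤ K) :
    (∃ v : Fin n → Fin n → ℝ, (∀ i, v i ∈ V) ∧ 1 ≤ K ^ n * |(Matrix.of v).det|) ∨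
    (∃ φ : Fin n → ℝ, (∀ i, |φ i| ≤ 1) ∧ (∃ i, |φ i| = 1) ∧ ∀ v ∈ V, K * |∑ i, φ i * v i| < 1) := by
  classical
  -- the largest j for which some minor is at least K^(-j) and the maximum over minors of size j
  have key : ∀ j : ℕ, j ≤ n →
      (∃ v : Fin j → Fin n → ℝ, ∃ c : Fin j → Fin n, (∀ i, v i ∈ V) ∧ 1 ≤ K ^ j * |mn v c|) ∨
      (∃ φ : Fin n → ℝ, (∀ i, |φ i| ≤ 1) ∧ (∃ i, |φ i| = 1) ∧ ∀ v ∈ V, K * |∑ i, φ i * v i| < 1) := by
    intro j
    induction j with
    | zero =>
      intro _
      left
      exact ⟨fun i => i.elim0, fun i => i.elim0, fun i => i.elim0, by simp [mn]⟩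
    | succ j ih =>
      intro hj
      rcases ih (by omega) with ⟨v0, c0, hv0, hm0⟩ | h
      · -- choose the maximal minor of size j
        let T : Type := (Fin j → {x // x ∈ V}) × (Fin j → Fin n)
        have hTne : Nonempty T := ⟨(fun i => ⟨v0 i, hv0 i⟩, c0)⟩
        obtain ⟨t, ht⟩ := Finite.exists_max (fun t : T => |mn (fun i => (t.1 i : Fin n → ℝ)) t.2|)
        set v : Fin j → Fin n → ℝ := fun i => (t.1 i : Fin n → ℝ) with hv
        set c : Fin j → Fin n := t.2 with hc
        have hmax : ∀ (v' : Fin j → Fin n → ℝ) (c' : Fin j → Fin n), (∀ i, v' i ∈ V) →
            |mn v' c'| ≤ |mn v c| := fun v' c' h' => ht (fun i => ⟨v' i, h' i⟩, c')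
        have hM : 1 ≤ K ^ j * |mn v c| := by
          refine le_trans hm0 ?_
          exact mul_le_mul_of_nonneg_left (hmax v0 c0 hv0) (by positivity)
        have hMpos : 0 < |mn v c| := by
          by_contra hcon
          have h0 : |mn v c| = 0 := le_antisymm (not_lt.mp hcon) (abs_nonneg _)
          rw [h0] at hM; norm_num at hM
        -- c is injective
        have hinj : Function.Injective c := by
          intro a b hab
          by_contra hne
          apply hMpos.ne'
          rw [abs_eq_zero]
          unfold mn
          exact Matrix.det_zero_of_column_eq hne (fun i => by simp [Matrix.of_apply, hab])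
        -- a column outside
        obtain ⟨i0, hi0⟩ : ∃ i0, i0 ∉ Set.range c := by
          by_contra hcon
          push Not at hcon
          have hs : Function.Surjective c := fun y => hcon y
          have := Fintype.card_le_of_surjective c hs
          simp at this; omega
        let c' : Fin (j + 1) → Fin n := Fin.snoc c i0
        have hc'inj : Function.Injective c' := by
          intro a b hab
          induction a using Fin.lastCases with
          | last =>
            induction b using Fin.lastCases with
            | last => rfl
            | cast b =>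
              exfalso; apply hi0
              simp only [c', Fin.snoc_last, Fin.snoc_castSucc] at hab
              exact ⟨b, hab.symm⟩
          | cast a =>
            induction b using Fin.lastCases with
            | last =>
              exfalso; apply hi0
              simp only [c', Fin.snoc_last, Fin.snoc_castSucc] at hab
              exact ⟨a, hab⟩
            | cast b =>
              simp only [c', Fin.snoc_castSucc] at hab
              rw [hinj hab]
        by_cases hbig : ∃ x ∈ V, 1 ≤ K ^ (j + 1) * |mn (Fin.snoc v x : Fin (j + 1) → Fin n → ℝ) c'|
        · left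
          obtain ⟨x, hx, hxx⟩ := hbig
          refine ⟨Fin.snoc v x, c', ?_, hxx⟩
          intro i
          induction i using Fin.lastCases with
          | last => simpa using hx
          | cast i => simpa [hv] using (t.1 i).2
        · right
          push Not at hbig
          -- the functional
          let φ : Fin n → ℝ := fun i => ∑ b : Fin (j + 1), if c' b = i then
            (-1) ^ (j + (b : ℕ)) * mn v (fun a => c' (b.succAbove a)) / |mn v c| else 0
          have hφc : ∀ b, φ (c' b) = (-1) ^ (j + (b : ℕ)) * mn v (fun a => c' (b.succAbove a)) / |mn v c| := by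
            intro b
            simp only [φ]
            rw [Finset.sum_eq_single b]
            · simp
            · intro b' _ hb'
              rw [if_neg]
              intro h; exact hb' (hc'inj h)
            · simp
          have hφ0 : ∀ i, i ∉ Set.range c' → φ i = 0 := by
            intro i hi
            simp only [φ]
            refine Finset.sum_eq_zero fun b _ => ?_
            rw [if_neg]
            intro h; exact hi ⟨b, h⟩
          have hvV : ∀ i, v i ∈ V := fun i => (t.1 i).2
          refine ⟨φ, ?_, ⟨i0, ?_⟩, ?_⟩
          · intro i
            by_cases hi : i ∈ Set.range c'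
            · obtain ⟨b, rfl⟩ := hi
              rw [hφc, abs_div, abs_mul, abs_pow, abs_neg, abs_one, one_pow, one_mul, abs_abs,
                div_le_one hMpos]
              exact hmax _ _ hvV
            · rw [hφ0 i hi]; simp
          · have h1 : c' (Fin.last j) = i0 := by simp [c']
            rw [← h1, hφc, abs_div, abs_mul, abs_pow, abs_neg, abs_one, one_pow, one_mul, abs_abs]
            have h2 : (fun a => c' ((Fin.last j).succAbove a)) = c := by
              ext a; simp [c', Fin.succAbove_last]
            rw [h2]
            exact div_self hMpos.ne'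
          · intro x hx
            have hsum : ∑ i, φ i * x i =
                mn (Fin.snoc v x : Fin (j + 1) → Fin n → ℝ) c' / |mn v c| := by
              rw [mn_snoc, Finset.sum_div]
              simp only [φ, Finset.sum_mul]
              rw [Finset.sum_comm]
              refine Finset.sum_congr rfl fun b _ => ?_
              rw [Finset.sum_eq_single (c' b)]
              · simp; ring
              · intro i _ hi
                rw [if_neg (fun h => hi h.symm)]; simp
              · simp
            rw [hsum, abs_div, abs_abs, mul_div_assoc', div_lt_one hMpos]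
            have h3 := hbig x hx
            have h4 : K ^ (j + 1) * |mn (Fin.snoc v x : Fin (j + 1) → Fin n → ℝ) c'| < K ^ j * |mn v c| :=
              lt_of_lt_of_le h3 hM
            rw [pow_succ, mul_assoc] at h4
            exact lt_of_mul_lt_mul_left h4 (by positivity)
      · exact Or.inr h
  rcases key n le_rfl with ⟨v, c, hv, hm⟩ | h
  · left
    refine ⟨v, hv, ?_⟩
    -- c is injective, hence a permutation
    have hpos : 0 < |mn v c| := by
      by_contra hcon
      have h0 : |mn v c| = 0 := le_antisymm (not_lt.mp hcon) (abs_nonneg _)
      rw [h0] at hm; norm_num at hm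
    have hinj : Function.Injective c := by
      intro a b hab
      by_contra hne
      apply hpos.ne'
      rw [abs_eq_zero]
      unfold mn
      exact Matrix.det_zero_of_column_eq hne (fun i => by simp [Matrix.of_apply, hab])
    let e : Equiv.Perm (Fin n) := Equiv.ofBijective c (Finite.injective_iff_bijective.mp hinj)
    have h1 : mn v c = ((Matrix.of v).submatrix id e).det := by
      unfold mn
      congr 1
    rw [h1, Matrix.det_permute', abs_mul] at hm
    have h2 : |((Equiv.Perm.sign e : ℤ) : ℝ)| = 1 := by
      rcases Int.units_eq_one_or (Equiv.Perm.sign e) with h | h <;> simp [h]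
    rw [h2, one_mul] at hm
    exact hm
  · exact Or.inr h

end BNMinor
end DEC
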