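import Pool.Agent.DEC.StmtsB
import Pool.Agent.DEC.BNMinor

/-!
# DEC, block B: the stable broad/narrow alternative
-/

set_option autoImplicit false

namespace DEC

open Matrix

namespace BGeo

/-- The point `(ξ, 1)`. -/
noncomputable def V {r : ℕ} (ξ : Fin r → ℝ) : Fin (r + 1) → ℝ :=
  (Fin.snoc (α := fun _ => ℝ) ξ 1 : _ → ℝ)

lemma V_castSucc {r : ℕ} (ξ : Fin r → ℝ) (i : Fin r) : V ξ i.castSucc = ξ i := by
  simp [V]

lemma V_last {r : ℕ} (ξ : Fin r → ℝ) : V ξ (Fin.last r) = 1 := by
  simp [V]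

/-- The matrix with rows `V (x k)`. -/
noncomputable def Mx {r : ℕ} (x : Fin (r + 1) → Fin r → ℝ) : Matrix (Fin (r + 1)) (Fin (r + 1)) ℝ :=
  Matrix.of fun a b => V (x a) b

lemma dt_eq {r : ℕ} (x : Fin (r + 1) → Fin r → ℝ) : dt x = (Mx x).det := rfl

lemma sum_V {r : ℕ} (φ : Fin (r + 1) → ℝ) (ξ : Fin r → ℝ) :
    ∑ i, φ i * V ξ i = ∑ i : Fin r, φ i.castSucc * ξ i + φ (Fin.last r) := by
  rw [Fin.sum_univ_castSucc]
  simp only [V_castSucc, V_last, mul_one]

lemma narrow {r : ℕ} (P : Finset (Fin r → ℝ)) (δ : ℝ) (φ : Fin (r + 1) → ℝ) (j : Fin r)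
    (hj : 0 < |φ j.castSucc|) (hmax : ∀ i : Fin r, |φ i.castSucc| ≤ |φ j.castSucc|) (B : ℝ)
    (hB : ∀ ξ ∈ P, |∑ i, φ i * V ξ i| ≤ B) (hBδ : B ≤ δ * |φ j.castSucc|) :
    ∃ (j : Fin r) (u : Fin r → ℝ) (h : ℝ), u j = 1 ∧ (∀ i, |u i| ≤ 1) ∧
      ∀ ξ ∈ P, |u ⬝ᵥ ξ - h| ≤ δ := by
  have h0 : φ j.castSucc ≠ 0 := abs_pos.1 hj
  refine ⟨j, fun i => φ i.castSucc / φ j.castSucc, -φ (Fin.last r) / φ j.castSucc, div_self h0,
    fun i => ?_, fun ξ hξ => ?_⟩
  · rw [abs_div, div_le_one hj]
    exact hmax i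
  · have h1 : (fun i => φ i.castSucc / φ j.castSucc) ⬝ᵥ ξ - -φ (Fin.last r) / φ j.castSucc =
        (∑ i, φ i * V ξ i) / φ j.castSucc := by
      rw [sum_V, dotProduct, add_div, Finset.sum_div, neg_div, sub_neg_eq_add]
      congr 1
      exact Finset.sum_congr rfl fun i _ => by ring
    rw [h1, abs_div, div_le_iff₀ hj]
    exact (hB ξ hξ).trans hBδ

/-- Case of zero determinants. -/
lemma narrow_of_zero {r : ℕ} (P : Finset (Fin r → ℝ)) (hP : P.Nonempty) (hP1 : ∀ ξ ∈ P, ‖ξ‖ ≤ 1)
    (δ : ℝ) (hδ : 0 < δ) (hδ1 : δ ≤ 1)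
    (hz : ∀ x : Fin (r + 1) → Fin r → ℝ, (∀ k, x k ∈ P) → dt x = 0) :
    ∃ (j : Fin r) (u : Fin r → ℝ) (h : ℝ), u j = 1 ∧ (∀ i, |u i| ≤ 1) ∧
      ∀ ξ ∈ P, |u ⬝ᵥ ξ - h| ≤ δ := by
  classical
  set K : ℝ := 2 * (r + 1) / δ with hK
  have hr : (0 : ℝ) ≤ r := Nat.cast_nonneg r
  have hK2 : 2 ≤ K := by
    rw [hK, le_div_iff₀ hδ]
    nlinarith
  have hK0 : 0 < K := by linarith
  rcases BNMinor.minor_lemma (P.image V) K (by linarith) with ⟨v, hv, h1⟩ | ⟨φ, h1, ⟨i0, hi0⟩, h2⟩
  · exfalso
    have hx : ∀ i, ∃ ξ ∈ P, V ξ = v i := fun i => by simpa using hv i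
    choose x hx hxv using hx
    have : (Matrix.of v).det = 0 := by
      rw [← hz x hx, dt_eq]
      congr 1
      ext a b
      simp [Mx, hxv]
    rw [this, abs_zero, mul_zero] at h1
    linarith
  · have h3 : ∀ ξ ∈ P, |∑ i, φ i * V ξ i| ≤ 1 / K := by
      intro ξ hξ
      have := h2 (V ξ) (Finset.mem_image_of_mem V hξ)
      rw [le_div_iff₀ hK0, mul_comm]
      exact this.le
    -- some coefficient of the linear part is not small
    obtain ⟨ξ0, hξ0⟩ := hP
    have h4 : ∃ j : Fin r, 1 / (2 * (r + 1)) ≤ |φ j.castSucc| := by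
      by_contra hcon
      push Not at hcon
      have hlast : |φ (Fin.last r)| = 1 := by
        induction i0 using Fin.lastCases with
        | last => exact hi0
        | cast i =>
          have := hcon i
          rw [hi0] at this
          rw [lt_div_iff₀ (by positivity)] at this
          nlinarith
      have h5 : |∑ i : Fin r, φ i.castSucc * ξ0 i| ≤ 1 / 2 := by
        calc |∑ i : Fin r, φ i.castSucc * ξ0 i| ≤ ∑ i : Fin r, |φ i.castSucc * ξ0 i| :=
              Finset.abs_sum_le_sum_abs _ _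
          _ ≤ ∑ _i : Fin r, 1 / (2 * ((r : ℝ) + 1)) := by
              refine Finset.sum_le_sum fun i _ => ?_
              rw [abs_mul]
              have h6 : |ξ0 i| ≤ 1 := (norm_le_pi_norm ξ0 i).trans (hP1 ξ0 hξ0)
              have h7 := (hcon i).le
              calc |φ i.castSucc| * |ξ0 i| ≤ |φ i.castSucc| * 1 := by gcongr
                _ ≤ _ := by linarith
          _ = r / (2 * (r + 1)) := by
              rw [Finset.sum_const, Finset.card_univ, Fintype.card_fin, nsmul_eq_mul]; ring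
          _ ≤ 1 / 2 := by
              rw [div_le_div_iff₀ (by positivity) (by norm_num)]
              linarith
      have h8 := h3 ξ0 hξ0
      rw [sum_V] at h8
      have h9 : 1 / K ≤ 1 / 2 := one_div_le_one_div_of_le (by norm_num) hK2
      -- strictness: use the original inequality
      have h10 := h2 (V ξ0) (Finset.mem_image_of_mem V hξ0)
      rw [sum_V] at h10
      have h11 : |∑ i : Fin r, φ i.castSucc * ξ0 i + φ (Fin.last r)| < 1 / 2 := by
        have : 2 * |∑ i : Fin r, φ i.castSucc * ξ0 i + φ (Fin.last r)| < 1 := by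
          refine lt_of_le_of_lt ?_ h10
          exact mul_le_mul_of_nonneg_right hK2 (abs_nonneg _)
        linarith
      have h12 : |φ (Fin.last r)| ≤ |∑ i : Fin r, φ i.castSucc * ξ0 i + φ (Fin.last r)| +
          |∑ i : Fin r, φ i.castSucc * ξ0 i| := by
        have := abs_sub (∑ i : Fin r, φ i.castSucc * ξ0 i + φ (Fin.last r))
          (∑ i : Fin r, φ i.castSucc * ξ0 i)
        simpa using this
      linarith
    obtain ⟨j1, hj1⟩ := h4
    have : Nonempty (Fin r) := ⟨j1⟩
    obtain ⟨j, hj⟩ := Finite.exists_max fun i : Fin r => |φ i.castSucc|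
    have h5 : 1 / (2 * (r + 1)) ≤ |φ j.castSucc| := hj1.trans (hj j1)
    have h6 : (0 : ℝ) < 1 / (2 * (r + 1)) := by positivity
    refine narrow P δ φ j (h6.trans_le h5) hj (1 / K) h3 ?_
    calc 1 / K = δ * (1 / (2 * (r + 1))) := by rw [hK]; field_simp
      _ ≤ δ * |φ j.castSucc| := by gcongr

/-- Continuity of the determinant at the identity. -/
lemma det_near (n : ℕ) : ∃ ε : ℝ, 0 < ε ∧ ∀ E : Matrix (Fin n) (Fin n) ℝ, (∀ a b, |E a b| ≤ ε) →
    1 / 2 ≤ |(1 + E).det| := by
  have hc : Continuous fun E : Fin n → Fin n → ℝ => (1 + Matrix.of E : Matrix (Fin n) (Fin n) ℝ).det := by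
    apply Continuous.matrix_det
    refine continuous_const.add ?_
    exact continuous_id
  have h0 : Filter.Tendsto (fun E : Fin n → Fin n → ℝ => (1 + Matrix.of E : Matrix (Fin n) (Fin n) ℝ).det)
      (nhds 0) (nhds 1) := by
    have := hc.tendsto 0
    simpa using this
  rw [Metric.tendsto_nhds_nhds] at h0
  obtain ⟨ε, hε, h⟩ := h0 (1 / 2) (by norm_num)
  refine ⟨ε / 2, by positivity, fun E hE => ?_⟩
  have h1 : dist (fun a b => E a b) (0 : Fin n → Fin n → ℝ) < ε := by
    rw [dist_zero_right]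
    refine lt_of_le_of_lt ((pi_norm_le_iff_of_nonneg (by positivity : 0 ≤ ε / 2)).2 fun a => ?_)
      (by linarith)
    exact (pi_norm_le_iff_of_nonneg (by positivity : 0 ≤ ε / 2)).2 fun b => hE a b
  have h2 := h h1
  rw [Real.dist_eq] at h2
  have h3 : (1 + Matrix.of fun a b => E a b : Matrix (Fin n) (Fin n) ℝ) = 1 + E := rfl
  rw [h3] at h2
  have h4 := abs_lt.1 h2
  have h5 : 1 / 2 ≤ (1 + E).det := by linarith [h4.1]
  exact h5.trans (le_abs_self _)

end BGeo

open BGeo in
theorem t_Geo : Stmt_Geo := by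
  classical
  intro r
  obtain ⟨ε, hε, hdet⟩ := det_near (r + 1)
  have hr : (0 : ℝ) ≤ r := Nat.cast_nonneg r
  set A : ℝ := (Nat.factorial (r + 1) : ℝ) * ((r : ℝ) + 1) ^ (r + 1) with hA
  have hA0 : 0 < A := by positivity
  refine ⟨min 1 (min (ε / (r + 1)) (1 / (2 * A))), by positivity, min_le_left _ _, ?_⟩
  set c : ℝ := min 1 (min (ε / (r + 1)) (1 / (2 * A))) with hc
  have hc0 : 0 < c := by positivity
  have hc1 : c ≤ ε / (r + 1) := (min_le_right _ _).trans (min_le_left _ _)
  have hc2 : c ≤ 1 / (2 * A) := (min_le_right _ _).trans (min_le_right _ _)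
  intro δ hδ hδ1 P hP hP1
  obtain ⟨ξ0, hξ0⟩ := hP
  -- maximal determinant
  have : Nonempty (Fin (r + 1) → {ξ // ξ ∈ P}) := ⟨fun _ => ⟨ξ0, hξ0⟩⟩
  obtain ⟨t, ht⟩ := Finite.exists_max fun t : Fin (r + 1) → {ξ // ξ ∈ P} =>
    |dt fun k => (t k : Fin r → ℝ)|
  set x : Fin (r + 1) → Fin r → ℝ := fun k => (t k : Fin r → ℝ) with hx
  have hxP : ∀ k, x k ∈ P := fun k => (t k).2
  have hmax : ∀ x' : Fin (r + 1) → Fin r → ℝ, (∀ k, x' k ∈ P) → |dt x'| ≤ |dt x| :=
    fun x' h' => ht fun k => ⟨x' k, h' k⟩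
  by_cases hd : dt x = 0
  · left
    refine narrow_of_zero P ⟨ξ0, hξ0⟩ hP1 δ hδ hδ1 fun x' h' => ?_
    have := hmax x' h'
    rw [hd, abs_zero] at this
    exact abs_eq_zero.1 (le_antisymm this (abs_nonneg _))
  · set M := Mx x with hM
    have hMd : M.det ≠ 0 := hd
    have hu : IsUnit M.det := isUnit_iff_ne_zero.2 hMd
    -- coefficients
    have hcoef : ∀ ξ ∈ P, ∀ k, |∑ i, M⁻¹ i k * V ξ i| ≤ 1 := by
      intro ξ hξ k
      have h1 : ∑ i, M⁻¹ i k * V ξ i = (V ξ ᵥ* M⁻¹) k := by
        rw [vecMul, dotProduct]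
        exact Finset.sum_congr rfl fun i _ => mul_comm _ _
      have h2 : (V ξ ᵥ* M⁻¹) k * M.det = (M.updateRow k (V ξ)).det := by
        have h3 : (V ξ ᵥ* M⁻¹) ᵥ* M = V ξ := by
          rw [vecMul_vecMul, nonsing_inv_mul M hu, vecMul_one]
        have h4 : (M.updateRow k (V ξ)).det = (M.updateRow k (∑ l, (V ξ ᵥ* M⁻¹) l • M l)).det := by
          congr 2
          conv_lhs => rw [← h3]
          ext i
          rw [vecMul, dotProduct, Finset.sum_apply]
          rfl
        rw [h4]
        have h5 := det_updateRow_sum M k (V ξ ᵥ* M⁻¹)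
        rw [h5, smul_eq_mul]
      rw [h1]
      have h6 : M.updateRow k (V ξ) = Mx (Function.update x k ξ) := by
        ext a b
        by_cases hak : a = k
        · subst hak
          simp [Mx]
        · simp [Mx, hak, hM]
      have h7 : |(M.updateRow k (V ξ)).det| ≤ |M.det| := by
        rw [h6, ← dt_eq]
        refine hmax _ fun l => ?_
        by_cases hlk : l = k
        · subst hlk; simpa using hξ
        · simpa [hlk] using hxP l
      rw [← h2, abs_mul] at h7
      have h8 : 0 < |M.det| := abs_pos.2 hMd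
      exact le_of_mul_le_mul_right (by linarith) h8
    by_cases hbig : ∃ (i : Fin r) (k : Fin (r + 1)), 1 / δ ≤ |M⁻¹ i.castSucc k|
    · left
      obtain ⟨i, k, hik⟩ := hbig
      have : Nonempty (Fin r) := ⟨i⟩
      obtain ⟨j, hj⟩ := Finite.exists_max fun i : Fin r => |M⁻¹ i.castSucc k|
      have h5 : 1 / δ ≤ |M⁻¹ j.castSucc k| := hik.trans (hj i)
      have h6 : (0 : ℝ) < 1 / δ := by positivity
      refine narrow P δ (fun i => M⁻¹ i k) j (h6.trans_le h5) hj 1 (fun ξ hξ => hcoef ξ hξ k) ?_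
      calc (1 : ℝ) = δ * (1 / δ) := by field_simp
        _ ≤ δ * |M⁻¹ j.castSucc k| := by gcongr
    · right
      push Not at hbig
      -- entries of the inverse
      have hinv : ∀ i k, |M⁻¹ i k| ≤ (r + 1) / δ := by
        intro i k
        induction i using Fin.lastCases with
        | cast i =>
          refine (hbig i k).le.trans ?_
          gcongr
          linarith
        | last =>
          have h1 := hcoef (x 0) (hxP 0) k
          rw [sum_V (fun i => M⁻¹ i k)] at h1
          have h2 : |∑ i : Fin r, M⁻¹ i.castSucc k * x 0 i| ≤ r / δ := by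
            calc |∑ i : Fin r, M⁻¹ i.castSucc k * x 0 i| ≤
                ∑ i : Fin r, |M⁻¹ i.castSucc k * x 0 i| := Finset.abs_sum_le_sum_abs _ _
              _ ≤ ∑ _i : Fin r, 1 / δ := by
                refine Finset.sum_le_sum fun i _ => ?_
                rw [abs_mul]
                have h6 : |x 0 i| ≤ 1 := (norm_le_pi_norm (x 0) i).trans (hP1 _ (hxP 0))
                calc |M⁻¹ i.castSucc k| * |x 0 i| ≤ |M⁻¹ i.castSucc k| * 1 := by gcongr
                  _ ≤ _ := by rw [mul_one]; exact (hbig i k).le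
              _ = r / δ := by
                rw [Finset.sum_const, Finset.card_univ, Fintype.card_fin, nsmul_eq_mul]; ring
          have h3 : |M⁻¹ (Fin.last r) k| ≤
              |∑ i : Fin r, M⁻¹ i.castSucc k * x 0 i + M⁻¹ (Fin.last r) k| +
                |∑ i : Fin r, M⁻¹ i.castSucc k * x 0 i| := by
            have := abs_sub (∑ i : Fin r, M⁻¹ i.castSucc k * x 0 i + M⁻¹ (Fin.last r) k)
              (∑ i : Fin r, M⁻¹ i.castSucc k * x 0 i)
            simpa using this
          have h4 : 1 ≤ 1 / δ := by rw [le_div_iff₀ hδ]; linarith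
          have h5 : (r + 1) / δ = r / δ + 1 / δ := by ring
          linarith
      -- lower bound of the determinant
      have hdM : δ ^ (r + 1) / A ≤ |M.det| := by
        have h1 : |M⁻¹.det| ≤ A / δ ^ (r + 1) := by
          have h2 := Matrix.det_le (A := M⁻¹) (abv := AbsoluteValue.abs) (x := ((r : ℝ) + 1) / δ)
            (fun i j => hinv i j)
          simp only [AbsoluteValue.abs_apply, Fintype.card_fin, nsmul_eq_mul, div_pow] at h2
          calc |M⁻¹.det| ≤ _ := h2
            _ = A / δ ^ (r + 1) := by rw [hA, mul_div_assoc]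
        have h3 : |M⁻¹.det| * |M.det| = 1 := by
          rw [← abs_mul, ← det_mul, nonsing_inv_mul M hu, det_one, abs_one]
        have h4 : 0 < δ ^ (r + 1) := by positivity
        have h5 : 1 ≤ A / δ ^ (r + 1) * |M.det| := by
          rw [← h3]; gcongr
        rw [div_le_iff₀ hA0]
        have h6 : A / δ ^ (r + 1) * |M.det| = (|M.det| * A) / δ ^ (r + 1) := by ring
        rw [h6, le_div_iff₀ h4, one_mul] at h5
        exact h5
      refine ⟨x, hxP, fun y hy => ?_⟩
      set E : Matrix (Fin (r + 1)) (Fin (r + 1)) ℝ := (Mx y - M) * M⁻¹ with hE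
      have hEy : Mx y = (1 + E) * M := by
        rw [hE, add_mul, one_mul, mul_assoc, nonsing_inv_mul M hu, mul_one]
        abel
      have hEb : ∀ a b, |E a b| ≤ ε := by
        intro a b
        have h1 : E a b = ∑ i : Fin r, (y a i - x a i) * M⁻¹ i.castSucc b := by
          rw [hE, mul_apply, Fin.sum_univ_castSucc]
          have h2 : (Mx y - M) a (Fin.last r) = 0 := by
            rw [hM]; simp [Mx, V_last]
          rw [h2, zero_mul, add_zero]
          refine Finset.sum_congr rfl fun i _ => ?_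
          congr 1
          rw [hM]; simp [Mx, V_castSucc]
        rw [h1]
        calc |∑ i : Fin r, (y a i - x a i) * M⁻¹ i.castSucc b| ≤
            ∑ i : Fin r, |(y a i - x a i) * M⁻¹ i.castSucc b| := Finset.abs_sum_le_sum_abs _ _
          _ ≤ ∑ _i : Fin r, c := by
            refine Finset.sum_le_sum fun i _ => ?_
            rw [abs_mul]
            have h2 : |y a i - x a i| ≤ c * δ := (norm_le_pi_norm (y a - x a) i).trans (hy a)
            calc |y a i - x a i| * |M⁻¹ i.castSucc b| ≤ (c * δ) * (1 / δ) := by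
                  gcongr
                  exact (hbig i b).le
              _ = c := by field_simp
          _ = r * c := by
            rw [Finset.sum_const, Finset.card_univ, Fintype.card_fin, nsmul_eq_mul]
          _ ≤ ε := by
            have h3 : (r : ℝ) * c ≤ r * (ε / (r + 1)) := by gcongr
            refine h3.trans ?_
            rw [mul_div_assoc', div_le_iff₀ (by positivity)]
            nlinarith
      have h1 := hdet E hEb
      rw [dt_eq, hEy, det_mul, abs_mul]
      calc c * δ ^ (r + 1) ≤ 1 / (2 * A) * δ ^ (r + 1) := by gcongr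
        _ = 1 / 2 * (δ ^ (r + 1) / A) := by ring
        _ ≤ |(1 + E).det| * |M.det| := by gcongr

end DEC
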