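import Pool.Agent.DEC.StmtsB

/-!
# l^2 decoupling, block B: module B-Lin (coordinates orthogonal for the quadratic form)
-/

open Finset
open scoped Matrix

namespace DEC
namespace BLin

/-- The bilinear form of a symmetric matrix is symmetric. -/
lemma bil_comm {n : ℕ} {A : Matrix (Fin n) (Fin n) ℝ} (hA : A.IsSymm) (x y : Fin n → ℝ) :
    x ⬝ᵥ (A *ᵥ y) = y ⬝ᵥ (A *ᵥ x) := by
  rw [Matrix.dotProduct_mulVec, ← Matrix.mulVec_transpose, hA.eq, dotProduct_comm]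

lemma qf_add {n : ℕ} {A : Matrix (Fin n) (Fin n) ℝ} (hA : A.IsSymm) (x y : Fin n → ℝ) :
    qf A (x + y) = qf A x + 2 * (x ⬝ᵥ (A *ᵥ y)) + qf A y := by
  unfold qf
  rw [Matrix.mulVec_add, add_dotProduct, dotProduct_add, dotProduct_add, bil_comm hA y x]
  ring

lemma qf_smul {n : ℕ} (A : Matrix (Fin n) (Fin n) ℝ) (c : ℝ) (x : Fin n → ℝ) :
    qf A (c • x) = c ^ 2 * qf A x := by
  unfold qf
  rw [Matrix.mulVec_smul, smul_dotProduct, dotProduct_smul, smul_eq_mul, smul_eq_mul]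
  ring

/-- The matrix of the parametrization of the hyperplane `u · ζ = 0` (`u j = 1`) by the coordinates
off `j`. -/
def Lm {r : ℕ} (j : Fin (r + 1)) (u : Fin (r + 1) → ℝ) : Matrix (Fin (r + 1)) (Fin r) ℝ :=
  fun k i => j.insertNth (α := fun _ => ℝ) (-(u (j.succAbove i))) (Pi.single i (1 : ℝ)) k

lemma Lm_same {r : ℕ} (j : Fin (r + 1)) (u : Fin (r + 1) → ℝ) (η : Fin r → ℝ) :
    (Lm j u *ᵥ η) j = -∑ i, u (j.succAbove i) * η i := by
  unfold Lm Matrix.mulVec dotProduct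
  simp only [Fin.insertNth_apply_same]
  rw [← Finset.sum_neg_distrib]
  exact Finset.sum_congr rfl fun i _ => by ring

lemma Lm_succ {r : ℕ} (j : Fin (r + 1)) (u : Fin (r + 1) → ℝ) (η : Fin r → ℝ) (k : Fin r) :
    (Lm j u *ᵥ η) (j.succAbove k) = η k := by
  unfold Lm Matrix.mulVec dotProduct
  simp only [Fin.insertNth_apply_succAbove]
  rw [Finset.sum_eq_single k]
  · simp
  · intro b _ hb
    rw [Pi.single_eq_of_ne (Ne.symm hb)]
    ring
  · intro h
    exact absurd (Finset.mem_univ k) h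

lemma dot_split {r : ℕ} (j : Fin (r + 1)) (u ξ : Fin (r + 1) → ℝ) :
    u ⬝ᵥ ξ = u j * ξ j + ∑ i, u (j.succAbove i) * ξ (j.succAbove i) := by
  unfold dotProduct
  exact Fin.sum_univ_succAbove _ j

lemma dot_Lm {r : ℕ} (j : Fin (r + 1)) (u : Fin (r + 1) → ℝ) (hu : u j = 1) (η : Fin r → ℝ) :
    u ⬝ᵥ (Lm j u *ᵥ η) = 0 := by
  rw [dot_split j, Lm_same, hu]
  simp only [Lm_succ]
  ring

lemma decomp {r : ℕ} (j : Fin (r + 1)) (u om : Fin (r + 1) → ℝ) (hu : u j = 1)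
    (hom : u ⬝ᵥ om = 1) (ξ : Fin (r + 1) → ℝ) :
    ξ = Lm j u *ᵥ (pm j u om ξ) + (u ⬝ᵥ ξ) • om := by
  have h1 : u ⬝ᵥ om = om j + ∑ i, u (j.succAbove i) * om (j.succAbove i) := by
    rw [dot_split j, hu, one_mul]
  have h2 : u ⬝ᵥ ξ = ξ j + ∑ i, u (j.succAbove i) * ξ (j.succAbove i) := by
    rw [dot_split j, hu, one_mul]
  have key : ∀ k, ξ k = (Lm j u *ᵥ (pm j u om ξ)) k + (u ⬝ᵥ ξ) * om k := by
    intro k
    rcases Fin.eq_self_or_eq_succAbove j k with rfl | ⟨i, rfl⟩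
    · rw [Lm_same]
      have h3 : ∑ i, u (k.succAbove i) * pm k u om ξ i
          = (∑ i, u (k.succAbove i) * ξ (k.succAbove i))
            - (u ⬝ᵥ ξ) * ∑ i, u (k.succAbove i) * om (k.succAbove i) := by
        rw [Finset.mul_sum, ← Finset.sum_sub_distrib]
        refine Finset.sum_congr rfl fun i _ => ?_
        unfold pm
        ring
      rw [h3]
      have h4 : ∑ i, u (k.succAbove i) * om (k.succAbove i) = 1 - om k := by linarith
      have h5 : ∑ i, u (k.succAbove i) * ξ (k.succAbove i) = u ⬝ᵥ ξ - ξ k := by linarith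
      rw [h4, h5]
      ring
    · rw [Lm_succ]
      unfold pm
      ring
  funext k
  rw [Pi.add_apply, Pi.smul_apply, smul_eq_mul]
  exact key k

lemma sum_Lm {r : ℕ} (j : Fin (r + 1)) (u : Fin (r + 1) → ℝ) (η : Fin r → ℝ) :
    ∑ k, (Lm j u *ᵥ η) k ^ 2 = (∑ i, u (j.succAbove i) * η i) ^ 2 + ∑ i, η i ^ 2 := by
  rw [Fin.sum_univ_succAbove _ j, Lm_same, neg_sq]
  simp only [Lm_succ]

lemma cs_bound {r : ℕ} (j : Fin (r + 1)) (u : Fin (r + 1) → ℝ) (hu : ∀ i, |u i| ≤ 1)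
    (η : Fin r → ℝ) : (∑ i, u (j.succAbove i) * η i) ^ 2 ≤ r * ∑ i, η i ^ 2 := by
  have h1 := Finset.sum_mul_sq_le_sq_mul_sq Finset.univ (fun i => u (j.succAbove i)) η
  have h2 : ∑ i, u (j.succAbove i) ^ 2 ≤ (r : ℝ) := by
    calc ∑ i, u (j.succAbove i) ^ 2 ≤ ∑ _i : Fin r, (1 : ℝ) :=
          Finset.sum_le_sum fun i _ => (sq_le_one_iff_abs_le_one _).2 (hu _)
      _ = r := by simp
  have h3 : 0 ≤ ∑ i, η i ^ 2 := Finset.sum_nonneg fun i _ => sq_nonneg _
  exact h1.trans (mul_le_mul_of_nonneg_right h2 h3)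

lemma qf_conj {r n : ℕ} (A : Matrix (Fin n) (Fin n) ℝ) (M : Matrix (Fin n) (Fin r) ℝ)
    (η : Fin r → ℝ) : qf (Mᵀ * A * M) η = qf A (M *ᵥ η) := by
  unfold qf
  rw [← Matrix.mulVec_mulVec, ← Matrix.mulVec_mulVec, Matrix.dotProduct_mulVec,
    Matrix.vecMul_transpose]

lemma QF_le {r : ℕ} {l L : ℝ} {A : Matrix (Fin (r + 1)) (Fin (r + 1)) ℝ} (h : QF l L A)
    (j : Fin (r + 1)) : l ≤ qf A (Pi.single j 1) ∧ qf A (Pi.single j 1) ≤ L := by
  have h0 : ∑ i, (Pi.single j (1 : ℝ) : Fin (r + 1) → ℝ) i ^ 2 = 1 := by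
    rw [Finset.sum_eq_single j]
    · simp
    · intro b _ hb
      rw [Pi.single_eq_of_ne hb]
      norm_num
    · intro h'
      exact absurd (Finset.mem_univ j) h'
  have h1 := h.lower (Pi.single j 1)
  have h2 := h.upper (Pi.single j 1)
  rw [h0, mul_one] at h1 h2
  exact ⟨h1, h2⟩

/-- A positive definite matrix is onto. -/
lemma exists_sol {n : ℕ} {l L : ℝ} {A : Matrix (Fin n) (Fin n) ℝ} (hl : 0 < l) (h : QF l L A)
    (u : Fin n → ℝ) : ∃ v, A *ᵥ v = u := by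
  have hinj : Function.Injective (Matrix.mulVecLin A) := by
    rw [← LinearMap.ker_eq_bot, LinearMap.ker_eq_bot']
    intro x hx
    have h1 : A *ᵥ x = 0 := hx
    have h2 := h.lower x
    have h3 : qf A x = 0 := by
      unfold qf
      rw [h1, dotProduct_zero]
    rw [h3] at h2
    have h4 : ∑ i, x i ^ 2 ≤ 0 := by
      by_contra hc
      push Not at hc
      exact absurd h2 (not_le.2 (mul_pos hl hc))
    have h5 : ∑ i, x i ^ 2 = 0 := le_antisymm h4 (Finset.sum_nonneg fun i _ => sq_nonneg _)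
    funext i
    have h6 := (Finset.sum_eq_zero_iff_of_nonneg (fun i _ => sq_nonneg (x i))).1 h5 i
      (Finset.mem_univ i)
    exact pow_eq_zero_iff (two_ne_zero) |>.1 h6
  have hsurj := (LinearMap.injective_iff_surjective (f := Matrix.mulVecLin A)).1 hinj
  obtain ⟨v, hv⟩ := hsurj u
  exact ⟨v, hv⟩

end BLin

open BLin in
theorem t_Lin : Stmt_Lin := by
  intro r l L hl
  refine ⟨1 + |L| / l + |L|, by positivity, ?_⟩
  intro A hA j u huj hu
  obtain ⟨v, hv⟩ := exists_sol hl hA u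
  obtain ⟨hej1, hej2⟩ := QF_le hA j
  have hlL : l ≤ L := hej1.trans hej2
  have hL0 : 0 < L := hl.trans_le hlL
  have huv : qf A v = u ⬝ᵥ v := by
    unfold qf
    rw [hv, dotProduct_comm]
  have hvne : 0 < ∑ i, v i ^ 2 := by
    by_contra hc
    push Not at hc
    have h5 : ∑ i, v i ^ 2 = 0 := le_antisymm hc (Finset.sum_nonneg fun i _ => sq_nonneg _)
    have h6 : v = 0 := by
      funext i
      have h6 := (Finset.sum_eq_zero_iff_of_nonneg (fun i _ => sq_nonneg (v i))).1 h5 i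
        (Finset.mem_univ i)
      exact pow_eq_zero_iff (two_ne_zero) |>.1 h6
    rw [h6, Matrix.mulVec_zero] at hv
    rw [← hv] at huj
    simp at huj
  have hs : 0 < u ⬝ᵥ v := by
    rw [← huv]
    exact (mul_pos hl hvne).trans_le (hA.lower v)
  set om : Fin (r + 1) → ℝ := (u ⬝ᵥ v)⁻¹ • v with hom_def
  have hom1 : u ⬝ᵥ om = 1 := by
    rw [hom_def, dotProduct_smul, smul_eq_mul, inv_mul_cancel₀ hs.ne']
  have hAom : A *ᵥ om = (u ⬝ᵥ v)⁻¹ • u := by
    rw [hom_def, Matrix.mulVec_smul, hv]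
  have horth : ∀ ζ : Fin (r + 1) → ℝ, u ⬝ᵥ ζ = 0 → ζ ⬝ᵥ (A *ᵥ om) = 0 := by
    intro ζ hζ
    rw [hAom, dotProduct_smul, dotProduct_comm ζ u, hζ, smul_zero]
  have hq : qf A om ≤ L := by
    have h1 : u ⬝ᵥ ((Pi.single j 1 : Fin (r + 1) → ℝ) - om) = 0 := by
      rw [dotProduct_sub, hom1, dotProduct_single, huj]
      norm_num
    have h2 : (Pi.single j 1 : Fin (r + 1) → ℝ) = (Pi.single j 1 - om) + om := by
      rw [sub_add_cancel]
    have h3 := qf_add hA.symm ((Pi.single j 1 : Fin (r + 1) → ℝ) - om) om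
    rw [horth _ h1, ← h2] at h3
    have h4 : 0 ≤ qf A ((Pi.single j 1 : Fin (r + 1) → ℝ) - om) :=
      (mul_nonneg hl.le (Finset.sum_nonneg fun i _ => sq_nonneg _)).trans (hA.lower _)
    linarith
  have hq0 : 0 ≤ qf A om :=
    (mul_nonneg hl.le (Finset.sum_nonneg fun i _ => sq_nonneg _)).trans (hA.lower _)
  have hLl : 0 ≤ L / l := by positivity
  refine ⟨om, (Lm j u)ᵀ * A * (Lm j u), qf A om, ⟨?_, ?_, ?_⟩, hom1, ?_, ?_, ?_⟩
  · unfold Matrix.IsSymm
    rw [Matrix.transpose_mul, Matrix.transpose_mul, Matrix.transpose_transpose, hA.symm.eq,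
      Matrix.mul_assoc]
  · intro η
    rw [qf_conj]
    refine le_trans ?_ (hA.lower _)
    rw [sum_Lm]
    have := sq_nonneg (∑ i, u (j.succAbove i) * η i)
    exact mul_le_mul_of_nonneg_left (by linarith) hl.le
  · intro η
    rw [qf_conj]
    refine (hA.upper _).trans ?_
    rw [sum_Lm]
    have h1 := cs_bound j u hu η
    have h2 : 0 ≤ ∑ i, η i ^ 2 := Finset.sum_nonneg fun i _ => sq_nonneg _
    calc L * ((∑ i, u (j.succAbove i) * η i) ^ 2 + ∑ i, η i ^ 2)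
        ≤ L * (r * (∑ i, η i ^ 2) + ∑ i, η i ^ 2) :=
          mul_le_mul_of_nonneg_left (by linarith) hL0.le
      _ ≤ (r + 2) * L * ∑ i, η i ^ 2 := by
          have h3 : 0 ≤ L * ∑ i, η i ^ 2 := mul_nonneg hL0.le h2
          nlinarith
  · have hC0 : (0 : ℝ) ≤ 1 + |L| / l + |L| := by positivity
    rw [pi_norm_le_iff_of_nonneg hC0]
    intro k
    rw [Real.norm_eq_abs, abs_of_pos hL0]
    have h1 : l * ∑ i, om i ^ 2 ≤ L := (hA.lower om).trans hq
    have h2 : om k ^ 2 ≤ ∑ i, om i ^ 2 :=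
      Finset.single_le_sum (f := fun i => om i ^ 2) (fun i _ => sq_nonneg _) (Finset.mem_univ k)
    have h3 : om k ^ 2 ≤ L / l := by
      rw [le_div_iff₀ hl]
      nlinarith
    have h4 : om k ^ 2 ≤ (1 + L / l) ^ 2 := by nlinarith
    have h5 : |om k| ≤ 1 + L / l := abs_le_of_sq_le_sq h4 (by positivity)
    linarith
  · rw [abs_of_nonneg hq0, abs_of_pos hL0]
    linarith
  · intro ξ
    rw [qf_conj]
    conv_lhs => rw [decomp j u om huj hom1 ξ]
    rw [qf_add hA.symm, qf_smul, Matrix.mulVec_smul, dotProduct_smul,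
      horth _ (dot_Lm j u huj _), smul_zero]
    ring

end DEC
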