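import Pool.Agent.DEC.StmtsB

/-!
# l^2 decoupling, block B: the local broad/narrow inequality
-/

open MeasureTheory Finset
open scoped ENNReal Matrix

namespace DEC
namespace BLoc

theorem norm_sub_le_of_cel {r : ℕ} {K : ℝ} (hK : 0 < K) {c c' : Fin r → ℝ}
    (h : cel K c = cel K c') : ‖c - c'‖ ≤ 1 / K := by
  rw [pi_norm_le_iff_of_nonneg (by positivity)]
  intro k
  have h1 : ⌊K * c k⌋ = ⌊K * c' k⌋ := congrFun h k
  have h2 : |K * c k - K * c' k| < 1 := Int.abs_sub_lt_one_of_floor_eq_floor h1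
  rw [Pi.sub_apply, Real.norm_eq_abs, le_div_iff₀ hK]
  have h3 : |c k - c' k| * K = |K * c k - K * c' k| := by
    rw [← mul_sub, abs_mul, abs_of_pos hK]; ring
  linarith

theorem box_sub {r : ℕ} {A : Matrix (Fin r) (Fin r) ℝ} {b K N : ℝ} (hb : 0 ≤ b) (hK : 0 < K)
    (hKN : K ≤ N) {c c' : Fin r → ℝ} (h : ‖c - c'‖ ≤ 1 / K) :
    Box A b N c ⊆ Box A (b + 1) K c' := by
  rintro w ⟨h1, h2⟩
  have hN : 0 < N := by linarith
  refine ⟨?_, ?_⟩
  · have h3 : w.1 - c' = (w.1 - c) + (c - c') := by abel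
    rw [h3]
    calc ‖(w.1 - c) + (c - c')‖ ≤ ‖w.1 - c‖ + ‖c - c'‖ := norm_add_le _ _
      _ ≤ b / N + 1 / K := add_le_add h1 h
      _ ≤ b / K + 1 / K := by gcongr
      _ = (b + 1) / K := by ring
  · calc |w.2 - qf A w.1| ≤ b / N ^ 2 := h2
      _ ≤ b / K ^ 2 := by gcongr
      _ ≤ (b + 1) / K ^ 2 := by gcongr; linarith

theorem qf_abs_le {r : ℕ} {l L : ℝ} {A : Matrix (Fin r) (Fin r) ℝ} (hl : 0 < l) (hA : QF l L A)
    {η : Fin r → ℝ} {B : ℝ} (h : ‖η‖ ≤ B) : |qf A η| ≤ |L| * (r * B ^ 2) := by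
  have hs0 : 0 ≤ ∑ i, η i ^ 2 := Finset.sum_nonneg fun i _ => sq_nonneg _
  have h1 : 0 ≤ qf A η := le_trans (by positivity) (hA.lower η)
  rw [abs_of_nonneg h1]
  have h2 : ∑ i, η i ^ 2 ≤ r * B ^ 2 := by
    have h3 : ∀ i ∈ (Finset.univ : Finset (Fin r)), η i ^ 2 ≤ B ^ 2 := by
      intro i _
      have h4 : |η i| ≤ B := (norm_le_pi_norm η i).trans h
      exact sq_le_sq.2 (h4.trans (le_abs_self B))
    have h5 := Finset.sum_le_card_nsmul _ _ _ h3
    simpa using h5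
  calc qf A η ≤ L * ∑ i, η i ^ 2 := hA.upper η
    _ ≤ |L| * ∑ i, η i ^ 2 := by gcongr; exact le_abs_self L
    _ ≤ |L| * (r * B ^ 2) := by gcongr

theorem box_ball {r : ℕ} {l L : ℝ} {A : Matrix (Fin r) (Fin r) ℝ} (hl : 0 < l) (hA : QF l L A)
    {b K : ℝ} (hb : 0 ≤ b) (hK : 1 ≤ K) {c : Fin r → ℝ} (hc : ‖c‖ ≤ 1) :
    Box A b K c ⊆ {w | ‖w - 0‖ ≤ (b + 1) + b + |L| * (r * (b + 1) ^ 2)} := by
  rintro w ⟨h1, h2⟩
  have hbK : b / K ≤ b := div_le_self hb hK
  have hbK2 : b / K ^ 2 ≤ b := div_le_self hb (one_le_pow₀ hK)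
  have h3 : ‖w.1‖ ≤ b + 1 := by
    have h4 : w.1 = (w.1 - c) + c := by abel
    calc ‖w.1‖ = ‖(w.1 - c) + c‖ := by rw [← h4]
      _ ≤ ‖w.1 - c‖ + ‖c‖ := norm_add_le _ _
      _ ≤ b + 1 := by linarith
  have h5 := qf_abs_le hl hA h3
  have h6 : |w.2| ≤ b + |L| * (r * (b + 1) ^ 2) := by
    have h7 : w.2 = (w.2 - qf A w.1) + qf A w.1 := by ring
    calc |w.2| = |(w.2 - qf A w.1) + qf A w.1| := by rw [← h7]
      _ ≤ |w.2 - qf A w.1| + |qf A w.1| := abs_add_le _ _
      _ ≤ b + |L| * (r * (b + 1) ^ 2) := by linarith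
  have h8 : 0 ≤ |L| * (r * (b + 1) ^ 2) := by positivity
  show ‖w - 0‖ ≤ _
  rw [sub_zero, Prod.norm_def]
  apply max_le
  · linarith
  · rw [Real.norm_eq_abs]
    linarith

theorem card_le {r : ℕ} {K : ℝ} (hK : 1 ≤ K) (T : Finset (Fin r → ℤ))
    (h : ∀ κ ∈ T, ∃ v : Fin r → ℝ, ‖v‖ ≤ 1 ∧ cel K v = κ) : (T.card : ℝ) ≤ (5 * K) ^ r := by
  classical
  have hsub : T ⊆ Fintype.piFinset fun _ : Fin r => Finset.Icc (-⌈K⌉) ⌈K⌉ := by
    intro κ hκ
    obtain ⟨v, hv, rfl⟩ := h κ hκ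
    rw [Fintype.mem_piFinset]
    intro k
    have h1 : |v k| ≤ 1 := (norm_le_pi_norm v k).trans hv
    rw [abs_le] at h1
    have h2 := Int.le_ceil K
    rw [Finset.mem_Icc]
    unfold cel
    constructor
    · rw [Int.le_floor]
      push_cast
      nlinarith
    · have h3 : ((⌊K * v k⌋ : ℤ) : ℝ) ≤ ((⌈K⌉ : ℤ) : ℝ) := by
        refine (Int.floor_le _).trans ?_
        nlinarith
      exact_mod_cast h3
  have h2 := Finset.card_le_card hsub
  rw [Fintype.card_piFinset_const, Int.card_Icc] at h2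
  have h3 : ((⌈K⌉ + 1 - -⌈K⌉).toNat : ℝ) ≤ 5 * K := by
    have h4 : (0 : ℤ) ≤ ⌈K⌉ := Int.ceil_nonneg (by linarith)
    have h5 : ((⌈K⌉ + 1 - -⌈K⌉).toNat : ℤ) = ⌈K⌉ + 1 - -⌈K⌉ :=
      Int.toNat_of_nonneg (by linarith)
    have h6 : ((⌈K⌉ + 1 - -⌈K⌉).toNat : ℝ) = ((⌈K⌉ + 1 - -⌈K⌉ : ℤ) : ℝ) := by
      exact_mod_cast h5
    rw [h6]
    push_cast
    have := Int.ceil_lt_add_one K
    linarith
  calc (T.card : ℝ) ≤ (((⌈K⌉ + 1 - -⌈K⌉).toNat ^ r : ℕ) : ℝ) := by exact_mod_cast h2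
    _ ≤ (5 * K) ^ r := by
        push_cast
        gcongr

/-- `(ofReal (C K^(a p)))^(1/p) ≤ ofReal ((C + 1) K^a)` -/
theorem root_le {C K a p : ℝ} (hC : 0 < C) (hK : 1 ≤ K) (hp : 1 ≤ p) :
    (ENNReal.ofReal (C * K ^ (a * p))) ^ (1 / p) ≤ ENNReal.ofReal ((C + 1) * K ^ a) := by
  have hK0 : 0 < K := by linarith
  rw [ENNReal.ofReal_rpow_of_pos (by positivity)]
  apply ENNReal.ofReal_le_ofReal
  rw [Real.mul_rpow hC.le (by positivity), ← Real.rpow_mul hK0.le]
  have h1 : a * p * (1 / p) = a := by field_simp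
  rw [h1]
  gcongr
  calc C ^ (1 / p) ≤ (C + 1) ^ (1 / p) := by
        apply Real.rpow_le_rpow hC.le (by linarith) (by positivity)
    _ ≤ (C + 1) ^ (1 : ℝ) := by
        apply Real.rpow_le_rpow_of_exponent_le (by linarith)
        rw [div_le_one (by linarith)]
        exact hp
    _ = C + 1 := Real.rpow_one _

/-- comparison of two filtered sums -/
theorem combine {α : Type*} (P : Finset α) (B1 B2 : α → Prop) [DecidablePred B1]
    [DecidablePred B2] (f g : α → ℝ≥0∞) (c1 c2 c3 c4 : ℝ≥0∞) (h1 : c1 ≤ c2)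
    (h2 : c2 * c3 ≤ c4) (hB : ∀ t ∈ P, B1 t → B2 t) (hfg : ∀ t ∈ P, f t ≤ c3 * g t) :
    c1 * ∑ t ∈ P.filter B1, f t ≤ c4 * ∑ t ∈ P.filter B2, g t := by
  have h3 : ∑ t ∈ P.filter B1, f t ≤ c3 * ∑ t ∈ P.filter B2, g t := by
    rw [Finset.mul_sum]
    calc ∑ t ∈ P.filter B1, f t ≤ ∑ t ∈ P.filter B1, c3 * g t :=
          Finset.sum_le_sum fun t ht => hfg t (Finset.mem_filter.1 ht).1
      _ ≤ ∑ t ∈ P.filter B2, c3 * g t := by
          apply Finset.sum_le_sum_of_subset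
          intro t ht
          rw [Finset.mem_filter] at ht ⊢
          exact ⟨ht.1, hB t ht.1 ht.2⟩
  calc c1 * ∑ t ∈ P.filter B1, f t ≤ c2 * (c3 * ∑ t ∈ P.filter B2, g t) := mul_le_mul' h1 h3
    _ = (c2 * c3) * ∑ t ∈ P.filter B2, g t := by rw [mul_assoc]
    _ ≤ c4 * ∑ t ∈ P.filter B2, g t := mul_le_mul_left h2 _

end BLoc

open BLoc in
theorem t_Loc (h1 : Stmt_Dich) (h2 : Stmt_Geo) (h3 : Stmt_Cyl) (h4 : Stmt_Bro)
    (h5 : Stmt_WtBasic) : Stmt_Loc := by
  classical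
  intro r p a l L b hp ha hl hb E' hE'
  have hp1 : (1 : ℝ) ≤ p := by linarith
  have hp0 : (0 : ℝ) < p := by linarith
  have hE0 : 0 ≤ E' := by
    have h6 : 0 ≤ a * p / 2 := by positivity
    have h7 : (0 : ℝ) ≤ r := Nat.cast_nonneg r
    linarith
  obtain ⟨c₀, hc0, hc1, hgeo⟩ := h2 (r + 1)
  obtain ⟨b', Cc, hb', hCc, hcyl⟩ := h3 r p E' l L (b + 1) (1 / c₀) c₀ hp hE0 hl (by linarith)
    (by positivity) hc0 hc1
  obtain ⟨Cb, hCb, hbro⟩ := h4 (r + 1) p a E'
    ((b + 1 + 1) + (b + 1) + |L| * (((r + 1 : ℕ) : ℝ) * (b + 1 + 1) ^ 2)) hp ha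
    (by push_cast; linarith)
  refine ⟨b', c₀, Cc + 1 + 5 ^ (2 * (r + 1)) * (Cb + 1) + (2 * (r + 1) : ℕ) + a, hb', hc0, hc1,
    by positivity, ?_⟩
  intro K N D' hcK hKN hD' hDec A hA ι S c' F hFam x
  set CC : ℝ := Cc + 1 + 5 ^ (2 * (r + 1)) * (Cb + 1) + (2 * (r + 1) : ℕ) + a with hCC
  have hK1 : 1 ≤ K := by nlinarith
  have hK0 : 0 < K := by linarith
  intro T G
  -- the weight
  set ω : X (r + 1) → ℝ≥0∞ := fun y => wt (K ^ 2) E' (x - y) with hω
  have hW : Wt (K ^ 2) E' ω := (h5 (r + 1) (K ^ 2) E' (by positivity) hE0).2.2 x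
  have hWm : Measurable ω := ((h5 (r + 1) (K ^ 2) E' (by positivity) hE0).1 ω hW).1
  have hFc : ∀ i ∈ S, Continuous (F i) := fun i hi => B.Trig.continuous (hFam.trig i hi)
  have hmeas : ∀ S' ⊆ S, Measurable fun z => ∑ i ∈ S', F i z := fun S' hS' =>
    (continuous_finsetSum _ fun i hi => hFc i (hS' hi)).measurable
  -- the norms of the partial sums
  set Nf : Finset (Fin (r + 1) → ℤ) → ℝ≥0∞ := fun T' =>
    nw p ω (fun z => ∑ i ∈ S.filter (fun i => cel K (c' i) ∈ T'), F i z) with hNf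
  have hNs : ∀ k, Nf {k} = nw p ω (G k) := by
    intro k
    simp only [hNf, Finset.mem_singleton]
    rfl
  have hNT : Nf T = nw p ω (fun z => ∑ i ∈ S, F i z) := by
    simp only [hNf]
    have h6 : S.filter (fun i => cel K (c' i) ∈ T) = S := by
      apply Finset.filter_true_of_mem
      intro i hi
      exact Finset.mem_image_of_mem _ hi
    rw [h6]
  -- representatives of the cells
  have hex : ∀ k : Fin (r + 1) → ℤ, ∃ v : Fin (r + 1) → ℝ, k ∈ T → ‖v‖ ≤ 1 ∧ cel K v = k := by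
    intro k
    by_cases hk : k ∈ T
    · obtain ⟨i, hi, hik⟩ := Finset.mem_image.1 hk
      exact ⟨c' i, fun _ => ⟨hFam.ball i hi, hik⟩⟩
    · exact ⟨0, fun h => absurd h hk⟩
  choose cc hcc using hex
  have hclose : ∀ k ∈ T, ∀ i ∈ S, cel K (c' i) = k → ‖c' i - cc k‖ ≤ 1 / K := by
    intro k hk i _ hik
    apply norm_sub_le_of_cel hK0
    rw [hik, (hcc k hk).2]
  have hGtrig : ∀ k ∈ T, Trig (G k) (Box A (b + 1) K (cc k)) := by
    intro k hk
    apply B.Trig.sum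
    intro i hi
    rw [Finset.mem_filter] at hi
    exact B.Trig.mono (hFam.trig i hi.1) (box_sub (by linarith) hK0 hKN (hclose k hk i hi.1 hi.2))
  -- the scale of the geometric alternative
  set δ : ℝ := 1 / (c₀ * K) with hδ
  have hδ0 : 0 < δ := by positivity
  have hδ1 : δ ≤ 1 := by
    rw [hδ, div_le_one (by positivity)]
    exact hcK
  have hcδ : c₀ * δ = 1 / K := by
    rw [hδ]; field_simp
  have hδC : (1 / c₀) / K = δ := by
    rw [hδ]; field_simp
  -- the dichotomy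
  set Nar : Finset (Fin (r + 1) → ℤ) → Prop := fun S' =>
    ∃ (j : Fin (r + 1)) (u : Fin (r + 1) → ℝ) (h : ℝ), u j = 1 ∧ (∀ i, |u i| ≤ 1) ∧
      ∀ k ∈ S', |u ⬝ᵥ cc k - h| ≤ δ with hNar
  set Brd : (Fin (r + 2) → Fin (r + 1) → ℤ) → Prop := fun t =>
    ∀ y : Fin (r + 1 + 1) → Fin (r + 1) → ℝ, (∀ k, ‖y k - cc (t k)‖ ≤ c₀ * δ) →
      c₀ * δ ^ (r + 1 + 1) ≤ |dt y| with hBrd
  have hd := h1 (Fin (r + 1) → ℤ) (r + 2) T Nf Nar Brd (ENNReal.ofReal (Cc * D')) (by omega)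
    (by
      simp only [hNf, Finset.notMem_empty, Finset.filter_false, Finset.sum_empty]
      exact B.nw_zero hp0 ω)
    (by
      intro A' B' hA' hB' hdis
      simp only [hNf]
      refine le_trans (le_of_eq (congrArg (nw p ω) (funext fun z => ?_)))
        (B.nw_add_le hp1 hWm (hmeas _ (Finset.filter_subset _ _))
          (hmeas _ (Finset.filter_subset _ _)))
      rw [Finset.sum_filter, Finset.sum_filter, Finset.sum_filter, ← Finset.sum_add_distrib]
      apply Finset.sum_congr rfl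
      intro i _
      by_cases hiA : cel K (c' i) ∈ A'
      · have hiB : cel K (c' i) ∉ B' := Finset.disjoint_left.1 hdis hiA
        simp [hiA, hiB]
      · by_cases hiB : cel K (c' i) ∈ B'
        · simp [hiA, hiB]
        · simp [hiA, hiB])
    (by
      intro S' hS' hnar
      obtain ⟨j, u, h, huj, hu, hP⟩ := hnar
      have h6 := hcyl K D' hcK hD' hDec A j u h (Fin (r + 1) → ℤ) S' cc (fun k => k) G hA huj hu
        (fun k hk => (hcc k (hS' hk)).1)
        (fun k hk => by rw [hδC]; exact hP k hk)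
        (fun k _ k' _ hkk => hkk)
        (fun k hk i => by
          have h7 : cel K (cc k) i = k i := congrFun (hcc k (hS' hk)).2 i
          unfold cel at h7
          rw [← h7, abs_le]
          have h8 := Int.floor_le (K * cc k i)
          have h9 := Int.lt_floor_add_one (K * cc k i)
          constructor <;> linarith)
        (fun k hk => hGtrig k (hS' hk)) ω hW
      have h7 : (fun z => ∑ k ∈ S', G k z) =
          fun z => ∑ i ∈ S.filter (fun i => cel K (c' i) ∈ S'), F i z := by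
        funext z
        exact Finset.sum_fiberwise_eq_sum_filter S S' (fun i => cel K (c' i)) fun i => F i z
      rw [h7] at h6
      simp only [hNs]
      exact h6)
    (by
      intro S' hS' hne
      rcases hgeo δ hδ0 hδ1 (S'.image cc) (hne.image cc) (by
        intro ξ hξ
        obtain ⟨k, hk, rfl⟩ := Finset.mem_image.1 hξ
        exact (hcc k (hS' hk)).1) with hn | hb'
      · left
        obtain ⟨j, u, h, huj, hu, hP⟩ := hn
        exact ⟨j, u, h, huj, hu, fun k hk => hP _ (Finset.mem_image_of_mem _ hk)⟩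
      · right
        obtain ⟨y, hy, hyd⟩ := hb'
        have h6 : ∀ k, ∃ t, t ∈ S' ∧ cc t = y k := fun k => by
          obtain ⟨t, ht, hty⟩ := Finset.mem_image.1 (hy k)
          exact ⟨t, ht, hty⟩
        choose t ht hty using h6
        refine ⟨t, ht, ?_⟩
        intro y' hy'
        apply hyd y'
        intro k
        rw [← hty k]
        exact hy' k)
  -- translate
  rw [hNT] at hd
  simp only [hNs] at hd
  refine le_trans hd ?_
  refine add_le_add ?_ ?_
  · -- the narrow term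
    refine mul_le_mul_left ?_ _
    have h6 : ENNReal.ofReal (Cc * D') + 1 = ENNReal.ofReal (Cc * D' + 1) := by
      rw [ENNReal.ofReal_add (by positivity) (by norm_num), ENNReal.ofReal_one]
    rw [h6]
    apply ENNReal.ofReal_le_ofReal
    have h7 : Cc + 1 ≤ CC := by
      have h8 : (0 : ℝ) ≤ 5 ^ (2 * (r + 1)) * (Cb + 1) + (2 * (r + 1) : ℕ) + a := by positivity
      rw [hCC]; linarith
    nlinarith
  · -- the broad term
    have hterm : ∀ t : Fin (r + 2) → Fin (r + 1) → ℤ, (∀ k, t k ∈ T) →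
        ∏ k, nw p ω (G (t k)) ^ (1 / ((r + 2 : ℕ) : ℝ)) ≤
          ENNReal.ofReal ((Cb + 1) * K ^ a) *
            ∏ k, (av 1 a (pw 2 (G (t k))) x) ^ (1 / (2 * ((r : ℝ) + 2))) := by
      intro t ht
      have h6 : ∀ k, nw p ω (G (t k)) ≤ ENNReal.ofReal ((Cb + 1) * K ^ a) *
          (av 1 a (pw 2 (G (t k))) x) ^ (1 / 2 : ℝ) := by
        intro k
        have h7 := hbro K 0 (G (t k)) x hK1
          (B.Trig.mono (hGtrig (t k) (ht k)) (box_ball hl hA (by linarith) hK1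
            (hcc (t k) (ht k)).1))
        calc nw p ω (G (t k)) = (av (K ^ 2) E' (pw p (G (t k))) x) ^ (1 / p) := rfl
          _ ≤ (ENNReal.ofReal (Cb * K ^ (a * p)) *
                (av 1 a (pw 2 (G (t k))) x) ^ (p / 2)) ^ (1 / p) := by
              exact ENNReal.rpow_le_rpow h7 (by positivity)
          _ = (ENNReal.ofReal (Cb * K ^ (a * p))) ^ (1 / p) *
                (av 1 a (pw 2 (G (t k))) x) ^ (1 / 2 : ℝ) := by
              rw [ENNReal.mul_rpow_of_nonneg _ _ (by positivity), ← ENNReal.rpow_mul]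
              congr 2
              field_simp
          _ ≤ ENNReal.ofReal ((Cb + 1) * K ^ a) *
                (av 1 a (pw 2 (G (t k))) x) ^ (1 / 2 : ℝ) :=
              mul_le_mul_left (root_le hCb hK1 hp1) _
      calc ∏ k, nw p ω (G (t k)) ^ (1 / ((r + 2 : ℕ) : ℝ))
          ≤ ∏ k, (ENNReal.ofReal ((Cb + 1) * K ^ a) *
              (av 1 a (pw 2 (G (t k))) x) ^ (1 / 2 : ℝ)) ^ (1 / ((r + 2 : ℕ) : ℝ)) := by
            apply Finset.prod_le_prod'
            intro k _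
            exact ENNReal.rpow_le_rpow (h6 k) (by positivity)
        _ = ∏ k, (ENNReal.ofReal ((Cb + 1) * K ^ a) ^ (1 / ((r + 2 : ℕ) : ℝ)) *
              (av 1 a (pw 2 (G (t k))) x) ^ (1 / (2 * ((r : ℝ) + 2)))) := by
            apply Finset.prod_congr rfl
            intro k _
            rw [ENNReal.mul_rpow_of_nonneg _ _ (by positivity), ← ENNReal.rpow_mul]
            congr 2
            push_cast
            field_simp
        _ = ENNReal.ofReal ((Cb + 1) * K ^ a) *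
              ∏ k, (av 1 a (pw 2 (G (t k))) x) ^ (1 / (2 * ((r : ℝ) + 2))) := by
            rw [Finset.prod_mul_distrib, Finset.prod_const, Finset.card_univ, Fintype.card_fin]
            congr 1
            rw [← ENNReal.rpow_natCast, ← ENNReal.rpow_mul]
            have h8 : (1 / ((r + 2 : ℕ) : ℝ)) * ((r + 2 : ℕ) : ℝ) = 1 := by
              have : ((r + 2 : ℕ) : ℝ) ≠ 0 := by positivity
              field_simp
            rw [h8, ENNReal.rpow_one]
    -- transversality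
    have hBT : ∀ t ∈ (Fintype.piFinset fun _ : Fin (r + 2) => T), Brd t →
        Tr (c₀ * K ^ (-((r : ℝ) + 2))) (fun k => S.filter fun i => cel K (c' i) = t k) c' := by
      intro t ht hBt j hj
      have htT := Fintype.mem_piFinset.1 ht
      have h6 := hBt (fun k => c' (j k)) (fun k => by
        have h7 := Finset.mem_filter.1 (hj k)
        rw [hcδ]
        exact hclose (t k) (htT k) (j k) h7.1 h7.2)
      refine le_trans ?_ h6
      have h8 : K ^ (-((r : ℝ) + 2)) = (1 / K) ^ (r + 1 + 1) := by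
        rw [Real.rpow_neg hK0.le, one_div, inv_pow]
        congr 1
        rw [← Real.rpow_natCast]
        congr 1
        push_cast
        ring
      rw [h8]
      have h9 : 1 / K ≤ δ := by
        rw [hδ]
        apply one_div_le_one_div_of_le (by positivity)
        nlinarith
      exact mul_le_mul_of_nonneg_left (pow_le_pow_left₀ (by positivity) h9 _) hc0.le
    have hcard : ((T.card : ℝ≥0∞)) ^ 2 ≤ ENNReal.ofReal ((5 * K) ^ (2 * (r + 1))) := by
      have h6 := card_le hK1 T (fun k hk => ⟨cc k, hcc k hk⟩)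
      have h7 : (T.card : ℝ≥0∞) = ENNReal.ofReal (T.card : ℝ) := by
        rw [ENNReal.ofReal_natCast]
      rw [h7, ← ENNReal.ofReal_pow (by positivity)]
      apply ENNReal.ofReal_le_ofReal
      calc (T.card : ℝ) ^ 2 ≤ ((5 * K) ^ (r + 1)) ^ 2 := by gcongr
        _ = (5 * K) ^ (2 * (r + 1)) := by rw [← pow_mul]; congr 1; ring
    have hcoef : ENNReal.ofReal ((5 * K) ^ (2 * (r + 1))) *
        ENNReal.ofReal ((Cb + 1) * K ^ a) ≤ ENNReal.ofReal (CC * K ^ CC) := by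
      rw [← ENNReal.ofReal_mul (by positivity)]
      apply ENNReal.ofReal_le_ofReal
      have h6 : (5 * K) ^ (2 * (r + 1)) * ((Cb + 1) * K ^ a) =
          (5 ^ (2 * (r + 1)) * (Cb + 1)) * K ^ (((2 * (r + 1) : ℕ) : ℝ) + a) := by
        rw [Real.rpow_add hK0, Real.rpow_natCast, mul_pow]
        ring
      rw [h6]
      have h7 : (5 : ℝ) ^ (2 * (r + 1)) * (Cb + 1) ≤ CC := by
        have h8 : (0 : ℝ) ≤ Cc + 1 + (2 * (r + 1) : ℕ) + a := by positivity
        rw [hCC]; linarith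
      have h9 : ((2 * (r + 1) : ℕ) : ℝ) + a ≤ CC := by
        have h8 : (0 : ℝ) ≤ Cc + 1 + 5 ^ (2 * (r + 1)) * (Cb + 1) := by positivity
        rw [hCC]; linarith
      have h10 : K ^ (((2 * (r + 1) : ℕ) : ℝ) + a) ≤ K ^ CC :=
        Real.rpow_le_rpow_of_exponent_le hK1 h9
      have h11 : (0 : ℝ) ≤ CC := le_trans (by positivity) h7
      exact mul_le_mul h7 h10 (by positivity) h11
    exact combine _ _ _ _ _ _ _ _ _ hcard hcoef hBT
      (fun t ht => hterm t (Fintype.mem_piFinset.1 ht))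

end DEC
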