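import Pool.Agent.DEC.StmtsW

/-!
# l^2 decoupling, block W: local constancy on tubes for averages
-/

open MeasureTheory
open scoped ENNReal Matrix

namespace DEC

namespace W_LC

variable {r : ℕ}

lemma qf_nonneg {l L : ℝ} {A : Matrix (Fin r) (Fin r) ℝ} (hl : 0 < l) (h : QF l L A)
    (η : Fin r → ℝ) : 0 ≤ qf A η :=
  le_trans (mul_nonneg hl.le (Finset.sum_nonneg fun _ _ => sq_nonneg _)) (h.lower η)

lemma symm_pair {A : Matrix (Fin r) (Fin r) ℝ} (h : A.IsSymm) (x y : Fin r → ℝ) :
    x ⬝ᵥ (A *ᵥ y) = y ⬝ᵥ (A *ᵥ x) := by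
  rw [Matrix.dotProduct_mulVec, ← Matrix.mulVec_transpose, h.eq, dotProduct_comm]

lemma qf_add {A : Matrix (Fin r) (Fin r) ℝ} (h : A.IsSymm) (x y : Fin r → ℝ) :
    qf A (x + y) = qf A x + 2 * (x ⬝ᵥ (A *ᵥ y)) + qf A y := by
  unfold qf
  rw [Matrix.mulVec_add, add_dotProduct, dotProduct_add, dotProduct_add, symm_pair h y x]
  ring

lemma qf_neg (A : Matrix (Fin r) (Fin r) ℝ) (x : Fin r → ℝ) : qf A (-x) = qf A x := by
  unfold qf
  rw [Matrix.mulVec_neg, neg_dotProduct, dotProduct_neg, neg_neg]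

lemma norm_bound {l L V : ℝ} {A : Matrix (Fin r) (Fin r) ℝ} (hl : 0 < l) (h : QF l L A)
    {ξ : Fin r → ℝ} (hξ : ‖ξ‖ ≤ V) :
    ‖(2 : ℝ) • (A *ᵥ ξ)‖ ≤ |L| * (1 + r * V ^ 2) := by
  have hV : 0 ≤ V := le_trans (norm_nonneg _) hξ
  rw [pi_norm_le_iff_of_nonneg (by positivity)]
  intro i
  have h1 : (Pi.single i (1 : ℝ) : Fin r → ℝ) ⬝ᵥ (A *ᵥ ξ) = (A *ᵥ ξ) i := by
    rw [single_dotProduct, one_mul]
  have hq1 : qf A (Pi.single i (1 : ℝ)) ≤ |L| := by
    refine (h.upper _).trans ?_
    have h2 : ∑ j, (Pi.single i (1 : ℝ) : Fin r → ℝ) j ^ 2 = 1 := by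
      rw [Finset.sum_eq_single i]
      · rw [Pi.single_eq_same]; norm_num
      · intro j _ hj
        rw [Pi.single_eq_of_ne hj]; norm_num
      · intro hi
        exact absurd (Finset.mem_univ i) hi
    rw [h2, mul_one]
    exact le_abs_self L
  have hq2 : qf A ξ ≤ |L| * (r * V ^ 2) := by
    refine (h.upper _).trans ?_
    have h3 : ∑ j, ξ j ^ 2 ≤ r * V ^ 2 := by
      calc ∑ j, ξ j ^ 2 ≤ ∑ _j : Fin r, V ^ 2 := by
            apply Finset.sum_le_sum
            intro j _
            have h4 : |ξ j| ≤ V := by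
              have := norm_le_pi_norm ξ j
              rw [Real.norm_eq_abs] at this
              exact this.trans hξ
            rw [← sq_abs]
            exact pow_le_pow_left₀ (abs_nonneg _) h4 2
        _ = r * V ^ 2 := by
            rw [Finset.sum_const, Finset.card_univ, Fintype.card_fin, nsmul_eq_mul]
    calc L * ∑ j, ξ j ^ 2 ≤ |L| * ∑ j, ξ j ^ 2 := by
          apply mul_le_mul_of_nonneg_right (le_abs_self L)
          exact Finset.sum_nonneg fun j _ => sq_nonneg _
      _ ≤ |L| * (r * V ^ 2) := mul_le_mul_of_nonneg_left h3 (abs_nonneg L)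
  have hp := qf_nonneg hl h (Pi.single i (1 : ℝ) + ξ)
  have hm := qf_nonneg hl h (Pi.single i (1 : ℝ) + -ξ)
  rw [qf_add h.symm, h1] at hp
  rw [qf_add h.symm, qf_neg, Matrix.mulVec_neg, dotProduct_neg, h1] at hm
  rw [Pi.smul_apply, smul_eq_mul, Real.norm_eq_abs, abs_le]
  constructor
  · nlinarith
  · nlinarith

lemma main {R a a' C₁ C₂ : ℝ} {v : Fin r → ℝ} {f : X r → ℝ≥0∞} (hf : Measurable f)
    (hC₁ : 0 < C₁)
    (h1 : ∀ z, f z ≤ ENNReal.ofReal C₁ * avT R a v f z)
    (h2 : ∀ u : X r, ∫⁻ y, wT R a v (u - y) * wt R a' y ≤ ENNReal.ofReal C₂ * wT R a v u)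
    (z : X r) :
    av R a' f z ≤ ENNReal.ofReal (C₁ * C₂) * avT R a v f z := by
  have hin : ∀ x : X r, ∫⁻ y, wT R a v (y - x) * wt R a' (z - y) ≤
      ENNReal.ofReal C₂ * wT R a v (z - x) := by
    intro x
    rw [← lintegral_sub_left_eq_self (fun y => wT R a v (y - x) * wt R a' (z - y)) z]
    have e : (fun y : X r => wT R a v (z - y - x) * wt R a' (z - (z - y))) =
        fun y : X r => wT R a v ((z - x) - y) * wt R a' y := by
      funext y
      rw [sub_sub_cancel, sub_right_comm]
    rw [e]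
    exact h2 (z - x)
  have hmT : Measurable fun p : X r × X r => wT R a v (p.1 - p.2) :=
    (measurable_wT R a v).comp (measurable_fst.sub measurable_snd)
  have hmt : Measurable fun y : X r => wt R a' (z - y) :=
    (measurable_wt R a').comp (measurable_const.sub measurable_id)
  calc av R a' f z = ∫⁻ y, f y * wt R a' (z - y) := rfl
    _ ≤ ∫⁻ y, (ENNReal.ofReal C₁ * avT R a v f y) * wt R a' (z - y) :=
        lintegral_mono fun y => mul_le_mul' (h1 y) le_rfl
    _ = ENNReal.ofReal C₁ * ∫⁻ y, avT R a v f y * wt R a' (z - y) := by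
        have hm : Measurable fun y : X r => avT R a v f y * wt R a' (z - y) :=
          (measurable_avT hf).mul hmt
        rw [← lintegral_const_mul _ hm]
        apply lintegral_congr
        intro y
        rw [mul_assoc]
    _ = ENNReal.ofReal C₁ * ∫⁻ y, ∫⁻ x, f x * wT R a v (y - x) * wt R a' (z - y) := by
        apply congrArg
        apply lintegral_congr
        intro y
        unfold avT
        rw [lintegral_mul_const]
        exact hf.mul ((measurable_wT R a v).comp (measurable_const.sub measurable_id))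
    _ = ENNReal.ofReal C₁ * ∫⁻ x, ∫⁻ y, f x * wT R a v (y - x) * wt R a' (z - y) := by
        apply congrArg
        rw [lintegral_lintegral_swap]
        apply Measurable.aemeasurable
        unfold Function.uncurry
        exact ((hf.comp measurable_snd).mul hmT).mul (hmt.comp measurable_fst)
    _ = ENNReal.ofReal C₁ * ∫⁻ x, f x * ∫⁻ y, wT R a v (y - x) * wt R a' (z - y) := by
        apply congrArg
        apply lintegral_congr
        intro x
        rw [← lintegral_const_mul]
        · apply lintegral_congr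
          intro y
          rw [mul_assoc]
        · exact ((measurable_wT R a v).comp (measurable_id.sub measurable_const)).mul hmt
    _ ≤ ENNReal.ofReal C₁ * ∫⁻ x, f x * (ENNReal.ofReal C₂ * wT R a v (z - x)) := by
        apply mul_le_mul' le_rfl
        apply lintegral_mono
        intro x
        exact mul_le_mul' le_rfl (hin x)
    _ = ENNReal.ofReal C₁ * (ENNReal.ofReal C₂ * avT R a v f z) := by
        apply congrArg
        unfold avT
        rw [← lintegral_const_mul]
        · apply lintegral_congr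
          intro x
          rw [← mul_assoc, ← mul_assoc, mul_comm (f x)]
        · exact hf.mul ((measurable_wT R a v).comp (measurable_const.sub measurable_id))
    _ = ENNReal.ofReal (C₁ * C₂) * avT R a v f z := by
        rw [ENNReal.ofReal_mul hC₁.le, mul_assoc]

end W_LC

open W_LC in
theorem t_LC (h1 : Stmt_LT) (h2 : Stmt_CT) : Stmt_LCF := by
  intro r s a b l L V hs ha hl
  obtain ⟨C₁, hC₁, H1⟩ := h1 r s a b l L hs ha hl
  obtain ⟨a', C₂, ha', hC₂, H2⟩ := h2 r a (|L| * (1 + r * V ^ 2)) ha (by positivity)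
  refine ⟨a', C₁ * C₂, ha', by positivity, ?_⟩
  intro R A ξ F hR hA hξ hF z
  have hR0 : 0 < R := by linarith
  exact main (hF.measurable_pw s) hC₁ (H1 R A ξ F hR0 hA hF)
    (fun u => H2 R _ u hR (norm_bound hl hA hξ)) z

end DEC
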