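import Pool.Agent.DEC.StmtsB
import Pool.Agent.DEC.BBase
import Pool.Agent.DEC.BLin
import Pool.Agent.DEC.WLC

/-!
# l^2 decoupling, block B: parabolic rescaling (Stmt_PR)
-/

open MeasureTheory Finset
open scoped ENNReal Matrix

namespace DEC

namespace BPR

variable {r : ℕ}

/-- The parabolic change of variables. -/
noncomputable def Lam (A : Matrix (Fin r) (Fin r) ℝ) (ξ : Fin r → ℝ) (ρ : ℝ) (hρ : ρ ≠ 0) :
    X r ≃ₗ[ℝ] X r where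
  toFun v := (ρ • v.1 - (ρ ^ 2 * v.2) • ((2 : ℝ) • (A *ᵥ ξ)), ρ ^ 2 * v.2)
  invFun z := (ρ⁻¹ • (z.1 + z.2 • ((2 : ℝ) • (A *ᵥ ξ))), (ρ ^ 2)⁻¹ * z.2)
  map_add' u v := by
    refine Prod.ext ?_ ?_
    · funext i
      simp only [Prod.fst_add, Prod.snd_add, Pi.add_apply, Pi.sub_apply, Pi.smul_apply, smul_eq_mul]
      ring
    · simp only [Prod.snd_add]
      ring
  map_smul' a v := by
    refine Prod.ext ?_ ?_
    · funext i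
      simp only [Prod.smul_fst, Prod.smul_snd, Pi.sub_apply, Pi.smul_apply, smul_eq_mul,
        RingHom.id_apply]
      ring
    · simp only [Prod.smul_snd, smul_eq_mul, RingHom.id_apply]
      ring
  left_inv v := by
    refine Prod.ext ?_ ?_
    · funext i
      simp only [Pi.add_apply, Pi.sub_apply, Pi.smul_apply, smul_eq_mul]
      field_simp
      ring
    · show (ρ ^ 2)⁻¹ * (ρ ^ 2 * v.2) = v.2
      field_simp
  right_inv z := by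
    have h : ρ ^ 2 * ((ρ ^ 2)⁻¹ * z.2) = z.2 := by field_simp
    refine Prod.ext ?_ h
    funext i
    show (ρ • (ρ⁻¹ • (z.1 + z.2 • ((2 : ℝ) • (A *ᵥ ξ)))) -
      (ρ ^ 2 * ((ρ ^ 2)⁻¹ * z.2)) • ((2 : ℝ) • (A *ᵥ ξ))) i = z.1 i
    rw [h]
    simp only [Pi.add_apply, Pi.sub_apply, Pi.smul_apply, smul_eq_mul]
    field_simp
    ring

theorem Lam_fst (A : Matrix (Fin r) (Fin r) ℝ) (ξ : Fin r → ℝ) (ρ : ℝ) (hρ : ρ ≠ 0) (v : X r) :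
    (Lam A ξ ρ hρ v).1 = ρ • v.1 - (ρ ^ 2 * v.2) • ((2 : ℝ) • (A *ᵥ ξ)) := rfl

theorem Lam_snd (A : Matrix (Fin r) (Fin r) ℝ) (ξ : Fin r → ℝ) (ρ : ℝ) (hρ : ρ ≠ 0) (v : X r) :
    (Lam A ξ ρ hρ v).2 = ρ ^ 2 * v.2 := rfl

/-- The norm of the change of variables. -/
theorem norm_Lam (A : Matrix (Fin r) (Fin r) ℝ) (ξ : Fin r → ℝ) (ρ : ℝ) (hρ : ρ ≠ 0) (h1 : 1 ≤ ρ)
    {K : ℝ} (hK : ‖(2 : ℝ) • (A *ᵥ ξ)‖ ≤ K) (v : X r) :
    ‖Lam A ξ ρ hρ v‖ ≤ (1 + K) * ρ ^ 2 * ‖v‖ := by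
  have hK0 : 0 ≤ K := (norm_nonneg _).trans hK
  have hρ2 : ρ ≤ ρ ^ 2 := by nlinarith
  have hv1 : ‖v.1‖ ≤ ‖v‖ := norm_fst_le v
  have hv2 : |v.2| ≤ ‖v‖ := norm_snd_le v
  have hv0 : 0 ≤ ‖v‖ := norm_nonneg v
  have h2 : ‖(ρ ^ 2 * v.2) • ((2 : ℝ) • (A *ᵥ ξ))‖ ≤ ρ ^ 2 * ‖v‖ * K := by
    rw [norm_smul, Real.norm_eq_abs, abs_mul, abs_of_nonneg (by positivity : (0 : ℝ) ≤ ρ ^ 2)]
    exact mul_le_mul (mul_le_mul_of_nonneg_left hv2 (by positivity)) hK (norm_nonneg _)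
      (by positivity)
  have h3 : ‖ρ • v.1‖ ≤ ρ ^ 2 * ‖v‖ := by
    rw [norm_smul, Real.norm_eq_abs, abs_of_pos (by linarith : 0 < ρ)]
    exact mul_le_mul hρ2 hv1 (norm_nonneg _) (by positivity)
  rw [Prod.norm_def, Lam_fst, Lam_snd]
  refine max_le ?_ ?_
  · refine (norm_sub_le _ _).trans ((add_le_add h3 h2).trans (le_of_eq ?_))
    ring
  · rw [Real.norm_eq_abs, abs_mul, abs_of_nonneg (by positivity : (0 : ℝ) ≤ ρ ^ 2)]
    have h4 : ρ ^ 2 * |v.2| ≤ ρ ^ 2 * ‖v‖ := mul_le_mul_of_nonneg_left hv2 (by positivity)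
    have h5 : 0 ≤ K * (ρ ^ 2 * ‖v‖) := by positivity
    nlinarith

/-- The new frequency. -/
noncomputable def phi (A : Matrix (Fin r) (Fin r) ℝ) (ξ : Fin r → ℝ) (ρ : ℝ) (w : X r) : X r :=
  (ρ • (w.1 - ξ), ρ ^ 2 * (w.2 - w.1 ⬝ᵥ ((2 : ℝ) • (A *ᵥ ξ)) + qf A ξ))

/-- The phase. -/
theorem pr_phi (A : Matrix (Fin r) (Fin r) ℝ) (ξ : Fin r → ℝ) (ρ : ℝ) (hρ : ρ ≠ 0) (w v : X r) :
    pr w (Lam A ξ ρ hρ v) = pr (ξ, qf A ξ) (Lam A ξ ρ hρ v) + pr (phi A ξ ρ w) v := by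
  unfold pr phi
  rw [Lam_fst, Lam_snd]
  have hq : ξ ⬝ᵥ ((2 : ℝ) • (A *ᵥ ξ)) = 2 * qf A ξ := by
    unfold qf
    rw [dotProduct_smul, smul_eq_mul]
  simp only [dotProduct_sub, dotProduct_smul (ρ ^ 2 * v.2), dotProduct_smul ρ, smul_dotProduct,
    sub_dotProduct, smul_eq_mul, hq]
  ring

/-- The box is mapped to a box. -/
theorem phi_box {A : Matrix (Fin r) (Fin r) ℝ} (hA : A.IsSymm) {ξ : Fin r → ℝ} {ρ b N : ℝ}
    (hρ : 0 < ρ) (hN : 0 < N) {p : Fin r → ℝ} {w : X r} (hw : w ∈ Box A b N p) :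
    phi A ξ ρ w ∈ Box A b (N / ρ) (ρ • (p - ξ)) := by
  obtain ⟨h1, h2⟩ := hw
  constructor
  · show ‖ρ • (w.1 - ξ) - ρ • (p - ξ)‖ ≤ b / (N / ρ)
    have e : ρ • (w.1 - ξ) - ρ • (p - ξ) = ρ • (w.1 - p) := by
      rw [← smul_sub]; congr 1; abel
    rw [e, norm_smul, Real.norm_eq_abs, abs_of_pos hρ]
    calc ρ * ‖w.1 - p‖ ≤ ρ * (b / N) := mul_le_mul_of_nonneg_left h1 hρ.le
      _ = b / (N / ρ) := by field_simp
  · show |ρ ^ 2 * (w.2 - w.1 ⬝ᵥ ((2 : ℝ) • (A *ᵥ ξ)) + qf A ξ) - qf A (ρ • (w.1 - ξ))| ≤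
      b / (N / ρ) ^ 2
    have e : qf A (ρ • (w.1 - ξ)) =
        ρ ^ 2 * (qf A w.1 - w.1 ⬝ᵥ ((2 : ℝ) • (A *ᵥ ξ)) + qf A ξ) := by
      rw [BLin.qf_smul, sub_eq_add_neg w.1 ξ, BLin.qf_add hA, Matrix.mulVec_neg, dotProduct_neg,
        dotProduct_smul, smul_eq_mul]
      have : qf A (-ξ) = qf A ξ := W_LC.qf_neg A ξ
      rw [this]
      ring
    have e2 : ρ ^ 2 * (w.2 - w.1 ⬝ᵥ ((2 : ℝ) • (A *ᵥ ξ)) + qf A ξ) - qf A (ρ • (w.1 - ξ)) =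
        ρ ^ 2 * (w.2 - qf A w.1) := by rw [e]; ring
    rw [e2, abs_mul, abs_of_nonneg (by positivity : (0 : ℝ) ≤ ρ ^ 2)]
    calc ρ ^ 2 * |w.2 - qf A w.1| ≤ ρ ^ 2 * (b / N ^ 2) :=
          mul_le_mul_of_nonneg_left h2 (by positivity)
      _ = b / (N / ρ) ^ 2 := by field_simp

/-- The rescaled function. -/
noncomputable def gg (A : Matrix (Fin r) (Fin r) ℝ) (ξ : Fin r → ℝ) (ρ : ℝ) (hρ : ρ ≠ 0)
    (F : X r → ℂ) (v : X r) : ℂ :=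
  ee (-pr (ξ, qf A ξ) (Lam A ξ ρ hρ v)) * F (Lam A ξ ρ hρ v)

theorem norm_gg (A : Matrix (Fin r) (Fin r) ℝ) (ξ : Fin r → ℝ) (ρ : ℝ) (hρ : ρ ≠ 0)
    (F : X r → ℂ) (v : X r) : ‖gg A ξ ρ hρ F v‖ = ‖F (Lam A ξ ρ hρ v)‖ := by
  unfold gg
  rw [norm_mul, B.norm_ee, one_mul]

theorem trig_gg {A : Matrix (Fin r) (Fin r) ℝ} (hA : A.IsSymm) {ξ : Fin r → ℝ} {ρ b N : ℝ}
    (hρ : 0 < ρ) (hN : 0 < N) {p : Fin r → ℝ} {F : X r → ℂ} (hF : Trig F (Box A b N p)) :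
    Trig (gg A ξ ρ hρ.ne' F) (Box A b (N / ρ) (ρ • (p - ξ))) := by
  refine B.Trig.map hF (phi A ξ ρ) (fun w hw => phi_box hA hρ hN hw) (fun _ => 1) ?_
  intro m a w hFw v
  unfold gg
  rw [hFw, Finset.mul_sum]
  refine Finset.sum_congr rfl fun i _ => ?_
  rw [pr_phi A ξ ρ hρ.ne' (w i) v, B.ee_add, mul_one]
  have h : ee (-pr (ξ, qf A ξ) (Lam A ξ ρ hρ.ne' v)) *
      ee (pr (ξ, qf A ξ) (Lam A ξ ρ hρ.ne' v)) = 1 := by
    rw [← B.ee_add, neg_add_cancel, B.ee_zero]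
  calc ee (-pr (ξ, qf A ξ) (Lam A ξ ρ hρ.ne' v)) *
        (a i * (ee (pr (ξ, qf A ξ) (Lam A ξ ρ hρ.ne' v)) * ee (pr (phi A ξ ρ (w i)) v)))
      = (ee (-pr (ξ, qf A ξ) (Lam A ξ ρ hρ.ne' v)) *
        ee (pr (ξ, qf A ξ) (Lam A ξ ρ hρ.ne' v))) * (a i * ee (pr (phi A ξ ρ (w i)) v)) := by ring
    _ = a i * ee (pr (phi A ξ ρ (w i)) v) := by rw [h, one_mul]

/-- The pull-back of a weight is a weight up to a constant. -/
theorem wt_Lam {A : Matrix (Fin r) (Fin r) ℝ} {ξ : Fin r → ℝ} {ρ N E K : ℝ} (hρ : ρ ≠ 0)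
    (h1 : 1 ≤ ρ) (hN : 0 < N) (hE : 0 ≤ E) (hK : ‖(2 : ℝ) • (A *ᵥ ξ)‖ ≤ K) {w : X r → ℝ≥0∞}
    (hw : Wt (N ^ 2) E w) (x y : X r) :
    w (Lam A ξ ρ hρ x) ≤ ENNReal.ofReal ((1 + K) ^ E) * w (Lam A ξ ρ hρ y) *
      ENNReal.ofReal ((1 + ‖x - y‖ / (N / ρ) ^ 2) ^ E) := by
  have hK0 : 0 ≤ K := (norm_nonneg _).trans hK
  have hρ0 : 0 < ρ := by linarith
  refine (hw _ (Lam A ξ ρ hρ y)).trans ?_
  rw [mul_comm (ENNReal.ofReal ((1 + K) ^ E)), mul_assoc, ← ENNReal.ofReal_mul (by positivity),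
    ← Real.mul_rpow (by positivity) (by positivity)]
  refine mul_le_mul_right (ENNReal.ofReal_le_ofReal (Real.rpow_le_rpow (by positivity) ?_ hE)) _
  rw [← map_sub]
  have h2 := norm_Lam A ξ ρ hρ h1 hK (x - y)
  have h3 : ‖Lam A ξ ρ hρ (x - y)‖ / N ^ 2 ≤ (1 + K) * (‖x - y‖ / (N / ρ) ^ 2) := by
    rw [div_le_iff₀ (by positivity)]
    refine h2.trans (le_of_eq ?_)
    field_simp
  nlinarith

/-- The weighted norms after the change of variables. -/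
theorem nw_Lam {Λ : X r ≃ₗ[ℝ] X r} {c : ℝ≥0∞}
    (hc : ∀ G : X r → ℝ≥0∞, Measurable G → ∫⁻ x, G x = c * ∫⁻ y, G (Λ y)) {p : ℝ} (hp : 1 ≤ p)
    {w : X r → ℝ≥0∞} (hw : Measurable w) {F : X r → ℂ} (hF : Measurable F) :
    nw p w F = c ^ (1 / p) * nw p (fun v => w (Λ v)) (fun v => F (Λ v)) := by
  unfold nw
  have h := hc (fun x => ‖F x‖ₑ ^ p * w x) ((hF.enorm.pow_const p).mul hw)
  rw [h, ENNReal.mul_rpow_of_nonneg _ _ (by positivity)]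

end BPR

theorem t_PR (h1 : Stmt_ChV) (h2 : Stmt_WtBasic) : Stmt_PR := by
  intro r p E l L V hp hE hl
  set K : ℝ := |L| * (1 + r * V ^ 2) with hKdef
  have hK0 : 0 ≤ K := by positivity
  refine ⟨(1 + K) ^ E, by positivity, ?_⟩
  intro b N ρ D hρ1 hρN hD hDec A ι S c F ξ hA hsep htr hξ hcl w hw
  have hρ0 : 0 < ρ := by linarith
  have hN0 : 0 < N := by linarith
  have hρne : ρ ≠ 0 := hρ0.ne'
  have hK : ‖(2 : ℝ) • (A *ᵥ ξ)‖ ≤ K := W_LC.norm_bound hl hA hξ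
  obtain ⟨κ, hκ0, hκt, hκ⟩ := h1 (X r) (X r) (BPR.Lam A ξ ρ hρne)
  have hwm : Measurable w := ((h2 r (N ^ 2) E (by positivity) hE).1 w hw).1
  have hFm : ∀ i ∈ S, Measurable (F i) := fun i hi => (B.Trig.continuous (htr i hi)).measurable
  have hB1 : 1 ≤ (1 + K) ^ E := Real.one_le_rpow (by linarith) hE
  obtain ⟨w', hw'1, hw'2⟩ := (h2 r ((N / ρ) ^ 2) E (by positivity) hE).2.1
    (fun v => w (BPR.Lam A ξ ρ hρne v)) ((1 + K) ^ E) hB1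
    (fun x y => BPR.wt_Lam hρne hρ1 hN0 hE hK hw x y)
  -- the family of the rescaled functions
  have hFam : Fam A b (N / ρ) S (fun i => ρ • (c i - ξ)) (fun i => BPR.gg A ξ ρ hρne (F i)) := by
    refine ⟨?_, ?_, ?_⟩
    · intro i hi
      rw [norm_smul, Real.norm_eq_abs, abs_of_pos hρ0]
      have := hcl i hi
      rw [le_div_iff₀ hρ0] at this
      linarith
    · intro i hi j hj hij
      have e : ρ • (c i - ξ) - ρ • (c j - ξ) = ρ • (c i - c j) := by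
        rw [← smul_sub]; congr 1; abel
      rw [e, norm_smul, Real.norm_eq_abs, abs_of_pos hρ0]
      calc 1 / (N / ρ) = ρ * (1 / N) := by field_simp
        _ ≤ ρ * ‖c i - c j‖ := mul_le_mul_of_nonneg_left (hsep i hi j hj hij) hρ0.le
    · intro i hi
      exact BPR.trig_gg hA.symm hρ0 hN0 (htr i hi)
  have hmain := hDec A hA ι S _ _ hFam w' hw'1
  -- norms
  have hL : nw p w (fun z => ∑ i ∈ S, F i z) ≤ κ ^ (1 / p) *
      nw p w' (fun z => ∑ i ∈ S, BPR.gg A ξ ρ hρne (F i) z) := by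
    rw [BPR.nw_Lam hκ hp hwm (Finset.measurable_sum S hFm)]
    refine mul_le_mul_right ?_ _
    have e : nw p (fun v => w (BPR.Lam A ξ ρ hρne v))
        (fun v => ∑ i ∈ S, F i (BPR.Lam A ξ ρ hρne v)) =
        nw p (fun v => w (BPR.Lam A ξ ρ hρne v))
          (fun z => ∑ i ∈ S, BPR.gg A ξ ρ hρne (F i) z) := by
      refine B.nw_congr p _ fun v => ?_
      have : ∑ i ∈ S, BPR.gg A ξ ρ hρne (F i) v =
          ee (-pr (ξ, qf A ξ) (BPR.Lam A ξ ρ hρne v)) *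
            ∑ i ∈ S, F i (BPR.Lam A ξ ρ hρne v) := by
        unfold BPR.gg
        rw [Finset.mul_sum]
      rw [this, norm_mul, B.norm_ee, one_mul]
    rw [e]
    exact B.nw_mono (by linarith) (fun v => (hw'2 v).1) _
  have hR : κ ^ (1 / p) * sq p w' S (fun i => BPR.gg A ξ ρ hρne (F i)) ≤
      ENNReal.ofReal ((1 + K) ^ E) * sq p w S F := by
    have h3 : sq p w' S (fun i => BPR.gg A ξ ρ hρne (F i)) ≤ ENNReal.ofReal ((1 + K) ^ E) *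
        sq p (fun v => w (BPR.Lam A ξ ρ hρne v)) S (fun i => BPR.gg A ξ ρ hρne (F i)) :=
      B.sq_le_ofReal hp _ hB1 (fun v => (hw'2 v).2) S _
    have h4 : κ ^ (1 / p) * sq p (fun v => w (BPR.Lam A ξ ρ hρne v)) S
        (fun i => BPR.gg A ξ ρ hρne (F i)) = sq p w S F := by
      unfold sq
      rw [← B.l2_const_mul]
      congr 1
      refine Finset.sum_congr rfl fun i hi => ?_
      congr 1
      rw [BPR.nw_Lam hκ hp hwm (hFm i hi)]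
      congr 1
      exact B.nw_congr p _ fun v => BPR.norm_gg A ξ ρ hρne (F i) v
    calc κ ^ (1 / p) * sq p w' S (fun i => BPR.gg A ξ ρ hρne (F i))
        ≤ κ ^ (1 / p) * (ENNReal.ofReal ((1 + K) ^ E) *
          sq p (fun v => w (BPR.Lam A ξ ρ hρne v)) S (fun i => BPR.gg A ξ ρ hρne (F i))) :=
          mul_le_mul_right h3 _
      _ = ENNReal.ofReal ((1 + K) ^ E) * (κ ^ (1 / p) *
          sq p (fun v => w (BPR.Lam A ξ ρ hρne v)) S (fun i => BPR.gg A ξ ρ hρne (F i))) := by ring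
      _ = _ := by rw [h4]
  calc nw p w (fun z => ∑ i ∈ S, F i z)
      ≤ κ ^ (1 / p) * nw p w' (fun z => ∑ i ∈ S, BPR.gg A ξ ρ hρne (F i) z) := hL
    _ ≤ κ ^ (1 / p) * (ENNReal.ofReal D * sq p w' S (fun i => BPR.gg A ξ ρ hρne (F i))) :=
        mul_le_mul_right hmain _
    _ = ENNReal.ofReal D * (κ ^ (1 / p) * sq p w' S (fun i => BPR.gg A ξ ρ hρne (F i))) := by ring
    _ ≤ ENNReal.ofReal D * (ENNReal.ofReal ((1 + K) ^ E) * sq p w S F) := mul_le_mul_right hR _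
    _ = ENNReal.ofReal ((1 + K) ^ E * D) * sq p w S F := by
        rw [← mul_assoc, ← ENNReal.ofReal_mul hD, mul_comm D]

end DEC
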