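import Pool.Agent.DEC.StmtsB

/-!
# l^2 decoupling, block B: separated centres in a larger cube (Stmt_PRV)
-/

open MeasureTheory Finset
open scoped ENNReal Matrix

namespace DEC

namespace BPRV

/-- The integer part of a point of the cube of size `V` has norm at most `⌈V⌉₊ + 1`. -/
theorem mem_T {r : ℕ} {V : ℝ} {c : Fin r → ℝ} (hc : ‖c‖ ≤ V) :
    (fun k => ⌊c k⌋) ∈ Fintype.piFinset fun _ : Fin r =>
      Finset.Icc (-((⌈V⌉₊ + 1 : ℕ) : ℤ)) ((⌈V⌉₊ + 1 : ℕ) : ℤ) := by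
  rw [Fintype.mem_piFinset]
  intro k
  have h1 : |c k| ≤ V := by
    have := norm_le_pi_norm c k
    rw [Real.norm_eq_abs] at this
    exact this.trans hc
  have h2 : V ≤ (⌈V⌉₊ : ℝ) := Nat.le_ceil V
  obtain ⟨h3, h4⟩ := abs_le.mp h1
  rw [Finset.mem_Icc]
  constructor
  · rw [Int.le_floor]
    push_cast
    linarith
  · have h5 : ((⌊c k⌋ : ℤ) : ℝ) ≤ (((⌈V⌉₊ + 1 : ℕ) : ℤ) : ℝ) := by
      have := Int.floor_le (c k)
      push_cast
      linarith
    exact_mod_cast h5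

theorem norm_T {r : ℕ} {m : ℕ} {k : Fin r → ℤ}
    (hk : k ∈ Fintype.piFinset fun _ : Fin r => Finset.Icc (-(m : ℤ)) (m : ℤ)) :
    ‖fun i => (k i : ℝ)‖ ≤ (m : ℝ) := by
  rw [Fintype.mem_piFinset] at hk
  rw [pi_norm_le_iff_of_nonneg (Nat.cast_nonneg m)]
  intro i
  have h := hk i
  rw [Finset.mem_Icc] at h
  rw [Real.norm_eq_abs, abs_le]
  constructor
  · exact_mod_cast h.1
  · exact_mod_cast h.2

theorem dist_T {r : ℕ} (c : Fin r → ℝ) : ‖c - fun i => ((⌊c i⌋ : ℤ) : ℝ)‖ ≤ 1 := by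
  rw [pi_norm_le_iff_of_nonneg zero_le_one]
  intro i
  rw [Pi.sub_apply, Real.norm_eq_abs, abs_le]
  have h1 := Int.floor_le (c i)
  have h2 := Int.lt_floor_add_one (c i)
  constructor <;> linarith

end BPRV

theorem t_PRV (h1 : Stmt_PR) (h2 : Stmt_WtBasic) : Stmt_PRV := by
  classical
  intro r p E l L V hp hE hl hV
  obtain ⟨C, hC, H⟩ := h1 r p E l L ((⌈V⌉₊ + 1 : ℕ) : ℝ) hp hE hl
  set T : Finset (Fin r → ℤ) := Fintype.piFinset fun _ : Fin r =>
    Finset.Icc (-((⌈V⌉₊ + 1 : ℕ) : ℤ)) ((⌈V⌉₊ + 1 : ℕ) : ℤ) with hT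
  refine ⟨C * ((T.card : ℝ) + 1), by positivity, ?_⟩
  intro b N D hN hD hDec A ι S c F hA hsep htr hV' w hw
  have hwm : Measurable w := ((h2 r (N ^ 2) E (by positivity) hE).1 w hw).1
  set g : ι → Fin r → ℤ := fun i k => ⌊c i k⌋ with hg
  have hgT : ∀ i ∈ S, g i ∈ T := fun i hi => BPRV.mem_T (hV' i hi)
  have hFm : ∀ i ∈ S, Measurable (F i) := fun i hi =>
    (B.Trig.continuous (htr i hi)).measurable
  have hsum : (fun z => ∑ i ∈ S, F i z) =
      fun z => ∑ k ∈ T, ∑ i ∈ S.filter (fun i => g i = k), F i z := by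
    funext z
    rw [Finset.sum_fiberwise_of_maps_to hgT]
  rw [hsum]
  refine le_trans (B.nw_sum_le hp hwm T (fun k z => ∑ i ∈ S.filter (fun i => g i = k), F i z)
    fun k _ => Finset.measurable_sum _ fun i hi => hFm i (Finset.mem_filter.mp hi).1) ?_
  have hk : ∀ k ∈ T, nw p w (fun z => ∑ i ∈ S.filter (fun i => g i = k), F i z) ≤
      ENNReal.ofReal (C * D) * sq p w S F := by
    intro k hkT
    refine le_trans (H b N 1 D le_rfl hN hD (by rwa [div_one]) A ι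
      (S.filter fun i => g i = k) c F (fun i => (k i : ℝ)) hA ?_ ?_ (BPRV.norm_T hkT) ?_ w hw) ?_
    · intro i hi j hj hij
      exact hsep i (Finset.mem_filter.mp hi).1 j (Finset.mem_filter.mp hj).1 hij
    · intro i hi
      exact htr i (Finset.mem_filter.mp hi).1
    · intro i hi
      have h3 := (Finset.mem_filter.mp hi).2
      rw [div_one, ← h3]
      exact BPRV.dist_T (c i)
    · exact mul_le_mul_right (B.sq_subset p w (Finset.filter_subset _ _) F) _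
  refine le_trans (Finset.sum_le_sum hk) ?_
  rw [Finset.sum_const, nsmul_eq_mul, ← mul_assoc]
  refine mul_le_mul_left ?_ _
  rw [← ENNReal.ofReal_natCast, ← ENNReal.ofReal_mul (Nat.cast_nonneg _)]
  refine ENNReal.ofReal_le_ofReal ?_
  have : 0 ≤ C * D := mul_nonneg hC.le hD
  nlinarith

end DEC
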