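import Pool.Agent.DEC.StmtsB
import Pool.Agent.DEC.WBasic

/-!
# l^2 decoupling, block B: the linear change of variables of the narrow case
-/

open MeasureTheory Finset
open scoped ENNReal Matrix

namespace DEC

namespace BPsi

variable {r : ℕ}

/-- The linear form `∑ om_(i') v_i`. -/
noncomputable def lin (j : Fin (r + 1)) (om : Fin (r + 1) → ℝ) (v : Fin r → ℝ) : ℝ :=
  ∑ i, om (j.succAbove i) * v i

lemma lin_add (j : Fin (r + 1)) (om : Fin (r + 1) → ℝ) (v v' : Fin r → ℝ) :
    lin j om (v + v') = lin j om v + lin j om v' := by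
  unfold lin
  rw [← Finset.sum_add_distrib]
  exact Finset.sum_congr rfl fun i _ => by rw [Pi.add_apply]; ring

lemma lin_smul (j : Fin (r + 1)) (om : Fin (r + 1) → ℝ) (c : ℝ) (v : Fin r → ℝ) :
    lin j om (c • v) = c * lin j om v := by
  unfold lin
  rw [Finset.mul_sum]
  exact Finset.sum_congr rfl fun i _ => by rw [Pi.smul_apply, smul_eq_mul]; ring

lemma lin_sub (j : Fin (r + 1)) (om : Fin (r + 1) → ℝ) (v v' : Fin r → ℝ) :
    lin j om (v - v') = lin j om v - lin j om v' := by
  unfold lin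
  rw [← Finset.sum_sub_distrib]
  exact Finset.sum_congr rfl fun i _ => by rw [Pi.sub_apply]; ring

lemma abs_lin_le (j : Fin (r + 1)) (om : Fin (r + 1) → ℝ) (v : Fin r → ℝ) :
    |lin j om v| ≤ r * ‖om‖ * ‖v‖ := by
  unfold lin
  refine (Finset.abs_sum_le_sum_abs _ _).trans ?_
  have h : ∀ i ∈ (Finset.univ : Finset (Fin r)), |om (j.succAbove i) * v i| ≤ ‖om‖ * ‖v‖ := by
    intro i _
    rw [abs_mul]
    exact mul_le_mul (norm_le_pi_norm om _) (norm_le_pi_norm v i) (abs_nonneg _) (norm_nonneg _)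
  refine (Finset.sum_le_sum h).trans ?_
  rw [Finset.sum_const, Finset.card_univ, Fintype.card_fin, nsmul_eq_mul, mul_assoc]

/-- The `j`-th coordinate. -/
lemma psi_same (j : Fin (r + 1)) (u om : Fin (r + 1) → ℝ) (kap : ℝ) (v : X r) (z : ℝ) :
    (Psi j u om kap v z).1 j = z - lin j om v.1 - kap * v.2 := by
  unfold Psi lin
  simp only [Fin.insertNth_apply_same]

/-- The other coordinates. -/
lemma psi_succ (j : Fin (r + 1)) (u om : Fin (r + 1) → ℝ) (kap : ℝ) (v : X r) (z : ℝ)
    (i : Fin r) :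
    (Psi j u om kap v z).1 (j.succAbove i) =
      v.1 i + u (j.succAbove i) * (z - lin j om v.1 - kap * v.2) := by
  unfold Psi lin
  simp only [Fin.insertNth_apply_succAbove]

lemma psi_snd (j : Fin (r + 1)) (u om : Fin (r + 1) → ℝ) (kap : ℝ) (v : X r) (z : ℝ) :
    (Psi j u om kap v z).2 = v.2 := rfl

lemma ext_X (j : Fin (r + 1)) {x y : X (r + 1)} (h1 : x.1 j = y.1 j)
    (h2 : ∀ i, x.1 (j.succAbove i) = y.1 (j.succAbove i)) (h3 : x.2 = y.2) : x = y := by
  refine Prod.ext (funext fun k => ?_) h3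
  rcases Fin.eq_self_or_eq_succAbove j k with rfl | ⟨i, rfl⟩
  · exact h1
  · exact h2 i

/-- `Psi` as a linear isomorphism. -/
noncomputable def equiv (j : Fin (r + 1)) (u om : Fin (r + 1) → ℝ) (kap : ℝ) :
    (X r × ℝ) ≃ₗ[ℝ] X (r + 1) where
  toFun vz := Psi j u om kap vz.1 vz.2
  map_add' := by
    intro a b
    apply ext_X j
    · show (Psi j u om kap (a + b).1 (a + b).2).1 j =
        (Psi j u om kap a.1 a.2).1 j + (Psi j u om kap b.1 b.2).1 j
      rw [psi_same, psi_same, psi_same, Prod.fst_add, Prod.snd_add, Prod.fst_add, lin_add,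
        Prod.snd_add]
      ring
    · intro i
      show (Psi j u om kap (a + b).1 (a + b).2).1 (j.succAbove i) =
        (Psi j u om kap a.1 a.2).1 (j.succAbove i) + (Psi j u om kap b.1 b.2).1 (j.succAbove i)
      rw [psi_succ, psi_succ, psi_succ, Prod.fst_add, Prod.snd_add, Prod.fst_add, lin_add,
        Prod.snd_add, Pi.add_apply]
      ring
    · rfl
  map_smul' := by
    intro c a
    apply ext_X j
    · show (Psi j u om kap (c • a).1 (c • a).2).1 j = c * (Psi j u om kap a.1 a.2).1 j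
      rw [psi_same, psi_same, Prod.smul_fst, Prod.smul_snd, Prod.smul_fst, lin_smul,
        Prod.smul_snd, smul_eq_mul, smul_eq_mul]
      ring
    · intro i
      show (Psi j u om kap (c • a).1 (c • a).2).1 (j.succAbove i) =
        c * (Psi j u om kap a.1 a.2).1 (j.succAbove i)
      rw [psi_succ, psi_succ, Prod.smul_fst, Prod.smul_snd, Prod.smul_fst, lin_smul,
        Prod.smul_snd, smul_eq_mul, smul_eq_mul, Pi.smul_apply, smul_eq_mul]
      ring
    · rfl
  invFun x := ((fun i => x.1 (j.succAbove i) - u (j.succAbove i) * x.1 j, x.2),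
    x.1 j + lin j om (fun i => x.1 (j.succAbove i) - u (j.succAbove i) * x.1 j) + kap * x.2)
  left_inv := by
    rintro ⟨v, z⟩
    have e : (fun i => (Psi j u om kap v z).1 (j.succAbove i) -
        u (j.succAbove i) * (Psi j u om kap v z).1 j) = v.1 := by
      funext i
      rw [psi_succ, psi_same]
      ring
    show ((fun i => (Psi j u om kap v z).1 (j.succAbove i) -
        u (j.succAbove i) * (Psi j u om kap v z).1 j, (Psi j u om kap v z).2),
      (Psi j u om kap v z).1 j + lin j om (fun i => (Psi j u om kap v z).1 (j.succAbove i) -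
        u (j.succAbove i) * (Psi j u om kap v z).1 j) + kap * (Psi j u om kap v z).2) = (v, z)
    rw [e, psi_snd, psi_same]
    refine Prod.ext rfl ?_
    show z - lin j om v.1 - kap * v.2 + lin j om v.1 + kap * v.2 = z
    ring
  right_inv := by
    intro x
    apply ext_X j
    · rw [psi_same]
      show x.1 j + lin j om (fun i => x.1 (j.succAbove i) - u (j.succAbove i) * x.1 j)
        + kap * x.2 - lin j om (fun i => x.1 (j.succAbove i) - u (j.succAbove i) * x.1 j)
        - kap * x.2 = x.1 j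
      ring
    · intro i
      rw [psi_succ]
      show x.1 (j.succAbove i) - u (j.succAbove i) * x.1 j + u (j.succAbove i) *
        (x.1 j + lin j om (fun i => x.1 (j.succAbove i) - u (j.succAbove i) * x.1 j)
        + kap * x.2 - lin j om (fun i => x.1 (j.succAbove i) - u (j.succAbove i) * x.1 j)
        - kap * x.2) = x.1 (j.succAbove i)
      ring
    · rfl

lemma equiv_apply (j : Fin (r + 1)) (u om : Fin (r + 1) → ℝ) (kap : ℝ) (vz : X r × ℝ) :
    equiv j u om kap vz = Psi j u om kap vz.1 vz.2 := rfl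

instance instHaarXR (r : ℕ) : (volume : Measure (X r × ℝ)).IsAddHaarMeasure :=
  inferInstanceAs (((volume : Measure (X r)).prod (volume : Measure ℝ)).IsAddHaarMeasure)

lemma meas (j : Fin (r + 1)) (u om : Fin (r + 1) → ℝ) (kap : ℝ) :
    Measurable fun vz : X r × ℝ => Psi j u om kap vz.1 vz.2 := by
  have h : Continuous (equiv j u om kap : (X r × ℝ) →ₗ[ℝ] X (r + 1)) :=
    LinearMap.continuous_of_finiteDimensional _
  exact h.measurable

lemma bound (j : Fin (r + 1)) (u om : Fin (r + 1) → ℝ) (kap : ℝ) (hu : ∀ i, |u i| ≤ 1)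
    (v v' : X r) (z : ℝ) :
    ‖Psi j u om kap v z - Psi j u om kap v' z‖ ≤ (1 + r * ‖om‖ + |kap|) * ‖v - v'‖ := by
  have h0 : 0 ≤ ‖v - v'‖ := norm_nonneg _
  have h1 : ‖v.1 - v'.1‖ ≤ ‖v - v'‖ := norm_fst_le (v - v')
  have h2 : ‖v.2 - v'.2‖ ≤ ‖v - v'‖ := norm_snd_le (v - v')
  have hA : 0 ≤ (r : ℝ) * ‖om‖ := by positivity
  have hB : 0 ≤ |kap| := abs_nonneg _
  have hx : |(z - lin j om v.1 - kap * v.2) - (z - lin j om v'.1 - kap * v'.2)| ≤
      (r * ‖om‖ + |kap|) * ‖v - v'‖ := by
    have e : (z - lin j om v.1 - kap * v.2) - (z - lin j om v'.1 - kap * v'.2) =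
        -(lin j om (v.1 - v'.1) + kap * (v.2 - v'.2)) := by rw [lin_sub]; ring
    rw [e, abs_neg]
    refine (abs_add_le _ _).trans ?_
    rw [abs_mul]
    have h3 := abs_lin_le j om (v.1 - v'.1)
    have h4 : (r : ℝ) * ‖om‖ * ‖v.1 - v'.1‖ ≤ r * ‖om‖ * ‖v - v'‖ :=
      mul_le_mul_of_nonneg_left h1 hA
    have h5 : |kap| * |v.2 - v'.2| ≤ |kap| * ‖v - v'‖ := mul_le_mul_of_nonneg_left h2 hB
    linarith
  have hC : 0 ≤ (1 + r * ‖om‖ + |kap|) * ‖v - v'‖ := by positivity
  rw [norm_prod_le_iff]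
  constructor
  · rw [pi_norm_le_iff_of_nonneg hC]
    intro k
    rcases Fin.eq_self_or_eq_succAbove j k with rfl | ⟨i, rfl⟩
    · show |(Psi k u om kap v z).1 k - (Psi k u om kap v' z).1 k| ≤ _
      rw [psi_same, psi_same]
      nlinarith
    · show |(Psi j u om kap v z).1 (j.succAbove i) - (Psi j u om kap v' z).1 (j.succAbove i)| ≤ _
      rw [psi_succ, psi_succ]
      have e : v.1 i + u (j.succAbove i) * (z - lin j om v.1 - kap * v.2) -
          (v'.1 i + u (j.succAbove i) * (z - lin j om v'.1 - kap * v'.2)) =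
          (v.1 i - v'.1 i) + u (j.succAbove i) *
            ((z - lin j om v.1 - kap * v.2) - (z - lin j om v'.1 - kap * v'.2)) := by ring
      rw [e]
      refine (abs_add_le _ _).trans ?_
      rw [abs_mul]
      have h3 : |v.1 i - v'.1 i| ≤ ‖v - v'‖ := (norm_le_pi_norm (v.1 - v'.1) i).trans h1
      have h4 : |u (j.succAbove i)| *
          |(z - lin j om v.1 - kap * v.2) - (z - lin j om v'.1 - kap * v'.2)| ≤
          1 * ((r * ‖om‖ + |kap|) * ‖v - v'‖) :=
        mul_le_mul (hu _) hx (abs_nonneg _) zero_le_one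
      linarith
  · show |v.2 - v'.2| ≤ _
    have h6 : |v.2 - v'.2| ≤ ‖v - v'‖ := h2
    nlinarith [mul_nonneg (add_nonneg hA hB) h0]

lemma pairing (j : Fin (r + 1)) (u om : Fin (r + 1) → ℝ) (kap : ℝ) (hu : u j = 1)
    (huo : u ⬝ᵥ om = 1) (v : X r) (z : ℝ) :
    om ⬝ᵥ (Psi j u om kap v z).1 + kap * v.2 = z := by
  have h1 : om j + ∑ i : Fin r, u (j.succAbove i) * om (j.succAbove i) = 1 := by
    rw [dotProduct, Fin.sum_univ_succAbove _ j, hu, one_mul] at huo
    exact huo
  rw [dotProduct, Fin.sum_univ_succAbove _ j, psi_same]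
  simp only [psi_succ]
  have h2 : ∑ i : Fin r, om (j.succAbove i) *
      (v.1 i + u (j.succAbove i) * (z - lin j om v.1 - kap * v.2)) =
      lin j om v.1 + (∑ i : Fin r, u (j.succAbove i) * om (j.succAbove i)) *
        (z - lin j om v.1 - kap * v.2) := by
    generalize z - lin j om v.1 - kap * v.2 = w
    unfold lin
    rw [Finset.sum_mul, ← Finset.sum_add_distrib]
    exact Finset.sum_congr rfl fun i _ => by ring
  rw [h2]
  have h3 : ∑ i : Fin r, u (j.succAbove i) * om (j.succAbove i) = 1 - om j := by linarith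
  rw [h3]
  ring

end BPsi

open BPsi in
/-- `Psi` is a linear change of variables. -/
theorem t_Psi (h1 : Stmt_ChV) : Stmt_Psi := by
  intro r j u om kap hu hu1 huo
  refine ⟨?_, fun v v' z => bound j u om kap hu1 v v' z,
    fun v z => pairing j u om kap hu huo v z, meas j u om kap⟩
  obtain ⟨c, hc0, hct, hc⟩ := h1 (X r × ℝ) (X (r + 1)) (equiv j u om kap)
  refine ⟨c, hc0, hct, fun G hG => ?_⟩
  rw [hc G hG]
  have h2 : ∫⁻ y : X r × ℝ, G (equiv j u om kap y) =
      ∫⁻ z : ℝ, ∫⁻ v : X r, G (Psi j u om kap v z) := by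
    have hm : Measurable fun y : X r × ℝ => G (equiv j u om kap y) := hG.comp (meas j u om kap)
    rw [Measure.volume_eq_prod, lintegral_prod_symm _ hm.aemeasurable]
    rfl
  rw [h2]

end DEC
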