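import Pool.Agent.DEC.StmtsB

/-!
# l^2 decoupling, block B: the case `r = 0` and the trivial bound
-/

open MeasureTheory Finset
open scoped ENNReal Matrix

namespace DEC
namespace BTriv

theorem zeroCase (p E l L b N : ℝ) (hp : 1 ≤ p) (hN : 0 < N) : Dec 0 p E l L b N 1 := by
  intro A _ ι S c F hF w _
  rw [ENNReal.ofReal_one, one_mul]
  rcases S.eq_empty_or_nonempty with h0 | ⟨i, hi⟩
  · subst h0
    simp only [Finset.sum_empty]
    rw [B.nw_zero (by linarith : 0 < p)]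
    exact zero_le
  · have hS : S = {i} := by
      refine Finset.eq_singleton_iff_unique_mem.2 ⟨hi, fun j hj => ?_⟩
      by_contra hne
      have h1 := hF.sep j hj i hi hne
      have h2 : c j - c i = 0 := Subsingleton.elim _ _
      rw [h2, norm_zero] at h1
      have : 0 < 1 / N := by positivity
      linarith
    subst hS
    simp only [Finset.sum_singleton]
    exact B.nw_le_sq p w {i} F i hi

theorem genCase (h1 : Stmt_Cnt) (h2 : Stmt_WtBasic) (r : ℕ) (p E l L b N : ℝ) (hp : 1 ≤ p)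
    (hE : 0 ≤ E) (hN : 1 ≤ N) : Dec r p E l L b N ((3 * N) ^ r) := by
  intro A _ ι S c F hF w hw
  have hm : Measurable w := (((h2 r (N ^ 2) E (by positivity) hE).1) w hw).1
  refine (B.nw_sum_le_sq hp hm S F fun i hi => (B.Trig.continuous (hF.trig i hi)).measurable).trans ?_
  refine mul_le_mul_left ?_ _
  have hc : (S.card : ℝ) ≤ (2 * 1 * N + 1) ^ r :=
    h1 r N 1 ι S c 0 (by linarith) (by norm_num) hF.sep
      (fun i hi => by rw [sub_zero]; exact hF.ball i hi)
  have hc2 : (S.card : ℝ) ≤ (3 * N) ^ r :=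
    hc.trans (pow_le_pow_left₀ (by linarith) (by linarith) r)
  have hB : (1 : ℝ) ≤ (3 * N) ^ r := one_le_pow₀ (by linarith)
  have h3 : (S.card : ℝ≥0∞) ≤ ENNReal.ofReal ((3 * N) ^ r) := by
    rw [← ENNReal.ofReal_natCast]
    exact ENNReal.ofReal_le_ofReal hc2
  have h4 : (1 : ℝ≥0∞) ≤ ENNReal.ofReal ((3 * N) ^ r) := by
    rw [ENNReal.one_le_ofReal]; exact hB
  calc (S.card : ℝ≥0∞) ^ (1 / 2 : ℝ) ≤ ENNReal.ofReal ((3 * N) ^ r) ^ (1 / 2 : ℝ) :=
        ENNReal.rpow_le_rpow h3 (by norm_num)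
    _ ≤ ENNReal.ofReal ((3 * N) ^ r) ^ (1 : ℝ) :=
        ENNReal.rpow_le_rpow_of_exponent_le h4 (by norm_num)
    _ = ENNReal.ofReal ((3 * N) ^ r) := ENNReal.rpow_one _

theorem monoCase (r : ℕ) (p E l L b N D D' : ℝ) (h : D ≤ D') (hD : Dec r p E l L b N D) :
    Dec r p E l L b N D' := by
  intro A hA ι S c F hF w hw
  exact (hD A hA ι S c F hF w hw).trans (mul_le_mul_left (ENNReal.ofReal_le_ofReal h) _)

end BTriv

theorem t_Triv (h1 : Stmt_Cnt) (h2 : Stmt_WtBasic) : Stmt_Triv :=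
  ⟨BTriv.zeroCase, fun r p E l L b N hp hE hN => BTriv.genCase h1 h2 r p E l L b N hp hE hN,
    BTriv.monoCase⟩

end DEC
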