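import Pool.Agent.DEC.StmtsC

/-!
# l^2 decoupling, block C: induction on the scale
-/

open MeasureTheory
open scoped ENNReal Matrix

namespace DEC

namespace CBNI6

/-- Choice of the scale `K`. -/
lemma exists_K (c C C₁ ε : ℝ) (hc : 0 < c) (hC : 0 < C) (hC₁ : 0 < C₁) (hε : 0 < ε) :
    ∃ K : ℝ, 1 < K ∧ 1 ≤ c * K ∧ C * (C₁ * (c * K) ^ (ε / 4) + 1) ≤ K ^ (ε / 2) := by
  set B : ℝ := C * (C₁ * c ^ (ε / 4) + 1) with hB
  have hcp : 0 < c ^ (ε / 4) := Real.rpow_pos_of_pos hc _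
  have hBpos : 0 < B := by positivity
  refine ⟨max (max 2 (1 / c)) (B ^ (4 / ε)), ?_, ?_, ?_⟩
  · exact lt_of_lt_of_le one_lt_two ((le_max_left _ _).trans (le_max_left _ _))
  · have h1 : 1 / c ≤ max (max 2 (1 / c)) (B ^ (4 / ε)) :=
      (le_max_right _ _).trans (le_max_left _ _)
    calc (1 : ℝ) = c * (1 / c) := by field_simp
      _ ≤ _ := mul_le_mul_of_nonneg_left h1 hc.le
  · set K := max (max 2 (1 / c)) (B ^ (4 / ε)) with hK
    have hK2 : (2 : ℝ) ≤ K := (le_max_left _ _).trans (le_max_left _ _)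
    have hK0 : 0 < K := by linarith
    have hy1 : 1 ≤ K ^ (ε / 4) := Real.one_le_rpow (by linarith) (by positivity)
    have hyB : B ≤ K ^ (ε / 4) := by
      have h2 : B ^ (4 / ε) ≤ K := le_max_right _ _
      have h3 := Real.rpow_le_rpow (by positivity) h2 (show 0 ≤ ε / 4 by positivity)
      rwa [← Real.rpow_mul hBpos.le, show 4 / ε * (ε / 4) = 1 by field_simp, Real.rpow_one] at h3
    have h4 : K ^ (ε / 2) = K ^ (ε / 4) * K ^ (ε / 4) := by
      rw [← Real.rpow_add hK0]; congr 1; ring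
    rw [h4, Real.mul_rpow hc.le hK0.le]
    have h5 : C * (C₁ * (c ^ (ε / 4) * K ^ (ε / 4)) + 1) ≤ B * K ^ (ε / 4) := by
      rw [hB]
      have : C * 1 ≤ C * K ^ (ε / 4) := mul_le_mul_of_nonneg_left hy1 hC.le
      nlinarith
    exact h5.trans (mul_le_mul_of_nonneg_right hyB (by positivity))

end CBNI6

open CBNI6 in
theorem t_BNI : Stmt_C_BNI := by
  intro hBN hT r p E l L b lam ε hp hE hl hb hlam hε hDec hM
  obtain ⟨a, ha, hM⟩ := hM
  obtain ⟨E', L', b', c, C, hE', hb', hc, hC, hBN⟩ := hBN r p E a l L b hp hE ha hl hb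
  obtain ⟨C₁, hC₁, hD⟩ := hDec E' L' b' (ε / 4) hE' hb' (by linarith)
  obtain ⟨K, hK1, hcK, hK⟩ := exists_K c C C₁ ε hc hC hC₁ hε
  have hK0 : 0 < K := by linarith
  have hνpos : 0 < c * K ^ (-((r : ℝ) + 2)) := mul_pos hc (Real.rpow_pos_of_pos hK0 _)
  obtain ⟨C₂, hC₂, hM⟩ := hM _ hνpos
  set D' : ℝ := C₁ * (c * K) ^ (ε / 4) with hD'
  have hD'0 : 0 ≤ D' := mul_nonneg hC₁.le (Real.rpow_nonneg (mul_nonneg hc.le hK0.le) _)
  have hdec' := hD (c * K) hcK
  -- the constant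
  have hq1 : K ^ (-(ε / 2)) < 1 := Real.rpow_lt_one_of_one_lt_of_neg hK1 (by linarith)
  set G : ℝ := C * K ^ C * C₂ with hG
  have hG0 : 0 < G := by positivity
  set B : ℝ := (3 * K) ^ (r + 1) + G / (1 - K ^ (-(ε / 2))) with hB
  have hq0 : 0 < 1 - K ^ (-(ε / 2)) := by linarith
  have hB0 : 0 < B := by positivity
  have hBG : G ≤ B * (1 - K ^ (-(ε / 2))) := by
    have h1 : G / (1 - K ^ (-(ε / 2))) ≤ B := by
      rw [hB]; linarith [show 0 ≤ (3 * K) ^ (r + 1) by positivity]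
    calc G = G / (1 - K ^ (-(ε / 2))) * (1 - K ^ (-(ε / 2))) := by field_simp
      _ ≤ _ := mul_le_mul_of_nonneg_right h1 hq0.le
  have hle : (0 : ℝ) ≤ lam + ε := by linarith
  refine ⟨B, hB0, ?_⟩
  have key : ∀ k : ℕ, ∀ N : ℝ, 1 ≤ N → N ≤ K ^ (k + 1) →
      Dec (r + 1) p E l L b N (B * N ^ (lam + ε)) := by
    intro k
    induction k with
    | zero =>
      intro N hN1 hN2
      have hN2' : N ≤ K := by simpa using hN2
      refine hT.2.2 (r + 1) p E l L b N ((3 * N) ^ (r + 1)) _ ?_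
        (hT.2.1 (r + 1) p E l L b N (by linarith) hE hN1)
      have h1 : (3 * N) ^ (r + 1) ≤ (3 * K) ^ (r + 1) :=
        pow_le_pow_left₀ (by linarith) (by linarith) _
      have h2 : (3 * K) ^ (r + 1) ≤ B := by
        rw [hB]; linarith [show 0 ≤ G / (1 - K ^ (-(ε / 2))) by positivity]
      have h3 : 1 ≤ N ^ (lam + ε) := Real.one_le_rpow hN1 hle
      nlinarith
    | succ k ih =>
      intro N hN1 hN2
      by_cases hNK : N ≤ K
      · have h0 : N ≤ K ^ (k + 1) := hNK.trans (le_self_pow₀ hK1.le (by omega))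
        exact ih N hN1 h0
      · push Not at hNK
        have hNK1 : 1 ≤ N / K := by rw [le_div_iff₀ hK0]; linarith
        have hNK2 : N / K ≤ K ^ (k + 1) := by
          rw [div_le_iff₀ hK0]; rw [pow_succ] at hN2; exact hN2
        have ihN := ih (N / K) hNK1 hNK2
        have hMN := hM N hN1
        have hN0 : 0 < N := by linarith
        have hD₁ : 0 ≤ B * (N / K) ^ (lam + ε) := by positivity
        have hM₁ : 0 ≤ C₂ * N ^ lam := by positivity
        have main := hBN K N D' (B * (N / K) ^ (lam + ε)) (C₂ * N ^ lam) hcK hK1.le hNK.le hD'0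
          hD₁ hM₁ hdec' ihN (by simpa using hMN)
        refine hT.2.2 (r + 1) p E l L b N _ _ ?_ main
        have e1 : (N / K) ^ (lam + ε) = N ^ (lam + ε) * K ^ (-(lam + ε)) := by
          rw [Real.div_rpow hN0.le hK0.le, Real.rpow_neg hK0.le]; rfl
        have e2 : K ^ (-(lam + ε)) ≤ K ^ (-ε) :=
          Real.rpow_le_rpow_of_exponent_le hK1.le (by linarith)
        have e3 : C * (D' + 1) ≤ K ^ (ε / 2) := hK
        have e4 : K ^ (ε / 2) * K ^ (-ε) = K ^ (-(ε / 2)) := by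
          rw [← Real.rpow_add hK0]; congr 1; ring
        have e5 : N ^ lam ≤ N ^ (lam + ε) := Real.rpow_le_rpow_of_exponent_le hN1 (by linarith)
        have hNp : 0 < N ^ (lam + ε) := Real.rpow_pos_of_pos hN0 _
        have f1 : C * (D' + 1) * (B * (N / K) ^ (lam + ε))
            ≤ K ^ (-(ε / 2)) * (B * N ^ (lam + ε)) := by
          rw [e1, ← e4]
          have g1 : 0 ≤ K ^ (-(lam + ε)) := Real.rpow_nonneg hK0.le _
          have g2 : 0 ≤ K ^ (ε / 2) := Real.rpow_nonneg hK0.le _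
          have g3 : 0 ≤ B * N ^ (lam + ε) := by positivity
          calc C * (D' + 1) * (B * (N ^ (lam + ε) * K ^ (-(lam + ε))))
              = C * (D' + 1) * K ^ (-(lam + ε)) * (B * N ^ (lam + ε)) := by ring
            _ ≤ K ^ (ε / 2) * K ^ (-ε) * (B * N ^ (lam + ε)) :=
              mul_le_mul_of_nonneg_right (mul_le_mul e3 e2 g1 g2) g3
        have f2 : C * K ^ C * (C₂ * N ^ lam) ≤ B * (1 - K ^ (-(ε / 2))) * N ^ (lam + ε) := by
          calc C * K ^ C * (C₂ * N ^ lam) = G * N ^ lam := by rw [hG]; ring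
            _ ≤ G * N ^ (lam + ε) := mul_le_mul_of_nonneg_left e5 hG0.le
            _ ≤ _ := mul_le_mul_of_nonneg_right hBG hNp.le
        calc C * (D' + 1) * (B * (N / K) ^ (lam + ε)) + C * K ^ C * (C₂ * N ^ lam)
            ≤ K ^ (-(ε / 2)) * (B * N ^ (lam + ε)) + B * (1 - K ^ (-(ε / 2))) * N ^ (lam + ε) :=
              add_le_add f1 f2
          _ = B * N ^ (lam + ε) := by ring
  intro N hN
  obtain ⟨k, hk⟩ := pow_unbounded_of_one_lt N hK1
  exact key k N hN (hk.le.trans (pow_le_pow_right₀ hK1.le (by omega)))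

end DEC
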