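import Pool.Agent.DEC.StmtsC
import Pool.Agent.DEC.WBasic

/-!
# l^2 decoupling, block C: common lemmas

The kernels as functions of the exponent, measurable weights, cells and parts of a family.
-/

open MeasureTheory
open scoped ENNReal Matrix

namespace DEC

/-! ### Kernels -/

/-- `wt R a` decreases in `a`. -/
lemma wt_anti {r : ℕ} {R a a' : ℝ} (hR : 0 < R) (h : a ≤ a') (u : X r) :
    wt R a' u ≤ wt R a u := by
  unfold wt
  refine ENNReal.ofReal_le_ofReal (mul_le_mul_of_nonneg_left ?_ (Real.rpow_nonneg hR.le _))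
  exact Real.rpow_le_rpow_of_exponent_le (one_le_br hR u) (neg_le_neg h)

/-- `av R a` decreases in `a`. -/
lemma av_anti {r : ℕ} {R a a' : ℝ} (hR : 0 < R) (h : a ≤ a') (f : X r → ℝ≥0∞) (z : X r) :
    av R a' f z ≤ av R a f z :=
  lintegral_mono fun y => mul_le_mul' le_rfl (wt_anti hR h (z - y))

/-- `wT R a v` decreases in `a`. -/
lemma wT_anti {r : ℕ} {R a a' : ℝ} {v : Fin r → ℝ} (hR : 0 < R) (h : a ≤ a') (u : X r) :
    wT R a' v u ≤ wT R a v u := by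
  unfold wT
  have h1 : (1 : ℝ) ≤ 1 + ‖u.1 + u.2 • v‖ / R :=
    le_add_of_nonneg_right (div_nonneg (norm_nonneg _) hR.le)
  have h2 : (1 : ℝ) ≤ 1 + |u.2| / R ^ 2 := le_add_of_nonneg_right (by positivity)
  refine ENNReal.ofReal_le_ofReal (mul_le_mul ?_ ?_ (Real.rpow_nonneg (by linarith) _) ?_)
  · exact mul_le_mul_of_nonneg_left
      (Real.rpow_le_rpow_of_exponent_le h1 (neg_le_neg h)) (Real.rpow_nonneg hR.le _)
  · exact Real.rpow_le_rpow_of_exponent_le h2 (neg_le_neg h)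
  · exact mul_nonneg (Real.rpow_nonneg hR.le _) (Real.rpow_nonneg (by linarith) _)

lemma avT_anti {r : ℕ} {R a a' : ℝ} {v : Fin r → ℝ} (hR : 0 < R) (h : a ≤ a')
    (f : X r → ℝ≥0∞) (z : X r) : avT R a' v f z ≤ avT R a v f z :=
  lintegral_mono fun y => mul_le_mul' le_rfl (wT_anti hR h (z - y))

/-! ### Weights -/

lemma Wt.measurable {r : ℕ} {R E : ℝ} {w : X r → ℝ≥0∞} (hW : Stmt_WtBasic) (hR : 0 < R)
    (hE : 0 ≤ E) (hw : Wt R E w) : Measurable w :=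
  ((hW r R E hR hE).1 w hw).1

lemma Wt.mono {r : ℕ} {R ρ E E' : ℝ} {w : X r → ℝ≥0∞} (hW : Stmt_WtBasic) (hρ : 0 < ρ)
    (hR : ρ ≤ R) (hE : 0 ≤ E) (hEE : E ≤ E') (hw : Wt R E w) : Wt ρ E' w :=
  ((hW r R E (hρ.trans_le hR) hE).1 w hw).2 ρ E' hρ hR hEE

/-! ### Cells -/

section cells

variable {r : ℕ} {ι : Type} {a : ℕ} {T : Finset ι} {c : ι → Fin r → ℝ}

lemma mem_sub {J : Fin r → ℤ} {i : ι} : i ∈ sub a T c J ↔ i ∈ T ∧ cl a (c i) = J := by
  classical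
  unfold sub
  rw [Finset.mem_filter]

lemma sub_subset (J : Fin r → ℤ) : sub a T c J ⊆ T := fun _ hi => (mem_sub.1 hi).1

lemma mem_cells {J : Fin r → ℤ} : J ∈ cells a T c ↔ ∃ i ∈ T, cl a (c i) = J := by
  classical
  unfold cells
  rw [Finset.mem_image]

lemma cl_mem_cells {i : ι} (hi : i ∈ T) : cl a (c i) ∈ cells a T c := mem_cells.2 ⟨i, hi, rfl⟩

lemma exists_mem_sub {J : Fin r → ℤ} (hJ : J ∈ cells a T c) : ∃ i, i ∈ sub a T c J := by
  obtain ⟨i, hi, h⟩ := mem_cells.1 hJ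
  exact ⟨i, mem_sub.2 ⟨hi, h⟩⟩

/-- The sum over a family is the sum over the cells of the sums over the members of the cell. -/
lemma sum_cells {M : Type*} [AddCommMonoid M] (f : ι → M) :
    ∑ J ∈ cells a T c, ∑ i ∈ sub a T c J, f i = ∑ i ∈ T, f i := by
  classical
  unfold cells sub
  exact Finset.sum_fiberwise_of_maps_to (fun i hi => Finset.mem_image_of_mem _ hi) f

lemma card_cells : ∑ J ∈ cells a T c, (sub a T c J).card = T.card := by
  rw [Finset.card_eq_sum_ones, ← sum_cells (a := a) (T := T) (c := c) (fun _ => (1 : ℕ))]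
  exact Finset.sum_congr rfl fun J _ => Finset.card_eq_sum_ones _

/-- The whole family is the sum of its parts. -/
lemma sum_part (F : ι → X r → ℂ) (y : X r) :
    ∑ i ∈ T, F i y = ∑ J ∈ cells a T c, part a T c F J y := by
  unfold part
  exact (sum_cells (a := a) (T := T) (c := c) fun i => F i y).symm

/-- Two points of the same cube at scale `a` have distance at most `2^(-a)`. -/
lemma norm_sub_le_of_cl {ξ η : Fin r → ℝ} (h : cl a ξ = cl a η) :
    ‖ξ - η‖ ≤ 1 / 2 ^ a := by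
  have h2 : (0 : ℝ) < 2 ^ a := by positivity
  refine (pi_norm_le_iff_of_nonneg (by positivity)).2 fun i => ?_
  have hi : ⌊(2 : ℝ) ^ a * ξ i⌋ = ⌊(2 : ℝ) ^ a * η i⌋ := congrFun h i
  have h3 := Int.abs_sub_lt_one_of_floor_eq_floor hi
  rw [← mul_sub, abs_mul, abs_of_pos h2] at h3
  rw [Pi.sub_apply, Real.norm_eq_abs, le_div_iff₀ h2]
  linarith

lemma norm_sub_le_of_mem_sub {J : Fin r → ℤ} {i j : ι} (hi : i ∈ sub a T c J)
    (hj : j ∈ sub a T c J) : ‖c i - c j‖ ≤ 1 / 2 ^ a :=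
  norm_sub_le_of_cl ((mem_sub.1 hi).2.trans (mem_sub.1 hj).2.symm)

/-- The distance of two points controls the distance of their cubes. -/
lemma cl_sub_le {ξ η : Fin r → ℝ} (i : Fin r) :
    |((cl a ξ i - cl a η i : ℤ) : ℝ)| ≤ 2 ^ a * ‖ξ - η‖ + 1 := by
  have h2 : (0 : ℝ) < 2 ^ a := by positivity
  have h1 : |ξ i - η i| ≤ ‖ξ - η‖ := by
    have := norm_le_pi_norm (ξ - η) i
    rwa [Pi.sub_apply, Real.norm_eq_abs] at this
  have h3 := mul_le_mul_of_nonneg_left h1 h2.le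
  have h4 := abs_le.1 (le_refl |ξ i - η i|)
  unfold cl
  push_cast
  have f1 := Int.floor_le ((2 : ℝ) ^ a * ξ i)
  have f2 := Int.lt_floor_add_one ((2 : ℝ) ^ a * ξ i)
  have f3 := Int.floor_le ((2 : ℝ) ^ a * η i)
  have f4 := Int.lt_floor_add_one ((2 : ℝ) ^ a * η i)
  have h5 : (2 : ℝ) ^ a * (ξ i - η i) ≤ 2 ^ a * |ξ i - η i| :=
    mul_le_mul_of_nonneg_left h4.2 h2.le
  have h6 : (2 : ℝ) ^ a * (-|ξ i - η i|) ≤ 2 ^ a * (ξ i - η i) :=
    mul_le_mul_of_nonneg_left h4.1 h2.le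
  rw [abs_le]
  constructor <;> linarith

/-- The cube at scale `b` determines the cube at scale `a ≤ b`. -/
lemma cl_eq_of_le {b : ℕ} (hab : a ≤ b) {ξ η : Fin r → ℝ} (h : cl b ξ = cl b η) :
    cl a ξ = cl a η := by
  obtain ⟨d, rfl⟩ := Nat.exists_eq_add_of_le hab
  have key : ∀ x : ℝ, ⌊(2 : ℝ) ^ a * x⌋ = ⌊(2 : ℝ) ^ (a + d) * x⌋ / (2 ^ d : ℤ) := by
    intro x
    have h1 : (2 : ℝ) ^ a * x = (2 : ℝ) ^ (a + d) * x / ((2 ^ d : ℕ) : ℝ) := by
      rw [pow_add]; push_cast; field_simp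
    rw [h1, Int.floor_div_natCast]
    push_cast
    rfl
  funext i
  have hi : ⌊(2 : ℝ) ^ (a + d) * ξ i⌋ = ⌊(2 : ℝ) ^ (a + d) * η i⌋ := congrFun h i
  show ⌊(2 : ℝ) ^ a * ξ i⌋ = ⌊(2 : ℝ) ^ a * η i⌋
  rw [key, key, hi]

/-- The members of `T` in the cube `J'` at scale `b ≥ a`, computed inside the cube at scale `a`. -/
lemma sub_sub_eq {b : ℕ} (hab : a ≤ b) {J J' : Fin r → ℤ}
    (hJ' : J' ∈ cells b (sub a T c J) c) : sub b (sub a T c J) c J' = sub b T c J' := by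
  obtain ⟨i₀, hi₀, h₀⟩ := mem_cells.1 hJ'
  ext i
  rw [mem_sub, mem_sub, mem_sub]
  constructor
  · rintro ⟨⟨h1, -⟩, h2⟩
    exact ⟨h1, h2⟩
  · rintro ⟨h1, h2⟩
    refine ⟨⟨h1, ?_⟩, h2⟩
    have h3 : cl b (c i) = cl b (c i₀) := h2.trans h₀.symm
    exact (cl_eq_of_le hab h3).trans (mem_sub.1 hi₀).2

lemma part_sub_eq {b : ℕ} (hab : a ≤ b) (F : ι → X r → ℂ) {J J' : Fin r → ℤ}
    (hJ' : J' ∈ cells b (sub a T c J) c) :
    part b (sub a T c J) c F J' = part b T c F J' := by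
  unfold part
  rw [sub_sub_eq hab hJ']

/-- The cells at scale `b ≥ a` of the parts at scale `a` are all cells at scale `b`, once each. -/
lemma sum_cells_cells {M : Type*} [AddCommMonoid M] {b : ℕ} (hab : a ≤ b)
    (g : (Fin r → ℤ) → M) :
    ∑ J ∈ cells a T c, ∑ J' ∈ cells b (sub a T c J) c, g J' = ∑ J' ∈ cells b T c, g J' := by
  classical
  rw [← Finset.sum_biUnion]
  · refine Finset.sum_congr ?_ fun _ _ => rfl
    ext J'
    rw [Finset.mem_biUnion]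
    constructor
    · rintro ⟨J, -, hJ'⟩
      obtain ⟨i, hi, h⟩ := mem_cells.1 hJ'
      exact mem_cells.2 ⟨i, sub_subset J hi, h⟩
    · intro hJ'
      obtain ⟨i, hi, h⟩ := mem_cells.1 hJ'
      exact ⟨cl a (c i), cl_mem_cells hi, mem_cells.2 ⟨i, mem_sub.2 ⟨hi, rfl⟩, h⟩⟩
  · intro J₁ _ J₂ _ hne
    refine Finset.disjoint_left.2 fun J' h1 h2 => hne ?_
    obtain ⟨i, hi, h⟩ := mem_cells.1 h1
    obtain ⟨j, hj, h'⟩ := mem_cells.1 h2
    rw [← (mem_sub.1 hi).2, ← (mem_sub.1 hj).2]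
    exact cl_eq_of_le hab (h.trans h'.symm)

/-! ### Frequencies of a part -/

/-- A box at scale `N` is contained in the box at the scale `2^a ≤ N` about a point at a distance
at most `2^(-a)`. -/
lemma box_subset {A : Matrix (Fin r) (Fin r) ℝ} {b N : ℝ} (hb : 0 ≤ b) (hN : (2 : ℝ) ^ a ≤ N)
    {ξ η : Fin r → ℝ} (h : ‖ξ - η‖ ≤ 1 / 2 ^ a) :
    Box A b N ξ ⊆ Box A (b + 1) ((2 : ℝ) ^ a) η := by
  have h2 : (0 : ℝ) < 2 ^ a := by positivity
  have h1 : b / N ≤ b / 2 ^ a := div_le_div_of_nonneg_left hb h2 hN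
  have h3 : b / N ^ 2 ≤ (b + 1) / ((2 : ℝ) ^ a) ^ 2 := by
    refine (div_le_div_of_nonneg_left hb (by positivity)
      (pow_le_pow_left₀ h2.le hN 2)).trans ?_
    exact div_le_div_of_nonneg_right (by linarith) (by positivity)
  rintro w ⟨hw1, hw2⟩
  refine ⟨?_, hw2.trans h3⟩
  have h4 : w.1 - η = (w.1 - ξ) + (ξ - η) := by abel
  rw [h4, add_div]
  exact (norm_add_le _ _).trans (add_le_add (hw1.trans h1) h)

/-- A part is a trigonometric sum with frequencies in one box at the scale of the part. -/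
lemma part_trig {A : Matrix (Fin r) (Fin r) ℝ} {b N : ℝ} (hb : 0 ≤ b) (hN : (2 : ℝ) ^ a ≤ N)
    {F : ι → X r → ℂ} (hF : ∀ i ∈ T, Trig (F i) (Box A b N (c i))) {J : Fin r → ℤ} {i₀ : ι}
    (hi₀ : i₀ ∈ sub a T c J) : Trig (part a T c F J) (Box A (b + 1) ((2 : ℝ) ^ a) (c i₀)) := by
  unfold part
  exact Trig.sum _ fun i hi => (hF i (sub_subset J hi)).mono
    (box_subset hb hN (norm_sub_le_of_mem_sub hi hi₀))

/-- A part is a trigonometric sum with frequencies over the union of the boxes of its members. -/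
lemma part_trig' {fr : ι → Set (X r)} {F : ι → X r → ℂ} (hF : ∀ i ∈ T, Trig (F i) (fr i))
    (J : Fin r → ℤ) : Trig (part a T c F J) {w | ∃ i ∈ sub a T c J, w ∈ fr i} := by
  unfold part
  exact Trig.sum _ fun i hi => (hF i (sub_subset J hi)).mono fun w hw => ⟨i, hi, hw⟩

lemma part_continuous {fr : ι → Set (X r)} {F : ι → X r → ℂ}
    (hF : ∀ i ∈ T, Trig (F i) (fr i)) (J : Fin r → ℤ) : Continuous (part a T c F J) :=
  (part_trig' hF J).continuous

end cells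

end DEC
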