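import Pool.Agent.DEC.StmtsC

/-!
# l^2 decoupling, block C: the gain of the iteration
-/

namespace DEC

namespace CGain

theorem geo (θ : ℝ) (m : ℕ) :
    ∑ j ∈ Finset.range m, θ * (1 - θ) ^ j = 1 - (1 - θ) ^ m := by
  induction m with
  | zero => simp
  | succ m ih =>
    rw [Finset.sum_range_succ, ih]
    ring

theorem low (θ : ℝ) (h1 : θ ≤ 1 / 2) (m : ℕ) :
    1 + (m : ℝ) / 2
      ≤ (2 * (1 - θ)) ^ m + ∑ j ∈ Finset.range m, θ * (2 * (1 - θ)) ^ j := by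
  induction m with
  | zero => simp
  | succ m ih =>
    rw [Finset.sum_range_succ, pow_succ]
    have hu : (1 : ℝ) ≤ (2 * (1 - θ)) ^ m := one_le_pow₀ (by linarith)
    push_cast
    nlinarith

end CGain

theorem t_Gain : Stmt_C_Gain := by
  intro θ m _ h1
  have e1 : ∑ j ∈ Finset.range m, θ * (1 - θ) ^ j * (1 - 2 ^ j / 2 ^ m)
      = ∑ j ∈ Finset.range m, θ * (1 - θ) ^ j
        - (∑ j ∈ Finset.range m, θ * (2 * (1 - θ)) ^ j) / 2 ^ m := by
    rw [Finset.sum_div, ← Finset.sum_sub_distrib]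
    refine Finset.sum_congr rfl fun j _ => ?_
    rw [mul_pow]
    ring
  rw [e1, CGain.geo]
  have h2 := CGain.low θ h1 m
  have hp : (0 : ℝ) < 2 ^ m := by positivity
  have e2 : (1 - θ) ^ m = (2 * (1 - θ)) ^ m / 2 ^ m := by
    rw [mul_pow]
    field_simp
  rw [e2]
  have h3 : (1 + (m : ℝ) / 2) / 2 ^ m
      ≤ ((2 * (1 - θ)) ^ m + ∑ j ∈ Finset.range m, θ * (2 * (1 - θ)) ^ j) / 2 ^ m :=
    div_le_div_of_nonneg_right h2 hp.le
  rw [add_div ((2 * (1 - θ)) ^ m)] at h3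
  linarith

end DEC
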