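import Pool.Agent.DEC.StmtsC

/-!
# l^2 decoupling, block C: the beginning of the chain
-/

open MeasureTheory
open scoped ENNReal Matrix

namespace DEC

namespace CH0

/-- The constant of the product. -/
theorem const_prod {r : ℕ} {p C R : ℝ} (hC : 0 < C) (hR : 0 < R) :
    (ENNReal.ofReal (C * R ^ ((r : ℝ) + 1)) ^ (p / (2 * ((r : ℝ) + 1)))) ^ (r + 1) =
      ENNReal.ofReal (C ^ (p / 2) * R ^ (((r : ℝ) + 1) * p / 2)) := by
  have hr : (0 : ℝ) < (r : ℝ) + 1 := by positivity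
  have hpos : 0 < C * R ^ ((r : ℝ) + 1) := mul_pos hC (Real.rpow_pos_of_pos hR _)
  rw [← ENNReal.rpow_natCast, ← ENNReal.rpow_mul, ENNReal.ofReal_rpow_of_pos hpos]
  congr 1
  have e : p / (2 * ((r : ℝ) + 1)) * ((r + 1 : ℕ) : ℝ) = p / 2 := by
    push_cast; field_simp
  rw [e, Real.mul_rpow hC.le (Real.rpow_nonneg hR.le _), ← Real.rpow_mul hR.le]
  congr 2
  ring

end CH0

theorem t_CH0 (h1 : Stmt_C_OrthC) (h2 : Stmt_WtBasic) (h3 : Stmt_AvBasic) : Stmt_C_CH0 := by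
  intro r p b α hp hb hα
  obtain ⟨C, hC, hO⟩ := h1 r α b hα hb
  refine ⟨C ^ (p / 2), Real.rpow_pos_of_pos hC _, ?_⟩
  intro N a haN A ι S c F hF T hT w
  have hR1 : (1 : ℝ) ≤ (2 : ℝ) ^ a := one_le_pow₀ (by norm_num)
  set R : ℝ := (2 : ℝ) ^ a with hRdef
  have hR : 0 < R := by linarith
  have hq : 0 ≤ p / (2 * ((r : ℝ) + 1)) := by positivity
  have hk : ∀ z k, av 1 α (pw 2 fun y => ∑ i ∈ T k, F i y) z ≤
      ENNReal.ofReal (C * R ^ ((r : ℝ) + 1)) *
        ∑ J ∈ cells a (T k) c, av R α (pw 2 (part a (T k) c F J)) z := by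
    intro z k
    have e1 : av 1 α (pw 2 fun y => ∑ i ∈ T k, F i y) z ≤
        ENNReal.ofReal (R ^ ((r : ℝ) + 1)) * av R α (pw 2 fun y => ∑ i ∈ T k, F i y) z := by
      unfold av
      rw [← lintegral_const_mul' _ _ ENNReal.ofReal_ne_top]
      apply lintegral_mono
      intro y
      have h4 := h3.2.1 r α 1 R (z - y) hα one_pos hR1
      rw [div_one] at h4
      calc (pw 2 fun y => ∑ i ∈ T k, F i y) y * wt 1 α (z - y)
          ≤ (pw 2 fun y => ∑ i ∈ T k, F i y) y *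
            (ENNReal.ofReal (R ^ ((r : ℝ) + 1)) * wt R α (z - y)) := mul_le_mul_right h4 _
        _ = _ := by ring
    have e2 : av R α (pw 2 fun y => ∑ i ∈ T k, F i y) z ≤
        ENNReal.ofReal C * ∑ J ∈ cells a (T k) c, av R α (pw 2 (part a (T k) c F J)) z :=
      hO N a haN A ι (T k) c F (fun i hi => hF.trig i (hT k hi)) _ ((h2 r R α hR hα).2.2 z)
    calc av 1 α (pw 2 fun y => ∑ i ∈ T k, F i y) z
        ≤ ENNReal.ofReal (R ^ ((r : ℝ) + 1)) * (ENNReal.ofReal C *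
          ∑ J ∈ cells a (T k) c, av R α (pw 2 (part a (T k) c F J)) z) :=
          e1.trans (mul_le_mul_right e2 _)
      _ = _ := by rw [ENNReal.ofReal_mul hC.le]; ring
  have hfin : ENNReal.ofReal (C ^ (p / 2) * R ^ (((r : ℝ) + 1) * p / 2)) ≠ ⊤ :=
    ENNReal.ofReal_ne_top
  unfold Ch
  rw [← lintegral_const_mul' _ _ hfin]
  apply lintegral_mono
  intro z
  have hprod : (∏ k, (av 1 α (pw 2 fun y => ∑ i ∈ T k, F i y) z) ^ (p / (2 * ((r : ℝ) + 1)))) ≤
      ENNReal.ofReal (C ^ (p / 2) * R ^ (((r : ℝ) + 1) * p / 2)) *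
        ∏ k, (∑ J ∈ cells a (T k) c, av R α (pw 2 (part a (T k) c F J)) z)
          ^ (p / (2 * ((r : ℝ) + 1))) := by
    calc (∏ k, (av 1 α (pw 2 fun y => ∑ i ∈ T k, F i y) z) ^ (p / (2 * ((r : ℝ) + 1))))
        ≤ ∏ k : Fin (r + 1), (ENNReal.ofReal (C * R ^ ((r : ℝ) + 1)) ^ (p / (2 * ((r : ℝ) + 1))) *
          (∑ J ∈ cells a (T k) c, av R α (pw 2 (part a (T k) c F J)) z)
            ^ (p / (2 * ((r : ℝ) + 1)))) := by
          apply Finset.prod_le_prod'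
          intro k _
          rw [← ENNReal.mul_rpow_of_nonneg _ _ hq]
          exact ENNReal.rpow_le_rpow (hk z k) hq
      _ = _ := by
          rw [Finset.prod_mul_distrib, Finset.prod_const, Finset.card_univ, Fintype.card_fin,
            CH0.const_prod hC hR]
  calc _ ≤ (ENNReal.ofReal (C ^ (p / 2) * R ^ (((r : ℝ) + 1) * p / 2)) *
        ∏ k, (∑ J ∈ cells a (T k) c, av R α (pw 2 (part a (T k) c F J)) z)
          ^ (p / (2 * ((r : ℝ) + 1)))) * w z := mul_le_mul_left hprod _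
    _ = _ := by ring

end DEC
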