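import Pool.Agent.DEC.StmtsC
import Pool.Agent.DEC.WBasic

/-!
# DEC, module C_CH1: one step of the multiscale chain
-/

open MeasureTheory
open scoped ENNReal Matrix

namespace DEC

namespace CH1

variable {r : ℕ} {ι : Type}

/-- The parent at scale `a` of a cube at scale `2a`. -/
def par (r a : ℕ) (J : Fin r → ℤ) : Fin r → ℤ := fun i => J i / ((2 ^ a : ℕ) : ℤ)

theorem par_cl (a : ℕ) (ξ : Fin r → ℝ) : par r a (cl (2 * a) ξ) = cl a ξ := by
  funext i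
  unfold par cl
  rw [← Int.floor_div_natCast]
  congr 1
  push_cast
  rw [two_mul, pow_add, mul_assoc, mul_div_cancel_left₀ _ (by positivity)]

theorem mem_sub {a : ℕ} {T : Finset ι} {c : ι → Fin r → ℝ} {J : Fin r → ℤ} {i : ι} :
    i ∈ sub a T c J ↔ i ∈ T ∧ cl a (c i) = J := by
  unfold sub
  rw [Finset.mem_filter]

theorem mem_cells {a : ℕ} {T : Finset ι} {c : ι → Fin r → ℝ} {J : Fin r → ℤ} :
    J ∈ cells a T c ↔ ∃ i ∈ T, cl a (c i) = J := by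
  unfold cells
  rw [Finset.mem_image]

theorem sub_sub_eq (a : ℕ) (T : Finset ι) (c : ι → Fin r → ℝ) (J J' : Fin r → ℤ)
    (h : J' ∈ cells (2 * a) (sub a T c J) c) :
    sub (2 * a) (sub a T c J) c J' = sub (2 * a) T c J' := by
  obtain ⟨i, hi, hi'⟩ := mem_cells.1 h
  obtain ⟨hiT, hiJ⟩ := mem_sub.1 hi
  ext k
  rw [mem_sub, mem_sub, mem_sub]
  constructor
  · rintro ⟨⟨h1, h2⟩, h3⟩
    exact ⟨h1, h3⟩
  · rintro ⟨h1, h3⟩
    refine ⟨⟨h1, ?_⟩, h3⟩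
    rw [← hiJ, ← par_cl a (c k), ← par_cl a (c i), h3, hi']

open Classical in
theorem cells_fiber (a : ℕ) (T : Finset ι) (c : ι → Fin r → ℝ) (J : Fin r → ℤ) :
    cells (2 * a) (sub a T c J) c = {J' ∈ cells (2 * a) T c | par r a J' = J} := by
  ext J'
  rw [Finset.mem_filter, mem_cells, mem_cells]
  constructor
  · rintro ⟨i, hi, hi'⟩
    obtain ⟨hiT, hiJ⟩ := mem_sub.1 hi
    exact ⟨⟨i, hiT, hi'⟩, by rw [← hi', par_cl, hiJ]⟩
  · rintro ⟨⟨i, hiT, hi'⟩, hJ⟩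
    exact ⟨i, mem_sub.2 ⟨hiT, by rw [← par_cl, hi', hJ]⟩, hi'⟩

/-- the sum over the cells of the cells is the sum over the cells -/
theorem sum_cells (a : ℕ) (T : Finset ι) (c : ι → Fin r → ℝ) (F : ι → X r → ℂ)
    (g : (X r → ℂ) → ℝ≥0∞) :
    ∑ J ∈ cells a T c, ∑ J' ∈ cells (2 * a) (sub a T c J) c,
        g (part (2 * a) (sub a T c J) c F J') =
      ∑ J' ∈ cells (2 * a) T c, g (part (2 * a) T c F J') := by
  classical
  have hmap : ∀ J' ∈ cells (2 * a) T c, par r a J' ∈ cells a T c := by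
    intro J' hJ'
    obtain ⟨i, hiT, hi'⟩ := mem_cells.1 hJ'
    exact mem_cells.2 ⟨i, hiT, by rw [← hi', par_cl]⟩
  rw [← Finset.sum_fiberwise_of_maps_to hmap (fun J' => g (part (2 * a) T c F J'))]
  refine Finset.sum_congr rfl fun J _ => ?_
  rw [← cells_fiber]
  refine Finset.sum_congr rfl fun J' hJ' => ?_
  unfold part
  rw [sub_sub_eq a T c J J' hJ']

theorem measurable_part {a : ℕ} {T : Finset ι} {c : ι → Fin r → ℝ} {F : ι → X r → ℂ}
    (hF : ∀ i ∈ T, Measurable (F i)) (J : Fin r → ℤ) : Measurable (part a T c F J) := by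
  unfold part
  exact Finset.measurable_sum _ fun i hi => hF i (mem_sub.1 hi).1

/-- the passage from the cells at scale `a` to those at scale `2a` -/
theorem refine_cells (h4 : Stmt_C_OrthC) (h5 : Stmt_WtBasic) (r : ℕ) (b α : ℝ) (hb : 1 ≤ b)
    (hα : 0 ≤ α) : ∃ C : ℝ, 0 < C ∧ ∀ (N : ℝ) (a : ℕ), ((2 : ℝ) ^ a) ^ 2 ≤ N →
    ∀ (A : Matrix (Fin r) (Fin r) ℝ) (ι : Type) (T : Finset ι) (c : ι → Fin r → ℝ)
      (F : ι → X r → ℂ), (∀ i ∈ T, Trig (F i) (Box A b N (c i))) → ∀ z : X r,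
        ∑ J ∈ cells a T c, av (((2 : ℝ) ^ a) ^ 2) α (pw 2 (part a T c F J)) z ≤
          ENNReal.ofReal C *
            ∑ J ∈ cells (2 * a) T c, av ((2 : ℝ) ^ (2 * a)) α (pw 2 (part (2 * a) T c F J)) z := by
  obtain ⟨C, hC, h⟩ := h4 r α b hα hb
  refine ⟨C, hC, fun N a haN A ι T c F hF z => ?_⟩
  have e : ((2 : ℝ) ^ a) ^ 2 = (2 : ℝ) ^ (2 * a) := by
    rw [← pow_mul, mul_comm]
  rw [← sum_cells a T c F (fun G => av ((2 : ℝ) ^ (2 * a)) α (pw 2 G) z), Finset.mul_sum]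
  refine Finset.sum_le_sum fun J _ => ?_
  have hw : Wt ((2 : ℝ) ^ (2 * a)) α fun y : X r => wt ((2 : ℝ) ^ (2 * a)) α (z - y) :=
    (h5 r ((2 : ℝ) ^ (2 * a)) α (by positivity) hα).2.2 z
  have h1 := h N (2 * a) (e ▸ haN) A ι (sub a T c J) c F (fun i hi => hF i (mem_sub.1 hi).1)
    _ hw
  rw [e]
  exact h1

end CH1

open CH1 in
theorem t_CH1 (h1 : Stmt_C_Up) (h2 : Stmt_C_Int) (h3 : Stmt_C_Last) (h4 : Stmt_C_OrthC)
    (h5 : Stmt_WtBasic) : Stmt_C_CH1 := by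
  intro r p s θ E l L b α hr hp hs hθ0 hθ1 hsθ hE hl hb hα
  have hr0 : (0 : ℝ) < (r : ℝ) + 1 := by positivity
  have hα0 : 0 ≤ α := by
    have : (0 : ℝ) ≤ r := Nat.cast_nonneg r
    linarith
  have hs2 : 2 ≤ s := by
    rw [hs]
    exact le_max_left _ _
  have hps : p * r ≤ s * (r + 1) := by
    have : p * r / (r + 1) ≤ s := by
      rw [hs]
      exact le_max_right _ _
    rwa [div_le_iff₀ hr0] at this
  obtain ⟨α', hα', hup⟩ := h1 r p s E l L b α hr hp hs2 hps hE hl hb hα0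
  refine ⟨α', hα', fun ν ε hν hε => ?_⟩
  obtain ⟨C₁, hC₁, hup⟩ := hup ν ε hν hε
  obtain ⟨C₂, hC₂, hlast⟩ := h3 r p E α hp hE hα
  obtain ⟨C₃, hC₃, href⟩ := refine_cells h4 h5 r b α hb hα0
  set e : ℝ := p / (2 * ((r : ℝ) + 1)) with he
  have he0 : 0 ≤ e := by
    have : 0 ≤ p := by linarith
    positivity
  refine ⟨C₁ * (((C₃ ^ e) ^ (r + 1)) ^ (1 - θ) * C₂ ^ θ), by positivity, ?_⟩
  intro N a haN A ι S c F hA hFam T hT hTr w hw
  have ha1 : (1 : ℝ) ≤ ((2 : ℝ) ^ a) ^ 2 := by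
    have : (1 : ℝ) ≤ 2 ^ a := one_le_pow₀ (by norm_num)
    nlinarith
  have hN1 : 1 ≤ N := ha1.trans haN
  have hN2 : ((2 : ℝ) ^ a) ^ 2 ≤ N ^ 2 := haN.trans (by nlinarith)
  have hwb := (h5 r (N ^ 2) E (by positivity) hE).1 w hw
  have hwm : Measurable w := hwb.1
  have hwt : Wt (((2 : ℝ) ^ a) ^ 2) E w := hwb.2 _ E (by positivity) hN2 le_rfl
  have hFm : ∀ k, ∀ i ∈ T k, Measurable (F i) := fun k i hi =>
    (hFam.trig i (hT k hi)).continuous.measurable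
  have hGm : ∀ (k : Fin (r + 1)) (J : Fin r → ℤ), Measurable (part a (T k) c F J) :=
    fun k J => measurable_part (hFm k) J
  have s1 := hup N a haN A ι S c F hA hFam T hT hTr w hw
  have s2 := h2 r p s θ (((2 : ℝ) ^ a) ^ 2) α hp hs2 hθ0 hθ1 hsθ (by positivity) (Fin r → ℤ)
    (fun k => cells a (T k) c) (fun k J => part a (T k) c F J) w hGm hwm
  have s3 := hlast (((2 : ℝ) ^ a) ^ 2) (by positivity) (Fin r → ℤ)
    (fun k => cells a (T k) c) (fun k J => part a (T k) c F J) w hGm hwm hwt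
  rw [← he] at s2
  -- the first factor
  have s4 : ∫⁻ z, (∏ k, (∑ J ∈ cells a (T k) c,
      av (((2 : ℝ) ^ a) ^ 2) α (pw 2 (part a (T k) c F J)) z) ^ e) * w z ≤
      ENNReal.ofReal ((C₃ ^ e) ^ (r + 1)) * Ch p α (2 * a) T c F w := by
    unfold Ch
    rw [← he, ← lintegral_const_mul' _ _ ENNReal.ofReal_ne_top]
    refine lintegral_mono fun z => ?_
    change _ ≤ _ * (_ * _)
    rw [← mul_assoc]
    refine mul_le_mul_left ?_ _
    calc ∏ k, (∑ J ∈ cells a (T k) c,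
          av (((2 : ℝ) ^ a) ^ 2) α (pw 2 (part a (T k) c F J)) z) ^ e
        ≤ ∏ k : Fin (r + 1), (ENNReal.ofReal (C₃ ^ e) * (∑ J ∈ cells (2 * a) (T k) c,
          av ((2 : ℝ) ^ (2 * a)) α (pw 2 (part (2 * a) (T k) c F J)) z) ^ e) := by
          refine Finset.prod_le_prod' fun k _ => ?_
          rw [← ENNReal.ofReal_rpow_of_pos hC₃, ← ENNReal.mul_rpow_of_nonneg _ _ he0]
          exact ENNReal.rpow_le_rpow (href N a haN A ι (T k) c F
            (fun i hi => hFam.trig i (hT k hi)) z) he0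
      _ = ENNReal.ofReal ((C₃ ^ e) ^ (r + 1)) * ∏ k, (∑ J ∈ cells (2 * a) (T k) c,
          av ((2 : ℝ) ^ (2 * a)) α (pw 2 (part (2 * a) (T k) c F J)) z) ^ e := by
          rw [Finset.prod_mul_distrib, Finset.prod_const, Finset.card_univ, Fintype.card_fin,
            ENNReal.ofReal_pow (by positivity)]
  have s5 : ∏ k, (∑ J ∈ cells a (T k) c, nw p w (part a (T k) c F J) ^ (2 : ℝ)) ^ e =
      ∏ k, Sg p w a (T k) c F ^ e := rfl
  rw [s5] at s3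
  have hθ' : 0 ≤ 1 - θ := by linarith
  calc Ch p α' a T c F w
      ≤ ENNReal.ofReal (C₁ * ((2 : ℝ) ^ a) ^ ε) *
          ((ENNReal.ofReal ((C₃ ^ e) ^ (r + 1)) * Ch p α (2 * a) T c F w) ^ (1 - θ) *
          (ENNReal.ofReal C₂ * ∏ k, Sg p w a (T k) c F ^ e) ^ θ) := by
        refine s1.trans (mul_le_mul_right (s2.trans ?_) _)
        exact mul_le_mul' (ENNReal.rpow_le_rpow s4 hθ') (ENNReal.rpow_le_rpow s3 hθ0)
    _ = ENNReal.ofReal (C₁ * (((C₃ ^ e) ^ (r + 1)) ^ (1 - θ) * C₂ ^ θ) * ((2 : ℝ) ^ a) ^ ε) *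
          (Ch p α (2 * a) T c F w) ^ (1 - θ) *
          (∏ k, Sg p w a (T k) c F ^ e) ^ θ := by
        have hk : ENNReal.ofReal
            (C₁ * (((C₃ ^ e) ^ (r + 1)) ^ (1 - θ) * C₂ ^ θ) * ((2 : ℝ) ^ a) ^ ε) =
            ENNReal.ofReal (C₁ * ((2 : ℝ) ^ a) ^ ε) *
              (ENNReal.ofReal (((C₃ ^ e) ^ (r + 1)) ^ (1 - θ)) * ENNReal.ofReal (C₂ ^ θ)) := by
          rw [← ENNReal.ofReal_mul (by positivity), ← ENNReal.ofReal_mul (by positivity)]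
          congr 1
          ring
        rw [ENNReal.mul_rpow_of_nonneg _ _ hθ', ENNReal.mul_rpow_of_nonneg _ _ hθ0,
          ENNReal.ofReal_rpow_of_pos (by positivity), ENNReal.ofReal_rpow_of_pos hC₂, hk]
        ring

end DEC
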