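import Pool.Agent.DEC.StmtsC
import Pool.Agent.DEC.WBasic

/-!
# l^2 decoupling, block C: the end of the chain (module C_CH2)
-/

open MeasureTheory
open scoped ENNReal Matrix

namespace DEC

namespace CH2

variable {r : ℕ}

/-- Two points of the same cell. -/
lemma dist_cell (a : ℕ) (ξ η : Fin r → ℝ) (h : cl a ξ = cl a η) : ‖ξ - η‖ ≤ 1 / 2 ^ a := by
  have h2 : (0 : ℝ) < 2 ^ a := by positivity
  rw [pi_norm_le_iff_of_nonneg (by positivity)]
  intro k
  have h1 : ⌊(2 : ℝ) ^ a * ξ k⌋ = ⌊(2 : ℝ) ^ a * η k⌋ := congrFun h k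
  have h3 := Int.abs_sub_lt_one_of_floor_eq_floor h1
  rw [← mul_sub, abs_mul, abs_of_pos h2] at h3
  rw [Pi.sub_apply, Real.norm_eq_abs, le_div_iff₀ h2, mul_comm]
  exact h3.le

lemma mem_sub {ι : Type} {a : ℕ} {T : Finset ι} {c : ι → Fin r → ℝ} {J : Fin r → ℤ} {i : ι} :
    i ∈ sub a T c J ↔ i ∈ T ∧ cl a (c i) = J := by
  unfold sub
  rw [Finset.mem_filter]

/-- The number of members over one cell. -/
lemma card_sub (h : Stmt_Cnt) {ι : Type} (T : Finset ι) (c : ι → Fin r → ℝ) (N : ℝ) (a : ℕ)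
    (hN : (2 : ℝ) ^ a ≤ N) (hs : ∀ i ∈ T, ∀ j ∈ T, i ≠ j → 1 / N ≤ ‖c i - c j‖) (J : Fin r → ℤ) :
    ((sub a T c J).card : ℝ) ≤ (3 * (N / 2 ^ a)) ^ r := by
  have h2 : (0 : ℝ) < 2 ^ a := by positivity
  have hN0 : 0 < N := lt_of_lt_of_le h2 hN
  have hq : 1 ≤ N / 2 ^ a := (one_le_div h2).mpr hN
  rcases (sub a T c J).eq_empty_or_nonempty with he | ⟨i₀, hi₀⟩
  · rw [he, Finset.card_empty, Nat.cast_zero]; positivity
  · have h3 := h r N (1 / 2 ^ a) ι (sub a T c J) c (c i₀) hN0 (by positivity)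
      (fun i hi j hj hij => hs i (mem_sub.mp hi).1 j (mem_sub.mp hj).1 hij)
      (fun i hi => dist_cell a _ _ ((mem_sub.mp hi).2.trans (mem_sub.mp hi₀).2.symm))
    refine h3.trans (pow_le_pow_left₀ (by positivity) ?_ _)
    have : 2 * (1 / 2 ^ a) * N = 2 * (N / 2 ^ a) := by ring
    rw [this]; linarith

/-- The cells partition the family. -/
lemma sum_cells {ι : Type} (a : ℕ) (T : Finset ι) (c : ι → Fin r → ℝ) (f : ι → ℝ≥0∞) :
    ∑ J ∈ cells a T c, ∑ i ∈ sub a T c J, f i = ∑ i ∈ T, f i := by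
  unfold cells sub
  exact Finset.sum_fiberwise_of_maps_to (fun i hi => Finset.mem_image_of_mem _ hi) f

/-- Cauchy-Schwarz. -/
lemma pw_sum_le {ι : Type} (s : Finset ι) (F : ι → X r → ℂ) (y : X r) :
    pw 2 (fun y => ∑ i ∈ s, F i y) y ≤ (s.card : ℝ≥0∞) * ∑ i ∈ s, pw 2 (F i) y := by
  unfold pw
  refine (ENNReal.rpow_le_rpow (enorm_sum_le _ _) (by norm_num)).trans ?_
  have h := ENNReal.rpow_sum_le_const_mul_sum_rpow (s := s) (f := fun i => ‖F i y‖ₑ)
    (p := 2) (by norm_num)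
  have h1 : ((2 : ℝ) - 1) = 1 := by norm_num
  rwa [h1, ENNReal.rpow_one] at h

lemma av_sum {ι : Type} (s : Finset ι) (R α : ℝ) (f : ι → X r → ℝ≥0∞)
    (hf : ∀ i ∈ s, Measurable (f i)) (z : X r) :
    av R α (fun y => ∑ i ∈ s, f i y) z = ∑ i ∈ s, av R α (f i) z := by
  unfold av
  simp only [Finset.sum_mul]
  refine lintegral_finsetSum' _ fun i hi => ?_
  exact ((hf i hi).mul ((measurable_wt R α).comp (measurable_const.sub measurable_id))).aemeasurable

lemma av_const_mul (R α : ℝ) (C : ℝ≥0∞) (hC : C ≠ ∞) (f : X r → ℝ≥0∞) (z : X r) :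
    av R α (fun y => C * f y) z = C * av R α f z := by
  unfold av
  rw [← lintegral_const_mul' _ _ hC]
  simp only [mul_assoc]

/-- Jensen for the averages. -/
lemma jensen {R α q : ℝ} (hq : 1 ≤ q) {f : X r → ℝ≥0∞} (hf : Measurable f) (z : X r) (C : ℝ≥0∞)
    (hC : ∫⁻ u : X r, wt R α u = C) :
    av R α f z ^ q ≤ C ^ (q - 1) * av R α (fun y => f y ^ q) z := by
  have hq0 : 0 < q := by linarith
  have hk : ∫⁻ y : X r, wt R α (z - y) = C := by
    rw [lintegral_sub_left_eq_self (fun y => wt R α y) z, hC]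
  have hmk : Measurable fun y : X r => wt R α (z - y) :=
    (measurable_wt R α).comp (measurable_const.sub measurable_id)
  have hi : (0 : ℝ) ≤ 1 / q := by positivity
  have hi1 : (0 : ℝ) ≤ 1 - 1 / q := by
    rw [sub_nonneg, div_le_one hq0]; exact hq
  have h1 : av R α f z ≤ (av R α (fun y => f y ^ q) z) ^ (1 / q) * C ^ (1 - 1 / q) := by
    have h2 := ENNReal.lintegral_mul_norm_pow_le (μ := volume)
      (f := fun y : X r => f y ^ q * wt R α (z - y)) (g := fun y : X r => wt R α (z - y))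
      ((hf.pow_const q).mul hmk).aemeasurable hmk.aemeasurable hi hi1 (by ring)
    rw [hk] at h2
    refine le_trans (le_of_eq ?_) h2
    unfold av
    refine lintegral_congr fun y => ?_
    rw [ENNReal.mul_rpow_of_nonneg _ _ hi, ← ENNReal.rpow_mul, mul_one_div_cancel hq0.ne',
      ENNReal.rpow_one, mul_assoc, ← ENNReal.rpow_add_of_nonneg _ _ hi hi1]
    simp
  refine (ENNReal.rpow_le_rpow h1 hq0.le).trans (le_of_eq ?_)
  rw [ENNReal.mul_rpow_of_nonneg _ _ hq0.le, ← ENNReal.rpow_mul, ← ENNReal.rpow_mul,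
    one_div_mul_cancel hq0.ne', ENNReal.rpow_one, mul_comm]
  congr 2
  field_simp

/-- Minkowski for finite sums. -/
lemma minkowski {ι : Type} (μ : Measure (X r)) (s : Finset ι) (h : ι → X r → ℝ≥0∞)
    (hm : ∀ i ∈ s, Measurable (h i)) {q : ℝ} (hq : 1 ≤ q) :
    (∫⁻ z, (∑ i ∈ s, h i z) ^ q ∂μ) ^ (1 / q) ≤ ∑ i ∈ s, (∫⁻ z, h i z ^ q ∂μ) ^ (1 / q) := by
  classical
  have hq0 : 0 < q := by linarith
  induction s using Finset.induction_on with
  | empty =>
    simp only [Finset.sum_empty]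
    rw [ENNReal.zero_rpow_of_pos hq0, lintegral_zero, ENNReal.zero_rpow_of_pos (by positivity)]
  | insert i s hi ih =>
    have hms : Measurable fun z => ∑ j ∈ s, h j z :=
      Finset.measurable_fun_sum s fun j hj => hm j (Finset.mem_insert_of_mem hj)
    have h1 := ENNReal.lintegral_Lp_add_le (μ := μ)
      (hm i (Finset.mem_insert_self i s)).aemeasurable hms.aemeasurable hq
    simp only [Pi.add_apply] at h1
    rw [Finset.sum_insert hi]
    simp only [Finset.sum_insert hi]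
    exact h1.trans (add_le_add le_rfl (ih fun j hj => hm j (Finset.mem_insert_of_mem hj)))

/-- The sum over the cells is controlled by the sum over the members. -/
lemma cells_le (h : Stmt_Cnt) {ι : Type} (T : Finset ι) (c : ι → Fin r → ℝ) (F : ι → X r → ℂ)
    (N : ℝ) (a : ℕ) (hN : (2 : ℝ) ^ a ≤ N)
    (hs : ∀ i ∈ T, ∀ j ∈ T, i ≠ j → 1 / N ≤ ‖c i - c j‖)
    (hF : ∀ i ∈ T, Measurable (pw 2 (F i))) (R α : ℝ) (z : X r) :
    ∑ J ∈ cells a T c, av R α (pw 2 (part a T c F J)) z ≤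
      ENNReal.ofReal ((3 * (N / 2 ^ a)) ^ r) * ∑ i ∈ T, av R α (pw 2 (F i)) z := by
  rw [← sum_cells a T c fun i => av R α (pw 2 (F i)) z, Finset.mul_sum]
  refine Finset.sum_le_sum fun J _ => ?_
  have h1 : ∀ y, pw 2 (part a T c F J) y ≤ ((sub a T c J).card : ℝ≥0∞) *
      ∑ i ∈ sub a T c J, pw 2 (F i) y := fun y => pw_sum_le _ _ _
  refine (av_mono h1 z).trans ?_
  rw [av_const_mul _ _ _ (ENNReal.natCast_ne_top _),
    av_sum _ _ _ _ fun i hi => hF i (mem_sub.mp hi).1]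
  refine mul_le_mul' ?_ le_rfl
  rw [← ENNReal.ofReal_natCast]
  exact ENNReal.ofReal_le_ofReal (card_sub h T c N a hN hs J)

end CH2

open CH2 in
theorem t_CH2 (h1 : Stmt_AvBasic) (h2 : Stmt_Cnt) (h3 : Stmt_WtBasic) : Stmt_C_CH2 := by
  intro r p E b α hp hE hb hα
  obtain ⟨hA1, -, -, hA4⟩ := h1
  obtain ⟨C1, hC1, hm1⟩ := hA1 r α (by linarith)
  obtain ⟨C2, hC2, hm2⟩ := hA4 r α E hE hα
  obtain ⟨q, hq⟩ : ∃ q : ℝ, q = p / 2 := ⟨_, rfl⟩
  have hq1 : 1 ≤ q := by rw [hq]; linarith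
  have hq0 : 0 < q := by linarith
  obtain ⟨K, hK⟩ : ∃ K : ℝ, K = (3 : ℝ) ^ ((r : ℝ) * q) * (C1 ^ (q - 1) * C2) := ⟨_, rfl⟩
  have hK0 : 0 < K := by rw [hK]; positivity
  refine ⟨K + r * q, by positivity, ?_⟩
  intro N a hN A ι S c F hF T hT w hw
  have hR : (0 : ℝ) < 2 ^ a := by positivity
  have hR1 : (1 : ℝ) ≤ 2 ^ a := one_le_pow₀ (by norm_num)
  have hN1 : 1 ≤ N := hR1.trans hN
  have hx1 : 1 ≤ N / 2 ^ a := (one_le_div hR).mpr hN
  obtain ⟨x, hx⟩ : ∃ x : ℝ, x = N / 2 ^ a := ⟨_, rfl⟩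
  have hww := (h3 r (N ^ 2) E (by positivity) hE).1 w hw
  have hwR : Wt ((2 : ℝ) ^ a) E w := hww.2 _ E hR (by nlinarith) le_rfl
  have hwm : Measurable w := hww.1
  have hFc : ∀ i ∈ S, ∀ s : ℝ, Measurable (pw s (F i)) := fun i hi s => (hF.trig i hi).measurable_pw s
  -- the pointwise bound
  obtain ⟨M, hM⟩ : ∃ M : ℝ≥0∞, M = ENNReal.ofReal ((3 * (N / 2 ^ a)) ^ r) := ⟨_, rfl⟩
  have hMt : M ≠ ∞ := by rw [hM]; exact ENNReal.ofReal_ne_top
  obtain ⟨H, hH⟩ : ∃ H : X r → ℝ≥0∞,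
    H = fun z => ∑ i ∈ S, av ((2 : ℝ) ^ a) α (pw 2 (F i)) z := ⟨_, rfl⟩
  have hpt : ∀ z, (∏ k, (∑ J ∈ cells a (T k) c,
      av ((2 : ℝ) ^ a) α (pw 2 (part a (T k) c F J)) z) ^ (p / (2 * ((r : ℝ) + 1)))) * w z ≤
      M ^ q * (w z * H z ^ q) := by
    intro z
    have he : 0 ≤ p / (2 * ((r : ℝ) + 1)) := by positivity
    have h4 : ∀ k, (∑ J ∈ cells a (T k) c,
        av ((2 : ℝ) ^ a) α (pw 2 (part a (T k) c F J)) z) ≤ M * H z := by
      intro k
      refine (cells_le h2 (T k) c F N a hN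
        (fun i hi j hj hij => hF.sep i (hT k hi) j (hT k hj) hij)
        (fun i hi => hFc i (hT k hi) 2) _ α z).trans ?_
      rw [hM, hH]
      exact mul_le_mul' le_rfl (Finset.sum_le_sum_of_subset (hT k))
    have h5 : (∏ k : Fin (r + 1), (∑ J ∈ cells a (T k) c,
        av ((2 : ℝ) ^ a) α (pw 2 (part a (T k) c F J)) z) ^ (p / (2 * ((r : ℝ) + 1)))) ≤
        (M * H z) ^ q := by
      refine (Finset.prod_le_prod' fun k _ => ENNReal.rpow_le_rpow (h4 k) he).trans ?_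
      rw [Finset.prod_const, Finset.card_univ, Fintype.card_fin, ← ENNReal.rpow_natCast,
        ← ENNReal.rpow_mul]
      refine le_of_eq ?_
      congr 1
      rw [hq]
      push_cast
      field_simp
    refine (mul_le_mul' h5 le_rfl).trans (le_of_eq ?_)
    rw [ENNReal.mul_rpow_of_nonneg _ _ hq0.le, mul_assoc, mul_comm (H z ^ q)]
  have hCh : Ch p α a T c F w ≤ M ^ q * ∫⁻ z, w z * H z ^ q := by
    unfold Ch
    refine (lintegral_mono hpt).trans ?_
    rw [lintegral_const_mul' _ _ (ENNReal.rpow_ne_top_of_nonneg hq0.le hMt)]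
  -- Minkowski
  have hmh : ∀ i ∈ S, Measurable (av ((2 : ℝ) ^ a) α (pw 2 (F i))) :=
    fun i hi => measurable_av (hFc i hi 2)
  have hmH : Measurable H := by
    rw [hH]
    exact Finset.measurable_fun_sum S hmh
  have hwd : ∀ g : X r → ℝ≥0∞, Measurable g →
      ∫⁻ z, w z * g z = ∫⁻ z, g z ∂(volume.withDensity w) := by
    intro g hg
    rw [lintegral_withDensity_eq_lintegral_mul _ hwm hg]
    rfl
  obtain ⟨L, hL⟩ : ∃ L : ℝ≥0∞, L = ENNReal.ofReal C1 ^ (q - 1) * ENNReal.ofReal C2 := ⟨_, rfl⟩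
  have hterm : ∀ i ∈ S, ∫⁻ z, av ((2 : ℝ) ^ a) α (pw 2 (F i)) z ^ q ∂(volume.withDensity w) ≤
      L * nw p w (F i) ^ p := by
    intro i hi
    rw [← hwd _ ((hmh i hi).pow_const q)]
    have h4 : ∀ z, w z * av ((2 : ℝ) ^ a) α (pw 2 (F i)) z ^ q ≤
        ENNReal.ofReal C1 ^ (q - 1) * (av ((2 : ℝ) ^ a) α (pw p (F i)) z * w z) := by
      intro z
      have h5 := jensen (R := (2 : ℝ) ^ a) (α := α) hq1 (hFc i hi 2) z _ (hm1 _ hR)
      have h6 : (fun y => pw 2 (F i) y ^ q) = pw p (F i) := by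
        funext y
        unfold pw
        rw [← ENNReal.rpow_mul]
        congr 1
        rw [hq]; ring
      rw [h6] at h5
      calc w z * av ((2 : ℝ) ^ a) α (pw 2 (F i)) z ^ q
          ≤ w z * (ENNReal.ofReal C1 ^ (q - 1) * av ((2 : ℝ) ^ a) α (pw p (F i)) z) :=
            mul_le_mul' le_rfl h5
        _ = ENNReal.ofReal C1 ^ (q - 1) * (av ((2 : ℝ) ^ a) α (pw p (F i)) z * w z) := by ring
    refine (lintegral_mono h4).trans ?_
    rw [lintegral_const_mul' _ _ (ENNReal.rpow_ne_top_of_nonneg (by linarith) ENNReal.ofReal_ne_top),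
      hL, mul_assoc]
    refine mul_le_mul' le_rfl ?_
    have h7 := (hm2 _ w hR hwR (pw p (F i)) (hFc i hi p)).1
    refine h7.trans (mul_le_mul' le_rfl (le_of_eq ?_))
    unfold nw pw
    rw [← ENNReal.rpow_mul, one_div_mul_cancel (by linarith), ENNReal.rpow_one]
  have hMink : ∫⁻ z, w z * H z ^ q ≤ L * sq p w S F ^ p := by
    rw [hwd _ (hmH.pow_const q)]
    have h4 := minkowski (volume.withDensity w) S (fun i => av ((2 : ℝ) ^ a) α (pw 2 (F i))) hmh hq1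
    have h5 : (∫⁻ z, H z ^ q ∂(volume.withDensity w)) ^ (1 / q) ≤
        ∑ i ∈ S, (L ^ (1 / q) * nw p w (F i) ^ (2 : ℝ)) := by
      rw [hH]
      refine h4.trans (Finset.sum_le_sum fun i hi => ?_)
      refine (ENNReal.rpow_le_rpow (hterm i hi) (by positivity)).trans (le_of_eq ?_)
      rw [ENNReal.mul_rpow_of_nonneg _ _ (by positivity), ← ENNReal.rpow_mul]
      congr 2
      rw [hq]
      field_simp
    rw [← Finset.mul_sum] at h5
    have h6 := ENNReal.rpow_le_rpow h5 hq0.le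
    rw [← ENNReal.rpow_mul, one_div_mul_cancel hq0.ne', ENNReal.rpow_one,
      ENNReal.mul_rpow_of_nonneg _ _ hq0.le, ← ENNReal.rpow_mul, one_div_mul_cancel hq0.ne',
      ENNReal.rpow_one] at h6
    refine h6.trans (le_of_eq ?_)
    unfold sq
    rw [← ENNReal.rpow_mul]
    congr 2
    rw [hq]; ring
  refine hCh.trans ((mul_le_mul' le_rfl hMink).trans ?_)
  rw [← mul_assoc]
  refine mul_le_mul' ?_ le_rfl
  rw [hM, hL, ENNReal.ofReal_rpow_of_nonneg (by positivity) hq0.le,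
    ENNReal.ofReal_rpow_of_pos hC1, ← ENNReal.ofReal_mul (by positivity),
    ← ENNReal.ofReal_mul (by positivity)]
  refine ENNReal.ofReal_le_ofReal ?_
  rw [← hx] at hx1 ⊢
  have hx0 : 0 < x := by linarith
  have h8 : ((3 * x) ^ r) ^ q = 3 ^ ((r : ℝ) * q) * x ^ ((r : ℝ) * q) := by
    rw [← Real.rpow_natCast, ← Real.rpow_mul (by positivity),
      Real.mul_rpow (by norm_num) hx0.le]
  rw [h8]
  calc 3 ^ ((r : ℝ) * q) * x ^ ((r : ℝ) * q) * (C1 ^ (q - 1) * C2)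
      = K * x ^ ((r : ℝ) * q) := by rw [hK]; ring
    _ ≤ (K + r * q) * x ^ (K + r * q) := by
      have h9 : x ^ ((r : ℝ) * q) ≤ x ^ (K + r * q) :=
        Real.rpow_le_rpow_of_exponent_le hx1 (by linarith)
      have h10 : 0 ≤ (r : ℝ) * q := by positivity
      exact mul_le_mul (by linarith) h9 (by positivity) (by linarith)

end DEC
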