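import Pool.Agent.DEC.StmtsC
import Pool.Agent.DEC.CBasic

/-!
# l^2 decoupling, block C: the square function of the parts, by rescaling
-/

open MeasureTheory
open scoped ENNReal Matrix

namespace DEC

namespace CHS

/-- The square of the square function norm. -/
theorem sq_sq {r : ℕ} {ι : Type} (p : ℝ) (w : X r → ℝ≥0∞) (S : Finset ι) (F : ι → X r → ℂ) :
    (sq p w S F) ^ (2 : ℝ) = ∑ i ∈ S, nw p w (F i) ^ (2 : ℝ) := by
  unfold sq
  rw [← ENNReal.rpow_mul]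
  norm_num

end CHS

theorem t_CHS (h1 : Stmt_PR) : Stmt_C_CHS := by
  intro r p E l L hp hE hl
  obtain ⟨C, hC, hPR⟩ := h1 r p E l L 1 (by linarith) hE hl
  refine ⟨C, hC, ?_⟩
  intro b N D a haN hD hDec A ι S T c F hA hF hTS w hw
  have hR1 : (1 : ℝ) ≤ (2 : ℝ) ^ a := one_le_pow₀ (by norm_num)
  have hJ : ∀ J ∈ cells a T c, nw p w (part a T c F J) ^ (2 : ℝ) ≤
      ENNReal.ofReal (C * D) ^ (2 : ℝ) * ∑ i ∈ sub a T c J, nw p w (F i) ^ (2 : ℝ) := by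
    intro J hJ
    obtain ⟨i₀, hi₀⟩ := exists_mem_sub hJ
    have hsS : ∀ i ∈ sub a T c J, i ∈ S := fun i hi => hTS (sub_subset J hi)
    have h := hPR b N ((2 : ℝ) ^ a) D hR1 haN hD hDec A ι (sub a T c J) c F (c i₀) hA
      (fun i hi j hj hij => hF.sep i (hsS i hi) j (hsS j hj) hij)
      (fun i hi => hF.trig i (hsS i hi)) (hF.ball i₀ (hsS i₀ hi₀))
      (fun i hi => norm_sub_le_of_mem_sub hi hi₀) w hw
    rw [← CHS.sq_sq, ← ENNReal.mul_rpow_of_nonneg _ _ (by norm_num : (0 : ℝ) ≤ 2)]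
    exact ENNReal.rpow_le_rpow h (by norm_num)
  unfold Sg
  calc ∑ J ∈ cells a T c, nw p w (part a T c F J) ^ (2 : ℝ)
      ≤ ∑ J ∈ cells a T c, ENNReal.ofReal (C * D) ^ (2 : ℝ) *
          ∑ i ∈ sub a T c J, nw p w (F i) ^ (2 : ℝ) := Finset.sum_le_sum hJ
    _ = ENNReal.ofReal (C * D) ^ (2 : ℝ) * ∑ i ∈ T, nw p w (F i) ^ (2 : ℝ) := by
        rw [← Finset.mul_sum, sum_cells (fun i => nw p w (F i) ^ (2 : ℝ))]
    _ ≤ ENNReal.ofReal (C * D) ^ (2 : ℝ) * ∑ i ∈ S, nw p w (F i) ^ (2 : ℝ) :=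
        mul_le_mul_right (Finset.sum_le_sum_of_subset hTS) _
    _ = (ENNReal.ofReal (C * D) * sq p w S F) ^ (2 : ℝ) := by
        rw [ENNReal.mul_rpow_of_nonneg _ _ (by norm_num : (0 : ℝ) ≤ 2), CHS.sq_sq]

end DEC
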