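import Pool.Agent.DEC.StmtsC
import Pool.Agent.DEC.WBasic

/-!
# l^2 decoupling, block C: interpolation of the exponent (pure Hoelder)
-/

open MeasureTheory
open scoped ENNReal Matrix

namespace DEC

namespace CInt

/-- Hoelder for finite sums with weights `1 - θ`, `θ`. -/
lemma sum_le {κ : Type} (J : Finset κ) (x y : κ → ℝ≥0∞) {u v : ℝ} (hu : 0 ≤ u) (hv : 0 ≤ v)
    (huv : u + v = 1) :
    ∑ j ∈ J, x j ^ u * y j ^ v ≤ (∑ j ∈ J, x j) ^ u * (∑ j ∈ J, y j) ^ v := by
  let _ : MeasurableSpace κ := ⊤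
  have _ : MeasurableSingletonClass κ := ⟨fun _ => trivial⟩
  have h := ENNReal.lintegral_mul_norm_pow_le (μ := Measure.count.restrict (J : Set κ))
    (f := x) (g := y) (measurable_from_top.aemeasurable) (measurable_from_top.aemeasurable)
    hu hv huv
  rw [lintegral_finset, lintegral_finset, lintegral_finset] at h
  simpa only [Measure.count_singleton, mul_one] using h

/-- The rearrangement `(a w)^u (b w)^v = a^u b^v w`. -/
lemma mul_aux (a b w : ℝ≥0∞) {u v : ℝ} (hu : 0 ≤ u) (hv : 0 ≤ v) (huv : u + v = 1) :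
    (a * w) ^ u * (b * w) ^ v = a ^ u * b ^ v * w := by
  rw [ENNReal.mul_rpow_of_nonneg _ _ hu, ENNReal.mul_rpow_of_nonneg _ _ hv]
  have h : w ^ u * w ^ v = w := by
    rw [← ENNReal.rpow_add_of_nonneg u v hu hv, huv, ENNReal.rpow_one]
  calc a ^ u * w ^ u * (b ^ v * w ^ v) = a ^ u * b ^ v * (w ^ u * w ^ v) := by ring
    _ = a ^ u * b ^ v * w := by rw [h]

/-- One function. -/
lemma av_le {r : ℕ} {p s θ R α : ℝ} (hp : 2 ≤ p) (hs : 2 ≤ s) (h0 : 0 ≤ θ) (h1 : θ ≤ 1)
    (hθ : 1 / s = (1 - θ) / 2 + θ / p) {G : X r → ℂ} (hG : Measurable G) (z : X r) :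
    av R α (pw s G) z ^ (2 / s) ≤ av R α (pw 2 G) z ^ (1 - θ) * (av R α (pw p G) z ^ (2 / p)) ^ θ := by
  have hp0 : 0 < p := by linarith
  have hs0 : 0 < s := by linarith
  set u : ℝ := s * (1 - θ) / 2 with hu
  set v : ℝ := s * θ / p with hv
  have hu0 : 0 ≤ u := by rw [hu]; exact div_nonneg (mul_nonneg hs0.le (by linarith)) (by norm_num)
  have hv0 : 0 ≤ v := by rw [hv]; exact div_nonneg (mul_nonneg hs0.le h0) hp0.le
  have huv : u + v = 1 := by
    have e : u + v = s * ((1 - θ) / 2 + θ / p) := by rw [hu, hv]; ring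
    rw [e, ← hθ]
    field_simp
  have hsum : 2 * u + p * v = s := by
    rw [hu, hv]
    field_simp
    ring
  have hm2 : Measurable (pw 2 G) := by unfold pw; exact hG.enorm.pow_const 2
  have hmp : Measurable (pw p G) := by unfold pw; exact hG.enorm.pow_const p
  have hwt : Measurable fun y : X r => wt R α (z - y) :=
    (measurable_wt R α).comp (measurable_const.sub measurable_id)
  have key : av R α (pw s G) z ≤ av R α (pw 2 G) z ^ u * av R α (pw p G) z ^ v := by
    unfold av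
    have h := ENNReal.lintegral_mul_norm_pow_le (μ := (volume : Measure (X r)))
      (f := fun y => pw 2 G y * wt R α (z - y)) (g := fun y => pw p G y * wt R α (z - y))
      (hm2.mul hwt).aemeasurable (hmp.mul hwt).aemeasurable hu0 hv0 huv
    refine le_trans (le_of_eq ?_) h
    refine lintegral_congr fun y => ?_
    rw [mul_aux _ _ _ hu0 hv0 huv]
    congr 1
    unfold pw
    rw [← ENNReal.rpow_mul, ← ENNReal.rpow_mul,
      ← ENNReal.rpow_add_of_nonneg _ _ (by positivity) (by positivity), hsum]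
  have h2s : 0 ≤ 2 / s := by positivity
  refine le_trans (ENNReal.rpow_le_rpow key h2s) (le_of_eq ?_)
  rw [ENNReal.mul_rpow_of_nonneg _ _ h2s, ← ENNReal.rpow_mul, ← ENNReal.rpow_mul,
    ← ENNReal.rpow_mul]
  congr 2
  · rw [hu]; field_simp
  · rw [hv]; field_simp

end CInt

open CInt in
/-- Interpolation of the exponent between `2` and `p`. -/
theorem t_Int : Stmt_C_Int := by
  intro r p s θ R α hp hs h0 h1 hθ hR κ J G w hG hw
  have hp0 : 0 < p := by linarith
  have hθ1 : 0 ≤ 1 - θ := by linarith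
  have hsum1 : (1 - θ) + θ = 1 := by ring
  set q : ℝ := p / (2 * ((r : ℝ) + 1)) with hq
  have hq0 : 0 ≤ q := by rw [hq]; positivity
  have hm2 : ∀ k j, Measurable (av R α (pw 2 (G k j))) := fun k j =>
    measurable_av (by unfold pw; exact (hG k j).enorm.pow_const 2)
  have hmp : ∀ k j, Measurable (av R α (pw p (G k j))) := fun k j =>
    measurable_av (by unfold pw; exact (hG k j).enorm.pow_const p)
  have hP : Measurable fun z : X r => ∏ k, (∑ j ∈ J k, av R α (pw 2 (G k j)) z) ^ q :=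
    Finset.measurable_fun_prod _ fun k _ =>
      (Finset.measurable_fun_sum _ fun j _ => hm2 k j).pow_const q
  have hQ : Measurable fun z : X r =>
      ∏ k, (∑ j ∈ J k, av R α (pw p (G k j)) z ^ (2 / p)) ^ q :=
    Finset.measurable_fun_prod _ fun k _ =>
      (Finset.measurable_fun_sum _ fun j _ => (hmp k j).pow_const _).pow_const q
  have hpt : ∀ z : X r, ∏ k, (∑ j ∈ J k, av R α (pw s (G k j)) z ^ (2 / s)) ^ q ≤
      (∏ k, (∑ j ∈ J k, av R α (pw 2 (G k j)) z) ^ q) ^ (1 - θ) *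
        (∏ k, (∑ j ∈ J k, av R α (pw p (G k j)) z ^ (2 / p)) ^ q) ^ θ := by
    intro z
    rw [← ENNReal.prod_rpow_of_nonneg hθ1, ← ENNReal.prod_rpow_of_nonneg h0,
      ← Finset.prod_mul_distrib]
    refine Finset.prod_le_prod' fun k _ => ?_
    rw [← ENNReal.rpow_mul, ← ENNReal.rpow_mul, mul_comm q (1 - θ), mul_comm q θ,
      ENNReal.rpow_mul, ENNReal.rpow_mul, ← ENNReal.mul_rpow_of_nonneg _ _ hq0]
    refine ENNReal.rpow_le_rpow ?_ hq0
    refine le_trans (Finset.sum_le_sum fun j _ => av_le hp hs h0 h1 hθ (hG k j) z) ?_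
    exact sum_le (J k) _ _ hθ1 h0 hsum1
  refine le_trans (lintegral_mono fun z => mul_le_mul_left (hpt z) (w z)) ?_
  have h := ENNReal.lintegral_mul_norm_pow_le (μ := (volume : Measure (X r)))
    (hP.mul hw).aemeasurable (hQ.mul hw).aemeasurable hθ1 h0 hsum1
  refine le_trans (le_of_eq ?_) h
  refine lintegral_congr fun z => ?_
  exact (mul_aux _ _ _ hθ1 h0 hsum1).symm

end DEC
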