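import Pool.Agent.DEC.StmtsC

/-!
# l^2 decoupling, block C: the abstract iteration
-/

namespace DEC

namespace CIt

/-- The exponent of the `i`-th step (from the end). -/
noncomputable def Se (θ : ℝ) (m i : ℕ) : ℝ :=
  ∑ k ∈ Finset.range i, θ * (1 - θ) ^ k * (1 - 2 ^ (m - i + k) / 2 ^ m)

theorem Se_zero (θ : ℝ) (m : ℕ) : Se θ m 0 = 0 := by simp [Se]

theorem Se_succ (θ : ℝ) {m i : ℕ} (h : i < m) :
    Se θ m (i + 1) = θ * (1 - 2 ^ (m - (i + 1)) / 2 ^ m) + (1 - θ) * Se θ m i := by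
  rw [Se, Finset.sum_range_succ', Se, Finset.mul_sum]
  have h1 : ∀ k ∈ Finset.range i, θ * (1 - θ) ^ (k + 1) * (1 - 2 ^ (m - (i + 1) + (k + 1)) / 2 ^ m) =
      (1 - θ) * (θ * (1 - θ) ^ k * (1 - (2 : ℝ) ^ (m - i + k) / 2 ^ m)) := by
    intro k _
    have : m - (i + 1) + (k + 1) = m - i + k := by omega
    rw [this, pow_succ]
    ring
  rw [Finset.sum_congr rfl h1]
  simp only [pow_zero, mul_one, add_zero]
  ring

theorem Se_nonneg {θ : ℝ} (h0 : 0 ≤ θ) (h1 : θ ≤ 1) {m i : ℕ} (h : i ≤ m) : 0 ≤ Se θ m i := by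
  refine Finset.sum_nonneg fun k hk => ?_
  have hk' := Finset.mem_range.1 hk
  have h2 : (2 : ℝ) ^ (m - i + k) / 2 ^ m ≤ 1 := by
    rw [div_le_one (by positivity)]
    exact pow_le_pow_right₀ (by norm_num) (by omega)
  have h3 : 0 ≤ (1 - θ) ^ k := pow_nonneg (by linarith) k
  have h4 : 0 ≤ 1 - (2 : ℝ) ^ (m - i + k) / 2 ^ m := by linarith
  positivity

/-- The ratio of the scales. -/
theorem ratio {N : ℝ} {m a₀ j : ℕ} (hN : 1 ≤ N) (hN2 : N < (2 : ℝ) ^ (2 ^ m * (a₀ + 1))) :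
    N / (2 : ℝ) ^ (2 ^ j * a₀) ≤ N ^ (1 - (2 : ℝ) ^ j / 2 ^ m) * (2 : ℝ) ^ (2 ^ j) := by
  have hN0 : 0 < N := by linarith
  have hx : 0 ≤ (2 : ℝ) ^ j / 2 ^ m := by positivity
  have h1 : N ^ ((2 : ℝ) ^ j / 2 ^ m) ≤ (2 : ℝ) ^ (2 ^ j * a₀) * (2 : ℝ) ^ (2 ^ j) := by
    calc N ^ ((2 : ℝ) ^ j / 2 ^ m) ≤ ((2 : ℝ) ^ (2 ^ m * (a₀ + 1))) ^ ((2 : ℝ) ^ j / 2 ^ m) :=
          Real.rpow_le_rpow hN0.le hN2.le hx
      _ = (2 : ℝ) ^ (2 ^ j * (a₀ + 1)) := by
          rw [← Real.rpow_natCast 2 (2 ^ m * (a₀ + 1)), ← Real.rpow_mul (by norm_num),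
            ← Real.rpow_natCast 2 (2 ^ j * (a₀ + 1))]
          congr 1
          have h2 : (2 : ℝ) ^ m ≠ 0 := by positivity
          push_cast
          field_simp
      _ = (2 : ℝ) ^ (2 ^ j * a₀) * (2 : ℝ) ^ (2 ^ j) := by
          rw [mul_add, mul_one, pow_add]
  rw [div_le_iff₀ (by positivity)]
  calc N = N ^ (1 - (2 : ℝ) ^ j / 2 ^ m) * N ^ ((2 : ℝ) ^ j / 2 ^ m) := by
        rw [← Real.rpow_add hN0, sub_add_cancel, Real.rpow_one]
    _ ≤ N ^ (1 - (2 : ℝ) ^ j / 2 ^ m) * ((2 : ℝ) ^ (2 ^ j * a₀) * (2 : ℝ) ^ (2 ^ j)) :=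
        mul_le_mul_of_nonneg_left h1 (Real.rpow_nonneg hN0.le _)
    _ = N ^ (1 - (2 : ℝ) ^ j / 2 ^ m) * (2 : ℝ) ^ (2 ^ j) * (2 : ℝ) ^ (2 ^ j * a₀) := by ring

end CIt

open CIt in
/-- **C_It.** -/
theorem t_It (h1 : Stmt_C_Gain) : Stmt_C_It := by
  intro m p lam θ ε B hp hlam hθ0 hθ1 hε hB
  set K : ℝ := B * (((2 : ℝ) ^ (2 ^ m)) ^ lam) ^ (p * θ) with hK
  have h2m : (1 : ℝ) ≤ (2 : ℝ) ^ (2 ^ m) := one_le_pow₀ (by norm_num)
  have h2l : (1 : ℝ) ≤ ((2 : ℝ) ^ (2 ^ m)) ^ lam := Real.one_le_rpow h2m hlam.le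
  have hpθ : 0 ≤ p * θ := mul_nonneg (by linarith) hθ0
  have h2p : (1 : ℝ) ≤ (((2 : ℝ) ^ (2 ^ m)) ^ lam) ^ (p * θ) := Real.one_le_rpow h2l hpθ
  have hK1 : 1 ≤ K := one_le_mul_of_one_le_of_one_le hB h2p
  have hθ' : θ ≤ 1 := by linarith
  refine ⟨B * K ^ m, by positivity, ?_⟩
  intro N a₀ Y hN hN1 hN2 hY hYm hstep
  have hN0 : 0 < N := by linarith
  have key : ∀ i, i ≤ m → Y (m - i) ≤ B * K ^ i * N ^ (i * ε + p * lam * Se θ m i) := by
    intro i
    induction i with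
    | zero =>
      intro _
      rw [Se_zero, Nat.cast_zero, zero_mul, mul_zero, add_zero, Real.rpow_zero, pow_zero, mul_one,
        mul_one, Nat.sub_zero]
      exact hYm
    | succ i ih =>
      intro hi
      have hij : m - (i + 1) + 1 = m - i := by omega
      have hih := ih (by omega)
      have h2 := hstep (m - (i + 1)) (by omega)
      rw [hij] at h2
      set j := m - (i + 1) with hj
      have hS := Se_succ θ (m := m) (i := i) (by omega)
      rw [← hj] at hS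
      have hSn : 0 ≤ Se θ m i := Se_nonneg hθ0 hθ' (by omega)
      set Sx := Se θ m i with hSx
      set e : ℝ := (i : ℝ) * ε + p * lam * Sx with he
      have he0 : 0 ≤ e := by
        have : 0 ≤ p * lam * Sx := by
          have : 0 ≤ p := by linarith
          positivity
        positivity
      -- the power of the previous bound
      have hC1 : 1 ≤ B * K ^ i := one_le_mul_of_one_le_of_one_le hB (one_le_pow₀ hK1)
      have h3 : Y (m - i) ^ (1 - θ) ≤ B * K ^ i * N ^ ((1 - θ) * e) := by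
        calc Y (m - i) ^ (1 - θ) ≤ (B * K ^ i * N ^ e) ^ (1 - θ) :=
              Real.rpow_le_rpow (hY _) hih (by linarith)
          _ = (B * K ^ i) ^ (1 - θ) * N ^ ((1 - θ) * e) := by
              rw [Real.mul_rpow (by positivity) (Real.rpow_nonneg hN0.le _), ← Real.rpow_mul hN0.le,
                mul_comm e]
          _ ≤ (B * K ^ i) ^ (1 : ℝ) * N ^ ((1 - θ) * e) := by
              refine mul_le_mul_of_nonneg_right ?_ (Real.rpow_nonneg hN0.le _)
              exact Real.rpow_le_rpow_of_exponent_le hC1 (by linarith)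
          _ = B * K ^ i * N ^ ((1 - θ) * e) := by rw [Real.rpow_one]
      -- the ratio
      have hr := ratio (j := j) hN hN2
      have hr0 : 0 ≤ N / (2 : ℝ) ^ (2 ^ j * a₀) := by positivity
      set x : ℝ := 1 - (2 : ℝ) ^ j / 2 ^ m with hx
      have h4 : (((N / (2 : ℝ) ^ (2 ^ j * a₀)) ^ lam) ^ p) ^ θ ≤
          N ^ (p * lam * (θ * x)) * (((2 : ℝ) ^ (2 ^ m)) ^ lam) ^ (p * θ) := by
        have h5 : (N / (2 : ℝ) ^ (2 ^ j * a₀)) ^ lam ≤ N ^ (x * lam) * ((2 : ℝ) ^ (2 ^ m)) ^ lam := by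
          calc (N / (2 : ℝ) ^ (2 ^ j * a₀)) ^ lam ≤ (N ^ x * (2 : ℝ) ^ (2 ^ j)) ^ lam :=
                Real.rpow_le_rpow hr0 hr hlam.le
            _ = N ^ (x * lam) * ((2 : ℝ) ^ (2 ^ j)) ^ lam := by
                rw [Real.mul_rpow (Real.rpow_nonneg hN0.le _) (by positivity),
                  ← Real.rpow_mul hN0.le]
            _ ≤ N ^ (x * lam) * ((2 : ℝ) ^ (2 ^ m)) ^ lam := by
                refine mul_le_mul_of_nonneg_left ?_ (Real.rpow_nonneg hN0.le _)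
                refine Real.rpow_le_rpow (by positivity) ?_ hlam.le
                refine pow_le_pow_right₀ (by norm_num) ?_
                exact Nat.pow_le_pow_right (by norm_num) (by omega)
        rw [← Real.rpow_mul (Real.rpow_nonneg hr0 _)]
        calc ((N / (2 : ℝ) ^ (2 ^ j * a₀)) ^ lam) ^ (p * θ)
            ≤ (N ^ (x * lam) * ((2 : ℝ) ^ (2 ^ m)) ^ lam) ^ (p * θ) :=
              Real.rpow_le_rpow (Real.rpow_nonneg hr0 _) h5 hpθ
          _ = N ^ (x * lam * (p * θ)) * (((2 : ℝ) ^ (2 ^ m)) ^ lam) ^ (p * θ) := by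
              rw [Real.mul_rpow (Real.rpow_nonneg hN0.le _) (by positivity),
                ← Real.rpow_mul hN0.le]
          _ = N ^ (p * lam * (θ * x)) * (((2 : ℝ) ^ (2 ^ m)) ^ lam) ^ (p * θ) := by
              congr 2
              ring
      have hBN : 0 ≤ B * N ^ ε := mul_nonneg (by linarith) (Real.rpow_nonneg hN0.le _)
      have hq : 0 ≤ (((N / (2 : ℝ) ^ (2 ^ j * a₀)) ^ lam) ^ p) ^ θ :=
        Real.rpow_nonneg (Real.rpow_nonneg (Real.rpow_nonneg hr0 _) _) _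
      have hT : 0 ≤ B * K ^ i * N ^ ((1 - θ) * e) :=
        mul_nonneg (by positivity) (Real.rpow_nonneg hN0.le _)
      calc Y j ≤ B * N ^ ε * Y (m - i) ^ (1 - θ) *
            (((N / (2 : ℝ) ^ (2 ^ j * a₀)) ^ lam) ^ p) ^ θ := h2
        _ ≤ B * N ^ ε * (B * K ^ i * N ^ ((1 - θ) * e)) *
            (((N / (2 : ℝ) ^ (2 ^ j * a₀)) ^ lam) ^ p) ^ θ :=
            mul_le_mul_of_nonneg_right (mul_le_mul_of_nonneg_left h3 hBN) hq
        _ ≤ B * N ^ ε * (B * K ^ i * N ^ ((1 - θ) * e)) *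
            (N ^ (p * lam * (θ * x)) * (((2 : ℝ) ^ (2 ^ m)) ^ lam) ^ (p * θ)) :=
            mul_le_mul_of_nonneg_left h4 (mul_nonneg hBN hT)
        _ = B * K ^ (i + 1) * (N ^ ε * N ^ ((1 - θ) * e) * N ^ (p * lam * (θ * x))) := by
            rw [pow_succ, hK]
            ring
        _ = B * K ^ (i + 1) * N ^ (ε + (1 - θ) * e + p * lam * (θ * x)) := by
            rw [← Real.rpow_add hN0, ← Real.rpow_add hN0]
        _ ≤ B * K ^ (i + 1) * N ^ (((i + 1 : ℕ) : ℝ) * ε + p * lam * Se θ m (i + 1)) := by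
            refine mul_le_mul_of_nonneg_left ?_ (by positivity)
            refine Real.rpow_le_rpow_of_exponent_le hN ?_
            rw [hS, he]
            push_cast
            have h6 : 0 ≤ θ * ((i : ℝ) * ε) := by positivity
            nlinarith
  have h3 := key m le_rfl
  rw [Nat.sub_self] at h3
  have h4 : Se θ m m ≤ 1 - (1 + (m : ℝ) / 2) / 2 ^ m := by
    have h5 := h1 θ m hθ0 hθ1
    have h6 : Se θ m m = ∑ j ∈ Finset.range m, θ * (1 - θ) ^ j * (1 - 2 ^ j / 2 ^ m) := by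
      rw [Se]
      refine Finset.sum_congr rfl fun k _ => ?_
      rw [Nat.sub_self, zero_add]
    rw [h6]
    exact h5
  refine h3.trans ?_
  refine mul_le_mul_of_nonneg_left ?_ (by positivity)
  refine Real.rpow_le_rpow_of_exponent_le hN ?_
  have h5 : 0 ≤ p * lam := mul_nonneg (by linarith) hlam.le
  have h6 := mul_le_mul_of_nonneg_left h4 h5
  nlinarith

end DEC
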