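import Pool.Agent.DEC.StmtsC
import Pool.Agent.DEC.WBasic

/-!
# C_Last: the term with the exponent `p`
-/

open MeasureTheory
open scoped ENNReal Matrix

namespace DEC

namespace CLast

/-- Minkowski's inequality for finite sums of nonnegative functions. -/
theorem mink {α κ : Type*} [MeasurableSpace α] (μ : Measure α) {q : ℝ} (hq : 1 ≤ q)
    (J : Finset κ) (f : κ → α → ℝ≥0∞) (hf : ∀ j, Measurable (f j)) :
    (∫⁻ a, (∑ j ∈ J, f j a) ^ q ∂μ) ^ (1 / q) ≤ ∑ j ∈ J, (∫⁻ a, f j a ^ q ∂μ) ^ (1 / q) := by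
  classical
  have hq0 : 0 < q := by linarith
  induction J using Finset.induction_on with
  | empty =>
    simp only [Finset.sum_empty]
    rw [ENNReal.zero_rpow_of_pos hq0, lintegral_zero, ENNReal.zero_rpow_of_pos (by positivity)]
  | insert i S hi ih =>
    have hS : Measurable fun a => ∑ j ∈ S, f j a := Finset.measurable_sum _ fun j _ => hf j
    have h1 := ENNReal.lintegral_Lp_add_le (μ := μ) (p := q) (hf i).aemeasurable hS.aemeasurable hq
    rw [Finset.sum_insert hi]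
    have e : (∫⁻ a, (∑ j ∈ insert i S, f j a) ^ q ∂μ)
        = ∫⁻ a, ((f i + fun a => ∑ j ∈ S, f j a) a) ^ q ∂μ := by
      refine lintegral_congr fun a => ?_
      rw [Finset.sum_insert hi]
      rfl
    rw [e]
    exact h1.trans (add_le_add le_rfl ih)

theorem dens {r : ℕ} {w : X r → ℝ≥0∞} (hw : Measurable w) {f : X r → ℝ≥0∞} (hf : Measurable f) :
    ∫⁻ z, f z ∂(volume.withDensity w) = ∫⁻ z, f z * w z := by
  rw [lintegral_withDensity_eq_lintegral_mul _ hw hf]
  refine lintegral_congr fun z => ?_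
  rw [Pi.mul_apply, mul_comm]

theorem nw_sq {r : ℕ} {p : ℝ} (w : X r → ℝ≥0∞) (F : X r → ℂ) :
    nw p w F ^ (2 : ℝ) = (∫⁻ z, pw p F z * w z) ^ (2 / p) := by
  unfold nw pw
  rw [← ENNReal.rpow_mul]
  congr 1
  ring

end CLast

open CLast in
theorem t_Last (h1 : Stmt_AvBasic) : Stmt_C_Last := by
  intro r p E α hp hE hα
  obtain ⟨C, hC, hAv⟩ := h1.2.2.2 r α E hE hα
  refine ⟨C, hC, fun R hR κ J G w hG hw hWt => ?_⟩
  have hn : (0 : ℝ) < (r : ℝ) + 1 := by positivity
  have hp0 : 0 < p := by linarith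
  have hpw : ∀ k j, Measurable (pw p (G k j)) := fun k j => (hG k j).enorm.pow_const _
  have hav : ∀ k j, Measurable (av R α (pw p (G k j))) := fun k j => measurable_av (hpw k j)
  have hf : ∀ k j, Measurable fun z => av R α (pw p (G k j)) z ^ (2 / p) :=
    fun k j => (hav k j).pow_const _
  have hH : ∀ k, Measurable fun z => (∑ j ∈ J k, av R α (pw p (G k j)) z ^ (2 / p)) ^ (p / 2) :=
    fun k => (Finset.measurable_sum _ fun j _ => hf k j).pow_const _
  -- one factor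
  have key : ∀ k, ∫⁻ z, (∑ j ∈ J k, av R α (pw p (G k j)) z ^ (2 / p)) ^ (p / 2)
      ∂(volume.withDensity w)
      ≤ ENNReal.ofReal C * (∑ j ∈ J k, nw p w (G k j) ^ (2 : ℝ)) ^ (p / 2) := by
    intro k
    have h2 := mink (volume.withDensity w) (q := p / 2) (by linarith) (J k)
      (fun j z => av R α (pw p (G k j)) z ^ (2 / p)) (hf k)
    have h3 : ∀ j, (∫⁻ z, (av R α (pw p (G k j)) z ^ (2 / p)) ^ (p / 2)
        ∂(volume.withDensity w)) ^ (1 / (p / 2))
        ≤ ENNReal.ofReal C ^ (2 / p) * nw p w (G k j) ^ (2 : ℝ) := by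
      intro j
      have e1 : ∀ z, (av R α (pw p (G k j)) z ^ (2 / p)) ^ (p / 2) = av R α (pw p (G k j)) z := by
        intro z
        rw [← ENNReal.rpow_mul, show 2 / p * (p / 2) = 1 by field_simp, ENNReal.rpow_one]
      have e2 : (1 : ℝ) / (p / 2) = 2 / p := by field_simp
      simp only [e1]
      rw [dens hw (hav k j), e2, nw_sq, ← ENNReal.mul_rpow_of_nonneg _ _ (by positivity)]
      exact ENNReal.rpow_le_rpow (hAv R w hR hWt _ (hpw k j)).1 (by positivity)
    have h4 : (∫⁻ z, (∑ j ∈ J k, av R α (pw p (G k j)) z ^ (2 / p)) ^ (p / 2)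
        ∂(volume.withDensity w)) ^ (1 / (p / 2))
        ≤ ENNReal.ofReal C ^ (2 / p) * ∑ j ∈ J k, nw p w (G k j) ^ (2 : ℝ) := by
      refine h2.trans ?_
      rw [Finset.mul_sum]
      exact Finset.sum_le_sum fun j _ => h3 j
    have h5 := ENNReal.rpow_le_rpow h4 (show (0 : ℝ) ≤ p / 2 by positivity)
    rw [← ENNReal.rpow_mul, show 1 / (p / 2) * (p / 2) = 1 by field_simp, ENNReal.rpow_one,
      ENNReal.mul_rpow_of_nonneg _ _ (by positivity), ← ENNReal.rpow_mul,
      show 2 / p * (p / 2) = 1 by field_simp, ENNReal.rpow_one] at h5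
    exact h5
  -- the product
  have hprod : Measurable fun z => ∏ k, (∑ j ∈ J k, av R α (pw p (G k j)) z ^ (2 / p))
      ^ (p / (2 * ((r : ℝ) + 1))) :=
    Finset.measurable_prod _ fun k _ => (Finset.measurable_sum _ fun j _ => hf k j).pow_const _
  rw [← dens hw hprod]
  have hsum : ∑ _k : Fin (r + 1), (1 : ℝ) / ((r : ℝ) + 1) = 1 := by
    rw [Finset.sum_const, Finset.card_univ, Fintype.card_fin, nsmul_eq_mul]
    push_cast
    field_simp
  have e3 : p / (2 * ((r : ℝ) + 1)) = p / 2 * (1 / ((r : ℝ) + 1)) := by field_simp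
  calc ∫⁻ z, (∏ k, (∑ j ∈ J k, av R α (pw p (G k j)) z ^ (2 / p)) ^ (p / (2 * ((r : ℝ) + 1))))
        ∂(volume.withDensity w)
      = ∫⁻ z, (∏ k, ((∑ j ∈ J k, av R α (pw p (G k j)) z ^ (2 / p)) ^ (p / 2))
          ^ ((1 : ℝ) / ((r : ℝ) + 1))) ∂(volume.withDensity w) := by
        refine lintegral_congr fun z => Finset.prod_congr rfl fun k _ => ?_
        rw [← ENNReal.rpow_mul, e3]
    _ ≤ ∏ k, (∫⁻ z, (∑ j ∈ J k, av R α (pw p (G k j)) z ^ (2 / p)) ^ (p / 2)
          ∂(volume.withDensity w)) ^ ((1 : ℝ) / ((r : ℝ) + 1)) :=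
        ENNReal.lintegral_prod_norm_pow_le Finset.univ (fun k _ => (hH k).aemeasurable) hsum
          fun k _ => by positivity
    _ ≤ ∏ k, (ENNReal.ofReal C * (∑ j ∈ J k, nw p w (G k j) ^ (2 : ℝ)) ^ (p / 2))
          ^ ((1 : ℝ) / ((r : ℝ) + 1)) :=
        Finset.prod_le_prod' fun k _ => ENNReal.rpow_le_rpow (key k) (by positivity)
    _ = ENNReal.ofReal C *
          ∏ k, (∑ j ∈ J k, nw p w (G k j) ^ (2 : ℝ)) ^ (p / (2 * ((r : ℝ) + 1))) := by
        have e4 : ∀ k, (ENNReal.ofReal C * (∑ j ∈ J k, nw p w (G k j) ^ (2 : ℝ)) ^ (p / 2))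
            ^ ((1 : ℝ) / ((r : ℝ) + 1))
            = ENNReal.ofReal C ^ ((1 : ℝ) / ((r : ℝ) + 1))
              * (∑ j ∈ J k, nw p w (G k j) ^ (2 : ℝ)) ^ (p / (2 * ((r : ℝ) + 1))) := by
          intro k
          rw [ENNReal.mul_rpow_of_nonneg _ _ (by positivity), ← ENNReal.rpow_mul, e3]
        rw [Finset.prod_congr rfl fun k _ => e4 k, Finset.prod_mul_distrib, Finset.prod_const,
          Finset.card_univ, Fintype.card_fin, ← ENNReal.rpow_natCast, ← ENNReal.rpow_mul]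
        congr 1
        rw [show (1 : ℝ) / ((r : ℝ) + 1) * ((r + 1 : ℕ) : ℝ) = 1 by push_cast; field_simp,
          ENNReal.rpow_one]

end DEC
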