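import Pool.Agent.DEC.StmtsC

/-!
# Block C, module C_MI: the multiscale chain
-/

open MeasureTheory
open scoped ENNReal Matrix

namespace DEC
namespace CMI

/-- The interpolation parameter. -/
lemma theta (r : ℕ) (p : ℝ) (hr : 1 ≤ r) (hpr : p * r ≤ 2 * r + 4) :
    ∃ θ : ℝ, 0 ≤ θ ∧ θ ≤ 1 / 2 ∧
      1 / (max 2 (p * r / (r + 1))) = (1 - θ) / 2 + θ / p := by
  have hr' : (1 : ℝ) ≤ r := by exact_mod_cast hr
  have hr1 : (0 : ℝ) < (r : ℝ) + 1 := by linarith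
  by_cases h : p * r ≤ 2 * (r + 1)
  · refine ⟨0, le_rfl, by norm_num, ?_⟩
    rw [max_eq_left]
    · ring
    · rw [div_le_iff₀ hr1]; exact h
  · have h' : 2 * ((r : ℝ) + 1) < p * r := not_le.mp h
    have hp2 : 2 < p := by nlinarith
    have hden : 0 < (r : ℝ) * (p - 2) := mul_pos (by linarith) (by linarith)
    refine ⟨(p * r - 2 * (r + 1)) / (r * (p - 2)), ?_, ?_, ?_⟩
    · exact div_nonneg (by linarith) hden.le
    · rw [div_le_iff₀ hden]; nlinarith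
    · rw [max_eq_right]
      · have h1 : (r : ℝ) ≠ 0 := by positivity
        have h2 : p - 2 ≠ 0 := by linarith
        have h3 : p ≠ 0 := by linarith
        field_simp
        ring
      · rw [le_div_iff₀ hr1]; linarith

/-- One step, in `[0, ∞]`. -/
lemma step (r : ℕ) (p θ : ℝ) (hp : 2 ≤ p) (h0 : 0 ≤ θ) (h1 : θ ≤ 1) (Q : ℝ≥0∞)
    (c₁ y D : ℝ) (hc : 0 ≤ c₁) (hy : 0 ≤ y) (hD : 0 ≤ D) (G : Fin (r + 1) → ℝ≥0∞)
    (hG : ∀ k, G k ≤ (ENNReal.ofReal D * Q) ^ (2 : ℝ)) (x : ℝ≥0∞)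
    (hx : x ≤ ENNReal.ofReal y * Q ^ p) :
    ENNReal.ofReal c₁ * x ^ (1 - θ) * (∏ k, G k ^ (p / (2 * ((r : ℝ) + 1)))) ^ θ
      ≤ ENNReal.ofReal (c₁ * y ^ (1 - θ) * (D ^ p) ^ θ) * Q ^ p := by
  have hp0 : 0 ≤ p := by linarith
  have hr1 : (0 : ℝ) < (r : ℝ) + 1 := by positivity
  have hprod : (∏ k, G k ^ (p / (2 * ((r : ℝ) + 1)))) ≤ ENNReal.ofReal (D ^ p) * Q ^ p := by
    calc (∏ k, G k ^ (p / (2 * ((r : ℝ) + 1))))
        ≤ ∏ _k : Fin (r + 1), ((ENNReal.ofReal D * Q) ^ (2 : ℝ)) ^ (p / (2 * ((r : ℝ) + 1))) :=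
          Finset.prod_le_prod' fun k _ => ENNReal.rpow_le_rpow (hG k) (by positivity)
      _ = (ENNReal.ofReal D * Q) ^ p := by
          rw [Finset.prod_const, Finset.card_univ, Fintype.card_fin, ← ENNReal.rpow_natCast,
            ← ENNReal.rpow_mul, ← ENNReal.rpow_mul]
          congr 1
          push_cast
          field_simp
      _ = ENNReal.ofReal (D ^ p) * Q ^ p := by
          rw [ENNReal.mul_rpow_of_nonneg _ _ hp0, ENNReal.ofReal_rpow_of_nonneg hD hp0]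
  have h1θ : 0 ≤ 1 - θ := by linarith
  have hx' : x ^ (1 - θ) ≤ ENNReal.ofReal (y ^ (1 - θ)) * (Q ^ p) ^ (1 - θ) := by
    calc x ^ (1 - θ) ≤ (ENNReal.ofReal y * Q ^ p) ^ (1 - θ) := ENNReal.rpow_le_rpow hx h1θ
      _ = _ := by
          rw [ENNReal.mul_rpow_of_nonneg _ _ h1θ, ENNReal.ofReal_rpow_of_nonneg hy h1θ]
  have hp' : (∏ k, G k ^ (p / (2 * ((r : ℝ) + 1)))) ^ θ
      ≤ ENNReal.ofReal ((D ^ p) ^ θ) * (Q ^ p) ^ θ := by
    calc (∏ k, G k ^ (p / (2 * ((r : ℝ) + 1)))) ^ θ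
        ≤ (ENNReal.ofReal (D ^ p) * Q ^ p) ^ θ := ENNReal.rpow_le_rpow hprod h0
      _ = _ := by
          rw [ENNReal.mul_rpow_of_nonneg _ _ h0,
            ENNReal.ofReal_rpow_of_nonneg (Real.rpow_nonneg hD p) h0]
  have hQ : (Q ^ p) ^ (1 - θ) * (Q ^ p) ^ θ = Q ^ p := by
    rw [← ENNReal.rpow_add_of_nonneg _ _ h1θ h0]
    simp
  calc ENNReal.ofReal c₁ * x ^ (1 - θ) * (∏ k, G k ^ (p / (2 * ((r : ℝ) + 1)))) ^ θ
      ≤ ENNReal.ofReal c₁ * (ENNReal.ofReal (y ^ (1 - θ)) * (Q ^ p) ^ (1 - θ))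
          * (ENNReal.ofReal ((D ^ p) ^ θ) * (Q ^ p) ^ θ) := by gcongr
    _ = ENNReal.ofReal c₁ * ENNReal.ofReal (y ^ (1 - θ)) * ENNReal.ofReal ((D ^ p) ^ θ)
          * ((Q ^ p) ^ (1 - θ) * (Q ^ p) ^ θ) := by ring
    _ = ENNReal.ofReal (c₁ * y ^ (1 - θ) * (D ^ p) ^ θ) * Q ^ p := by
          rw [hQ, ← ENNReal.ofReal_mul hc, ← ENNReal.ofReal_mul (by positivity)]

/-- The sequence of the weight exponents, from the top. -/
noncomputable def be (nxt : ℝ → ℝ) (β₀ : ℝ) : ℕ → ℝ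
  | 0 => β₀
  | i + 1 => nxt (be nxt β₀ i)

/-- The sequence of the constants, from the top. -/
noncomputable def Zs (z₀ : ℝ) (g : ℕ → ℝ → ℝ) : ℕ → ℝ
  | 0 => z₀
  | i + 1 => g i (Zs z₀ g i)

/-- The choice of the scale. -/
lemma scale (m : ℕ) (N : ℝ) (hN : 1 ≤ N) :
    ∃ a₀ : ℕ, (2 : ℝ) ^ (2 ^ m * a₀) ≤ N ∧ N < (2 : ℝ) ^ (2 ^ m * (a₀ + 1)) := by
  have h2 : (1 : ℝ) < (2 : ℝ) ^ (2 ^ m) := one_lt_pow₀ (by norm_num) (by positivity)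
  obtain ⟨n, hn⟩ := pow_unbounded_of_one_lt N h2
  classical
  have hex : ∃ n : ℕ, N < ((2 : ℝ) ^ (2 ^ m)) ^ n := ⟨n, hn⟩
  set n₀ := Nat.find hex with hn₀
  have hspec : N < ((2 : ℝ) ^ (2 ^ m)) ^ n₀ := Nat.find_spec hex
  have hpos : n₀ ≠ 0 := by
    intro h
    rw [h, pow_zero] at hspec
    linarith
  obtain ⟨a₀, ha₀⟩ := Nat.exists_eq_succ_of_ne_zero hpos
  refine ⟨a₀, ?_, ?_⟩
  · have : ¬ N < ((2 : ℝ) ^ (2 ^ m)) ^ a₀ := Nat.find_min hex (by omega)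
    rw [pow_mul]
    exact not_lt.mp this
  · rw [pow_mul]
    rw [ha₀] at hspec
    exact hspec

/-- `2^(a₀) ≤ N^((1/2)^m)`. -/
lemma small (m a₀ : ℕ) (N : ℝ) (h : (2 : ℝ) ^ (2 ^ m * a₀) ≤ N) :
    (2 : ℝ) ^ a₀ ≤ N ^ ((1 / 2 : ℝ) ^ m) := by
  have h1 : ((2 : ℝ) ^ a₀) ^ (2 ^ m) ≤ N := by
    rw [← pow_mul, mul_comm]; exact h
  have h2 : (2 : ℝ) ^ a₀ = (((2 : ℝ) ^ a₀) ^ (2 ^ m)) ^ ((1 / 2 : ℝ) ^ m) := by
    rw [← Real.rpow_natCast (((2 : ℝ) ^ a₀)) (2 ^ m), ← Real.rpow_mul (by positivity)]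
    have : ((2 ^ m : ℕ) : ℝ) * (1 / 2 : ℝ) ^ m = 1 := by
      push_cast
      rw [← mul_pow]
      norm_num
    rw [this, Real.rpow_one]
  rw [h2]
  exact Real.rpow_le_rpow (by positivity) h1 (by positivity)

lemma be_gt (nxt : ℝ → ℝ) (β₀ t : ℝ) (h₀ : t < β₀) (h : ∀ x, t < x → t < nxt x) :
    ∀ i, t < be nxt β₀ i
  | 0 => h₀
  | i + 1 => h _ (be_gt nxt β₀ t h₀ h i)

lemma Zs_nonneg (z₀ : ℝ) (g : ℕ → ℝ → ℝ) (h₀ : 0 ≤ z₀) (h : ∀ i x, 0 ≤ x → 0 ≤ g i x) :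
    ∀ i, 0 ≤ Zs z₀ g i
  | 0 => h₀
  | i + 1 => h _ _ (Zs_nonneg z₀ g h₀ h i)

/-- The comparison of the exponents at the end. -/
lemma expo (r m : ℕ) (p lam : ℝ) (hp : 2 ≤ p)
    (hC : ((r : ℝ) + 1) / 2 + 2 ≤ lam * (1 + m / 2)) :
    (1 / 2 : ℝ) ^ m * (((r : ℝ) + 1) * p / 2) +
      (m * ((1 / 2 : ℝ) ^ m / (m + 1)) + p * (lam - lam * ((1 + m / 2) / 2 ^ m)))
      ≤ (lam - (1 / 2) ^ m) * p := by
  have hq : (0 : ℝ) < (1 / 2 : ℝ) ^ m := by positivity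
  have h1 : (m : ℝ) * ((1 / 2 : ℝ) ^ m / (m + 1)) ≤ (1 / 2 : ℝ) ^ m := by
    rw [mul_div_assoc', div_le_iff₀ (by positivity)]
    nlinarith
  have h2 : lam * ((1 + m / 2) / 2 ^ m) = lam * (1 + m / 2) * (1 / 2 : ℝ) ^ m := by
    rw [one_div, inv_pow]
    ring
  rw [h2]
  have h3 : p * ((((r : ℝ) + 1) / 2 + 2) * (1 / 2 : ℝ) ^ m)
      ≤ p * (lam * (1 + m / 2) * (1 / 2 : ℝ) ^ m) :=
    mul_le_mul_of_nonneg_left (mul_le_mul_of_nonneg_right hC hq.le) (by linarith)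
  nlinarith

end CMI

open CMI in
theorem t_MI : Stmt_C_MI := by
  intro h0 h1 h2 h3 h4 r p E l L b hr hp hpr hE hl hb
  obtain ⟨θ, hθ0, hθ1, hθ⟩ := theta r p hr hpr
  have hθ1' : θ ≤ 1 := by linarith
  refine ⟨((r : ℝ) + 1) / 2 + 2, by positivity, ?_⟩
  intro lam m hlam hC₀ hDec
  obtain ⟨B₁, hB₁, hDecB⟩ := hDec
  have hp0 : 0 ≤ p := by linarith
  -- the weight exponents
  have hch : ∀ α : ℝ, ∃ α' : ℝ, E + r + 1 < α → (E + r + 1 < α' ∧ ∀ ν ε : ℝ, 0 < ν → 0 < ε →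
      ∃ C : ℝ, 0 < C ∧ ∀ (N : ℝ) (a : ℕ), ((2 : ℝ) ^ a) ^ 2 ≤ N →
      ∀ (A : Matrix (Fin r) (Fin r) ℝ) (ι : Type) (S : Finset ι) (c : ι → Fin r → ℝ)
        (F : ι → X r → ℂ), QF l L A → Fam A b N S c F → ∀ T : Fin (r + 1) → Finset ι,
        (∀ k, T k ⊆ S) → Tr ν T c → ∀ w : X r → ℝ≥0∞, Wt (N ^ 2) E w →
          Ch p α' a T c F w ≤ ENNReal.ofReal (C * ((2 : ℝ) ^ a) ^ ε) *
            (Ch p α (2 * a) T c F w) ^ (1 - θ) *
            (∏ k, Sg p w a (T k) c F ^ (p / (2 * ((r : ℝ) + 1)))) ^ θ) := by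
    intro α
    by_cases hα : E + r + 1 < α
    · obtain ⟨α', h⟩ := h1 r p _ θ E l L b α hr hp rfl hθ0 hθ1' hθ hE hl hb hα
      exact ⟨α', fun _ => h⟩
    · exact ⟨0, fun h => absurd h hα⟩
  choose nxt hnxt using hch
  set β : ℕ → ℝ := be nxt (E + r + 2) with hβ
  have hβgt : ∀ i, E + r + 1 < β i :=
    be_gt nxt _ _ (by linarith) (fun x hx => (hnxt x hx).1)
  have hr0 : (0 : ℝ) ≤ r := by positivity
  refine ⟨β m, by linarith [hβgt m], ?_⟩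
  intro ν hν
  -- the constants
  obtain ⟨Ca, hCa, hCH0⟩ := h0 r p b (β m) hp hb (by linarith [hβgt m])
  obtain ⟨Cz, hCz, hCH2⟩ := h2 r p E b (β 0) hp hE hb (hβgt 0)
  obtain ⟨Cs, hCs, hCHS⟩ := h3 r p E l L hp hE hl
  set ε : ℝ := (1 / 2 : ℝ) ^ m / (m + 1) with hε
  have hε0 : 0 < ε := by positivity
  have hstep := fun i => (hnxt (β i) (hβgt i)).2 ν ε hν hε0
  choose Cc hCc hCH1 using hstep
  -- a common bound
  set κ : ℝ := ((Cs * B₁) ^ p) ^ θ with hκ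
  have hκ0 : 0 ≤ κ := by positivity
  set B : ℝ := 1 + Cz * ((2 : ℝ) ^ (2 ^ m)) ^ Cz + (∑ i ∈ Finset.range m, Cc i) * κ with hB
  have hsum0 : 0 ≤ ∑ i ∈ Finset.range m, Cc i := Finset.sum_nonneg fun i _ => (hCc i).le
  have hB1 : 1 ≤ B := by
    have : 0 ≤ Cz * ((2 : ℝ) ^ (2 ^ m)) ^ Cz := by positivity
    have : 0 ≤ (∑ i ∈ Finset.range m, Cc i) * κ := by positivity
    linarith
  have hBz : Cz * ((2 : ℝ) ^ (2 ^ m)) ^ Cz ≤ B := by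
    have : 0 ≤ (∑ i ∈ Finset.range m, Cc i) * κ := by positivity
    linarith
  have hBi : ∀ i < m, Cc i * κ ≤ B := by
    intro i hi
    have h1 : Cc i ≤ ∑ i ∈ Finset.range m, Cc i :=
      Finset.single_le_sum (fun i _ => (hCc i).le) (Finset.mem_range.mpr hi)
    have h2 : Cc i * κ ≤ (∑ i ∈ Finset.range m, Cc i) * κ :=
      mul_le_mul_of_nonneg_right h1 hκ0
    have : 0 ≤ Cz * ((2 : ℝ) ^ (2 ^ m)) ^ Cz := by positivity
    linarith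
  obtain ⟨Ci, hCi, hIt⟩ := h4 m p lam θ ε B hp hlam hθ0 hθ1 hε0.le hB1
  refine ⟨(Ca * Ci) ^ (1 / p), by positivity, ?_⟩
  intro N hN A hA ι S c F hF T hT hTr w hw
  have hN0 : 0 < N := by linarith
  obtain ⟨a₀, ha1, ha2⟩ := scale m N hN
  set Q : ℝ≥0∞ := sq p w S F with hQ
  -- the real sequence
  set g : ℕ → ℝ → ℝ := fun i x => B * N ^ ε * x ^ (1 - θ) *
    (((N / (2 : ℝ) ^ (2 ^ (m - (i + 1)) * a₀)) ^ lam) ^ p) ^ θ with hg
  set z₀ : ℝ := Cz * (N / 2 ^ (2 ^ m * a₀)) ^ Cz with hz₀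
  have hz₀0 : 0 ≤ z₀ := by positivity
  have hg0 : ∀ i x, 0 ≤ x → 0 ≤ g i x := by
    intro i x hx
    simp only [hg]
    positivity
  have hZ0 := Zs_nonneg z₀ g hz₀0 hg0
  have hpow : ∀ j ≤ m, (2 : ℝ) ^ (2 ^ j * a₀) ≤ N := by
    intro j hj
    refine le_trans ?_ ha1
    apply pow_le_pow_right₀ (by norm_num)
    exact Nat.mul_le_mul_right _ (Nat.pow_le_pow_right (by norm_num) hj)
  -- the chain
  have hchain : ∀ i ≤ m, Ch p (β i) (2 ^ (m - i) * a₀) T c F w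
      ≤ ENNReal.ofReal (Zs z₀ g i) * Q ^ p := by
    intro i
    induction i with
    | zero =>
      intro _
      exact hCH2 N _ (hpow m le_rfl) A ι S c F hF T hT w hw
    | succ i ih =>
      intro hi
      have ih' := ih (by omega)
      set j : ℕ := m - (i + 1) with hj
      have hji : m - i = j + 1 := by omega
      rw [hji] at ih'
      have hdbl : 2 * (2 ^ j * a₀) = 2 ^ (j + 1) * a₀ := by ring
      have hsq : ((2 : ℝ) ^ (2 ^ j * a₀)) ^ 2 ≤ N := by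
        rw [← pow_mul, mul_comm, hdbl]
        exact hpow _ (by omega)
      have hjN : (2 : ℝ) ^ (2 ^ j * a₀) ≤ N := hpow j (by omega)
      have key := hCH1 i N (2 ^ j * a₀) hsq A ι S c F hA hF T hT hTr w hw
      rw [hdbl] at key
      set D : ℝ := B₁ * (N / (2 : ℝ) ^ (2 ^ j * a₀)) ^ lam with hD
      have hNR : 1 ≤ N / (2 : ℝ) ^ (2 ^ j * a₀) := by
        rw [le_div_iff₀ (by positivity), one_mul]; exact hjN
      have hD0 : 0 ≤ D := by positivity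
      have hSg : ∀ k, Sg p w (2 ^ j * a₀) (T k) c F ≤ (ENNReal.ofReal (Cs * D) * Q) ^ (2 : ℝ) :=
        fun k => hCHS b N D _ hjN hD0 (hDecB _ hNR) A ι S (T k) c F hA hF (hT k) w hw
      have hst := step r p θ hp hθ0 hθ1' Q (Cc i * ((2 : ℝ) ^ (2 ^ j * a₀)) ^ ε)
        (Zs z₀ g i) (Cs * D) (by have := hCc i; positivity) (hZ0 i) (by positivity) _ hSg _ ih'
      refine key.trans (hst.trans ?_)
      gcongr
      show _ ≤ g i (Zs z₀ g i)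
      simp only [hg, ← hj]
      have e1 : ((2 : ℝ) ^ (2 ^ j * a₀)) ^ ε ≤ N ^ ε :=
        Real.rpow_le_rpow (by positivity) hjN hε0.le
      have e2 : ((Cs * D) ^ p) ^ θ
          = κ * (((N / (2 : ℝ) ^ (2 ^ j * a₀)) ^ lam) ^ p) ^ θ := by
        rw [hκ, hD, ← mul_assoc, Real.mul_rpow (by positivity) (by positivity),
          Real.mul_rpow (by positivity) (by positivity)]
      have e3 := hBi i (by omega)
      rw [e2]
      set U : ℝ := (((N / (2 : ℝ) ^ (2 ^ j * a₀)) ^ lam) ^ p) ^ θ with hU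
      have hU0 : 0 ≤ U := by positivity
      have hZi : 0 ≤ Zs z₀ g i ^ (1 - θ) := Real.rpow_nonneg (hZ0 i) _
      calc Cc i * ((2 : ℝ) ^ (2 ^ j * a₀)) ^ ε * Zs z₀ g i ^ (1 - θ) * (κ * U)
          = (Cc i * κ) * ((2 : ℝ) ^ (2 ^ j * a₀)) ^ ε * Zs z₀ g i ^ (1 - θ) * U := by ring
        _ ≤ B * N ^ ε * Zs z₀ g i ^ (1 - θ) * U := by gcongr
  -- the iteration
  have hY := hIt N a₀ (fun j => Zs z₀ g (m - j)) hN ha1 ha2 (fun j => hZ0 _) (by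
      simp only [Nat.sub_self]
      show z₀ ≤ B
      refine le_trans ?_ hBz
      rw [hz₀]
      have : N / (2 : ℝ) ^ (2 ^ m * a₀) ≤ (2 : ℝ) ^ (2 ^ m) := by
        rw [div_le_iff₀ (by positivity), ← pow_add]
        have e : 2 ^ m + 2 ^ m * a₀ = 2 ^ m * (a₀ + 1) := by ring
        rw [e]
        exact ha2.le
      gcongr) (by
      intro j hj
      have e : m - j = (m - (j + 1)) + 1 := by omega
      show Zs z₀ g (m - j) ≤ _
      rw [e]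
      show g (m - (j + 1)) (Zs z₀ g (m - (j + 1))) ≤ _
      have e' : m - (m - (j + 1) + 1) = j := by omega
      simp only [hg, e']
      exact le_rfl)
  have hfin := hchain m le_rfl
  simp only [Nat.sub_self, pow_zero, one_mul] at hfin
  simp only [Nat.sub_zero] at hY
  have hs := small m a₀ N ha1
  have haN : (2 : ℝ) ^ a₀ ≤ N := by
    have := hpow 0 (Nat.zero_le m)
    simpa using this
  have hc0 := hCH0 N a₀ haN A ι S c F hF T hT w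
  refine hc0.trans ?_
  have hexp := expo r m p lam hp hC₀
  have hkey : Ca * ((2 : ℝ) ^ a₀) ^ (((r : ℝ) + 1) * p / 2) * Zs z₀ g m
      ≤ ((Ca * Ci) ^ (1 / p) * N ^ (lam - (1 / 2) ^ m)) ^ p := by
    have hrhs : ((Ca * Ci) ^ (1 / p) * N ^ (lam - (1 / 2) ^ m)) ^ p
        = (Ca * Ci) * N ^ ((lam - (1 / 2) ^ m) * p) := by
      rw [Real.mul_rpow (by positivity) (by positivity), ← Real.rpow_mul (by positivity),
        ← Real.rpow_mul (by positivity), one_div, inv_mul_cancel₀ (by linarith), Real.rpow_one]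
    rw [hrhs]
    have e1 : ((2 : ℝ) ^ a₀) ^ (((r : ℝ) + 1) * p / 2)
        ≤ N ^ ((1 / 2 : ℝ) ^ m * (((r : ℝ) + 1) * p / 2)) := by
      rw [Real.rpow_mul hN0.le]
      exact Real.rpow_le_rpow (by positivity) hs (by positivity)
    calc Ca * ((2 : ℝ) ^ a₀) ^ (((r : ℝ) + 1) * p / 2) * Zs z₀ g m
        ≤ Ca * N ^ ((1 / 2 : ℝ) ^ m * (((r : ℝ) + 1) * p / 2)) *
          (Ci * N ^ (m * ε + p * (lam - lam * ((1 + m / 2) / 2 ^ m)))) := by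
          gcongr
          exact hZ0 m
      _ = (Ca * Ci) * N ^ ((1 / 2 : ℝ) ^ m * (((r : ℝ) + 1) * p / 2) +
            (m * ε + p * (lam - lam * ((1 + m / 2) / 2 ^ m)))) := by
          rw [Real.rpow_add hN0 ((1 / 2 : ℝ) ^ m * (((r : ℝ) + 1) * p / 2))
            (m * ε + p * (lam - lam * ((1 + m / 2) / 2 ^ m)))]
          exact mul_mul_mul_comm _ _ _ _
      _ ≤ (Ca * Ci) * N ^ ((lam - (1 / 2) ^ m) * p) := by
          gcongr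
  have hM0 : 0 ≤ (Ca * Ci) ^ (1 / p) * N ^ (lam - (1 / 2) ^ m) := by positivity
  calc ENNReal.ofReal (Ca * ((2 : ℝ) ^ a₀) ^ (((r : ℝ) + 1) * p / 2)) * Ch p (β m) a₀ T c F w
      ≤ ENNReal.ofReal (Ca * ((2 : ℝ) ^ a₀) ^ (((r : ℝ) + 1) * p / 2)) *
        (ENNReal.ofReal (Zs z₀ g m) * Q ^ p) := by gcongr
    _ = ENNReal.ofReal (Ca * ((2 : ℝ) ^ a₀) ^ (((r : ℝ) + 1) * p / 2) * Zs z₀ g m) * Q ^ p := by
        rw [← mul_assoc, ← ENNReal.ofReal_mul (by positivity)]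
    _ ≤ ENNReal.ofReal (((Ca * Ci) ^ (1 / p) * N ^ (lam - (1 / 2) ^ m)) ^ p) * Q ^ p := by gcongr
    _ = (ENNReal.ofReal ((Ca * Ci) ^ (1 / p) * N ^ (lam - (1 / 2) ^ m)) * Q) ^ p := by
        rw [ENNReal.mul_rpow_of_nonneg _ _ hp0, ENNReal.ofReal_rpow_of_nonneg hM0 hp0]

end DEC
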