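import Pool.Agent.DEC.StmtsC

/-!
# l^2 decoupling: the final induction on the exponent and the dimension
-/

open MeasureTheory
open scoped ENNReal Matrix

namespace DEC

namespace CMain

/-- `DecExp` is monotone in the exponent. -/
lemma decExp_mono (h3 : Stmt_Triv) {r : ℕ} {p E l L b lam lam' : ℝ} (h : lam ≤ lam')
    (hD : DecExp r p E l L b lam) : DecExp r p E l L b lam' := by
  obtain ⟨C, hC, hN⟩ := hD
  refine ⟨C, hC, fun N h1 => h3.2.2 r p E l L b N (C * N ^ lam) (C * N ^ lam') ?_ (hN N h1)⟩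
  exact mul_le_mul_of_nonneg_left (Real.rpow_le_rpow_of_exponent_le h1 h) hC.le

/-- `MDec` is monotone in the constant. -/
lemma mDec_mono {r : ℕ} {p E a l L b ν N M M' : ℝ} (hp : 0 ≤ p) (h : M ≤ M')
    (hM : MDec r p E a l L b ν N M) : MDec r p E a l L b ν N M' := by
  intro A hA ι S c F hF T hT hTr w hw
  refine le_trans (hM A hA ι S c F hF T hT hTr w hw) ?_
  gcongr

/-- `MExp` is monotone in the exponent. -/
lemma mExp_mono {r : ℕ} {p E l L b lam lam' : ℝ} (hp : 0 ≤ p) (h : lam ≤ lam')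
    (hM : MExp r p E l L b lam) : MExp r p E l L b lam' := by
  obtain ⟨a, ha, hν⟩ := hM
  refine ⟨a, ha, fun ν hν0 => ?_⟩
  obtain ⟨C, hC, hN⟩ := hν ν hν0
  refine ⟨C, hC, fun N h1 => mDec_mono hp ?_ (hN N h1)⟩
  exact mul_le_mul_of_nonneg_left (Real.rpow_le_rpow_of_exponent_le h1 h) hC.le

/-- The trivial exponent. -/
lemma decExp_triv (h3 : Stmt_Triv) (r : ℕ) {p E l L b : ℝ} (hp : 1 ≤ p) (hE : 0 ≤ E) :
    DecExp r p E l L b r := by
  refine ⟨3 ^ r, by positivity, fun N h1 => ?_⟩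
  have h := h3.2.1 r p E l L b N hp hE h1
  rwa [mul_pow, ← Real.rpow_natCast N r] at h

/-- The induction on the exponent. -/
lemma step (h1 : Stmt_MI) (h2 : Stmt_BNI) (h3 : Stmt_Triv) (r : ℕ) {p E l L b : ℝ} (hp : 2 ≤ p)
    (hpr : p * ((r + 1 : ℕ) : ℝ) ≤ 2 * ((r + 1 : ℕ) : ℝ) + 4) (hE : 0 ≤ E) (hl : 0 < l)
    (hb : 1 ≤ b)
    (IH : ∀ E' L' b' ε' : ℝ, 0 ≤ E' → 1 ≤ b' → 0 < ε' → DecExp r p E' l L' b' ε')
    {ε : ℝ} (hε : 0 < ε) : DecExp (r + 1) p E l L b ε := by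
  obtain ⟨Λ, hΛ⟩ : ∃ Λ : Set ℝ, Λ = {lam | 0 ≤ lam ∧ DecExp (r + 1) p E l L b lam} := ⟨_, rfl⟩
  have hmem : ∀ lam, lam ∈ Λ ↔ 0 ≤ lam ∧ DecExp (r + 1) p E l L b lam := by
    intro lam
    rw [hΛ]
    rfl
  have hne : Λ.Nonempty := ⟨((r + 1 : ℕ) : ℝ), (hmem _).mpr
    ⟨Nat.cast_nonneg _, decExp_triv h3 (r + 1) (by linarith) hE⟩⟩
  have hbdd : BddBelow Λ := ⟨0, fun lam h => ((hmem lam).mp h).1⟩
  have h0 : 0 ≤ sInf Λ := le_csInf hne fun lam h => ((hmem lam).mp h).1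
  have hzero : sInf Λ = 0 := by
    by_contra hcon
    have hpos : 0 < sInf Λ := lt_of_le_of_ne h0 (Ne.symm hcon)
    obtain ⟨C₀, hC₀, hMI⟩ := h1 (r + 1) p E l L b (by omega) hp hpr hE hl hb
    obtain ⟨m, hm⟩ := exists_nat_ge (2 * C₀ / sInf Λ)
    have hm' : C₀ ≤ sInf Λ * (1 + (m : ℝ) / 2) := by
      rw [div_le_iff₀ hpos] at hm
      nlinarith
    have hq : (0 : ℝ) < (1 / 2) ^ m := by positivity
    obtain ⟨lam, hlam, hlt⟩ := exists_lt_of_csInf_lt hne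
      (lt_add_of_pos_right (sInf Λ) (by positivity : (0 : ℝ) < (1 / 2) ^ m / 4))
    have hle : sInf Λ ≤ lam := csInf_le hbdd hlam
    have hlam' := (hmem lam).mp hlam
    have hM := hMI lam m (lt_of_lt_of_le hpos hle)
      (le_trans hm' (mul_le_mul_of_nonneg_right hle (by positivity))) hlam'.2
    have hM' : MExp (r + 1) p E l L b (max 0 (lam - (1 / 2) ^ m)) :=
      mExp_mono (by linarith) (le_max_right _ _) hM
    obtain ⟨e, he0, he1, he2⟩ : ∃ e : ℝ, 0 < e ∧ e ≤ sInf Λ / 2 ∧ e ≤ (1 / 2) ^ m / 4 :=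
      ⟨min (sInf Λ / 2) ((1 / 2) ^ m / 4), lt_min (by linarith) (by linarith),
        min_le_left _ _, min_le_right _ _⟩
    have hD := h2 r p E l L b (max 0 (lam - (1 / 2) ^ m)) e hp hE hl hb (le_max_left _ _) he0
      IH hM'
    have hin : max 0 (lam - (1 / 2) ^ m) + e ∈ Λ :=
      (hmem _).mpr ⟨by
        have := le_max_left 0 (lam - (1 / 2) ^ m)
        linarith, hD⟩
    have hinf := csInf_le hbdd hin
    rcases max_cases 0 (lam - (1 / 2) ^ m) with ⟨h, -⟩ | ⟨h, -⟩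
    · rw [h] at hinf
      linarith
    · rw [h] at hinf
      linarith
  obtain ⟨lam, hlam, hlt⟩ := exists_lt_of_csInf_lt hne (show sInf Λ < ε by rw [hzero]; exact hε)
  exact decExp_mono h3 hlt.le ((hmem lam).mp hlam).2

end CMain

open CMain in
theorem t_Main : Stmt_C_Main := by
  intro h1 h2 h3 r
  induction r with
  | zero =>
    intro p E l L b ε hp _ _ _ _ hε
    refine ⟨1, one_pos, fun N hN => ?_⟩
    refine h3.2.2 0 p E l L b N 1 (1 * N ^ ε) ?_ (h3.1 p E l L b N (by linarith) (by linarith))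
    rw [one_mul]
    exact Real.one_le_rpow hN hε.le
  | succ r ih =>
    intro p E l L b ε hp hpr hE hl hb hε
    refine step h1 h2 h3 r hp hpr hE hl hb ?_ hε
    intro E' L' b' ε' hE' hb' hε'
    refine ih p E' l L' b' ε' hp ?_ hE' hl hb' hε'
    push_cast at hpr
    nlinarith

end DEC
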