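import Pool.Agent.DEC.StmtsC
import Pool.Agent.DEC.WBasic

/-!
# l^2 decoupling, block C: orthogonality of the cells (module C_OrthC)
-/

open MeasureTheory
open scoped ENNReal Matrix

namespace DEC

namespace COrthC

variable {r : ℕ} {ι : Type}

lemma mem_sub {a : ℕ} {T : Finset ι} {c : ι → Fin r → ℝ} {J : Fin r → ℤ} {i : ι} :
    i ∈ sub a T c J ↔ i ∈ T ∧ cl a (c i) = J := by
  unfold sub
  exact Finset.mem_filter

lemma mem_cells {a : ℕ} {T : Finset ι} {c : ι → Fin r → ℝ} {i : ι} (hi : i ∈ T) :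
    cl a (c i) ∈ cells a T c := by
  unfold cells
  exact Finset.mem_image_of_mem _ hi

lemma sum_part (a : ℕ) (T : Finset ι) (c : ι → Fin r → ℝ) (F : ι → X r → ℂ) (y : X r) :
    ∑ J ∈ cells a T c, part a T c F J y = ∑ i ∈ T, F i y := by
  classical
  unfold part
  rw [← Finset.sum_fiberwise_of_maps_to (s := T) (t := cells a T c) (g := fun i => cl a (c i))
    (fun i hi => mem_cells hi) (fun i => F i y)]
  refine Finset.sum_congr rfl fun J _ => ?_
  refine Finset.sum_congr ?_ fun _ _ => rfl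
  ext i
  rw [mem_sub, Finset.mem_filter]

/-- The frequency set of the cell `J`. -/
def fr (a : ℕ) (T : Finset ι) (c : ι → Fin r → ℝ) (b N : ℝ) (J : Fin r → ℤ) : Set (X r) :=
  {x | ∃ i ∈ sub a T c J, ‖x.1 - c i‖ ≤ b / N}

lemma trig_part {a : ℕ} {T : Finset ι} {c : ι → Fin r → ℝ} {F : ι → X r → ℂ}
    {A : Matrix (Fin r) (Fin r) ℝ} {b N : ℝ}
    (hF : ∀ i ∈ T, Trig (F i) (Box A b N (c i))) (J : Fin r → ℤ) :
    Trig (part a T c F J) (fr a T c b N J) := by
  unfold part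
  refine Trig.sum _ fun i hi => ?_
  refine (hF i (mem_sub.1 hi).1).mono fun x hx => ?_
  exact ⟨i, hi, hx.1⟩

lemma far {a : ℕ} {T : Finset ι} {c : ι → Fin r → ℝ} {b N : ℝ} (hb : 0 ≤ b)
    (hN : (2 : ℝ) ^ a ≤ N) {M : ℕ} (hM : 2 * b + 2 ≤ (M : ℝ)) {J J' : Fin r → ℤ} {k : Fin r}
    (hk : (M : ℤ) + 1 ≤ |J k - J' k|) {x y : X r} (hx : x ∈ fr a T c b N J)
    (hy : y ∈ fr a T c b N J') : 1 / (2 : ℝ) ^ a < ‖x - y‖ := by
  obtain ⟨i, hi, hxi⟩ := hx
  obtain ⟨j, hj, hyj⟩ := hy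
  have hi2 := (mem_sub.1 hi).2
  have hj2 := (mem_sub.1 hj).2
  have hR : (0 : ℝ) < 2 ^ a := by positivity
  have hN0 : 0 < N := lt_of_lt_of_le hR hN
  have hJ : J k = ⌊(2 : ℝ) ^ a * c i k⌋ := by rw [← hi2]; rfl
  have hJ' : J' k = ⌊(2 : ℝ) ^ a * c j k⌋ := by rw [← hj2]; rfl
  have h1 : (J k : ℝ) ≤ 2 ^ a * c i k := by rw [hJ]; exact Int.floor_le _
  have h2 : (2 : ℝ) ^ a * c i k < J k + 1 := by rw [hJ]; exact Int.lt_floor_add_one _
  have h3 : (J' k : ℝ) ≤ 2 ^ a * c j k := by rw [hJ']; exact Int.floor_le _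
  have h4 : (2 : ℝ) ^ a * c j k < J' k + 1 := by rw [hJ']; exact Int.lt_floor_add_one _
  have h5 : (M : ℝ) + 1 ≤ |(J k : ℝ) - J' k| := by exact_mod_cast hk
  have h6 : (M : ℝ) ≤ |(2 : ℝ) ^ a * c i k - 2 ^ a * c j k| := by
    rcases le_abs'.1 h5 with h | h
    · refine le_trans ?_ (neg_le_abs _)
      linarith
    · refine le_trans ?_ (le_abs_self _)
      linarith
  have h7 : (M : ℝ) ≤ 2 ^ a * |c i k - c j k| := by
    rwa [← mul_sub, abs_mul, abs_of_pos hR] at h6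
  have h8 : |x.1 k - c i k| ≤ b / N := by
    have := norm_le_pi_norm (x.1 - c i) k
    rw [Pi.sub_apply, Real.norm_eq_abs] at this
    exact this.trans hxi
  have h9 : |y.1 k - c j k| ≤ b / N := by
    have := norm_le_pi_norm (y.1 - c j) k
    rw [Pi.sub_apply, Real.norm_eq_abs] at this
    exact this.trans hyj
  have h10 : |x.1 k - y.1 k| ≤ ‖x - y‖ := by
    have e1 := norm_le_pi_norm (x.1 - y.1) k
    rw [Pi.sub_apply, Real.norm_eq_abs] at e1
    exact e1.trans (norm_fst_le (x - y))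
  have h11 : |c i k - c j k| ≤ |x.1 k - y.1 k| + b / N + b / N := by
    have : c i k - c j k = (x.1 k - y.1 k) - (x.1 k - c i k) + (y.1 k - c j k) := by ring
    rw [this]
    refine (abs_add_le _ _).trans ?_
    have := abs_sub (x.1 k - y.1 k) (x.1 k - c i k)
    linarith
  have h12 : b / N ≤ b / 2 ^ a := div_le_div_of_nonneg_left hb hR hN
  have h13 : 2 ^ a * (b / (2 : ℝ) ^ a) = b := by field_simp
  rw [div_lt_iff₀ hR]
  have h14 : 2 ^ a * |c i k - c j k| ≤ 2 ^ a * (‖x - y‖ + b / 2 ^ a + b / 2 ^ a) :=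
    mul_le_mul_of_nonneg_left (by linarith) hR.le
  have h15 : (2 : ℝ) ^ a * (‖x - y‖ + b / 2 ^ a + b / 2 ^ a) = ‖x - y‖ * 2 ^ a + 2 * b := by
    rw [mul_add, mul_add, h13]; ring
  linarith

end COrthC

open COrthC in
theorem t_OrthC (h1 : Stmt_Orth) : Stmt_C_OrthC := by
  intro r E b hE hb
  set M : ℕ := ⌈2 * b⌉₊ + 2 with hMd
  have hM : 2 * b + 2 ≤ (M : ℝ) := by
    rw [hMd]; push_cast
    have := Nat.le_ceil (2 * b)
    linarith
  obtain ⟨C, hC0, hC⟩ := h1 r ((2 * M + 1) ^ r) E hE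
  refine ⟨C, hC0, fun N a hN A ι T c F hF w hw => ?_⟩
  have hR : (0 : ℝ) < 2 ^ a := by positivity
  have key := hC ((2 : ℝ) ^ a) hR (Fin r → ℤ) (cells a T c) (part a T c F) (fr a T c b N)
    (fun J _ => trig_part hF J) ?_ w hw
  · have e : (fun y => ∑ J ∈ cells a T c, part a T c F J y) = fun y => ∑ i ∈ T, F i y :=
      funext fun y => sum_part a T c F y
    rw [e] at key
    exact key
  · intro J _
    classical
    refine ⟨Fintype.piFinset fun k => Finset.Icc (J k - M) (J k + M), ?_, ?_⟩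
    · rw [Fintype.card_piFinset]
      have : ∀ k : Fin r, (Finset.Icc (J k - (M : ℤ)) (J k + M)).card = 2 * M + 1 := by
        intro k
        rw [Int.card_Icc]
        omega
      simp only [this]
      rw [Finset.prod_const, Finset.card_univ, Fintype.card_fin]
    · intro J' _ hJ' x hx y hy
      rw [Fintype.mem_piFinset] at hJ'
      push Not at hJ'
      obtain ⟨k, hk⟩ := hJ'
      rw [Finset.mem_Icc] at hk
      refine far (by linarith) hN hM (k := k) ?_ hx hy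
      by_contra hcon
      push Not at hcon
      apply hk
      have := abs_lt.1 hcon
      constructor <;> omega

end DEC
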