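import Pool.Agent.DEC.StmtsC
import Pool.Agent.DEC.CBasic
import Pool.Agent.DEC.WLC
import Pool.Agent.DEC.CH2

/-!
# DEC, module C_Up: from the scale `R = 2^a` to the scale `R^2` with the exponent `s`
-/

open MeasureTheory
open scoped ENNReal Matrix

namespace DEC

namespace CUp

variable {r : ℕ}

/-- The functions `|G|^s` as powers of `|G|^2`. -/
lemma pw_rpow {s : ℝ} (G : X r → ℂ) (y : X r) : pw 2 G y ^ (s / 2) = pw s G y := by
  unfold pw
  rw [← ENNReal.rpow_mul]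
  congr 1
  ring

/-- Jensen's inequality for the average over balls. -/
lemma av_two_le {R α' CM s : ℝ} (hs : 2 ≤ s) (hCM : 0 < CM)
    (hmass : ∫⁻ u : X r, wt R α' u = ENNReal.ofReal CM) {G : X r → ℂ} (hG : Continuous G)
    (z : X r) :
    av R α' (pw 2 G) z ≤
      ENNReal.ofReal ((CM ^ (s / 2 - 1)) ^ (2 / s)) * av R α' (pw s G) z ^ (2 / s) := by
  have hs0 : 0 < s := by linarith
  have hq : 1 ≤ s / 2 := by linarith
  have h := CH2.jensen (R := R) (α := α') hq (measurable_pw_of_continuous hG 2) z _ hmass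
  have e : (fun y => pw 2 G y ^ (s / 2)) = pw s G := funext fun y => pw_rpow G y
  rw [e] at h
  have h2 := ENNReal.rpow_le_rpow h (by positivity : (0 : ℝ) ≤ 2 / s)
  rw [← ENNReal.rpow_mul] at h2
  have e2 : s / 2 * (2 / s) = 1 := by field_simp
  rw [e2, ENNReal.rpow_one, ENNReal.mul_rpow_of_nonneg _ _ (by positivity : (0 : ℝ) ≤ 2 / s),
    ENNReal.ofReal_rpow_of_nonneg hCM.le (by linarith),
    ENNReal.ofReal_rpow_of_nonneg (Real.rpow_nonneg hCM.le _) (by positivity)] at h2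
  exact h2

/-- The constant comes out of the product and the integral. -/
lemma pull {K : ℝ} (hK : 0 ≤ K) {e : ℝ} (he : 0 ≤ e) (g h : Fin (r + 1) → X r → ℝ≥0∞)
    (w : X r → ℝ≥0∞) (hgh : ∀ k z, g k z ≤ ENNReal.ofReal K * h k z) :
    ∫⁻ z, (∏ k, g k z ^ e) * w z ≤
      ENNReal.ofReal ((K ^ e) ^ (r + 1)) * ∫⁻ z, (∏ k, h k z ^ e) * w z := by
  rw [← lintegral_const_mul' _ _ ENNReal.ofReal_ne_top]
  refine lintegral_mono fun z => ?_
  show (∏ k, g k z ^ e) * w z ≤ ENNReal.ofReal ((K ^ e) ^ (r + 1)) * ((∏ k, h k z ^ e) * w z)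
  rw [← mul_assoc]
  refine mul_le_mul' ?_ le_rfl
  calc ∏ k, g k z ^ e ≤ ∏ k, (ENNReal.ofReal (K ^ e) * h k z ^ e) := by
        refine Finset.prod_le_prod' fun k _ => ?_
        refine (ENNReal.rpow_le_rpow (hgh k z) he).trans (le_of_eq ?_)
        rw [ENNReal.mul_rpow_of_nonneg _ _ he, ENNReal.ofReal_rpow_of_nonneg hK he]
    _ = ENNReal.ofReal ((K ^ e) ^ (r + 1)) * ∏ k, h k z ^ e := by
        rw [Finset.prod_mul_distrib, Finset.prod_const, Finset.card_univ, Fintype.card_fin,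
          ENNReal.ofReal_pow (Real.rpow_nonneg hK _)]

end CUp

open CUp in
theorem t_Up (h1 : Stmt_LC) (h2 : Stmt_Inf) (h3 : Stmt_DetA) (h4 : Stmt_AvBasic)
    (h5 : Stmt_WtBasic) : Stmt_C_Up := by
  classical
  intro r p s E l L b α hr hp hs hps hE hl hb hα
  have hs0 : 0 < s := by linarith
  have hr0 : (0 : ℝ) ≤ r := Nat.cast_nonneg r
  set V : ℝ := |L| * (1 + r * 1 ^ 2) with hV
  obtain ⟨aI, haI, hI⟩ := h2 r p s α E V hr (by linarith) hs hps hα hE
  obtain ⟨aL, CL, haL, hCL, hLC⟩ := h1 r s aI (b + 1) l L 1 (by linarith) haI hl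
  set α' : ℝ := max aL (E + r + 2) with hα'
  have hα1 : E + r + 1 < α' := lt_of_lt_of_le (by linarith) (le_max_right _ _)
  refine ⟨α', hα1, ?_⟩
  intro ν ε hν hε
  obtain ⟨C, hC, hI⟩ := hI ((2 * l) ^ r * ν) ε (by positivity) hε
  obtain ⟨CM, hCM, hmass⟩ := h4.1 r α' (by linarith)
  set e : ℝ := p / (2 * ((r : ℝ) + 1)) with he
  have he0 : 0 ≤ e := by
    have : 0 ≤ p := by linarith
    positivity
  set K : ℝ := (CM ^ (s / 2 - 1)) ^ (2 / s) * CL ^ (2 / s) with hK
  have hK0 : 0 < K := by positivity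
  refine ⟨(K ^ e) ^ (r + 1) * C, by positivity, ?_⟩
  intro N a haN A ι S c F hA hFam T hT hTr w hw
  set R : ℝ := (2 : ℝ) ^ a with hR
  have hR1 : 1 ≤ R := one_le_pow₀ (by norm_num)
  have hR0 : 0 < R := by linarith
  have hRN : R ≤ N := by nlinarith
  have hN1 : 1 ≤ N := hR1.trans hRN
  have hwR : Wt (R ^ 2) E w :=
    ((h5 r (N ^ 2) E (by positivity) hE).1 w hw).2 _ E (by positivity) (by nlinarith) le_rfl
  -- a centre for every cell
  have hch : ∀ (k : Fin (r + 1)) (J : Fin r → ℤ), ∃ ξ : Fin r → ℝ, ‖ξ‖ ≤ 1 ∧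
      (J ∈ cells a (T k) c → ∃ i ∈ sub a (T k) c J, c i = ξ) := by
    intro k J
    by_cases hJ : J ∈ cells a (T k) c
    · obtain ⟨i, hi⟩ := exists_mem_sub hJ
      exact ⟨c i, hFam.ball i (hT k (sub_subset J hi)), fun _ => ⟨i, hi, rfl⟩⟩
    · exact ⟨0, by simp, fun h => absurd h hJ⟩
  choose ξ hξ1 hξ2 using hch
  have hcont : ∀ (k : Fin (r + 1)) (J : Fin r → ℤ), Continuous (part a (T k) c F J) :=
    fun k J => part_continuous (fun i hi => hFam.trig i (hT k hi)) J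
  -- the pointwise bound for one part
  have hpt : ∀ (k : Fin (r + 1)) (J : Fin r → ℤ), J ∈ cells a (T k) c → ∀ z : X r,
      av R α' (pw 2 (part a (T k) c F J)) z ≤ ENNReal.ofReal K *
        avT R aI ((2 : ℝ) • (A *ᵥ ξ k J)) (pw s (part a (T k) c F J)) z ^ (2 / s) := by
    intro k J hJ z
    obtain ⟨i, hi, hic⟩ := hξ2 k J hJ
    have htr : Trig (part a (T k) c F J) (Box A (b + 1) R (ξ k J)) := by
      rw [← hic]
      exact part_trig (by linarith) hRN (fun j hj => hFam.trig j (hT k hj)) hi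
    have e1 := av_two_le hs hCM (hmass R hR0) (hcont k J) z
    have e2 : av R α' (pw s (part a (T k) c F J)) z ≤ ENNReal.ofReal CL *
        avT R aI ((2 : ℝ) • (A *ᵥ ξ k J)) (pw s (part a (T k) c F J)) z :=
      (av_anti hR0 (le_max_left _ _) _ z).trans
        (hLC R A (ξ k J) _ hR1 hA (hξ1 k J) htr z)
    have e3 := ENNReal.rpow_le_rpow e2 (by positivity : (0 : ℝ) ≤ 2 / s)
    rw [ENNReal.mul_rpow_of_nonneg _ _ (by positivity : (0 : ℝ) ≤ 2 / s),
      ENNReal.ofReal_rpow_of_nonneg hCL.le (by positivity)] at e3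
    refine e1.trans ((mul_le_mul' le_rfl e3).trans (le_of_eq ?_))
    rw [← mul_assoc, hK, ENNReal.ofReal_mul (by positivity)]
  -- the sum over the cells
  have hsum : ∀ (k : Fin (r + 1)) (z : X r),
      ∑ J ∈ cells a (T k) c, av R α' (pw 2 (part a (T k) c F J)) z ≤ ENNReal.ofReal K *
        ∑ J ∈ cells a (T k) c,
          avT R aI ((2 : ℝ) • (A *ᵥ ξ k J)) (pw s (part a (T k) c F J)) z ^ (2 / s) := by
    intro k z
    rw [Finset.mul_sum]
    exact Finset.sum_le_sum fun J hJ => hpt k J hJ z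
  have hfirst := pull hK0.le he0
    (fun k z => ∑ J ∈ cells a (T k) c, av R α' (pw 2 (part a (T k) c F J)) z)
    (fun k z => ∑ J ∈ cells a (T k) c,
      avT R aI ((2 : ℝ) • (A *ᵥ ξ k J)) (pw s (part a (T k) c F J)) z ^ (2 / s)) w hsum
  -- the inflation
  have emb : ∀ k : Fin (r + 1), Function.Injective fun J : Fin r → ℤ => (k, J) :=
    fun k J J' h => (Prod.mk.inj h).2
  have hinf := hI R hR1 (Fin (r + 1) × (Fin r → ℤ))
    (fun k => (cells a (T k) c).map ⟨fun J => (k, J), emb k⟩)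
    (fun q => (2 : ℝ) • (A *ᵥ ξ q.1 q.2))
    (fun k j _ => W_LC.norm_bound hl hA (hξ1 j.1 j.2))
    (by
      intro j hj
      have hj' : ∀ k, (j k).1 = k ∧ (j k).2 ∈ cells a (T k) c := by
        intro k
        obtain ⟨J, hJ, hJe⟩ := Finset.mem_map.1 (hj k)
        have hJe' : (k, J) = j k := hJe
        rw [← hJe']
        exact ⟨rfl, hJ⟩
      have hi : ∀ k, ∃ i ∈ T k, c i = ξ (j k).1 (j k).2 := by
        intro k
        have h6 := hξ2 k (j k).2 (hj' k).2
        obtain ⟨i, hi, hic⟩ := h6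
        exact ⟨i, sub_subset _ hi, by rw [hic, (hj' k).1]⟩
      choose i hiT hic using hi
      have h7 := hTr i hiT
      have h8 := h3 r l L A (fun k => c (i k)) hl hA
      have h9 : (2 * l) ^ r * ν ≤ (2 * l) ^ r * |dt fun k => c (i k)| :=
        mul_le_mul_of_nonneg_left h7 (by positivity)
      have h10 : (fun k => (2 : ℝ) • (A *ᵥ ξ (j k).1 (j k).2)) =
          fun k => (2 : ℝ) • (A *ᵥ c (i k)) := by
        funext k
        rw [hic]
      show (2 * l) ^ r * ν ≤ |dt fun k => (2 : ℝ) • (A *ᵥ ξ (j k).1 (j k).2)|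
      rw [h10]
      exact h9.trans h8)
    (fun q => pw s (part a (T q.1) c F q.2))
    (fun q => measurable_pw_of_continuous (hcont q.1 q.2) s) w hwR
  simp only [Finset.sum_map, Function.Embedding.coeFn_mk] at hinf
  unfold Ch
  refine hfirst.trans ((mul_le_mul' le_rfl hinf).trans (le_of_eq ?_))
  rw [← mul_assoc, ← ENNReal.ofReal_mul (by positivity)]
  congr 2
  ring

end DEC
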