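import Mathlib

/-!
# l^2 decoupling for elliptic paraboloids: definitions

`r` is the dimension of the frequency space, `n = r + 1` the dimension of space-time
`X r = R^r x R`, sup norms everywhere. `A` is a symmetric positive definite matrix, the paraboloid
is `tau = qf A eta`. Functions are finite trigonometric sums, integrals are lower integrals.
-/

open MeasureTheory
open scoped ENNReal Matrix

namespace DEC

/-- Space-time `R^r x R` with the sup norm. -/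
abbrev X (r : ℕ) := (Fin r → ℝ) × ℝ

/-- The character `exp (2 π i θ)`. -/
noncomputable def ee (θ : ℝ) : ℂ := Complex.exp (2 * Real.pi * θ * Complex.I)

/-- The pairing of a frequency `(η, τ)` and a point `(x, t)`: `η · x + τ t`. -/
def pr {r : ℕ} (w z : X r) : ℝ := w.1 ⬝ᵥ z.1 + w.2 * z.2

/-- `F` is a finite trigonometric sum with frequencies in `S`. -/
def Trig {r : ℕ} (F : X r → ℂ) (S : Set (X r)) : Prop :=
  ∃ (m : ℕ) (a : Fin m → ℂ) (w : Fin m → X r), (∀ i, w i ∈ S) ∧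
    ∀ z, F z = ∑ i, a i * ee (pr (w i) z)

/-- The quadratic form of the matrix `A`. -/
def qf {r : ℕ} (A : Matrix (Fin r) (Fin r) ℝ) (η : Fin r → ℝ) : ℝ := η ⬝ᵥ (A *ᵥ η)

/-- `A` is symmetric and `l |η|^2 ≤ qf A η ≤ L |η|^2` (Euclidean norm). -/
structure QF {r : ℕ} (l L : ℝ) (A : Matrix (Fin r) (Fin r) ℝ) : Prop where
  symm : A.IsSymm
  lower : ∀ η : Fin r → ℝ, l * ∑ i, η i ^ 2 ≤ qf A η
  upper : ∀ η : Fin r → ℝ, qf A η ≤ L * ∑ i, η i ^ 2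

/-- The part of the `b / N^2`-neighbourhood of the paraboloid over the `b / N`-cube about `p`. -/
def Box {r : ℕ} (A : Matrix (Fin r) (Fin r) ℝ) (b N : ℝ) (p : Fin r → ℝ) : Set (X r) :=
  {w | ‖w.1 - p‖ ≤ b / N ∧ |w.2 - qf A w.1| ≤ b / N ^ 2}

/-- The class of weights which are essentially constant at the scale `R`:
`w x ≤ w y (1 + |x - y| / R)^E`. -/
def Wt {r : ℕ} (R E : ℝ) (w : X r → ℝ≥0∞) : Prop :=
  ∀ x y, w x ≤ w y * ENNReal.ofReal ((1 + ‖x - y‖ / R) ^ E)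

/-- The norm of `L^p (w dx)`. -/
noncomputable def nw {r : ℕ} (p : ℝ) (w : X r → ℝ≥0∞) (F : X r → ℂ) : ℝ≥0∞ :=
  (∫⁻ x, ‖F x‖ₑ ^ p * w x) ^ (1 / p)

/-- The square function norm `(∑ ‖F_i‖^2)^(1/2)`. -/
noncomputable def sq {r : ℕ} {ι : Type} (p : ℝ) (w : X r → ℝ≥0∞) (S : Finset ι)
    (F : ι → X r → ℂ) : ℝ≥0∞ :=
  (∑ i ∈ S, nw p w (F i) ^ (2 : ℝ)) ^ (1 / 2 : ℝ)

/-- An admissible family at scale `N`: the centres `c i` lie in the unit cube and are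
`1/N`-separated, the frequencies of `F i` lie in the box of `c i`. -/
structure Fam {r : ℕ} {ι : Type} (A : Matrix (Fin r) (Fin r) ℝ) (b N : ℝ) (S : Finset ι)
    (c : ι → Fin r → ℝ) (F : ι → X r → ℂ) : Prop where
  ball : ∀ i ∈ S, ‖c i‖ ≤ 1
  sep : ∀ i ∈ S, ∀ j ∈ S, i ≠ j → 1 / N ≤ ‖c i - c j‖
  trig : ∀ i ∈ S, Trig (F i) (Box A b N (c i))

/-- The decoupling inequality at scale `N` with the constant `D`, for all forms with bounds
`l, L`, thickness `b` and all weights at scale `N^2`. -/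
def Dec (r : ℕ) (p E l L b N D : ℝ) : Prop :=
  ∀ A : Matrix (Fin r) (Fin r) ℝ, QF l L A → ∀ (ι : Type) (S : Finset ι) (c : ι → Fin r → ℝ)
    (F : ι → X r → ℂ), Fam A b N S c F → ∀ w : X r → ℝ≥0∞, Wt (N ^ 2) E w →
      nw p w (fun z => ∑ i ∈ S, F i z) ≤ ENNReal.ofReal D * sq p w S F

/-- The `L^1`-normalized kernel `R^(-n) (1 + |u| / R)^(-a)`. -/
noncomputable def wt {r : ℕ} (R a : ℝ) (u : X r) : ℝ≥0∞ :=
  ENNReal.ofReal (R ^ (-((r : ℝ) + 1)) * (1 + ‖u‖ / R) ^ (-a))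

/-- The average at scale `R`. -/
noncomputable def av {r : ℕ} (R a : ℝ) (f : X r → ℝ≥0∞) (z : X r) : ℝ≥0∞ :=
  ∫⁻ y, f y * wt R a (z - y)

/-- The `L^1`-normalized kernel of the tube `|x + t v| ≤ R`, `|t| ≤ R^2`. -/
noncomputable def wT {r : ℕ} (R a : ℝ) (v : Fin r → ℝ) (u : X r) : ℝ≥0∞ :=
  ENNReal.ofReal (R ^ (-((r : ℝ) + 2)) * (1 + ‖u.1 + u.2 • v‖ / R) ^ (-a)
    * (1 + |u.2| / R ^ 2) ^ (-a))

/-- The average over tubes. -/
noncomputable def avT {r : ℕ} (R a : ℝ) (v : Fin r → ℝ) (f : X r → ℝ≥0∞) (z : X r) : ℝ≥0∞ :=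
  ∫⁻ y, f y * wT R a v (z - y)

/-- `|F|^s` as a function with values in `[0, ∞]`. -/
noncomputable def pw {r : ℕ} (s : ℝ) (F : X r → ℂ) : X r → ℝ≥0∞ := fun y => ‖F y‖ₑ ^ s

/-- The determinant of the `r + 1` vectors `(x k, 1)`. -/
noncomputable def dt {r : ℕ} (x : Fin (r + 1) → Fin r → ℝ) : ℝ :=
  Matrix.det (Matrix.of fun a b : Fin (r + 1) => (Fin.snoc (α := fun _ => ℝ) (x a) 1 : _ → ℝ) b)

/-- The subfamilies `T 0, ..., T r` are transversal: `|dt| ≥ ν` for all choices of centres. -/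
def Tr {r : ℕ} {ι : Type} (ν : ℝ) (T : Fin (r + 1) → Finset ι) (c : ι → Fin r → ℝ) : Prop :=
  ∀ j : Fin (r + 1) → ι, (∀ k, j k ∈ T k) → ν ≤ |dt fun k => c (j k)|

/-- The multilinear inequality at scale `N` with the constant `M`. -/
def MDec (r : ℕ) (p E a l L b ν N M : ℝ) : Prop :=
  ∀ A : Matrix (Fin r) (Fin r) ℝ, QF l L A → ∀ (ι : Type) (S : Finset ι) (c : ι → Fin r → ℝ)
    (F : ι → X r → ℂ), Fam A b N S c F → ∀ T : Fin (r + 1) → Finset ι, (∀ k, T k ⊆ S) →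
      Tr ν T c → ∀ w : X r → ℝ≥0∞, Wt (N ^ 2) E w →
        ∫⁻ z, (∏ k, (av 1 a (pw 2 fun y => ∑ i ∈ T k, F i y) z) ^ (p / (2 * ((r : ℝ) + 1))))
          * w z ≤ (ENNReal.ofReal M * sq p w S F) ^ p

end DEC
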