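import Pool.Agent.DEC.Defs

/-!
# DEC, multilinear Kakeya and ball inflation: definitions

Coordinates inside the block K: `Fin (r + 1) → ℝ` with the sup norm; the last coordinate is time
(the module `K_Inf` translates to `X r = (Fin r → ℝ) × ℝ`).
-/

set_option autoImplicit false

namespace DEC

open MeasureTheory Set
open scoped ENNReal

/-- The profile `(1 + a)^(-E)`. -/
noncomputable def kr (E : ℕ) (a : ℝ) : ℝ≥0∞ := ENNReal.ofReal (((1 + a) ^ E)⁻¹)

/-- The superposition of smooth tubes: `ω = (v, z)` is the line through `z` of direction `v`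
(`v j = 1`), `W` is the width of the tubes, `μ` says how many tubes there are. The seminorm
`‖y - y j • v‖` measures the distance to the line. -/
noncomputable def hh {n : ℕ} (j : Fin n) (E : ℕ) (W : ℝ)
    (μ : Measure ((Fin n → ℝ) × (Fin n → ℝ))) (x : Fin n → ℝ) : ℝ≥0∞ :=
  ∫⁻ ω, kr E (‖(x - ω.2) - (x j - ω.2 j) • ω.1‖ / W) ∂μ

/-- Convolution. -/
noncomputable def kc {n : ℕ} (g k : (Fin n → ℝ) → ℝ≥0∞) (x : Fin n → ℝ) : ℝ≥0∞ :=
  ∫⁻ z, g z * k (x - z)

/-- The kernel of the averages over balls of radius `R`. -/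
noncomputable def kw (n E : ℕ) (R : ℝ) (y : Fin n → ℝ) : ℝ≥0∞ :=
  ENNReal.ofReal ((R ^ n)⁻¹) * kr E (‖y‖ / R)

/-- The average of `g` over the ball of radius `R` and centre `x`. -/
noncomputable def ka {n : ℕ} (g : (Fin n → ℝ) → ℝ≥0∞) (E : ℕ) (R : ℝ) (x : Fin n → ℝ) : ℝ≥0∞ :=
  kc g (kw n E R) x

/-- The kernel of the averages over tubes: width `ρ`, length `ρ ^ 2`, direction `v`
(`v (Fin.last r) = 1`). -/
noncomputable def kt (r N : ℕ) (v : Fin (r + 1) → ℝ) (ρ : ℝ) (y : Fin (r + 1) → ℝ) : ℝ≥0∞ :=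
  ENNReal.ofReal ((ρ ^ (r + 2))⁻¹) *
    kr N (max (‖y - y (Fin.last r) • v‖ / ρ) (|y (Fin.last r)| / ρ ^ 2))

end DEC
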