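import Pool.Agent.DEC.StmtsK

/-!
# DEC, block K, module K_AVG
-/

set_option autoImplicit false

namespace DEC

open MeasureTheory Set
open scoped ENNReal

namespace K_AVG

/-- Averaging over balls. -/
theorem swap {n : ℕ} (L : ℝ) (hL : 0 < L) (f : (Fin n → ℝ) → ℝ≥0∞) (hf : Measurable f) :
    ENNReal.ofReal ((2 * L) ^ n) * ∫⁻ x, f x = ∫⁻ y, ∫⁻ x in Metric.closedBall y L, f x := by
  have hms : MeasurableSet {p : (Fin n → ℝ) × (Fin n → ℝ) | dist p.1 p.2 ≤ L} :=
    (isClosed_le (by fun_prop) continuous_const).measurableSet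
  have hm : Measurable fun p : (Fin n → ℝ) × (Fin n → ℝ) =>
      Set.indicator {p : (Fin n → ℝ) × (Fin n → ℝ) | dist p.1 p.2 ≤ L} (fun p => f p.1) p :=
    (hf.comp measurable_fst).indicator hms
  have h1 : ∀ y, ∫⁻ x in Metric.closedBall y L, f x
      = ∫⁻ x, Set.indicator {p : (Fin n → ℝ) × (Fin n → ℝ) | dist p.1 p.2 ≤ L}
          (fun p => f p.1) (x, y) := by
    intro y
    rw [← lintegral_indicator Metric.isClosed_closedBall.measurableSet]
    refine lintegral_congr fun x => ?_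
    by_cases h : dist x y ≤ L
    · rw [Set.indicator_of_mem (show x ∈ Metric.closedBall y L from h),
        Set.indicator_of_mem (show (x, y) ∈ {p : (Fin n → ℝ) × (Fin n → ℝ) | dist p.1 p.2 ≤ L}
          from h)]
    · rw [Set.indicator_of_notMem (show x ∉ Metric.closedBall y L from h),
        Set.indicator_of_notMem (show (x, y) ∉ {p : (Fin n → ℝ) × (Fin n → ℝ) | dist p.1 p.2 ≤ L}
          from h)]
  have h2 : ∀ x, ∫⁻ y, Set.indicator {p : (Fin n → ℝ) × (Fin n → ℝ) | dist p.1 p.2 ≤ L}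
          (fun p => f p.1) (x, y) = ENNReal.ofReal ((2 * L) ^ n) * f x := by
    intro x
    have e : ∀ y, Set.indicator {p : (Fin n → ℝ) × (Fin n → ℝ) | dist p.1 p.2 ≤ L}
        (fun p => f p.1) (x, y) = Set.indicator (Metric.closedBall x L) (fun _ => f x) y := by
      intro y
      by_cases h : dist x y ≤ L
      · rw [Set.indicator_of_mem (show y ∈ Metric.closedBall x L from by
            rw [Metric.mem_closedBall, dist_comm]; exact h),
          Set.indicator_of_mem (show (x, y) ∈ {p : (Fin n → ℝ) × (Fin n → ℝ) | dist p.1 p.2 ≤ L}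
            from h)]
      · rw [Set.indicator_of_notMem (show y ∉ Metric.closedBall x L from by
            rw [Metric.mem_closedBall, dist_comm]; exact h),
          Set.indicator_of_notMem
            (show (x, y) ∉ {p : (Fin n → ℝ) × (Fin n → ℝ) | dist p.1 p.2 ≤ L} from h)]
    rw [lintegral_congr e, lintegral_indicator Metric.isClosed_closedBall.measurableSet,
      setLIntegral_const, Real.volume_pi_closedBall x hL.le, Fintype.card_fin, mul_comm]
  rw [lintegral_congr h1, ← lintegral_lintegral_swap hm.aemeasurable, lintegral_congr h2,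
    lintegral_const_mul _ hf]

end K_AVG

theorem AVG_thm (hS : Stmt_STEP) (hK : Stmt_KRB) (hH : Stmt_HHM) : Stmt_AVG := by
  intro r E F hr hE
  obtain ⟨C, hC, hstep⟩ := hS r E hr hE
  obtain ⟨-, -, hK3, -, hK5, -, -, -, -⟩ := hK
  obtain ⟨hH1, -, -, -, -, -⟩ := hH
  refine ⟨2 ^ F * C / 2 ^ (r + 1), by positivity, ?_⟩
  intro δ W R μ _ x0 hδ hδ1 hW hWR hμ
  have hL : 0 < W / δ := div_pos hW hδ
  have hR : 0 < R := lt_of_lt_of_le hL hWR
  have hΦm : ∀ V : ℝ, Measurable fun x => ∏ j, hh j E V (μ j) x ^ (1 / (r : ℝ)) := by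
    intro V
    exact Finset.measurable_fun_prod _ fun j _ => (hH1 (r + 1) j E V (μ j)).pow_const _
  have hwm : Measurable fun x : Fin (r + 1) → ℝ => kr F (‖x - x0‖ / R) :=
    (hK5 F).comp (((measurable_id.sub_const x0).norm).div_const R)
  -- the estimate on a ball
  have key : ∀ y, ∫⁻ x in Metric.closedBall y (W / δ),
      (∏ j, hh j E W (μ j) x ^ (1 / (r : ℝ))) * kr F (‖x - x0‖ / R)
      ≤ ENNReal.ofReal (C * W ^ (r + 1)) * ENNReal.ofReal (2 ^ F) *
        ((∏ j, hh j E (W / δ) (μ j) y ^ (1 / (r : ℝ))) * kr F (‖y - x0‖ / R)) := by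
    intro y
    calc ∫⁻ x in Metric.closedBall y (W / δ),
          (∏ j, hh j E W (μ j) x ^ (1 / (r : ℝ))) * kr F (‖x - x0‖ / R)
        ≤ ∫⁻ x in Metric.closedBall y (W / δ), (∏ j, hh j E W (μ j) x ^ (1 / (r : ℝ))) *
          (ENNReal.ofReal (2 ^ F) * kr F (‖y - x0‖ / R)) := by
          refine setLIntegral_mono' Metric.isClosed_closedBall.measurableSet fun x hx => ?_
          refine mul_le_mul_right ?_ _
          have h1 : ‖y - x0‖ / R ≤ ‖x - x0‖ / R + 1 := by
            rw [div_add_one hR.ne']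
            refine div_le_div_of_nonneg_right ?_ hR.le
            have h2 : ‖x - y‖ ≤ R := by
              rw [← dist_eq_norm]
              exact (Metric.mem_closedBall.1 hx).trans hWR
            have h3 : y - x0 = (x - x0) - (x - y) := by abel
            rw [h3]
            exact (norm_sub_le _ _).trans (by linarith)
          have h4 := hK3 F (‖y - x0‖ / R) (‖x - x0‖ / R) 1 (by positivity) (by positivity)
            zero_le_one h1
          rwa [show (1 : ℝ) + 1 = 2 by norm_num] at h4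
      _ = (∫⁻ x in Metric.closedBall y (W / δ), ∏ j, hh j E W (μ j) x ^ (1 / (r : ℝ))) *
          (ENNReal.ofReal (2 ^ F) * kr F (‖y - x0‖ / R)) := lintegral_mul_const _ (hΦm W)
      _ ≤ (ENNReal.ofReal (C * W ^ (r + 1)) *
            ∏ j, hh j E (W / δ) (μ j) y ^ (1 / (r : ℝ))) *
          (ENNReal.ofReal (2 ^ F) * kr F (‖y - x0‖ / R)) :=
          mul_le_mul_left (hstep δ W μ y hδ hδ1 hW hμ) _
      _ = ENNReal.ofReal (C * W ^ (r + 1)) * ENNReal.ofReal (2 ^ F) *
        ((∏ j, hh j E (W / δ) (μ j) y ^ (1 / (r : ℝ))) * kr F (‖y - x0‖ / R)) := by ring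
  have hsw := K_AVG.swap (n := r + 1) (W / δ) hL
    (fun x => (∏ j, hh j E W (μ j) x ^ (1 / (r : ℝ))) * kr F (‖x - x0‖ / R))
    ((hΦm W).mul hwm)
  have h0 : ENNReal.ofReal ((2 * (W / δ)) ^ (r + 1)) ≠ 0 := by
    rw [Ne, ENNReal.ofReal_eq_zero, not_le]
    positivity
  have ht : ENNReal.ofReal ((2 * (W / δ)) ^ (r + 1)) ≠ ⊤ := ENNReal.ofReal_ne_top
  have hmain : ENNReal.ofReal ((2 * (W / δ)) ^ (r + 1)) *
      ∫⁻ x, (∏ j, hh j E W (μ j) x ^ (1 / (r : ℝ))) * kr F (‖x - x0‖ / R)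
      ≤ ENNReal.ofReal (C * W ^ (r + 1)) * ENNReal.ofReal (2 ^ F) *
        ∫⁻ x, (∏ j, hh j E (W / δ) (μ j) x ^ (1 / (r : ℝ))) * kr F (‖x - x0‖ / R) := by
    rw [hsw]
    refine (lintegral_mono key).trans (le_of_eq ?_)
    have hm3 : Measurable fun x : Fin (r + 1) → ℝ =>
        (∏ j, hh j E (W / δ) (μ j) x ^ (1 / (r : ℝ))) * kr F (‖x - x0‖ / R) :=
      (hΦm (W / δ)).mul hwm
    exact lintegral_const_mul _ hm3
  have hc : ENNReal.ofReal ((2 * (W / δ)) ^ (r + 1)) *
      ENNReal.ofReal (2 ^ F * C / 2 ^ (r + 1) * δ ^ (r + 1))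
      = ENNReal.ofReal (C * W ^ (r + 1)) * ENNReal.ofReal (2 ^ F) := by
    rw [← ENNReal.ofReal_mul (by positivity), ← ENNReal.ofReal_mul (by positivity)]
    congr 1
    rw [mul_pow, div_pow]
    field_simp
  rw [← ENNReal.mul_le_mul_iff_right h0 ht, ← mul_assoc, hc]
  exact hmain

end DEC
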