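import Pool.Agent.DEC.StmtsK

/-!
# DEC: the face integral of a smooth tube
-/

set_option autoImplicit false

namespace DEC

open MeasureTheory Set
open scoped ENNReal

namespace K_FACE

theorem near (r E : ℕ) (C1 W L a : ℝ) (hC1 : 0 < C1) (hW : 0 < W) (hL : 0 < L) (ha0 : 0 ≤ a)
    (ha : a ≤ 2 * L) :
    ENNReal.ofReal (C1 * W ^ r) ≤
      ENNReal.ofReal ((C1 * 3 ^ E + 2 ^ r * 3 ^ E) * W ^ r) * kr E (a / L) := by
  unfold kr
  rw [← ENNReal.ofReal_mul (by positivity)]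
  apply ENNReal.ofReal_le_ofReal
  have h0 : 0 ≤ a / L := by positivity
  have h1 : 1 + a / L ≤ 3 := by
    have : a / L ≤ 2 := by
      rw [div_le_iff₀ hL]
      exact ha
    linarith
  have h2 : (1 + a / L) ^ E ≤ 3 ^ E := pow_le_pow_left₀ (by positivity) h1 E
  have h3 : 0 < (1 + a / L) ^ E := by positivity
  rw [← div_eq_mul_inv, le_div_iff₀ h3]
  have hWr : 0 < W ^ r := by positivity
  calc C1 * W ^ r * (1 + a / L) ^ E ≤ C1 * W ^ r * 3 ^ E := by gcongr
    _ = C1 * 3 ^ E * W ^ r := by ring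
    _ ≤ (C1 * 3 ^ E + 2 ^ r * 3 ^ E) * W ^ r := by
        apply mul_le_mul_of_nonneg_right _ hWr.le
        have : (0 : ℝ) ≤ 2 ^ r * 3 ^ E := by positivity
        linarith

theorem far (r E : ℕ) (hE : r + 1 ≤ E) (C1 W L a : ℝ) (hC1 : 0 < C1) (hW : 0 < W) (hWL : W ≤ L)
    (ha : 2 * L < a) :
    kr E (a / (2 * W)) * ENNReal.ofReal ((2 * L) ^ r) ≤
      ENNReal.ofReal ((C1 * 3 ^ E + 2 ^ r * 3 ^ E) * W ^ r) * kr E (a / L) := by
  have hL : 0 < L := lt_of_lt_of_le hW hWL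
  have ha0 : 0 < a := by linarith
  unfold kr
  rw [← ENNReal.ofReal_mul (by positivity), ← ENNReal.ofReal_mul (by positivity)]
  apply ENNReal.ofReal_le_ofReal
  have h1 : 1 + a / L ≤ 3 * W / L * (a / (2 * W)) := by
    have e : 3 * W / L * (a / (2 * W)) = a / L + (a / L) / 2 := by
      field_simp
      ring
    have h2 : 2 ≤ a / L := by
      rw [le_div_iff₀ hL]
      exact ha.le
    rw [e]
    linarith
  have h2 : 1 + a / L ≤ 3 * W / L * (1 + a / (2 * W)) := by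
    refine h1.trans ?_
    apply mul_le_mul_of_nonneg_left _ (by positivity)
    linarith
  have h3 : (1 + a / L) ^ E ≤ (3 * W / L) ^ E * (1 + a / (2 * W)) ^ E := by
    rw [← mul_pow]
    exact pow_le_pow_left₀ (by positivity) h2 E
  have hpos1 : 0 < (1 + a / L) ^ E := by positivity
  have hpos2 : 0 < (1 + a / (2 * W)) ^ E := by positivity
  rw [← div_eq_mul_inv _ ((1 + a / L) ^ E), le_div_iff₀ hpos1, mul_assoc, mul_comm (_⁻¹),
    ← div_eq_mul_inv, div_le_iff₀ hpos2]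
  have h4 : (2 * L) ^ r * (3 * W / L) ^ E ≤ 2 ^ r * 3 ^ E * W ^ r := by
    obtain ⟨k, rfl⟩ : ∃ k, E = r + k := ⟨E - r, by omega⟩
    have e1 : (2 * L) ^ r * (3 * W / L) ^ (r + k) =
        2 ^ r * 3 ^ (r + k) * W ^ r * (W / L) ^ k := by
      have : (3 * W / L) = 3 * (W / L) := by ring
      rw [this, mul_pow, mul_pow, pow_add (W / L) r k, div_pow W L r]
      field_simp
    rw [e1]
    have h5 : (W / L) ^ k ≤ 1 := by
      apply pow_le_one₀ (by positivity)
      rw [div_le_one hL]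
      exact hWL
    have h6 : (0 : ℝ) ≤ 2 ^ r * 3 ^ (r + k) * W ^ r := by positivity
    calc 2 ^ r * 3 ^ (r + k) * W ^ r * (W / L) ^ k ≤ 2 ^ r * 3 ^ (r + k) * W ^ r * 1 :=
          mul_le_mul_of_nonneg_left h5 h6
      _ = 2 ^ r * 3 ^ (r + k) * W ^ r := by ring
  calc (2 * L) ^ r * (1 + a / L) ^ E
      ≤ (2 * L) ^ r * ((3 * W / L) ^ E * (1 + a / (2 * W)) ^ E) := by gcongr
    _ = ((2 * L) ^ r * (3 * W / L) ^ E) * (1 + a / (2 * W)) ^ E := by ring
    _ ≤ (2 ^ r * 3 ^ E * W ^ r) * (1 + a / (2 * W)) ^ E := by gcongr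
    _ ≤ ((C1 * 3 ^ E + 2 ^ r * 3 ^ E) * W ^ r) * (1 + a / (2 * W)) ^ E := by
        apply mul_le_mul_of_nonneg_right _ hpos2.le
        apply mul_le_mul_of_nonneg_right _ (by positivity)
        have : (0 : ℝ) ≤ C1 * 3 ^ E := by positivity
        linarith

end K_FACE

theorem FACE_thm (hK : Stmt_KRB) : Stmt_FACE := by
  obtain ⟨h1, _, _, _, _, _, _, h8, _⟩ := hK
  intro r E hE
  obtain ⟨C1, hC1, hint⟩ := h8 r E hE
  refine ⟨C1 * 3 ^ E + 2 ^ r * 3 ^ E, by positivity, ?_⟩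
  intro W L u0 p hW hWL
  have hL : 0 < L := lt_of_lt_of_le hW hWL
  by_cases hcase : ‖u0 - p‖ ≤ 2 * L
  · have e1 : ∫⁻ u in Metric.closedBall u0 L, kr E (‖u - p‖ / W) ≤
        ∫⁻ u, kr E (‖u - p‖ / W) := setLIntegral_le_lintegral _ _
    have e2 : ∫⁻ u : Fin r → ℝ, kr E (‖u - p‖ / W) = ∫⁻ u : Fin r → ℝ, kr E (‖u‖ / W) :=
      lintegral_sub_right_eq_self (fun u : Fin r → ℝ => kr E (‖u‖ / W)) p
    refine (e1.trans (le_of_eq e2)).trans ((hint W hW).trans ?_)
    exact K_FACE.near r E C1 W L _ hC1 hW hL (norm_nonneg _) hcase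
  · push Not at hcase
    have e1 : ∫⁻ u in Metric.closedBall u0 L, kr E (‖u - p‖ / W) ≤
        ∫⁻ _u in Metric.closedBall u0 L, kr E (‖u0 - p‖ / (2 * W)) := by
      apply setLIntegral_mono' Metric.isClosed_closedBall.measurableSet
      intro u hu
      apply h1 E
      · positivity
      · have h2 : ‖u0 - p‖ ≤ ‖u0 - u‖ + ‖u - p‖ := by
          have : u0 - p = (u0 - u) + (u - p) := by abel
          rw [this]
          exact norm_add_le _ _
        have h3 : ‖u0 - u‖ ≤ L := by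
          rw [← dist_eq_norm, dist_comm]
          exact Metric.mem_closedBall.1 hu
        have h4 : ‖u0 - p‖ / 2 ≤ ‖u - p‖ := by linarith
        calc ‖u0 - p‖ / (2 * W) = ‖u0 - p‖ / 2 / W := by rw [div_div]
          _ ≤ ‖u - p‖ / W := by gcongr
    refine e1.trans ?_
    rw [setLIntegral_const, Real.volume_pi_closedBall _ hL.le, Fintype.card_fin]
    exact K_FACE.far r E hE C1 W L _ hC1 hW hWL hcase

end DEC
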