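import Pool.Agent.DEC.StmtsK

/-!
# DEC, K_HHM: elementary properties of the superposition of tubes
-/

set_option autoImplicit false

namespace DEC

open MeasureTheory Set
open scoped ENNReal

namespace K_HHM

/-- The vector whose norm is the distance to the line. -/
def dv {n : ℕ} (j : Fin n) (x : Fin n → ℝ) (ω : (Fin n → ℝ) × (Fin n → ℝ)) : Fin n → ℝ :=
  (x - ω.2) - (x j - ω.2 j) • ω.1

theorem hh_eq {n : ℕ} (j : Fin n) (E : ℕ) (W : ℝ)
    (μ : Measure ((Fin n → ℝ) × (Fin n → ℝ))) (x : Fin n → ℝ) :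
    hh j E W μ x = ∫⁻ ω, kr E (‖dv j x ω‖ / W) ∂μ := rfl

theorem dv_sub {n : ℕ} (j : Fin n) (x x' : Fin n → ℝ) (ω : (Fin n → ℝ) × (Fin n → ℝ)) :
    dv j x' ω - dv j x ω = (x' - x) - (x' j - x j) • ω.1 := by
  funext i
  simp only [dv, Pi.sub_apply, Pi.smul_apply, smul_eq_mul]
  ring

theorem measurable_dv {n : ℕ} (j : Fin n) :
    Measurable fun p : (Fin n → ℝ) × ((Fin n → ℝ) × (Fin n → ℝ)) => dv j p.1 p.2 := by
  have hc : Continuous fun p : (Fin n → ℝ) × ((Fin n → ℝ) × (Fin n → ℝ)) => dv j p.1 p.2 := by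
    unfold dv
    fun_prop
  exact hc.measurable

theorem norm_dv_le {n : ℕ} (j : Fin n) (x x' : Fin n → ℝ) (ω : (Fin n → ℝ) × (Fin n → ℝ)) :
    ‖dv j x' ω‖ ≤ ‖dv j x ω‖ + ‖(x' - x) - (x' j - x j) • ω.1‖ := by
  have h : dv j x' ω = dv j x ω + ((x' - x) - (x' j - x j) • ω.1) := by
    rw [← dv_sub]
    abel
  rw [h]
  exact norm_add_le _ _

end K_HHM

open K_HHM in
/-- K_HHM. -/
theorem HHM_thm (hK : Stmt_KRB) : Stmt_HHM := by
  obtain ⟨k1, -, k3, -, k5, k6, -⟩ := hK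
  refine ⟨?_, ?_, ?_, ?_, ?_, ?_⟩
  · intro n j E W μ _
    have hm : Measurable fun p : (Fin n → ℝ) × ((Fin n → ℝ) × (Fin n → ℝ)) =>
        kr E (‖dv j p.1 p.2‖ / W) :=
      (k5 E).comp ((measurable_dv j).norm.div_const W)
    have h2 := hm.lintegral_prod_right' (ν := μ)
    exact h2
  · intro n j E W L μ x hW hWL
    rw [hh_eq, hh_eq]
    refine lintegral_mono fun ω => ?_
    have hL : 0 < L := lt_of_lt_of_le hW hWL
    exact k1 E _ _ (div_nonneg (norm_nonneg _) hL.le)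
      (div_le_div_of_nonneg_left (norm_nonneg _) hW hWL)
  · intro n j E R B μ x x0 hR hB hμ
    rw [hh_eq, hh_eq, ← lintegral_const_mul' _ _ ENNReal.ofReal_ne_top]
    refine lintegral_mono_ae ?_
    filter_upwards [hμ] with ω hω
    have hx : 0 ≤ ‖x - x0‖ := norm_nonneg _
    have hcomp : |x0 j - x j| ≤ ‖x - x0‖ := by
      have := norm_le_pi_norm (x - x0) j
      rw [Pi.sub_apply, Real.norm_eq_abs] at this
      rwa [abs_sub_comm]
    have hd : ‖(x0 - x) - (x0 j - x j) • ω.1‖ ≤ (1 + B) * ‖x - x0‖ := by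
      calc ‖(x0 - x) - (x0 j - x j) • ω.1‖ ≤ ‖x0 - x‖ + ‖(x0 j - x j) • ω.1‖ := norm_sub_le _ _
        _ = ‖x - x0‖ + |x0 j - x j| * ‖ω.1‖ := by
            rw [norm_sub_rev, norm_smul, Real.norm_eq_abs]
        _ ≤ ‖x - x0‖ + ‖x - x0‖ * B :=
            add_le_add le_rfl (mul_le_mul hcomp hω (norm_nonneg _) hx)
        _ = (1 + B) * ‖x - x0‖ := by ring
    refine k3 E (‖dv j x0 ω‖ / R) (‖dv j x ω‖ / R) ((1 + B) * (‖x - x0‖ / R))
      (div_nonneg (norm_nonneg _) hR.le) (div_nonneg (norm_nonneg _) hR.le)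
      (mul_nonneg (by linarith) (div_nonneg hx hR.le)) ?_
    rw [← mul_div_assoc, ← add_div]
    exact div_le_div_of_nonneg_right ((norm_dv_le j x x0 ω).trans (add_le_add le_rfl hd)) hR.le
  · intro n j E W μ ν x
    rw [hh_eq, hh_eq, hh_eq, lintegral_add_measure]
  · intro n j E W μ x hW
    rw [hh_eq]
    calc ∫⁻ ω, kr E (‖dv j x ω‖ / W) ∂μ ≤ ∫⁻ _, 1 ∂μ :=
          lintegral_mono fun ω => (k6 E _ (div_nonneg (norm_nonneg _) hW.le)).2
      _ = μ univ := by rw [lintegral_one]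
  · intro n j E W δ μ x t hW hδ hxt hμ
    rw [hh_eq, hh_eq, ← lintegral_const_mul' _ _ ENNReal.ofReal_ne_top]
    refine lintegral_mono_ae ?_
    filter_upwards [hμ] with ω hω
    obtain ⟨h1, h2⟩ := hω
    have hd : ‖(Function.update x j t - x) - (Function.update x j t j - x j) • ω.1‖ ≤ W := by
      refine (pi_norm_le_iff_of_nonneg hW.le).2 fun i => ?_
      rw [Pi.sub_apply, Pi.sub_apply, Pi.smul_apply, smul_eq_mul, Function.update_self,
        Real.norm_eq_abs]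
      by_cases hi : i = j
      · rw [hi, Function.update_self, h1, mul_one, sub_self, abs_zero]
        exact hW.le
      · rw [Function.update_of_ne hi, sub_self, zero_sub, abs_neg, abs_mul, abs_sub_comm]
        exact (mul_le_mul_of_nonneg_left (h2 i hi) (abs_nonneg _)).trans hxt
    have h3 := k3 E (‖dv j (Function.update x j t) ω‖ / W) (‖dv j x ω‖ / W) 1
      (div_nonneg (norm_nonneg _) hW.le) (div_nonneg (norm_nonneg _) hW.le) zero_le_one (by
        rw [div_add_one hW.ne']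
        exact div_le_div_of_nonneg_right ((norm_dv_le j x _ ω).trans (add_le_add le_rfl hd)) hW.le)
    rw [one_add_one_eq_two] at h3
    exact h3

end DEC
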