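import Pool.Agent.DEC.StmtsK

/-!
# DEC, block K: the Hoelder inequality that replaces dyadic pigeonholing
-/

set_option autoImplicit false

namespace DEC

open scoped ENNReal

namespace K_HOL

variable {ι : Type}

/-- The multiplier. -/
noncomputable def lam (s : ℝ) (c : ι → ℝ≥0∞) (J : ι) : ℝ≥0∞ :=
  if c J = 0 then 0 else c J ^ (2 / s - 1)

lemma lam_zero {s : ℝ} {c : ι → ℝ≥0∞} {J : ι} (h : c J = 0) : lam s c J = 0 := if_pos h

lemma lam_ne {s : ℝ} {c : ι → ℝ≥0∞} {J : ι} (h : c J ≠ 0) : lam s c J = c J ^ (2 / s - 1) :=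
  if_neg h

lemma lam_ne_top {s : ℝ} {c : ι → ℝ≥0∞} {J : ι} (h : c J ≠ ⊤) : lam s c J ≠ ⊤ := by
  by_cases h0 : c J = 0
  · rw [lam_zero h0]; exact ENNReal.zero_ne_top
  · rw [lam_ne h0]
    exact ENNReal.rpow_ne_top_of_ne_zero h0 h

lemma lam_mul {s : ℝ} (hs : 2 ≤ s) {c : ι → ℝ≥0∞} {J : ι} (h : c J ≠ ⊤) :
    lam s c J * c J = c J ^ (2 / s) := by
  have hs0 : 0 < 2 / s := by positivity
  by_cases h0 : c J = 0
  · rw [h0, mul_zero, ENNReal.zero_rpow_of_pos hs0]
  · rw [lam_ne h0]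
    calc c J ^ (2 / s - 1) * c J = c J ^ (2 / s - 1) * c J ^ (1 : ℝ) := by rw [ENNReal.rpow_one]
      _ = c J ^ (2 / s - 1 + 1) := (ENNReal.rpow_add _ _ h0 h).symm
      _ = c J ^ (2 / s) := by congr 1; ring

/-- The pointwise identity. -/
lemma point {s : ℝ} (hs : 2 < s) {c : ι → ℝ≥0∞} {J : ι} (h : c J ≠ ⊤) (a : ℝ≥0∞)
    (ha : c J = 0 → a = 0) :
    a ^ (2 / s) = (lam s c J * a) ^ (2 / s) * (c J ^ (2 / s)) ^ (1 - 2 / s) := by
  have hs0 : 0 < 2 / s := by positivity
  by_cases h0 : c J = 0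
  · rw [ha h0, mul_zero, ENNReal.zero_rpow_of_pos hs0, zero_mul]
  · rw [lam_ne h0, ENNReal.mul_rpow_of_nonneg _ _ hs0.le, ← ENNReal.rpow_mul, ← ENNReal.rpow_mul,
      mul_right_comm, ← ENNReal.rpow_add _ _ h0 h]
    have : (2 / s - 1) * (2 / s) + 2 / s * (1 - 2 / s) = 0 := by ring
    rw [this, ENNReal.rpow_zero, one_mul]

end K_HOL

open K_HOL in
theorem HOL_thm : Stmt_HOL := by
  intro ι S s c hs hc
  refine ⟨lam s c, fun J hJ => lam_ne_top (hc J hJ),
    Finset.sum_congr rfl fun J hJ => lam_mul hs (hc J hJ), ?_⟩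
  intro a ha
  have hs0 : 0 < s := by linarith
  rcases hs.eq_or_lt with h2 | h2
  · subst h2
    have h1 : ∀ J ∈ S, a J = lam 2 c J * a J := by
      intro J hJ
      by_cases h0 : c J = 0
      · rw [ha J hJ h0, mul_zero]
      · rw [lam_ne h0]; norm_num
    have h3 : ∑ J ∈ S, a J = ∑ J ∈ S, lam 2 c J * a J := Finset.sum_congr rfl h1
    norm_num
    exact h3.le
  · have hpq : (s / 2).HolderConjugate (s / (s - 2)) := by
      rw [Real.holderConjugate_iff]
      constructor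
      · linarith
      · have : s - 2 ≠ 0 := by linarith
        field_simp
        ring
    have hq : 1 / (s / (s - 2)) = 1 - 2 / s := by
      have : s - 2 ≠ 0 := by linarith
      field_simp
    have hp : 1 / (s / 2) = 2 / s := by field_simp
    have hs2 : 0 < s / (s - 2) := by
      have : 0 < s - 2 := by linarith
      positivity
    have key := ENNReal.inner_le_Lp_mul_Lq S (fun J => (lam s c J * a J) ^ (2 / s))
      (fun J => (c J ^ (2 / s)) ^ (1 - 2 / s)) hpq
    have e1 : ∀ J, ((lam s c J * a J) ^ (2 / s)) ^ (s / 2) = lam s c J * a J := by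
      intro J
      rw [← ENNReal.rpow_mul]
      have : 2 / s * (s / 2) = 1 := by field_simp
      rw [this, ENNReal.rpow_one]
    have e2 : ∀ J, ((c J ^ (2 / s)) ^ (1 - 2 / s)) ^ (s / (s - 2)) = c J ^ (2 / s) := by
      intro J
      rw [← ENNReal.rpow_mul, ← hq]
      have : 1 / (s / (s - 2)) * (s / (s - 2)) = 1 := by field_simp
      rw [this, ENNReal.rpow_one]
    simp only [e1, e2, hq, hp] at key
    have e3 : ∑ J ∈ S, a J ^ (2 / s) =
        ∑ J ∈ S, (lam s c J * a J) ^ (2 / s) * (c J ^ (2 / s)) ^ (1 - 2 / s) :=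
      Finset.sum_congr rfl fun J hJ => point h2 (hc J hJ) (a J) (ha J hJ)
    rw [← e3] at key
    have h4 := ENNReal.rpow_le_rpow key (by positivity : (0 : ℝ) ≤ s / 2)
    refine h4.trans (le_of_eq ?_)
    rw [ENNReal.mul_rpow_of_nonneg _ _ (by positivity), ← ENNReal.rpow_mul, ← ENNReal.rpow_mul]
    have : 2 / s * (s / 2) = 1 := by field_simp
    rw [this, ENNReal.rpow_one]
    have : (1 - 2 / s) * (s / 2) = s / 2 - 1 := by field_simp
    rw [this]

end DEC
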