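import Pool.Agent.DEC.StmtsK

/-!
# DEC, block K: local inflation
-/

set_option autoImplicit false

namespace DEC

open MeasureTheory Set
open scoped ENNReal

namespace K_INF1

theorem kc_zero {n : ℕ} (g k : (Fin n → ℝ) → ℝ≥0∞) (x : Fin n → ℝ)
    (hg : g =ᵐ[volume] 0) : kc g k x = 0 := by
  unfold kc
  have : (fun z => g z * k (x - z)) =ᵐ[volume] fun _ => (0 : ℝ≥0∞) := by
    filter_upwards [hg] with z hz
    rw [hz]
    simp
  rw [lintegral_congr_ae this]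
  simp

theorem pow_int {α : Type} [MeasurableSpace α] (μ : Measure α) (F : α → ℝ≥0∞)
    (hF : AEMeasurable F μ) (θ : ℝ) (h0 : 0 ≤ θ) (h1 : θ ≤ 1) :
    ∫⁻ x, F x ^ θ ∂μ ≤ (∫⁻ x, F x ∂μ) ^ θ * (μ univ) ^ (1 - θ) := by
  have h := ENNReal.lintegral_mul_norm_pow_le (μ := μ) (f := F) (g := fun _ => 1) hF
    aemeasurable_const h0 (sub_nonneg.2 h1) (by ring)
  simpa using h

theorem prod_top {n : ℕ} (a : Fin n → ℝ≥0∞) (j : Fin n) (hj : a j = ⊤)
    (h : ∀ i, a i ≠ 0) : ∏ i, a i = ⊤ := by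
  rw [← Finset.mul_prod_erase Finset.univ a (Finset.mem_univ j), hj]
  apply ENNReal.top_mul
  exact Finset.prod_ne_zero_iff.2 fun i _ => h i

theorem const_bound (n : ℕ) (C ε ρ θ : ℝ) (hC : 0 < C) (hρ : 1 ≤ ρ) (hε : 0 < ε)
    (h0 : 0 ≤ θ) (h1 : θ ≤ 1) :
    ENNReal.ofReal (C * ρ ^ ε * ρ ^ (2 * n)) ^ θ *
      (ENNReal.ofReal ((2 * ρ ^ 2) ^ n)) ^ (1 - θ) ≤
      ENNReal.ofReal (2 ^ n * (C + 1) * ρ ^ ε * ρ ^ (2 * n)) := by
  have hρ0 : 0 < ρ := lt_of_lt_of_le one_pos hρ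
  have hρε : 1 ≤ ρ ^ ε := Real.one_le_rpow hρ hε.le
  have h2n : (1 : ℝ) ≤ 2 ^ n := one_le_pow₀ (by norm_num)
  have hρn : 0 < ρ ^ (2 * n) := pow_pos hρ0 _
  set M : ℝ := 2 ^ n * (C + 1) * ρ ^ ε * ρ ^ (2 * n) with hM
  have hMpos : 0 < M := by positivity
  have hb : C * ρ ^ ε * ρ ^ (2 * n) ≤ M := by
    rw [hM]
    apply mul_le_mul_of_nonneg_right _ hρn.le
    apply mul_le_mul_of_nonneg_right _ (by positivity)
    nlinarith
  have ha : (2 * ρ ^ 2) ^ n ≤ M := by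
    rw [hM, mul_pow, ← pow_mul]
    have : (1 : ℝ) ≤ (C + 1) * ρ ^ ε := by nlinarith
    calc (2 : ℝ) ^ n * ρ ^ (2 * n) = (2 ^ n * 1) * ρ ^ (2 * n) := by ring
      _ ≤ (2 ^ n * ((C + 1) * ρ ^ ε)) * ρ ^ (2 * n) := by
          apply mul_le_mul_of_nonneg_right _ hρn.le
          apply mul_le_mul_of_nonneg_left this (by positivity)
      _ = 2 ^ n * (C + 1) * ρ ^ ε * ρ ^ (2 * n) := by ring
  calc ENNReal.ofReal (C * ρ ^ ε * ρ ^ (2 * n)) ^ θ *
      (ENNReal.ofReal ((2 * ρ ^ 2) ^ n)) ^ (1 - θ)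
      ≤ ENNReal.ofReal M ^ θ * ENNReal.ofReal M ^ (1 - θ) := by
        apply mul_le_mul'
        · exact ENNReal.rpow_le_rpow (ENNReal.ofReal_le_ofReal hb) h0
        · exact ENNReal.rpow_le_rpow (ENNReal.ofReal_le_ofReal ha) (sub_nonneg.2 h1)
    _ = ENNReal.ofReal M := by
        rw [← ENNReal.rpow_add _ _ (by simpa using hMpos) ENNReal.ofReal_ne_top]
        simp

end K_INF1

open K_INF1 in
theorem INF1_thm : Stmt_MK → Stmt_KCM → Stmt_HOL → Stmt_INF1 := by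
  intro MK KCM HOL r E p s ε B ν hr hE hp hs hps hε hB hν
  obtain ⟨C₀, hC₀, hMK⟩ := MK r E ε B ν hr hE hε hB hν
  obtain ⟨kcm1, kcm2, kcm3, kcm4⟩ := KCM
  refine ⟨2 ^ (r + 1) * (C₀ + 1), by positivity, ?_⟩
  intro ι S v f ρ x0 hρ hf hv hdet
  have hρ0 : 0 < ρ := lt_of_lt_of_le one_pos hρ
  have hρ2 : 0 < ρ ^ 2 := by positivity
  have hr' : (1 : ℝ) ≤ r := by exact_mod_cast hr
  have hr0 : (0 : ℝ) < r := by linarith
  have hs0 : 0 < s := by linarith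
  have h2s : 0 < 2 / s := by positivity
  set q : ℝ := p / (2 * ((r : ℝ) + 1)) with hq
  have hq0 : 0 < q := by positivity
  set K : ι → (Fin (r + 1) → ℝ) → ℝ≥0∞ := fun J => kt r (2 * E) (v J) ρ with hK
  have hKm : ∀ J, Measurable (K J) := fun J => (kcm2 r (2 * E) (v J) ρ (f J) (hf J)).1
  have hWm : Measurable (kw (r + 1) E (ρ ^ 2)) :=
    (kcm1 (r + 1) E (ρ ^ 2) (fun _ => 0) measurable_const).1
  set c : ι → ℝ≥0∞ := fun J => ka (f J) E (ρ ^ 2) x0 with hc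
  -- vanishing
  have hvan : ∀ J, c J = 0 → ∀ x, kc (f J) (K J) x = 0 := fun J hJ x =>
    kc_zero _ _ _ (kcm3 (r + 1) E (ρ ^ 2) (f J) x0 hρ2 (hf J) hJ)
  set T' : Fin (r + 1) → ℝ≥0∞ := fun j => ∑ J ∈ S j, c J ^ (2 / s) with hT'
  change ∫⁻ x in Metric.closedBall x0 (ρ ^ 2),
      ∏ j, (∑ J ∈ S j, kc (f J) (K J) x ^ (2 / s)) ^ q ≤
      ENNReal.ofReal (2 ^ (r + 1) * (C₀ + 1) * ρ ^ ε * ρ ^ (2 * (r + 1))) * ∏ j, T' j ^ q
  by_cases hzero : ∃ j, T' j = 0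
  · obtain ⟨j, hj⟩ := hzero
    have hcj : ∀ J ∈ S j, c J = 0 := by
      intro J hJ
      have h1 : c J ^ (2 / s) = 0 := by
        have := (Finset.sum_eq_zero_iff.1 hj) J hJ
        exact this
      rcases ENNReal.rpow_eq_zero_iff.1 h1 with h | h
      · exact h.1
      · exact absurd h.2 (not_lt.2 h2s.le)
    have : ∀ x, ∏ j, (∑ J ∈ S j, kc (f J) (K J) x ^ (2 / s)) ^ q = 0 := by
      intro x
      apply Finset.prod_eq_zero (Finset.mem_univ j)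
      have : ∑ J ∈ S j, kc (f J) (K J) x ^ (2 / s) = 0 := by
        apply Finset.sum_eq_zero
        intro J hJ
        rw [hvan J (hcj J hJ) x, ENNReal.zero_rpow_of_pos h2s]
      rw [this, ENNReal.zero_rpow_of_pos hq0]
    simp only [this]
    simp
  push Not at hzero
  by_cases htop : ∃ j, T' j = ⊤
  · obtain ⟨j, hj⟩ := htop
    have : ∏ j, T' j ^ q = ⊤ := by
      apply prod_top _ j
      · rw [hj, ENNReal.top_rpow_of_pos hq0]
      · intro i h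
        rcases ENNReal.rpow_eq_zero_iff.1 h with h | h
        · exact hzero i h.1
        · exact absurd h.2 (not_lt.2 hq0.le)
    rw [this, ENNReal.mul_top]
    · exact le_top
    · have : 0 < 2 ^ (r + 1) * (C₀ + 1) * ρ ^ ε * ρ ^ (2 * (r + 1)) := by positivity
      simpa using this
  push Not at htop
  -- all finite
  have hcfin : ∀ j, ∀ J ∈ S j, c J ≠ ⊤ := by
    intro j J hJ h
    apply htop j
    rw [eq_top_iff]
    calc (⊤ : ℝ≥0∞) = c J ^ (2 / s) := by rw [h, ENNReal.top_rpow_of_pos h2s]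
      _ ≤ T' j := Finset.single_le_sum (f := fun J => c J ^ (2 / s)) (fun _ _ => zero_le) hJ
  choose l hl1 hl2 hl3 using fun j => HOL ι (S j) s c hs (hcfin j)
  -- MK
  let S' : Fin (r + 1) → Finset (Fin (r + 1) × ι) := fun j =>
    (S j).map ⟨fun J => (j, J), fun a b h => (Prod.mk.inj h).2⟩
  have hS' : ∀ j (q : Fin (r + 1) × ι), q ∈ S' j → q.2 ∈ S j := by
    intro j q hq
    simp only [S', Finset.mem_map, Function.Embedding.coeFn_mk] at hq
    obtain ⟨J, hJ, rfl⟩ := hq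
    exact hJ
  have hmk := hMK (Fin (r + 1) × ι) S' (fun q => v q.2) (fun q z => l q.1 q.2 * f q.2 z) ρ x0 hρ
    (fun q => (hf q.2).const_mul _) (fun j q hq => hv j q.2 (hS' j q hq))
    (fun J hJ => hdet (fun j => (J j).2) fun j => hS' j _ (hJ j))
  have hA : ∀ j x, ∑ J ∈ S' j, kc (fun z => l J.1 J.2 * f J.2 z) (kt r (2 * E) (v J.2) ρ) x
      = ∑ J ∈ S j, l j J * kc (f J) (K J) x := by
    intro j x
    simp only [S', Finset.sum_map, Function.Embedding.coeFn_mk]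
    apply Finset.sum_congr rfl
    intro J _
    exact kcm4 _ _ _ _ _ (hf J) (hKm J)
  have hA' : ∀ j, ∑ J ∈ S' j, ka (fun z => l J.1 J.2 * f J.2 z) E (ρ ^ 2) x0 = T' j := by
    intro j
    rw [show T' j = ∑ J ∈ S j, l j J * c J from (hl2 j).symm]
    simp only [S', Finset.sum_map, Function.Embedding.coeFn_mk]
    apply Finset.sum_congr rfl
    intro J _
    exact kcm4 _ _ _ _ _ (hf J) hWm
  simp only [hA, hA'] at hmk
  -- theta
  set θ : ℝ := p * r / ((r + 1) * s) with hθ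
  have hθ0 : 0 < θ := by positivity
  have hθ1 : θ ≤ 1 := by
    rw [hθ, div_le_one (by positivity)]
    linarith
  have hθq : q = (s / 2) * (θ / r) := by
    rw [hq, hθ]
    field_simp
  set Ψ : (Fin (r + 1) → ℝ) → ℝ≥0∞ := fun x =>
    ∏ j, (∑ J ∈ S j, l j J * kc (f J) (K J) x) ^ (1 / (r : ℝ)) with hΨ
  have hΨm : Measurable Ψ := by
    apply Finset.measurable_prod
    intro j _
    apply Measurable.pow_const
    apply Finset.measurable_sum
    intro J _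
    exact ((kcm2 r (2 * E) (v J) ρ (f J) (hf J)).2).const_mul _
  have hpt : ∀ x, ∏ j, (∑ J ∈ S j, kc (f J) (K J) x ^ (2 / s)) ^ q ≤
      Ψ x ^ θ * ∏ j, T' j ^ ((s / 2 - 1) * (θ / r)) := by
    intro x
    have h1 : ∀ j, (∑ J ∈ S j, kc (f J) (K J) x ^ (2 / s)) ^ q ≤
        ((∑ J ∈ S j, l j J * kc (f J) (K J) x) ^ (1 / (r : ℝ))) ^ θ *
          T' j ^ ((s / 2 - 1) * (θ / r)) := by
      intro j
      have h2 := hl3 j (fun J => kc (f J) (K J) x) (fun J _ hJ => hvan J hJ x)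
      rw [hθq, ENNReal.rpow_mul]
      calc ((∑ J ∈ S j, kc (f J) (K J) x ^ (2 / s)) ^ (s / 2)) ^ (θ / r)
          ≤ ((∑ J ∈ S j, l j J * kc (f J) (K J) x) * T' j ^ (s / 2 - 1)) ^ (θ / r) :=
            ENNReal.rpow_le_rpow h2 (by positivity)
        _ = ((∑ J ∈ S j, l j J * kc (f J) (K J) x) ^ (1 / (r : ℝ))) ^ θ *
          T' j ^ ((s / 2 - 1) * (θ / r)) := by
            rw [ENNReal.mul_rpow_of_nonneg _ _ (by positivity), ← ENNReal.rpow_mul,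
              ← ENNReal.rpow_mul]
            congr 2
            field_simp
    calc ∏ j, (∑ J ∈ S j, kc (f J) (K J) x ^ (2 / s)) ^ q
        ≤ ∏ j, (((∑ J ∈ S j, l j J * kc (f J) (K J) x) ^ (1 / (r : ℝ))) ^ θ *
          T' j ^ ((s / 2 - 1) * (θ / r))) := Finset.prod_le_prod' fun j _ => h1 j
      _ = Ψ x ^ θ * ∏ j, T' j ^ ((s / 2 - 1) * (θ / r)) := by
          rw [Finset.prod_mul_distrib, ENNReal.prod_rpow_of_nonneg hθ0.le]
  set Q : ℝ≥0∞ := ∏ j, T' j ^ ((s / 2 - 1) * (θ / r)) with hQ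
  have hvol : (volume.restrict (Metric.closedBall x0 (ρ ^ 2))) univ
      = ENNReal.ofReal ((2 * ρ ^ 2) ^ (r + 1)) := by
    rw [Measure.restrict_apply_univ, Real.volume_pi_closedBall _ hρ2.le]
    simp
  calc ∫⁻ x in Metric.closedBall x0 (ρ ^ 2),
        ∏ j, (∑ J ∈ S j, kc (f J) (K J) x ^ (2 / s)) ^ q
      ≤ ∫⁻ x in Metric.closedBall x0 (ρ ^ 2), Ψ x ^ θ * Q := lintegral_mono fun x => hpt x
    _ = (∫⁻ x in Metric.closedBall x0 (ρ ^ 2), Ψ x ^ θ) * Q :=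
        lintegral_mul_const _ (hΨm.pow_const _)
    _ ≤ ((∫⁻ x in Metric.closedBall x0 (ρ ^ 2), Ψ x) ^ θ *
          (ENNReal.ofReal ((2 * ρ ^ 2) ^ (r + 1))) ^ (1 - θ)) * Q := by
        rw [← hvol]
        exact mul_le_mul' (pow_int _ _ hΨm.aemeasurable θ hθ0.le hθ1) le_rfl
    _ ≤ ((ENNReal.ofReal (C₀ * ρ ^ ε * ρ ^ (2 * (r + 1))) *
          ∏ j, T' j ^ (1 / (r : ℝ))) ^ θ *
          (ENNReal.ofReal ((2 * ρ ^ 2) ^ (r + 1))) ^ (1 - θ)) * Q := by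
        apply mul_le_mul' _ le_rfl
        apply mul_le_mul' _ le_rfl
        exact ENNReal.rpow_le_rpow hmk hθ0.le
    _ = (ENNReal.ofReal (C₀ * ρ ^ ε * ρ ^ (2 * (r + 1))) ^ θ *
          (ENNReal.ofReal ((2 * ρ ^ 2) ^ (r + 1))) ^ (1 - θ)) *
          ((∏ j, T' j ^ (1 / (r : ℝ))) ^ θ * Q) := by
        rw [ENNReal.mul_rpow_of_nonneg _ _ hθ0.le]
        ring
    _ ≤ ENNReal.ofReal (2 ^ (r + 1) * (C₀ + 1) * ρ ^ ε * ρ ^ (2 * (r + 1))) *
          ∏ j, T' j ^ q := by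
        apply mul_le_mul' (const_bound (r + 1) C₀ ε ρ θ hC₀ hρ hε hθ0.le hθ1)
        apply le_of_eq
        rw [hQ, ← ENNReal.prod_rpow_of_nonneg hθ0.le, ← Finset.prod_mul_distrib]
        apply Finset.prod_congr rfl
        intro j _
        rw [← ENNReal.rpow_mul, ← ENNReal.rpow_add _ _ (hzero j) (htop j), hθq]
        congr 1
        field_simp
        ring

end DEC
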