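import Pool.Agent.DEC.StmtsK

/-!
# DEC, module K_INF2: ball inflation against a weight
-/

set_option autoImplicit false

namespace DEC

open MeasureTheory Set
open scoped ENNReal

namespace K_INF2

/-- Averaging over balls of radius `R` against a slowly varying weight. -/
theorem avg {n : ℕ} (Φ w : (Fin n → ℝ) → ℝ≥0∞) (hΦ : Measurable Φ) (hw : Measurable w)
    (R : ℝ) (hR : 0 < R) (F : ℕ)
    (hww : ∀ x y, w x ≤ w y * ENNReal.ofReal ((1 + ‖x - y‖ / R) ^ F)) :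
    ENNReal.ofReal ((2 * R) ^ n) * ∫⁻ x, Φ x * w x ≤
      ENNReal.ofReal (2 ^ F) * ∫⁻ y, (∫⁻ x in Metric.closedBall y R, Φ x) * w y := by
  classical
  set G : (Fin n → ℝ) → (Fin n → ℝ) → ℝ≥0∞ :=
    fun x y => (Metric.closedBall x R).indicator (fun _ => Φ x * w x) y with hG
  have hGm : Measurable (Function.uncurry G) := by
    have hset : MeasurableSet {q : (Fin n → ℝ) × (Fin n → ℝ) | dist q.2 q.1 ≤ R} :=
      measurableSet_le (measurable_snd.dist measurable_fst) measurable_const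
    have h1 : Function.uncurry G =
        ({q : (Fin n → ℝ) × (Fin n → ℝ) | dist q.2 q.1 ≤ R}).indicator
          (fun q => Φ q.1 * w q.1) := by
      funext q
      rcases q with ⟨x, y⟩
      simp only [Function.uncurry, hG, Set.indicator, Metric.mem_closedBall, Set.mem_setOf_eq]
    rw [h1]
    exact ((hΦ.comp measurable_fst).mul (hw.comp measurable_fst)).indicator hset
  have hL : ENNReal.ofReal ((2 * R) ^ n) * ∫⁻ x, Φ x * w x = ∫⁻ x, ∫⁻ y, G x y := by
    rw [← lintegral_const_mul' _ _ ENNReal.ofReal_ne_top]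
    refine lintegral_congr fun x => ?_
    simp only [hG]
    rw [lintegral_indicator Metric.isClosed_closedBall.measurableSet, lintegral_const,
      Measure.restrict_apply_univ, Real.volume_pi_closedBall x hR.le, Fintype.card_fin, mul_comm]
  have hswap : ∫⁻ x, ∫⁻ y, G x y = ∫⁻ y, ∫⁻ x, G x y :=
    lintegral_lintegral_swap hGm.aemeasurable
  rw [hL, hswap]
  have hb : ∀ y, ∫⁻ x, G x y ≤
      ENNReal.ofReal (2 ^ F) * ((∫⁻ x in Metric.closedBall y R, Φ x) * w y) := by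
    intro y
    have h2 : ENNReal.ofReal (2 ^ F) * ((∫⁻ x in Metric.closedBall y R, Φ x) * w y) =
        ∫⁻ x in Metric.closedBall y R, (w y * ENNReal.ofReal (2 ^ F)) * Φ x := by
      rw [lintegral_const_mul _ hΦ]
      ring
    rw [h2, ← lintegral_indicator Metric.isClosed_closedBall.measurableSet]
    refine lintegral_mono fun x => ?_
    simp only [hG, Set.indicator, Metric.mem_closedBall]
    by_cases hxy : dist y x ≤ R
    · rw [if_pos hxy, if_pos (by rw [dist_comm]; exact hxy), mul_comm]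
      refine mul_le_mul_left ?_ _
      refine (hww x y).trans ?_
      refine mul_le_mul_right ?_ _
      refine ENNReal.ofReal_le_ofReal ?_
      refine pow_le_pow_left₀ (by positivity) ?_ F
      have h3 : ‖x - y‖ / R ≤ 1 := by
        rw [div_le_one hR, ← dist_eq_norm, dist_comm]
        exact hxy
      linarith
    · rw [if_neg hxy, if_neg (by rw [dist_comm]; exact hxy)]
  calc ∫⁻ y, ∫⁻ x, G x y
      ≤ ∫⁻ y, ENNReal.ofReal (2 ^ F) * ((∫⁻ x in Metric.closedBall y R, Φ x) * w y) :=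
        lintegral_mono hb
    _ = ENNReal.ofReal (2 ^ F) * ∫⁻ y, (∫⁻ x in Metric.closedBall y R, Φ x) * w y := by
        rw [lintegral_const_mul' _ _ ENNReal.ofReal_ne_top]

end K_INF2

/-- Inflation against a weight. -/
theorem INF2_thm (h1 : Stmt_INF1) (h2 : Stmt_KCM) (_h3 : Stmt_KRB) : Stmt_INF2 := by
  intro r E F p s ε B ν hr hE hp hs hps hε hB hν
  obtain ⟨C, hC, hmain⟩ := h1 r E p s ε B ν hr hE hp hs hps hε hB hν
  refine ⟨2 ^ F * C, by positivity, ?_⟩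
  intro ι S v f ρ w hρ hf hw hww hS hdet
  have hρ0 : 0 < ρ := lt_of_lt_of_le one_pos hρ
  have hR : 0 < ρ ^ 2 := by positivity
  set Φ : (Fin (r + 1) → ℝ) → ℝ≥0∞ := fun x =>
    ∏ j, (∑ J ∈ S j, kc (f J) (kt r (2 * E) (v J) ρ) x ^ (2 / s)) ^ (p / (2 * ((r : ℝ) + 1)))
    with hΦd
  set Ψ : (Fin (r + 1) → ℝ) → ℝ≥0∞ := fun x =>
    ∏ j, (∑ J ∈ S j, ka (f J) E (ρ ^ 2) x ^ (2 / s)) ^ (p / (2 * ((r : ℝ) + 1)))
    with hΨd
  have hΦ : Measurable Φ := by
    refine Finset.measurable_fun_prod _ fun j _ => ?_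
    refine Measurable.pow_const ?_ _
    refine Finset.measurable_fun_sum _ fun J _ => ?_
    exact ((h2.2.1 r (2 * E) (v J) ρ (f J) (hf J)).2).pow_const _
  have hball : ∀ y, (∫⁻ x in Metric.closedBall y (ρ ^ 2), Φ x) ≤
      ENNReal.ofReal (C * ρ ^ ε * ρ ^ (2 * (r + 1))) * Ψ y := by
    intro y
    exact hmain ι S v f ρ y hρ hf hS hdet
  have havg := K_INF2.avg Φ w hΦ hw (ρ ^ 2) hR F hww
  have hV0 : ENNReal.ofReal ((2 * ρ ^ 2) ^ (r + 1)) ≠ 0 := by
    rw [Ne, ENNReal.ofReal_eq_zero, not_le]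
    positivity
  have hVt : ENNReal.ofReal ((2 * ρ ^ 2) ^ (r + 1)) ≠ ⊤ := ENNReal.ofReal_ne_top
  change ∫⁻ x, Φ x * w x ≤ ENNReal.ofReal (2 ^ F * C * ρ ^ ε) * ∫⁻ x, Ψ x * w x
  rw [← ENNReal.mul_le_mul_iff_right hV0 hVt]
  refine havg.trans ?_
  have h4 : ∫⁻ y, (∫⁻ x in Metric.closedBall y (ρ ^ 2), Φ x) * w y ≤
      ENNReal.ofReal (C * ρ ^ ε * ρ ^ (2 * (r + 1))) * ∫⁻ y, Ψ y * w y := by
    rw [← lintegral_const_mul' _ _ ENNReal.ofReal_ne_top]
    refine lintegral_mono fun y => ?_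
    rw [← mul_assoc]
    exact mul_le_mul_left (hball y) _
  calc ENNReal.ofReal (2 ^ F) * ∫⁻ y, (∫⁻ x in Metric.closedBall y (ρ ^ 2), Φ x) * w y
      ≤ ENNReal.ofReal (2 ^ F) *
        (ENNReal.ofReal (C * ρ ^ ε * ρ ^ (2 * (r + 1))) * ∫⁻ y, Ψ y * w y) :=
        mul_le_mul_right h4 _
    _ = ENNReal.ofReal (2 ^ F * (C * ρ ^ ε * ρ ^ (2 * (r + 1)))) * ∫⁻ y, Ψ y * w y := by
        rw [← mul_assoc, ← ENNReal.ofReal_mul (by positivity)]
    _ ≤ ENNReal.ofReal ((2 * ρ ^ 2) ^ (r + 1) * (2 ^ F * C * ρ ^ ε)) * ∫⁻ y, Ψ y * w y := by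
        refine mul_le_mul_left ?_ _
        refine ENNReal.ofReal_le_ofReal ?_
        have h5 : (ρ ^ 2) ^ (r + 1) ≤ (2 * ρ ^ 2) ^ (r + 1) := by
          refine pow_le_pow_left₀ hR.le ?_ _
          linarith
        have h6 : (0 : ℝ) ≤ 2 ^ F * C * ρ ^ ε := by positivity
        have h7 : 2 ^ F * (C * ρ ^ ε * ρ ^ (2 * (r + 1))) =
            (ρ ^ 2) ^ (r + 1) * (2 ^ F * C * ρ ^ ε) := by
          rw [pow_mul]
          ring
        rw [h7]
        exact mul_le_mul_of_nonneg_right h5 h6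
    _ = ENNReal.ofReal ((2 * ρ ^ 2) ^ (r + 1)) *
        (ENNReal.ofReal (2 ^ F * C * ρ ^ ε) * ∫⁻ x, Ψ x * w x) := by
        rw [ENNReal.ofReal_mul (by positivity), mul_assoc]

end DEC
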