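import Pool.Agent.DEC.StmtsK

/-!
# K_INV: the change of coordinates to the axes
-/

set_option autoImplicit false

namespace DEC

namespace K_INV

open MeasureTheory Set
open scoped ENNReal

theorem mulVec_bound {n : ℕ} (M : Matrix (Fin n) (Fin n) ℝ) (K : ℝ) (hK : 0 ≤ K)
    (h : ∀ i j, |M i j| ≤ K) (y : Fin n → ℝ) : ‖M.mulVec y‖ ≤ (n : ℝ) * K * ‖y‖ := by
  rw [pi_norm_le_iff_of_nonneg (by positivity)]
  intro i
  rw [Matrix.mulVec, dotProduct, Real.norm_eq_abs]
  calc |∑ j, M i j * y j| ≤ ∑ j, |M i j * y j| := Finset.abs_sum_le_sum_abs _ _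
    _ ≤ ∑ _j : Fin n, K * ‖y‖ := by
        refine Finset.sum_le_sum fun j _ => ?_
        rw [abs_mul]
        exact mul_le_mul (h i j) (norm_le_pi_norm y j) (abs_nonneg _) hK
    _ = (n : ℝ) * K * ‖y‖ := by
        rw [Finset.sum_const, Finset.card_univ, Fintype.card_fin, nsmul_eq_mul]
        ring

theorem det_bound {n : ℕ} (M : Matrix (Fin n) (Fin n) ℝ) (K : ℝ) (h : ∀ i j, |M i j| ≤ K) :
    |M.det| ≤ (n.factorial : ℝ) * K ^ n := by
  have h1 := Matrix.det_le (A := M) (abv := AbsoluteValue.abs) (x := K) h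
  rw [Fintype.card_fin, nsmul_eq_mul] at h1
  exact h1

theorem adj_bound {n : ℕ} (M : Matrix (Fin n) (Fin n) ℝ) (K : ℝ) (hK : 1 ≤ K)
    (h : ∀ i j, |M i j| ≤ K) (i j : Fin n) :
    |M.adjugate i j| ≤ (n.factorial : ℝ) * K ^ n := by
  rw [Matrix.adjugate_apply]
  refine det_bound _ K fun a b => ?_
  by_cases ha : a = j
  · subst ha
    rw [Matrix.updateRow_self]
    by_cases hb : b = i
    · subst hb
      simpa using hK
    · rw [Pi.single_eq_of_ne hb, abs_zero]
      linarith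
  · rw [Matrix.updateRow_ne ha]
    exact h a b

end K_INV

open K_INV MeasureTheory Set in
theorem INV_thm : Stmt_INV := by
  intro r B ν hν
  set n : ℕ := r + 1 with hn
  set K : ℝ := max B 1 with hKdef
  have hK1 : 1 ≤ K := le_max_right _ _
  have hKB : B ≤ K := le_max_left _ _
  have hK0 : 0 ≤ K := by linarith
  set F : ℝ := (n.factorial : ℝ) * K ^ n with hF
  have hF0 : 0 ≤ F := by positivity
  set b1 : ℝ := (n : ℝ) * (F / ν) with hb1
  set b2 : ℝ := (n : ℝ) * K with hb2
  have hb10 : 0 ≤ b1 := by positivity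
  have hb20 : 0 ≤ b2 := by positivity
  refine ⟨b1 + b2 + F + 1, by linarith, ?_⟩
  intro c hc hdet
  set M : Matrix (Fin n) (Fin n) ℝ := (Matrix.of c).transpose with hM
  have hMdet : M.det = (Matrix.of c).det := Matrix.det_transpose _
  have hMent : ∀ i j, |M i j| ≤ K := by
    intro i j
    have h1 := norm_le_pi_norm (c j) i
    rw [Real.norm_eq_abs] at h1
    exact h1.trans ((hc j).trans hKB)
  have hdet0 : M.det ≠ 0 := by
    intro h0
    rw [hMdet] at h0
    rw [h0, abs_zero] at hdet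
    linarith
  have hu : IsUnit M.det := isUnit_iff_ne_zero.2 hdet0
  have h1 : M * M⁻¹ = 1 := Matrix.mul_nonsing_inv M hu
  have h2 : M⁻¹ * M = 1 := Matrix.nonsing_inv_mul M hu
  have hinv : ∀ i j, |M⁻¹ i j| ≤ F / ν := by
    intro i j
    rw [Matrix.inv_def, Matrix.smul_apply, smul_eq_mul, abs_mul, Ring.inverse_eq_inv', abs_inv]
    have e1 : |M.adjugate i j| ≤ F := adj_bound M K hK1 hMent i j
    have e2 : ν ≤ |M.det| := by rw [hMdet]; exact hdet
    rw [div_eq_inv_mul]
    exact mul_le_mul (inv_anti₀ hν e2) e1 (abs_nonneg _) (by positivity)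
  refine ⟨Matrix.toLin'OfInv h1 h2, ?_, ?_, ?_, ?_⟩
  · intro j
    have e : c j = M.mulVec (Pi.single j 1) := by
      rw [Matrix.mulVec_single_one]
      rfl
    show Matrix.toLin' M⁻¹ (c j) = Pi.single j 1
    rw [Matrix.toLin'_apply, e, Matrix.mulVec_mulVec, h2, Matrix.one_mulVec]
  · intro y
    have e : ‖(M⁻¹).mulVec y‖ ≤ (n : ℝ) * (F / ν) * ‖y‖ :=
      mulVec_bound _ _ (by positivity) hinv y
    refine e.trans ?_
    exact mul_le_mul_of_nonneg_right (by linarith) (norm_nonneg _)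
  · intro y
    have e0 : y = M.mulVec ((M⁻¹).mulVec y) := by
      rw [Matrix.mulVec_mulVec, h1, Matrix.one_mulVec]
    have e : ‖M.mulVec ((M⁻¹).mulVec y)‖ ≤ (n : ℝ) * K * ‖(M⁻¹).mulVec y‖ :=
      mulVec_bound _ _ hK0 hMent _
    rw [← e0] at e
    refine e.trans ?_
    exact mul_le_mul_of_nonneg_right (by linarith) (norm_nonneg _)
  · intro h hh
    have hdi : (M⁻¹).det ≠ 0 := by
      rw [Matrix.det_nonsing_inv, Ring.inverse_eq_inv']
      exact inv_ne_zero hdet0
    have hmap := Real.map_matrix_volume_pi_eq_smul_volume_pi hdi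
    have hmeas : Measurable (Matrix.toLin' M⁻¹) :=
      (LinearMap.continuous_of_finiteDimensional _).measurable
    have e1 : ∫⁻ x, h (Matrix.toLin' M⁻¹ x) = ENNReal.ofReal |M.det| * ∫⁻ x, h x := by
      rw [← lintegral_map hh hmeas, hmap, lintegral_smul_measure, Matrix.det_nonsing_inv,
        Ring.inverse_eq_inv', inv_inv, smul_eq_mul]
    show ∫⁻ x, h (Matrix.toLin' M⁻¹ x) ≤ _
    rw [e1]
    gcongr
    have := det_bound M K hMent
    linarith

end DEC
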