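import Pool.Agent.DEC.StmtsK

/-!
# DEC, module K_ISO: the two coordinate systems
-/

set_option autoImplicit false

namespace DEC

open MeasureTheory Set
open scoped ENNReal

namespace K_ISO

/-- The coordinate change. -/
noncomputable def ce (r : ℕ) : X r ≃ᵐ (Fin (r + 1) → ℝ) :=
  MeasurableEquiv.prodComm.trans
    (MeasurableEquiv.piFinSuccAbove (fun _ => ℝ) (Fin.last r)).symm

lemma ce_apply (r : ℕ) (z : X r) :
    ce r z = (Fin.last r).insertNth (α := fun _ => ℝ) z.2 z.1 := rfl

lemma ce_last (r : ℕ) (z : X r) : ce r z (Fin.last r) = z.2 := by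
  rw [ce_apply]; exact Fin.insertNth_apply_same _ _ _

lemma ce_castSucc (r : ℕ) (z : X r) (i : Fin r) : ce r z (Fin.castSucc i) = z.1 i := by
  rw [ce_apply]
  have h := Fin.insertNth_apply_succAbove (α := fun _ => ℝ) (Fin.last r) z.2 z.1 i
  rwa [Fin.succAbove_last] at h

lemma ce_mp (r : ℕ) : MeasurePreserving (ce r) volume volume := by
  have h1 : MeasurePreserving (MeasurableEquiv.prodComm (α := Fin r → ℝ) (β := ℝ))
      volume volume := Measure.measurePreserving_swap
  have h2 := (volume_preserving_piFinSuccAbove (fun _ : Fin (r + 1) => ℝ) (Fin.last r)).symm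
  exact h2.comp h1

lemma ce_norm (r : ℕ) (z : X r) : ‖ce r z‖ = ‖z‖ := by
  apply le_antisymm
  · rw [pi_norm_le_iff_of_nonneg (norm_nonneg _)]
    intro i
    induction i using Fin.lastCases with
    | last => rw [ce_last]; exact norm_snd_le z
    | cast i => rw [ce_castSucc]; exact (norm_le_pi_norm z.1 i).trans (norm_fst_le z)
  · rw [Prod.norm_def]
    apply max_le
    · rw [pi_norm_le_iff_of_nonneg (norm_nonneg _)]
      intro i
      rw [← ce_castSucc r z i]
      exact norm_le_pi_norm (ce r z) _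
    · rw [← ce_last r z]
      exact norm_le_pi_norm (ce r z) _

lemma ce_sub (r : ℕ) (z y : X r) : ce r (z - y) = ce r z - ce r y := by
  funext i
  induction i using Fin.lastCases with
  | last => simp [ce_last]
  | cast i => simp [ce_castSucc]

lemma ce_tube (r : ℕ) (v : Fin r → ℝ) (z : X r) :
    ‖ce r z - ce r z (Fin.last r) • ce r (-v, 1)‖ = ‖z.1 + z.2 • v‖ := by
  have h : ce r z - ce r z (Fin.last r) • ce r (-v, 1) = ce r (z.1 + z.2 • v, 0) := by
    funext i
    induction i using Fin.lastCases with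
    | last => simp [ce_last]
    | cast i => simp [ce_castSucc, ce_last]
  rw [h, ce_norm, Prod.norm_def]
  simp

lemma ce_det (r : ℕ) (x : Fin (r + 1) → Fin r → ℝ) :
    |Matrix.det (Matrix.of fun k => ce r (-(x k), 1))| = |dt x| := by
  have h : (Matrix.of fun k => ce r (-(x k), 1)) =
      Matrix.of fun i j : Fin (r + 1) =>
        (Fin.snoc (α := fun _ => ℝ) (fun _ : Fin r => (-1 : ℝ)) 1 : _ → ℝ) j *
        (Matrix.of fun a b : Fin (r + 1) =>
          (Fin.snoc (α := fun _ => ℝ) (x a) 1 : _ → ℝ) b) i j := by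
    ext i j
    induction j using Fin.lastCases with
    | last => simp [ce_last]
    | cast j => simp [ce_castSucc]
  rw [h, Matrix.det_mul_row, abs_mul, Finset.abs_prod]
  have h2 : ∏ i : Fin (r + 1),
      |(Fin.snoc (α := fun _ => ℝ) (fun _ : Fin r => (-1 : ℝ)) 1 : _ → ℝ) i| = 1 := by
    apply Finset.prod_eq_one
    intro i _
    induction i using Fin.lastCases with
    | last => simp
    | cast i => simp
  rw [h2, one_mul]
  rfl

lemma real_tube (E : ℕ) (a b : ℝ) (ha : 0 ≤ a) (hb : 0 ≤ b) :
    (1 + a) ^ (-(2 * (E : ℝ))) * (1 + b) ^ (-(2 * (E : ℝ))) ≤ ((1 + max a b) ^ (2 * E))⁻¹ := by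
  have h2 : (2 * (E : ℝ)) = ((2 * E : ℕ) : ℝ) := by push_cast; ring
  rw [Real.rpow_neg (by linarith), Real.rpow_neg (by linarith), h2, Real.rpow_natCast,
    Real.rpow_natCast, ← mul_inv, ← mul_pow]
  apply inv_anti₀
  · have : 0 ≤ max a b := le_max_of_le_left ha
    positivity
  · apply pow_le_pow_left₀
    · have : 0 ≤ max a b := le_max_of_le_left ha
      linarith
    · rcases le_total a b with h | h
      · rw [max_eq_right h]; nlinarith
      · rw [max_eq_left h]; nlinarith

end K_ISO

open K_ISO in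
theorem ISO_thm : Stmt_ISO := by
  intro r
  refine ⟨ce r, ce_mp r, ce_norm r, ce_sub r, ce_last r, ce_castSucc r, ?_, ?_, ce_det r⟩
  · intro E R v z hR
    rw [wT, kt, kr, ← ENNReal.ofReal_mul (by positivity), ce_tube, ce_last]
    apply ENNReal.ofReal_le_ofReal
    have h1 : R ^ (-((r : ℝ) + 2)) = (R ^ (r + 2))⁻¹ := by
      rw [Real.rpow_neg hR.le]
      have : (r : ℝ) + 2 = ((r + 2 : ℕ) : ℝ) := by push_cast; ring
      rw [this, Real.rpow_natCast]
    rw [h1, mul_assoc]
    apply mul_le_mul_of_nonneg_left _ (by positivity)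
    exact real_tube E _ _ (by positivity) (by positivity)
  · intro E a R z hR ha
    rw [wt, kw, kr, ← ENNReal.ofReal_mul (by positivity), ce_norm]
    apply ENNReal.ofReal_le_ofReal
    have h1 : R ^ (-((r : ℝ) + 1)) = (R ^ (r + 1))⁻¹ := by
      rw [Real.rpow_neg hR.le]
      have : (r : ℝ) + 1 = ((r + 1 : ℕ) : ℝ) := by push_cast; ring
      rw [this, Real.rpow_natCast]
    rw [h1]
    apply mul_le_mul_of_nonneg_left _ (by positivity)
    rw [← Real.rpow_natCast, ← Real.rpow_neg (by positivity)]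
    apply Real.rpow_le_rpow_of_exponent_le
    · have : 0 ≤ ‖z‖ / R := by positivity
      linarith
    · linarith

end DEC
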