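import Pool.Agent.DEC.StmtsK

/-!
# DEC, block K: the interface statement (module InfK)
-/

set_option autoImplicit false

namespace DEC

open MeasureTheory Set
open scoped ENNReal

namespace K_InfK

theorem kc_comp {r : ℕ} (e : X r ≃ᵐ (Fin (r + 1) → ℝ)) (hmp : MeasurePreserving e volume volume)
    (hsub : ∀ z y, e (z - y) = e z - e y) (f : X r → ℝ≥0∞) (k : (Fin (r + 1) → ℝ) → ℝ≥0∞)
    (z : X r) : kc (fun u => f (e.symm u)) k (e z) = ∫⁻ y, f y * k (e (z - y)) := by
  unfold kc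
  rw [← hmp.lintegral_comp_emb e.measurableEmbedding]
  refine lintegral_congr fun y => ?_
  show f (e.symm (e y)) * k (e z - e y) = f y * k (e (z - y))
  rw [e.symm_apply_apply, hsub]

theorem avT_le {r : ℕ} (e : X r ≃ᵐ (Fin (r + 1) → ℝ)) (hmp : MeasurePreserving e volume volume)
    (hsub : ∀ z y, e (z - y) = e z - e y)
    (hwT : ∀ (E : ℕ) (R : ℝ) (v : Fin r → ℝ) (z : X r), 0 < R →
      wT R (2 * (E : ℝ)) v z ≤ kt r (2 * E) (e (-v, 1)) R (e z))
    (E : ℕ) {R : ℝ} (hR : 0 < R) (v : Fin r → ℝ) (f : X r → ℝ≥0∞) (z : X r) :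
    avT R (2 * (E : ℝ)) v f z ≤ kc (fun u => f (e.symm u)) (kt r (2 * E) (e (-v, 1)) R) (e z) := by
  rw [kc_comp e hmp hsub]
  unfold avT
  exact lintegral_mono fun y => mul_le_mul_right (hwT E R v _ hR) _

theorem ka_le {r : ℕ} (e : X r ≃ᵐ (Fin (r + 1) → ℝ)) (hmp : MeasurePreserving e volume volume)
    (hsub : ∀ z y, e (z - y) = e z - e y)
    (hkw : ∀ (E : ℕ) (a R : ℝ) (z : X r), 0 < R → a ≤ E → kw (r + 1) E R (e z) ≤ wt R a z)
    (E : ℕ) {a R : ℝ} (hR : 0 < R) (ha : a ≤ E) (f : X r → ℝ≥0∞) (z : X r) :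
    ka (fun u => f (e.symm u)) E R (e z) ≤ av R a f z := by
  unfold ka
  rw [kc_comp e hmp hsub]
  unfold av
  exact lintegral_mono fun y => mul_le_mul_right (hkw E a R _ hR ha) _

end K_InfK

open K_InfK in
theorem InfK_thm : Stmt_InfK := by
  intro hINF2 hISO hWB r p s a E V hr hp hs hps ha hE
  set E' : ℕ := max (r + 1) ⌈a⌉₊ with hE'
  set F : ℕ := ⌈E⌉₊ with hF
  set B : ℝ := max V 1 with hB
  have hB0 : 0 ≤ B := le_trans zero_le_one (le_max_right _ _)
  have haE : a ≤ (E' : ℝ) := (Nat.le_ceil a).trans (by exact_mod_cast le_max_right _ _)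
  have hEF : E ≤ (F : ℝ) := Nat.le_ceil E
  refine ⟨2 * (E' : ℝ), by positivity, ?_⟩
  intro ν ε hν hε
  obtain ⟨C, hC, h⟩ := hINF2 r E' F p s ε B ν hr (le_max_left _ _) hp hs hps hε hB0 hν
  refine ⟨C, hC, ?_⟩
  intro R hR κ J v hv hdet f hf w hw
  obtain ⟨e, hmp, hnorm, hsub, hlast, hcs, hwT, hkw, hdt⟩ := hISO r
  have hR0 : (0 : ℝ) < R := lt_of_lt_of_le zero_lt_one hR
  have hR2 : (0 : ℝ) < R ^ 2 := by positivity
  have hwm : Measurable w := ((hWB r (R ^ 2) E hR2 hE).1 w hw).1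
  have h1 := h κ J (fun j => e (-(v j), 1)) (fun j u => f j (e.symm u)) R
    (fun u => w (e.symm u)) hR (fun j => (hf j).comp e.symm.measurable)
    (hwm.comp e.symm.measurable) ?_ ?_ ?_
  · have e1 : (0 : ℝ) ≤ 2 / s := by
      have : 0 < s := by linarith
      positivity
    have e2 : (0 : ℝ) ≤ p / (2 * ((r : ℝ) + 1)) := by positivity
    calc ∫⁻ z, (∏ k, (∑ j ∈ J k, avT R (2 * (E' : ℝ)) (v j) (f j) z ^ (2 / s))
            ^ (p / (2 * ((r : ℝ) + 1)))) * w z
        ≤ ∫⁻ z, (∏ k, (∑ j ∈ J k, kc (fun u => f j (e.symm u))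
            (kt r (2 * E') (e (-(v j), 1)) R) (e z) ^ (2 / s))
            ^ (p / (2 * ((r : ℝ) + 1)))) * w (e.symm (e z)) := by
          refine lintegral_mono fun z => ?_
          rw [e.symm_apply_apply]
          refine mul_le_mul_left (Finset.prod_le_prod' fun k _ => ?_) _
          refine ENNReal.rpow_le_rpow (Finset.sum_le_sum fun j _ => ?_) e2
          exact ENNReal.rpow_le_rpow (avT_le e hmp hsub hwT E' hR0 (v j) (f j) z) e1
      _ = ∫⁻ x, (∏ k, (∑ j ∈ J k, kc (fun u => f j (e.symm u))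
            (kt r (2 * E') (e (-(v j), 1)) R) x ^ (2 / s))
            ^ (p / (2 * ((r : ℝ) + 1)))) * w (e.symm x) :=
          hmp.lintegral_comp_emb e.measurableEmbedding
            (fun x => (∏ k, (∑ j ∈ J k, kc (fun u => f j (e.symm u))
              (kt r (2 * E') (e (-(v j), 1)) R) x ^ (2 / s))
              ^ (p / (2 * ((r : ℝ) + 1)))) * w (e.symm x))
      _ ≤ ENNReal.ofReal (C * R ^ ε) *
          ∫⁻ x, (∏ k, (∑ j ∈ J k, ka (fun u => f j (e.symm u)) E' (R ^ 2) x ^ (2 / s))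
            ^ (p / (2 * ((r : ℝ) + 1)))) * w (e.symm x) := h1
      _ = ENNReal.ofReal (C * R ^ ε) *
          ∫⁻ z, (∏ k, (∑ j ∈ J k, ka (fun u => f j (e.symm u)) E' (R ^ 2) (e z) ^ (2 / s))
            ^ (p / (2 * ((r : ℝ) + 1)))) * w (e.symm (e z)) := by
          rw [hmp.lintegral_comp_emb e.measurableEmbedding
            (fun x => (∏ k, (∑ j ∈ J k, ka (fun u => f j (e.symm u)) E' (R ^ 2) x ^ (2 / s))
              ^ (p / (2 * ((r : ℝ) + 1)))) * w (e.symm x))]
      _ ≤ ENNReal.ofReal (C * R ^ ε) *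
          ∫⁻ z, (∏ k, (∑ j ∈ J k, av (R ^ 2) a (f j) z ^ (2 / s))
            ^ (p / (2 * ((r : ℝ) + 1)))) * w z := by
          refine mul_le_mul_right (lintegral_mono fun z => ?_) _
          rw [e.symm_apply_apply]
          refine mul_le_mul_left (Finset.prod_le_prod' fun k _ => ?_) _
          refine ENNReal.rpow_le_rpow (Finset.sum_le_sum fun j _ => ?_) e2
          exact ENNReal.rpow_le_rpow (ka_le e hmp hsub hkw E' hR2 haE (f j) z) e1
  · intro x y
    have h2 := hw (e.symm x) (e.symm y)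
    have h3 : ‖e.symm x - e.symm y‖ = ‖x - y‖ := by
      rw [← hnorm, hsub, e.apply_symm_apply, e.apply_symm_apply]
    rw [h3] at h2
    refine h2.trans (mul_le_mul_right (ENNReal.ofReal_le_ofReal ?_) _)
    rw [← Real.rpow_natCast (1 + ‖x - y‖ / R ^ 2) F]
    refine Real.rpow_le_rpow_of_exponent_le ?_ hEF
    have : 0 ≤ ‖x - y‖ / R ^ 2 := by positivity
    linarith
  · intro k j hj
    refine ⟨hlast _, ?_⟩
    rw [hnorm]
    have h2 := hv k j hj
    rw [Prod.norm_def]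
    simp only [norm_neg, norm_one]
    exact max_le_max h2 le_rfl
  · intro j hj
    have h2 := hdt (fun k => v (j k))
    have h3 := hdet j hj
    rw [← h2] at h3
    exact h3

end DEC
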