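import Pool.Agent.DEC.StmtsK

/-!
# DEC, module K_KAK: the multilinear Kakeya inequality from the version for small cells
-/

set_option autoImplicit false

namespace DEC

open MeasureTheory Set
open scoped ENNReal

namespace K_KAK

theorem measurable_kr (E : ℕ) : Measurable (kr E) := by
  unfold kr
  fun_prop

/-- subadditivity of `a ↦ a ^ p`, `0 < p ≤ 1` -/
theorem rpow_sum {ι : Type*} (s : Finset ι) (f : ι → ℝ≥0∞) {p : ℝ} (hp0 : 0 < p) (hp : p ≤ 1) :
    (∑ i ∈ s, f i) ^ p ≤ ∑ i ∈ s, f i ^ p := by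
  classical
  induction s using Finset.induction_on with
  | empty => simp [ENNReal.zero_rpow_of_pos hp0]
  | insert a s ha ih =>
    rw [Finset.sum_insert ha, Finset.sum_insert ha]
    exact (ENNReal.rpow_add_le_add_rpow _ _ hp0.le hp).trans (by gcongr)

/-- the sum over finitely many sets covering almost everything -/
theorem hh_le_sum {n : ℕ} (j : Fin n) (E : ℕ) (W : ℝ) (μ : Measure ((Fin n → ℝ) × (Fin n → ℝ)))
    {β : Type*} [Fintype β] (s : β → Set ((Fin n → ℝ) × (Fin n → ℝ)))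
    (hs : ∀ᵐ ω ∂μ, ω ∈ ⋃ b, s b) (x : Fin n → ℝ) :
    hh j E W μ x ≤ ∑ b, hh j E W (μ.restrict (s b)) x := by
  unfold hh
  have h1 : μ.restrict (⋃ b, s b) = μ := Measure.restrict_eq_self_of_ae_mem hs
  have h2 := lintegral_iUnion_le s
    (fun ω => kr E (‖(x - ω.2) - (x j - ω.2 j) • ω.1‖ / W)) (μ := μ)
  rw [h1, tsum_fintype] at h2
  exact h2

theorem hh_restrict_le {n : ℕ} (j : Fin n) (E : ℕ) (W : ℝ)
    (μ : Measure ((Fin n → ℝ) × (Fin n → ℝ))) (s : Set ((Fin n → ℝ) × (Fin n → ℝ)))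
    (x : Fin n → ℝ) : hh j E W (μ.restrict s) x ≤ hh j E W μ x :=
  lintegral_mono' Measure.restrict_le_self le_rfl

end K_KAK

open K_KAK in
theorem KAK_thm : Stmt_ROT → Stmt_HHM → Stmt_KAK := by
  intro hrot hhhm r E ε B ν hr hE hε hB hν
  obtain ⟨δ, C, hδ, hC, hmain⟩ := hrot r E ε B ν hr hE hε hB hν
  have hmeas := hhhm.1
  obtain ⟨t, -, htf, htc⟩ := finite_cover_balls_of_compact
    (isCompact_closedBall (0 : Fin (r + 1) → ℝ) B) (half_pos hδ)
  have : Fintype t := htf.fintype
  classical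
  set N : ℕ := Fintype.card (Fin (r + 1) → t) with hN
  refine ⟨((N : ℝ) + 1) * C, by positivity, ?_⟩
  intro W R μ hμ x0 D hW hWR hD hdet hae
  have hR : 0 < R := hW.trans_le hWR
  have hr0 : (0 : ℝ) < 1 / (r : ℝ) := by
    have : (0 : ℝ) < r := by exact_mod_cast hr
    positivity
  have hr1 : 1 / (r : ℝ) ≤ 1 := by
    have : (1 : ℝ) ≤ r := by exact_mod_cast hr
    rw [div_le_one (by linarith)]
    exact this
  -- the cells
  let s : t → Set ((Fin (r + 1) → ℝ) × (Fin (r + 1) → ℝ)) :=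
    fun a => {ω | ω.1 ∈ Metric.ball (a : Fin (r + 1) → ℝ) (δ / 2)}
  have hcov : ∀ j, ∀ᵐ ω ∂(μ j), ω ∈ ⋃ b, s b := by
    intro j
    filter_upwards [hae j] with ω hω
    have h1 : ω.1 ∈ Metric.closedBall (0 : Fin (r + 1) → ℝ) B := by
      rw [mem_closedBall_zero_iff]
      exact (hD j _ hω).2
    have h2 := htc h1
    simp only [mem_iUnion, exists_prop] at h2
    obtain ⟨a, ha, h3⟩ := h2
    exact mem_iUnion.2 ⟨⟨a, ha⟩, h3⟩
  have hsm : ∀ a, MeasurableSet (s a) := fun a => measurable_fst measurableSet_ball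
  let K : ℝ≥0∞ := ENNReal.ofReal (C * W ^ (r + 1) * (R / W) ^ ε) *
    ∏ j, hh (Fin.last r) E R (μ j) x0 ^ (1 / (r : ℝ))
  -- one choice of the cells
  have hone : ∀ σ : Fin (r + 1) → t,
      ∫⁻ x, (∏ j, hh (Fin.last r) E W ((μ j).restrict (s (σ j))) x ^ (1 / (r : ℝ))) *
        kr (2 * E + r + 3) (‖x - x0‖ / R) ≤ K := by
    intro σ
    by_cases hc : ∀ j, (D j ∩ Metric.ball (σ j : Fin (r + 1) → ℝ) (δ / 2)).Nonempty
    · choose c hc using hc
      have h1 := hmain W R (fun j => (μ j).restrict (s (σ j))) x0 c hW hWR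
        (fun j => (hD j _ (hc j).1).2) (hdet c fun j => (hc j).1) (fun j => by
          filter_upwards [ae_restrict_of_ae (hae j), ae_restrict_mem (hsm (σ j))] with ω h2 h3
          refine ⟨(hD j _ h2).1, ?_⟩
          have h4 : dist ω.1 (σ j : Fin (r + 1) → ℝ) < δ / 2 := h3
          have h5 : dist (c j) (σ j : Fin (r + 1) → ℝ) < δ / 2 := (hc j).2
          rw [← dist_eq_norm]
          have h6 := dist_triangle_right ω.1 (c j) (σ j : Fin (r + 1) → ℝ)
          linarith)
      refine h1.trans ?_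
      refine mul_le_mul_right ?_ _
      refine Finset.prod_le_prod' fun j _ => ?_
      exact ENNReal.rpow_le_rpow (hh_restrict_le _ _ _ _ _ _) hr0.le
    · push Not at hc
      obtain ⟨j, hj⟩ := hc
      have h0 : (μ j).restrict (s (σ j)) = 0 := by
        rw [Measure.restrict_eq_zero]
        have h2 : ∀ᵐ ω ∂(μ j), ω ∉ s (σ j) := by
          filter_upwards [hae j] with ω hω h3
          have : ω.1 ∈ D j ∩ Metric.ball (σ j : Fin (r + 1) → ℝ) (δ / 2) := ⟨hω, h3⟩
          rw [hj] at this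
          exact this
        have h3 := measure_eq_zero_iff_ae_notMem.2 h2
        exact h3
      have h1 : ∀ x, (∏ j, hh (Fin.last r) E W ((μ j).restrict (s (σ j))) x ^ (1 / (r : ℝ))) *
          kr (2 * E + r + 3) (‖x - x0‖ / R) = 0 := by
        intro x
        rw [Finset.prod_eq_zero (Finset.mem_univ j), zero_mul]
        rw [h0]
        unfold hh
        rw [lintegral_zero_measure, ENNReal.zero_rpow_of_pos hr0]
      simp only [h1, lintegral_zero]
      exact zero_le
  calc ∫⁻ x, (∏ j, hh (Fin.last r) E W (μ j) x ^ (1 / (r : ℝ))) *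
        kr (2 * E + r + 3) (‖x - x0‖ / R)
      ≤ ∫⁻ x, ∑ σ : Fin (r + 1) → t,
          (∏ j, hh (Fin.last r) E W ((μ j).restrict (s (σ j))) x ^ (1 / (r : ℝ))) *
          kr (2 * E + r + 3) (‖x - x0‖ / R) := by
        refine lintegral_mono fun x => ?_
        rw [← Finset.sum_mul]
        refine mul_le_mul_left ?_ _
        have h1 := Finset.prod_univ_sum (fun _ : Fin (r + 1) => (Finset.univ : Finset t))
          (fun j a => hh (Fin.last r) E W ((μ j).restrict (s a)) x ^ (1 / (r : ℝ)))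
        rw [Fintype.piFinset_univ] at h1
        rw [← h1]
        refine Finset.prod_le_prod' fun j _ => ?_
        exact (ENNReal.rpow_le_rpow (hh_le_sum _ E W (μ j) s (hcov j) x) hr0.le).trans
          (rpow_sum _ _ hr0 hr1)
    _ = ∑ σ : Fin (r + 1) → t, ∫⁻ x,
          (∏ j, hh (Fin.last r) E W ((μ j).restrict (s (σ j))) x ^ (1 / (r : ℝ))) *
          kr (2 * E + r + 3) (‖x - x0‖ / R) := by
        refine lintegral_finsetSum _ fun σ _ => ?_
        refine Measurable.mul (Finset.measurable_prod _ fun j _ => ?_)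
          ((measurable_kr _).comp (by fun_prop))
        exact (hmeas _ _ _ _ _).pow_const _
    _ ≤ ∑ σ : Fin (r + 1) → t, K := Finset.sum_le_sum fun σ _ => hone σ
    _ = (N : ℝ≥0∞) * K := by
        rw [Finset.sum_const, nsmul_eq_mul]
        rfl
    _ ≤ ENNReal.ofReal ((N : ℝ) + 1) * K := by
        refine mul_le_mul_left ?_ _
        rw [← ENNReal.ofReal_natCast]
        exact ENNReal.ofReal_le_ofReal (by linarith)
    _ = ENNReal.ofReal (((N : ℝ) + 1) * C * W ^ (r + 1) * (R / W) ^ ε) *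
          ∏ j, hh (Fin.last r) E R (μ j) x0 ^ (1 / (r : ℝ)) := by
        change ENNReal.ofReal ((N : ℝ) + 1) * (_ * _) = _
        rw [← mul_assoc, ← ENNReal.ofReal_mul (by positivity)]
        congr 2
        ring

end DEC
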