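import Pool.Agent.DEC.StmtsK

/-!
# DEC, block K, module K_KAKX: multilinear Kakeya for directions near the axes
-/

set_option autoImplicit false

namespace DEC

open MeasureTheory Set
open scoped ENNReal

namespace K_KAKX

theorem delta_choice (C₁ ε : ℝ) (hC₁ : 1 ≤ C₁) (hε : 0 < ε) :
    ∃ δ : ℝ, 0 < δ ∧ δ ≤ 1 / 2 ∧ C₁ ≤ (1 / δ) ^ ε := by
  have hpos : 0 < C₁ := by linarith
  refine ⟨min (1 / 2 : ℝ) (C₁ ^ (-(1 / ε))), lt_min (by norm_num) (Real.rpow_pos_of_pos hpos _),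
    min_le_left _ _, ?_⟩
  set δ := min (1 / 2 : ℝ) (C₁ ^ (-(1 / ε))) with hδd
  have hδ0 : 0 < δ := lt_min (by norm_num) (Real.rpow_pos_of_pos hpos _)
  have h1 : δ ≤ C₁ ^ (-(1 / ε)) := min_le_right _ _
  have hp : 0 < C₁ ^ (1 / ε) := Real.rpow_pos_of_pos hpos _
  have h2 : C₁ ^ (1 / ε) ≤ 1 / δ := by
    rw [le_div_iff₀ hδ0]
    calc C₁ ^ (1 / ε) * δ ≤ C₁ ^ (1 / ε) * C₁ ^ (-(1 / ε)) := by gcongr
      _ = 1 := by rw [← Real.rpow_add hpos]; simp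
  calc C₁ = (C₁ ^ (1 / ε)) ^ ε := by
        rw [← Real.rpow_mul hpos.le, one_div, inv_mul_cancel₀ hε.ne', Real.rpow_one]
    _ ≤ (1 / δ) ^ ε := Real.rpow_le_rpow hp.le h2 hε.le

/-- The elementary inequality for the weight. -/
theorem weight_le (E : ℕ) (a : ℝ) (ha : 0 ≤ a) :
    ENNReal.ofReal ((1 + 2 * a) ^ E) ^ (2 : ℕ) * kr (2 * E) a ≤ ENNReal.ofReal (4 ^ E) := by
  unfold kr
  rw [← ENNReal.ofReal_pow (by positivity), ← ENNReal.ofReal_mul (by positivity)]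
  apply ENNReal.ofReal_le_ofReal
  rw [← pow_mul, mul_comm E 2, ← div_eq_mul_inv, ← div_pow]
  have h1 : (1 + 2 * a) / (1 + a) ≤ 2 := by
    rw [div_le_iff₀ (by positivity)]; nlinarith
  calc ((1 + 2 * a) / (1 + a)) ^ (2 * E) ≤ 2 ^ (2 * E) := by
        apply pow_le_pow_left₀ (by positivity) h1
    _ = 4 ^ E := by rw [pow_mul]; norm_num

theorem rpow_prod_le (r : ℕ) (hr : 1 ≤ r) (t : ℝ≥0∞) (ht : 1 ≤ t)
    (h : Fin (r + 1) → ℝ≥0∞) :
    ∏ j, (t * h j) ^ (1 / (r : ℝ)) ≤ t ^ (2 : ℕ) * ∏ j, h j ^ (1 / (r : ℝ)) := by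
  have hr' : (0 : ℝ) < r := by exact_mod_cast hr
  have h1 : ∀ j, (t * h j) ^ (1 / (r : ℝ)) = t ^ (1 / (r : ℝ)) * h j ^ (1 / (r : ℝ)) := fun j =>
    ENNReal.mul_rpow_of_nonneg _ _ (by positivity)
  simp_rw [h1]
  rw [Finset.prod_mul_distrib, Finset.prod_const, Finset.card_univ, Fintype.card_fin]
  refine mul_le_mul' ?_ le_rfl
  rw [← ENNReal.rpow_natCast, ← ENNReal.rpow_mul, ← ENNReal.rpow_natCast]
  apply ENNReal.rpow_le_rpow_of_exponent_le ht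
  have h2 : (1 : ℝ) ≤ r := by exact_mod_cast hr
  push_cast
  rw [div_mul_eq_mul_div, div_le_iff₀ hr']
  linarith

end K_KAKX

open K_KAKX in
theorem KAKX_thm (hA : Stmt_AVG) (hH : Stmt_HHM) (hK : Stmt_KRB) : Stmt_KAKX := by
  intro r E ε hr hE hε
  obtain ⟨C₀, hC₀, havg⟩ := hA r E (2 * E + r + 3) hr hE
  obtain ⟨hH1, hH2, hH3, -, -, -⟩ := hH
  obtain ⟨-, -, -, -, hK5, -, hK7, hK8, -⟩ := hK
  obtain ⟨C₂, hC₂, hint⟩ := hK8 (r + 1) (r + 3) (by omega)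
  obtain ⟨δ, hδ0, hδ2, hC₁δ⟩ := delta_choice (max C₀ 1) ε (le_max_right _ _) hε
  set C₁ := max C₀ 1 with hC₁
  have hC₁1 : 1 ≤ C₁ := le_max_right _ _
  have hC₀₁ : C₀ ≤ C₁ := le_max_left _ _
  refine ⟨δ, 4 ^ E * C₂ / δ ^ (r + 1), hδ0, by linarith, by positivity, ?_⟩
  intro W R μ _ x0 hW hWR hμ
  have hR : 0 < R := lt_of_lt_of_le hW hWR
  have hδinv : 1 < 1 / δ := by
    rw [lt_div_iff₀ hδ0]; linarith
  obtain ⟨M, hM1, hM2⟩ := exists_nat_pow_near (x := R / W) (y := 1 / δ)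
    ((one_le_div hW).2 hWR) hδinv
  -- iteration
  have hiter : ∀ k : ℕ, k ≤ M →
      ∫⁻ x, (∏ j, hh j E W (μ j) x ^ (1 / (r : ℝ))) * kr (2 * E + r + 3) (‖x - x0‖ / R) ≤
      ENNReal.ofReal ((C₁ * δ ^ (r + 1)) ^ k) *
        ∫⁻ x, (∏ j, hh j E (W / δ ^ k) (μ j) x ^ (1 / (r : ℝ))) *
          kr (2 * E + r + 3) (‖x - x0‖ / R) := by
    intro k
    induction k with
    | zero => intro _; simp
    | succ k ih =>
      intro hk
      refine (ih (by omega)).trans ?_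
      have hWk : W / δ ^ k / δ = W / δ ^ (k + 1) := by rw [pow_succ, div_div]
      have hle : W / δ ^ k / δ ≤ R := by
        rw [hWk]
        have h1 : (1 / δ) ^ (k + 1) ≤ R / W :=
          (pow_le_pow_right₀ hδinv.le hk).trans hM1
        rw [le_div_iff₀ hW, div_pow, one_pow] at h1
        calc W / δ ^ (k + 1) = 1 / δ ^ (k + 1) * W := by ring
          _ ≤ R := h1
      have h2 := havg δ (W / δ ^ k) R μ x0 hδ0 (by linarith) (by positivity) hle hμ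
      calc ENNReal.ofReal ((C₁ * δ ^ (r + 1)) ^ k) *
            ∫⁻ x, (∏ j, hh j E (W / δ ^ k) (μ j) x ^ (1 / (r : ℝ))) *
              kr (2 * E + r + 3) (‖x - x0‖ / R)
          ≤ ENNReal.ofReal ((C₁ * δ ^ (r + 1)) ^ k) * (ENNReal.ofReal (C₀ * δ ^ (r + 1)) *
            ∫⁻ x, (∏ j, hh j E (W / δ ^ k / δ) (μ j) x ^ (1 / (r : ℝ))) *
              kr (2 * E + r + 3) (‖x - x0‖ / R)) := by gcongr
        _ ≤ ENNReal.ofReal ((C₁ * δ ^ (r + 1)) ^ k) * (ENNReal.ofReal (C₁ * δ ^ (r + 1)) *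
            ∫⁻ x, (∏ j, hh j E (W / δ ^ k / δ) (μ j) x ^ (1 / (r : ℝ))) *
              kr (2 * E + r + 3) (‖x - x0‖ / R)) := by gcongr
        _ = ENNReal.ofReal ((C₁ * δ ^ (r + 1)) ^ (k + 1)) *
            ∫⁻ x, (∏ j, hh j E (W / δ ^ (k + 1)) (μ j) x ^ (1 / (r : ℝ))) *
              kr (2 * E + r + 3) (‖x - x0‖ / R) := by
          rw [hWk, ← mul_assoc, ← ENNReal.ofReal_mul (by positivity), ← pow_succ]
  have hWM : W / δ ^ M ≤ R := by
    rw [le_div_iff₀ hW, div_pow, one_pow] at hM1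
    calc W / δ ^ M = 1 / δ ^ M * W := by ring
      _ ≤ R := hM1
  -- the integral at the scale R
  have hv : ∀ j, ∀ᵐ ω ∂(μ j), ‖ω.1‖ ≤ (1 : ℝ) := by
    intro j
    filter_upwards [hμ j] with ω hω
    rw [pi_norm_le_iff_of_nonneg (by norm_num)]
    intro i
    rw [Real.norm_eq_abs]
    by_cases hij : i = j
    · subst hij; rw [hω.1]; simp
    · exact (hω.2 i hij).trans (by linarith)
  have hpt : ∀ x : Fin (r + 1) → ℝ,
      (∏ j, hh j E (W / δ ^ M) (μ j) x ^ (1 / (r : ℝ))) * kr (2 * E + r + 3) (‖x - x0‖ / R) ≤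
      ENNReal.ofReal (4 ^ E) * (∏ j, hh j E R (μ j) x0 ^ (1 / (r : ℝ))) *
        kr (r + 3) (‖x - x0‖ / R) := by
    intro x
    have ha : 0 ≤ ‖x - x0‖ / R := by positivity
    set a := ‖x - x0‖ / R with had
    set t := ENNReal.ofReal ((1 + 2 * a) ^ E) with ht
    have ht1 : 1 ≤ t := by
      rw [ht, ← ENNReal.ofReal_one]
      exact ENNReal.ofReal_le_ofReal (one_le_pow₀ (by linarith))
    have h1 : ∀ j, hh j E (W / δ ^ M) (μ j) x ^ (1 / (r : ℝ)) ≤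
        (t * hh j E R (μ j) x0) ^ (1 / (r : ℝ)) := by
      intro j
      apply ENNReal.rpow_le_rpow _ (by positivity)
      refine (hH2 (r + 1) j E (W / δ ^ M) R (μ j) x (by positivity) hWM).trans ?_
      have h2 := hH3 (r + 1) j E R 1 (μ j) x x0 hR (by norm_num) (hv j)
      have h3 : (1 + (1 + 1) * (‖x - x0‖ / R)) = 1 + 2 * a := by rw [had]; norm_num
      rw [h3] at h2
      exact h2
    have hkr : kr (2 * E + r + 3) a = kr (2 * E) a * kr (r + 3) a := by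
      rw [add_assoc]; exact hK7 (2 * E) (r + 3) a ha
    calc (∏ j, hh j E (W / δ ^ M) (μ j) x ^ (1 / (r : ℝ))) * kr (2 * E + r + 3) a
        ≤ (∏ j, (t * hh j E R (μ j) x0) ^ (1 / (r : ℝ))) * kr (2 * E + r + 3) a := by
          exact mul_le_mul' (Finset.prod_le_prod' fun j _ => h1 j) le_rfl
      _ ≤ (t ^ (2 : ℕ) * ∏ j, hh j E R (μ j) x0 ^ (1 / (r : ℝ))) *
            (kr (2 * E) a * kr (r + 3) a) := by
          rw [hkr]
          gcongr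
          exact rpow_prod_le r hr t ht1 _
      _ = (t ^ (2 : ℕ) * kr (2 * E) a) * (∏ j, hh j E R (μ j) x0 ^ (1 / (r : ℝ))) *
            kr (r + 3) a := by ring
      _ ≤ ENNReal.ofReal (4 ^ E) * (∏ j, hh j E R (μ j) x0 ^ (1 / (r : ℝ))) *
            kr (r + 3) a := by
          gcongr
          exact weight_le E a ha
  have hmeas : Measurable fun x : Fin (r + 1) → ℝ => kr (r + 3) (‖x - x0‖ / R) :=
    (hK5 (r + 3)).comp (((measurable_id.sub_const x0).norm).div_const R)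
  have hIR : ∫⁻ x, (∏ j, hh j E (W / δ ^ M) (μ j) x ^ (1 / (r : ℝ))) *
        kr (2 * E + r + 3) (‖x - x0‖ / R) ≤
      ENNReal.ofReal (4 ^ E) * (∏ j, hh j E R (μ j) x0 ^ (1 / (r : ℝ))) *
        ENNReal.ofReal (C₂ * R ^ (r + 1)) := by
    calc ∫⁻ x, (∏ j, hh j E (W / δ ^ M) (μ j) x ^ (1 / (r : ℝ))) *
          kr (2 * E + r + 3) (‖x - x0‖ / R)
        ≤ ∫⁻ x, ENNReal.ofReal (4 ^ E) * (∏ j, hh j E R (μ j) x0 ^ (1 / (r : ℝ))) *
          kr (r + 3) (‖x - x0‖ / R) := lintegral_mono hpt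
      _ = ENNReal.ofReal (4 ^ E) * (∏ j, hh j E R (μ j) x0 ^ (1 / (r : ℝ))) *
          ∫⁻ x, kr (r + 3) (‖x - x0‖ / R) := lintegral_const_mul _ hmeas
      _ = ENNReal.ofReal (4 ^ E) * (∏ j, hh j E R (μ j) x0 ^ (1 / (r : ℝ))) *
          ∫⁻ x, kr (r + 3) (‖x‖ / R) := by
          rw [lintegral_sub_right_eq_self (fun x : Fin (r + 1) → ℝ => kr (r + 3) (‖x‖ / R)) x0]
      _ ≤ _ := by
          gcongr
          exact hint R hR
  -- the constants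
  have hconst : (C₁ * δ ^ (r + 1)) ^ M * (4 ^ E * (C₂ * R ^ (r + 1))) ≤
      4 ^ E * C₂ / δ ^ (r + 1) * W ^ (r + 1) * (R / W) ^ ε := by
    have h1 : C₁ ^ M ≤ (R / W) ^ ε := by
      calc C₁ ^ M ≤ ((1 / δ) ^ ε) ^ M := pow_le_pow_left₀ (by linarith) hC₁δ M
        _ = ((1 / δ) ^ M) ^ ε := by
          rw [← Real.rpow_natCast, ← Real.rpow_mul (by positivity), mul_comm ε,
            Real.rpow_mul (by positivity), Real.rpow_natCast]
        _ ≤ (R / W) ^ ε := Real.rpow_le_rpow (by positivity) hM1 hε.le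
    have h2 : δ ^ M * R ≤ W / δ := by
      rw [div_pow, one_pow, div_lt_div_iff₀ hW (by positivity), one_mul] at hM2
      rw [le_div_iff₀ hδ0]
      calc δ ^ M * R * δ = R * δ ^ (M + 1) := by rw [pow_succ]; ring
        _ ≤ W := hM2.le
    have h3 : (δ ^ M * R) ^ (r + 1) ≤ (W / δ) ^ (r + 1) :=
      pow_le_pow_left₀ (by positivity) h2 _
    calc (C₁ * δ ^ (r + 1)) ^ M * (4 ^ E * (C₂ * R ^ (r + 1)))
        = C₁ ^ M * ((δ ^ M * R) ^ (r + 1) * (4 ^ E * C₂)) := by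
          rw [mul_pow, mul_pow, ← pow_mul, ← pow_mul, mul_comm M (r + 1)]; ring
      _ ≤ (R / W) ^ ε * ((W / δ) ^ (r + 1) * (4 ^ E * C₂)) := by gcongr
      _ = 4 ^ E * C₂ / δ ^ (r + 1) * W ^ (r + 1) * (R / W) ^ ε := by
          rw [div_pow]; ring
  calc ∫⁻ x, (∏ j, hh j E W (μ j) x ^ (1 / (r : ℝ))) * kr (2 * E + r + 3) (‖x - x0‖ / R)
      ≤ ENNReal.ofReal ((C₁ * δ ^ (r + 1)) ^ M) *
        ∫⁻ x, (∏ j, hh j E (W / δ ^ M) (μ j) x ^ (1 / (r : ℝ))) *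
          kr (2 * E + r + 3) (‖x - x0‖ / R) := hiter M le_rfl
    _ ≤ ENNReal.ofReal ((C₁ * δ ^ (r + 1)) ^ M) *
        (ENNReal.ofReal (4 ^ E) * (∏ j, hh j E R (μ j) x0 ^ (1 / (r : ℝ))) *
          ENNReal.ofReal (C₂ * R ^ (r + 1))) := by gcongr
    _ = (ENNReal.ofReal ((C₁ * δ ^ (r + 1)) ^ M) *
        (ENNReal.ofReal (4 ^ E) * ENNReal.ofReal (C₂ * R ^ (r + 1)))) *
          ∏ j, hh j E R (μ j) x0 ^ (1 / (r : ℝ)) := by ring
    _ = ENNReal.ofReal ((C₁ * δ ^ (r + 1)) ^ M * (4 ^ E * (C₂ * R ^ (r + 1)))) *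
          ∏ j, hh j E R (μ j) x0 ^ (1 / (r : ℝ)) := by
        rw [← ENNReal.ofReal_mul (by positivity), ← ENNReal.ofReal_mul (by positivity)]
    _ ≤ _ := by
        gcongr

end DEC
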