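import Pool.Agent.DEC.StmtsK

/-!
# DEC, module K_KCM: measurability and positivity of the averages   (helper55)
-/

set_option autoImplicit false

namespace DEC

open MeasureTheory Set
open scoped ENNReal

namespace K_KCM

theorem meas_kc {n : ℕ} {g k : (Fin n → ℝ) → ℝ≥0∞} (hg : Measurable g) (hk : Measurable k) :
    Measurable (kc g k) := by
  unfold kc
  exact Measurable.lintegral_prod_right'
    (f := fun p : (Fin n → ℝ) × (Fin n → ℝ) => g p.2 * k (p.1 - p.2))
    ((hg.comp measurable_snd).mul (hk.comp (measurable_fst.sub measurable_snd)))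

theorem meas_kw (hk : ∀ E, Measurable (kr E)) (n E : ℕ) (R : ℝ) : Measurable (kw n E R) := by
  unfold kw
  exact measurable_const.mul ((hk E).comp (measurable_norm.div_const R))

theorem meas_kt (hk : ∀ E, Measurable (kr E)) (r N : ℕ) (v : Fin (r + 1) → ℝ) (ρ : ℝ) :
    Measurable (kt r N v ρ) := by
  unfold kt
  refine measurable_const.mul ((hk N).comp (Measurable.max ?_ ?_))
  · refine Measurable.div_const (Measurable.norm ?_) _
    exact measurable_id.sub ((measurable_pi_apply _).smul_const v)
  · exact (measurable_pi_apply (Fin.last r)).norm.div_const _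

end K_KCM

theorem KCM_thm (h : Stmt_KRB) : Stmt_KCM := by
  obtain ⟨-, -, -, -, hk, hp, -, -, -⟩ := h
  refine ⟨fun n E R g hg => ?_, fun r N v ρ g hg => ?_, fun n E R g x hR hg h0 => ?_,
    fun n l g k x hg hkm => ?_⟩
  · exact ⟨K_KCM.meas_kw hk n E R, K_KCM.meas_kc hg (K_KCM.meas_kw hk n E R)⟩
  · exact ⟨K_KCM.meas_kt hk r N v ρ, K_KCM.meas_kc hg (K_KCM.meas_kt hk r N v ρ)⟩
  · unfold ka kc at h0
    have hm : Measurable fun z => g z * kw n E R (x - z) :=
      hg.mul ((K_KCM.meas_kw hk n E R).comp (measurable_const.sub measurable_id))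
    rw [lintegral_eq_zero_iff hm] at h0
    filter_upwards [h0] with z hz
    have hz' : g z * kw n E R (x - z) = 0 := hz
    rcases mul_eq_zero.1 hz' with h1 | h1
    · exact h1
    · exfalso
      unfold kw at h1
      rcases mul_eq_zero.1 h1 with h2 | h2
      · rw [ENNReal.ofReal_eq_zero] at h2
        have : (0 : ℝ) < (R ^ n)⁻¹ := by positivity
        linarith
      · exact absurd h2 (hp E (‖x - z‖ / R) (by positivity)).1.ne'
  · unfold kc
    have hm : Measurable fun z => g z * k (x - z) :=
      hg.mul (hkm.comp (measurable_const.sub measurable_id))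
    rw [← lintegral_const_mul l hm]
    simp only [mul_assoc]

end DEC
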