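import Pool.Agent.DEC.StmtsK

/-!
# DEC, module K_KRB: elementary facts on `kr` and `kw`
-/

set_option autoImplicit false

namespace DEC

open MeasureTheory Set
open scoped ENNReal

namespace K_KRB

theorem anti (E : ℕ) (a b : ℝ) (ha : 0 ≤ a) (hab : a ≤ b) : kr E b ≤ kr E a := by
  unfold kr
  apply ENNReal.ofReal_le_ofReal
  apply inv_anti₀ (by positivity)
  gcongr

theorem antiE (E F : ℕ) (a : ℝ) (ha : 0 ≤ a) (hEF : E ≤ F) : kr F a ≤ kr E a := by
  unfold kr
  apply ENNReal.ofReal_le_ofReal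
  apply inv_anti₀ (by positivity)
  exact pow_le_pow_right₀ (by linarith) hEF

theorem shift (E : ℕ) (a b c : ℝ) (ha : 0 ≤ a) (hb : 0 ≤ b) (hc : 0 ≤ c) (h : a ≤ b + c) :
    kr E b ≤ ENNReal.ofReal ((1 + c) ^ E) * kr E a := by
  unfold kr
  rw [← ENNReal.ofReal_mul (by positivity)]
  apply ENNReal.ofReal_le_ofReal
  rw [← div_eq_mul_inv, le_div_iff₀ (by positivity), inv_mul_le_iff₀ (by positivity), ← mul_pow]
  apply pow_le_pow_left₀ (by positivity)
  nlinarith [mul_nonneg hb hc]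

theorem scale (E : ℕ) (a c : ℝ) (ha : 0 ≤ a) (hc : 1 ≤ c) :
    kr E a ≤ ENNReal.ofReal (c ^ E) * kr E (c * a) := by
  unfold kr
  have hca : 0 ≤ c * a := mul_nonneg (by linarith) ha
  rw [← ENNReal.ofReal_mul (by positivity)]
  apply ENNReal.ofReal_le_ofReal
  rw [← div_eq_mul_inv, le_div_iff₀ (by positivity), inv_mul_le_iff₀ (by positivity), ← mul_pow]
  apply pow_le_pow_left₀ (by positivity)
  nlinarith

theorem meas (E : ℕ) : Measurable (kr E) := by
  unfold kr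
  apply ENNReal.measurable_ofReal.comp
  exact ((measurable_const.add measurable_id).pow_const E).inv

theorem pos (E : ℕ) (a : ℝ) (ha : 0 ≤ a) : 0 < kr E a ∧ kr E a ≤ 1 := by
  unfold kr
  constructor
  · rw [ENNReal.ofReal_pos]
    positivity
  · rw [← ENNReal.ofReal_one]
    apply ENNReal.ofReal_le_ofReal
    apply inv_le_one_of_one_le₀
    exact one_le_pow₀ (by linarith)

theorem add (E F : ℕ) (a : ℝ) (ha : 0 ≤ a) : kr (E + F) a = kr E a * kr F a := by
  unfold kr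
  rw [← ENNReal.ofReal_mul (by positivity), pow_add, mul_inv]

theorem int (n E : ℕ) (hE : n + 1 ≤ E) : ∃ C : ℝ, 0 < C ∧ ∀ R : ℝ, 0 < R →
    ∫⁻ y : Fin n → ℝ, kr E (‖y‖ / R) ≤ ENNReal.ofReal (C * R ^ n) := by
  have hfin : ∫⁻ y : Fin n → ℝ, kr E ‖y‖ < ∞ := by
    have h := finite_integral_one_add_norm (E := Fin n → ℝ) (μ := volume) (r := (E : ℝ)) (by
      rw [Module.finrank_fin_fun]
      exact_mod_cast hE)
    refine lt_of_le_of_lt (le_of_eq ?_) h
    apply lintegral_congr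
    intro y
    unfold kr
    congr 1
    rw [Real.rpow_neg (by positivity), Real.rpow_natCast]
  set I : ℝ≥0∞ := ∫⁻ y : Fin n → ℝ, kr E ‖y‖ with hI
  refine ⟨I.toReal + 1, by positivity, ?_⟩
  intro R hR
  have hRi : R⁻¹ ≠ 0 := inv_ne_zero hR.ne'
  have key : ∫⁻ y : Fin n → ℝ, kr E (‖y‖ / R) = ENNReal.ofReal (R ^ n) * I := by
    have h1 : ∀ y : Fin n → ℝ, kr E (‖y‖ / R) = (fun u : Fin n → ℝ => kr E ‖u‖) (R⁻¹ • y) := by
      intro y
      simp only [norm_smul, norm_inv, Real.norm_eq_abs, abs_of_pos hR]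
      rw [div_eq_inv_mul]
    rw [lintegral_congr h1]
    have h2 : Measurable (fun u : Fin n → ℝ => kr E ‖u‖) := (meas E).comp measurable_norm
    rw [← lintegral_map h2 (measurable_const_smul R⁻¹), Measure.map_addHaar_smul volume hRi,
      lintegral_smul_measure, Module.finrank_fin_fun]
    rw [smul_eq_mul]
    congr 2
    rw [inv_pow, inv_inv, abs_of_pos (by positivity)]
  rw [key, mul_comm (I.toReal + 1), ENNReal.ofReal_mul (by positivity)]
  gcongr
  calc I = ENNReal.ofReal I.toReal := (ENNReal.ofReal_toReal hfin.ne).symm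
    _ ≤ ENNReal.ofReal (I.toReal + 1) := ENNReal.ofReal_le_ofReal (by linarith)

theorem intw (n E : ℕ) (hE : n + 1 ≤ E) : ∃ C : ℝ, 0 < C ∧ ∀ R : ℝ, 0 < R →
    ∫⁻ y : Fin n → ℝ, kw n E R y ≤ ENNReal.ofReal C := by
  obtain ⟨C, hC, h⟩ := int n E hE
  refine ⟨C, hC, ?_⟩
  intro R hR
  unfold kw
  rw [lintegral_const_mul' _ _ ENNReal.ofReal_ne_top]
  calc ENNReal.ofReal ((R ^ n)⁻¹) * ∫⁻ y : Fin n → ℝ, kr E (‖y‖ / R)
      ≤ ENNReal.ofReal ((R ^ n)⁻¹) * ENNReal.ofReal (C * R ^ n) := by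
        gcongr
        exact h R hR
    _ = ENNReal.ofReal C := by
        rw [← ENNReal.ofReal_mul (by positivity)]
        congr 1
        field_simp

end K_KRB

theorem KRB_thm : Stmt_KRB :=
  ⟨K_KRB.anti, K_KRB.antiE, K_KRB.shift, K_KRB.scale, K_KRB.meas, K_KRB.pos, K_KRB.add,
    K_KRB.int, K_KRB.intw⟩

end DEC
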