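import Pool.Agent.DEC.StmtsK

/-!
# DEC, module K_LW: the Loomis-Whitney inequality
-/

set_option autoImplicit false

namespace DEC

open MeasureTheory Set
open scoped ENNReal

namespace K_LW

variable {ι : Type*} [Fintype ι] [DecidableEq ι]

/-- A function which does not depend on the coordinate `a`, integrated over other coordinates. -/
theorem marg_indep {F : (ι → ℝ) → ℝ≥0∞} (hF : Measurable F) {a : ι}
    (h : ∀ x t, F (Function.update x a t) = F x) {s : Finset ι} (ha : a ∉ s) (x : ι → ℝ) (t : ℝ) :
    lmarginal (fun _ => (volume : Measure ℝ)) s F (Function.update x a t) =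
      lmarginal (fun _ => (volume : Measure ℝ)) s F x := by
  rw [lmarginal_update_of_notMem hF ha]
  have h1 : (F ∘ fun y => Function.update y a t) = F := funext fun y => h y t
  rw [h1]

/-- The induction over the set of the coordinates which are integrated. -/
theorem main (p : ℝ) (hp0 : 0 ≤ p) (hp : ((Fintype.card ι : ℝ) - 1) * p = 1)
    (F : ι → (ι → ℝ) → ℝ≥0∞) (hF : ∀ i, Measurable (F i))
    (hind : ∀ i x t, F i (Function.update x i t) = F i x) (s : Finset ι) (x : ι → ℝ) :
    lmarginal (fun _ => (volume : Measure ℝ)) s (fun y => ∏ i, F i y ^ p) x ≤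
      ∏ i, (lmarginal (fun _ => (volume : Measure ℝ)) (s.erase i) (F i) x) ^ p := by
  have hG : Measurable (fun y : ι → ℝ => ∏ i, F i y ^ p) :=
    Finset.measurable_fun_prod _ fun i _ => (hF i).pow_const p
  induction s using Finset.induction generalizing x with
  | empty => simp
  | insert a s ha ih =>
    rw [lmarginal_insert _ hG ha]
    have hm : ∀ i, Measurable fun t : ℝ =>
        lmarginal (fun _ => (volume : Measure ℝ)) (s.erase i) (F i) (Function.update x a t) :=
      fun i => ((hF i).lmarginal (fun _ => (volume : Measure ℝ))).comp (measurable_update x)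
    calc ∫⁻ t : ℝ, lmarginal (fun _ => (volume : Measure ℝ)) s (fun y => ∏ i, F i y ^ p)
          (Function.update x a t)
        ≤ ∫⁻ t : ℝ, ∏ i, (lmarginal (fun _ => (volume : Measure ℝ)) (s.erase i) (F i)
            (Function.update x a t)) ^ p := lintegral_mono fun t => ih _
      _ = ∫⁻ t : ℝ, (lmarginal (fun _ => (volume : Measure ℝ)) s (F a) x) ^ p *
            ∏ i ∈ Finset.univ.erase a, (lmarginal (fun _ => (volume : Measure ℝ)) (s.erase i)
              (F i) (Function.update x a t)) ^ p := by
          refine lintegral_congr fun t => ?_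
          rw [← Finset.mul_prod_erase Finset.univ _ (Finset.mem_univ a),
            Finset.erase_eq_of_notMem ha, marg_indep (hF a) (hind a) ha]
      _ = (lmarginal (fun _ => (volume : Measure ℝ)) s (F a) x) ^ p *
            ∫⁻ t : ℝ, ∏ i ∈ Finset.univ.erase a, (lmarginal (fun _ => (volume : Measure ℝ))
              (s.erase i) (F i) (Function.update x a t)) ^ p := by
          rw [lintegral_const_mul]
          exact Finset.measurable_fun_prod _ fun i _ => (hm i).pow_const p
      _ ≤ (lmarginal (fun _ => (volume : Measure ℝ)) s (F a) x) ^ p *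
            ∏ i ∈ Finset.univ.erase a, (∫⁻ t : ℝ, lmarginal (fun _ => (volume : Measure ℝ))
              (s.erase i) (F i) (Function.update x a t)) ^ p := by
          gcongr
          refine ENNReal.lintegral_prod_norm_pow_le (p := fun _ => p) _
            (fun i _ => (hm i).aemeasurable) ?_ fun _ _ => hp0
          rw [Finset.sum_const, Finset.card_erase_of_mem (Finset.mem_univ a), Finset.card_univ,
            nsmul_eq_mul, Nat.cast_sub (Fintype.card_pos_iff.2 ⟨a⟩), Nat.cast_one]
          exact hp
      _ = ∏ i, (lmarginal (fun _ => (volume : Measure ℝ)) ((insert a s).erase i) (F i) x) ^ p := by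
          rw [← Finset.mul_prod_erase Finset.univ _ (Finset.mem_univ a),
            Finset.erase_insert ha]
          congr 1
          refine Finset.prod_congr rfl fun i hi => ?_
          have hne : a ≠ i := fun h => (Finset.mem_erase.1 hi).1 h.symm
          rw [Finset.erase_insert_of_ne hne, lmarginal_insert _ (hF i)]
          exact fun h => ha (Finset.mem_of_mem_erase h)

end K_LW

/-- **K_LW.** The Loomis-Whitney inequality. -/
theorem LW_thm : Stmt_LW := by
  intro r f hr hf
  have hr' : (0 : ℝ) < r := by exact_mod_cast hr
  have hmeas : ∀ i : Fin (r + 1), Measurable fun z : Fin (r + 1) → ℝ =>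
      fun l => z (i.succAbove l) := fun i => measurable_pi_iff.2 fun l => measurable_pi_apply _
  have hF : ∀ i : Fin (r + 1), Measurable fun z : Fin (r + 1) → ℝ =>
      f i (fun l => z (i.succAbove l)) := fun i => (hf i).comp (hmeas i)
  have h := K_LW.main (1 / (r : ℝ)) (by positivity)
    (by rw [Fintype.card_fin]; push_cast; field_simp; ring)
    (fun i (z : Fin (r + 1) → ℝ) => f i (fun l => z (i.succAbove l))) hF
    (fun i x t => by
      congr 1
      funext l
      exact Function.update_of_ne (Fin.succAbove_ne i l) _ _)
    Finset.univ 0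
  rw [lmarginal_univ] at h
  refine h.trans (le_of_eq (Finset.prod_congr rfl fun i _ => ?_))
  congr 1
  have h2 := lmarginal_image (μ := fun _ => (volume : Measure ℝ))
    (Fin.succAbove_right_injective (p := i)) Finset.univ (hf i) (0 : Fin (r + 1) → ℝ)
  rw [lmarginal_univ] at h2
  have h3 : (Finset.univ : Finset (Fin (r + 1))).erase i =
      Finset.univ.image i.succAbove := by
    rw [Fin.image_succAbove_univ, ← Finset.compl_singleton]
  rw [h3]
  exact h2

end DEC
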