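import Pool.Agent.DEC.StmtsK

/-!
# DEC, module K_MK: multilinear Kakeya for superpositions of tube averages
-/

set_option autoImplicit false

namespace DEC

open MeasureTheory Set
open scoped ENNReal

namespace K_MK

/-- The density of the measure on the parameters of the tubes. -/
noncomputable def dn {r : ℕ} (E : ℕ) (g : (Fin (r + 1) → ℝ) → ℝ≥0∞) (ρ : ℝ)
    (x0 : Fin (r + 1) → ℝ) (z : Fin (r + 1) → ℝ) : ℝ≥0∞ :=
  g z * kr E (‖x0 - z‖ / ρ ^ 2)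

/-- The measure on the parameters of the tubes of one direction. -/
noncomputable def mJ {r : ℕ} (E : ℕ) (g : (Fin (r + 1) → ℝ) → ℝ≥0∞) (ρ : ℝ)
    (x0 v : Fin (r + 1) → ℝ) : Measure ((Fin (r + 1) → ℝ) × (Fin (r + 1) → ℝ)) :=
  Measure.map (fun z => (v, z)) (volume.withDensity (dn E g ρ x0))

theorem kt_le (hKRB : Stmt_KRB) {r : ℕ} (E : ℕ) {B ρ : ℝ} (hB : 0 ≤ B) (hρ : 1 ≤ ρ)
    (v : Fin (r + 1) → ℝ) (hvB : ‖v‖ ≤ B) (x x0 z : Fin (r + 1) → ℝ)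
    (hx : ‖x - x0‖ ≤ ρ ^ 2) :
    kt r (2 * E) v ρ (x - z) ≤
      ENNReal.ofReal ((ρ ^ (r + 2))⁻¹ * ((1 + B) ^ E * 2 ^ E)) *
        (kr E (‖x0 - z‖ / ρ ^ 2) *
          kr E (‖(x - z) - (x (Fin.last r) - z (Fin.last r)) • v‖ / ρ)) := by
  obtain ⟨h1, -, h3, h4, -, -, h7, -, -⟩ := hKRB
  have hρ0 : 0 < ρ := lt_of_lt_of_le one_pos hρ
  have hρ2 : 0 < ρ ^ 2 := by positivity
  unfold kt
  set y := x - z with hy
  have hyl : x (Fin.last r) - z (Fin.last r) = y (Fin.last r) := rfl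
  rw [hyl]
  set G := max (‖y - y (Fin.last r) • v‖ / ρ) (|y (Fin.last r)| / ρ ^ 2) with hG
  have hG0 : 0 ≤ G := le_max_of_le_left (by positivity)
  have hG1 : ‖y - y (Fin.last r) • v‖ ≤ ρ * G := by
    have h := le_max_left (‖y - y (Fin.last r) • v‖ / ρ) (|y (Fin.last r)| / ρ ^ 2)
    rw [← hG, div_le_iff₀ hρ0] at h
    linarith [mul_comm G ρ]
  have hG2 : |y (Fin.last r)| ≤ ρ ^ 2 * G := by
    have h := le_max_right (‖y - y (Fin.last r) • v‖ / ρ) (|y (Fin.last r)| / ρ ^ 2)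
    rw [← hG, div_le_iff₀ hρ2] at h
    linarith [mul_comm G (ρ ^ 2)]
  have hyn : ‖y‖ ≤ (1 + B) * ρ ^ 2 * G := by
    have e1 : ‖y‖ ≤ ‖y - y (Fin.last r) • v‖ + ‖y (Fin.last r) • v‖ := by
      have := norm_add_le (y - y (Fin.last r) • v) (y (Fin.last r) • v)
      simpa using this
    have e2 : ‖y (Fin.last r) • v‖ ≤ (ρ ^ 2 * G) * B := by
      rw [norm_smul, Real.norm_eq_abs]
      exact mul_le_mul hG2 hvB (norm_nonneg _) (by positivity)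
    have e3 : ρ * G ≤ ρ ^ 2 * G := by
      apply mul_le_mul_of_nonneg_right _ hG0
      nlinarith
    nlinarith
  have e0 : kr (2 * E) G = kr E G * kr E G := by
    rw [two_mul]; exact h7 E E G hG0
  have e1 : kr E G ≤ kr E (‖y - y (Fin.last r) • v‖ / ρ) :=
    h1 E _ _ (by positivity) (le_max_left _ _)
  have e2 : kr E G ≤ ENNReal.ofReal ((1 + B) ^ E) * kr E (‖y‖ / ρ ^ 2) := by
    refine (h4 E G (1 + B) hG0 (by linarith)).trans ?_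
    refine mul_le_mul_right ?_ _
    refine h1 E _ _ (by positivity) ?_
    rw [div_le_iff₀ hρ2]
    linarith [hyn, mul_right_comm (1 + B) (ρ ^ 2) G]
  have e3 : kr E (‖y‖ / ρ ^ 2) ≤ ENNReal.ofReal (2 ^ E) * kr E (‖x0 - z‖ / ρ ^ 2) := by
    have h := h3 E (‖x0 - z‖ / ρ ^ 2) (‖y‖ / ρ ^ 2) 1 (by positivity) (by positivity) zero_le_one
      (by
        rw [div_add' _ _ _ hρ2.ne']
        refine div_le_div_of_nonneg_right ?_ hρ2.le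
        have t1 : x0 - z = (x0 - x) + y := by rw [hy]; abel
        have t2 : ‖x0 - x‖ ≤ ρ ^ 2 := by rw [norm_sub_rev]; exact hx
        calc ‖x0 - z‖ ≤ ‖x0 - x‖ + ‖y‖ := by rw [t1]; exact norm_add_le _ _
          _ ≤ ‖y‖ + 1 * ρ ^ 2 := by linarith)
    have h2 : (1 + 1 : ℝ) = 2 := by norm_num
    rwa [h2] at h
  calc ENNReal.ofReal ((ρ ^ (r + 2))⁻¹) * kr (2 * E) G
      = ENNReal.ofReal ((ρ ^ (r + 2))⁻¹) * (kr E G * kr E G) := by rw [e0]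
    _ ≤ ENNReal.ofReal ((ρ ^ (r + 2))⁻¹) *
          ((ENNReal.ofReal ((1 + B) ^ E) * (ENNReal.ofReal (2 ^ E) * kr E (‖x0 - z‖ / ρ ^ 2))) *
            kr E (‖y - y (Fin.last r) • v‖ / ρ)) := by
        gcongr
        exact e2.trans (by gcongr)
    _ = _ := by
        rw [ENNReal.ofReal_mul (by positivity), ENNReal.ofReal_mul (by positivity)]
        ring

theorem dn_meas (hKRB : Stmt_KRB) {r : ℕ} (E : ℕ) (g : (Fin (r + 1) → ℝ) → ℝ≥0∞)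
    (hg : Measurable g) (ρ : ℝ) (x0 : Fin (r + 1) → ℝ) : Measurable (dn E g ρ x0) := by
  obtain ⟨-, -, -, -, h5, -, -, -, -⟩ := hKRB
  unfold dn
  refine hg.mul ((h5 E).comp ?_)
  exact (by fun_prop : Continuous fun z : Fin (r + 1) → ℝ => ‖x0 - z‖ / ρ ^ 2).measurable

theorem hh_mJ (hKRB : Stmt_KRB) {r : ℕ} (E : ℕ) (g : (Fin (r + 1) → ℝ) → ℝ≥0∞)
    (hg : Measurable g) (ρ W : ℝ) (x0 v x : Fin (r + 1) → ℝ) :
    hh (Fin.last r) E W (mJ E g ρ x0 v) x =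
      ∫⁻ z, dn E g ρ x0 z *
        kr E (‖(x - z) - (x (Fin.last r) - z (Fin.last r)) • v‖ / W) := by
  have h5 := hKRB.2.2.2.2.1
  unfold hh mJ
  rw [lintegral_map, lintegral_withDensity_eq_lintegral_mul _ (dn_meas hKRB E g hg ρ x0)]
  · rfl
  · refine (h5 E).comp ?_
    exact (by fun_prop : Continuous fun z : Fin (r + 1) → ℝ =>
      ‖(x - z) - (x (Fin.last r) - z (Fin.last r)) • v‖ / W).measurable
  · refine (h5 E).comp ?_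
    exact (by fun_prop : Continuous fun ω : (Fin (r + 1) → ℝ) × (Fin (r + 1) → ℝ) =>
      ‖(x - ω.2) - (x (Fin.last r) - ω.2 (Fin.last r)) • ω.1‖ / W).measurable
  · exact measurable_prodMk_left

theorem mJ_univ {r : ℕ} (hKRB : Stmt_KRB) (E : ℕ) (g : (Fin (r + 1) → ℝ) → ℝ≥0∞)
    (hg : Measurable g) {ρ : ℝ} (hρ : 1 ≤ ρ) (x0 v : Fin (r + 1) → ℝ) :
    mJ E g ρ x0 v univ = ENNReal.ofReal ((ρ ^ 2) ^ (r + 1)) * ka g E (ρ ^ 2) x0 := by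
  have hρ0 : 0 < ρ := lt_of_lt_of_le one_pos hρ
  unfold mJ ka kc kw
  rw [Measure.map_apply measurable_prodMk_left MeasurableSet.univ, preimage_univ,
    withDensity_apply _ MeasurableSet.univ, Measure.restrict_univ]
  rw [← lintegral_const_mul' _ _ ENNReal.ofReal_ne_top]
  refine lintegral_congr fun z => ?_
  unfold dn
  have h : ENNReal.ofReal ((ρ ^ 2) ^ (r + 1)) * ENNReal.ofReal (((ρ ^ 2) ^ (r + 1))⁻¹) = 1 := by
    rw [← ENNReal.ofReal_mul (by positivity), mul_inv_cancel₀ (by positivity), ENNReal.ofReal_one]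
  calc g z * kr E (‖x0 - z‖ / ρ ^ 2)
      = (ENNReal.ofReal ((ρ ^ 2) ^ (r + 1)) * ENNReal.ofReal (((ρ ^ 2) ^ (r + 1))⁻¹)) *
          (g z * kr E (‖x0 - z‖ / ρ ^ 2)) := by rw [h, one_mul]
    _ = _ := by ring

theorem kc_le (hKRB : Stmt_KRB) {r : ℕ} (E : ℕ) {B ρ : ℝ} (hB : 0 ≤ B) (hρ : 1 ≤ ρ)
    (g : (Fin (r + 1) → ℝ) → ℝ≥0∞) (hg : Measurable g)
    (v : Fin (r + 1) → ℝ) (hvB : ‖v‖ ≤ B) (x x0 : Fin (r + 1) → ℝ)
    (hx : ‖x - x0‖ ≤ ρ ^ 2) :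
    kc g (kt r (2 * E) v ρ) x ≤
      ENNReal.ofReal ((ρ ^ (r + 2))⁻¹ * ((1 + B) ^ E * 2 ^ E)) *
        hh (Fin.last r) E ρ (mJ E g ρ x0 v) x := by
  rw [hh_mJ hKRB E g hg, ← lintegral_const_mul' _ _ ENNReal.ofReal_ne_top]
  unfold kc
  refine lintegral_mono fun z => ?_
  calc g z * kt r (2 * E) v ρ (x - z)
      ≤ g z * (ENNReal.ofReal ((ρ ^ (r + 2))⁻¹ * ((1 + B) ^ E * 2 ^ E)) *
        (kr E (‖x0 - z‖ / ρ ^ 2) *
          kr E (‖(x - z) - (x (Fin.last r) - z (Fin.last r)) • v‖ / ρ))) := by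
        gcongr
        exact kt_le hKRB E hB hρ v hvB x x0 z hx
    _ = _ := by unfold dn; ring

instance mJ_sfin {r : ℕ} (E : ℕ) (g : (Fin (r + 1) → ℝ) → ℝ≥0∞) (ρ : ℝ)
    (x0 v : Fin (r + 1) → ℝ) : SFinite (mJ E g ρ x0 v) := by
  unfold mJ
  infer_instance

theorem sum_sfin {α ι : Type} [MeasurableSpace α] (S : Finset ι) (m : ι → Measure α)
    (h : ∀ i, SFinite (m i)) : SFinite (∑ i ∈ S, m i) := by
  classical
  induction S using Finset.induction_on with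
  | empty => rw [Finset.sum_empty]; infer_instance
  | insert a S ha ih =>
    rw [Finset.sum_insert ha]
    have := h a
    have := ih
    infer_instance

theorem hh_sum {r : ℕ} {ι : Type} (E : ℕ) (W : ℝ) (S : Finset ι)
    (m : ι → Measure ((Fin (r + 1) → ℝ) × (Fin (r + 1) → ℝ))) (x : Fin (r + 1) → ℝ) :
    hh (Fin.last r) E W (∑ J ∈ S, m J) x = ∑ J ∈ S, hh (Fin.last r) E W (m J) x := by
  unfold hh
  rw [lintegral_finsetSum_measure]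

/-- The real identity behind the powers of `ρ`. -/
theorem pow_id {r : ℕ} (hr : 1 ≤ r) {ρ a C0 D : ℝ} (ε : ℝ) (hρ : 1 ≤ ρ) (ha : 0 ≤ a) :
    (((ρ ^ (r + 2))⁻¹ * a) ^ (1 / (r : ℝ))) ^ (r + 1) * D *
      (C0 * ρ ^ (r + 1) * (ρ ^ 2 / ρ) ^ ε) * (((ρ ^ 2) ^ (r + 1)) ^ (1 / (r : ℝ))) ^ (r + 1) =
    (C0 * D * (a ^ (1 / (r : ℝ))) ^ (r + 1)) * ρ ^ ε * ρ ^ (2 * (r + 1)) := by
  have hρ0 : 0 < ρ := lt_of_lt_of_le one_pos hρ
  have h1 : ρ ^ 2 / ρ = ρ := by field_simp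
  have h2 : ((ρ ^ (r + 2))⁻¹) ^ (1 / (r : ℝ)) * ((ρ ^ 2) ^ (r + 1)) ^ (1 / (r : ℝ)) = ρ := by
    rw [← Real.mul_rpow (by positivity) (by positivity)]
    have h3 : (ρ ^ (r + 2))⁻¹ * (ρ ^ 2) ^ (r + 1) = ρ ^ r := by
      rw [← pow_mul, inv_mul_eq_div, div_eq_iff (by positivity), ← pow_add]
      congr 1
      ring
    rw [h3, one_div, Real.pow_rpow_inv_natCast hρ0.le (by omega)]
  rw [Real.mul_rpow (by positivity) ha, h1]
  calc (((ρ ^ (r + 2))⁻¹) ^ (1 / (r : ℝ)) * a ^ (1 / (r : ℝ))) ^ (r + 1) * D *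
        (C0 * ρ ^ (r + 1) * ρ ^ ε) * (((ρ ^ 2) ^ (r + 1)) ^ (1 / (r : ℝ))) ^ (r + 1)
      = (C0 * D * (a ^ (1 / (r : ℝ))) ^ (r + 1)) * ρ ^ ε * (ρ ^ (r + 1) *
          (((ρ ^ (r + 2))⁻¹) ^ (1 / (r : ℝ)) * ((ρ ^ 2) ^ (r + 1)) ^ (1 / (r : ℝ))) ^ (r + 1)) := by
        rw [mul_pow, mul_pow]; ring
    _ = _ := by rw [h2]; ring

end K_MK

open K_MK in
theorem MK_thm (hKAK : Stmt_KAK) (hHHM : Stmt_HHM) (hKRB : Stmt_KRB) (_hKCM : Stmt_KCM) :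
    Stmt_MK := by
  intro r E ε B ν hr hE hε hB hν
  obtain ⟨C0, hC0, hK⟩ := hKAK r E ε B ν hr hE hε hB hν
  have ha : (0 : ℝ) < (1 + B) ^ E * 2 ^ E := by positivity
  refine ⟨C0 * 2 ^ (2 * E + r + 3) * (((1 + B) ^ E * 2 ^ E) ^ (1 / (r : ℝ))) ^ (r + 1),
    by positivity, ?_⟩
  intro ι S v g ρ x0 hρ hg hv hdet
  have hρ0 : 0 < ρ := lt_of_lt_of_le one_pos hρ
  have hr0 : (0 : ℝ) ≤ 1 / (r : ℝ) := by positivity
  let μ : Fin (r + 1) → Measure ((Fin (r + 1) → ℝ) × (Fin (r + 1) → ℝ)) := fun j =>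
    ∑ J ∈ S j, mJ E (g J) ρ x0 (v J)
  have hsf : ∀ j, SFinite (μ j) := fun j => sum_sfin (S j) _ fun J => mJ_sfin E (g J) ρ x0 (v J)
  let D : Fin (r + 1) → Set (Fin (r + 1) → ℝ) := fun j => v '' (S j : Set ι)
  have hD1 : ∀ j, ∀ w ∈ D j, w (Fin.last r) = 1 ∧ ‖w‖ ≤ B := by
    rintro j _ ⟨J, hJ, rfl⟩
    exact hv j J hJ
  have hD2 : ∀ c : Fin (r + 1) → Fin (r + 1) → ℝ, (∀ j, c j ∈ D j) →
      ν ≤ |Matrix.det (Matrix.of c)| := by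
    intro c hc
    choose J hJ1 hJ2 using hc
    have h := hdet J hJ1
    have h2 : (fun j => v (J j)) = c := funext hJ2
    rwa [h2] at h
  have hDm : ∀ j, MeasurableSet (D j) := fun j =>
    ((S j).finite_toSet.image v).measurableSet
  have hD3 : ∀ j, ∀ᵐ ω ∂(μ j), ω.1 ∈ D j := by
    intro j
    rw [ae_iff]
    show (∑ J ∈ S j, mJ E (g J) ρ x0 (v J)) {ω | ¬ ω.1 ∈ D j} = 0
    rw [Measure.finsetSum_apply]
    refine Finset.sum_eq_zero fun J hJ => ?_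
    unfold mJ
    have hm : MeasurableSet {ω : (Fin (r + 1) → ℝ) × (Fin (r + 1) → ℝ) | ¬ ω.1 ∈ D j} :=
      (measurable_fst (hDm j)).compl
    rw [Measure.map_apply measurable_prodMk_left hm]
    have : (fun z : Fin (r + 1) → ℝ => (v J, z)) ⁻¹' {ω | ¬ ω.1 ∈ D j} = ∅ := by
      ext z
      simp only [mem_preimage, mem_setOf_eq, mem_empty_iff_false, iff_false, not_not]
      exact ⟨J, hJ, rfl⟩
    rw [this, measure_empty]
  have hmain := hK ρ (ρ ^ 2) μ x0 D hρ0 (by nlinarith) hD1 hD2 hD3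
  have hball : ∀ x ∈ Metric.closedBall x0 (ρ ^ 2),
      ∏ j, (∑ J ∈ S j, kc (g J) (kt r (2 * E) (v J) ρ) x) ^ (1 / (r : ℝ)) ≤
        (ENNReal.ofReal (((ρ ^ (r + 2))⁻¹ * ((1 + B) ^ E * 2 ^ E)) ^ (1 / (r : ℝ))) ^ (r + 1) *
          ENNReal.ofReal (2 ^ (2 * E + r + 3))) *
        ((∏ j, hh (Fin.last r) E ρ (μ j) x ^ (1 / (r : ℝ))) *
          kr (2 * E + r + 3) (‖x - x0‖ / ρ ^ 2)) := by
    intro x hx
    have hx' : ‖x - x0‖ ≤ ρ ^ 2 := by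
      rwa [Metric.mem_closedBall, dist_eq_norm] at hx
    have h1 : ∏ j, (∑ J ∈ S j, kc (g J) (kt r (2 * E) (v J) ρ) x) ^ (1 / (r : ℝ)) ≤
        ∏ j : Fin (r + 1),
          (ENNReal.ofReal (((ρ ^ (r + 2))⁻¹ * ((1 + B) ^ E * 2 ^ E)) ^ (1 / (r : ℝ))) *
          hh (Fin.last r) E ρ (μ j) x ^ (1 / (r : ℝ))) := by
      refine Finset.prod_le_prod' fun j _ => ?_
      rw [← ENNReal.ofReal_rpow_of_nonneg (by positivity) hr0,
        ← ENNReal.mul_rpow_of_nonneg _ _ hr0]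
      refine ENNReal.rpow_le_rpow ?_ hr0
      show _ ≤ _ * hh (Fin.last r) E ρ (∑ J ∈ S j, mJ E (g J) ρ x0 (v J)) x
      rw [hh_sum, Finset.mul_sum]
      refine Finset.sum_le_sum fun J hJ => ?_
      exact kc_le hKRB E hB hρ (g J) (hg J) (v J) (hv j J hJ).2 x x0 hx'
    have h2 : (1 : ℝ≥0∞) ≤ ENNReal.ofReal (2 ^ (2 * E + r + 3)) *
        kr (2 * E + r + 3) (‖x - x0‖ / ρ ^ 2) := by
      have h := hKRB.2.2.1 (2 * E + r + 3) (‖x - x0‖ / ρ ^ 2) 0 1 (by positivity) le_rfl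
        zero_le_one (by rw [zero_add, div_le_one (by positivity)]; exact hx')
      have h3 : (1 + 1 : ℝ) = 2 := by norm_num
      have h4 : kr (2 * E + r + 3) 0 = 1 := by
        unfold kr
        simp
      rwa [h3, h4] at h
    calc _ ≤ _ := h1
      _ = ENNReal.ofReal (((ρ ^ (r + 2))⁻¹ * ((1 + B) ^ E * 2 ^ E)) ^ (1 / (r : ℝ))) ^ (r + 1) *
          ∏ j, hh (Fin.last r) E ρ (μ j) x ^ (1 / (r : ℝ)) := by
        rw [Finset.prod_mul_distrib, Finset.prod_const, Finset.card_univ, Fintype.card_fin]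
      _ = (ENNReal.ofReal (((ρ ^ (r + 2))⁻¹ * ((1 + B) ^ E * 2 ^ E)) ^ (1 / (r : ℝ))) ^ (r + 1) *
          ∏ j, hh (Fin.last r) E ρ (μ j) x ^ (1 / (r : ℝ))) * 1 := (mul_one _).symm
      _ ≤ (ENNReal.ofReal (((ρ ^ (r + 2))⁻¹ * ((1 + B) ^ E * 2 ^ E)) ^ (1 / (r : ℝ))) ^ (r + 1) *
          ∏ j, hh (Fin.last r) E ρ (μ j) x ^ (1 / (r : ℝ))) *
          (ENNReal.ofReal (2 ^ (2 * E + r + 3)) *
            kr (2 * E + r + 3) (‖x - x0‖ / ρ ^ 2)) := by gcongr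
      _ = _ := by ring
  have hright : ∏ j, hh (Fin.last r) E (ρ ^ 2) (μ j) x0 ^ (1 / (r : ℝ)) ≤
      ENNReal.ofReal (((ρ ^ 2) ^ (r + 1)) ^ (1 / (r : ℝ))) ^ (r + 1) *
        ∏ j, (∑ J ∈ S j, ka (g J) E (ρ ^ 2) x0) ^ (1 / (r : ℝ)) := by
    have h1 : ∏ j, hh (Fin.last r) E (ρ ^ 2) (μ j) x0 ^ (1 / (r : ℝ)) ≤
        ∏ j : Fin (r + 1), (ENNReal.ofReal (((ρ ^ 2) ^ (r + 1)) ^ (1 / (r : ℝ))) *
          (∑ J ∈ S j, ka (g J) E (ρ ^ 2) x0) ^ (1 / (r : ℝ))) := by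
      refine Finset.prod_le_prod' fun j _ => ?_
      rw [← ENNReal.ofReal_rpow_of_nonneg (by positivity) hr0,
        ← ENNReal.mul_rpow_of_nonneg _ _ hr0]
      refine ENNReal.rpow_le_rpow ?_ hr0
      have h2 := hHHM.2.2.2.2.1 (r + 1) (Fin.last r) E (ρ ^ 2) (μ j) x0 (by positivity)
      refine h2.trans ?_
      show (∑ J ∈ S j, mJ E (g J) ρ x0 (v J)) univ ≤ _
      rw [Measure.finsetSum_apply, Finset.mul_sum]
      refine Finset.sum_le_sum fun J _ => ?_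
      exact (mJ_univ hKRB E (g J) (hg J) hρ x0 (v J)).le
    refine h1.trans (le_of_eq ?_)
    rw [Finset.prod_mul_distrib, Finset.prod_const, Finset.card_univ, Fintype.card_fin]
  calc ∫⁻ x in Metric.closedBall x0 (ρ ^ 2),
        ∏ j, (∑ J ∈ S j, kc (g J) (kt r (2 * E) (v J) ρ) x) ^ (1 / (r : ℝ))
      ≤ ∫⁻ x in Metric.closedBall x0 (ρ ^ 2),
        (ENNReal.ofReal (((ρ ^ (r + 2))⁻¹ * ((1 + B) ^ E * 2 ^ E)) ^ (1 / (r : ℝ))) ^ (r + 1) *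
          ENNReal.ofReal (2 ^ (2 * E + r + 3))) *
        ((∏ j, hh (Fin.last r) E ρ (μ j) x ^ (1 / (r : ℝ))) *
          kr (2 * E + r + 3) (‖x - x0‖ / ρ ^ 2)) :=
        setLIntegral_mono' Metric.isClosed_closedBall.measurableSet hball
    _ ≤ ∫⁻ x,
        (ENNReal.ofReal (((ρ ^ (r + 2))⁻¹ * ((1 + B) ^ E * 2 ^ E)) ^ (1 / (r : ℝ))) ^ (r + 1) *
          ENNReal.ofReal (2 ^ (2 * E + r + 3))) *
        ((∏ j, hh (Fin.last r) E ρ (μ j) x ^ (1 / (r : ℝ))) *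
          kr (2 * E + r + 3) (‖x - x0‖ / ρ ^ 2)) := setLIntegral_le_lintegral _ _
    _ = (ENNReal.ofReal (((ρ ^ (r + 2))⁻¹ * ((1 + B) ^ E * 2 ^ E)) ^ (1 / (r : ℝ))) ^ (r + 1) *
          ENNReal.ofReal (2 ^ (2 * E + r + 3))) *
        ∫⁻ x, ((∏ j, hh (Fin.last r) E ρ (μ j) x ^ (1 / (r : ℝ))) *
          kr (2 * E + r + 3) (‖x - x0‖ / ρ ^ 2)) := by
        rw [lintegral_const_mul']
        exact ENNReal.mul_ne_top (ENNReal.pow_ne_top ENNReal.ofReal_ne_top) ENNReal.ofReal_ne_top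
    _ ≤ (ENNReal.ofReal (((ρ ^ (r + 2))⁻¹ * ((1 + B) ^ E * 2 ^ E)) ^ (1 / (r : ℝ))) ^ (r + 1) *
          ENNReal.ofReal (2 ^ (2 * E + r + 3))) *
        (ENNReal.ofReal (C0 * ρ ^ (r + 1) * (ρ ^ 2 / ρ) ^ ε) *
          (ENNReal.ofReal (((ρ ^ 2) ^ (r + 1)) ^ (1 / (r : ℝ))) ^ (r + 1) *
        ∏ j, (∑ J ∈ S j, ka (g J) E (ρ ^ 2) x0) ^ (1 / (r : ℝ)))) := by
        gcongr
        exact hmain.trans (by gcongr)
    _ = (ENNReal.ofReal (((ρ ^ (r + 2))⁻¹ * ((1 + B) ^ E * 2 ^ E)) ^ (1 / (r : ℝ))) ^ (r + 1) *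
          ENNReal.ofReal (2 ^ (2 * E + r + 3)) *
        ENNReal.ofReal (C0 * ρ ^ (r + 1) * (ρ ^ 2 / ρ) ^ ε) *
          ENNReal.ofReal (((ρ ^ 2) ^ (r + 1)) ^ (1 / (r : ℝ))) ^ (r + 1)) *
        ∏ j, (∑ J ∈ S j, ka (g J) E (ρ ^ 2) x0) ^ (1 / (r : ℝ)) := by ring
    _ = _ := by
        congr 1
        rw [← ENNReal.ofReal_pow (by positivity), ← ENNReal.ofReal_pow (by positivity),
          ← ENNReal.ofReal_mul (by positivity), ← ENNReal.ofReal_mul (by positivity),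
          ← ENNReal.ofReal_mul (by positivity)]
        congr 1
        exact pow_id hr ε hρ ha.le

end DEC
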