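import Pool.Agent.DEC.StmtsK

/-!
# DEC, block K: general transversal directions (module K_ROT)
-/

set_option autoImplicit false

namespace DEC

open MeasureTheory Set
open scoped ENNReal

namespace K_ROT

theorem kr_scale (hKRB : Stmt_KRB) (E : ℕ) (a b c : ℝ) (ha : 0 ≤ a) (hb : 0 ≤ b) (hc : 1 ≤ c)
    (h : b ≤ c * a) : kr E a ≤ ENNReal.ofReal (c ^ E) * kr E b := by
  obtain ⟨h1, -, -, h4, -⟩ := hKRB
  exact (h4 E a c ha hc).trans (mul_le_mul_right (h1 E b (c * a) hb h) _)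

theorem rpow_bd (r : ℕ) (hr : 1 ≤ r) (κ : ℝ) (hκ : 1 ≤ κ) (x y : ℝ≥0∞)
    (h : x ≤ ENNReal.ofReal κ * y) :
    x ^ (1 / (r : ℝ)) ≤ ENNReal.ofReal κ * y ^ (1 / (r : ℝ)) := by
  have hr1 : (1 : ℝ) ≤ r := by exact_mod_cast hr
  have h0 : (0 : ℝ) ≤ 1 / (r : ℝ) := by positivity
  have h1 : 1 / (r : ℝ) ≤ 1 := by rw [div_le_one (by linarith)]; exact hr1
  have hk1 : (1 : ℝ≥0∞) ≤ ENNReal.ofReal κ := by
    rw [← ENNReal.ofReal_one]; exact ENNReal.ofReal_le_ofReal hκ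
  calc x ^ (1 / (r : ℝ)) ≤ (ENNReal.ofReal κ * y) ^ (1 / (r : ℝ)) := ENNReal.rpow_le_rpow h h0
    _ = ENNReal.ofReal κ ^ (1 / (r : ℝ)) * y ^ (1 / (r : ℝ)) :=
        ENNReal.mul_rpow_of_nonneg _ _ h0
    _ ≤ ENNReal.ofReal κ * y ^ (1 / (r : ℝ)) := by
        apply mul_le_mul_left
        calc ENNReal.ofReal κ ^ (1 / (r : ℝ)) ≤ ENNReal.ofReal κ ^ (1 : ℝ) :=
              ENNReal.rpow_le_rpow_of_exponent_le hk1 h1
          _ = ENNReal.ofReal κ := ENNReal.rpow_one _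

theorem prod_bd (r : ℕ) (κ : ℝ) (hκ : 0 ≤ κ) (f g : Fin (r + 1) → ℝ≥0∞)
    (h : ∀ j, f j ≤ ENNReal.ofReal κ * g j) :
    ∏ j, f j ≤ ENNReal.ofReal (κ ^ (r + 1)) * ∏ j, g j := by
  calc ∏ j, f j ≤ ∏ j, ENNReal.ofReal κ * g j := Finset.prod_le_prod' fun j _ => h j
    _ = ENNReal.ofReal (κ ^ (r + 1)) * ∏ j, g j := by
        rw [Finset.prod_mul_distrib, Finset.prod_const, Finset.card_univ, Fintype.card_fin,
          ENNReal.ofReal_pow hκ]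

section geom

variable {r : ℕ} (Λ : (Fin (r + 1) → ℝ) ≃ₗ[ℝ] (Fin (r + 1) → ℝ)) (β δ : ℝ)
  (j : Fin (r + 1)) (c v : Fin (r + 1) → ℝ)

theorem lam (hΛc : Λ c = Pi.single j 1) (hΛ : ∀ y, ‖Λ y‖ ≤ β * ‖y‖) (hδ1 : δ ≤ 1)
    (hβ : 1 ≤ β) (hv : ‖v - c‖ ≤ δ / (2 * β)) :
    1 / 2 ≤ Λ v j ∧ ∀ i, i ≠ j → |Λ v i| ≤ δ / 2 := by
  have h1 : Λ v = Pi.single j 1 + Λ (v - c) := by
    rw [map_sub, hΛc]; abel
  have h2 : ‖Λ (v - c)‖ ≤ δ / 2 := by
    calc ‖Λ (v - c)‖ ≤ β * ‖v - c‖ := hΛ _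
      _ ≤ β * (δ / (2 * β)) := mul_le_mul_of_nonneg_left hv (by linarith)
      _ = δ / 2 := by field_simp
  have h3 : ∀ i, |Λ (v - c) i| ≤ δ / 2 := fun i => (norm_le_pi_norm (Λ (v - c)) i).trans h2
  constructor
  · rw [h1, Pi.add_apply, Pi.single_eq_same]
    have := (abs_le.1 (h3 j)).1
    linarith
  · intro i hi
    rw [h1, Pi.add_apply, Pi.single_eq_of_ne hi, zero_add]
    exact h3 i

theorem dir (hj : 1 / 2 ≤ Λ v j) (hi : ∀ i, i ≠ j → |Λ v i| ≤ δ / 2) :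
    ((Λ v j)⁻¹ • Λ v) j = 1 ∧ ∀ i, i ≠ j → |((Λ v j)⁻¹ • Λ v) i| ≤ δ := by
  have hp : 0 < Λ v j := by linarith
  constructor
  · rw [Pi.smul_apply, smul_eq_mul, inv_mul_cancel₀ hp.ne']
  · intro i h
    rw [Pi.smul_apply, smul_eq_mul, abs_mul, abs_inv, abs_of_pos hp, inv_mul_le_iff₀ hp]
    have h0 : 0 ≤ δ := by
      have := (abs_nonneg _).trans (hi i h); linarith
    have := hi i h
    nlinarith

theorem dir_norm (hδ1 : δ ≤ 1) (hj : 1 / 2 ≤ Λ v j) (hi : ∀ i, i ≠ j → |Λ v i| ≤ δ / 2) :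
    ‖(Λ v j)⁻¹ • Λ v‖ ≤ 1 := by
  obtain ⟨h1, h2⟩ := dir Λ δ j v hj hi
  rw [pi_norm_le_iff_of_nonneg zero_le_one]
  intro i
  by_cases h : i = j
  · subst h; rw [h1]; simp
  · exact (h2 i h).trans hδ1

theorem sem1 (hΛ : ∀ y, ‖Λ y‖ ≤ β * ‖y‖) (hδ1 : δ ≤ 1) (hj : 1 / 2 ≤ Λ v j)
    (hi : ∀ i, i ≠ j → |Λ v i| ≤ δ / 2) (y : Fin (r + 1) → ℝ) :
    ‖Λ y - (Λ y j) • ((Λ v j)⁻¹ • Λ v)‖ ≤ 2 * β * ‖y - y (Fin.last r) • v‖ := by
  have hp : Λ v j ≠ 0 := by linarith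
  set v' : Fin (r + 1) → ℝ := (Λ v j)⁻¹ • Λ v with hv'
  have hv'n : ‖v'‖ ≤ 1 := dir_norm Λ δ j v hδ1 hj hi
  set e : Fin (r + 1) → ℝ := y - y (Fin.last r) • v with he
  have hLe : Λ e = Λ y - y (Fin.last r) • Λ v := by rw [he, map_sub, map_smul]
  have hkill : Λ v = (Λ v j) • v' := by rw [hv', smul_smul, mul_inv_cancel₀ hp, one_smul]
  have key : Λ y - (Λ y j) • v' = Λ e - (Λ e j) • v' := by
    have hj' : Λ e j = Λ y j - y (Fin.last r) * Λ v j := by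
      rw [hLe]; simp
    have h5 : y (Fin.last r) • Λ v = (y (Fin.last r) * Λ v j) • v' := by
      rw [mul_smul, ← hkill]
    rw [hj', hLe, h5, sub_smul]
    abel
  rw [key]
  calc ‖Λ e - (Λ e j) • v'‖ ≤ ‖Λ e‖ + ‖(Λ e j) • v'‖ := norm_sub_le _ _
    _ = ‖Λ e‖ + ‖Λ e j‖ * ‖v'‖ := by rw [norm_smul]
    _ ≤ ‖Λ e‖ + ‖Λ e‖ * 1 := by
        gcongr
        exact norm_le_pi_norm (Λ e) j
    _ = 2 * ‖Λ e‖ := by ring
    _ ≤ 2 * (β * ‖e‖) := by gcongr; exact hΛ e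
    _ = 2 * β * ‖e‖ := by ring

theorem sem2 (B : ℝ) (hB : 0 ≤ B) (hβ : 1 ≤ β) (hΛ' : ∀ y, ‖y‖ ≤ β * ‖Λ y‖)
    (hv1 : v (Fin.last r) = 1)
    (hvn : ‖v‖ ≤ B + 1) (hj : 1 / 2 ≤ Λ v j) (y : Fin (r + 1) → ℝ) :
    ‖y - y (Fin.last r) • v‖ ≤ (B + 2) * β * ‖Λ y - (Λ y j) • ((Λ v j)⁻¹ • Λ v)‖ := by
  have hp : Λ v j ≠ 0 := by linarith
  set e' : Fin (r + 1) → ℝ := Λ y - (Λ y j) • ((Λ v j)⁻¹ • Λ v) with he'
  set u : Fin (r + 1) → ℝ := Λ.symm e' with hu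
  have hLu : Λ u = e' := by rw [hu, LinearEquiv.apply_symm_apply]
  set t : ℝ := Λ y j * (Λ v j)⁻¹ with ht
  have hy : y = u + t • v := by
    apply Λ.injective
    rw [map_add, map_smul, hLu, he', smul_smul, ← ht]
    abel
  have hyl : y (Fin.last r) = u (Fin.last r) + t := by
    have := congrFun hy (Fin.last r)
    rw [Pi.add_apply, Pi.smul_apply, smul_eq_mul, hv1, mul_one] at this
    exact this
  have key : y - y (Fin.last r) • v = u - u (Fin.last r) • v := by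
    rw [hyl]
    nth_rewrite 1 [hy]
    rw [add_smul]
    abel
  rw [key]
  have hun : ‖u‖ ≤ β * ‖e'‖ := by rw [← hLu]; exact hΛ' u
  calc ‖u - u (Fin.last r) • v‖ ≤ ‖u‖ + ‖u (Fin.last r) • v‖ := norm_sub_le _ _
    _ = ‖u‖ + ‖u (Fin.last r)‖ * ‖v‖ := by rw [norm_smul]
    _ ≤ ‖u‖ + ‖u‖ * (B + 1) := by
        gcongr
        exact norm_le_pi_norm u _
    _ = (B + 2) * ‖u‖ := by ring
    _ ≤ (B + 2) * (β * ‖e'‖) := by gcongr
    _ = (B + 2) * β * ‖e'‖ := by ring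

end geom

end K_ROT

open K_ROT in
theorem ROT_thm (hKAKX : Stmt_KAKX) (hINV : Stmt_INV) (hKRB : Stmt_KRB) (hHHM : Stmt_HHM) :
    Stmt_ROT := by
  intro r E ε B ν hr hrE hε hB hν
  obtain ⟨δ, C, hδ, hδ1, hC, hK⟩ := hKAKX r E ε hr hrE hε
  obtain ⟨β, hβ, hI⟩ := hINV r B ν hν
  have hβ0 : 0 < β := by linarith
  set F : ℕ := 2 * E + r + 3 with hF
  set κ₁ : ℝ := (2 * β) ^ E with hκ₁
  set κ₂ : ℝ := ((B + 2) * β) ^ E with hκ₂
  have h2β : 1 ≤ 2 * β := by linarith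
  have hBβ : 1 ≤ (B + 2) * β := by nlinarith
  have hκ₁1 : 1 ≤ κ₁ := one_le_pow₀ h2β
  have hκ₂1 : 1 ≤ κ₂ := one_le_pow₀ hBβ
  refine ⟨δ / (2 * β), κ₁ ^ (r + 1) * β ^ F * β * C * κ₂ ^ (r + 1), by positivity,
    by positivity, ?_⟩
  intro W R μ hμ x0 c hW hWR hc hdet hdir
  have hR : 0 < R := lt_of_lt_of_le hW hWR
  obtain ⟨Λ, hΛc, hΛ, hΛ', hΛI⟩ := hI c hc hdet
  have hΛm : Measurable Λ := by
    have : Continuous (Λ : (Fin (r + 1) → ℝ) →ₗ[ℝ] (Fin (r + 1) → ℝ)) :=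
      LinearMap.continuous_of_finiteDimensional _
    exact this.measurable
  -- the transported measures
  set T : Fin (r + 1) → ((Fin (r + 1) → ℝ) × (Fin (r + 1) → ℝ)) →
      ((Fin (r + 1) → ℝ) × (Fin (r + 1) → ℝ)) :=
    fun j ω => ((Λ ω.1 j)⁻¹ • Λ ω.1, Λ ω.2) with hT
  have hTm : ∀ j, Measurable (T j) := by
    intro j
    have h1 : Measurable fun ω : (Fin (r + 1) → ℝ) × (Fin (r + 1) → ℝ) => Λ ω.1 :=
      hΛm.comp measurable_fst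
    have h2 : Measurable fun ω : (Fin (r + 1) → ℝ) × (Fin (r + 1) → ℝ) => Λ ω.1 j :=
      (measurable_pi_apply j).comp h1
    exact (h2.inv.smul h1).prodMk (hΛm.comp measurable_snd)
  set μ' : Fin (r + 1) → Measure ((Fin (r + 1) → ℝ) × (Fin (r + 1) → ℝ)) :=
    fun j => (μ j).map (T j) with hμ'
  have hsf : ∀ j, SFinite (μ' j) := fun j => by rw [hμ']; infer_instance
  -- directions
  have hgood : ∀ j, ∀ᵐ ω ∂(μ j), ω.1 (Fin.last r) = 1 ∧ ‖ω.1‖ ≤ B + 1 ∧ 1 / 2 ≤ Λ ω.1 j ∧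
      ∀ i, i ≠ j → |Λ ω.1 i| ≤ δ / 2 := by
    intro j
    filter_upwards [hdir j] with ω hω
    obtain ⟨h1, h2⟩ := lam Λ β δ j (c j) ω.1 (hΛc j) hΛ hδ1 hβ hω.2
    refine ⟨hω.1, ?_, h1, h2⟩
    have h3 : ‖ω.1‖ ≤ ‖c j‖ + ‖ω.1 - c j‖ := by
      calc ‖ω.1‖ = ‖c j + (ω.1 - c j)‖ := by rw [add_sub_cancel]
        _ ≤ _ := norm_add_le _ _
    have h4 : δ / (2 * β) ≤ 1 := by
      rw [div_le_one (by linarith)]; linarith
    linarith [hc j, hω.2]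
  have hae : ∀ j, ∀ᵐ ω ∂(μ' j), ω.1 j = 1 ∧ ∀ i, i ≠ j → |ω.1 i| ≤ δ := by
    intro j
    rw [hμ']
    refine (ae_map_iff (hTm j).aemeasurable ?_).2 ?_
    · have h1 : MeasurableSet {ω : (Fin (r + 1) → ℝ) × (Fin (r + 1) → ℝ) | ω.1 j = 1} :=
        measurableSet_eq_fun ((measurable_pi_apply j).comp measurable_fst) measurable_const
      have h2 : MeasurableSet {ω : (Fin (r + 1) → ℝ) × (Fin (r + 1) → ℝ) |
          ∀ i, i ≠ j → |ω.1 i| ≤ δ} := by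
        have : {ω : (Fin (r + 1) → ℝ) × (Fin (r + 1) → ℝ) | ∀ i, i ≠ j → |ω.1 i| ≤ δ} =
            ⋂ i, ⋂ (_ : i ≠ j), {ω | |ω.1 i| ≤ δ} := by
          ext ω; simp
        rw [this]
        refine MeasurableSet.iInter fun i => MeasurableSet.iInter fun _ => ?_
        exact measurableSet_le
          (((measurable_pi_apply i).comp measurable_fst).abs) measurable_const
      exact h1.inter h2
    · filter_upwards [hgood j] with ω hω
      exact dir Λ δ j ω.1 hω.2.2.1 hω.2.2.2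
  have hKA := @hK W R μ' hsf (Λ x0) hW hWR hae
  -- measurability
  have hkrm : ∀ E' : ℕ, Measurable (kr E') := hKRB.2.2.2.2.1
  have hmap : ∀ (j : Fin (r + 1)) (V : ℝ) (x : Fin (r + 1) → ℝ),
      hh j E V (μ' j) (Λ x) =
        ∫⁻ ω, kr E (‖Λ (x - ω.2) - (Λ (x - ω.2) j) • ((Λ ω.1 j)⁻¹ • Λ ω.1)‖ / V) ∂(μ j) := by
    intro j V x
    rw [hh, hμ']
    rw [lintegral_map _ (hTm j)]
    · simp only [hT, map_sub, Pi.sub_apply]
    · apply (hkrm E).comp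
      apply Measurable.div_const
      apply Measurable.norm
      apply Measurable.sub
      · exact measurable_const.sub measurable_snd
      · have h1 : Measurable fun a : (Fin (r + 1) → ℝ) × (Fin (r + 1) → ℝ) =>
            Λ x j - a.2 j := measurable_const.sub ((measurable_pi_apply j).comp measurable_snd)
        exact h1.smul measurable_fst
  -- comparison of the densities
  have hcmp1 : ∀ (j : Fin (r + 1)) (x : Fin (r + 1) → ℝ),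
      hh (Fin.last r) E W (μ j) x ≤ ENNReal.ofReal κ₁ * hh j E W (μ' j) (Λ x) := by
    intro j x
    rw [hmap, hh, ← lintegral_const_mul']
    · apply lintegral_mono_ae
      filter_upwards [hgood j] with ω hω
      have h := sem1 Λ β δ j ω.1 hΛ hδ1 hω.2.2.1 hω.2.2.2 (x - ω.2)
      apply kr_scale hKRB E _ _ (2 * β) (by positivity) (by positivity) h2β
      rw [← mul_div_assoc]
      apply div_le_div_of_nonneg_right _ hW.le
      simpa [Pi.sub_apply] using h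
    · exact ENNReal.ofReal_ne_top
  have hcmp2 : ∀ (j : Fin (r + 1)),
      hh j E R (μ' j) (Λ x0) ≤ ENNReal.ofReal κ₂ * hh (Fin.last r) E R (μ j) x0 := by
    intro j
    rw [hmap, hh, ← lintegral_const_mul']
    · apply lintegral_mono_ae
      filter_upwards [hgood j] with ω hω
      have h := sem2 Λ β j ω.1 B hB hβ hΛ' hω.1 hω.2.1 hω.2.2.1 (x0 - ω.2)
      apply kr_scale hKRB E _ _ ((B + 2) * β) (by positivity) (by positivity) hBβ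
      rw [← mul_div_assoc]
      apply div_le_div_of_nonneg_right _ hR.le
      simpa [Pi.sub_apply] using h
    · exact ENNReal.ofReal_ne_top
  have hcmp3 : ∀ x : Fin (r + 1) → ℝ, kr F (‖x - x0‖ / R) ≤
      ENNReal.ofReal (β ^ F) * kr F (‖Λ x - Λ x0‖ / R) := by
    intro x
    apply kr_scale hKRB F _ _ β (by positivity) (by positivity) hβ
    rw [← mul_div_assoc]
    apply div_le_div_of_nonneg_right _ hR.le
    rw [← map_sub]
    exact hΛ _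
  set G : (Fin (r + 1) → ℝ) → ℝ≥0∞ := fun y =>
    (∏ j, hh j E W (μ' j) y ^ (1 / (r : ℝ))) * kr F (‖y - Λ x0‖ / R) with hG
  have hGm : Measurable G := by
    apply Measurable.mul
    · apply Finset.measurable_prod
      intro j _
      have := hsf j
      exact (hHHM.1 (r + 1) j E W (μ' j)).pow_const _
    · apply (hkrm F).comp
      exact ((measurable_id.sub measurable_const).norm).div_const _
  have hpt : ∀ x : Fin (r + 1) → ℝ,
      (∏ j, hh (Fin.last r) E W (μ j) x ^ (1 / (r : ℝ))) * kr F (‖x - x0‖ / R) ≤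
        ENNReal.ofReal (κ₁ ^ (r + 1) * β ^ F) * G (Λ x) := by
    intro x
    have h1 : ∏ j, hh (Fin.last r) E W (μ j) x ^ (1 / (r : ℝ)) ≤
        ENNReal.ofReal (κ₁ ^ (r + 1)) * ∏ j, hh j E W (μ' j) (Λ x) ^ (1 / (r : ℝ)) :=
      prod_bd r κ₁ (by linarith) _ _ fun j => rpow_bd r hr κ₁ hκ₁1 _ _ (hcmp1 j x)
    calc (∏ j, hh (Fin.last r) E W (μ j) x ^ (1 / (r : ℝ))) * kr F (‖x - x0‖ / R) ≤
        (ENNReal.ofReal (κ₁ ^ (r + 1)) * ∏ j, hh j E W (μ' j) (Λ x) ^ (1 / (r : ℝ))) *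
          (ENNReal.ofReal (β ^ F) * kr F (‖Λ x - Λ x0‖ / R)) := mul_le_mul' h1 (hcmp3 x)
      _ = ENNReal.ofReal (κ₁ ^ (r + 1) * β ^ F) * G (Λ x) := by
          rw [hG, ENNReal.ofReal_mul (by positivity)]
          ring
  calc ∫⁻ x, (∏ j, hh (Fin.last r) E W (μ j) x ^ (1 / (r : ℝ))) * kr F (‖x - x0‖ / R)
      ≤ ∫⁻ x, ENNReal.ofReal (κ₁ ^ (r + 1) * β ^ F) * G (Λ x) := lintegral_mono hpt
    _ = ENNReal.ofReal (κ₁ ^ (r + 1) * β ^ F) * ∫⁻ x, G (Λ x) :=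
        lintegral_const_mul' _ _ ENNReal.ofReal_ne_top
    _ ≤ ENNReal.ofReal (κ₁ ^ (r + 1) * β ^ F) * (ENNReal.ofReal β * ∫⁻ x, G x) :=
        mul_le_mul_right (hΛI G hGm) _
    _ ≤ ENNReal.ofReal (κ₁ ^ (r + 1) * β ^ F) * (ENNReal.ofReal β *
          (ENNReal.ofReal (C * W ^ (r + 1) * (R / W) ^ ε) *
            ∏ j, hh j E R (μ' j) (Λ x0) ^ (1 / (r : ℝ)))) :=
        mul_le_mul_right (mul_le_mul_right hKA _) _
    _ ≤ ENNReal.ofReal (κ₁ ^ (r + 1) * β ^ F) * (ENNReal.ofReal β *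
          (ENNReal.ofReal (C * W ^ (r + 1) * (R / W) ^ ε) *
            (ENNReal.ofReal (κ₂ ^ (r + 1)) *
              ∏ j, hh (Fin.last r) E R (μ j) x0 ^ (1 / (r : ℝ))))) := by
        refine mul_le_mul_right (mul_le_mul_right (mul_le_mul_right ?_ _) _) _
        exact prod_bd r κ₂ (by linarith) _ _ fun j => rpow_bd r hr κ₂ hκ₂1 _ _ (hcmp2 j)
    _ = ENNReal.ofReal (κ₁ ^ (r + 1) * β ^ F * β * C * κ₂ ^ (r + 1) * W ^ (r + 1) *
          (R / W) ^ ε) * ∏ j, hh (Fin.last r) E R (μ j) x0 ^ (1 / (r : ℝ)) := by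
        have hWR0 : 0 ≤ (R / W) ^ ε := by positivity
        rw [← mul_assoc, ← mul_assoc, ← mul_assoc, ← ENNReal.ofReal_mul (by positivity),
          ← ENNReal.ofReal_mul (by positivity), ← ENNReal.ofReal_mul (by positivity)]
        congr 2
        ring

end DEC
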