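import Pool.Agent.DEC.StmtsK

/-!
# DEC, module K_STEP: one step of Guth's induction on scales
-/

set_option autoImplicit false

namespace DEC

open MeasureTheory Set
open scoped ENNReal

namespace K_STEP

lemma norm_of_zero {r : ℕ} (j : Fin (r + 1)) (w : Fin (r + 1) → ℝ) (hw : w j = 0) :
    ‖w‖ = ‖fun l : Fin r => w (j.succAbove l)‖ := by
  apply le_antisymm
  · refine (pi_norm_le_iff_of_nonneg (norm_nonneg _)).2 ?_
    rw [Fin.forall_iff_succAbove j]
    refine ⟨by rw [hw, norm_zero]; exact norm_nonneg _, fun l => ?_⟩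
    exact norm_le_pi_norm (fun l : Fin r => w (j.succAbove l)) l
  · refine (pi_norm_le_iff_of_nonneg (norm_nonneg _)).2 fun l => ?_
    exact norm_le_pi_norm w (j.succAbove l)

lemma meas_kr (E : ℕ) : Measurable (kr E) := by
  unfold kr
  exact ((((measurable_const.add measurable_id).pow_const E)).inv).ennreal_ofReal

lemma meas_ins {r : ℕ} (j : Fin (r + 1)) (t : ℝ) :
    Measurable (fun u : Fin r → ℝ => (j.insertNth t u : Fin (r + 1) → ℝ)) := by
  refine Continuous.measurable ?_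
  exact Continuous.finInsertNth j continuous_const continuous_id

lemma seminorm_eq {r : ℕ} (j : Fin (r + 1)) (v z y : Fin (r + 1) → ℝ) (t : ℝ) (hv : v j = 1)
    (hy : y j = t) :
    ‖(y - z) - (y j - z j) • v‖ =
      ‖(fun l : Fin r => y (j.succAbove l)) -
        (fun l : Fin r => z (j.succAbove l) + (t - z j) * v (j.succAbove l))‖ := by
  rw [norm_of_zero j]
  · congr 1
    funext l
    simp only [Pi.sub_apply, Pi.smul_apply, smul_eq_mul, hy]
    ring
  · simp only [Pi.sub_apply, Pi.smul_apply, smul_eq_mul, hv]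
    ring

/-- The bound of one factor. -/
lemma factor {r E : ℕ} (C : ℝ)
    (hF : ∀ (W L : ℝ) (u0 p : Fin r → ℝ), 0 < W → W ≤ L →
      ∫⁻ u in Metric.closedBall u0 L, kr E (‖u - p‖ / W) ≤
        ENNReal.ofReal (C * W ^ r) * kr E (‖u0 - p‖ / L))
    (W L : ℝ) (hW : 0 < W) (hWL : W ≤ L) (j : Fin (r + 1))
    (μ : Measure ((Fin (r + 1) → ℝ) × (Fin (r + 1) → ℝ))) [SFinite μ] (x0 : Fin (r + 1) → ℝ)
    (hμ : ∀ᵐ ω ∂μ, ω.1 j = 1) :
    ∫⁻ u in Metric.closedBall (fun l : Fin r => x0 (j.succAbove l)) L,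
        hh j E W μ (j.insertNth (x0 j) u : Fin (r + 1) → ℝ) ≤
      ENNReal.ofReal (C * W ^ r) * hh j E L μ x0 := by
  unfold hh
  have hmeas : Measurable (Function.uncurry
      (fun (u : Fin r → ℝ) (ω : (Fin (r + 1) → ℝ) × (Fin (r + 1) → ℝ)) =>
        kr E (‖((j.insertNth (x0 j) u : Fin (r + 1) → ℝ) - ω.2) -
          ((j.insertNth (x0 j) u : Fin (r + 1) → ℝ) j - ω.2 j) • ω.1‖ / W))) := by
    have hins : Measurable (fun q : (Fin r → ℝ) × ((Fin (r + 1) → ℝ) × (Fin (r + 1) → ℝ)) =>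
        (j.insertNth (x0 j) q.1 : Fin (r + 1) → ℝ)) := (meas_ins j (x0 j)).comp measurable_fst
    have h1 : Measurable (fun q : (Fin r → ℝ) × ((Fin (r + 1) → ℝ) × (Fin (r + 1) → ℝ)) =>
        ((j.insertNth (x0 j) q.1 : Fin (r + 1) → ℝ) - q.2.2) -
          ((j.insertNth (x0 j) q.1 : Fin (r + 1) → ℝ) j - q.2.2 j) • q.2.1) := by
      have h2 : Measurable (fun q : (Fin r → ℝ) × ((Fin (r + 1) → ℝ) × (Fin (r + 1) → ℝ)) =>
          q.2.2) := measurable_snd.comp measurable_snd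
      have h3 : Measurable (fun q : (Fin r → ℝ) × ((Fin (r + 1) → ℝ) × (Fin (r + 1) → ℝ)) =>
          q.2.1) := measurable_fst.comp measurable_snd
      exact (hins.sub h2).sub
        ((((measurable_pi_apply j).comp hins).sub ((measurable_pi_apply j).comp h2)).smul h3)
    exact (meas_kr E).comp (h1.norm.div_const W)
  rw [lintegral_lintegral_swap hmeas.aemeasurable]
  rw [← lintegral_const_mul' _ _ ENNReal.ofReal_ne_top]
  refine lintegral_mono_ae ?_
  filter_upwards [hμ] with ω hω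
  have e1 : ∀ u : Fin r → ℝ,
      ‖((j.insertNth (x0 j) u : Fin (r + 1) → ℝ) - ω.2) -
          ((j.insertNth (x0 j) u : Fin (r + 1) → ℝ) j - ω.2 j) • ω.1‖ =
        ‖u - (fun l : Fin r => ω.2 (j.succAbove l) + (x0 j - ω.2 j) * ω.1 (j.succAbove l))‖ := by
    intro u
    rw [seminorm_eq j ω.1 ω.2 (j.insertNth (x0 j) u) (x0 j) hω (by simp)]
    congr 2
    funext l
    simp
  have e2 : ‖(x0 - ω.2) - (x0 j - ω.2 j) • ω.1‖ =
      ‖(fun l : Fin r => x0 (j.succAbove l)) -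
        (fun l : Fin r => ω.2 (j.succAbove l) + (x0 j - ω.2 j) * ω.1 (j.succAbove l))‖ :=
    seminorm_eq j ω.1 ω.2 x0 (x0 j) hω rfl
  simp only [e1]
  rw [e2]
  exact hF W L _ _ hW hWL

lemma ball_mem {r : ℕ} (j : Fin (r + 1)) (x x0 : Fin (r + 1) → ℝ) (L : ℝ) (hL : 0 ≤ L)
    (hx : x ∈ Metric.closedBall x0 L) :
    (fun l : Fin r => x (j.succAbove l)) ∈
      Metric.closedBall (fun l : Fin r => x0 (j.succAbove l)) L := by
  rw [Metric.mem_closedBall, dist_eq_norm] at hx ⊢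
  refine (pi_norm_le_iff_of_nonneg hL).2 fun l => ?_
  exact (norm_le_pi_norm (x - x0) (j.succAbove l)).trans hx

lemma update_eq {r : ℕ} (j : Fin (r + 1)) (x : Fin (r + 1) → ℝ) (t : ℝ) :
    Function.update x j t = (j.insertNth t (fun l : Fin r => x (j.succAbove l)) :
      Fin (r + 1) → ℝ) := by
  funext i
  rcases eq_or_ne i j with rfl | hi
  · simp
  · obtain ⟨l, rfl⟩ := Fin.exists_succAbove_eq hi
    simp

end K_STEP


namespace K_STEP

/-- The core, for fixed data. -/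
lemma core {r E : ℕ} (hr : 1 ≤ r) (C : ℝ) (hC : 0 < C)
    (hLW : ∀ (f : Fin (r + 1) → (Fin r → ℝ) → ℝ≥0∞), (∀ i, Measurable (f i)) →
      ∫⁻ z : Fin (r + 1) → ℝ, ∏ i, f i (fun l => z (i.succAbove l)) ^ (1 / (r : ℝ)) ≤
        ∏ i, (∫⁻ u, f i u) ^ (1 / (r : ℝ)))
    (f : Fin (r + 1) → (Fin r → ℝ) → ℝ≥0∞) (g : Fin (r + 1) → (Fin (r + 1) → ℝ) → ℝ≥0∞)
    (G : Fin (r + 1) → ℝ≥0∞) (L W : ℝ) (hW : 0 < W) (x0 : Fin (r + 1) → ℝ)
    (hfm : ∀ j, Measurable (f j))
    (hpt : ∀ x : Fin (r + 1) → ℝ, x ∈ Metric.closedBall x0 L →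
      ∀ j, g j x ≤ f j (fun l => x (j.succAbove l)))
    (hint : ∀ j, ∫⁻ u, f j u ≤ ENNReal.ofReal (2 ^ E * C * W ^ r) * G j) :
    ∫⁻ x in Metric.closedBall x0 L, ∏ j, g j x ^ (1 / (r : ℝ)) ≤
      ENNReal.ofReal (((2 ^ E * C) ^ (1 / (r : ℝ))) ^ (r + 1) * W ^ (r + 1)) *
        ∏ j, G j ^ (1 / (r : ℝ)) := by
  have hr0 : (0 : ℝ) < r := by exact_mod_cast hr
  have hinv : (0 : ℝ) ≤ 1 / (r : ℝ) := by positivity
  calc ∫⁻ x in Metric.closedBall x0 L, ∏ j, g j x ^ (1 / (r : ℝ))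
      ≤ ∫⁻ (x : Fin (r + 1) → ℝ) in Metric.closedBall x0 L,
          ∏ j, f j (fun l => x (j.succAbove l)) ^ (1 / (r : ℝ)) := by
        refine setLIntegral_mono' Metric.isClosed_closedBall.measurableSet fun x hx => ?_
        exact Finset.prod_le_prod' fun j _ => ENNReal.rpow_le_rpow (hpt x hx j) hinv
    _ ≤ ∫⁻ x : Fin (r + 1) → ℝ, ∏ j, f j (fun l => x (j.succAbove l)) ^ (1 / (r : ℝ)) :=
        setLIntegral_le_lintegral _ _
    _ ≤ ∏ j, (∫⁻ u, f j u) ^ (1 / (r : ℝ)) := hLW f hfm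
    _ ≤ ∏ j, (ENNReal.ofReal (2 ^ E * C * W ^ r) * G j) ^ (1 / (r : ℝ)) := by
        refine Finset.prod_le_prod' fun j _ => ?_
        exact ENNReal.rpow_le_rpow (hint j) hinv
    _ = ENNReal.ofReal (((2 ^ E * C) ^ (1 / (r : ℝ))) ^ (r + 1) * W ^ (r + 1)) *
          ∏ j, G j ^ (1 / (r : ℝ)) := by
        have h0 : ENNReal.ofReal (2 ^ E * C * W ^ r) ^ (1 / (r : ℝ)) =
            ENNReal.ofReal ((2 ^ E * C) ^ (1 / (r : ℝ)) * W) := by
          rw [ENNReal.ofReal_rpow_of_nonneg (by positivity) hinv,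
            Real.mul_rpow (by positivity) (by positivity)]
          congr 2
          rw [one_div]
          exact Real.pow_rpow_inv_natCast hW.le (by omega)
        have h1 : ∀ j : Fin (r + 1),
            (ENNReal.ofReal (2 ^ E * C * W ^ r) * G j) ^ (1 / (r : ℝ)) =
              ENNReal.ofReal ((2 ^ E * C) ^ (1 / (r : ℝ)) * W) * G j ^ (1 / (r : ℝ)) := by
          intro j
          rw [ENNReal.mul_rpow_of_nonneg _ _ hinv, h0]
        rw [Finset.prod_congr rfl fun j _ => h1 j, Finset.prod_mul_distrib, Finset.prod_const,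
          Finset.card_univ, Fintype.card_fin, ← ENNReal.ofReal_pow (by positivity), mul_pow]

end K_STEP

open K_STEP in
theorem STEP_thm (hLW : Stmt_LW) (hFACE : Stmt_FACE) (hHHM : Stmt_HHM) : Stmt_STEP := by
  intro r E hr hE
  obtain ⟨C, hC, hF⟩ := hFACE r E hE
  obtain ⟨hm, -, -, -, -, h6⟩ := hHHM
  refine ⟨((2 ^ E * C) ^ (1 / (r : ℝ))) ^ (r + 1),
    pow_pos (Real.rpow_pos_of_pos (mul_pos (pow_pos two_pos E) hC) _) _, ?_⟩
  intro δ W μ _ x0 hδ hδ1 hW hμ
  have hL : 0 < W / δ := div_pos hW hδ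
  have hWL : W ≤ W / δ := by
    rw [le_div_iff₀ hδ]
    exact mul_le_of_le_one_right hW.le hδ1
  refine core (E := E) hr C hC (fun f hf => hLW r f hr hf)
    (fun j => (Metric.closedBall (fun l : Fin r => x0 (j.succAbove l)) (W / δ)).indicator
      (fun u => ENNReal.ofReal (2 ^ E) *
        hh j E W (μ j) (j.insertNth (x0 j) u : Fin (r + 1) → ℝ)))
    (fun j => hh j E W (μ j)) (fun j => hh j E (W / δ) (μ j) x0) (W / δ) W hW x0 ?_ ?_ ?_
  · intro j
    refine Measurable.indicator ?_ Metric.isClosed_closedBall.measurableSet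
    exact ((hm (r + 1) j E W (μ j)).comp (meas_ins j (x0 j))).const_mul _
  · intro x hx j
    have hmem := ball_mem j x x0 (W / δ) hL.le hx
    show _ ≤ (Metric.closedBall (fun l : Fin r => x0 (j.succAbove l)) (W / δ)).indicator
      (fun u => ENNReal.ofReal (2 ^ E) *
        hh j E W (μ j) (j.insertNth (x0 j) u : Fin (r + 1) → ℝ)) (fun l => x (j.succAbove l))
    rw [indicator_of_mem hmem, ← update_eq]
    refine h6 (r + 1) j E W δ (μ j) x (x0 j) hW hδ.le ?_ (hμ j)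
    have h1 : |x j - x0 j| ≤ W / δ := by
      rw [Metric.mem_closedBall, dist_eq_norm] at hx
      exact (norm_le_pi_norm (x - x0) j).trans hx
    calc |x j - x0 j| * δ ≤ W / δ * δ := mul_le_mul_of_nonneg_right h1 hδ.le
      _ = W := div_mul_cancel₀ W hδ.ne'
  · intro j
    show ∫⁻ u, (Metric.closedBall (fun l : Fin r => x0 (j.succAbove l)) (W / δ)).indicator
      (fun u => ENNReal.ofReal (2 ^ E) *
        hh j E W (μ j) (j.insertNth (x0 j) u : Fin (r + 1) → ℝ)) u ≤ _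
    rw [lintegral_indicator Metric.isClosed_closedBall.measurableSet,
      lintegral_const_mul' _ _ ENNReal.ofReal_ne_top]
    have h1 := factor C hF W (W / δ) hW hWL j (μ j) x0 ((hμ j).mono fun ω h => h.1)
    have h2 : ENNReal.ofReal (2 ^ E * C * W ^ r) =
        ENNReal.ofReal (2 ^ E) * ENNReal.ofReal (C * W ^ r) := by
      rw [← ENNReal.ofReal_mul (pow_nonneg zero_le_two E), mul_assoc]
    rw [h2, mul_assoc]
    exact mul_le_mul_right h1 _

end DEC
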