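import Pool.Agent.DEC.K_KRB
import Pool.Agent.DEC.K_LW
import Pool.Agent.DEC.K_FACE
import Pool.Agent.DEC.K_HHM
import Pool.Agent.DEC.K_STEP
import Pool.Agent.DEC.K_AVG
import Pool.Agent.DEC.K_KAKX
import Pool.Agent.DEC.K_INV
import Pool.Agent.DEC.K_ROT
import Pool.Agent.DEC.K_KAK
import Pool.Agent.DEC.K_KCM
import Pool.Agent.DEC.K_MK
import Pool.Agent.DEC.K_HOL
import Pool.Agent.DEC.K_INF1
import Pool.Agent.DEC.K_INF2
import Pool.Agent.DEC.K_ISO
import Pool.Agent.DEC.K_InfK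

/-!
# l^2 decoupling, block K: assembly

Loomis-Whitney, the smooth multilinear Kakeya inequality and the inflation of averages.
-/

namespace DEC

theorem t_KRB : Stmt_KRB := KRB_thm
theorem t_HHM : Stmt_HHM := HHM_thm t_KRB
theorem t_KCM : Stmt_KCM := KCM_thm t_KRB
theorem t_STEP : Stmt_STEP := STEP_thm LW_thm (FACE_thm t_KRB) t_HHM
theorem t_KAKX : Stmt_KAKX := KAKX_thm (AVG_thm t_STEP t_KRB t_HHM) t_HHM t_KRB
theorem t_KAK : Stmt_KAK := KAK_thm (ROT_thm t_KAKX INV_thm t_KRB t_HHM) t_HHM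
theorem t_MK : Stmt_MK := MK_thm t_KAK t_HHM t_KRB t_KCM
theorem t_INF2 : Stmt_INF2 := INF2_thm (INF1_thm t_MK t_KCM HOL_thm) t_KCM t_KRB

/-- Block K: the inflation of the averages from the scale `R` to the scale `R^2`. -/
theorem t_Inf (hW : Stmt_WtBasic) : Stmt_Inf := InfK_thm t_INF2 ISO_thm hW

end DEC
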