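import Pool.Agent.DEC.StmtsW

open MeasureTheory
open scoped ENNReal Matrix

namespace DEC

namespace W_AVA

/-- The kernel with an additional power of the bracket. -/
theorem wt_mul {r : ℕ} (R a G : ℝ) (hR : 0 < R) (u : X r) :
    wt R a u * ENNReal.ofReal ((1 + ‖u‖ / R) ^ G) = wt R (a - G) u := by
  unfold wt
  have h1 : 0 < 1 + ‖u‖ / R := br_pos hR u
  rw [← ENNReal.ofReal_mul (by positivity)]
  congr 1
  rw [mul_assoc, ← Real.rpow_add h1]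
  congr 2
  ring

theorem mass_pos (r : ℕ) (a : ℝ) :
    ∫⁻ u : X r, ENNReal.ofReal ((1 + ‖u‖) ^ (-a)) ≠ 0 := by
  intro h
  have hm : Measurable fun u : X r => ENNReal.ofReal ((1 + ‖u‖) ^ (-a)) := by fun_prop
  rw [lintegral_eq_zero_iff hm] at h
  obtain ⟨x, hx⟩ := h.exists
  have h1 : (0 : ℝ) < (1 + ‖x‖) ^ (-a) := Real.rpow_pos_of_pos (by positivity) _
  have h2 : ENNReal.ofReal ((1 + ‖x‖) ^ (-a)) = 0 := hx
  rw [ENNReal.ofReal_eq_zero] at h2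
  linarith

theorem mass_scale (r : ℕ) (a R : ℝ) (hR : 0 < R) :
    ∫⁻ u : X r, wt R a u = ∫⁻ u : X r, ENNReal.ofReal ((1 + ‖u‖) ^ (-a)) := by
  have hR' : R⁻¹ ≠ 0 := inv_ne_zero hR.ne'
  set g : X r → ℝ≥0∞ := fun u => ENNReal.ofReal ((1 + ‖u‖) ^ (-a)) with hg
  have hm : Measurable g := by
    rw [hg]
    fun_prop
  have h1 : ∀ u : X r, wt R a u = ENNReal.ofReal (R ^ (-((r : ℝ) + 1))) * g (R⁻¹ • u) := by
    intro u
    have e : g (R⁻¹ • u) = ENNReal.ofReal ((1 + ‖R⁻¹ • u‖) ^ (-a)) := rfl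
    rw [e]
    unfold wt
    rw [ENNReal.ofReal_mul (by positivity), norm_smul, Real.norm_of_nonneg (inv_nonneg.2 hR.le),
      inv_mul_eq_div]
  simp only [h1]
  rw [lintegral_const_mul' _ _ ENNReal.ofReal_ne_top]
  have h2 : ∫⁻ u : X r, g (R⁻¹ • u) = ENNReal.ofReal (R ^ ((r : ℝ) + 1)) * ∫⁻ u : X r, g u := by
    rw [← lintegral_map (μ := volume) (g := fun u : X r => R⁻¹ • u) hm (measurable_const_smul R⁻¹),
      Measure.map_addHaar_smul _ hR', lintegral_smul_measure, finrank_X, smul_eq_mul]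
    congr 2
    rw [inv_pow, inv_inv, abs_of_pos (pow_pos hR _)]
    rw [← Real.rpow_natCast]
    push_cast
    rfl
  rw [h2, ← mul_assoc, ← ENNReal.ofReal_mul (by positivity), ← Real.rpow_add hR]
  simp

theorem mass (r : ℕ) (a : ℝ) (ha : (r : ℝ) + 1 < a) : ∃ C : ℝ, 0 < C ∧ ∀ R : ℝ, 0 < R →
    ∫⁻ u : X r, wt R a u = ENNReal.ofReal C := by
  have hfin : ∫⁻ u : X r, ENNReal.ofReal ((1 + ‖u‖) ^ (-a)) < ∞ := by
    apply finite_integral_one_add_norm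
    rw [finrank_X]
    push_cast
    exact ha
  refine ⟨(∫⁻ u : X r, ENNReal.ofReal ((1 + ‖u‖) ^ (-a))).toReal,
    ENNReal.toReal_pos (mass_pos r a) hfin.ne, fun R hR => ?_⟩
  rw [mass_scale r a R hR, ENNReal.ofReal_toReal hfin.ne]

theorem wt_le {r : ℕ} (a R R' : ℝ) (u : X r) (ha : 0 ≤ a) (hR : 0 < R) (hRR : R ≤ R') :
    wt R a u ≤ ENNReal.ofReal ((R' / R) ^ ((r : ℝ) + 1)) * wt R' a u := by
  have hR' : 0 < R' := hR.trans_le hRR
  unfold wt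
  rw [← ENNReal.ofReal_mul (by positivity)]
  apply ENNReal.ofReal_le_ofReal
  rw [← mul_assoc]
  have e : (R' / R) ^ ((r : ℝ) + 1) * R' ^ (-((r : ℝ) + 1)) = R ^ (-((r : ℝ) + 1)) := by
    rw [Real.div_rpow hR'.le hR.le, Real.rpow_neg hR'.le, Real.rpow_neg hR.le]
    have h1 : R' ^ ((r : ℝ) + 1) ≠ 0 := (Real.rpow_pos_of_pos hR' _).ne'
    have h2 : R ^ ((r : ℝ) + 1) ≠ 0 := (Real.rpow_pos_of_pos hR _).ne'
    field_simp
  rw [e]
  refine mul_le_mul_of_nonneg_left ?_ (by positivity)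
  rw [Real.rpow_neg (br_pos hR u).le, Real.rpow_neg (br_pos hR' u).le]
  refine inv_anti₀ (Real.rpow_pos_of_pos (br_pos hR' u) _) ?_
  refine Real.rpow_le_rpow (br_pos hR' u).le ?_ ha
  have : ‖u‖ / R' ≤ ‖u‖ / R := div_le_div_of_nonneg_left (norm_nonneg _) hR hRR
  linarith

theorem wt_shift {r : ℕ} (a R : ℝ) (z z' y : X r) (ha : 0 ≤ a) (hR : 0 < R) :
    wt R a (z - y) ≤ ENNReal.ofReal ((1 + ‖z - z'‖ / R) ^ a) * wt R a (z' - y) := by
  unfold wt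
  rw [← ENNReal.ofReal_mul (Real.rpow_nonneg (br_pos hR _).le _)]
  apply ENNReal.ofReal_le_ofReal
  have h1 := br_pos hR (z - y)
  have h2 := br_pos hR (z' - y)
  have h3 := br_pos hR (z - z')
  have h4 : (1 + ‖z' - y‖ / R) ≤ (1 + ‖z - z'‖ / R) * (1 + ‖z - y‖ / R) := by
    have := br_sub_le hR z' z y
    rwa [norm_sub_rev z' z] at this
  have h5 : (1 + ‖z' - y‖ / R) ^ a ≤ (1 + ‖z - z'‖ / R) ^ a * (1 + ‖z - y‖ / R) ^ a := by
    rw [← Real.mul_rpow h3.le h1.le]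
    exact Real.rpow_le_rpow h2.le h4 ha
  have h6 : (1 + ‖z - y‖ / R) ^ (-a) ≤ (1 + ‖z - z'‖ / R) ^ a * (1 + ‖z' - y‖ / R) ^ (-a) := by
    rw [Real.rpow_neg h1.le, Real.rpow_neg h2.le]
    have p1 : 0 < (1 + ‖z - y‖ / R) ^ a := Real.rpow_pos_of_pos h1 _
    have p2 : 0 < (1 + ‖z' - y‖ / R) ^ a := Real.rpow_pos_of_pos h2 _
    rw [← div_eq_mul_inv, inv_le_comm₀ p1 (by positivity), inv_div, div_le_iff₀ (by positivity)]
    linarith
  calc R ^ (-((r : ℝ) + 1)) * (1 + ‖z - y‖ / R) ^ (-a)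
      ≤ R ^ (-((r : ℝ) + 1)) * ((1 + ‖z - z'‖ / R) ^ a * (1 + ‖z' - y‖ / R) ^ (-a)) :=
        mul_le_mul_of_nonneg_left h6 (by positivity)
    _ = (1 + ‖z - z'‖ / R) ^ a * (R ^ (-((r : ℝ) + 1)) * (1 + ‖z' - y‖ / R) ^ (-a)) := by ring

end W_AVA

theorem t_AVA : Stmt_AVA := by
  refine ⟨fun r a ha => W_AVA.mass r a ha, fun r a R R' u ha hR hRR => W_AVA.wt_le a R R' u ha hR hRR,
    fun r a R f z z' ha hR => ?_, fun r a G hG => ?_⟩
  · unfold av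
    rw [← lintegral_const_mul' _ _ ENNReal.ofReal_ne_top]
    refine lintegral_mono fun y => ?_
    calc f y * wt R a (z - y) ≤ f y * (ENNReal.ofReal ((1 + ‖z - z'‖ / R) ^ a) * wt R a (z' - y)) :=
          mul_le_mul' le_rfl (W_AVA.wt_shift a R z z' y ha hR)
      _ = ENNReal.ofReal ((1 + ‖z - z'‖ / R) ^ a) * (f y * wt R a (z' - y)) := by ring
  · obtain ⟨C, hC, h⟩ := W_AVA.mass r (a - G) (by linarith)
    refine ⟨C, hC, fun R hR => ?_⟩
    rw [← h R hR]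
    exact lintegral_congr fun u => W_AVA.wt_mul R a G hR u

end DEC
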