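import Pool.Agent.DEC.StmtsW

/-!
# Module DEC_W_AVB: the averages and the weights
-/

open MeasureTheory
open scoped ENNReal Matrix

namespace DEC

namespace W_AVB

variable {r : ℕ}

/-- Tonelli: the average is moved to the weight. -/
lemma swap {R a : ℝ} {f w : X r → ℝ≥0∞} (hf : Measurable f) (hw : Measurable w) :
    ∫⁻ z, av R a f z * w z = ∫⁻ y, f y * ∫⁻ z, wt R a (z - y) * w z := by
  have hm : Measurable fun p : X r × X r => f p.2 * wt R a (p.1 - p.2) * w p.1 :=
    ((hf.comp measurable_snd).mul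
      ((measurable_wt R a).comp (measurable_fst.sub measurable_snd))).mul (hw.comp measurable_fst)
  have h1 : ∀ z, av R a f z * w z = ∫⁻ y, f y * wt R a (z - y) * w z := by
    intro z
    unfold av
    rw [lintegral_mul_const]
    exact hf.mul ((measurable_wt R a).comp (measurable_const.sub measurable_id))
  have h2 : ∀ y, f y * ∫⁻ z, wt R a (z - y) * w z = ∫⁻ z, f y * wt R a (z - y) * w z := by
    intro y
    rw [← lintegral_const_mul]
    · simp only [mul_assoc]
    · exact ((measurable_wt R a).comp (measurable_id.sub measurable_const)).mul hw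
  simp only [h1, h2]
  exact lintegral_lintegral_swap hm.aemeasurable

end W_AVB

open W_AVB in
theorem t_AVB (h1 : Stmt_WTB) (h2 : Stmt_AVA) (h3 : Stmt_KW) : Stmt_AVB := by
  refine ⟨h2.1, h2.2.1, h2.2.2.1, fun r a E hE ha => ?_⟩
  have hr : (0 : ℝ) ≤ r := Nat.cast_nonneg r
  have ha0 : 0 < a := by linarith
  obtain ⟨C, hC, hG⟩ := h3 r E a (2 ^ a) hE ha (by positivity)
  refine ⟨C, hC, fun R w hR hw f hf => ?_⟩
  have hwm : Measurable w := ((h1 r R E hR hE).1 w hw).1
  have hGG := hG (fun x => (1 + ‖x‖) ^ (-a)) (Continuous.rpow_const (by fun_prop)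
    fun x => Or.inl (by positivity)) (fun x => by positivity) (fun x hx => ?_) (fun x => ?_) R w hR hw
  · have hk : ∀ y z : X r, ENNReal.ofReal (R ^ (-((r : ℝ) + 1)) * (1 + ‖R⁻¹ • (z - y)‖) ^ (-a)) =
        wt R a (z - y) := by
      intro y z
      unfold wt
      rw [norm_smul, Real.norm_of_nonneg (inv_nonneg.2 hR.le), inv_mul_eq_div]
    simp only [hk] at hGG
    rw [swap hf hwm]
    constructor
    · rw [← lintegral_const_mul' _ _ ENNReal.ofReal_ne_top]
      refine lintegral_mono fun y => ?_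
      show f y * _ ≤ ENNReal.ofReal C * (f y * w y)
      rw [mul_left_comm]
      exact mul_le_mul' le_rfl (hGG y).2
    · rw [← lintegral_const_mul' _ _ ENNReal.ofReal_ne_top]
      refine lintegral_mono fun y => ?_
      show f y * w y ≤ ENNReal.ofReal C * (f y * _)
      rw [mul_left_comm]
      exact mul_le_mul' le_rfl (hGG y).1
  · show 1 / (2 : ℝ) ^ a ≤ (1 + ‖x‖) ^ (-a)
    rw [one_div, ← Real.rpow_neg (by norm_num)]
    rw [Real.rpow_neg (by norm_num), Real.rpow_neg (by positivity)]
    refine inv_anti₀ (by positivity) (Real.rpow_le_rpow (by positivity) (by linarith) ha0.le)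
  · show (1 + ‖x‖) ^ (-a) ≤ 2 ^ a * (1 + ‖x‖) ^ (-a)
    have h4 : (1 : ℝ) ≤ 2 ^ a := Real.one_le_rpow (by norm_num) ha0.le
    have h5 : 0 ≤ (1 + ‖x‖) ^ (-a) := by positivity
    nlinarith

end DEC
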