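import Pool.Agent.DEC.StmtsW

/-!
# Module DEC_W_BERN: Bernstein inequality, local constancy on balls
-/

open MeasureTheory
open scoped ENNReal Matrix

namespace DEC

namespace W_BERN

variable {r : ℕ}

/-- Scaling of lower integrals on `X r`. -/
lemma lintegral_scale (f : X r → ℝ≥0∞) (hf : Measurable f) {R : ℝ} (hR : 0 < R) :
    ∫⁻ y, ENNReal.ofReal (R ^ (-((r : ℝ) + 1))) * f (R⁻¹ • y) = ∫⁻ y, f y := by
  have hc : R⁻¹ ≠ 0 := (inv_pos.2 hR).ne'
  have h1 := Measure.map_addHaar_smul (volume : Measure (X r)) hc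
  have h2 : ∫⁻ y, f (R⁻¹ • y) = ENNReal.ofReal (R ^ (r + 1)) * ∫⁻ y, f y := by
    have h3 : ∫⁻ y, f (R⁻¹ • y) = ∫⁻ y, f y ∂(Measure.map (fun y : X r => R⁻¹ • y) volume) := by
      rw [lintegral_map hf (measurable_const_smul R⁻¹)]
    rw [h3, h1, lintegral_smul_measure, finrank_X, inv_pow, inv_inv, abs_of_pos (pow_pos hR _)]
    rfl
  rw [lintegral_const_mul' _ _ ENNReal.ofReal_ne_top, h2, ← mul_assoc,
    ← ENNReal.ofReal_mul (Real.rpow_nonneg hR.le _)]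
  have h4 : R ^ (-((r : ℝ) + 1)) * R ^ (r + 1) = 1 := by
    rw [Real.rpow_neg hR.le]
    have : R ^ ((r : ℝ) + 1) = R ^ (r + 1) := by
      rw [← Real.rpow_natCast]
      push_cast
      rfl
    rw [this]
    exact inv_mul_cancel₀ (pow_pos hR _).ne'
  rw [h4, ENNReal.ofReal_one, one_mul]

end W_BERN

theorem t_BERN (h1 : Stmt_F) (h2 : Stmt_J) : Stmt_BERN := by
  intro r s a b hs ha
  have ha1 : 0 ≤ a + r + 2 := by positivity
  obtain ⟨Φ, C, hC, hΦc, hΦb, hΦi⟩ := h1 r (a + r + 2) b ha1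
  have hfin : ∫⁻ x, ‖Φ x‖ₑ < ∞ := by
    have h3 : ∫⁻ x : X r, ENNReal.ofReal ((1 + ‖x‖) ^ (-(a + r + 2))) < ∞ := by
      apply finite_integral_one_add_norm
      rw [finrank_X]
      push_cast
      linarith
    calc ∫⁻ x, ‖Φ x‖ₑ ≤ ∫⁻ x, ENNReal.ofReal C * ENNReal.ofReal ((1 + ‖x‖) ^ (-(a + r + 2))) := by
          refine lintegral_mono fun x => ?_
          rw [← ENNReal.ofReal_mul hC.le, ← ofReal_norm]
          exact ENNReal.ofReal_le_ofReal (hΦb x)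
      _ = ENNReal.ofReal C * ∫⁻ x : X r, ENNReal.ofReal ((1 + ‖x‖) ^ (-(a + r + 2))) :=
          lintegral_const_mul' _ _ ENNReal.ofReal_ne_top
      _ < ∞ := ENNReal.mul_lt_top ENNReal.ofReal_lt_top h3
  set I : ℝ := (∫⁻ x, ‖Φ x‖ₑ).toReal with hI
  have hI0 : 0 ≤ I := ENNReal.toReal_nonneg
  have hII : ∫⁻ x, ‖Φ x‖ₑ ≤ ENNReal.ofReal (1 + I) := by
    rw [← ENNReal.ofReal_toReal hfin.ne]
    exact ENNReal.ofReal_le_ofReal (by linarith)
  refine ⟨(1 + I) ^ (s - 1) * C, by positivity, ?_⟩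
  intro R q F hR hF z
  set κ : ℝ := R ^ (-((r : ℝ) + 1)) with hκ
  have hκ0 : 0 ≤ κ := Real.rpow_nonneg hR.le _
  set K : X r → ℂ := fun u => (κ : ℂ) * Φ (R⁻¹ • u) with hK
  have hKc : Continuous K := continuous_const.mul (hΦc.comp (continuous_const_smul R⁻¹))
  have hKe : ∀ u, ‖K u‖ₑ = ENNReal.ofReal κ * ‖Φ (R⁻¹ • u)‖ₑ := by
    intro u
    rw [hK]
    simp only
    rw [enorm_mul, ← ofReal_norm (κ : ℂ), Complex.norm_real, Real.norm_of_nonneg hκ0]
  have hKl : ∫⁻ u, ‖K u‖ₑ = ∫⁻ u, ‖Φ u‖ₑ := by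
    simp only [hKe]
    exact W_BERN.lintegral_scale (fun u => ‖Φ u‖ₑ) hΦc.measurable.enorm hR
  have hKi : Integrable K := by
    refine ⟨hKc.aestronglyMeasurable, ?_⟩
    rw [hasFiniteIntegral_iff_enorm, hKl]
    exact hfin
  have hKw : ∀ u, ‖K u‖ₑ ≤ ENNReal.ofReal C * wt R a u := by
    intro u
    rw [hKe]
    unfold wt
    rw [← ENNReal.ofReal_mul hC.le, ← ofReal_norm, ← ENNReal.ofReal_mul hκ0]
    apply ENNReal.ofReal_le_ofReal
    have h3 := hΦb (R⁻¹ • u)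
    have h4 : ‖R⁻¹ • u‖ = ‖u‖ / R := by
      rw [norm_smul, Real.norm_of_nonneg (inv_nonneg.2 hR.le), div_eq_inv_mul]
    rw [h4] at h3
    have h5 : (1 + ‖u‖ / R) ^ (-(a + r + 2)) ≤ (1 + ‖u‖ / R) ^ (-a) := by
      apply Real.rpow_le_rpow_of_exponent_le (one_le_br hR u)
      have : (0 : ℝ) ≤ r := Nat.cast_nonneg r
      linarith
    calc κ * ‖Φ (R⁻¹ • u)‖ ≤ κ * (C * (1 + ‖u‖ / R) ^ (-(a + r + 2))) :=
          mul_le_mul_of_nonneg_left h3 hκ0
      _ ≤ κ * (C * (1 + ‖u‖ / R) ^ (-a)) :=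
          mul_le_mul_of_nonneg_left (mul_le_mul_of_nonneg_left h5 hC.le) hκ0
      _ = C * (κ * (1 + ‖u‖ / R) ^ (-a)) := by ring
  have hKq : ∀ w ∈ {w : X r | ‖w - q‖ ≤ b / R}, ∫ y, K y * ee (pr (q - w) y) = 1 := by
    intro w hw
    have hw' : ‖w - q‖ ≤ b / R := hw
    have h3 : ∫ x, Φ x * ee (pr (R • (q - w)) x) = 1 := by
      apply hΦi
      rw [norm_smul, Real.norm_of_nonneg hR.le, ← norm_neg, neg_sub]
      calc R * ‖w - q‖ ≤ R * (b / R) := mul_le_mul_of_nonneg_left hw' hR.le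
        _ = b := mul_div_cancel₀ b hR.ne'
    have h4 : ∀ y, K y * ee (pr (q - w) y)
        = (κ : ℂ) * (fun x => Φ x * ee (pr (R • (q - w)) x)) (R⁻¹ • y) := by
      intro y
      simp only [hK]
      have h5 : pr (R • (q - w)) (R⁻¹ • y) = pr (q - w) y := by
        rw [pr_smul_left, pr_smul_right, ← mul_assoc, mul_inv_cancel₀ hR.ne', one_mul]
      rw [h5]
      ring
    simp only [h4]
    rw [integral_const_mul]
    rw [Measure.integral_comp_inv_smul (volume : Measure (X r))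
      (fun x => Φ x * ee (pr (R • (q - w)) x)) R, h3, finrank_X, abs_of_pos (pow_pos hR _)]
    rw [Complex.real_smul, mul_one, ← Complex.ofReal_mul]
    have h6 : κ * R ^ (r + 1) = 1 := by
      rw [hκ, Real.rpow_neg hR.le]
      have : R ^ ((r : ℝ) + 1) = R ^ (r + 1) := by
        rw [← Real.rpow_natCast]
        push_cast
        rfl
      rw [this]
      exact inv_mul_cancel₀ (pow_pos hR _).ne'
    rw [h6, Complex.ofReal_one]
  have hJ := h2 r s K q {w : X r | ‖w - q‖ ≤ b / R} F hs hKc hKi hKq hF z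
  refine hJ.trans ?_
  rw [ENNReal.ofReal_mul (by positivity), mul_assoc]
  apply mul_le_mul'
  · rw [hKl, ← ENNReal.ofReal_rpow_of_nonneg (by positivity) (by linarith)]
    exact ENNReal.rpow_le_rpow hII (by linarith)
  · unfold av
    rw [← lintegral_const_mul' _ _ ENNReal.ofReal_ne_top]
    refine lintegral_mono fun y => ?_
    calc pw s F y * ‖K (z - y)‖ₑ ≤ pw s F y * (ENNReal.ofReal C * wt R a (z - y)) :=
          mul_le_mul' le_rfl (hKw (z - y))
      _ = ENNReal.ofReal C * (pw s F y * wt R a (z - y)) := by ring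

end DEC
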