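import Pool.Agent.DEC.StmtsW

/-!
# DEC_W_CT: convolution of a tube kernel and a ball kernel
-/

open MeasureTheory
open scoped ENNReal Matrix

namespace DEC

namespace W_CT

/-- The bracket of the spatial part. -/
lemma bracket_x {r : ℕ} {R V : ℝ} (hR : 1 ≤ R) (hV : 0 ≤ V) {v : Fin r → ℝ} (hv : ‖v‖ ≤ V)
    (u y : X r) :
    1 + ‖u.1 + u.2 • v‖ / R
      ≤ (1 + ‖(u - y).1 + (u - y).2 • v‖ / R) * ((1 + V) * (1 + ‖y‖ / R)) := by
  have hR0 : 0 < R := lt_of_lt_of_le one_pos hR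
  have h1 : u.1 + u.2 • v = ((u - y).1 + (u - y).2 • v) + (y.1 + y.2 • v) := by
    rw [Prod.fst_sub, Prod.snd_sub, sub_smul]; abel
  have h2 : ‖y.1 + y.2 • v‖ ≤ (1 + V) * ‖y‖ := by
    have e1 : ‖y.1‖ ≤ ‖y‖ := norm_fst_le y
    have e2 : ‖y.2‖ ≤ ‖y‖ := norm_snd_le y
    calc ‖y.1 + y.2 • v‖ ≤ ‖y.1‖ + ‖y.2 • v‖ := norm_add_le _ _
      _ = ‖y.1‖ + ‖y.2‖ * ‖v‖ := by rw [norm_smul]
      _ ≤ ‖y‖ + ‖y‖ * V := by
          have := mul_le_mul e2 hv (norm_nonneg _) (norm_nonneg _)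
          linarith
      _ = (1 + V) * ‖y‖ := by ring
  have h3 : ‖u.1 + u.2 • v‖ ≤ ‖(u - y).1 + (u - y).2 • v‖ + (1 + V) * ‖y‖ := by
    rw [h1]; exact (norm_add_le _ _).trans (by linarith)
  have h4 : ‖u.1 + u.2 • v‖ / R
      ≤ ‖(u - y).1 + (u - y).2 • v‖ / R + (1 + V) * (‖y‖ / R) := by
    calc ‖u.1 + u.2 • v‖ / R ≤ (‖(u - y).1 + (u - y).2 • v‖ + (1 + V) * ‖y‖) / R :=
          div_le_div_of_nonneg_right h3 hR0.le
      _ = _ := by ring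
  set s := ‖(u - y).1 + (u - y).2 • v‖ / R with hs
  set t := ‖y‖ / R with ht
  have hs0 : 0 ≤ s := by positivity
  have ht0 : 0 ≤ t := by positivity
  nlinarith [mul_nonneg hs0 ht0, mul_nonneg hV hs0, mul_nonneg hV (mul_nonneg hs0 ht0),
    mul_nonneg hV ht0]

/-- The bracket of the time part. -/
lemma bracket_t {r : ℕ} {R : ℝ} (hR : 1 ≤ R) (u y : X r) :
    1 + |u.2| / R ^ 2 ≤ (1 + |(u - y).2| / R ^ 2) * (1 + ‖y‖ / R) := by
  have hR0 : 0 < R := lt_of_lt_of_le one_pos hR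
  have h1 : |u.2| ≤ |(u - y).2| + |y.2| := by
    have : u.2 = (u - y).2 + y.2 := by rw [Prod.snd_sub]; ring
    calc |u.2| = |(u - y).2 + y.2| := by rw [← this]
      _ ≤ _ := abs_add_le _ _
  have e2 : |y.2| ≤ ‖y‖ := norm_snd_le y
  have h2 : |y.2| / R ^ 2 ≤ ‖y‖ / R := by
    rw [div_le_div_iff₀ (by positivity) hR0]
    have h5 : R ≤ R ^ 2 := by nlinarith
    calc |y.2| * R ≤ ‖y‖ * R := mul_le_mul_of_nonneg_right e2 hR0.le
      _ ≤ ‖y‖ * R ^ 2 := mul_le_mul_of_nonneg_left h5 (norm_nonneg _)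
  have h3 : |u.2| / R ^ 2 ≤ |(u - y).2| / R ^ 2 + ‖y‖ / R := by
    calc |u.2| / R ^ 2 ≤ (|(u - y).2| + |y.2|) / R ^ 2 :=
          div_le_div_of_nonneg_right h1 (by positivity)
      _ = |(u - y).2| / R ^ 2 + |y.2| / R ^ 2 := by ring
      _ ≤ _ := by linarith
  have h6 : 0 ≤ |(u - y).2| / R ^ 2 * (‖y‖ / R) := by positivity
  nlinarith

/-- Negative powers of comparable quantities. -/
lemma neg_pow_le {a p q k : ℝ} (ha : 0 ≤ a) (hp : 0 < p) (hq : 0 < q) (hk : 0 < k)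
    (h : p ≤ q * k) : q ^ (-a) ≤ p ^ (-a) * k ^ a := by
  have h1 : p ^ a ≤ q ^ a * k ^ a := by
    rw [← Real.mul_rpow hq.le hk.le]
    exact Real.rpow_le_rpow hp.le h ha
  rw [Real.rpow_neg hq.le, Real.rpow_neg hp.le]
  have hpa : 0 < p ^ a := Real.rpow_pos_of_pos hp a
  have hqa : 0 < q ^ a := Real.rpow_pos_of_pos hq a
  rw [inv_mul_eq_div, le_div_iff₀ hpa, inv_mul_le_iff₀ hqa]
  exact h1

/-- The pointwise inequality. -/
lemma wT_le {r : ℕ} {R a V : ℝ} (hR : 1 ≤ R) (ha : 0 ≤ a) (hV : 0 ≤ V) {v : Fin r → ℝ}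
    (hv : ‖v‖ ≤ V) (u y : X r) :
    wT R a v (u - y) ≤ ENNReal.ofReal ((1 + V) ^ a) * wT R a v u
      * ENNReal.ofReal ((1 + ‖y‖ / R) ^ (2 * a)) := by
  have hR0 : 0 < R := lt_of_lt_of_le one_pos hR
  unfold wT
  have hy : 0 < 1 + ‖y‖ / R := by positivity
  have hV1 : 0 < 1 + V := by positivity
  have hP : 0 < 1 + ‖u.1 + u.2 • v‖ / R := by positivity
  have hP' : 0 < 1 + ‖(u - y).1 + (u - y).2 • v‖ / R := by positivity
  have hQ : 0 < 1 + |u.2| / R ^ 2 := by positivity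
  have hQ' : 0 < 1 + |(u - y).2| / R ^ 2 := by positivity
  have h1 := neg_pow_le ha hP hP' (mul_pos hV1 hy) (bracket_x hR hV hv u y)
  have h2 := neg_pow_le ha hQ hQ' hy (bracket_t hR u y)
  rw [← ENNReal.ofReal_mul (by positivity), ← ENNReal.ofReal_mul (by positivity)]
  apply ENNReal.ofReal_le_ofReal
  have h3 : (1 + ‖y‖ / R) ^ (2 * a) = (1 + ‖y‖ / R) ^ a * (1 + ‖y‖ / R) ^ a := by
    rw [← Real.rpow_add hy]; ring_nf
  have h4 : ((1 + V) * (1 + ‖y‖ / R)) ^ a = (1 + V) ^ a * (1 + ‖y‖ / R) ^ a :=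
    Real.mul_rpow hV1.le hy.le
  rw [h4] at h1
  rw [h3]
  have hRr : 0 ≤ R ^ (-((r : ℝ) + 2)) := by positivity
  calc R ^ (-((r : ℝ) + 2)) * (1 + ‖(u - y).1 + (u - y).2 • v‖ / R) ^ (-a)
        * (1 + |(u - y).2| / R ^ 2) ^ (-a)
      ≤ R ^ (-((r : ℝ) + 2))
        * ((1 + ‖u.1 + u.2 • v‖ / R) ^ (-a) * ((1 + V) ^ a * (1 + ‖y‖ / R) ^ a))
        * ((1 + |u.2| / R ^ 2) ^ (-a) * (1 + ‖y‖ / R) ^ a) := by
          apply mul_le_mul (mul_le_mul_of_nonneg_left h1 hRr) h2 (by positivity) (by positivity)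
    _ = _ := by ring

end W_CT

open W_CT in
theorem t_CT (h1 : Stmt_AVA) : Stmt_CT := by
  intro r a V ha hV
  obtain ⟨C, hC, h⟩ := h1.2.2.2 r (2 * a + r + 2) (2 * a) (by linarith)
  refine ⟨2 * a + r + 2, (1 + V) ^ a * C, by positivity, by positivity, ?_⟩
  intro R v u hR hv
  have hR0 : 0 < R := lt_of_lt_of_le one_pos hR
  have hfin : ENNReal.ofReal ((1 + V) ^ a) * wT R a v u ≠ ∞ :=
    ENNReal.mul_ne_top ENNReal.ofReal_ne_top (wT_ne_top _ _ _ _)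
  calc ∫⁻ y, wT R a v (u - y) * wt R (2 * a + r + 2) y
      ≤ ∫⁻ y, (ENNReal.ofReal ((1 + V) ^ a) * wT R a v u)
        * (wt R (2 * a + r + 2) y * ENNReal.ofReal ((1 + ‖y‖ / R) ^ (2 * a))) := by
          refine lintegral_mono fun y => ?_
          calc wT R a v (u - y) * wt R (2 * a + r + 2) y
              ≤ (ENNReal.ofReal ((1 + V) ^ a) * wT R a v u
                * ENNReal.ofReal ((1 + ‖y‖ / R) ^ (2 * a))) * wt R (2 * a + r + 2) y :=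
                mul_le_mul' (wT_le hR ha hV hv u y) le_rfl
            _ = _ := by ring
    _ = (ENNReal.ofReal ((1 + V) ^ a) * wT R a v u) * ENNReal.ofReal C := by
          rw [lintegral_const_mul' _ _ hfin, h R hR0]
    _ = ENNReal.ofReal ((1 + V) ^ a * C) * wT R a v u := by
          rw [ENNReal.ofReal_mul (by positivity)]; ring

end DEC
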