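import Pool.Agent.DEC.StmtsW

/-!
# l^2 decoupling, block W: the change of variables for tubes
-/

open MeasureTheory
open scoped ENNReal Matrix

namespace DEC

namespace W_CV

variable {r : ℕ}

/-- The shear `(x, t) ↦ (x + t v, t)` preserves the volume. -/
lemma shear (v : Fin r → ℝ) :
    MeasurePreserving (fun u : X r => ((u.1 + u.2 • v, u.2) : X r)) volume volume := by
  have h1 : MeasurePreserving (fun p : ℝ × (Fin r → ℝ) => (p.1, p.2 + p.1 • v))
      ((volume : Measure ℝ).prod (volume : Measure (Fin r → ℝ)))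
      ((volume : Measure ℝ).prod (volume : Measure (Fin r → ℝ))) := by
    refine MeasurePreserving.skew_product (f := fun t : ℝ => t)
      (g := fun (t : ℝ) (x : Fin r → ℝ) => x + t • v) (MeasurePreserving.id _) ?_ ?_
    · unfold Function.uncurry
      fun_prop
    · refine Filter.Eventually.of_forall fun t => ?_
      exact (measurePreserving_add_right volume (t • v)).map_eq
  have h2 : MeasurePreserving (Prod.swap : (Fin r → ℝ) × ℝ → ℝ × (Fin r → ℝ))
      ((volume : Measure (Fin r → ℝ)).prod (volume : Measure ℝ))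
      ((volume : Measure ℝ).prod (volume : Measure (Fin r → ℝ))) :=
    Measure.measurePreserving_swap
  have h3 : MeasurePreserving (Prod.swap : ℝ × (Fin r → ℝ) → (Fin r → ℝ) × ℝ)
      ((volume : Measure ℝ).prod (volume : Measure (Fin r → ℝ)))
      ((volume : Measure (Fin r → ℝ)).prod (volume : Measure ℝ)) :=
    Measure.measurePreserving_swap
  exact h3.comp (h1.comp h2)

/-- The dilation `(x, t) ↦ (R⁻¹ x, R⁻² t)`. -/
lemma dil (R : ℝ) (hR : 0 < R) :
    Measure.map (fun u : X r => ((R⁻¹ • u.1, u.2 / R ^ 2) : X r)) volume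
      = ENNReal.ofReal (R ^ ((r : ℝ) + 2)) • (volume : Measure (X r)) := by
  have h1 : Measure.map (fun x : Fin r → ℝ => R⁻¹ • x) volume
      = ENNReal.ofReal (R ^ r) • (volume : Measure (Fin r → ℝ)) := by
    rw [Measure.map_addHaar_smul volume (inv_ne_zero hR.ne')]
    congr 2
    rw [Module.finrank_fin_fun, inv_pow, inv_inv, abs_of_pos (pow_pos hR r)]
  have h2 : Measure.map (fun t : ℝ => t / R ^ 2) volume
      = ENNReal.ofReal (R ^ 2) • (volume : Measure ℝ) := by
    have h : (fun t : ℝ => t / R ^ 2) = fun t : ℝ => (R ^ 2)⁻¹ • t := by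
      funext t
      rw [smul_eq_mul, div_eq_inv_mul]
    rw [h, Measure.map_addHaar_smul volume (inv_ne_zero (pow_pos hR 2).ne')]
    congr 2
    rw [Module.finrank_self, pow_one, inv_inv, abs_of_pos (pow_pos hR 2)]
  have h3 := Measure.map_prod_map (volume : Measure (Fin r → ℝ)) (volume : Measure ℝ)
    (f := fun x : Fin r → ℝ => R⁻¹ • x) (g := fun t : ℝ => t / R ^ 2) (by fun_prop) (by fun_prop)
  have h4 : (fun u : X r => ((R⁻¹ • u.1, u.2 / R ^ 2) : X r))
      = Prod.map (fun x : Fin r → ℝ => R⁻¹ • x) (fun t : ℝ => t / R ^ 2) := rfl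
  rw [h4, Measure.volume_eq_prod, ← h3, h1, h2, Measure.prod_smul_left, Measure.prod_smul_right,
    smul_smul]
  congr 1
  rw [← ENNReal.ofReal_mul (pow_nonneg hR.le r), Real.rpow_add hR, Real.rpow_natCast]
  norm_cast

end W_CV

theorem t_CV : Stmt_CV := by
  intro r R v hR
  have h1 : (fun u : X r => ((R⁻¹ • (u.1 + u.2 • v), u.2 / R ^ 2) : X r))
      = (fun u : X r => ((R⁻¹ • u.1, u.2 / R ^ 2) : X r)) ∘
        (fun u : X r => ((u.1 + u.2 • v, u.2) : X r)) := rfl
  rw [h1, ← Measure.map_map (by fun_prop) (by fun_prop), (W_CV.shear v).map_eq, W_CV.dil R hR]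

end DEC
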