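import Pool.Agent.DEC.StmtsW

/-!
Module DEC_W_F: reproducing kernel on `X r`.
-/

open MeasureTheory
open scoped ENNReal Matrix

namespace DEC

/-- DEC_W_F. -/
theorem t_F (h1 : Stmt_F1) (h2 : Stmt_PRD) : Stmt_F := by
  intro r a B ha
  obtain ⟨φ, hc, hdec, hint⟩ := h1 B
  obtain ⟨C, hC, hbd⟩ := hdec a
  obtain ⟨hcont, ⟨C', hC', hbd'⟩, hI⟩ := h2 r a C φ ha hC hc hbd
  refine ⟨prdK φ, C', hC', hcont, hbd', fun w hw => ?_⟩
  rw [hI w]
  have hw1 : ‖w.1‖ ≤ B := (norm_fst_le w).trans hw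
  have hw2 : |w.2| ≤ B := by
    have := (norm_snd_le w).trans hw
    rwa [Real.norm_eq_abs] at this
  have e1 : ∀ i, ∫ t, φ t * ee (w.1 i * t) = 1 := by
    intro i
    apply hint
    have := (norm_le_pi_norm w.1 i).trans hw1
    rwa [Real.norm_eq_abs] at this
  rw [hint w.2 hw2, mul_one]
  exact Finset.prod_eq_one fun i _ => e1 i

end DEC
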