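import Pool.Agent.DEC.StmtsW

/-!
# DEC_W_F1: a kernel on the line whose Fourier transform is one on an interval   (helper67)
-/

open MeasureTheory
open scoped ENNReal Matrix SchwartzMap FourierTransform ContDiff

namespace DEC

namespace W_F1

/-- Schwartz functions decay faster than any power. -/
theorem decay (f : 𝓢(ℝ, ℂ)) (a : ℝ) : ∃ C : ℝ, 0 < C ∧ ∀ t, ‖f t‖ ≤ C * (1 + |t|) ^ (-a) := by
  obtain ⟨k, hk⟩ := exists_nat_ge a
  set S : ℝ := 2 ^ k * (Finset.Iic ((k, 0) : ℕ × ℕ)).sup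
    (fun m => SchwartzMap.seminorm ℝ m.1 m.2) f with hS
  refine ⟨|S| + 1, by positivity, fun t => ?_⟩
  have h1 := SchwartzMap.one_add_le_sup_seminorm_apply (𝕜 := ℝ) (m := ((k, 0) : ℕ × ℕ))
    (le_refl k) (le_refl 0) f t
  rw [norm_iteratedFDeriv_zero, Real.norm_eq_abs] at h1
  have h2 : (0 : ℝ) < 1 + |t| := by positivity
  have h3 : (1 : ℝ) ≤ 1 + |t| := by linarith [abs_nonneg t]
  have h4 : 0 < (1 + |t|) ^ k := pow_pos h2 k
  have h5 : ‖f t‖ ≤ (|S| + 1) / (1 + |t|) ^ k := by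
    rw [le_div_iff₀ h4, mul_comm]
    have h6 : (1 + |t|) ^ k * ‖f t‖ ≤ S := h1
    linarith [le_abs_self S]
  refine h5.trans ?_
  rw [div_eq_mul_inv, Real.rpow_neg h2.le, ← Real.rpow_natCast]
  refine mul_le_mul_of_nonneg_left ?_ (by positivity)
  exact inv_anti₀ (Real.rpow_pos_of_pos h2 a) (Real.rpow_le_rpow_of_exponent_le h3 hk)

end W_F1

theorem t_F1 : Stmt_F1 := by
  intro B
  let χ : ContDiffBump (0 : ℝ) := ⟨|B| + 1, |B| + 2, by positivity, by linarith⟩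
  let χc : ℝ → ℂ := fun x => (χ x : ℂ)
  have h1 : ContDiff ℝ ∞ χc := Complex.ofRealCLM.contDiff.comp χ.contDiff
  have h2 : HasCompactSupport χc := by
    have := χ.hasCompactSupport
    exact this.comp_left (g := fun x : ℝ => (x : ℂ)) Complex.ofReal_zero
  let f : 𝓢(ℝ, ℂ) := h2.toSchwartzMap h1
  let g : 𝓢(ℝ, ℂ) := 𝓕 f
  refine ⟨⇑g, g.continuous, fun a => W_F1.decay g a, fun u hu => ?_⟩
  have h3 : 𝓕⁻ g = f := FourierPair.fourierInv_fourier_eq f
  have h4 : (𝓕⁻ g) u = 1 := by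
    rw [h3]
    show χc u = 1
    show ((χ u : ℝ) : ℂ) = 1
    rw [χ.one_of_mem_closedBall, Complex.ofReal_one]
    rw [Metric.mem_closedBall, dist_zero_right, Real.norm_eq_abs]
    show |u| ≤ |B| + 1
    linarith [le_abs_self B]
  rw [← h4, SchwartzMap.fourierInv_coe, Real.fourierInv_eq']
  refine integral_congr_ae (Filter.Eventually.of_forall fun t => ?_)
  show g t * ee (u * t) = Complex.exp (((2 * Real.pi * inner ℝ t u : ℝ) : ℂ) * Complex.I) • g t
  rw [ee_eq, smul_eq_mul, mul_comm]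
  congr 3

end DEC
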