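import Pool.Agent.DEC.StmtsW

/-!
# l^2 decoupling, block W: band-limited kernel
-/

open MeasureTheory
open scoped ENNReal Matrix

namespace DEC

namespace W_G

/-- The kernel. -/
noncomputable def GK {r : ℕ} (g : ℝ → ℝ) (x : X r) : ℝ := (∏ i, g (x.1 i)) * g x.2

lemma GK_cast {r : ℕ} (g : ℝ → ℝ) (x : X r) : (GK g x : ℂ) = prdK (fun t => (g t : ℂ)) x := by
  unfold GK prdK
  push_cast
  rfl

end W_G

open W_G in
theorem t_G (h1 : Stmt_G1) (h2 : Stmt_PRD) : Stmt_G := by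
  obtain ⟨g, hgc, hg0, hg1, hgd, hgi⟩ := h1
  intro r a ha
  obtain ⟨C, hC, hCg⟩ := hgd a
  have hfc : Continuous fun t : ℝ => (g t : ℂ) := Complex.continuous_ofReal.comp hgc
  have hfb : ∀ t : ℝ, ‖(g t : ℂ)‖ ≤ C * (1 + |t|) ^ (-a) := by
    intro t
    rw [Complex.norm_real, Real.norm_eq_abs, abs_of_nonneg (hg0 t)]
    exact hCg t
  obtain ⟨-, ⟨C', hC', hb⟩, hi⟩ := h2 r a C (fun t => (g t : ℂ)) ha hC hfc hfb
  have hpos : ∀ x : X r, 0 ≤ GK g x := fun x =>
    mul_nonneg (Finset.prod_nonneg fun i _ => hg0 _) (hg0 _)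
  refine ⟨GK g, C', hC', ?_, hpos, ?_, ?_, ?_⟩
  · unfold GK
    fun_prop
  · intro x hx
    have hx1 : ‖x.1‖ ≤ 1 := (norm_fst_le x).trans hx
    have hx2 : ‖x.2‖ ≤ 1 := (norm_snd_le x).trans hx
    have h3 : ∀ i, 1 ≤ g (x.1 i) := fun i => hg1 _ (by
      have := (norm_le_pi_norm x.1 i).trans hx1
      rwa [Real.norm_eq_abs] at this)
    have h4 : 1 ≤ g x.2 := hg1 _ (by rwa [Real.norm_eq_abs] at hx2)
    have h5 : (1 : ℝ) ≤ ∏ i, g (x.1 i) := by
      have := Finset.prod_le_prod (s := (Finset.univ : Finset (Fin r))) (f := fun _ => (1 : ℝ))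
        (g := fun i => g (x.1 i)) (fun _ _ => zero_le_one) (fun i _ => h3 i)
      simpa using this
    unfold GK
    calc (1 : ℝ) = 1 * 1 := (one_mul 1).symm
      _ ≤ (∏ i, g (x.1 i)) * g x.2 := mul_le_mul h5 h4 zero_le_one (le_trans zero_le_one h5)
  · intro x
    have h3 := hb x
    rw [← GK_cast, Complex.norm_real, Real.norm_eq_abs, abs_of_nonneg (hpos x)] at h3
    exact h3
  · intro w hw
    have h3 : ∫ x : X r, (GK g x : ℂ) * ee (pr w x) =
        ∫ x : X r, prdK (fun t => (g t : ℂ)) x * ee (pr w x) := by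
      refine integral_congr_ae (Filter.Eventually.of_forall fun x => ?_)
      show (GK g x : ℂ) * ee (pr w x) = prdK (fun t => (g t : ℂ)) x * ee (pr w x)
      rw [GK_cast]
    rw [h3, hi w]
    by_cases h4 : 1 ≤ |w.2|
    · rw [hgi _ h4, mul_zero]
    · have h5 : ∃ i, 1 ≤ |w.1 i| := by
        by_contra hcon
        push Not at hcon h4
        have h6 : ‖w.1‖ < 1 := by
          rw [pi_norm_lt_iff one_pos]
          intro i
          rw [Real.norm_eq_abs]
          exact hcon i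
        have h7 : ‖w‖ < 1 := by
          rw [Prod.norm_def]
          exact max_lt h6 (by rwa [Real.norm_eq_abs])
        exact absurd hw (not_le.2 h7)
      obtain ⟨i, hi5⟩ := h5
      have h6 : (∏ i, ∫ t, (g t : ℂ) * ee (w.1 i * t)) = 0 :=
        Finset.prod_eq_zero (Finset.mem_univ i) (hgi _ hi5)
      rw [h6, zero_mul]

end DEC
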