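import Pool.Agent.DEC.StmtsW

/-!
# l^2 decoupling, module W_G1: a nonnegative band-limited function on the line
-/

open MeasureTheory FourierTransform SchwartzMap
open scoped ENNReal Matrix

namespace DEC

namespace W_G1

/-- A bump supported in `[-1/16, 1/16]`. -/
noncomputable def bump : ContDiffBump (0 : ℝ) where
  rIn := 1 / 32
  rOut := 1 / 16
  rIn_pos := by norm_num
  rIn_lt_rOut := by norm_num

/-- The normalized bump. -/
noncomputable def hr (x : ℝ) : ℝ := bump.normed volume x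

lemma hr_nonneg (x : ℝ) : 0 ≤ hr x := bump.nonneg_normed x

lemma hr_contDiff (n : ℕ∞) : ContDiff ℝ n hr := bump.contDiff_normed

lemma hr_compact : HasCompactSupport hr := bump.hasCompactSupport_normed

lemma hr_integral : ∫ x, hr x = 1 := bump.integral_normed

lemma hr_integrable : Integrable hr := bump.integrable_normed

lemma hr_eq_zero {x : ℝ} (hx : 1 / 16 ≤ |x|) : hr x = 0 := by
  have h := bump.support_normed_eq (μ := volume)
  by_contra hne
  have h1 : x ∈ Function.support (bump.normed volume) := hne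
  rw [h, mem_ball_zero_iff, Real.norm_eq_abs] at h1
  have : bump.rOut = 1 / 16 := rfl
  linarith

/-- The translated bump as a Schwartz function. -/
noncomputable def hS (ω : ℝ) : 𝓢(ℝ, ℂ) :=
  HasCompactSupport.toSchwartzMap (f := fun x : ℝ => ((hr (x + ω) : ℝ) : ℂ))
    (by
      have h1 : HasCompactSupport (fun x : ℝ => hr (x + ω)) :=
        hr_compact.comp_homeomorph (Homeomorph.addRight ω)
      exact h1.comp_left (g := fun y : ℝ => (y : ℂ)) Complex.ofReal_zero)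
    (by
      have h1 : ContDiff ℝ (⊤ : ℕ∞) (fun x : ℝ => hr (x + ω)) :=
        (hr_contDiff ⊤).comp (contDiff_id.add contDiff_const)
      exact Complex.ofRealCLM.contDiff.comp h1)

lemma hS_apply (ω x : ℝ) : hS ω x = ((hr (x + ω) : ℝ) : ℂ) := rfl

lemma fourier_hS (ω t : ℝ) :
    𝓕 (hS ω) t = ∫ v : ℝ, ee (-(v * t)) * ((hr (v + ω) : ℝ) : ℂ) := by
  rw [fourier_coe, Real.fourier_real_eq_integral_exp_smul]
  apply integral_congr_ae
  filter_upwards with v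
  rw [smul_eq_mul, hS_apply]
  congr 1
  unfold ee
  congr 1
  push_cast
  ring

lemma fourier_shift (ω t : ℝ) : 𝓕 (hS ω) t = ee (ω * t) * 𝓕 (hS 0) t := by
  rw [fourier_hS, fourier_hS]
  rw [← integral_const_mul]
  rw [← integral_sub_right_eq_self (fun v : ℝ => ee (-(v * t)) * ((hr (v + ω) : ℝ) : ℂ)) ω]
  apply integral_congr_ae
  filter_upwards with v
  rw [sub_add_cancel, add_zero, ← mul_assoc, ← ee_add]
  congr 2
  ring

lemma ee_sub_one (θ : ℝ) : ‖ee θ - 1‖ ≤ 2 * Real.pi * |θ| := by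
  have h := Real.norm_exp_I_mul_ofReal_sub_one_le (x := 2 * Real.pi * θ)
  rw [Real.norm_eq_abs, abs_mul, abs_of_pos (by positivity : (0 : ℝ) < 2 * Real.pi)] at h
  rw [ee_eq, mul_comm]
  exact h

lemma norm_fourier_ge {t : ℝ} (ht : |t| ≤ 1) : 1 / 2 ≤ ‖𝓕 (hS 0) t‖ := by
  have hone : (∫ v : ℝ, ((hr v : ℝ) : ℂ)) = 1 := by
    rw [integral_complex_ofReal, hr_integral]
    simp
  have hint : Integrable (fun v : ℝ => ((hr v : ℝ) : ℂ)) := hr_integrable.ofReal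
  have hint2 : Integrable (fun v : ℝ => ee (-(v * t)) * ((hr v : ℝ) : ℂ)) := by
    refine hint.bdd_mul (c := 1) ?_ ?_
    · exact (continuous_ee.comp (by fun_prop)).aestronglyMeasurable
    · filter_upwards with v
      rw [norm_ee]
  have h1 : 𝓕 (hS 0) t - 1 = ∫ v : ℝ, (ee (-(v * t)) - 1) * ((hr v : ℝ) : ℂ) := by
    rw [fourier_hS]
    simp only [add_zero]
    nth_rewrite 1 [← hone]
    rw [← integral_sub hint2 hint]
    apply integral_congr_ae
    filter_upwards with v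
    ring
  have h2 : ‖𝓕 (hS 0) t - 1‖ ≤ ∫ v : ℝ, (1 / 2) * hr v := by
    rw [h1]
    apply norm_integral_le_of_norm_le (hr_integrable.const_mul _)
    filter_upwards with v
    rw [norm_mul, Complex.norm_real, Real.norm_of_nonneg (hr_nonneg v)]
    by_cases hv : 1 / 16 ≤ |v|
    · rw [hr_eq_zero hv]
      simp
    · push Not at hv
      apply mul_le_mul_of_nonneg_right _ (hr_nonneg v)
      refine (ee_sub_one _).trans ?_
      rw [abs_neg, abs_mul]
      have h3 : |v| * |t| ≤ 1 / 16 := by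
        have := abs_nonneg v
        have := abs_nonneg t
        nlinarith
      have h4 := Real.pi_lt_four
      have h5 := Real.pi_pos
      have h6 : 0 ≤ |v| * |t| := by positivity
      nlinarith
  rw [integral_const_mul, hr_integral] at h2
  have h3 : (1 : ℝ) - ‖𝓕 (hS 0) t - 1‖ ≤ ‖𝓕 (hS 0) t‖ := by
    have h4 := norm_sub_norm_le (1 : ℂ) (1 - 𝓕 (hS 0) t)
    rw [norm_one, sub_sub_cancel, norm_sub_rev] at h4
    exact h4
  linarith

lemma decay (a : ℝ) : ∃ C : ℝ, 0 < C ∧ ∀ t : ℝ,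
    4 * ‖𝓕 (hS 0) t‖ ^ 2 ≤ C * (1 + |t|) ^ (-a) := by
  obtain ⟨k, hk⟩ := exists_nat_ge |a|
  set C₁ : ℝ := 2 ^ k * (Finset.Iic (k, 0)).sup (fun m => SchwartzMap.seminorm ℝ m.1 m.2)
    (𝓕 (hS 0)) with hC₁
  have h1 : ∀ t : ℝ, (1 + |t|) ^ k * ‖𝓕 (hS 0) t‖ ≤ C₁ := by
    intro t
    have h := one_add_le_sup_seminorm_apply (𝕜 := ℝ) (m := (k, 0)) (k := k) (n := 0) le_rfl le_rfl
      (𝓕 (hS 0)) t
    rw [norm_iteratedFDeriv_zero, Real.norm_eq_abs] at h
    exact h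
  refine ⟨4 * C₁ ^ 2 + 1, by positivity, fun t => ?_⟩
  have ht : 1 ≤ 1 + |t| := by linarith [abs_nonneg t]
  have h2 := h1 t
  have hp : 0 < (1 + |t|) ^ k := by positivity
  have h3 : ‖𝓕 (hS 0) t‖ ≤ C₁ * ((1 + |t|) ^ k)⁻¹ := by
    rw [← div_eq_mul_inv, le_div_iff₀ hp]
    linarith
  have h4 : ((1 + |t|) ^ k)⁻¹ ≤ 1 := inv_le_one_of_one_le₀ (one_le_pow₀ ht)
  have h5 : ((1 + |t|) ^ k)⁻¹ ≤ (1 + |t|) ^ (-a) := by
    rw [← Real.rpow_natCast, ← Real.rpow_neg (by linarith)]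
    apply Real.rpow_le_rpow_of_exponent_le ht
    have := le_abs_self a
    linarith
  have h6 : 0 < ((1 + |t|) ^ k)⁻¹ := by positivity
  have h7 : ‖𝓕 (hS 0) t‖ ^ 2 ≤ C₁ ^ 2 * ((1 + |t|) ^ k)⁻¹ := by
    calc ‖𝓕 (hS 0) t‖ ^ 2 ≤ (C₁ * ((1 + |t|) ^ k)⁻¹) ^ 2 := by gcongr
      _ = C₁ ^ 2 * (((1 + |t|) ^ k)⁻¹ * ((1 + |t|) ^ k)⁻¹) := by ring
      _ ≤ C₁ ^ 2 * (((1 + |t|) ^ k)⁻¹ * 1) := by gcongr
      _ = _ := by ring
  calc 4 * ‖𝓕 (hS 0) t‖ ^ 2 ≤ 4 * (C₁ ^ 2 * ((1 + |t|) ^ k)⁻¹) := by gcongr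
    _ = 4 * C₁ ^ 2 * ((1 + |t|) ^ k)⁻¹ := by ring
    _ ≤ (4 * C₁ ^ 2 + 1) * (1 + |t|) ^ (-a) := by
      apply mul_le_mul (by linarith) h5 h6.le (by positivity)

lemma orth {ω : ℝ} (hω : 1 ≤ |ω|) :
    ∫ t : ℝ, ((4 * ‖𝓕 (hS 0) t‖ ^ 2 : ℝ) : ℂ) * ee (ω * t) = 0 := by
  have h1 := integral_inner_fourier_fourier (hS 0) (hS ω)
  have h2 : ∀ t : ℝ, ((4 * ‖𝓕 (hS 0) t‖ ^ 2 : ℝ) : ℂ) * ee (ω * t) =
      4 * inner ℂ (𝓕 (hS 0) t) (𝓕 (hS ω) t) := by
    intro t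
    rw [fourier_shift ω t, ← smul_eq_mul (ee (ω * t)), inner_smul_right,
      inner_self_eq_norm_sq_to_K]
    push_cast
    simp only [Complex.coe_algebraMap]
    ring
  have h3 : ∀ x : ℝ, inner ℂ (hS 0 x) (hS ω x) = 0 := by
    intro x
    rw [hS_apply, hS_apply, add_zero]
    by_cases hx : 1 / 16 ≤ |x|
    · rw [hr_eq_zero hx]
      simp
    · push Not at hx
      have h4 : 1 / 16 ≤ |x + ω| := by
        have h5 : |ω| ≤ |x + ω| + |x| := by
          calc |ω| = |(x + ω) - x| := by congr 1; ring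
            _ ≤ _ := abs_sub _ _
        linarith
      rw [hr_eq_zero h4]
      simp
  simp_rw [h2]
  rw [integral_const_mul, h1]
  simp_rw [h3]
  simp

end W_G1

open W_G1

theorem t_G1 : Stmt_G1 := by
  refine ⟨fun t => 4 * ‖𝓕 (hS 0) t‖ ^ 2, ?_, fun t => by positivity, fun t ht => ?_,
    fun a => decay a, fun ω hω => orth hω⟩
  · exact continuous_const.mul ((𝓕 (hS 0)).continuous.norm.pow 2)
  · have h := norm_fourier_ge ht
    have h2 := norm_nonneg (𝓕 (hS 0) t)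
    show 1 ≤ 4 * ‖𝓕 (hS 0) t‖ ^ 2
    nlinarith

end DEC
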