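import Pool.Agent.DEC.StmtsW

/-!
# l^2 decoupling, block W: reproducing kernels and Jensen's inequality (DEC_W_J)
-/

open MeasureTheory
open scoped ENNReal Matrix

namespace DEC

namespace W_J

variable {r : ℕ}

/-- The reproducing formula. -/
lemma repro (K : X r → ℂ) (q : X r) (S : Set (X r)) (F : X r → ℂ)
    (hKi : Integrable K)
    (hK1 : ∀ w ∈ S, ∫ y, K y * ee (pr (q - w) y) = 1) (hF : Trig F S) (z : X r) :
    F z = ∫ y, F (z - y) * ee (pr q y) * K y := by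
  obtain ⟨m, a, w, hw, hF⟩ := hF
  have h1 : ∀ y : X r, F (z - y) * ee (pr q y) * K y
      = ∑ i, (a i * ee (pr (w i) z)) * (K y * ee (pr (q - w i) y)) := by
    intro y
    rw [hF, Finset.sum_mul, Finset.sum_mul]
    refine Finset.sum_congr rfl fun i _ => ?_
    rw [sub_eq_add_neg z y, pr_add_right, pr_neg_right, ee_add, pr_sub_left, sub_eq_add_neg,
      ee_add]
    ring
  have h2 : ∀ i, Integrable fun y : X r => K y * ee (pr (q - w i) y) := by
    intro i
    refine (hKi.bdd_mul (c := 1) (g := K) (f := fun y => ee (pr (q - w i) y))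
      (continuous_ee_pr _).aestronglyMeasurable ?_).congr ?_
    · exact Filter.Eventually.of_forall fun y => (norm_ee _).le
    · exact Filter.Eventually.of_forall fun y => mul_comm _ _
  have h3 : (∫ y, F (z - y) * ee (pr q y) * K y)
      = ∫ y, ∑ i, (a i * ee (pr (w i) z)) * (K y * ee (pr (q - w i) y)) :=
    integral_congr_ae (Filter.Eventually.of_forall h1)
  rw [h3, integral_finsetSum _ fun i _ => (h2 i).const_mul _, hF z]
  refine Finset.sum_congr rfl fun i _ => ?_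
  rw [integral_const_mul, hK1 (w i) (hw i), mul_one]

/-- Pointwise bound by the convolution with the modulus of the kernel. -/
lemma bound (K : X r → ℂ) (q : X r) (S : Set (X r)) (F : X r → ℂ)
    (hKi : Integrable K)
    (hK1 : ∀ w ∈ S, ∫ y, K y * ee (pr (q - w) y) = 1) (hF : Trig F S) (z : X r) :
    ‖F z‖ₑ ≤ ∫⁻ y, ‖F y‖ₑ * ‖K (z - y)‖ₑ := by
  have h1 := repro K q S F hKi hK1 hF z
  calc ‖F z‖ₑ = ‖∫ y, F (z - y) * ee (pr q y) * K y‖ₑ := by rw [← h1]
    _ ≤ ∫⁻ y, ‖F (z - y) * ee (pr q y) * K y‖ₑ := enorm_integral_le_lintegral_enorm _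
    _ = ∫⁻ y, ‖F (z - y)‖ₑ * ‖K (z - (z - y))‖ₑ := by
        refine lintegral_congr fun y => ?_
        rw [enorm_mul, enorm_mul, enorm_ee, mul_one, sub_sub_cancel]
    _ = ∫⁻ y, ‖F y‖ₑ * ‖K (z - y)‖ₑ :=
        lintegral_sub_left_eq_self (fun y => ‖F y‖ₑ * ‖K (z - y)‖ₑ) z

/-- Jensen's inequality for the measure `k dy`. -/
lemma jensen (s : ℝ) (hs : 1 ≤ s) (f k : X r → ℝ≥0∞) (hf : Measurable f) (hk : Measurable k) :
    (∫⁻ y, f y * k y) ^ s ≤ (∫⁻ y, k y) ^ (s - 1) * ∫⁻ y, f y ^ s * k y := by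
  rcases eq_or_lt_of_le hs with h | h
  · rw [← h]
    simp
  · have hpq : s.HolderConjugate (s / (s - 1)) := Real.HolderConjugate.conjExponent h
    have hs0 : (0 : ℝ) < s := lt_trans one_pos h
    have hs1 : (0 : ℝ) < s - 1 := by linarith
    have hq0 : (0 : ℝ) < s / (s - 1) := div_pos hs0 hs1
    have h1 := ENNReal.lintegral_mul_le_Lp_mul_Lq (volume : Measure (X r)) hpq
      (f := fun y => f y * k y ^ (1 / s)) (g := fun y => k y ^ (1 / (s / (s - 1))))
      (hf.mul (hk.pow_const _)).aemeasurable (hk.pow_const _).aemeasurable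
    have h2 : ∀ y, ((fun y => f y * k y ^ (1 / s)) * fun y => k y ^ (1 / (s / (s - 1)))) y
        = f y * k y := by
      intro y
      simp only [Pi.mul_apply]
      rw [mul_assoc, ← ENNReal.rpow_add_of_nonneg _ _ (by positivity) (by positivity)]
      have : 1 / s + 1 / (s / (s - 1)) = 1 := by
        field_simp
        ring
      rw [this, ENNReal.rpow_one]
    have h3 : ∀ y, (f y * k y ^ (1 / s)) ^ s = f y ^ s * k y := by
      intro y
      rw [ENNReal.mul_rpow_of_nonneg _ _ hs0.le, ← ENNReal.rpow_mul, one_div_mul_cancel hs0.ne',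
        ENNReal.rpow_one]
    have h4 : ∀ y, (k y ^ (1 / (s / (s - 1)))) ^ (s / (s - 1)) = k y := by
      intro y
      rw [← ENNReal.rpow_mul, one_div_mul_cancel hq0.ne', ENNReal.rpow_one]
    rw [lintegral_congr h2, lintegral_congr h3, lintegral_congr h4] at h1
    calc (∫⁻ y, f y * k y) ^ s
        ≤ ((∫⁻ y, f y ^ s * k y) ^ (1 / s) * (∫⁻ y, k y) ^ (1 / (s / (s - 1)))) ^ s :=
          ENNReal.rpow_le_rpow h1 hs0.le
      _ = (∫⁻ y, k y) ^ (s - 1) * ∫⁻ y, f y ^ s * k y := by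
          rw [ENNReal.mul_rpow_of_nonneg _ _ hs0.le, ← ENNReal.rpow_mul, ← ENNReal.rpow_mul,
            one_div_mul_cancel hs0.ne', ENNReal.rpow_one, mul_comm]
          congr 2
          field_simp

end W_J

/-- DEC_W_J. -/
theorem t_J : Stmt_J := by
  intro r s K q S F hs hKc hKi hK1 hF z
  have h1 := W_J.bound K q S F hKi hK1 hF z
  have hfm : Measurable fun y : X r => ‖F y‖ₑ := hF.continuous.measurable.enorm
  have hkm : Measurable fun y : X r => ‖K (z - y)‖ₑ :=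
    (hKc.comp (continuous_const.sub continuous_id)).measurable.enorm
  have h2 := W_J.jensen s hs (fun y : X r => ‖F y‖ₑ) (fun y : X r => ‖K (z - y)‖ₑ) hfm hkm
  have h3 : ∫⁻ y : X r, ‖K (z - y)‖ₑ = ∫⁻ y, ‖K y‖ₑ :=
    lintegral_sub_left_eq_self (fun y : X r => ‖K y‖ₑ) z
  have hs0 : (0 : ℝ) ≤ s := le_trans zero_le_one hs
  calc pw s F z = ‖F z‖ₑ ^ s := rfl
    _ ≤ (∫⁻ y, ‖F y‖ₑ * ‖K (z - y)‖ₑ) ^ s := ENNReal.rpow_le_rpow h1 hs0
    _ ≤ (∫⁻ y : X r, ‖K (z - y)‖ₑ) ^ (s - 1) * ∫⁻ y, ‖F y‖ₑ ^ s * ‖K (z - y)‖ₑ := h2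
    _ = (∫⁻ y, ‖K y‖ₑ) ^ (s - 1) * ∫⁻ y, pw s F y * ‖K (z - y)‖ₑ := by rw [h3]; rfl

end DEC
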