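import Pool.Agent.DEC.StmtsW

/-!
# l^2 decoupling, block W: convolution of a weight with a kernel of mass one
-/

open MeasureTheory
open scoped ENNReal Matrix

namespace DEC

namespace W_KW

variable {r : ℕ}

lemma norm_inv_smul {R : ℝ} (hR : 0 < R) (u : X r) : ‖R⁻¹ • u‖ = ‖u‖ / R := by
  rw [norm_smul, Real.norm_eq_abs, abs_of_pos (inv_pos.2 hR), div_eq_inv_mul]

/-- The pointwise upper bound. -/
lemma upper_pt {E a c₁ : ℝ} (hc : 0 < c₁) {G : X r → ℝ}
    (hG : ∀ x, G x ≤ c₁ * (1 + ‖x‖) ^ (-a)) {R : ℝ} (hR : 0 < R) {w : X r → ℝ≥0∞}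
    (hw : Wt R E w) (y z : X r) :
    ENNReal.ofReal (R ^ (-((r : ℝ) + 1)) * G (R⁻¹ • (z - y))) * w z ≤
      ENNReal.ofReal c₁ * (wt R a (z - y) * ENNReal.ofReal ((1 + ‖z - y‖ / R) ^ E)) * w y := by
  have h1 : ENNReal.ofReal (R ^ (-((r : ℝ) + 1)) * G (R⁻¹ • (z - y))) ≤
      ENNReal.ofReal c₁ * wt R a (z - y) := by
    unfold wt
    rw [← ENNReal.ofReal_mul hc.le]
    apply ENNReal.ofReal_le_ofReal
    have h2 := hG (R⁻¹ • (z - y))
    rw [norm_inv_smul hR] at h2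
    have h3 : 0 ≤ R ^ (-((r : ℝ) + 1)) := Real.rpow_nonneg hR.le _
    calc R ^ (-((r : ℝ) + 1)) * G (R⁻¹ • (z - y))
        ≤ R ^ (-((r : ℝ) + 1)) * (c₁ * (1 + ‖z - y‖ / R) ^ (-a)) :=
          mul_le_mul_of_nonneg_left h2 h3
      _ = c₁ * (R ^ (-((r : ℝ) + 1)) * (1 + ‖z - y‖ / R) ^ (-a)) := by ring
  calc ENNReal.ofReal (R ^ (-((r : ℝ) + 1)) * G (R⁻¹ • (z - y))) * w z
      ≤ (ENNReal.ofReal c₁ * wt R a (z - y)) *
          (w y * ENNReal.ofReal ((1 + ‖z - y‖ / R) ^ E)) := mul_le_mul' h1 (hw z y)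
    _ = ENNReal.ofReal c₁ * (wt R a (z - y) * ENNReal.ofReal ((1 + ‖z - y‖ / R) ^ E)) * w y := by
        ring

/-- The pointwise lower bound for the weight. -/
lemma lower_pt {E : ℝ} (hE : 0 ≤ E) {R : ℝ} (hR : 0 < R) {w : X r → ℝ≥0∞}
    (hw : Wt R E w) (y z : X r) (hz : ‖z - y‖ ≤ R) :
    w y * ENNReal.ofReal ((2 : ℝ) ^ (-E)) ≤ w z := by
  have h1 : ‖y - z‖ / R ≤ 1 := by
    rw [norm_sub_rev]; exact (div_le_one hR).2 hz
  have h0 : 0 ≤ ‖y - z‖ / R := div_nonneg (norm_nonneg _) hR.le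
  have h2 : (1 + ‖y - z‖ / R) ^ E ≤ (2 : ℝ) ^ E :=
    Real.rpow_le_rpow (by linarith) (by linarith) hE
  have h3 : w y ≤ w z * ENNReal.ofReal ((2 : ℝ) ^ E) :=
    (hw y z).trans (mul_le_mul' le_rfl (ENNReal.ofReal_le_ofReal h2))
  calc w y * ENNReal.ofReal ((2 : ℝ) ^ (-E))
      ≤ (w z * ENNReal.ofReal ((2 : ℝ) ^ E)) * ENNReal.ofReal ((2 : ℝ) ^ (-E)) :=
        mul_le_mul' h3 le_rfl
    _ = w z * ENNReal.ofReal ((2 : ℝ) ^ E * (2 : ℝ) ^ (-E)) := by
        rw [mul_assoc, ← ENNReal.ofReal_mul (Real.rpow_nonneg (by norm_num) _)]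
    _ = w z := by
        rw [← Real.rpow_add (by norm_num : (0 : ℝ) < 2), add_neg_cancel, Real.rpow_zero,
          ENNReal.ofReal_one, mul_one]

/-- The volume of a ball of radius `R`. -/
lemma vol_ball (r : ℕ) : ∃ v : ℝ, 0 < v ∧ ∀ (R : ℝ) (y : X r), 0 < R →
    volume (Metric.closedBall y R) = ENNReal.ofReal (R ^ ((r : ℝ) + 1) * v) := by
  refine ⟨(volume (Metric.ball (0 : X r) 1)).toReal, ?_, ?_⟩
  · apply ENNReal.toReal_pos
    · exact (Metric.measure_ball_pos volume (0 : X r) one_pos).ne'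
    · exact measure_ball_lt_top.ne
  · intro R y hR
    rw [Measure.addHaar_closedBall volume y hR.le, finrank_X,
      ENNReal.ofReal_mul (Real.rpow_nonneg hR.le _),
      ENNReal.ofReal_toReal measure_ball_lt_top.ne]
    congr 2
    rw [← Real.rpow_natCast]
    push_cast
    rfl

end W_KW

open W_KW in
/-- Convolution of a weight with a kernel of mass one at scale `R`. -/
theorem t_KW (h1 : Stmt_AVA) : Stmt_KW := by
  intro r E a c₁ hE hEa hc
  obtain ⟨C0, hC0, hI⟩ := h1.2.2.2 r a E hEa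
  obtain ⟨v, hv, hvol⟩ := vol_ball r
  have h2E : 0 < (2 : ℝ) ^ E := Real.rpow_pos_of_pos (by norm_num) _
  have h2E' : 0 < (2 : ℝ) ^ (-E) := Real.rpow_pos_of_pos (by norm_num) _
  have hA : 0 < c₁ * C0 := mul_pos hc hC0
  have hB : 0 < c₁ * (2 : ℝ) ^ E / v := div_pos (mul_pos hc h2E) hv
  refine ⟨max (c₁ * C0) (c₁ * (2 : ℝ) ^ E / v), lt_max_of_lt_left hA, ?_⟩
  intro G _hGc _hG0 hG1 hG2 R w hR hw y
  constructor
  · -- lower bound
    have hR' : 0 < R ^ (-((r : ℝ) + 1)) := Real.rpow_pos_of_pos hR _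
    have hlow : ENNReal.ofReal (v * (2 : ℝ) ^ (-E) / c₁) * w y ≤
        ∫⁻ z, ENNReal.ofReal (R ^ (-((r : ℝ) + 1)) * G (R⁻¹ • (z - y))) * w z := by
      calc ENNReal.ofReal (v * (2 : ℝ) ^ (-E) / c₁) * w y
          = (ENNReal.ofReal (R ^ (-((r : ℝ) + 1)) * (1 / c₁)) *
              (w y * ENNReal.ofReal ((2 : ℝ) ^ (-E)))) * volume (Metric.closedBall y R) := by
            rw [hvol R y hR]
            have e1 : v * (2 : ℝ) ^ (-E) / c₁ =
                (R ^ (-((r : ℝ) + 1)) * (1 / c₁)) * ((2 : ℝ) ^ (-E)) *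
                  (R ^ ((r : ℝ) + 1) * v) := by
              have e2 : R ^ (-((r : ℝ) + 1)) * R ^ ((r : ℝ) + 1) = 1 := by
                rw [← Real.rpow_add hR, neg_add_cancel, Real.rpow_zero]
              calc v * (2 : ℝ) ^ (-E) / c₁
                  = (R ^ (-((r : ℝ) + 1)) * R ^ ((r : ℝ) + 1)) *
                      (v * (2 : ℝ) ^ (-E) / c₁) := by rw [e2, one_mul]
                _ = _ := by ring
            rw [e1, ENNReal.ofReal_mul (by positivity), ENNReal.ofReal_mul (by positivity)]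
            ring
        _ = ∫⁻ _z in Metric.closedBall y R, ENNReal.ofReal (R ^ (-((r : ℝ) + 1)) * (1 / c₁)) *
              (w y * ENNReal.ofReal ((2 : ℝ) ^ (-E))) := by
            rw [setLIntegral_const]
        _ ≤ ∫⁻ z in Metric.closedBall y R,
              ENNReal.ofReal (R ^ (-((r : ℝ) + 1)) * G (R⁻¹ • (z - y))) * w z := by
            apply setLIntegral_mono' measurableSet_closedBall
            intro z hz
            have hz' : ‖z - y‖ ≤ R := by rwa [← dist_eq_norm, ← Metric.mem_closedBall]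
            apply mul_le_mul'
            · apply ENNReal.ofReal_le_ofReal
              apply mul_le_mul_of_nonneg_left _ hR'.le
              apply hG1
              rw [norm_inv_smul hR]
              exact (div_le_one hR).2 hz'
            · exact lower_pt hE hR hw y z hz'
        _ ≤ _ := setLIntegral_le_lintegral _ _
    calc w y = ENNReal.ofReal (c₁ * (2 : ℝ) ^ E / v) *
          (ENNReal.ofReal (v * (2 : ℝ) ^ (-E) / c₁) * w y) := by
          rw [← mul_assoc, ← ENNReal.ofReal_mul hB.le]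
          have e3 : c₁ * (2 : ℝ) ^ E / v * (v * (2 : ℝ) ^ (-E) / c₁) = 1 := by
            have e4 : (2 : ℝ) ^ E * (2 : ℝ) ^ (-E) = 1 := by
              rw [← Real.rpow_add (by norm_num : (0 : ℝ) < 2), add_neg_cancel, Real.rpow_zero]
            calc c₁ * (2 : ℝ) ^ E / v * (v * (2 : ℝ) ^ (-E) / c₁)
                = (c₁ / c₁) * (v / v) * ((2 : ℝ) ^ E * (2 : ℝ) ^ (-E)) := by ring
              _ = 1 := by rw [e4, div_self hc.ne', div_self hv.ne']; ring
          rw [e3, ENNReal.ofReal_one, one_mul]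
      _ ≤ ENNReal.ofReal (max (c₁ * C0) (c₁ * (2 : ℝ) ^ E / v)) * _ :=
          mul_le_mul' (ENNReal.ofReal_le_ofReal (le_max_right _ _)) hlow
  · -- upper bound
    calc ∫⁻ z, ENNReal.ofReal (R ^ (-((r : ℝ) + 1)) * G (R⁻¹ • (z - y))) * w z
        ≤ ∫⁻ z, ENNReal.ofReal c₁ *
            (wt R a (z - y) * ENNReal.ofReal ((1 + ‖z - y‖ / R) ^ E)) * w y :=
          lintegral_mono fun z => upper_pt hc hG2 hR hw y z
      _ = (∫⁻ z, ENNReal.ofReal c₁ *
            (wt R a (z - y) * ENNReal.ofReal ((1 + ‖z - y‖ / R) ^ E))) * w y := by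
          refine lintegral_mul_const _ ?_
          refine Measurable.const_mul ?_ _
          refine ((measurable_wt R a).comp (measurable_id.sub_const y)).mul ?_
          fun_prop
      _ = ENNReal.ofReal c₁ * (∫⁻ z,
            wt R a (z - y) * ENNReal.ofReal ((1 + ‖z - y‖ / R) ^ E)) * w y := by
          rw [lintegral_const_mul' _ _ ENNReal.ofReal_ne_top]
      _ = ENNReal.ofReal c₁ * ENNReal.ofReal C0 * w y := by
          rw [lintegral_sub_right_eq_self
            (fun u : X r => wt R a u * ENNReal.ofReal ((1 + ‖u‖ / R) ^ E)) y, hI R hR]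
      _ = ENNReal.ofReal (c₁ * C0) * w y := by rw [ENNReal.ofReal_mul hc.le]
      _ ≤ ENNReal.ofReal (max (c₁ * C0) (c₁ * (2 : ℝ) ^ E / v)) * w y :=
          mul_le_mul' (ENNReal.ofReal_le_ofReal (le_max_left _ _)) le_rfl

end DEC
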