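import Pool.Agent.DEC.StmtsW

/-!
# l^2 decoupling, block W: local constancy on tubes, pointwise form
-/

open MeasureTheory
open scoped ENNReal Matrix

namespace DEC

namespace W_LT

variable {r : ℕ}

/-- The affine-linear change of variables for the tube. -/
noncomputable def T (R : ℝ) (v : Fin r → ℝ) (u : X r) : X r :=
  (R⁻¹ • (u.1 + u.2 • v), u.2 / R ^ 2)

lemma continuous_T (R : ℝ) (v : Fin r → ℝ) : Continuous (T R v) := by
  unfold T
  fun_prop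

lemma norm_T {R : ℝ} (hR : 0 < R) (v : Fin r → ℝ) (u : X r) :
    ‖T R v u‖ = max (‖u.1 + u.2 • v‖ / R) (|u.2| / R ^ 2) := by
  unfold T
  rw [Prod.norm_def]
  simp only
  rw [norm_smul, Real.norm_eq_abs, abs_of_pos (inv_pos.2 hR), Real.norm_eq_abs,
    abs_div, abs_of_pos (pow_pos hR 2), ← div_eq_inv_mul]

/-- The pointwise bound of the kernel. -/
lemma kernel_le {R a a₁ C : ℝ} (hR : 0 < R) (ha : 0 ≤ a) (ha₁ : 2 * a ≤ a₁) (hC : 0 < C)
    (v : Fin r → ℝ) {Φ : X r → ℂ} (hΦ : ∀ x, ‖Φ x‖ ≤ C * (1 + ‖x‖) ^ (-a₁)) (u : X r) :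
    ‖((R ^ (-((r : ℝ) + 2)) : ℝ) : ℂ) * Φ (T R v u)‖ₑ ≤ ENNReal.ofReal C * wT R a v u := by
  unfold wT
  rw [← ENNReal.ofReal_mul hC.le, ← ofReal_norm, norm_mul, Complex.norm_real, Real.norm_eq_abs,
    abs_of_nonneg (Real.rpow_nonneg hR.le _)]
  apply ENNReal.ofReal_le_ofReal
  have h1 := hΦ (T R v u)
  rw [norm_T hR] at h1
  set s := ‖u.1 + u.2 • v‖ / R with hs
  set t := |u.2| / R ^ 2 with ht
  have hs0 : 0 ≤ s := div_nonneg (norm_nonneg _) hR.le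
  have ht0 : 0 ≤ t := div_nonneg (abs_nonneg _) (pow_nonneg hR.le 2)
  have hm : 1 ≤ 1 + max s t := by
    have : 0 ≤ max s t := le_max_of_le_left hs0
    linarith
  have h2 : (1 + max s t) ^ (-a₁) ≤ (1 + s) ^ (-a) * (1 + t) ^ (-a) := by
    calc (1 + max s t) ^ (-a₁) ≤ (1 + max s t) ^ (-a + -a) :=
          Real.rpow_le_rpow_of_exponent_le hm (by linarith)
      _ = (1 + max s t) ^ (-a) * (1 + max s t) ^ (-a) := Real.rpow_add (by linarith) _ _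
      _ ≤ (1 + s) ^ (-a) * (1 + t) ^ (-a) := by
          apply mul_le_mul
          · exact Real.rpow_le_rpow_of_nonpos (by linarith)
              (add_le_add_right (le_max_left s t) 1) (by linarith)
          · exact Real.rpow_le_rpow_of_nonpos (by linarith)
              (add_le_add_right (le_max_right s t) 1) (by linarith)
          · exact Real.rpow_nonneg (by linarith) _
          · exact Real.rpow_nonneg (by linarith) _
  have h3 : 0 ≤ R ^ (-((r : ℝ) + 2)) := Real.rpow_nonneg hR.le _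
  calc R ^ (-((r : ℝ) + 2)) * ‖Φ (T R v u)‖
      ≤ R ^ (-((r : ℝ) + 2)) * (C * ((1 + s) ^ (-a) * (1 + t) ^ (-a))) := by
        apply mul_le_mul_of_nonneg_left _ h3
        exact h1.trans (mul_le_mul_of_nonneg_left h2 hC.le)
    _ = C * (R ^ (-((r : ℝ) + 2)) * (1 + s) ^ (-a) * (1 + t) ^ (-a)) := by ring

/-- The mass of a decaying function is finite. -/
lemma mass_lt_top {a₁ C : ℝ} (ha₁ : (r : ℝ) + 1 < a₁) (hC : 0 < C) {Φ : X r → ℂ}
    (hΦ : ∀ x, ‖Φ x‖ ≤ C * (1 + ‖x‖) ^ (-a₁)) : ∫⁻ x, ‖Φ x‖ₑ < ∞ := by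
  have h1 : ∫⁻ x : X r, ENNReal.ofReal ((1 + ‖x‖) ^ (-a₁)) < ∞ := by
    apply finite_integral_one_add_norm
    rw [finrank_X]
    push_cast
    exact ha₁
  calc ∫⁻ x, ‖Φ x‖ₑ ≤ ∫⁻ x : X r, ENNReal.ofReal C * ENNReal.ofReal ((1 + ‖x‖) ^ (-a₁)) := by
        apply lintegral_mono
        intro x
        show ‖Φ x‖ₑ ≤ ENNReal.ofReal C * ENNReal.ofReal ((1 + ‖x‖) ^ (-a₁))
        rw [← ENNReal.ofReal_mul hC.le, ← ofReal_norm]
        exact ENNReal.ofReal_le_ofReal (hΦ x)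
    _ = ENNReal.ofReal C * ∫⁻ x : X r, ENNReal.ofReal ((1 + ‖x‖) ^ (-a₁)) :=
        lintegral_const_mul' _ _ ENNReal.ofReal_ne_top
    _ < ∞ := ENNReal.mul_lt_top ENNReal.ofReal_lt_top h1

/-- The mass of the kernel. -/
lemma mass_eq (h3 : Stmt_CV) {R : ℝ} (hR : 0 < R) (v : Fin r → ℝ) {Φ : X r → ℂ}
    (hc : Continuous Φ) :
    ∫⁻ u, ‖((R ^ (-((r : ℝ) + 2)) : ℝ) : ℂ) * Φ (T R v u)‖ₑ = ∫⁻ x, ‖Φ x‖ₑ := by
  have e1 : ∀ u : X r, ‖((R ^ (-((r : ℝ) + 2)) : ℝ) : ℂ) * Φ (T R v u)‖ₑ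
      = ENNReal.ofReal (R ^ (-((r : ℝ) + 2))) * ‖Φ (T R v u)‖ₑ := by
    intro u
    rw [enorm_mul]
    congr 1
    rw [← ofReal_norm, Complex.norm_real, Real.norm_eq_abs, abs_of_nonneg (Real.rpow_nonneg hR.le _)]
  simp_rw [e1]
  rw [lintegral_const_mul' _ _ ENNReal.ofReal_ne_top]
  have e2 : ∫⁻ u, ‖Φ (T R v u)‖ₑ = ENNReal.ofReal (R ^ ((r : ℝ) + 2)) * ∫⁻ x, ‖Φ x‖ₑ := by
    have h4 := h3 r R v hR
    have h5 : ∫⁻ x, ‖Φ x‖ₑ ∂(Measure.map (T R v) volume) = ∫⁻ u, ‖Φ (T R v u)‖ₑ :=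
      lintegral_map hc.measurable.enorm (continuous_T R v).measurable
    rw [← h5]
    have h6 : Measure.map (T R v) volume
        = ENNReal.ofReal (R ^ ((r : ℝ) + 2)) • (volume : Measure (X r)) := h4
    rw [h6, lintegral_smul_measure, smul_eq_mul]
  rw [e2, ← mul_assoc, ← ENNReal.ofReal_mul (Real.rpow_nonneg hR.le _), ← Real.rpow_add hR,
    neg_add_cancel, Real.rpow_zero, ENNReal.ofReal_one, one_mul]

/-- The integral of the kernel against a function of `T R v u`. -/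
lemma int_eq (h3 : Stmt_CV) {R : ℝ} (hR : 0 < R) (v : Fin r → ℝ) {Ψ : X r → ℂ}
    (hc : Continuous Ψ) :
    ∫ u, ((R ^ (-((r : ℝ) + 2)) : ℝ) : ℂ) * Ψ (T R v u) = ∫ x, Ψ x := by
  rw [integral_const_mul]
  have e2 : ∫ u, Ψ (T R v u) = ((R ^ ((r : ℝ) + 2) : ℝ) : ℂ) * ∫ x, Ψ x := by
    have h5 : ∫ x, Ψ x ∂(Measure.map (T R v) volume) = ∫ u, Ψ (T R v u) :=
      integral_map (continuous_T R v).measurable.aemeasurable hc.aestronglyMeasurable
    rw [← h5]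
    have h6 : Measure.map (T R v) volume
        = ENNReal.ofReal (R ^ ((r : ℝ) + 2)) • (volume : Measure (X r)) := h3 r R v hR
    rw [h6, integral_smul_measure, ENNReal.toReal_ofReal (Real.rpow_nonneg hR.le _),
      Complex.real_smul]
  rw [e2, ← mul_assoc, ← Complex.ofReal_mul, ← Real.rpow_add hR, neg_add_cancel, Real.rpow_zero,
    Complex.ofReal_one, one_mul]

/-- Expansion of the quadratic form. -/
lemma qf_add {A : Matrix (Fin r) (Fin r) ℝ} (hA : A.IsSymm) (ξ ζ : Fin r → ℝ) :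
    qf A (ξ + ζ) = qf A ξ + ζ ⬝ᵥ ((2 : ℝ) • (A *ᵥ ξ)) + qf A ζ := by
  unfold qf
  have h1 : ξ ⬝ᵥ (A *ᵥ ζ) = ζ ⬝ᵥ (A *ᵥ ξ) := by
    rw [Matrix.dotProduct_mulVec, ← Matrix.mulVec_transpose, hA.eq, dotProduct_comm]
  rw [Matrix.mulVec_add, dotProduct_add, add_dotProduct, add_dotProduct, h1, dotProduct_smul,
    smul_eq_mul]
  ring

/-- The frequency after the change of variables. -/
lemma pr_eq {R : ℝ} (hR : 0 < R) {A : Matrix (Fin r) (Fin r) ℝ} (hA : A.IsSymm)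
    (ξ : Fin r → ℝ) (w : X r) (u : X r) :
    pr (((ξ, qf A ξ) : X r) - w) u =
      pr ((-(R • (w.1 - ξ)), -(R ^ 2 * (w.2 - qf A w.1 + qf A (w.1 - ξ)))) : X r)
        (T R ((2 : ℝ) • (A *ᵥ ξ)) u) := by
  have h1 := qf_add hA ξ (w.1 - ξ)
  rw [add_sub_cancel] at h1
  unfold pr T
  simp only [Prod.fst_sub, Prod.snd_sub]
  have hR' : R ≠ 0 := hR.ne'
  have h2 : (-(R • (w.1 - ξ))) ⬝ᵥ (R⁻¹ • (u.1 + u.2 • ((2 : ℝ) • (A *ᵥ ξ))))
      = (ξ - w.1) ⬝ᵥ u.1 - u.2 * ((w.1 - ξ) ⬝ᵥ ((2 : ℝ) • (A *ᵥ ξ))) := by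
    rw [neg_dotProduct, smul_dotProduct, dotProduct_smul, smul_smul, mul_inv_cancel₀ hR', one_smul,
      dotProduct_add, dotProduct_smul, smul_eq_mul]
    have : (ξ - w.1) ⬝ᵥ u.1 = -((w.1 - ξ) ⬝ᵥ u.1) := by
      rw [← neg_sub w.1 ξ, neg_dotProduct]
    rw [this]
    ring
  rw [h2, h1]
  field_simp
  ring

/-- The size of the new frequency. -/
lemma norm_freq {R l L b : ℝ} (hR : 0 < R) (hl : 0 < l) {A : Matrix (Fin r) (Fin r) ℝ}
    (hA : QF l L A) (ξ : Fin r → ℝ) {w : X r} (hw : w ∈ Box A b R ξ) :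
    ‖((-(R • (w.1 - ξ)), -(R ^ 2 * (w.2 - qf A w.1 + qf A (w.1 - ξ)))) : X r)‖
      ≤ |b| + r * |L| * b ^ 2 := by
  obtain ⟨hw1, hw2⟩ := hw
  have hR2 : 0 < R ^ 2 := pow_pos hR 2
  have hr : (0 : ℝ) ≤ r := Nat.cast_nonneg r
  have hLb : 0 ≤ r * |L| * b ^ 2 := by positivity
  have h1 : R * ‖w.1 - ξ‖ ≤ b := by
    have := mul_le_mul_of_nonneg_left hw1 hR.le
    rwa [mul_div_cancel₀ _ hR.ne'] at this
  have h2 : R ^ 2 * |w.2 - qf A w.1| ≤ b := by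
    have := mul_le_mul_of_nonneg_left hw2 hR2.le
    rwa [mul_div_cancel₀ _ hR2.ne'] at this
  have hsum : ∑ i, (w.1 - ξ) i ^ 2 ≤ r * ‖w.1 - ξ‖ ^ 2 := by
    calc ∑ i, (w.1 - ξ) i ^ 2 ≤ ∑ _i : Fin r, ‖w.1 - ξ‖ ^ 2 := by
          apply Finset.sum_le_sum
          intro i _
          have h4 : |(w.1 - ξ) i| ≤ ‖w.1 - ξ‖ := by
            have := norm_le_pi_norm (w.1 - ξ) i
            rwa [Real.norm_eq_abs] at this
          rw [← sq_abs]
          exact pow_le_pow_left₀ (abs_nonneg _) h4 2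
      _ = r * ‖w.1 - ξ‖ ^ 2 := by
          rw [Finset.sum_const, Finset.card_univ, Fintype.card_fin, nsmul_eq_mul]
  have hs0 : 0 ≤ ∑ i, (w.1 - ξ) i ^ 2 := Finset.sum_nonneg fun i _ => sq_nonneg _
  have hq0 : 0 ≤ qf A (w.1 - ξ) := (mul_nonneg hl.le hs0).trans (hA.lower _)
  have hq1 : R ^ 2 * qf A (w.1 - ξ) ≤ r * |L| * b ^ 2 := by
    have h5 : qf A (w.1 - ξ) ≤ |L| * (r * ‖w.1 - ξ‖ ^ 2) := by
      calc qf A (w.1 - ξ) ≤ L * ∑ i, (w.1 - ξ) i ^ 2 := hA.upper _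
        _ ≤ |L| * ∑ i, (w.1 - ξ) i ^ 2 := mul_le_mul_of_nonneg_right (le_abs_self L) hs0
        _ ≤ |L| * (r * ‖w.1 - ξ‖ ^ 2) := mul_le_mul_of_nonneg_left hsum (abs_nonneg L)
    calc R ^ 2 * qf A (w.1 - ξ) ≤ R ^ 2 * (|L| * (r * ‖w.1 - ξ‖ ^ 2)) :=
          mul_le_mul_of_nonneg_left h5 hR2.le
      _ = r * |L| * (R * ‖w.1 - ξ‖) ^ 2 := by ring
      _ ≤ r * |L| * b ^ 2 := by
          apply mul_le_mul_of_nonneg_left _ (by positivity)
          exact pow_le_pow_left₀ (by positivity) h1 2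
  rw [Prod.norm_def]
  apply max_le
  · simp only
    rw [norm_neg, norm_smul, Real.norm_eq_abs, abs_of_pos hR]
    have := le_abs_self b
    linarith
  · simp only
    rw [norm_neg, Real.norm_eq_abs, abs_mul, abs_of_pos hR2]
    calc R ^ 2 * |w.2 - qf A w.1 + qf A (w.1 - ξ)|
        ≤ R ^ 2 * (|w.2 - qf A w.1| + |qf A (w.1 - ξ)|) :=
          mul_le_mul_of_nonneg_left (abs_add_le _ _) hR2.le
      _ = R ^ 2 * |w.2 - qf A w.1| + R ^ 2 * qf A (w.1 - ξ) := by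
          rw [abs_of_nonneg hq0]
          ring
      _ ≤ |b| + r * |L| * b ^ 2 := by
          have := le_abs_self b
          linarith

end W_LT

open W_LT in
theorem t_LT (h1 : Stmt_F) (h2 : Stmt_J) (h3 : Stmt_CV) : Stmt_LT := by
  intro r s a b l L hs ha hl
  have hr : (0 : ℝ) ≤ r := Nat.cast_nonneg r
  obtain ⟨Φ, C, hC, hΦc, hΦb, hΦ1⟩ := h1 r (2 * a + r + 2) (|b| + r * |L| * b ^ 2) (by linarith)
  have hM := mass_lt_top (r := r) (a₁ := 2 * a + r + 2) (C := C) (by linarith) hC hΦb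
  set M := ∫⁻ x, ‖Φ x‖ₑ with hMdef
  have hMs : M ^ (s - 1) ≠ ∞ := ENNReal.rpow_ne_top_of_nonneg (by linarith) hM.ne
  refine ⟨(M ^ (s - 1)).toReal * C + 1, by positivity, ?_⟩
  intro R A ξ F hR hA hF z
  set v : Fin r → ℝ := (2 : ℝ) • (A *ᵥ ξ) with hv
  set K : X r → ℂ := fun u => ((R ^ (-((r : ℝ) + 2)) : ℝ) : ℂ) * Φ (T R v u) with hK
  have hKc : Continuous K := continuous_const.mul (hΦc.comp (continuous_T R v))
  have hKm : ∫⁻ u, ‖K u‖ₑ = M := mass_eq h3 hR v hΦc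
  have hKi : Integrable K := by
    refine ⟨hKc.aestronglyMeasurable, ?_⟩
    show ∫⁻ u, ‖K u‖ₑ < ∞
    rw [hKm]
    exact hM
  have hK1 : ∀ w ∈ Box A b R ξ, ∫ y, K y * ee (pr (((ξ, qf A ξ) : X r) - w) y) = 1 := by
    intro w hw
    set w' : X r := (-(R • (w.1 - ξ)), -(R ^ 2 * (w.2 - qf A w.1 + qf A (w.1 - ξ)))) with hw'
    have e1 : ∀ y : X r, K y * ee (pr (((ξ, qf A ξ) : X r) - w) y)
        = ((R ^ (-((r : ℝ) + 2)) : ℝ) : ℂ) *
          (fun x : X r => Φ x * ee (pr w' x)) (T R v y) := by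
      intro y
      rw [pr_eq hR hA.symm ξ w y]
      simp only [hK]
      ring
    simp_rw [e1]
    rw [int_eq h3 hR v (Ψ := fun x : X r => Φ x * ee (pr w' x))
      (hΦc.mul (continuous_ee_pr w'))]
    exact hΦ1 w' (norm_freq hR hl hA ξ hw)
  have hmain := h2 r s K (ξ, qf A ξ) (Box A b R ξ) F hs hKc hKi hK1 hF z
  rw [hKm] at hmain
  refine hmain.trans ?_
  calc M ^ (s - 1) * ∫⁻ y, pw s F y * ‖K (z - y)‖ₑ
      ≤ M ^ (s - 1) * ∫⁻ y, ENNReal.ofReal C * (pw s F y * wT R a v (z - y)) := by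
        apply mul_le_mul' le_rfl
        apply lintegral_mono
        intro y
        show pw s F y * ‖K (z - y)‖ₑ ≤ ENNReal.ofReal C * (pw s F y * wT R a v (z - y))
        calc pw s F y * ‖K (z - y)‖ₑ ≤ pw s F y * (ENNReal.ofReal C * wT R a v (z - y)) :=
              mul_le_mul' le_rfl (kernel_le hR ha (by linarith) hC v hΦb (z - y))
          _ = ENNReal.ofReal C * (pw s F y * wT R a v (z - y)) := by ring
    _ = M ^ (s - 1) * (ENNReal.ofReal C * avT R a v (pw s F) z) := by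
        rw [lintegral_const_mul' _ _ ENNReal.ofReal_ne_top]
        rfl
    _ = ENNReal.ofReal ((M ^ (s - 1)).toReal * C) * avT R a v (pw s F) z := by
        rw [ENNReal.ofReal_mul ENNReal.toReal_nonneg, ENNReal.ofReal_toReal hMs]
        ring
    _ ≤ ENNReal.ofReal ((M ^ (s - 1)).toReal * C + 1) * avT R a v (pw s F) z := by
        apply mul_le_mul' _ le_rfl
        exact ENNReal.ofReal_le_ofReal (by linarith)

end DEC
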