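import Pool.Agent.DEC.StmtsW

/-!
# l^2 decoupling, block W: almost orthogonality for a fixed kernel
-/

open MeasureTheory
open scoped ENNReal Matrix

namespace DEC

namespace W_O0

variable {r : ℕ}

/-- integrability of products of bounded continuous functions and `G` -/
theorem integ {G : X r → ℝ} (hG : Integrable G) {f : X r → ℂ} (hf : Continuous f) {B : ℝ}
    (hB : ∀ z, ‖f z‖ ≤ B) : Integrable fun z => f z * (G z : ℂ) := by
  refine Integrable.mono' (hG.norm.const_mul B) ?_ ?_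
  · exact hf.aestronglyMeasurable.mul hG.ofReal.aestronglyMeasurable
  · refine Filter.Eventually.of_forall fun z => ?_
    rw [norm_mul, Complex.norm_real]
    exact mul_le_mul_of_nonneg_right (hB z) (norm_nonneg _)

theorem integR {G : X r → ℝ} (hG : Integrable G) {f : X r → ℝ} (hf : Continuous f) {B : ℝ}
    (hB : ∀ z, ‖f z‖ ≤ B) : Integrable fun z => f z * G z := by
  refine Integrable.mono' (hG.norm.const_mul B) ?_ ?_
  · exact hf.aestronglyMeasurable.mul hG.aestronglyMeasurable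
  · refine Filter.Eventually.of_forall fun z => ?_
    rw [norm_mul]
    exact mul_le_mul_of_nonneg_right (hB z) (norm_nonneg _)

theorem conj_cont {f : X r → ℂ} (hf : Continuous f) :
    Continuous fun z => (starRingEnd ℂ) (f z) := Complex.continuous_conj.comp hf

/-- the mixed integral vanishes -/
theorem mixed_zero {G : X r → ℝ} (hG : Integrable G) {F H : X r → ℂ} {S T : Set (X r)}
    (hF : Trig F S) (hH : Trig H T)
    (h : ∀ x ∈ S, ∀ y ∈ T, ∫ z, (G z : ℂ) * ee (pr (x - y) z) = 0) :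
    ∫ z, F z * (starRingEnd ℂ) (H z) * (G z : ℂ) = 0 := by
  obtain ⟨m, a, w, hw, hFe⟩ := hF
  obtain ⟨n, b, v, hv, hHe⟩ := hH
  have e : ∀ z, F z * (starRingEnd ℂ) (H z) * (G z : ℂ) =
      ∑ i, ∑ j, a i * (starRingEnd ℂ) (b j) * ((G z : ℂ) * ee (pr (w i - v j) z)) := by
    intro z
    rw [hFe, hHe, map_sum (starRingEnd ℂ), Finset.sum_mul_sum, Finset.sum_mul]
    refine Finset.sum_congr rfl fun i _ => ?_
    rw [Finset.sum_mul]
    refine Finset.sum_congr rfl fun j _ => ?_
    rw [map_mul (starRingEnd ℂ), pr_sub_left, ee_sub]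
    ring
  have hint : ∀ q : X r, Integrable fun z => (G z : ℂ) * ee (pr q z) := by
    intro q
    have h1 := integ hG (continuous_ee_pr q) (B := 1) (fun z => (norm_ee _).le)
    refine h1.congr (Filter.Eventually.of_forall fun z => ?_)
    exact mul_comm _ _
  simp only [e]
  rw [integral_finsetSum _ fun i _ => integrable_finsetSum _ fun j _ => (hint _).const_mul _]
  refine Finset.sum_eq_zero fun i _ => ?_
  rw [integral_finsetSum _ fun j _ => (hint _).const_mul _]
  refine Finset.sum_eq_zero fun j _ => ?_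
  rw [integral_const_mul, h _ (hw i) _ (hv j), mul_zero]

/-- the lower integral and the integral -/
theorem lint_eq {G : X r → ℝ} (hG0 : ∀ x, 0 ≤ G x) (hG : Integrable G) {F : X r → ℂ}
    (hF : Continuous F) {B : ℝ} (hB : ∀ z, ‖F z‖ ≤ B) :
    ∫⁻ z, pw 2 F z * ENNReal.ofReal (G z) = ENNReal.ofReal (∫ z, ‖F z‖ ^ 2 * G z) := by
  have hint : Integrable fun z => ‖F z‖ ^ 2 * G z := by
    refine integR hG (by fun_prop) (B := B ^ 2) fun z => ?_
    rw [norm_pow, norm_norm]
    exact pow_le_pow_left₀ (norm_nonneg _) (hB z) 2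
  rw [ofReal_integral_eq_lintegral_ofReal hint (Filter.Eventually.of_forall fun z =>
    mul_nonneg (sq_nonneg _) (hG0 z))]
  refine lintegral_congr fun z => ?_
  rw [ENNReal.ofReal_mul (sq_nonneg _)]
  congr 1
  unfold pw
  rw [← ofReal_norm, ENNReal.ofReal_rpow_of_nonneg (norm_nonneg _) (by norm_num)]
  congr 1
  norm_cast

end W_O0

open W_O0 in
theorem t_O0 : Stmt_O0 := by
  classical
  intro r m G hGc hG0 hG ι S F fr htr hT
  choose! T hTm hT using hT
  have hc : ∀ i ∈ S, Continuous (F i) := fun i hi => (htr i hi).continuous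
  have hbd : ∀ i, ∃ B : ℝ, i ∈ S → 0 ≤ B ∧ ∀ z, ‖F i z‖ ≤ B := by
    intro i
    by_cases hi : i ∈ S
    · obtain ⟨B, h⟩ := (htr i hi).bounded
      exact ⟨B, fun _ => h⟩
    · exact ⟨0, fun h => absurd h hi⟩
  choose B hB using hbd
  set A : ι → ℝ := fun i => ∫ z, ‖F i z‖ ^ 2 * G z with hA
  set I : ι → ι → ℂ := fun i j => ∫ z, F i z * (starRingEnd ℂ) (F j z) * (G z : ℂ) with hI
  have hintA : ∀ i ∈ S, Integrable fun z => ‖F i z‖ ^ 2 * G z := by
    intro i hi
    refine integR hG ((hc i hi).norm.pow 2) (B := B i ^ 2) fun z => ?_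
    rw [norm_pow, norm_norm]
    exact pow_le_pow_left₀ (norm_nonneg _) ((hB i hi).2 z) 2
  have hintI : ∀ i ∈ S, ∀ j ∈ S, Integrable fun z => F i z * (starRingEnd ℂ) (F j z) * (G z : ℂ) := by
    intro i hi j hj
    refine integ hG ((hc i hi).mul (conj_cont (hc j hj))) (B := B i * B j) fun z => ?_
    rw [norm_mul, RCLike.norm_conj]
    exact mul_le_mul ((hB i hi).2 z) ((hB j hj).2 z) (norm_nonneg _) (hB i hi).1
  have hA0 : ∀ i, 0 ≤ A i := fun i => integral_nonneg fun z => mul_nonneg (sq_nonneg _) (hG0 z)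
  -- the vanishing integrals
  have hI1 : ∀ i ∈ S, ∀ j ∈ S, j ∉ T i → I i j = 0 := fun i hi j hj hjT =>
    mixed_zero hG (htr i hi) (htr j hj) (hT i hi j hj hjT)
  have hI2 : ∀ i ∈ S, ∀ j ∈ S, i ∉ T j → I i j = 0 := by
    intro i hi j hj hiT
    have h1 := hI1 j hj i hi hiT
    have h2 : I i j = (starRingEnd ℂ) (I j i) := by
      simp only [hI]
      rw [← integral_conj]
      refine integral_congr_ae (Filter.Eventually.of_forall fun z => ?_)
      beta_reduce
      rw [map_mul (starRingEnd ℂ), map_mul (starRingEnd ℂ), Complex.conj_conj,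
        Complex.conj_ofReal, mul_comm ((starRingEnd ℂ) (F j z))]
    rw [h2, h1, map_zero]
  -- the bound
  have hI3 : ∀ i ∈ S, ∀ j ∈ S, (I i j).re ≤ A i / 2 + A j / 2 := by
    intro i hi j hj
    have h1 : (I i j).re = ∫ z, (F i z * (starRingEnd ℂ) (F j z) * (G z : ℂ)).re :=
      (integral_re (hintI i hi j hj)).symm
    have h2 : A i / 2 + A j / 2 = ∫ z, (‖F i z‖ ^ 2 * G z / 2 + ‖F j z‖ ^ 2 * G z / 2) := by
      rw [integral_add ((hintA i hi).div_const 2) ((hintA j hj).div_const 2),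
        integral_div, integral_div]
    rw [h1, h2]
    refine integral_mono (hintI i hi j hj).re
      (((hintA i hi).div_const 2).add ((hintA j hj).div_const 2)) fun z => ?_
    beta_reduce
    have h3 : (F i z * (starRingEnd ℂ) (F j z) * (G z : ℂ)).re =
        (F i z * (starRingEnd ℂ) (F j z)).re * G z := by
      rw [Complex.mul_re, Complex.ofReal_re, Complex.ofReal_im, mul_zero, sub_zero]
    have h4 : (F i z * (starRingEnd ℂ) (F j z)).re ≤ ‖F i z‖ * ‖F j z‖ := by
      have := Complex.re_le_norm (F i z * (starRingEnd ℂ) (F j z))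
      rwa [norm_mul, RCLike.norm_conj] at this
    have h5 : ‖F i z‖ * ‖F j z‖ ≤ (‖F i z‖ ^ 2 + ‖F j z‖ ^ 2) / 2 := by
      nlinarith [sq_nonneg (‖F i z‖ - ‖F j z‖)]
    have h6 := mul_le_mul_of_nonneg_right (h4.trans h5) (hG0 z)
    have h7 : (RCLike.re (F i z * (starRingEnd ℂ) (F j z) * (G z : ℂ)) : ℝ) =
        (F i z * (starRingEnd ℂ) (F j z) * (G z : ℂ)).re := rfl
    rw [h3]
    linarith
  -- the sum
  have hsum : ∫ z, ‖∑ i ∈ S, F i z‖ ^ 2 * G z = ∑ i ∈ S, ∑ j ∈ S, (I i j).re := by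
    have h1 : ∀ z, ((‖∑ i ∈ S, F i z‖ ^ 2 * G z : ℝ) : ℂ) =
        ∑ i ∈ S, ∑ j ∈ S, F i z * (starRingEnd ℂ) (F j z) * (G z : ℂ) := by
      intro z
      have h2 : ((‖∑ i ∈ S, F i z‖ ^ 2 : ℝ) : ℂ) =
          (∑ i ∈ S, F i z) * (starRingEnd ℂ) (∑ i ∈ S, F i z) := by
        rw [Complex.mul_conj, Complex.normSq_eq_norm_sq]
      rw [Complex.ofReal_mul, h2, map_sum (starRingEnd ℂ), Finset.sum_mul_sum, Finset.sum_mul]
      exact Finset.sum_congr rfl fun i _ => by rw [Finset.sum_mul]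
    have h2 : ((∫ z, ‖∑ i ∈ S, F i z‖ ^ 2 * G z : ℝ) : ℂ) = ∑ i ∈ S, ∑ j ∈ S, I i j := by
      rw [← integral_complex_ofReal]
      simp only [h1]
      rw [integral_finsetSum _ fun i hi => integrable_finsetSum _ fun j hj => hintI i hi j hj]
      refine Finset.sum_congr rfl fun i hi => ?_
      rw [integral_finsetSum _ fun j hj => hintI i hi j hj]
    have h3 := congrArg Complex.re h2
    rw [Complex.ofReal_re, Complex.re_sum] at h3
    rw [h3]
    exact Finset.sum_congr rfl fun i _ => Complex.re_sum _ _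
  have hreal : ∫ z, ‖∑ i ∈ S, F i z‖ ^ 2 * G z ≤ m * ∑ i ∈ S, A i := by
    rw [hsum]
    have h1 : ∀ i ∈ S, ∀ j ∈ S, (I i j).re ≤
        (if j ∈ T i then A i / 2 else 0) + if i ∈ T j then A j / 2 else 0 := by
      intro i hi j hj
      by_cases h2 : j ∈ T i
      · by_cases h3 : i ∈ T j
        · rw [if_pos h2, if_pos h3]
          exact hI3 i hi j hj
        · rw [hI2 i hi j hj h3, if_pos h2, if_neg h3, Complex.zero_re, add_zero]
          exact div_nonneg (hA0 i) (by norm_num)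
      · rw [hI1 i hi j hj h2, if_neg h2, Complex.zero_re, zero_add]
        split_ifs
        · exact div_nonneg (hA0 j) (by norm_num)
        · exact le_rfl
    have h2 : ∀ i ∈ S, ∑ j ∈ S, (if j ∈ T i then A i / 2 else 0) ≤ m * (A i / 2) := by
      intro i hi
      rw [← Finset.sum_filter, Finset.sum_const, nsmul_eq_mul]
      refine mul_le_mul_of_nonneg_right ?_ (div_nonneg (hA0 i) (by norm_num))
      have h3 : (S.filter fun j => j ∈ T i).card ≤ (T i).card :=
        Finset.card_le_card fun j hj => (Finset.mem_filter.1 hj).2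
      exact_mod_cast h3.trans (hTm i hi)
    calc ∑ i ∈ S, ∑ j ∈ S, (I i j).re
        ≤ ∑ i ∈ S, ∑ j ∈ S, ((if j ∈ T i then A i / 2 else 0) + if i ∈ T j then A j / 2 else 0) :=
          Finset.sum_le_sum fun i hi => Finset.sum_le_sum fun j hj => h1 i hi j hj
      _ = ∑ i ∈ S, ∑ j ∈ S, (if j ∈ T i then A i / 2 else 0) +
          ∑ j ∈ S, ∑ i ∈ S, (if i ∈ T j then A j / 2 else 0) := by
          simp only [Finset.sum_add_distrib]
          congr 1
          exact Finset.sum_comm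
      _ ≤ ∑ i ∈ S, m * (A i / 2) + ∑ j ∈ S, m * (A j / 2) :=
          add_le_add (Finset.sum_le_sum h2) (Finset.sum_le_sum h2)
      _ = m * ∑ i ∈ S, A i := by
          rw [← Finset.sum_add_distrib, Finset.mul_sum]
          exact Finset.sum_congr rfl fun i _ => by ring
  -- back to lower integrals
  have hcs : Continuous fun y => ∑ i ∈ S, F i y := continuous_finsetSum _ hc
  have hbs : ∀ z, ‖∑ i ∈ S, F i z‖ ≤ ∑ i ∈ S, B i := fun z =>
    (norm_sum_le _ _).trans (Finset.sum_le_sum fun i hi => (hB i hi).2 z)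
  rw [lint_eq hG0 hG hcs hbs]
  have h1 : ∀ i ∈ S, ∫⁻ z, pw 2 (F i) z * ENNReal.ofReal (G z) = ENNReal.ofReal (A i) :=
    fun i hi => lint_eq hG0 hG (hc i hi) (hB i hi).2
  rw [Finset.sum_congr rfl h1, ← ENNReal.ofReal_sum_of_nonneg fun i _ => hA0 i,
    ← ENNReal.ofReal_natCast, ← ENNReal.ofReal_mul (Nat.cast_nonneg _)]
  exact ENNReal.ofReal_le_ofReal hreal

end DEC
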