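import Pool.Agent.DEC.StmtsW

/-!
# Module DEC_W_ORTH: local orthogonality
-/

open MeasureTheory
open scoped ENNReal Matrix

namespace DEC

namespace W_ORTH

variable {r : ℕ}

/-- Tonelli. -/
lemma swap {K : X r × X r → ℝ≥0∞} {f w : X r → ℝ≥0∞} (hK : Measurable K) (hf : Measurable f)
    (hw : Measurable w) :
    ∫⁻ y, f y * ∫⁻ z, K (z, y) * w z = ∫⁻ z, w z * ∫⁻ y, f y * K (z, y) := by
  have hm : Measurable fun p : X r × X r => f p.1 * (K (p.2, p.1) * w p.2) :=
    (hf.comp measurable_fst).mul ((hK.comp (measurable_snd.prodMk measurable_fst)).mul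
      (hw.comp measurable_snd))
  have h1 : ∀ y, f y * ∫⁻ z, K (z, y) * w z = ∫⁻ z, f y * (K (z, y) * w z) := by
    intro y
    rw [lintegral_const_mul]
    exact (hK.comp (measurable_id.prodMk measurable_const)).mul hw
  have h2 : ∀ z, w z * ∫⁻ y, f y * K (z, y) = ∫⁻ y, f y * (K (z, y) * w z) := by
    intro z
    rw [← lintegral_const_mul]
    · refine lintegral_congr fun y => ?_
      ring
    · exact hf.mul (hK.comp (measurable_const.prodMk measurable_id))
  simp only [h1, h2]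
  exact lintegral_lintegral_swap hm.aemeasurable

/-- The kernel centred at `z`. -/
noncomputable def ker (G : X r → ℝ) (R : ℝ) (z y : X r) : ℝ :=
  R ^ (-((r : ℝ) + 1)) * G (R⁻¹ • (z - y))

lemma ker_continuous {G : X r → ℝ} (hG : Continuous G) (R : ℝ) (z : X r) :
    Continuous (ker G R z) := by
  unfold ker
  exact continuous_const.mul (hG.comp (by fun_prop))

lemma ker_integrable {G : X r → ℝ} (hG : Integrable G) {R : ℝ} (hR : 0 < R) (z : X r) :
    Integrable (ker G R z) := by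
  unfold ker
  have h1 : Integrable fun u : X r => G (R⁻¹ • u) := hG.comp_smul (inv_ne_zero hR.ne')
  have h2 : Integrable fun y : X r => G (R⁻¹ • (z - y)) := h1.comp_sub_left z
  exact h2.const_mul _

lemma ker_vanish {G : X r → ℝ} {R : ℝ} (hR : 0 < R)
    (hG : ∀ w : X r, 1 ≤ ‖w‖ → ∫ x, (G x : ℂ) * ee (pr w x) = 0) (z v : X r)
    (hv : 1 / R < ‖v‖) : ∫ y, (ker G R z y : ℂ) * ee (pr v y) = 0 := by
  set h : X r → ℂ := fun u => (G u : ℂ) * ee (pr (-(R • v)) u) with hh
  have h0 : ∫ u, h u = 0 := by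
    refine hG _ ?_
    rw [norm_neg, norm_smul, Real.norm_of_nonneg hR.le]
    rw [div_lt_iff₀ hR] at hv
    linarith [mul_comm ‖v‖ R]
  have h1 : ∀ y, (ker G R z y : ℂ) * ee (pr v y) =
      ((R ^ (-((r : ℝ) + 1)) : ℝ) : ℂ) * ee (pr v z) * h (R⁻¹ • (z - y)) := by
    intro y
    have h2 : pr (-(R • v)) (R⁻¹ • (z - y)) = -(pr v (z - y)) := by
      rw [pr_neg_left, pr_smul_left, pr_smul_right, ← mul_assoc, mul_inv_cancel₀ hR.ne', one_mul]
    have h3 : ee (pr v y) = ee (pr v z) * ee (-(pr v (z - y))) := by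
      rw [← ee_add]
      congr 1
      rw [pr_sub_right]
      ring
    rw [hh, h3]
    simp only [h2]
    unfold ker
    push_cast
    ring
  simp only [h1]
  rw [integral_const_mul]
  have h4 : ∫ y, h (R⁻¹ • (z - y)) = ∫ u, h (R⁻¹ • u) :=
    integral_sub_left_eq_self (fun u => h (R⁻¹ • u)) volume z
  rw [h4, Measure.integral_comp_smul, h0, smul_zero, mul_zero]

end W_ORTH

open W_ORTH in
theorem t_ORTH (h1 : Stmt_WTB) (h2 : Stmt_G) (h3 : Stmt_KW) (h4 : Stmt_O0) : Stmt_ORTH := by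
  intro r m E hE
  have hr : (0 : ℝ) ≤ r := Nat.cast_nonneg r
  obtain ⟨G, C₀, hC₀, hGc, hG0, hG1, hGb, hGv⟩ := h2 r (E + r + 2) (by linarith)
  obtain ⟨C₁, hC₁, hKW⟩ := h3 r E (E + r + 2) (max C₀ 1) hE (by linarith)
    (lt_max_of_lt_right one_pos)
  have hKW' := hKW G hGc hG0 (fun x hx => ?_) (fun x => ?_)
  · have hGint : Integrable G := by
      have h5 : Integrable fun x : X r => (1 + ‖x‖) ^ (-(E + r + 2)) :=
        integrable_one_add_norm (by rw [finrank_X]; push_cast; linarith)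
      refine (h5.const_mul C₀).mono' hGc.aestronglyMeasurable (ae_of_all _ fun x => ?_)
      rw [Real.norm_of_nonneg (hG0 x)]
      exact hGb x
    refine ⟨C₁ * C₁ * (m + 1), by positivity, fun R hR ι S F fr hF hfr w hw => ?_⟩
    have hwm : Measurable w := ((h1 r R E hR hE).1 w hw).1
    have hk := hKW' R w hR hw
    set K : X r × X r → ℝ≥0∞ := fun p => ENNReal.ofReal (ker G R p.1 p.2) with hKdef
    have hKm : Measurable K := by
      refine ENNReal.measurable_ofReal.comp (Continuous.measurable ?_)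
      unfold ker
      exact continuous_const.mul (hGc.comp (by fun_prop))
    have hkl : ∀ y, w y ≤ ENNReal.ofReal C₁ * ∫⁻ z, K (z, y) * w z := fun y => (hk y).1
    have hku : ∀ y, ∫⁻ z, K (z, y) * w z ≤ ENNReal.ofReal C₁ * w y := fun y => (hk y).2
    have hlow : ∀ f : X r → ℝ≥0∞, Measurable f →
        ∫⁻ y, f y * w y ≤ ENNReal.ofReal C₁ * ∫⁻ z, w z * ∫⁻ y, f y * K (z, y) := by
      intro f hf
      rw [← swap hKm hf hwm, ← lintegral_const_mul' _ _ ENNReal.ofReal_ne_top]
      refine lintegral_mono fun y => ?_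
      show f y * w y ≤ ENNReal.ofReal C₁ * (f y * _)
      rw [mul_left_comm]
      exact mul_le_mul' le_rfl (hkl y)
    have hup : ∀ f : X r → ℝ≥0∞, Measurable f →
        ∫⁻ z, w z * ∫⁻ y, f y * K (z, y) ≤ ENNReal.ofReal C₁ * ∫⁻ y, f y * w y := by
      intro f hf
      rw [← swap hKm hf hwm, ← lintegral_const_mul' _ _ ENNReal.ofReal_ne_top]
      refine lintegral_mono fun y => ?_
      show f y * _ ≤ ENNReal.ofReal C₁ * (f y * w y)
      rw [mul_left_comm]
      exact mul_le_mul' le_rfl (hku y)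
    have hFm : ∀ i ∈ S, Measurable (pw 2 (F i)) := fun i hi => (hF i hi).measurable_pw 2
    have hsum : Measurable (pw 2 fun y => ∑ i ∈ S, F i y) :=
      measurable_pw_of_continuous (continuous_finsetSum _ fun i hi => (hF i hi).continuous) 2
    have hmain : ∀ z, ∫⁻ y, pw 2 (fun y => ∑ i ∈ S, F i y) y * K (z, y) ≤
        (m : ℝ≥0∞) * ∑ i ∈ S, ∫⁻ y, pw 2 (F i) y * K (z, y) := by
      intro z
      refine h4 r m (ker G R z) (ker_continuous hGc R z) (fun x => ?_)
        (ker_integrable hGint hR z) ι S F fr hF fun i hi => ?_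
      · exact mul_nonneg (Real.rpow_nonneg hR.le _) (hG0 _)
      · obtain ⟨T, hT1, hT2⟩ := hfr i hi
        exact ⟨T, hT1, fun j hj hjT x hx y hy => ker_vanish hR hGv z (x - y) (hT2 j hj hjT x hx y hy)⟩
    have hKz : ∀ z, Measurable fun y => K (z, y) := fun z =>
      hKm.comp (measurable_const.prodMk measurable_id)
    have hint : ∀ i ∈ S, Measurable fun z => w z * ∫⁻ y, pw 2 (F i) y * K (z, y) := by
      intro i hi
      refine hwm.mul ?_
      refine Measurable.lintegral_prod_right' (f := fun p : X r × X r => pw 2 (F i) p.2 * K p) ?_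
      exact ((hFm i hi).comp measurable_snd).mul hKm
    calc ∫⁻ z, pw 2 (fun y => ∑ i ∈ S, F i y) z * w z
        ≤ ENNReal.ofReal C₁ *
          ∫⁻ z, w z * ∫⁻ y, pw 2 (fun y => ∑ i ∈ S, F i y) y * K (z, y) := hlow _ hsum
      _ ≤ ENNReal.ofReal C₁ * ∫⁻ z, w z * ((m : ℝ≥0∞) * ∑ i ∈ S, ∫⁻ y, pw 2 (F i) y * K (z, y)) :=
          mul_le_mul' le_rfl (lintegral_mono fun z => mul_le_mul' le_rfl (hmain z))
      _ = ENNReal.ofReal C₁ * ((m : ℝ≥0∞) *
            ∑ i ∈ S, ∫⁻ z, w z * ∫⁻ y, pw 2 (F i) y * K (z, y)) := by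
          congr 1
          rw [← lintegral_finsetSum' _ fun i hi => (hint i hi).aemeasurable,
            ← lintegral_const_mul' _ _ (ENNReal.natCast_ne_top m)]
          refine lintegral_congr fun z => ?_
          rw [Finset.mul_sum, Finset.mul_sum, Finset.mul_sum]
          exact Finset.sum_congr rfl fun i _ => by ring
      _ ≤ ENNReal.ofReal C₁ * ((m : ℝ≥0∞) *
            ∑ i ∈ S, ENNReal.ofReal C₁ * ∫⁻ z, pw 2 (F i) z * w z) :=
          mul_le_mul' le_rfl (mul_le_mul' le_rfl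
            (Finset.sum_le_sum fun i hi => hup _ (hFm i hi)))
      _ ≤ ENNReal.ofReal (C₁ * C₁ * (m + 1)) * ∑ i ∈ S, ∫⁻ z, pw 2 (F i) z * w z := by
          rw [← Finset.mul_sum, ENNReal.ofReal_mul (by positivity), ENNReal.ofReal_mul hC₁.le]
          have h6 : (m : ℝ≥0∞) ≤ ENNReal.ofReal ((m : ℝ) + 1) := by
            rw [← ENNReal.ofReal_natCast]
            exact ENNReal.ofReal_le_ofReal (by linarith)
          calc ENNReal.ofReal C₁ * ((m : ℝ≥0∞) * (ENNReal.ofReal C₁ *
                ∑ i ∈ S, ∫⁻ z, pw 2 (F i) z * w z))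
              = ENNReal.ofReal C₁ * ENNReal.ofReal C₁ * (m : ℝ≥0∞) *
                ∑ i ∈ S, ∫⁻ z, pw 2 (F i) z * w z := by ring
            _ ≤ _ := mul_le_mul' (mul_le_mul' le_rfl h6) le_rfl
  · refine le_trans ?_ (hG1 x hx)
    rw [div_le_one (lt_max_of_lt_right one_pos)]
    exact le_max_right _ _
  · exact (hGb x).trans (mul_le_mul_of_nonneg_right (le_max_left _ _)
      (Real.rpow_nonneg (by positivity) _))

end DEC
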