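import Pool.Agent.DEC.StmtsW

/-!
# l^2 decoupling, block W: product kernels (DEC_W_PRD)
-/

open MeasureTheory
open scoped ENNReal Matrix

namespace DEC

namespace W_PRD

lemma ee_sum {ι : Type} (s : Finset ι) (a : ι → ℝ) : ee (∑ i ∈ s, a i) = ∏ i ∈ s, ee (a i) := by
  classical
  induction s using Finset.induction_on with
  | empty => simp [ee_zero]
  | insert i s hi ih => rw [Finset.sum_insert hi, Finset.prod_insert hi, ee_add, ih]

lemma ee_pr {r : ℕ} (w x : X r) :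
    ee (pr w x) = (∏ i, ee (w.1 i * x.1 i)) * ee (w.2 * x.2) := by
  unfold pr dotProduct
  rw [ee_add, ee_sum]

lemma continuous_prdK {r : ℕ} {f : ℝ → ℂ} (hf : Continuous f) :
    Continuous (prdK f : X r → ℂ) := by
  unfold prdK
  refine Continuous.mul (continuous_finsetProd _ fun i _ => ?_) (hf.comp continuous_snd)
  exact hf.comp ((continuous_apply i).comp continuous_fst)

/-- The elementary bound by one. -/
lemma rpow_neg_le_one {a t : ℝ} (ha : 0 ≤ a) (ht : 0 ≤ t) : (1 + t) ^ (-a) ≤ 1 :=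
  Real.rpow_le_one_of_one_le_of_nonpos (by linarith) (by linarith)

lemma bound {r : ℕ} {a C : ℝ} {f : ℝ → ℂ} (ha : 0 ≤ a) (hC : 1 ≤ C)
    (hf : ∀ t, ‖f t‖ ≤ C * (1 + |t|) ^ (-a)) (x : X r) :
    ‖prdK f x‖ ≤ C ^ (r + 1) * (1 + ‖x‖) ^ (-a) := by
  have hC0 : 0 ≤ C := le_trans zero_le_one hC
  have hle : ∀ t, ‖f t‖ ≤ C := fun t => by
    refine (hf t).trans ?_
    have := rpow_neg_le_one ha (abs_nonneg t)
    nlinarith
  unfold prdK
  rw [norm_mul, norm_prod]
  -- the coordinate which attains the norm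
  have hnorm : ‖x‖ = max ‖x.1‖ ‖x.2‖ := rfl
  rcases le_total ‖x.1‖ ‖x.2‖ with h | h
  · have hx : ‖x‖ = |x.2| := by rw [hnorm, max_eq_right h, Real.norm_eq_abs]
    rw [hx, pow_succ]
    have h1 : ∏ i, ‖f (x.1 i)‖ ≤ C ^ r := by
      calc ∏ i, ‖f (x.1 i)‖ ≤ ∏ _i : Fin r, C :=
            Finset.prod_le_prod (fun i _ => norm_nonneg _) fun i _ => hle _
        _ = C ^ r := by simp
    calc (∏ i, ‖f (x.1 i)‖) * ‖f x.2‖ ≤ C ^ r * (C * (1 + |x.2|) ^ (-a)) :=
          mul_le_mul h1 (hf _) (norm_nonneg _) (pow_nonneg hC0 _)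
      _ = C ^ r * C * (1 + |x.2|) ^ (-a) := by ring
  · rcases Nat.eq_zero_or_pos r with hr | hr
    · subst hr
      have h0 : ‖x.1‖ = 0 := by
        have : x.1 = 0 := Subsingleton.elim _ _
        rw [this, norm_zero]
      have h2 : ‖x.2‖ = 0 := le_antisymm (by rw [← h0]; exact h) (norm_nonneg _)
      have hx : ‖x‖ = |x.2| := by rw [hnorm, h0, h2, max_self, ← h2, Real.norm_eq_abs]
      rw [hx]
      simpa using hf x.2
    · have : Nonempty (Fin r) := ⟨⟨0, hr⟩⟩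
      obtain ⟨j, hj⟩ : ∃ j : Fin r, ‖x.1‖ = ‖x.1 j‖ := by
        obtain ⟨j, hj⟩ := Finite.exists_max fun j : Fin r => ‖x.1 j‖
        refine ⟨j, le_antisymm ?_ (norm_le_pi_norm _ _)⟩
        exact (pi_norm_le_iff_of_nonneg (norm_nonneg _)).2 hj
      have hx : ‖x‖ = |x.1 j| := by rw [hnorm, max_eq_left h, hj, Real.norm_eq_abs]
      rw [hx]
      classical
      rw [← Finset.mul_prod_erase Finset.univ _ (Finset.mem_univ j)]
      have h1 : ∏ i ∈ Finset.univ.erase j, ‖f (x.1 i)‖ ≤ C ^ (r - 1) := by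
        calc ∏ i ∈ Finset.univ.erase j, ‖f (x.1 i)‖ ≤ ∏ _i ∈ Finset.univ.erase j, C :=
              Finset.prod_le_prod (fun i _ => norm_nonneg _) fun i _ => hle _
          _ = C ^ (r - 1) := by simp
      have hCr : C ^ (r + 1) = C * C ^ (r - 1) * C := by
        obtain ⟨k, rfl⟩ : ∃ k, r = k + 1 := ⟨r - 1, by omega⟩
        simp only [Nat.add_sub_cancel]
        ring
      have hp : (0:ℝ) ≤ (1 + |x.1 j|) ^ (-a) := Real.rpow_nonneg (by positivity) _
      calc ‖f (x.1 j)‖ * (∏ i ∈ Finset.univ.erase j, ‖f (x.1 i)‖) * ‖f x.2‖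
          ≤ (C * (1 + |x.1 j|) ^ (-a)) * C ^ (r - 1) * C := by
            refine mul_le_mul (mul_le_mul (hf _) h1 ?_ ?_) (hle _) (norm_nonneg _) ?_
            · exact Finset.prod_nonneg fun i _ => norm_nonneg _
            · positivity
            · positivity
        _ = C ^ (r + 1) * (1 + |x.1 j|) ^ (-a) := by rw [hCr]; ring

lemma integral {r : ℕ} (f : ℝ → ℂ) (w : X r) :
    ∫ x : X r, prdK f x * ee (pr w x)
      = (∏ i, ∫ t, f t * ee (w.1 i * t)) * ∫ t, f t * ee (w.2 * t) := by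
  have h1 : ∀ x : X r, prdK f x * ee (pr w x)
      = (∏ i, (f (x.1 i) * ee (w.1 i * x.1 i))) * (f x.2 * ee (w.2 * x.2)) := fun x => by
    rw [ee_pr, Finset.prod_mul_distrib]
    unfold prdK
    ring
  simp_rw [h1]
  rw [Measure.volume_eq_prod]
  rw [integral_prod_mul (fun y : Fin r → ℝ => ∏ i, (f (y i) * ee (w.1 i * y i)))
    (fun t : ℝ => f t * ee (w.2 * t))]
  rw [← integral_fintype_prod_volume_eq_prod (fun (i : Fin r) (t : ℝ) => f t * ee (w.1 i * t))]

end W_PRD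

/-- DEC_W_PRD. Product kernels. -/
theorem t_PRD : Stmt_PRD := by
  intro r a C f ha hC hf hb
  refine ⟨W_PRD.continuous_prdK hf, ⟨(max C 1) ^ (r + 1), by positivity, fun x => ?_⟩,
    fun w => W_PRD.integral f w⟩
  refine W_PRD.bound ha (le_max_right _ _) (fun t => (hb t).trans ?_) x
  exact mul_le_mul_of_nonneg_right (le_max_left _ _) (Real.rpow_nonneg (by positivity) _)

end DEC
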