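import Pool.Agent.DEC.WWTB
import Pool.Agent.DEC.WAVA
import Pool.Agent.DEC.WKW
import Pool.Agent.DEC.WAVB
import Pool.Agent.DEC.WG1
import Pool.Agent.DEC.WF1
import Pool.Agent.DEC.WPRD
import Pool.Agent.DEC.WG
import Pool.Agent.DEC.WF
import Pool.Agent.DEC.WJ
import Pool.Agent.DEC.WCV
import Pool.Agent.DEC.WBERN
import Pool.Agent.DEC.WLT
import Pool.Agent.DEC.WCT
import Pool.Agent.DEC.WLC
import Pool.Agent.DEC.WO0
import Pool.Agent.DEC.WORTH

/-!
# l^2 decoupling, block W: assembly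
-/

namespace DEC

theorem fWtBasic : Stmt_WtBasic := t_WTB

theorem fAVA : Stmt_AVA := t_AVA

theorem fKW : Stmt_KW := t_KW fAVA

theorem fAvBasic : Stmt_AvBasic := t_AVB fWtBasic fAVA fKW

theorem fPRD : Stmt_PRD := t_PRD

theorem fG : Stmt_G := t_G t_G1 fPRD

theorem fF : Stmt_F := t_F t_F1 fPRD

theorem fJ : Stmt_J := t_J

theorem fBern : Stmt_Bern := t_BERN fF fJ

theorem fLT : Stmt_LT := t_LT fF fJ t_CV

theorem fCT : Stmt_CT := t_CT fAVA

theorem fLC : Stmt_LC := t_LC fLT fCT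

theorem fOrth : Stmt_Orth := t_ORTH fWtBasic fG fKW t_O0

end DEC
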