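import Pool.Agent.DEC.K_Main
import Pool.Agent.DEC.WAsm
import Pool.Agent.DEC.BCnt
import Pool.Agent.DEC.BTriv
import Pool.Agent.DEC.BDetA
import Pool.Agent.DEC.BChV
import Pool.Agent.DEC.BPR
import Pool.Agent.DEC.BGeo
import Pool.Agent.DEC.BLin
import Pool.Agent.DEC.BPsi
import Pool.Agent.DEC.BCAlg
import Pool.Agent.DEC.BPRV
import Pool.Agent.DEC.BCyl1
import Pool.Agent.DEC.BCyl
import Pool.Agent.DEC.BDich
import Pool.Agent.DEC.BBro
import Pool.Agent.DEC.BLoc
import Pool.Agent.DEC.BBN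
import Pool.Agent.DEC.BDR
import Pool.Agent.DEC.COrthC
import Pool.Agent.DEC.CH0
import Pool.Agent.DEC.CUp
import Pool.Agent.DEC.CInt
import Pool.Agent.DEC.CLast
import Pool.Agent.DEC.CH1
import Pool.Agent.DEC.CH2
import Pool.Agent.DEC.CHS
import Pool.Agent.DEC.CGain
import Pool.Agent.DEC.CIt
import Pool.Agent.DEC.CMI
import Pool.Agent.DEC.CBNI6
import Pool.Agent.DEC.CMain

/-!
# l^2 decoupling for elliptic paraboloids in all dimensions

The theorem `decoupling` (Bourgain and Demeter) and its consequence `discrete_restriction`, both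
without hypotheses. `r` is the dimension of the frequency space, `2 ≤ p ≤ 2 + 4/r`; the constants
are uniform in all forms `A` with `l |η|^2 ≤ qf A η ≤ L |η|^2`.
-/

namespace DEC

/-! ### Blocks W and K -/

theorem m_WtBasic : Stmt_WtBasic := fWtBasic
theorem m_AvBasic : Stmt_AvBasic := fAvBasic
theorem m_Inf : Stmt_Inf := t_Inf fWtBasic

/-! ### Block B -/

theorem m_Triv : Stmt_Triv := t_Triv t_Cnt m_WtBasic
theorem m_PR : Stmt_PR := t_PR t_ChV m_WtBasic
theorem m_PRV : Stmt_PRV := t_PRV m_PR m_WtBasic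
theorem m_Cyl : Stmt_Cyl := t_Cyl t_Lin (t_Cyl1 (t_Psi t_ChV) t_CAlg m_PRV m_WtBasic) m_WtBasic
theorem m_Bro : Stmt_Bro := t_Bro fBern m_AvBasic
theorem m_Loc : Stmt_Loc := t_Loc t_Dich t_Geo m_Cyl m_Bro m_WtBasic
theorem m_BN : Stmt_BN := t_BN m_Loc m_PR m_AvBasic m_WtBasic

/-! ### Block C -/

theorem m_OrthC : Stmt_C_OrthC := t_OrthC fOrth
theorem m_Up : Stmt_C_Up := t_Up fLC m_Inf t_DetA m_AvBasic m_WtBasic
theorem m_CH1 : Stmt_C_CH1 := t_CH1 m_Up t_Int (t_Last m_AvBasic) m_OrthC m_WtBasic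
theorem m_MI : Stmt_MI :=
  t_MI (t_CH0 m_OrthC m_WtBasic m_AvBasic) m_CH1 (t_CH2 m_AvBasic t_Cnt m_WtBasic)
    (t_CHS m_PR) (t_It t_Gain)
theorem m_BNI : Stmt_BNI := t_BNI m_BN m_Triv

/-- **l^2 decoupling theorem for elliptic paraboloids**, all dimensions, `2 ≤ p ≤ 2 + 4/r`. -/
theorem decoupling : Stmt_Main := t_Main m_MI m_BNI m_Triv

/-- **Discrete restriction**, Strichartz estimates on all rational and irrational tori. -/
theorem discrete_restriction : Stmt_DR := t_DR decoupling m_AvBasic m_WtBasic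

end DEC
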