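import Pool.Agent.DEC.Defs

/-!
# l^2 decoupling: the interface between the blocks

* block W (weights, orthogonality, local constancy): helper76
* block K (multilinear Kakeya, inflation): helper80
* block B (rescaling, broad/narrow, discrete restriction): helper27
* block C (multiscale chain, final induction): helper6
-/

open MeasureTheory
open scoped ENNReal Matrix

namespace DEC

/-! ### The theorem -/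

/-- **Main theorem.** l^2 decoupling for elliptic paraboloids, `2 ≤ p ≤ 2 + 4/r`. -/
def Stmt_Main : Prop :=
  ∀ (r : ℕ) (p E l L b ε : ℝ), 2 ≤ p → p * r ≤ 2 * r + 4 → 0 ≤ E → 0 < l → 1 ≤ b → 0 < ε →
    ∃ C : ℝ, 0 < C ∧ ∀ N : ℝ, 1 ≤ N → Dec r p E l L b N (C * N ^ ε)

/-! ### Block W -/

/-- W1. Weights are measurable, monotone in the scale, and closed under the passage from
essentially constant up to the factor `B` to essentially constant. -/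
def Stmt_WtBasic : Prop :=
  ∀ (r : ℕ) (R E : ℝ), 0 < R → 0 ≤ E →
    (∀ w : X r → ℝ≥0∞, Wt R E w → Measurable w ∧
      ∀ ρ E' : ℝ, 0 < ρ → ρ ≤ R → E ≤ E' → Wt ρ E' w) ∧
    (∀ (w : X r → ℝ≥0∞) (B : ℝ), 1 ≤ B →
      (∀ x y, w x ≤ ENNReal.ofReal B * w y * ENNReal.ofReal ((1 + ‖x - y‖ / R) ^ E)) →
      ∃ w' : X r → ℝ≥0∞, Wt R E w' ∧ ∀ x, w x ≤ w' x ∧ w' x ≤ ENNReal.ofReal B * w x) ∧
    (∀ z : X r, Wt R E fun y => wt R E (z - y))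

/-- W2. The averages: mass, comparison of scales, change of the point, action on weights. -/
def Stmt_AvBasic : Prop :=
  (∀ (r : ℕ) (a : ℝ), (r : ℝ) + 1 < a → ∃ C : ℝ, 0 < C ∧ ∀ R : ℝ, 0 < R →
    ∫⁻ u : X r, wt R a u = ENNReal.ofReal C) ∧
  (∀ (r : ℕ) (a R R' : ℝ) (u : X r), 0 ≤ a → 0 < R → R ≤ R' →
    wt R a u ≤ ENNReal.ofReal ((R' / R) ^ ((r : ℝ) + 1)) * wt R' a u) ∧
  (∀ (r : ℕ) (a R : ℝ) (f : X r → ℝ≥0∞) (z z' : X r), 0 ≤ a → 0 < R →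
    av R a f z ≤ ENNReal.ofReal ((1 + ‖z - z'‖ / R) ^ a) * av R a f z') ∧
  (∀ (r : ℕ) (a E : ℝ), 0 ≤ E → E + r + 1 < a → ∃ C : ℝ, 0 < C ∧ ∀ (R : ℝ) (w : X r → ℝ≥0∞),
    0 < R → Wt R E w → ∀ f : X r → ℝ≥0∞, Measurable f →
      ∫⁻ z, av R a f z * w z ≤ ENNReal.ofReal C * ∫⁻ z, f z * w z ∧
      ∫⁻ z, f z * w z ≤ ENNReal.ofReal C * ∫⁻ z, av R a f z * w z)

/-- W3. Local `L^2` orthogonality: if the frequency set of every `F i` is at a distance `> 1/R`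
from those of all but `m` of the other functions. -/
def Stmt_Orth : Prop :=
  ∀ (r m : ℕ) (E : ℝ), 0 ≤ E → ∃ C : ℝ, 0 < C ∧ ∀ R : ℝ, 0 < R → ∀ (ι : Type) (S : Finset ι)
    (F : ι → X r → ℂ) (fr : ι → Set (X r)), (∀ i ∈ S, Trig (F i) (fr i)) →
    (∀ i ∈ S, ∃ T : Finset ι, T.card ≤ m ∧ ∀ j ∈ S, j ∉ T → ∀ x ∈ fr i, ∀ y ∈ fr j,
      1 / R < ‖x - y‖) →
    ∀ w : X r → ℝ≥0∞, Wt R E w →
      ∫⁻ z, pw 2 (fun y => ∑ i ∈ S, F i y) z * w z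
        ≤ ENNReal.ofReal C * ∑ i ∈ S, ∫⁻ z, pw 2 (F i) z * w z

/-- W4. Bernstein / local constancy on balls. -/
def Stmt_Bern : Prop :=
  ∀ (r : ℕ) (s a b : ℝ), 1 ≤ s → 0 ≤ a → ∃ C : ℝ, 0 < C ∧ ∀ (R : ℝ) (q : X r) (F : X r → ℂ),
    0 < R → Trig F {w | ‖w - q‖ ≤ b / R} →
      ∀ z, pw s F z ≤ ENNReal.ofReal C * av R a (pw s F) z

/-- W5. Local constancy on tubes. -/
def Stmt_LC : Prop :=
  ∀ (r : ℕ) (s a b l L V : ℝ), 1 ≤ s → 0 ≤ a → 0 < l → ∃ a' C : ℝ, 0 ≤ a' ∧ 0 < C ∧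
    ∀ (R : ℝ) (A : Matrix (Fin r) (Fin r) ℝ) (ξ : Fin r → ℝ) (F : X r → ℂ), 1 ≤ R → QF l L A →
      ‖ξ‖ ≤ V → Trig F (Box A b R ξ) →
      ∀ z, av R a' (pw s F) z ≤ ENNReal.ofReal C * avT R a ((2 : ℝ) • (A *ᵥ ξ)) (pw s F) z

/-! ### Block K -/

/-- K. Inflation of the averages from the scale `R` to the scale `R^2`. The weight exponent `a'`
must not depend on the transversality constant `ν` and on `ε`. -/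
def Stmt_Inf : Prop :=
  ∀ (r : ℕ) (p s a E V : ℝ), 1 ≤ r → 0 < p → 2 ≤ s → p * r ≤ s * (r + 1) → 0 ≤ a → 0 ≤ E →
    ∃ a' : ℝ, 0 ≤ a' ∧ ∀ ν ε : ℝ, 0 < ν → 0 < ε → ∃ C : ℝ, 0 < C ∧ ∀ R : ℝ, 1 ≤ R →
    ∀ (κ : Type) (J : Fin (r + 1) → Finset κ) (v : κ → Fin r → ℝ),
      (∀ k, ∀ j ∈ J k, ‖v j‖ ≤ V) →
      (∀ j : Fin (r + 1) → κ, (∀ k, j k ∈ J k) → ν ≤ |dt fun k => v (j k)|) →
      ∀ f : κ → X r → ℝ≥0∞, (∀ j, Measurable (f j)) → ∀ w : X r → ℝ≥0∞, Wt (R ^ 2) E w →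
        ∫⁻ z, (∏ k, (∑ j ∈ J k, avT R a' (v j) (f j) z ^ (2 / s))
            ^ (p / (2 * ((r : ℝ) + 1)))) * w z
          ≤ ENNReal.ofReal (C * R ^ ε) *
            ∫⁻ z, (∏ k, (∑ j ∈ J k, av (R ^ 2) a (f j) z ^ (2 / s))
              ^ (p / (2 * ((r : ℝ) + 1)))) * w z

/-! ### Block B -/

/-- B0. The number of `1/N`-separated points in a cube. -/
def Stmt_Cnt : Prop :=
  ∀ (r : ℕ) (N d : ℝ) (ι : Type) (S : Finset ι) (c : ι → Fin r → ℝ) (ξ : Fin r → ℝ), 0 < N →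
    0 ≤ d → (∀ i ∈ S, ∀ j ∈ S, i ≠ j → 1 / N ≤ ‖c i - c j‖) → (∀ i ∈ S, ‖c i - ξ‖ ≤ d) →
    (S.card : ℝ) ≤ (2 * d * N + 1) ^ r

/-- B1. The case `r = 0` and the trivial bound. -/
def Stmt_Triv : Prop :=
  (∀ p E l L b N : ℝ, 1 ≤ p → 0 < N → Dec 0 p E l L b N 1) ∧
  (∀ (r : ℕ) (p E l L b N : ℝ), 1 ≤ p → 0 ≤ E → 1 ≤ N → Dec r p E l L b N ((3 * N) ^ r)) ∧
  (∀ (r : ℕ) (p E l L b N D D' : ℝ), D ≤ D' → Dec r p E l L b N D → Dec r p E l L b N D')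

/-- B2. Parabolic rescaling. -/
def Stmt_PR : Prop :=
  ∀ (r : ℕ) (p E l L V : ℝ), 1 ≤ p → 0 ≤ E → 0 < l → ∃ C : ℝ, 0 < C ∧ ∀ b N ρ D : ℝ, 1 ≤ ρ →
    ρ ≤ N → 0 ≤ D → Dec r p E l L b (N / ρ) D →
    ∀ (A : Matrix (Fin r) (Fin r) ℝ) (ι : Type) (S : Finset ι) (c : ι → Fin r → ℝ)
      (F : ι → X r → ℂ) (ξ : Fin r → ℝ), QF l L A →
      (∀ i ∈ S, ∀ j ∈ S, i ≠ j → 1 / N ≤ ‖c i - c j‖) →
      (∀ i ∈ S, Trig (F i) (Box A b N (c i))) → ‖ξ‖ ≤ V → (∀ i ∈ S, ‖c i - ξ‖ ≤ 1 / ρ) →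
      ∀ w : X r → ℝ≥0∞, Wt (N ^ 2) E w →
        nw p w (fun z => ∑ i ∈ S, F i z) ≤ ENNReal.ofReal (C * D) * sq p w S F

/-- B3. The broad/narrow inequality. -/
def Stmt_BN : Prop :=
  ∀ (r : ℕ) (p E a l L b : ℝ), 2 ≤ p → 0 ≤ E → 0 ≤ a → 0 < l → 1 ≤ b →
    ∃ E' L' b' c C : ℝ, 0 ≤ E' ∧ 1 ≤ b' ∧ 0 < c ∧ 0 < C ∧ ∀ K N D' D₁ M : ℝ, 1 ≤ c * K → 1 ≤ K →
      K ≤ N → 0 ≤ D' → 0 ≤ D₁ → 0 ≤ M → Dec r p E' l L' b' (c * K) D' →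
      Dec (r + 1) p E l L b (N / K) D₁ →
      MDec (r + 1) p E a l L b (c * K ^ (-((r : ℝ) + 2))) N M →
      Dec (r + 1) p E l L b N (C * (D' + 1) * D₁ + C * K ^ C * M)

/-- B4. Determinants of the directions. -/
def Stmt_DetA : Prop :=
  ∀ (r : ℕ) (l L : ℝ) (A : Matrix (Fin r) (Fin r) ℝ) (x : Fin (r + 1) → Fin r → ℝ), 0 < l →
    QF l L A → (2 * l) ^ r * |dt x| ≤ |dt fun k => (2 : ℝ) • (A *ᵥ x k)|

/-! ### Block C -/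

/-- `Dec` with the power `N^lam`. -/
def DecExp (r : ℕ) (p E l L b lam : ℝ) : Prop :=
  ∃ C : ℝ, 0 < C ∧ ∀ N : ℝ, 1 ≤ N → Dec r p E l L b N (C * N ^ lam)

/-- `MDec` with the power `N^lam`, for some weight exponent and all transversality constants. -/
def MExp (r : ℕ) (p E l L b lam : ℝ) : Prop :=
  ∃ a : ℝ, 0 ≤ a ∧ ∀ ν : ℝ, 0 < ν → ∃ C : ℝ, 0 < C ∧ ∀ N : ℝ, 1 ≤ N →
    MDec r p E a l L b ν N (C * N ^ lam)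

/-- C1. The multiscale chain. -/
def Stmt_MI : Prop :=
  ∀ (r : ℕ) (p E l L b : ℝ), 1 ≤ r → 2 ≤ p → p * r ≤ 2 * r + 4 → 0 ≤ E → 0 < l → 1 ≤ b →
    ∃ C₀ : ℝ, 0 < C₀ ∧ ∀ (lam : ℝ) (m : ℕ), 0 < lam → C₀ ≤ lam * (1 + m / 2) →
      DecExp r p E l L b lam → MExp r p E l L b (lam - (1 / 2) ^ m)

/-- C2. The induction on the scale: from `MExp` and the theorem in dimension `r` to `DecExp` in
dimension `r + 1`. -/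
def Stmt_BNI : Prop :=
  ∀ (r : ℕ) (p E l L b lam ε : ℝ), 2 ≤ p → 0 ≤ E → 0 < l → 1 ≤ b → 0 ≤ lam → 0 < ε →
    (∀ E' L' b' ε' : ℝ, 0 ≤ E' → 1 ≤ b' → 0 < ε' → DecExp r p E' l L' b' ε') →
    MExp (r + 1) p E l L b lam → DecExp (r + 1) p E l L b (lam + ε)

end DEC
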