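import Pool.Agent.DEC.BBase

/-!
# l^2 decoupling, block B (helper27): statements of the modules

Complete proofs in the doc-strings. Interface statements (Stmts.lean): Stmt_Cnt, Stmt_Triv, Stmt_PR,
Stmt_BN, Stmt_DetA. Library: BBase.lean (namespace DEC.B: Trig.continuous, Trig.sum, nw_sum_le,
nw_le_ofReal, sq_groups, nw_sum_le_sq, ...) and BNEnn.lean (mink, mink2, cs, le_l2).
-/

open MeasureTheory Finset
open scoped ENNReal Matrix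

namespace DEC

/-! ### Change of variables -/

/-- B-ChV. A linear isomorphism of finite dimensional spaces changes integrals by a constant factor.
Proof: `volume.map Λ.symm` is an additive Haar measure of `E` (continuous linear isomorphism), hence
`= c • volume` with `0 < c < ∞` (`MeasureTheory.Measure.isAddLeftInvariant_eq_smul` /
`isAddHaarMeasure_eq_smul`), and `∫ G d volume = ∫ G(Λ y) d (volume.map Λ.symm)` (`lintegral_map`).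
Used for `X r ≃ X r` and for `X r × ℝ ≃ X (r + 1)`. -/
def Stmt_ChV : Prop :=
  ∀ (E F : Type) [NormedAddCommGroup E] [NormedSpace ℝ E] [FiniteDimensional ℝ E]
    [MeasureSpace E] [BorelSpace E] [(volume : Measure E).IsAddHaarMeasure]
    [NormedAddCommGroup F] [NormedSpace ℝ F] [FiniteDimensional ℝ F]
    [MeasureSpace F] [BorelSpace F] [(volume : Measure F).IsAddHaarMeasure]
    (Λ : E ≃ₗ[ℝ] F), ∃ c : ℝ≥0∞, c ≠ 0 ∧ c ≠ ⊤ ∧ ∀ G : F → ℝ≥0∞, Measurable G →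
      ∫⁻ x, G x = c * ∫⁻ y, G (Λ y)

/-! ### Geometry -/

/-- B-Geo. Stable broad/narrow alternative for points of the cube `‖ξ‖ ≤ 1` of `R^r`: either all
points are within `δ` of a hyperplane `u · ξ = h` with largest coefficient `u_j = 1`, or `r + 1` of
the points have a determinant which stays `≥ c δ^(r+1)` when the points are moved by `c δ`.
Proof. `V_x = (x, 1) ∈ R^(r+1)`. Choose `x_0, ..., x_r ∈ P` maximizing `|dt|` (finite set).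
If the maximum is `0`: the span of all `V_ξ`, `ξ ∈ P`, is not everything, so some `φ = (u', -h') ≠ 0`
vanishes on all of them; `u' ≠ 0` (otherwise `h' = 0`, P is nonempty), divide by the coordinate of
largest modulus: first alternative with `0 ≤ δ`.
If the maximum is `d > 0`, `M` the matrix with rows `V_(x_k)`: for `ξ ∈ P`,
`V_ξ = ∑ c_k(ξ) V_(x_k)`, `c_k(ξ) = dt (x with x_k replaced by ξ) / dt x` (Cramer,
`Matrix.cramer`/`Matrix.det_updateRow`), so `|c_k(ξ)| ≤ 1`; `c_k(ξ) = ∑_i (M⁻¹)_(i,k) (V_ξ)_i` is an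
affine function of `ξ` with gradient `g_k = ((M⁻¹)_(i,k))_(i < r)`. If some entry of some `g_k` has
modulus `≥ 1/δ`, take the coordinate `j` with the largest modulus, `u = g_k / g_(k,j)`:
`|u · ξ - h| = |c_k(ξ)| / |g_(k,j)| ≤ δ`. Otherwise all `|g_(k,i)| < 1/δ`, and the last row of `M⁻¹` is
`c_k(x_0) - g_k · x_0`, so all entries of `M⁻¹` are `≤ (r+1)/δ` in modulus (`δ ≤ 1`); hence
`|det M⁻¹| ≤ (r+1)! ((r+1)/δ)^(r+1)` (`Matrix.det_le` or the Leibniz sum), `|dt x| ≥ c' δ^(r+1)`. If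
`‖y_k - x_k‖ ≤ c δ`, `M' = M + H`, `|H| ≤ c δ`, `M' M⁻¹ = 1 + H M⁻¹`, entries of `H M⁻¹` at most
`(r+1) c δ (r+1)/δ = c (r+1)^2`, so `|det (1 + H M⁻¹)| ≥ 1/2` for small `c = c(r)` (continuity of `det`
at `1`). For `r = 0`: `dt = 1`. (BNMinor.lean has a similar proof with minors.) -/
def Stmt_Geo : Prop :=
  ∀ r : ℕ, ∃ c : ℝ, 0 < c ∧ c ≤ 1 ∧ ∀ δ : ℝ, 0 < δ → δ ≤ 1 → ∀ P : Finset (Fin r → ℝ), P.Nonempty →
    (∀ ξ ∈ P, ‖ξ‖ ≤ 1) →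
    (∃ (j : Fin r) (u : Fin r → ℝ) (h : ℝ), u j = 1 ∧ (∀ i, |u i| ≤ 1) ∧
      ∀ ξ ∈ P, |u ⬝ᵥ ξ - h| ≤ δ) ∨
    (∃ x : Fin (r + 1) → Fin r → ℝ, (∀ k, x k ∈ P) ∧
      ∀ y : Fin (r + 1) → Fin r → ℝ, (∀ k, ‖y k - x k‖ ≤ c * δ) → c * δ ^ (r + 1) ≤ |dt y|)

/-- The projection to the coordinates `≠ j` along `om`, for the hyperplane `u · ξ = const`. -/
def pm {r : ℕ} (j : Fin (r + 1)) (u om : Fin (r + 1) → ℝ) (ξ : Fin (r + 1) → ℝ) : Fin r → ℝ :=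
  fun i => ξ (j.succAbove i) - (u ⬝ᵥ ξ) * om (j.succAbove i)

/-- B-Lin. Coordinates orthogonal for the quadratic form.
Proof. `A` is positive definite, `om = A⁻¹ u / (u · A⁻¹ u)`, `q = qf A om`. `u · om = 1`, and `u · η = 0`
implies `η · A om = 0`. With `η = pm j u om ξ` and `Lη` = the vector of the hyperplane `u · ζ = 0` with
coordinates `η` off `j` (j-th coordinate `-∑ u_(i') η_i`, `i' = j.succAbove i`): `ξ = Lη + (u·ξ) om`, so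
`qf A ξ = qf A (Lη) + (u·ξ)^2 q` (no cross term) and `qf A (Lη) = qf B η`, `B = Lᵀ A L`. Bounds:
`|η|^2 ≤ |Lη|^2 ≤ (1 + r) |η|^2` (Euclid, `|u_i| ≤ 1`, Cauchy-Schwarz); `0 < l ≤ L` (test with a unit
vector). `|om|_2 ≤ (|u|_2 / l) / (|u|_2^2 / L) ≤ L/l` since `|u|_2 ≥ 1`; or directly: `qf A om ≤ qf A e_j`
because `om` minimizes `qf A` on `u · ζ = 1` and `e_j` is in this hyperplane, so
`l |om|^2 ≤ q ≤ L`. -/
def Stmt_Lin : Prop :=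
  ∀ (r : ℕ) (l L : ℝ), 0 < l → ∃ C : ℝ, 0 < C ∧ ∀ A : Matrix (Fin (r + 1)) (Fin (r + 1)) ℝ,
    QF l L A → ∀ (j : Fin (r + 1)) (u : Fin (r + 1) → ℝ), u j = 1 → (∀ i, |u i| ≤ 1) →
      ∃ (om : Fin (r + 1) → ℝ) (B : Matrix (Fin r) (Fin r) ℝ) (q : ℝ), QF l ((r + 2) * L) B ∧
        u ⬝ᵥ om = 1 ∧ ‖om‖ ≤ C ∧ |q| ≤ C ∧
        ∀ ξ, qf A ξ = qf B (pm j u om ξ) + q * (u ⬝ᵥ ξ) ^ 2

/-- The change of variables of the narrow case: `x_j = z - ∑ om_(i') y_i - kap t`,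
`x_(i') = y_i + u_(i') x_j` for `i' = j.succAbove i`, `t = t`; `v = (y, t)`. -/
noncomputable def Psi {r : ℕ} (j : Fin (r + 1)) (u om : Fin (r + 1) → ℝ) (kap : ℝ) (v : X r)
    (z : ℝ) : X (r + 1) :=
  let xj := z - (∑ i, om (j.succAbove i) * v.1 i) - kap * v.2
  (j.insertNth (α := fun _ => ℝ) xj (fun i => v.1 i + u (j.succAbove i) * xj), v.2)

/-- B-Psi. `Psi` is a linear isomorphism of `X r × ℝ` onto `X (r + 1)` (inverse: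
`y_i = x_(i') - u_(i') x_j`, `z = x_j + ∑ om_(i') y_i + kap t`), so (a) follows from Stmt_ChV and
`volume (X r × ℝ) = volume.prod volume` (`lintegral_prod_symm`); (b) is immediate; (c):
`om · x + kap t = z` if `u_j = 1`, `u · om = 1`. -/
def Stmt_Psi : Prop :=
  ∀ (r : ℕ) (j : Fin (r + 1)) (u om : Fin (r + 1) → ℝ) (kap : ℝ), u j = 1 → (∀ i, |u i| ≤ 1) →
    u ⬝ᵥ om = 1 →
    (∃ c : ℝ≥0∞, c ≠ 0 ∧ c ≠ ⊤ ∧ ∀ G : X (r + 1) → ℝ≥0∞, Measurable G →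
      ∫⁻ x, G x = c * ∫⁻ z : ℝ, ∫⁻ v : X r, G (Psi j u om kap v z)) ∧
    (∀ (v v' : X r) (z : ℝ), ‖Psi j u om kap v z - Psi j u om kap v' z‖ ≤
      (1 + r * ‖om‖ + |kap|) * ‖v - v'‖) ∧
    (∀ (v : X r) (z : ℝ), om ⬝ᵥ (Psi j u om kap v z).1 + kap * v.2 = z) ∧
    Measurable fun vz : X r × ℝ => Psi j u om kap vz.1 vz.2

/-- B-CAlg. A trigonometric sum with frequencies near `c` on the slice `z = const`, for `kap = 2 h q`.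
Proof. `F = ∑ a_i ee (ξ_i · x + τ_i t)`, `ξ_i = Lη_i + (u·ξ_i) om`, `η_i = pm ξ_i`,
`Lη · x = η · y` (`y_i = x_(i') - u_(i') x_j`), `u · ξ_i = h + s_i`, `τ_i = qf B η_i + q (h+s_i)^2 + e_i`,
`|e_i| ≤ b/K^2`. Phase `= η_i · y + (qf B η_i + q s_i^2 + e_i) t + [h (om · x) + q h^2 t] + s_i z`,
since `om · x + 2 h q t = z`. So `G_z = ∑ (a_i ee (s_i z)) ee (η_i · y + τ'_i t)`,
`τ'_i = qf B η_i + q s_i^2 + e_i`, `|s_i| ≤ ((r+1) b + C₁)/K`, `|η_i - pm c| ≤ (1 + (r+1) C₁) b/K`. -/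
def Stmt_CAlg : Prop :=
  ∀ (r : ℕ) (b C₁ : ℝ), 0 ≤ b → 0 ≤ C₁ → ∃ b' : ℝ, 1 ≤ b' ∧
    ∀ (A : Matrix (Fin (r + 1)) (Fin (r + 1)) ℝ) (B : Matrix (Fin r) (Fin r) ℝ) (j : Fin (r + 1))
      (u om : Fin (r + 1) → ℝ) (q h K : ℝ) (c : Fin (r + 1) → ℝ) (F : X (r + 1) → ℂ),
      u j = 1 → (∀ i, |u i| ≤ 1) → u ⬝ᵥ om = 1 → ‖om‖ ≤ C₁ → |q| ≤ C₁ →
      (∀ ξ, qf A ξ = qf B (pm j u om ξ) + q * (u ⬝ᵥ ξ) ^ 2) → 0 < K → |u ⬝ᵥ c - h| ≤ C₁ / K →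
      Trig F (Box A b K c) → ∀ z : ℝ, ∃ G : X r → ℂ, Trig G (Box B b' K (pm j u om c)) ∧
        ∀ v : X r, F (Psi j u om (2 * h * q) v z) =
          ee (h * (om ⬝ᵥ (Psi j u om (2 * h * q) v z).1) + q * h ^ 2 * v.2) * G v

/-- B-PRV. Decoupling for separated centres in a larger cube `‖c_i‖ ≤ V`.
Proof. Split `S` by `k_i = ⌊c_i⌋` (coordinatewise, at most `(2V+2)^r` values, all with `‖k‖ ≤ V + 1`); for
each value apply Stmt_PR with `ρ = 1`, `ξ = k` (`‖c_i - k‖ ≤ 1`); triangle inequality (nw_sum_le) and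
`sq_subset`. -/
def Stmt_PRV : Prop :=
  ∀ (r : ℕ) (p E l L V : ℝ), 1 ≤ p → 0 ≤ E → 0 < l → 0 ≤ V → ∃ C : ℝ, 0 < C ∧
    ∀ b N D : ℝ, 1 ≤ N → 0 ≤ D → Dec r p E l L b N D →
    ∀ (A : Matrix (Fin r) (Fin r) ℝ) (ι : Type) (S : Finset ι) (c : ι → Fin r → ℝ)
      (F : ι → X r → ℂ), QF l L A →
      (∀ i ∈ S, ∀ j ∈ S, i ≠ j → 1 / N ≤ ‖c i - c j‖) →
      (∀ i ∈ S, Trig (F i) (Box A b N (c i))) → (∀ i ∈ S, ‖c i‖ ≤ V) →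
      ∀ w : X r → ℝ≥0∞, Wt (N ^ 2) E w →
        nw p w (fun z => ∑ i ∈ S, F i z) ≤ ENNReal.ofReal (C * D) * sq p w S F

/-- B-Cyl1. The narrow estimate for a family whose projected centres are separated.
Proof. `Psi` with `kap = 2 h q` (`|h| ≤ r + 2 + C₁`). Both sides to the power `p` become
`c ∫ dz ∫ dv` (Stmt_Psi (a)). For fixed `z`: `|∑ F_i (Psi v z)| = |∑ G_(i,z) v|`,
`|F_i (Psi v z)| = |G_(i,z) v|` by Stmt_CAlg (the factor `ee` is the same for all `i`). The slice weight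
`w_z v = w (Psi v z)` satisfies `w_z v ≤ w_z v' (1 + C ‖v - v'‖/K^2)^E ≤ C^E w_z v' (1 + ‖v-v'‖/K^2)^E`
(`C ≥ 1`), so WtBasic (2) gives `w' ∈ Wt (K^2) E`, `w_z ≤ w' ≤ C^E w_z`. Stmt_PRV in dimension `r` for the
matrix `B` (QF l ((r+2)L) B), centres `pm c_i` (norm `≤ 1 + (r+1) C₁`), scale `K`, thickness `b'`:
`nw p w_z (∑ G) ≤ C D sq p w_z G`. Then
`∫ dz (C D sq)^p ≤ (C D)^p (∑_i (∫ dz nw p w_z (G_i)^p)^(2/p))^(p/2)` (BNEnn.mink2 for the measure `dz`;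
measurability of `z ↦ nw p w_z (F_i (Psi . z))` by `Measurable.lintegral_prod_left'`). -/
def Stmt_Cyl1 : Prop :=
  ∀ (r : ℕ) (p E l L b C₁ : ℝ), 2 ≤ p → 0 ≤ E → 0 < l → 0 ≤ b → 0 ≤ C₁ →
    ∃ b' C : ℝ, 1 ≤ b' ∧ 0 < C ∧ ∀ K D : ℝ, 1 ≤ K → 0 ≤ D → Dec r p E l ((r + 2) * L) b' K D →
    ∀ (A : Matrix (Fin (r + 1)) (Fin (r + 1)) ℝ) (B : Matrix (Fin r) (Fin r) ℝ) (j : Fin (r + 1))
      (u om : Fin (r + 1) → ℝ) (q h : ℝ) (ι : Type) (S : Finset ι) (c : ι → Fin (r + 1) → ℝ)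
      (F : ι → X (r + 1) → ℂ),
      u j = 1 → (∀ i, |u i| ≤ 1) → u ⬝ᵥ om = 1 → ‖om‖ ≤ C₁ → |q| ≤ C₁ → QF l ((r + 2) * L) B →
      (∀ ξ, qf A ξ = qf B (pm j u om ξ) + q * (u ⬝ᵥ ξ) ^ 2) →
      (∀ i ∈ S, ‖c i‖ ≤ 1) → (∀ i ∈ S, |u ⬝ᵥ c i - h| ≤ C₁ / K) →
      (∀ i ∈ S, ∀ i' ∈ S, i ≠ i' → 1 / K ≤ ‖pm j u om (c i) - pm j u om (c i')‖) →
      (∀ i ∈ S, Trig (F i) (Box A b K (c i))) → ∀ w : X (r + 1) → ℝ≥0∞, Wt (K ^ 2) E w →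
        nw p w (fun z => ∑ i ∈ S, F i z) ≤ ENNReal.ofReal (C * D) * sq p w S F

/-- B-Cyl. The narrow estimate for cells of side `1/K`; the decoupling inequality is used at the
scale `K₁ = c₀ K`.
Proof. Stmt_Lin with constant `C` gives `om, B, q`; `C₂ = max C C₁`. Choose a natural number
`m ≥ (r+2)/c₀ + 2 C₁ C + 3` and split `S` by the residues `κ_i mod m` (at most `m^(r+1)` classes, images of
`S` under `i ↦ fun k => κ i k % m`). In one class `i ≠ i'` have `|κ_i k - κ_(i') k| ≥ m` for some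
coordinate `k` (injectivity), so `‖c_i - c_(i')‖ ≥ (m-2)/K`. Since `c_i = L(pm c_i) + (u·c_i) om` (`L η` has
the coordinates `η` off `j` and `-∑ u_(i') η_i` at `j`) and `|u·(c_i - c_(i'))| ≤ 2 C₁/K`:
`‖c_i - c_(i')‖ ≤ (r+1) ‖pm c_i - pm c_(i')‖ + 2 C₁ C/K`, so `‖pm c_i - pm c_(i')‖ ≥ 1/(c₀ K) = 1/K₁`.
Stmt_Cyl1 at the scale `K₁ ≤ K` for each class (`Box A b K ⊆ Box A b K₁`, `C₁/K ≤ C₂/K₁`,
`Wt (K^2) E w → Wt (K₁^2) E w` by WtBasic (1)), triangle inequality (nw_sum_le), sq_subset. -/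
def Stmt_Cyl : Prop :=
  ∀ (r : ℕ) (p E l L b C₁ c₀ : ℝ), 2 ≤ p → 0 ≤ E → 0 < l → 0 ≤ b → 0 ≤ C₁ → 0 < c₀ → c₀ ≤ 1 →
    ∃ b' C : ℝ, 1 ≤ b' ∧ 0 < C ∧ ∀ K D : ℝ, 1 ≤ c₀ * K → 0 ≤ D →
    Dec r p E l ((r + 2) * L) b' (c₀ * K) D →
    ∀ (A : Matrix (Fin (r + 1)) (Fin (r + 1)) ℝ) (j : Fin (r + 1))
      (u : Fin (r + 1) → ℝ) (h : ℝ) (ι : Type) (S : Finset ι) (c : ι → Fin (r + 1) → ℝ)
      (κ : ι → Fin (r + 1) → ℤ) (F : ι → X (r + 1) → ℂ), QF l L A →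
      u j = 1 → (∀ i, |u i| ≤ 1) →
      (∀ i ∈ S, ‖c i‖ ≤ 1) → (∀ i ∈ S, |u ⬝ᵥ c i - h| ≤ C₁ / K) →
      (∀ i ∈ S, ∀ i' ∈ S, κ i = κ i' → i = i') → (∀ i ∈ S, ∀ k, |K * c i k - κ i k| ≤ 1) →
      (∀ i ∈ S, Trig (F i) (Box A b K (c i))) → ∀ w : X (r + 1) → ℝ≥0∞, Wt (K ^ 2) E w →
        nw p w (fun z => ∑ i ∈ S, F i z) ≤ ENNReal.ofReal (C * D) * sq p w S F

open Classical in
/-- B-Dich. Abstract broad/narrow dichotomy: `N T'` is the norm of the partial sum over `T'`.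
Proof (compare BNDich.lean): `Φ = max N {c}`, `S = {c : Φ ≤ card T · N {c}}`, so
`∑_(c ∉ S) N {c} ≤ Φ`. If `S` is narrow, `N T ≤ N S + N (T ∖ S) ≤ Λ l2(S) + Φ ≤ (Λ + 1) l2(T)`. If not, there
is a broad tuple in `S`, `N T ≤ card T · Φ`, `Φ ≤ card T · ∏ N {t k}^(1/m)`. -/
def Stmt_Dich : Prop :=
  ∀ (κ : Type) (m : ℕ) (T : Finset κ) (N : Finset κ → ℝ≥0∞) (Nar : Finset κ → Prop)
    (Brd : (Fin m → κ) → Prop) (Λ : ℝ≥0∞), 0 < m → N ∅ = 0 →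
    (∀ A B, A ⊆ T → B ⊆ T → Disjoint A B → N (A ∪ B) ≤ N A + N B) →
    (∀ S ⊆ T, Nar S → N S ≤ Λ * (∑ c ∈ S, N {c} ^ (2 : ℝ)) ^ (1 / 2 : ℝ)) →
    (∀ S ⊆ T, S.Nonempty → Nar S ∨ ∃ t : Fin m → κ, (∀ k, t k ∈ S) ∧ Brd t) →
    N T ≤ (Λ + 1) * (∑ c ∈ T, N {c} ^ (2 : ℝ)) ^ (1 / 2 : ℝ) +
      (T.card : ℝ≥0∞) ^ 2 * ∑ t ∈ (Fintype.piFinset fun _ : Fin m => T).filter Brd,
        ∏ k, N {t k} ^ (1 / (m : ℝ))

/-- B-Bro. The broad term: from `L^p` averages at scale `K^2` to `L^2` averages at scale `1`.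
Proof. Bern with `R = 1`, `s = 2`: `pw 2 F y ≤ C av 1 a (pw 2 F) y ≤ C (1 + ‖x-y‖)^a av 1 a (pw 2 F) x`
(AvBasic (3)); `pw p F = (pw 2 F)^(p/2)`, so `av (K^2) E (pw p F) x ≤ (C av 1 a (pw 2 F) x)^(p/2) *
∫ (1 + ‖x-y‖)^(a p/2) wt (K^2) E (x-y) dy`, and `(1 + ‖v‖)^(ap/2) ≤ K^(ap) (1 + ‖v‖/K^2)^(ap/2)` (`K ≥ 1`), so
the last integral is at most `K^(ap) ∫ wt (K^2) (E - ap/2) = C K^(ap)` (AvBasic (1), `E - ap/2 > r+1`). -/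
def Stmt_Bro : Prop :=
  ∀ (r : ℕ) (p a E b : ℝ), 2 ≤ p → 0 ≤ a → a * p / 2 + r + 1 < E → ∃ C : ℝ, 0 < C ∧
    ∀ (K : ℝ) (q : X r) (F : X r → ℂ) (x : X r), 1 ≤ K → Trig F {w | ‖w - q‖ ≤ b} →
      av (K ^ 2) E (pw p F) x ≤
        ENNReal.ofReal (C * K ^ (a * p)) * (av 1 a (pw 2 F) x) ^ (p / 2)

/-- The cell of a point at scale `K`. -/
noncomputable def cel {r : ℕ} (K : ℝ) (c : Fin r → ℝ) : Fin r → ℤ := fun k => ⌊K * c k⌋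

open Classical in
/-- B-Loc. The local broad/narrow inequality at the point `x`, dimension `r + 1`.
`T` = set of cells of the centres (`cel K (c i)`, at most `(2K+3)^(r+1)` of them: all coordinates are
integers in `[-K-1, K]`), `F_κ = ∑_(cell i = κ) F_i`, `ω = wt (K^2) E' (x - .) ∈ Wt (K^2) E'` (WtBasic (3)).
Proof. Stmt_Dich with `N T' = nw p ω (∑_(cell i ∈ T') F_i) = (av (K^2) E' (pw p ...) x)^(1/p)`, `m = r + 2`. For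
each cell `κ` in `T` choose `i_κ ∈ S` in this cell, `c_κ = c (i_κ)`; `F_κ` is `Trig` in `Box A (b + 1) K c_κ`
(`K ≤ N`, `‖c i - c_κ‖ ≤ 1/K`, `|K c_κ k - κ k| ≤ 1`). Stmt_Geo in dimension `r + 1` with constant `c₀`,
`δ = 1/(c₀ K) ≤ 1` for the points `c_κ`, `κ ∈ S'`: narrow gives Stmt_Cyl with `C₁ = 1/c₀` and this `c₀`;
broad gives `κ_0, ..., κ_(r+1)` with `|dt y| ≥ c₀ δ^(r+2) ≥ c₀ K^(-(r+2))` for all
`‖y_k - c_(κ_k)‖ ≤ c₀ δ = 1/K`, in particular for all choices of centres in these cells: this is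
`Tr (c₀ K^(-(r+2)))`. In the broad terms use Stmt_Bro (dimension `r + 1`) for `F_κ` (frequencies in a
bounded ball about `(c_κ, qf A c_κ)`, radius depending on `r, L, b`),
`nw p ω F_κ = (av (K^2) E' (pw p F_κ) x)^(1/p) ≤ C K^a (av 1 a (pw 2 F_κ) x)^(1/2)`. -/
def Stmt_Loc : Prop :=
  ∀ (r : ℕ) (p a l L b : ℝ), 2 ≤ p → 0 ≤ a → 0 < l → 1 ≤ b → ∀ E' : ℝ, a * p / 2 + r + 2 < E' →
    ∃ b' c C : ℝ, 1 ≤ b' ∧ 0 < c ∧ c ≤ 1 ∧ 0 < C ∧ ∀ K N D' : ℝ, 1 ≤ c * K → K ≤ N → 0 ≤ D' →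
      Dec r p E' l ((r + 2) * L) b' (c * K) D' →
      ∀ A : Matrix (Fin (r + 1)) (Fin (r + 1)) ℝ, QF l L A → ∀ (ι : Type) (S : Finset ι)
        (c' : ι → Fin (r + 1) → ℝ) (F : ι → X (r + 1) → ℂ), Fam A b N S c' F → ∀ x : X (r + 1),
        let T := S.image fun i => cel K (c' i)
        let G := fun (k : Fin (r + 1) → ℤ) (z : X (r + 1)) => ∑ i ∈ S.filter (fun i => cel K (c' i) = k), F i z
        (av (K ^ 2) E' (pw p fun z => ∑ i ∈ S, F i z) x) ^ (1 / p) ≤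
          ENNReal.ofReal (C * (D' + 1)) *
            (∑ k ∈ T, ((av (K ^ 2) E' (pw p (G k)) x) ^ (1 / p)) ^ (2 : ℝ)) ^ (1 / 2 : ℝ) +
          ENNReal.ofReal (C * K ^ C) *
            ∑ t ∈ (Fintype.piFinset fun _ : Fin (r + 2) => T).filter
              (fun t => Tr (c * K ^ (-((r : ℝ) + 2)))
                (fun k => S.filter fun i => cel K (c' i) = t k) c'),
              ∏ k, (av 1 a (pw 2 (G (t k))) x) ^ (1 / (2 * ((r : ℝ) + 2)))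

/-! ### Discrete restriction -/

open Classical in
/-- B-DR. **Discrete restriction / Strichartz estimate on (irrational) tori**, all `2 ≤ p ≤ 2 + 4/r`.
Proof. `N ≥ 1` natural, `F(x,t) = ∑ a_n ee (n·x + qf A n t)`, `G(X,T) = F(X/N, T/N^2)`: centres `n/N`
(`‖.‖ ≤ 1`, `1/N`-separated), `F_n` = one frequency `(n/N, qf A (n/N))`. Main with `E = r + 3`,
`w = wt (N^2) E (0 - .)`: `(∫ |G|^p w)^(1/p) ≤ C N^ε (∑ |a_n|^2 (∫ w)^(2/p))^(1/2)`, `∫ w = C` (AvBasic (1)).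
`w ≥ c N^(-2(r+1))` on `0 ≤ X_i ≤ N^2`, `0 ≤ T ≤ N^2`, scaling (ChV or `lintegral` over boxes):
`∫_([0,N^2]^(r+1)) |G|^p = N^(r+2) ∫_([0,N]^r x [0,1]) |F|^p = N^(2r+2) ∫_([0,1]^r x [0,1]) |F|^p` (`F` has
period `1` in every `x_i`). -/
def Stmt_DR : Prop :=
  ∀ (r : ℕ) (p l L ε : ℝ), 2 ≤ p → p * r ≤ 2 * r + 4 → 0 < l → 0 < ε → ∃ C : ℝ, 0 < C ∧
    ∀ A : Matrix (Fin r) (Fin r) ℝ, QF l L A → ∀ (N : ℕ) (a : (Fin r → ℤ) → ℂ), 1 ≤ N →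
      (∫⁻ t in Set.Icc (0 : ℝ) 1, ∫⁻ x in Set.Icc (0 : Fin r → ℝ) 1,
        ‖∑ n ∈ Fintype.piFinset fun _ => Finset.Icc (-(N : ℤ)) N,
          a n * ee (pr (fun i => (n i : ℝ), qf A fun i => (n i : ℝ)) (x, t))‖ₑ ^ p) ^ (1 / p) ≤
      ENNReal.ofReal (C * (N : ℝ) ^ ε) *
        (∑ n ∈ Fintype.piFinset fun _ : Fin r => Finset.Icc (-(N : ℤ)) N, ‖a n‖ₑ ^ (2 : ℝ)) ^ (1 / 2 : ℝ)

end DEC
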