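import Pool.Agent.DEC.Stmts

/-!
# l^2 decoupling, block C: the multiscale chain and the final induction

Notation of the proofs: `n = r + 1`, `R = 2^a`.
-/

open MeasureTheory
open scoped ENNReal Matrix

namespace DEC

/-! ### Definitions -/

/-- The index of the dyadic cube of side `2^(-a)` which contains `ξ`. -/
noncomputable def cl {r : ℕ} (a : ℕ) (ξ : Fin r → ℝ) : Fin r → ℤ := fun i => ⌊(2 : ℝ) ^ a * ξ i⌋

open Classical in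
/-- The members of `T` whose centre lies in the cube `J` at scale `a`. -/
noncomputable def sub {r : ℕ} {ι : Type} (a : ℕ) (T : Finset ι) (c : ι → Fin r → ℝ)
    (J : Fin r → ℤ) : Finset ι := T.filter fun i => cl a (c i) = J

/-- The part of the family over the cube `J` at scale `a`. -/
noncomputable def part {r : ℕ} {ι : Type} (a : ℕ) (T : Finset ι) (c : ι → Fin r → ℝ)
    (F : ι → X r → ℂ) (J : Fin r → ℤ) : X r → ℂ := fun y => ∑ i ∈ sub a T c J, F i y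

open Classical in
/-- The cubes at scale `a` which contain a centre of a member of `T`. -/
noncomputable def cells {r : ℕ} {ι : Type} (a : ℕ) (T : Finset ι) (c : ι → Fin r → ℝ) :
    Finset (Fin r → ℤ) := T.image fun i => cl a (c i)

/-- The multilinear quantity of the chain at scale `a`, with the weight exponent `α`. -/
noncomputable def Ch {r : ℕ} {ι : Type} (p α : ℝ) (a : ℕ) (T : Fin (r + 1) → Finset ι)
    (c : ι → Fin r → ℝ) (F : ι → X r → ℂ) (w : X r → ℝ≥0∞) : ℝ≥0∞ :=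
  ∫⁻ z, (∏ k, (∑ J ∈ cells a (T k) c, av ((2 : ℝ) ^ a) α (pw 2 (part a (T k) c F J)) z)
    ^ (p / (2 * ((r : ℝ) + 1)))) * w z

/-- The sum of the squares of the norms of the parts at scale `a`. -/
noncomputable def Sg {r : ℕ} {ι : Type} (p : ℝ) (w : X r → ℝ≥0∞) (a : ℕ) (T : Finset ι)
    (c : ι → Fin r → ℝ) (F : ι → X r → ℂ) : ℝ≥0∞ :=
  ∑ J ∈ cells a T c, nw p w (part a T c F J) ^ (2 : ℝ)

/-! ### Modules -/

/-- **C_OrthC** (from `Stmt_Orth`). Orthogonality of the cells.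
Proof. `∑_{i∈T} F i = ∑_{J ∈ cells} part J` (sum over the fibres of `cl a ∘ c`). Apply `Stmt_Orth`
with `R = 2^a`, the index set `cells a T c` and `fr J = {w | ∃ i ∈ sub a T c J, ‖w.1 - c i‖ ≤ b / N}`
(`part J` is `Trig` for it: `Trig.sum`, `Trig.mono` of `Trig.lean`). If `‖J - J'‖∞ > 2b + 2` then
for `w ∈ fr J`, `w' ∈ fr J'`: `2^a ‖w.1 - w'.1‖ ≥ 2^a ‖c i - c j‖ - 2 b 2^a / N ≥ ‖J - J'‖ - 1 - 2b`
`> 1` (`2^a ≤ N`, and `|2^a ξ_k - 2^a η_k| ≥ |⌊2^a ξ_k⌋ - ⌊2^a η_k⌋| - 1`). So the exceptional set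
is contained in a box of `(2(⌈2b⌉ + 2) + 1)^r` integer vectors, which gives `m`. -/
def Stmt_C_OrthC : Prop :=
  ∀ (r : ℕ) (E b : ℝ), 0 ≤ E → 1 ≤ b → ∃ C : ℝ, 0 < C ∧ ∀ (N : ℝ) (a : ℕ), (2 : ℝ) ^ a ≤ N →
    ∀ (A : Matrix (Fin r) (Fin r) ℝ) (ι : Type) (T : Finset ι) (c : ι → Fin r → ℝ)
      (F : ι → X r → ℂ), (∀ i ∈ T, Trig (F i) (Box A b N (c i))) →
      ∀ w : X r → ℝ≥0∞, Wt ((2 : ℝ) ^ a) E w →
        ∫⁻ z, pw 2 (fun y => ∑ i ∈ T, F i y) z * w z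
          ≤ ENNReal.ofReal C * ∑ J ∈ cells a T c, ∫⁻ z, pw 2 (part a T c F J) z * w z

/-- **C_CH0** (from `Stmt_C_OrthC`, `Stmt_WtBasic`, `Stmt_AvBasic`). The beginning of the chain.
Proof. Pointwise in `z`: `av 1 α f z ≤ R^(r+1) av R α f z` (`AvBasic`, second part, `R = 1`,
`R' = 2^a`), and `av R α (pw 2 (∑_{i∈T k} F i)) z = ∫ pw 2 (..) y * wt R α (z - y) dy` is bounded by
`C ∑_J av R α (pw 2 (part J)) z` by `C_OrthC` for the weight `y ↦ wt R α (z - y)` (`WtBasic`, third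
part). Raise to the power `p/(2n)` (`≥ 0`), multiply over the `n` values of `k`:
`(C R^(r+1))^(n · p/(2n)) = (C R^(r+1))^(p/2)`. -/
def Stmt_C_CH0 : Prop :=
  ∀ (r : ℕ) (p b α : ℝ), 2 ≤ p → 1 ≤ b → 0 ≤ α → ∃ C : ℝ, 0 < C ∧ ∀ (N : ℝ) (a : ℕ),
    (2 : ℝ) ^ a ≤ N →
    ∀ (A : Matrix (Fin r) (Fin r) ℝ) (ι : Type) (S : Finset ι) (c : ι → Fin r → ℝ)
      (F : ι → X r → ℂ), Fam A b N S c F → ∀ T : Fin (r + 1) → Finset ι, (∀ k, T k ⊆ S) →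
      ∀ w : X r → ℝ≥0∞,
        ∫⁻ z, (∏ k, (av 1 α (pw 2 fun y => ∑ i ∈ T k, F i y) z) ^ (p / (2 * ((r : ℝ) + 1))))
          * w z ≤ ENNReal.ofReal (C * ((2 : ℝ) ^ a) ^ (((r : ℝ) + 1) * p / 2)) * Ch p α a T c F w

/-- **C_Up** (from `Stmt_LC`, `Stmt_Inf`, `Stmt_DetA`, `Stmt_AvBasic`). From the scale `R = 2^a` to
the scale `R^2` with the exponent `s`.
Proof. (1) Jensen (Hoelder with the mass `C` of `wt R α'`, `α' > r + 1`):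
`av R α' (pw 2 G) z ≤ C (av R α' (pw s G) z)^(2/s)` for `s ≥ 2`. (2) `G = part a (T k) c F J` is
`Trig` for `Box A (b+1) R ξ`, `ξ = c i` for some `i ∈ sub a (T k) c J` (`‖c i - c j‖ ≤ 1/R` inside a
cell, `N ≥ R`), `‖ξ‖ ≤ 1`; `Stmt_LC` with the exponent `a' = a'(Inf)` for the tubes:
`av R α' (pw s G) z ≤ C avT R a' (2 A ξ) (pw s G) z` for `α'` large (enlarging `α'` is allowed since
`wt` decreases in `α'`). (3) `Stmt_Inf` with `κ = Fin (r+1) × (Fin r → ℤ)`, `J k = {k} × cells`,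
`v = 2 A ξ`, `‖v‖ ≤ V(l, L, r)` (entries of `A` are bounded by `L`: `|A_ij| ≤ L` by Cauchy-Schwarz
for the form), transversality constant `(2l)^r ν` (`Stmt_DetA` and `Tr ν T c`),
`w ∈ Wt (R^2) E` since `R^2 ≤ N ≤ N^2`. -/
def Stmt_C_Up : Prop :=
  ∀ (r : ℕ) (p s E l L b α : ℝ), 1 ≤ r → 2 ≤ p → 2 ≤ s → p * r ≤ s * (r + 1) → 0 ≤ E →
    0 < l → 1 ≤ b → 0 ≤ α → ∃ α' : ℝ, E + r + 1 < α' ∧ ∀ ν ε : ℝ, 0 < ν → 0 < ε →
    ∃ C : ℝ, 0 < C ∧ ∀ (N : ℝ) (a : ℕ), ((2 : ℝ) ^ a) ^ 2 ≤ N →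
    ∀ (A : Matrix (Fin r) (Fin r) ℝ) (ι : Type) (S : Finset ι) (c : ι → Fin r → ℝ)
      (F : ι → X r → ℂ), QF l L A → Fam A b N S c F → ∀ T : Fin (r + 1) → Finset ι,
      (∀ k, T k ⊆ S) → Tr ν T c → ∀ w : X r → ℝ≥0∞, Wt (N ^ 2) E w →
        Ch p α' a T c F w ≤ ENNReal.ofReal (C * ((2 : ℝ) ^ a) ^ ε) *
          ∫⁻ z, (∏ k, (∑ J ∈ cells a (T k) c,
            av (((2 : ℝ) ^ a) ^ 2) α (pw s (part a (T k) c F J)) z ^ (2 / s))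
              ^ (p / (2 * ((r : ℝ) + 1)))) * w z

/-- **C_Int** (pure Hoelder). Interpolation of the exponent `s` between `2` and `p`; `G` arbitrary
measurable functions (`κ` finite index sets).
Proof. For one function: `∫ |G|^s k ≤ (∫ |G|^2 k)^(s(1-θ)/2) (∫ |G|^p k)^(sθ/p)`, the exponents have
sum `1` (`ENNReal.lintegral_mul_norm_pow_le` or `lintegral_prod_norm_pow_le`), so
`(av (pw s G))^(2/s) ≤ (av (pw 2 G))^(1-θ) ((av (pw p G))^(2/p))^θ`. Sum over `J`: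
`∑ x_J^(1-θ) y_J^θ ≤ (∑ x_J)^(1-θ) (∑ y_J)^θ`. Product over `k`, power `p/(2n)`, and Hoelder for the
integral against `w`. `w` is measurable. Cases `θ = 0` and `θ = 1/2`.. are covered by
`lintegral_prod_norm_pow_le`, which allows exponents `0`. -/
def Stmt_C_Int : Prop :=
  ∀ (r : ℕ) (p s θ R α : ℝ), 2 ≤ p → 2 ≤ s → 0 ≤ θ → θ ≤ 1 → 1 / s = (1 - θ) / 2 + θ / p →
    0 < R → ∀ (κ : Type) (J : Fin (r + 1) → Finset κ) (G : Fin (r + 1) → κ → X r → ℂ)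
      (w : X r → ℝ≥0∞), (∀ k j, Measurable (G k j)) → Measurable w →
      ∫⁻ z, (∏ k, (∑ j ∈ J k, av R α (pw s (G k j)) z ^ (2 / s)) ^ (p / (2 * ((r : ℝ) + 1))))
          * w z
        ≤ (∫⁻ z, (∏ k, (∑ j ∈ J k, av R α (pw 2 (G k j)) z) ^ (p / (2 * ((r : ℝ) + 1))))
            * w z) ^ (1 - θ) *
          (∫⁻ z, (∏ k, (∑ j ∈ J k, av R α (pw p (G k j)) z ^ (2 / p))
            ^ (p / (2 * ((r : ℝ) + 1)))) * w z) ^ θ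

/-- **C_Last** (from `Stmt_AvBasic`). The term with the exponent `p`; `w` measurable weight class.
Proof. Hoelder for the product of `n` functions (`lintegral_prod_norm_pow_le`, exponents `1/n`):
the left side is `≤ ∏_k (∫ (∑_j (av (pw p G))^(2/p))^(p/2) w)^(1/n)`; Minkowski for the exponent
`p/2 ≥ 1` (finite sums, `ENNReal.lintegral_Lp_add_le` by induction, measure `w dz`):
`(∫ (∑_j f_j^(2/p))^(p/2) w)^(2/p) ≤ ∑_j (∫ f_j w)^(2/p)`; `∫ av R α f w ≤ C ∫ f w`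
(`AvBasic`, fourth part) and `(∫ |G|^p w)^(2/p) = nw^2`. -/
def Stmt_C_Last : Prop :=
  ∀ (r : ℕ) (p E α : ℝ), 2 ≤ p → 0 ≤ E → E + r + 1 < α → ∃ C : ℝ, 0 < C ∧ ∀ R : ℝ, 0 < R →
    ∀ (κ : Type) (J : Fin (r + 1) → Finset κ) (G : Fin (r + 1) → κ → X r → ℂ)
      (w : X r → ℝ≥0∞), (∀ k j, Measurable (G k j)) → Measurable w → Wt R E w →
      ∫⁻ z, (∏ k, (∑ j ∈ J k, av R α (pw p (G k j)) z ^ (2 / p)) ^ (p / (2 * ((r : ℝ) + 1))))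
          * w z
        ≤ ENNReal.ofReal C *
          ∏ k, (∑ j ∈ J k, nw p w (G k j) ^ (2 : ℝ)) ^ (p / (2 * ((r : ℝ) + 1)))

/-- **C_CH1** (from `Stmt_C_Up`, `Stmt_C_Int`, `Stmt_C_Last`, `Stmt_C_OrthC`, `Stmt_WtBasic`). One
step of the chain.
Proof. `C_Up` with `s = max 2 (p r/(r+1))`, then `C_Int` with `R := (2^a)^2`, `C_Last` for the
second factor, and for the first factor `C_OrthC` at the scale `2a`: for `J ∈ cells a (T k) c`,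
`av R^2 α (pw 2 (part a (T k) c F J)) z ≤ C ∑_{J' ∈ cells (2a) (sub a (T k) c J) c}
av R^2 α (pw 2 (part (2a) (sub ..) c F J')) z` (weight `y ↦ wt (R^2) α (z-y)`, `(2^a)^2 = 2^(2a)`),
and the sum over `J` of these sums is the sum over `cells (2a) (T k) c`, because `cl (2a) ξ`
determines `cl a ξ` (so `sub (2a) (sub a T c J) c J' = sub (2a) T c J'` if the left side is nonempty
and every `J'` occurs for exactly one `J`). -/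
def Stmt_C_CH1 : Prop :=
  ∀ (r : ℕ) (p s θ E l L b α : ℝ), 1 ≤ r → 2 ≤ p → s = max 2 (p * r / (r + 1)) → 0 ≤ θ →
    θ ≤ 1 → 1 / s = (1 - θ) / 2 + θ / p → 0 ≤ E → 0 < l → 1 ≤ b → E + r + 1 < α →
    ∃ α' : ℝ, E + r + 1 < α' ∧ ∀ ν ε : ℝ, 0 < ν → 0 < ε →
    ∃ C : ℝ, 0 < C ∧ ∀ (N : ℝ) (a : ℕ), ((2 : ℝ) ^ a) ^ 2 ≤ N →
    ∀ (A : Matrix (Fin r) (Fin r) ℝ) (ι : Type) (S : Finset ι) (c : ι → Fin r → ℝ)
      (F : ι → X r → ℂ), QF l L A → Fam A b N S c F → ∀ T : Fin (r + 1) → Finset ι,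
      (∀ k, T k ⊆ S) → Tr ν T c → ∀ w : X r → ℝ≥0∞, Wt (N ^ 2) E w →
        Ch p α' a T c F w ≤ ENNReal.ofReal (C * ((2 : ℝ) ^ a) ^ ε) *
          (Ch p α (2 * a) T c F w) ^ (1 - θ) *
          (∏ k, Sg p w a (T k) c F ^ (p / (2 * ((r : ℝ) + 1)))) ^ θ

/-- **C_CH2** (from `Stmt_C_Last`-type arguments: `Stmt_AvBasic`, `Stmt_Cnt`, `Stmt_WtBasic`). The
end of the chain.
Proof. `pw 2 (part J) ≤ #(sub a T c J) ∑_{i ∈ sub} pw 2 (F i)` (Cauchy-Schwarz) and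
`#(sub a T c J) ≤ (2 · 2^(-a) N + 1)^r ≤ (3 N/2^a)^r` (`Stmt_Cnt`, the centres of a cell have
distance `≤ 2^(-a)`). So `∑_J av (pw 2 (part J)) ≤ (3N/2^a)^r ∑_{i∈T k} av (pw 2 (F i))`. Hoelder
for the product over `k`, Minkowski in `L^(p/2)(w)`, Jensen `(av (pw 2 G))^(p/2) ≤ C av (pw p G)`,
`∫ av f w ≤ C ∫ f w`, `T k ⊆ S`. -/
def Stmt_C_CH2 : Prop :=
  ∀ (r : ℕ) (p E b α : ℝ), 2 ≤ p → 0 ≤ E → 1 ≤ b → E + r + 1 < α → ∃ C : ℝ, 0 < C ∧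
    ∀ (N : ℝ) (a : ℕ), (2 : ℝ) ^ a ≤ N →
    ∀ (A : Matrix (Fin r) (Fin r) ℝ) (ι : Type) (S : Finset ι) (c : ι → Fin r → ℝ)
      (F : ι → X r → ℂ), Fam A b N S c F → ∀ T : Fin (r + 1) → Finset ι, (∀ k, T k ⊆ S) →
      ∀ w : X r → ℝ≥0∞, Wt (N ^ 2) E w →
        Ch p α a T c F w ≤ ENNReal.ofReal (C * (N / 2 ^ a) ^ C) * (sq p w S F) ^ p

/-- **C_CHS** (from `Stmt_PR`). The square function of the parts by rescaling.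
Proof. For `J ∈ cells a T c` choose `i₀ ∈ sub a T c J`; all centres of `sub a T c J` are within
`2^(-a)` of `ξ = c i₀`, `‖ξ‖ ≤ 1`: `Stmt_PR` with `ρ = 2^a`, `V = 1`:
`nw (part J) ≤ C D (∑_{i∈ sub J} nw (F i)^2)^(1/2)`. Square and sum over `J` (the sets `sub a T c J`
partition `T ⊆ S`). -/
def Stmt_C_CHS : Prop :=
  ∀ (r : ℕ) (p E l L : ℝ), 2 ≤ p → 0 ≤ E → 0 < l → ∃ C : ℝ, 0 < C ∧ ∀ (b N D : ℝ) (a : ℕ),
    (2 : ℝ) ^ a ≤ N → 0 ≤ D → Dec r p E l L b (N / 2 ^ a) D →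
    ∀ (A : Matrix (Fin r) (Fin r) ℝ) (ι : Type) (S T : Finset ι) (c : ι → Fin r → ℝ)
      (F : ι → X r → ℂ), QF l L A → Fam A b N S c F → T ⊆ S → ∀ w : X r → ℝ≥0∞,
      Wt (N ^ 2) E w → Sg p w a T c F ≤ (ENNReal.ofReal (C * D) * sq p w S F) ^ (2 : ℝ)

/-- **C_Gain** (elementary). With `u = 2(1-θ) ≥ 1` the left side is
`1 - (1-θ)^m - θ 2^(-m) ∑_{j<m} u^j = 1 - 2^(-m) (u^m + θ ∑_{j<m} u^j)` and
`u^m ≥ 1 + m(1-2θ)`, `∑_{j<m} u^j ≥ m`. -/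
def Stmt_C_Gain : Prop :=
  ∀ (θ : ℝ) (m : ℕ), 0 ≤ θ → θ ≤ 1 / 2 →
    ∑ j ∈ Finset.range m, θ * (1 - θ) ^ j * (1 - 2 ^ j / 2 ^ m) ≤ 1 - (1 + m / 2) / 2 ^ m

/-- **C_It** (abstract iteration, real numbers). Suppose `X m ≤ B` and
`X j ≤ B · N^(ε) · X (j+1)^(1-θ) · ((N / R_j)^lam)^(p θ)` with `R_j = 2^(2^j a₀)`,
`2^(2^m a₀) ≤ N < 2^(2^m (a₀+1))`. Then `X 0 ≤ C N^(m ε + p lam (1 - (1+m/2)/2^m))`, `C` depending on
`m, p, lam, θ, B` only.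
Proof. `N / R_j ≤ N^(1 - 2^j/2^m) 2^(2^j)` since `N < 2^(2^m (a₀+1))` gives
`N^(2^j/2^m) ≤ 2^(2^j a₀) 2^(2^j)`. By induction from `j = m` down to `0`:
`X j ≤ C_j N^((m-j) ε + p lam ∑_{i<m-j} θ (1-θ)^i (1 - 2^(j+i)/2^m))`, then `Stmt_C_Gain` for
`j = 0`. -/
def Stmt_C_It : Prop :=
  ∀ (m : ℕ) (p lam θ ε B : ℝ), 2 ≤ p → 0 < lam → 0 ≤ θ → θ ≤ 1 / 2 → 0 ≤ ε → 1 ≤ B →
    ∃ C : ℝ, 0 < C ∧ ∀ (N : ℝ) (a₀ : ℕ) (Y : ℕ → ℝ), 1 ≤ N → (2 : ℝ) ^ (2 ^ m * a₀) ≤ N →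
      N < (2 : ℝ) ^ (2 ^ m * (a₀ + 1)) → (∀ j, 0 ≤ Y j) → Y m ≤ B →
      (∀ j < m, Y j ≤ B * N ^ ε * Y (j + 1) ^ (1 - θ) *
        (((N / (2 : ℝ) ^ (2 ^ j * a₀)) ^ lam) ^ p) ^ θ) →
      Y 0 ≤ C * N ^ (m * ε + p * (lam - lam * ((1 + m / 2) / 2 ^ m)))

/-- **C_MI**: theorem `t_MI (h0 : Stmt_C_CH0) (h1 : Stmt_C_CH1) (h2 : Stmt_C_CH2)
(h3 : Stmt_C_CHS) (h4 : Stmt_C_It) : Stmt_MI`.
Proof. `C₀ = (r+1)/2 + 2`. `s = max 2 (p r/(r+1))`; `θ = 0` if `p r ≤ 2(r+1)` (then `s = 2`), else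
`θ = (1/2 - 1/s)/(1/2 - 1/p) = (p r - 2(r+1))/(r(p-2))`, which is `≤ 1/2` because `p r ≤ 2r + 4`.
Weight exponents downwards: `α_m = E + r + 2`, `α_j = α'` of CH1 for `α_(j+1)`; `a := α_0` does not
depend on `ν`. Given `ν`, `ε' = (1/2)^m/(m+1)`, let `Dec(N') ≤ B₁ N'^lam` (`DecExp`). For `N ≥ 1`
let `a₀ = ⌊log₂ N / 2^m⌋`, so `2^(2^m a₀) ≤ N < 2^(2^m (a₀+1))`. Then by downward induction
`Ch p α_j (2^j a₀) T c F w ≤ ofReal (Y j) * (sq p w S F)^p` with `Y m = C 2^(2^m C)`,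
`Y j = B N^(ε') Y(j+1)^(1-θ) (((N/R_j)^lam)^p)^θ` (CH1 with `a = 2^j a₀`, `(2^a)^2 = 2^(2^(j+1) a₀)
≤ N`; CHS with `D = B₁ (N/R_j)^lam`, `∏_k Sg^(p/(2n)) ≤ ((C D sq)^2)^(p/2) = (C D sq)^p`;
`(sq^p)^(1-θ) (sq^p)^θ = sq^p`). `C_It` (with `ε = ε'`, `2^a ≤ N`) and CH0 with `a = a₀`,
`2^(a₀) ≤ N^((1/2)^m)`, give `MDec` with
`M^p = C N^((1/2)^m (r+1)p/2 + m ε' + p (lam - lam (1+m/2)/2^m))`, and
`(r+1)/2 + m ε' 2^m/p + 1 ≤ C₀ ≤ lam (1+m/2)`, so `M ≤ C N^(lam - (1/2)^m)`. -/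
def Stmt_C_MI : Prop :=
  Stmt_C_CH0 → Stmt_C_CH1 → Stmt_C_CH2 → Stmt_C_CHS → Stmt_C_It → Stmt_MI

/-- **C_BNI**: theorem `t_BNI (h1 : Stmt_BN) (h2 : Stmt_Triv) : Stmt_BNI`.
Proof. `MExp (r+1)` gives `a`; `Stmt_BN` for this `a` gives `E', L', b', c, C`; the hypothesis in
dimension `r` with `ε/4` gives `Dec r p E' l L' b' (cK) (C₁ (cK)^(ε/4))`. Choose `K > 1`, `cK ≥ 1`,
with `C (C₁ (cK)^(ε/4) + 1) ≤ K^(ε/2)`. `MExp` with `ν = c K^(-(r+2))` gives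
`MDec .. N (C₂ N^lam)`. Claim `Dec (r+1) .. N (B N^(lam+ε))` for all `N ≥ 1`, by induction on
`⌊log_K N⌋` (or: for all `k : ℕ` and `1 ≤ N ≤ K^k`): for `N ≤ K` it is `Stmt_Triv` (second and third
part) if `B ≥ (3K)^(r+1)`; for `N ≥ K`:
`C (D'+1) B (N/K)^(lam+ε) + C K^C C₂ N^lam ≤ K^(ε/2) K^(-ε) B N^(lam+ε) + C K^C C₂ N^(lam+ε)
≤ B N^(lam+ε)` if `C K^C C₂ ≤ B (1 - K^(-ε/2))`. -/
def Stmt_C_BNI : Prop := Stmt_BN → Stmt_Triv → Stmt_BNI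

/-- **C_Main**: theorem `t_Main (h1 : Stmt_MI) (h2 : Stmt_BNI) (h3 : Stmt_Triv) : Stmt_Main`.
Proof. Induction on `r`. `r = 0`: `Stmt_Triv` (first and third part), `1 ≤ N^ε`. Step `r → r + 1`:
`p (r+1) ≤ 2(r+1) + 4` and `p ≥ 2` give `p r ≤ 2r + 4`, so the theorem in dimension `r` holds for
all `E', L', b', ε'`. Let `Λ = {lam ≥ 0 | DecExp (r+1) p E l L b lam}`; it contains `r + 1`
(`Stmt_Triv`) and is upward closed (`N ≥ 1`). Let `lam₀ = inf Λ` and suppose `lam₀ > 0`. Choose `m`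
with `C₀ ≤ lam₀ (1 + m/2)` and `lam ∈ Λ` with `lam₀ ≤ lam < lam₀ + (1/2)^m/4`. `Stmt_MI` gives
`MExp (r+1) (lam - (1/2)^m)`, hence `MExp (r+1) (max 0 (lam - (1/2)^m))`, and `Stmt_BNI` with
`ε'' > 0` small gives an element of `Λ` smaller than `lam₀`. So `lam₀ = 0`: `DecExp` for every
`ε > 0`. -/
def Stmt_C_Main : Prop := Stmt_MI → Stmt_BNI → Stmt_Triv → Stmt_Main

end DEC
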