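import Pool.Agent.DEC.Stmts
import Pool.Agent.DEC.KDefs

/-!
# DEC, multilinear Kakeya and ball inflation: statements with their proofs

Guth's short proof of the multilinear Kakeya inequality (with a loss `(R / W) ^ ε`) for smooth tubes
and arbitrary `s`-finite measures on the set of tubes, and the ball inflation inequality in
`ℓ² L^s`. One module for each `Stmt_...`; a module may use, as hypotheses, the statements it names.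
-/

set_option autoImplicit false

namespace DEC

open MeasureTheory Set
open scoped ENNReal

/-! ### A. Elementary facts -/

/-- K_KRB: elementary facts on `kr`, `kw`, `kt`. (1), (2) monotone. (3) `1 + a ≤ (1 + b)(1 + c)` if
`a ≤ b + c`. (4) `1 + c a ≤ c (1 + a)` for `c ≥ 1`. (5)-(7) measurability and positivity. (8) the
integral of `kr E (‖y‖ / R)` over `ℝ^n` is at most `C R ^ n` if `E ≥ n + 1`
(`integrable_one_add_norm`, scaling `lintegral_comp_smul` / `addHaar`), (9) so `∫ kw ≤ C`. -/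
def Stmt_KRB : Prop :=
  (∀ (E : ℕ) (a b : ℝ), 0 ≤ a → a ≤ b → kr E b ≤ kr E a) ∧
  (∀ (E F : ℕ) (a : ℝ), 0 ≤ a → E ≤ F → kr F a ≤ kr E a) ∧
  (∀ (E : ℕ) (a b c : ℝ), 0 ≤ a → 0 ≤ b → 0 ≤ c → a ≤ b + c →
    kr E b ≤ ENNReal.ofReal ((1 + c) ^ E) * kr E a) ∧
  (∀ (E : ℕ) (a c : ℝ), 0 ≤ a → 1 ≤ c → kr E a ≤ ENNReal.ofReal (c ^ E) * kr E (c * a)) ∧
  (∀ (E : ℕ), Measurable (kr E)) ∧
  (∀ (E : ℕ) (a : ℝ), 0 ≤ a → 0 < kr E a ∧ kr E a ≤ 1) ∧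
  (∀ (E F : ℕ) (a : ℝ), 0 ≤ a → kr (E + F) a = kr E a * kr F a) ∧
  (∀ (n E : ℕ), n + 1 ≤ E → ∃ C : ℝ, 0 < C ∧ ∀ R : ℝ, 0 < R →
    ∫⁻ y : Fin n → ℝ, kr E (‖y‖ / R) ≤ ENNReal.ofReal (C * R ^ n)) ∧
  (∀ (n E : ℕ), n + 1 ≤ E → ∃ C : ℝ, 0 < C ∧ ∀ R : ℝ, 0 < R →
    ∫⁻ y : Fin n → ℝ, kw n E R y ≤ ENNReal.ofReal C)

/-- K_LW, the Loomis-Whitney inequality. Induction on `r`. `r = 1`: Tonelli. Step from `r` to `r + 1`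
(`r + 2` variables, exponent `1 / (r + 1)`): split off the last coordinate `y`; the factor
`f (Fin.last)` does not depend on `y`. For fixed `y` Hoelder with the exponents `r + 1` and
`(r + 1) / r` in the other variables, and the induction hypothesis for the functions
`f_i(·, y)`, `i ≠ last`: `∫ ≤ (∫ f_last)^(1/(r+1)) ∏_i (∫ f_i(·, y))^(1/(r+1))`; then integrate over
`y`, Hoelder with `r + 1` functions and exponents `1 / (r + 1)`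
(`ENNReal.lintegral_prod_norm_pow_le`). (Or with `MeasureTheory.lmarginal`, as in Mathlib's
`Mathlib/Analysis/FunctionalSpaces/SobolevInequality.lean`, `GridLines`: for `F_i` independent of the
coordinate `i` show by induction on the finite set `s` of coordinates already integrated that
`∫_s ∏ F_i^(1/r) ≤ ∏_{i ∈ s} (∫_{s \ i} F_i)^(1/r) ∏_{i ∉ s} (∫_s F_i)^(1/r)`; when `i` is added to
`s` the factor `∫_s F_i` does not depend on the variable `x_i` and there are `r` other factors.) -/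
def Stmt_LW : Prop := ∀ (r : ℕ) (f : Fin (r + 1) → (Fin r → ℝ) → ℝ≥0∞), 1 ≤ r →
  (∀ i, Measurable (f i)) →
  ∫⁻ z : Fin (r + 1) → ℝ, ∏ i, f i (fun l => z (i.succAbove l)) ^ (1 / (r : ℝ)) ≤
    ∏ i, (∫⁻ u, f i u) ^ (1 / (r : ℝ))

/-- K_FACE. From `Stmt_KRB`. Let `a = ‖u0 - p‖`. If `a ≤ 2 L`: the left side is at most
`∫ kr E (‖u - p‖ / W) du ≤ C W ^ r` (KRB (8)), and `kr E (a / L) ≥ 3 ^ (-E)`. If `a > 2 L`: on the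
ball `‖u - p‖ ≥ a - L ≥ a / 2`, so the left side is at most `(2 L)^r (a / (2 W))^(-E)`, and
`kr E (a / L) ≥ (3 a / (2 L))^(-E)`: the quotient by `W ^ r` is at most
`2^r 3^E (W / L)^(E - r) ≤ 2^r 3^E`. -/
def Stmt_FACE : Prop := ∀ (r E : ℕ), r + 1 ≤ E → ∃ C : ℝ, 0 < C ∧
  ∀ (W L : ℝ) (u0 p : Fin r → ℝ), 0 < W → W ≤ L →
    ∫⁻ u in Metric.closedBall u0 L, kr E (‖u - p‖ / W) ≤
      ENNReal.ofReal (C * W ^ r) * kr E (‖u0 - p‖ / L)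

/-- K_HHM. (1) Tonelli (`Measurable.lintegral_prod_right'`). (2) `kr` is antitone. (3) For
`‖ω.1‖ ≤ B` (with `v = ω.1`, `y = x - z`): the seminorm `‖y - y j • v‖` changes by at most
`(1 + B) ‖x - x0‖` when `x0` is replaced by `x`; `Stmt_KRB` (3). (4) additivity in the measure.
(5) `hh ≤ μ univ`. (6) `y ↦ y - y j • v` for `v j = 1`, `y` with the `j`-th coordinate changed from
`x j` to `x0 j`: the seminorm changes by at most `|x j - x0 j| * δ` because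
`Pi.single j 1 - v` has norm at most `δ`. So for `|x j - x0 j| * δ ≤ W` the factor is `2 ^ E`
(`1 + a / W ≤ 2 (1 + b / W)` if `a ≤ b + W`). -/
def Stmt_HHM : Prop :=
  (∀ (n : ℕ) (j : Fin n) (E : ℕ) (W : ℝ) (μ : Measure ((Fin n → ℝ) × (Fin n → ℝ))) [SFinite μ],
    Measurable (hh j E W μ)) ∧
  (∀ (n : ℕ) (j : Fin n) (E : ℕ) (W L : ℝ) (μ : Measure ((Fin n → ℝ) × (Fin n → ℝ)))
    (x : Fin n → ℝ), 0 < W → W ≤ L → hh j E W μ x ≤ hh j E L μ x) ∧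
  (∀ (n : ℕ) (j : Fin n) (E : ℕ) (R B : ℝ) (μ : Measure ((Fin n → ℝ) × (Fin n → ℝ)))
    (x x0 : Fin n → ℝ), 0 < R → 0 ≤ B → (∀ᵐ ω ∂μ, ‖ω.1‖ ≤ B) →
    hh j E R μ x ≤ ENNReal.ofReal ((1 + (1 + B) * (‖x - x0‖ / R)) ^ E) * hh j E R μ x0) ∧
  (∀ (n : ℕ) (j : Fin n) (E : ℕ) (W : ℝ) (μ ν : Measure ((Fin n → ℝ) × (Fin n → ℝ)))
    (x : Fin n → ℝ), hh j E W (μ + ν) x = hh j E W μ x + hh j E W ν x) ∧
  (∀ (n : ℕ) (j : Fin n) (E : ℕ) (W : ℝ) (μ : Measure ((Fin n → ℝ) × (Fin n → ℝ)))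
    (x : Fin n → ℝ), 0 < W → hh j E W μ x ≤ μ univ) ∧
  (∀ (n : ℕ) (j : Fin n) (E : ℕ) (W δ : ℝ) (μ : Measure ((Fin n → ℝ) × (Fin n → ℝ)))
    (x : Fin n → ℝ) (t : ℝ), 0 < W → 0 ≤ δ → |x j - t| * δ ≤ W →
    (∀ᵐ ω ∂μ, ω.1 j = 1 ∧ ∀ i, i ≠ j → |ω.1 i| ≤ δ) →
    hh j E W μ x ≤ ENNReal.ofReal (2 ^ E) * hh j E W μ (Function.update x j t))

/-! ### B. Guth's induction on scales -/

/-- K_STEP. From `Stmt_LW`, `Stmt_FACE`, `Stmt_HHM`. Put `L = W / δ ≥ W`. By HHM (6), for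
`‖x - x0‖ ≤ L`: `hh_j(x) ≤ 2^E hh_j(update x j (x0 j))`, which does not depend on `x j`. So the
integrand is at most `∏_j f_j(x without x_j)^(1/r)` with
`f_j(u) = 1_{‖u - x0 without x0_j‖ ≤ L} 2^E hh_j(j.insertNth (x0 j) u)`, and by LW the left side is at
most `∏_j (∫ f_j)^(1/r)`. Tonelli (`SFinite`) and FACE: for fixed `ω = (v, z)` with `v j = 1` the
vector `y - y j • v`, `y = insertNth (x0 j) u - z`, has the `j`-th coordinate `0` and the other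
coordinates `u - p`, `p = (z + (x0 j - z j) • v)` without the coordinate `j`, so its norm is
`‖u - p‖`, and `‖x0 without j - p‖ = ‖(x0 - z) - (x0 j - z j) • v‖`. Hence
`∫ f_j ≤ 2^E C W^r hh_j^L(x0)`, and `∏_j (W^r)^(1/r) = W^(r+1)`. -/
def Stmt_STEP : Prop := ∀ (r E : ℕ), 1 ≤ r → r + 1 ≤ E → ∃ C : ℝ, 0 < C ∧
  ∀ (δ W : ℝ) (μ : Fin (r + 1) → Measure ((Fin (r + 1) → ℝ) × (Fin (r + 1) → ℝ)))
    [∀ j, SFinite (μ j)] (x0 : Fin (r + 1) → ℝ), 0 < δ → δ ≤ 1 → 0 < W →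
    (∀ j, ∀ᵐ ω ∂(μ j), ω.1 j = 1 ∧ ∀ i, i ≠ j → |ω.1 i| ≤ δ) →
    ∫⁻ x in Metric.closedBall x0 (W / δ), ∏ j, hh j E W (μ j) x ^ (1 / (r : ℝ)) ≤
      ENNReal.ofReal (C * W ^ (r + 1)) * ∏ j, hh j E (W / δ) (μ j) x0 ^ (1 / (r : ℝ))

/-- K_AVG. From `Stmt_STEP`, `Stmt_KRB`, `Stmt_HHM`. `L = W / δ ≤ R`, `w(x) = kr F (‖x - x0‖ / R)`,
`Φ` = the first product. By Tonelli `∫ Φ w = (2 L)^(-(r+1)) ∫_y ∫_{‖x - y‖ ≤ L} Φ(x) w(x) dx dy`;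
`w(x) ≤ 2^F w(y)` (KRB (3)), and STEP at the point `y`. The constant is
`2^F C (W / (2 L))^(r+1) ≤ 2^F C δ^(r+1)`. -/
def Stmt_AVG : Prop := ∀ (r E F : ℕ), 1 ≤ r → r + 1 ≤ E → ∃ C : ℝ, 0 < C ∧
  ∀ (δ W R : ℝ) (μ : Fin (r + 1) → Measure ((Fin (r + 1) → ℝ) × (Fin (r + 1) → ℝ)))
    [∀ j, SFinite (μ j)] (x0 : Fin (r + 1) → ℝ), 0 < δ → δ ≤ 1 → 0 < W → W / δ ≤ R →
    (∀ j, ∀ᵐ ω ∂(μ j), ω.1 j = 1 ∧ ∀ i, i ≠ j → |ω.1 i| ≤ δ) →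
    ∫⁻ x, (∏ j, hh j E W (μ j) x ^ (1 / (r : ℝ))) * kr F (‖x - x0‖ / R) ≤
      ENNReal.ofReal (C * δ ^ (r + 1)) *
        ∫⁻ x, (∏ j, hh j E (W / δ) (μ j) x ^ (1 / (r : ℝ))) * kr F (‖x - x0‖ / R)

/-- K_KAKX, multilinear Kakeya for directions near the axes. From `Stmt_AVG` with
`F = 2 E + r + 3`, `Stmt_HHM`, `Stmt_KRB`. Let `C₁ ≥ 1` be the constant of AVG and `δ ≤ 1/2` so small
that `log C₁ ≤ ε log (1/δ)`. Let `M` be the largest natural number with `W / δ^M ≤ R`. By AVG, `M`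
times: `∫ Φ_W w ≤ (C₁ δ^(r+1))^M ∫ Φ_(W/δ^M) w ≤ (C₁ δ^(r+1))^M ∫ Φ_R w` (HHM (2)). Here
`C₁^M ≤ (1/δ)^(ε M) ≤ (R / W)^ε` and `δ^M ≤ W / (R δ)`. Finally by HHM (3) (`‖v‖ ≤ 1 = B`)
`Φ_R(x) ≤ (1 + 2 ‖x - x0‖ / R)^(E (r+1)/r) Φ_R(x0)`, `(r + 1) / r ≤ 2`, and
`(1 + 2a)^(2E) kr (2 E + r + 3) a ≤ 4^E kr (r + 3) a`, whose integral is at most `C R^(r+1)`
(KRB (8)). Total: `C W^(r+1) δ^(-(r+1)) (R / W)^ε`. -/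
def Stmt_KAKX : Prop := ∀ (r E : ℕ) (ε : ℝ), 1 ≤ r → r + 1 ≤ E → 0 < ε →
  ∃ δ C : ℝ, 0 < δ ∧ δ ≤ 1 ∧ 0 < C ∧
  ∀ (W R : ℝ) (μ : Fin (r + 1) → Measure ((Fin (r + 1) → ℝ) × (Fin (r + 1) → ℝ)))
    [∀ j, SFinite (μ j)] (x0 : Fin (r + 1) → ℝ), 0 < W → W ≤ R →
    (∀ j, ∀ᵐ ω ∂(μ j), ω.1 j = 1 ∧ ∀ i, i ≠ j → |ω.1 i| ≤ δ) →
    ∫⁻ x, (∏ j, hh j E W (μ j) x ^ (1 / (r : ℝ))) * kr (2 * E + r + 3) (‖x - x0‖ / R) ≤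
      ENNReal.ofReal (C * W ^ (r + 1) * (R / W) ^ ε) *
        ∏ j, hh j E R (μ j) x0 ^ (1 / (r : ℝ))

/-! ### C. General transversal directions -/

/-- K_INV. The matrix `P` with the columns `c j` has determinant of absolute value at least `ν`;
`Λ = P⁻¹`. The entries of the adjugate are determinants of matrices with entries at most
`max B 1`, so at most `(r+1)! (max B 1)^(r+1)` (`Matrix.det_le`), hence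
`‖Λ y‖ ≤ (r+1) (r+1)! (max B 1)^(r+1) / ν ‖y‖`; `‖P y‖ ≤ (r+1) B ‖y‖`; and
`∫⁻ h(Λ x) dx = |det P| ∫⁻ h`, `|det P| ≤ (r+1)! (max B 1)^(r+1)`
(`MeasureTheory.Measure.addHaar_image_linearMap` or `map_linearMap_addHaar_eq_smul_addHaar`). -/
def Stmt_INV : Prop := ∀ (r : ℕ) (B ν : ℝ), 0 < ν → ∃ β : ℝ, 1 ≤ β ∧
  ∀ c : Fin (r + 1) → Fin (r + 1) → ℝ, (∀ j, ‖c j‖ ≤ B) → ν ≤ |Matrix.det (Matrix.of c)| →
    ∃ Λ : (Fin (r + 1) → ℝ) ≃ₗ[ℝ] (Fin (r + 1) → ℝ),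
      (∀ j, Λ (c j) = Pi.single j 1) ∧ (∀ y, ‖Λ y‖ ≤ β * ‖y‖) ∧ (∀ y, ‖y‖ ≤ β * ‖Λ y‖) ∧
      ∀ h : (Fin (r + 1) → ℝ) → ℝ≥0∞, Measurable h →
        ∫⁻ x, h (Λ x) ≤ ENNReal.ofReal β * ∫⁻ x, h x

/-- K_ROT. From `Stmt_KAKX`, `Stmt_INV`, `Stmt_KRB`. Let `δ`, `C` be given by KAKX (for `r, E, ε`),
`β` by INV, `δ₁ = δ / (2 β)`. For `v` with `v last = 1`, `‖v - c_j‖ ≤ δ₁`: `Λ v = e_j + Λ(v - c_j)`,
`‖Λ(v - c_j)‖ ≤ β δ₁ = δ/2 ≤ 1/2`, so `(Λ v)_j ≥ 1/2` and `v' = Λ v / (Λ v)_j` has `v'_j = 1`,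
`|v'_i| ≤ (δ/2)/(1/2) = δ`, `i ≠ j`. Let `μ'_j` be the image of `μ_j` under
`(v, z) ↦ (Λ v / (Λ v)_j, Λ z)` (a measurable map; `SFinite` is preserved by `Measure.map`).
SEMINORMS: let `e = y - y_last v`, `y' = Λ y`, `e' = y' - y'_j v'`. The linear map
`u ↦ u - u_j v'` kills `v'`, so `e' = Λ e - (Λ e)_j v'` and `‖e'‖ ≤ 2 β ‖e‖` (`‖v'‖ ≤ 1`). The linear
map `u ↦ u - u_last v` kills `v`, and `y = Λ⁻¹ e' + (multiple of v)`, so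
`e = Λ⁻¹ e' - (Λ⁻¹ e')_last v`, `‖e‖ ≤ (1 + B + 1) β ‖e'‖`. Hence (KRB (4))
`hh last E W μ_j x ≤ C hh j E W μ'_j (Λ x)` and `hh j E R μ'_j (Λ x0) ≤ C hh last E R μ_j x0`, and
`kr F (‖x - x0‖ / R) ≤ C kr F (‖Λ x - Λ x0‖ / R)`. Apply INV (change of variables) and KAKX. -/
def Stmt_ROT : Prop := ∀ (r E : ℕ) (ε B ν : ℝ), 1 ≤ r → r + 1 ≤ E → 0 < ε → 0 ≤ B → 0 < ν →
  ∃ δ₁ C : ℝ, 0 < δ₁ ∧ 0 < C ∧
  ∀ (W R : ℝ) (μ : Fin (r + 1) → Measure ((Fin (r + 1) → ℝ) × (Fin (r + 1) → ℝ)))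
    [∀ j, SFinite (μ j)] (x0 : Fin (r + 1) → ℝ) (c : Fin (r + 1) → Fin (r + 1) → ℝ),
    0 < W → W ≤ R → (∀ j, ‖c j‖ ≤ B) → ν ≤ |Matrix.det (Matrix.of c)| →
    (∀ j, ∀ᵐ ω ∂(μ j), ω.1 (Fin.last r) = 1 ∧ ‖ω.1 - c j‖ ≤ δ₁) →
    ∫⁻ x, (∏ j, hh (Fin.last r) E W (μ j) x ^ (1 / (r : ℝ))) *
        kr (2 * E + r + 3) (‖x - x0‖ / R) ≤
      ENNReal.ofReal (C * W ^ (r + 1) * (R / W) ^ ε) *
        ∏ j, hh (Fin.last r) E R (μ j) x0 ^ (1 / (r : ℝ))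

/-- K_KAK, the multilinear Kakeya inequality. From `Stmt_ROT`, `Stmt_HHM`. Divide the ball
`‖v‖ ≤ B` into finitely many measurable cells of diameter at most `δ₁` (cubes of a grid; their number
`N` depends on `r`, `B`, `δ₁` only). For every `j` and every cell that meets `V j` choose
`c ∈ V j` in the cell; `μ_j ≤ ∑_cells μ_j restricted to {ω : ω.1 ∈ cell}` (a.e. `ω.1 ∈ V j`, so the
other cells have measure zero up to a null set). `hh` is additive in the measure (HHM (4), finite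
sums), `(∑ a)^(1/r) ≤ ∑ a^(1/r)` (`r ≥ 1`; `ENNReal.rpow_add_le_add_rpow`), expand the product over
`j` (`Finset.prod_univ_sum`), apply ROT to every choice of cells (`c_j ∈ V j`, so
`|det c| ≥ ν`), and `hh` of a restricted measure is at most `hh` of the measure. The constant is
multiplied by `N^(r+1)`. -/
def Stmt_KAK : Prop := ∀ (r E : ℕ) (ε B ν : ℝ), 1 ≤ r → r + 1 ≤ E → 0 < ε → 0 ≤ B → 0 < ν →
  ∃ C : ℝ, 0 < C ∧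
  ∀ (W R : ℝ) (μ : Fin (r + 1) → Measure ((Fin (r + 1) → ℝ) × (Fin (r + 1) → ℝ)))
    [∀ j, SFinite (μ j)] (x0 : Fin (r + 1) → ℝ) (D : Fin (r + 1) → Set (Fin (r + 1) → ℝ)),
    0 < W → W ≤ R → (∀ j, ∀ v ∈ D j, v (Fin.last r) = 1 ∧ ‖v‖ ≤ B) →
    (∀ c : Fin (r + 1) → Fin (r + 1) → ℝ, (∀ j, c j ∈ D j) → ν ≤ |Matrix.det (Matrix.of c)|) →
    (∀ j, ∀ᵐ ω ∂(μ j), ω.1 ∈ D j) →
    ∫⁻ x, (∏ j, hh (Fin.last r) E W (μ j) x ^ (1 / (r : ℝ))) *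
        kr (2 * E + r + 3) (‖x - x0‖ / R) ≤
      ENNReal.ofReal (C * W ^ (r + 1) * (R / W) ^ ε) *
        ∏ j, hh (Fin.last r) E R (μ j) x0 ^ (1 / (r : ℝ))

/-! ### D. Ball inflation -/

/-- K_KCM: measurability and positivity. (1), (2) `Measurable.lintegral_prod_right'` (the kernels are
measurable functions of `(x, z)`). (3) `kw > 0` everywhere, so `∫ g * kw = 0` implies `g = 0` almost
everywhere. (4) `lintegral_const_mul`. -/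
def Stmt_KCM : Prop :=
  (∀ (n E : ℕ) (R : ℝ) (g : (Fin n → ℝ) → ℝ≥0∞), Measurable g →
    Measurable (kw n E R) ∧ Measurable (ka g E R)) ∧
  (∀ (r N : ℕ) (v : Fin (r + 1) → ℝ) (ρ : ℝ) (g : (Fin (r + 1) → ℝ) → ℝ≥0∞), Measurable g →
    Measurable (kt r N v ρ) ∧ Measurable (kc g (kt r N v ρ))) ∧
  (∀ (n E : ℕ) (R : ℝ) (g : (Fin n → ℝ) → ℝ≥0∞) (x : Fin n → ℝ), 0 < R → Measurable g →
    ka g E R x = 0 → g =ᵐ[volume] 0) ∧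
  (∀ (n : ℕ) (l : ℝ≥0∞) (g k : (Fin n → ℝ) → ℝ≥0∞) (x : Fin n → ℝ), Measurable g →
    Measurable k → kc (fun z => l * g z) k x = l * kc g k x)

/-- K_MK. From `Stmt_KAK`, `Stmt_HHM`, `Stmt_KRB`, `Stmt_KCM`. Let `‖x - x0‖ ≤ ρ²`, `v = v_J`,
`y = x - z`, and `G` = the maximum in `kt`. `‖y‖ ≤ ‖y - y_last v‖ + B |y_last| ≤ (1 + B) ρ² G`
(`ρ ≥ 1`), so `kr (2E) G = kr E G * kr E G ≤ (1 + B)^E kr E (‖y‖/ρ²) * kr E (‖y - y_last v‖/ρ)`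
(KRB (4), (1)), and `kr E (‖x - z‖/ρ²) ≤ 2^E kr E (‖x0 - z‖/ρ²)`. So
`kc (g J) (kt ..) x ≤ C ρ^(-(r+2)) ∫ g_J(z) kr E (‖x0 - z‖/ρ²) kr E (‖(x-z) - (x-z)_last v_J‖/ρ) dz`,
and `∑_{J ∈ S j} kc .. ≤ C ρ^(-(r+2)) hh last E ρ μ_j x`, where
`μ_j = ∑_{J ∈ S j} (dirac (v J)).prod (volume.withDensity (fun z => g J z * kr E (‖x0 - z‖/ρ²)))`
(a finite sum of measures, `SFinite`; or the image of the measure with density under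
`z ↦ (v J, z)`). KAK with `W = ρ`, `R = ρ²`, `D j = {v J : J ∈ S j}`;
`kr (2E+r+3) (‖x - x0‖/ρ²) ≥ 2^(-(2E+r+3))` on the ball; on the right
`hh last E ρ² μ_j x0 ≤ μ_j univ = ∑_J ∫ g_J(z) kr E (‖x0 - z‖/ρ²) dz = ρ^(2(r+1)) ∑_J ka (g J) E ρ² x0`.
Powers of `ρ`: `-(r+2)(r+1)/r + (r+1) + 2(r+1)²/r = 2(r+1)`. -/
def Stmt_MK : Prop := ∀ (r E : ℕ) (ε B ν : ℝ), 1 ≤ r → r + 1 ≤ E → 0 < ε → 0 ≤ B → 0 < ν →
  ∃ C : ℝ, 0 < C ∧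
  ∀ (ι : Type) (S : Fin (r + 1) → Finset ι) (v : ι → Fin (r + 1) → ℝ)
    (g : ι → (Fin (r + 1) → ℝ) → ℝ≥0∞) (ρ : ℝ) (x0 : Fin (r + 1) → ℝ), 1 ≤ ρ →
    (∀ J, Measurable (g J)) →
    (∀ j, ∀ J ∈ S j, v J (Fin.last r) = 1 ∧ ‖v J‖ ≤ B) →
    (∀ J : Fin (r + 1) → ι, (∀ j, J j ∈ S j) → ν ≤ |Matrix.det (Matrix.of fun j => v (J j))|) →
    ∫⁻ x in Metric.closedBall x0 (ρ ^ 2),
        ∏ j, (∑ J ∈ S j, kc (g J) (kt r (2 * E) (v J) ρ) x) ^ (1 / (r : ℝ)) ≤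
      ENNReal.ofReal (C * ρ ^ ε * ρ ^ (2 * (r + 1))) *
        ∏ j, (∑ J ∈ S j, ka (g J) E (ρ ^ 2) x0) ^ (1 / (r : ℝ))

/-- K_HOL, the inequality that replaces dyadic pigeonholing. `l_J = c_J^(2/s - 1)` if `c_J ≠ 0`, and
`l_J = 0` if `c_J = 0`. `s = 2`: the terms with `c_J = 0` vanish on both sides. `s > 2`: over the `J`
with `c_J ≠ 0`, `∑ a^(2/s) = ∑ (l a)^(2/s) c^((1 - 2/s)(2/s))`, Hoelder with the exponents `s/2` and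
`s/(s-2)`: `≤ (∑ l a)^(2/s) (∑ c^(2/s))^(1 - 2/s)`. Raise to the power `s/2`. And
`∑ l c = ∑ c^(2/s)`. -/
def Stmt_HOL : Prop := ∀ (ι : Type) (S : Finset ι) (s : ℝ) (c : ι → ℝ≥0∞), 2 ≤ s →
  (∀ J ∈ S, c J ≠ ⊤) →
  ∃ l : ι → ℝ≥0∞, (∀ J ∈ S, l J ≠ ⊤) ∧ ∑ J ∈ S, l J * c J = ∑ J ∈ S, c J ^ (2 / s) ∧
    ∀ a : ι → ℝ≥0∞, (∀ J ∈ S, c J = 0 → a J = 0) →
      (∑ J ∈ S, a J ^ (2 / s)) ^ (s / 2) ≤
        (∑ J ∈ S, l J * a J) * (∑ J ∈ S, c J ^ (2 / s)) ^ (s / 2 - 1)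

/-- K_INF1, local inflation. From `Stmt_MK`, `Stmt_KCM`, `Stmt_HOL`. Put
`a_J(x) = kc (f J) (kt ..) x`, `c_J = ka (f J) E ρ² x0`, `T_j(x) = ∑_{J ∈ S j} a_J(x)^(2/s)`,
`T'_j = ∑_{J ∈ S j} c_J^(2/s)`. If some `T'_j = 0` then `c_J = 0` for all `J ∈ S j`, so `f_J = 0` a.e.
(KCM (3)) and the left side is `0` (`p > 0`). Otherwise, if some `T'_j = ∞` then the right side is
`∞`. So let `0 < T'_j < ∞` for all `j`; then all `c_J` (`J ∈ S j`) are finite. By HOL (`c_J = 0`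
implies `f_J = 0` a.e., so `a_J(x) = 0`): `T_j(x)^(s/2) ≤ (∑ l_J a_J(x)) T'_j^(s/2 - 1)`. MK for
`g_J = l_J f_J` (KCM (4)) gives
`∫_ball ∏ (∑ l_J a_J)^(1/r) ≤ C ρ^ε ρ^(2(r+1)) ∏ (∑ l_J c_J)^(1/r) = C ρ^ε ρ^(2(r+1)) ∏ T'_j^(1/r)`,
hence `∫_ball ∏ (T_j^(s/2))^(1/r) ≤ C ρ^ε ρ^(2(r+1)) ∏ (T'_j^(s/2))^(1/r)`. (`l` is chosen for every
`j` separately: use the index type `Fin (r + 1) × ι` in MK if the `S j` overlap.) Let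
`θ = p r/((r+1) s) ≤ 1`, so that `p/(2(r+1)) = θ s/(2r)`. Hoelder on the ball, which has volume
`(2 ρ²)^(r+1)`: `∫_ball Φ^θ ≤ |ball|^(1-θ) (∫_ball Φ)^θ`. The factor is
`C |ball|^(1-θ) (ρ^ε ρ^(2(r+1)))^θ ≤ C ρ^ε ρ^(2(r+1))`. -/
def Stmt_INF1 : Prop := ∀ (r E : ℕ) (p s ε B ν : ℝ), 1 ≤ r → r + 1 ≤ E → 0 < p → 2 ≤ s →
  p * r ≤ s * (r + 1) → 0 < ε → 0 ≤ B → 0 < ν → ∃ C : ℝ, 0 < C ∧
  ∀ (ι : Type) (S : Fin (r + 1) → Finset ι) (v : ι → Fin (r + 1) → ℝ)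
    (f : ι → (Fin (r + 1) → ℝ) → ℝ≥0∞) (ρ : ℝ) (x0 : Fin (r + 1) → ℝ), 1 ≤ ρ →
    (∀ J, Measurable (f J)) →
    (∀ j, ∀ J ∈ S j, v J (Fin.last r) = 1 ∧ ‖v J‖ ≤ B) →
    (∀ J : Fin (r + 1) → ι, (∀ j, J j ∈ S j) → ν ≤ |Matrix.det (Matrix.of fun j => v (J j))|) →
    ∫⁻ x in Metric.closedBall x0 (ρ ^ 2),
        ∏ j, (∑ J ∈ S j, kc (f J) (kt r (2 * E) (v J) ρ) x ^ (2 / s)) ^ (p / (2 * (r + 1))) ≤
      ENNReal.ofReal (C * ρ ^ ε * ρ ^ (2 * (r + 1))) *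
        ∏ j, (∑ J ∈ S j, ka (f J) E (ρ ^ 2) x0 ^ (2 / s)) ^ (p / (2 * (r + 1)))

/-- K_INF2, inflation against a weight. From `Stmt_INF1`, `Stmt_KCM`. `Φ` = the first product.
`w(x) ≤ 2^F w(y)` for `‖x - y‖ ≤ ρ²`; Tonelli:
`∫ Φ w = (2ρ²)^(-(r+1)) ∫_y ∫_{‖x - y‖ ≤ ρ²} Φ(x) w(x) dx dy`, and INF1 at the point `y`. -/
def Stmt_INF2 : Prop := ∀ (r E F : ℕ) (p s ε B ν : ℝ), 1 ≤ r → r + 1 ≤ E → 0 < p → 2 ≤ s →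
  p * r ≤ s * (r + 1) → 0 < ε → 0 ≤ B → 0 < ν → ∃ C : ℝ, 0 < C ∧
  ∀ (ι : Type) (S : Fin (r + 1) → Finset ι) (v : ι → Fin (r + 1) → ℝ)
    (f : ι → (Fin (r + 1) → ℝ) → ℝ≥0∞) (ρ : ℝ) (w : (Fin (r + 1) → ℝ) → ℝ≥0∞), 1 ≤ ρ →
    (∀ J, Measurable (f J)) → Measurable w →
    (∀ x y, w x ≤ w y * ENNReal.ofReal ((1 + ‖x - y‖ / ρ ^ 2) ^ F)) →
    (∀ j, ∀ J ∈ S j, v J (Fin.last r) = 1 ∧ ‖v J‖ ≤ B) →
    (∀ J : Fin (r + 1) → ι, (∀ j, J j ∈ S j) → ν ≤ |Matrix.det (Matrix.of fun j => v (J j))|) →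
    ∫⁻ x, (∏ j, (∑ J ∈ S j, kc (f J) (kt r (2 * E) (v J) ρ) x ^ (2 / s))
        ^ (p / (2 * (r + 1)))) * w x ≤
      ENNReal.ofReal (C * ρ ^ ε) *
        ∫⁻ x, (∏ j, (∑ J ∈ S j, ka (f J) E (ρ ^ 2) x ^ (2 / s)) ^ (p / (2 * (r + 1)))) * w x

/-- K_ISO, the two coordinate systems. `e z = Fin.snoc z.1 z.2`
(`MeasurableEquiv.piFinSuccAbove (fun _ => ℝ) (Fin.last r)` and a swap). The norms are sup norms.
(6) `‖u - u_last • (-v, 1)‖ = ‖z.1 + z.2 • v‖` for `u = e z`, and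
`(1 + a)^(-2E) (1 + b)^(-2E) ≤ (1 + max a b)^(-2E)`. (7) `(1 + a)^(-E) ≤ (1 + a)^(-a₀)` for
`a₀ ≤ E`. (8) the rows `(-x, 1)` have the determinant `(-1)^r dt x`. -/
def Stmt_ISO : Prop := ∀ (r : ℕ), ∃ e : X r ≃ᵐ (Fin (r + 1) → ℝ),
  MeasurePreserving e volume volume ∧ (∀ z, ‖e z‖ = ‖z‖) ∧ (∀ z y, e (z - y) = e z - e y) ∧
  (∀ z, e z (Fin.last r) = z.2) ∧ (∀ z i, e z (Fin.castSucc i) = z.1 i) ∧
  (∀ (E : ℕ) (R : ℝ) (v : Fin r → ℝ) (z : X r), 0 < R →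
    wT R (2 * (E : ℝ)) v z ≤ kt r (2 * E) (e (-v, 1)) R (e z)) ∧
  (∀ (E : ℕ) (a R : ℝ) (z : X r), 0 < R → a ≤ E → kw (r + 1) E R (e z) ≤ wt R a z) ∧
  (∀ x : Fin (r + 1) → Fin r → ℝ,
    |Matrix.det (Matrix.of fun k => e (-(x k), 1))| = |dt x|)

/-- K_Inf, the interface statement of the block K (`Stmt_Inf` of `Stmts.lean`); the module proves
`Stmt_INF2 → Stmt_ISO → Stmt_WtBasic → Stmt_Inf`. `E' = max (r + 1) ⌈a⌉`, `a' = 2 E'`,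
`F = ⌈E⌉`, `B = max V 1`; `κ`, `J`, directions `e (-(v j), 1)`, functions `f j ∘ e.symm`, weight
`w ∘ e.symm`; ISO (6): `avT R a' (v j) (f j) z ≤ kc (f j ∘ e.symm) (kt ..) (e z)`, ISO (7):
`ka (f j ∘ e.symm) E' (R^2) (e z) ≤ av (R^2) a (f j) z`; change of variables with `e`
(`MeasurePreserving.lintegral_comp`). -/
def Stmt_InfK : Prop := Stmt_INF2 → Stmt_ISO → Stmt_WtBasic → Stmt_Inf

end DEC
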