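import Pool.Agent.DEC.Stmts
import Pool.Agent.DEC.WBasic

/-!
# l^2 decoupling, block W: weights, orthogonality, local constancy

Module statements with complete proofs in the doc strings. All modules are independent of each
other (hypothesis style: `theorem t_XXX (h1 : Stmt_AAA) ... : Stmt_XXX`). Elementary lemmas on
`ee`, `pr`, `Trig`, `wt`, `wT`, `av`, `avT` are in `WBasic.lean` (with the Haar measure instance for
`X r`, which Mathlib does not find). `n = r + 1` is the dimension of `X r`. The bracket of `u` is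
`br u = 1 + ‖u‖ / R`; it satisfies `1 ≤ br u`, `br (u+v) ≤ br u * br v` (`br_add_le`, `br_sub_le`).
-/

open MeasureTheory
open scoped ENNReal Matrix

namespace DEC

/-! ### Weights and averages -/

/-- DEC_W_WTB. Proof of `Stmt_WtBasic`.
(1) Measurable: if `w y = 0` for some `y` then `w = 0` (`w x ≤ w y * finite`); if `w y = ∞` for some
`y` then `w = ∞` everywhere (`w y ≤ w x * finite`). Otherwise `w = ofReal ∘ f`, `f = toReal ∘ w > 0`,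
`f x ≤ f y (1 + ‖x-y‖/R)^E` for all `x, y`, so `|f x - f y| ≤ f y ((1 + ‖x-y‖/R)^E - 1)` or use
`f y (1+‖x-y‖/R)^(-E) ≤ f x ≤ f y (1+‖x-y‖/R)^E` and squeeze for `x → y`: `f` is continuous. Monotone:
`(1 + t/R)^E ≤ (1 + t/ρ)^E'` for `t ≥ 0`.
(2) `w' x = ⨅ y, ofReal B * w y * ofReal ((1 + ‖x - y‖/R)^E)`. `w ≤ w'` is the hypothesis (`le_iInf`),
`w' x ≤ ofReal B * w x` is `y = x`. `Wt`: for every `y` the term at `x` is at most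
`ofReal ((1+‖x-x'‖/R)^E)` times the term at `x'` (`br_sub_le`, `Real.mul_rpow`,
`Real.rpow_le_rpow`), now `ENNReal.iInf_mul_of_ne` (or `ENNReal.mul_iInf_of_ne`).
(3) `1 + ‖z-y‖/R ≤ (1 + ‖z-x‖/R)(1 + ‖x-y‖/R)`, raised to the power `E`, and
`R^(-(r+1)) ≥ 0`; everything inside one `ENNReal.ofReal`. -/
def Stmt_WTB : Prop := Stmt_WtBasic

/-- DEC_W_AVA. The first three parts of `Stmt_AvBasic`, and finiteness.
Proof. (1) `C = (∫⁻ u, wt 1 a u).toReal`: `∫⁻ u : X r, ofReal ((1 + ‖u‖) ^ (-a)) < ∞` is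
`finite_integral_one_add_norm` (`finrank_X`: the dimension is `r + 1`; the Haar instance is in
`WBasic`), it is positive since the integrand is positive and continuous. Scaling: `wt R a u =
ofReal (R^(-(r+1))) * wt 1 a (R⁻¹ • u)`, `‖R⁻¹ • u‖ = ‖u‖/R`, and
`Measure.lintegral_comp_smul`-type lemma (or `Measure.map_addHaar_smul` with `lintegral_map`): the
factor `|(R⁻¹)^(r+1)|⁻¹ = R^(r+1)` cancels. (2) `(1 + ‖u‖/R)^(-a) ≤ (1 + ‖u‖/R')^(-a)` and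
`R^(-(r+1)) = (R'/R)^(r+1) R'^(-(r+1))`. (3) pointwise `wt R a (z-y) ≤ (1+‖z-z'‖/R)^a wt R a (z'-y)`
as in DEC_W_WTB (3), then `lintegral_mono` and `lintegral_const_mul'` (the constant is finite). (4)
`(1+‖u‖/R)^(-a) (1+‖u‖/R)^G = (1+‖u‖/R)^(-(a-G))`, (1) for the exponent `a - G`. -/
def Stmt_AVA : Prop :=
  (∀ (r : ℕ) (a : ℝ), (r : ℝ) + 1 < a → ∃ C : ℝ, 0 < C ∧ ∀ R : ℝ, 0 < R →
    ∫⁻ u : X r, wt R a u = ENNReal.ofReal C) ∧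
  (∀ (r : ℕ) (a R R' : ℝ) (u : X r), 0 ≤ a → 0 < R → R ≤ R' →
    wt R a u ≤ ENNReal.ofReal ((R' / R) ^ ((r : ℝ) + 1)) * wt R' a u) ∧
  (∀ (r : ℕ) (a R : ℝ) (f : X r → ℝ≥0∞) (z z' : X r), 0 ≤ a → 0 < R →
    av R a f z ≤ ENNReal.ofReal ((1 + ‖z - z'‖ / R) ^ a) * av R a f z') ∧
  (∀ (r : ℕ) (a G : ℝ), G + r + 1 < a → ∃ C : ℝ, 0 < C ∧ ∀ R : ℝ, 0 < R →
    ∫⁻ u : X r, wt R a u * ENNReal.ofReal ((1 + ‖u‖ / R) ^ G) = ENNReal.ofReal C)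

/-- DEC_W_KW (hypothesis `Stmt_AVA`). Convolution of a weight with a kernel of mass one at scale `R`.
Proof. Upper bound: `G (R⁻¹ • (z-y)) ≤ c₁ (1+‖z-y‖/R)^(-a)`, so the integrand is at most
`ofReal c₁ * wt R a (z-y) * w y * ofReal ((1+‖z-y‖/R)^E)` (definition of `Wt`), whose integral over
`z` is `ofReal c₁ * w y * C` by (4) of `Stmt_AVA` (translation invariance). Lower bound: for
`‖z-y‖ ≤ R` we have `G ≥ 1/c₁`, `w y ≤ w z 2^E`; the ball of radius `R` in the sup norm of `X r` has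
volume `(2R)^(r+1) ≥ R^(r+1)` (`Real.volume_pi_closedBall`, product; or
`Measure.addHaar_closedBall` and positivity of the volume of the unit ball, which is all that is
needed for a constant), so `∫⁻ z ≥ ofReal (R^(-(r+1)) / c₁) * 2^(-E) w y * ofReal (R^(r+1))`. -/
def Stmt_KW : Prop :=
  ∀ (r : ℕ) (E a c₁ : ℝ), 0 ≤ E → E + r + 1 < a → 0 < c₁ → ∃ C : ℝ, 0 < C ∧
    ∀ G : X r → ℝ, Continuous G → (∀ x, 0 ≤ G x) → (∀ x, ‖x‖ ≤ 1 → 1 / c₁ ≤ G x) →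
      (∀ x, G x ≤ c₁ * (1 + ‖x‖) ^ (-a)) →
      ∀ (R : ℝ) (w : X r → ℝ≥0∞), 0 < R → Wt R E w → ∀ y,
        w y ≤ ENNReal.ofReal C *
          ∫⁻ z, ENNReal.ofReal (R ^ (-((r : ℝ) + 1)) * G (R⁻¹ • (z - y))) * w z ∧
        ∫⁻ z, ENNReal.ofReal (R ^ (-((r : ℝ) + 1)) * G (R⁻¹ • (z - y))) * w z
          ≤ ENNReal.ofReal C * w y

/-- DEC_W_AVB (hypotheses `Stmt_WTB Stmt_AVA Stmt_KW`): `Stmt_AvBasic`.
Proof. Parts 1-3 are in `Stmt_AVA`. Part 4: `G x = (1+‖x‖)^(-a)`, `c₁ = 2^a`;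
`wt R a (z-y) = ofReal (R^(-(r+1)) * G (R⁻¹ • (z-y)))`. Tonelli (`lintegral_lintegral_swap`, all
functions measurable, `w` by `Stmt_WTB`):
`∫⁻ z, av R a f z * w z = ∫⁻ y, f y * ∫⁻ z, wt R a (z-y) * w z`; now `Stmt_KW` pointwise in `y`. -/
def Stmt_AVB : Prop := Stmt_AvBasic

/-! ### Kernels -/

/-- DEC_W_G1. A nonnegative band-limited function on the line.
Proof. `h : ℝ → ℝ` smooth, `h ≥ 0`, support in `[-1/16, 1/16]`, `∫ h = 1` (`ContDiffBump`, normed),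
as a complex Schwartz function; `g t = 4 ‖𝓕 h t‖²`. (i) `𝓕 h` is a Schwartz function: continuity and the
decay `‖𝓕 h t‖ ≤ C_k (1+|t|)^(-k)` for every natural `k` (`SchwartzMap.one_add_le_sup_seminorm_apply`
or `SchwartzMap.decay`), `a ≤ k`. (ii) For `|t| ≤ 1`: `Re 𝓕 h t = ∫ h x cos (2π x t) ≥ cos (π/8) ≥ 1/2`,
so `g t ≥ 1`. (iii) For `|ω| ≥ 1`: `∫ |𝓕 h t|² ee (ω t) dt = 0`. Let `h_ω x = h (x + ω)`; then
`𝓕 h_ω t = ee (ω t) 𝓕 h t`, and Plancherel for Schwartz functions (`SchwartzMap.integral_inner_fourier_fourier`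
or the self-adjointness `VectorFourier.integral_fourierIntegral_smul_eq_flip`,
`Real.integral_fourier_mul_eq`-type lemma, with Fourier inversion) gives
`∫ conj (𝓕 h t) 𝓕 h_ω t dt = ∫ conj (h x) h (x + ω) dx = 0` since the supports are disjoint. -/
def Stmt_G1 : Prop :=
  ∃ g : ℝ → ℝ, Continuous g ∧ (∀ t, 0 ≤ g t) ∧ (∀ t, |t| ≤ 1 → 1 ≤ g t) ∧
    (∀ a : ℝ, ∃ C : ℝ, 0 < C ∧ ∀ t, g t ≤ C * (1 + |t|) ^ (-a)) ∧
    ∀ ω : ℝ, 1 ≤ |ω| → ∫ t, (g t : ℂ) * ee (ω * t) = 0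

/-- DEC_W_F1. A kernel on the line whose Fourier transform is one on `[-B, B]`.
Proof. `χ : ℝ → ℂ` smooth with compact support, `χ = 1` on `[-B, B]` (`ContDiffBump`), `φ = 𝓕 χ`, a
Schwartz function. `∫ φ t ee (ω t) dt = 𝓕⁻¹ (𝓕 χ) ω = χ ω` (Fourier inversion,
`Continuous.fourierInv_fourier_eq` / `SchwartzMap` version). Decay as in DEC_W_G1 (i). -/
def Stmt_F1 : Prop :=
  ∀ B : ℝ, ∃ φ : ℝ → ℂ, Continuous φ ∧
    (∀ a : ℝ, ∃ C : ℝ, 0 < C ∧ ∀ t, ‖φ t‖ ≤ C * (1 + |t|) ^ (-a)) ∧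
    ∀ ω : ℝ, |ω| ≤ B → ∫ t, φ t * ee (ω * t) = 1

/-- The product of the values of `f` at the coordinates. -/
noncomputable def prdK {r : ℕ} (f : ℝ → ℂ) (x : X r) : ℂ := (∏ i, f (x.1 i)) * f x.2

/-- DEC_W_PRD. Product kernels.
Proof. Continuity clear. Bound: every factor is at most `C` in norm (as `a ≥ 0`), and the factor of a
coordinate `j` with `|x_j| = ‖x‖` (sup norm; `j` in `Fin r` or the last one) is at most
`C (1+‖x‖)^(-a)`; `C' = C^(r+1)` with `C ≥ 1`. Integral: `ee (pr w x) = (∏ i, ee (w.1 i * x.1 i)) *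
ee (w.2 * x.2)` (`dotProduct`, `ee_add`, induction over a finset or `Complex.exp_sum`);
`Measure.volume_eq_prod`, `integral_prod_mul`, `integral_fintype_prod_eq_prod`
(`MeasureTheory.integral_fintype_prod_volume_eq_prod`). -/
def Stmt_PRD : Prop :=
  ∀ (r : ℕ) (a C : ℝ) (f : ℝ → ℂ), 0 ≤ a → 0 < C → Continuous f →
    (∀ t, ‖f t‖ ≤ C * (1 + |t|) ^ (-a)) →
    Continuous (prdK f : X r → ℂ) ∧
    (∃ C' : ℝ, 0 < C' ∧ ∀ x : X r, ‖prdK f x‖ ≤ C' * (1 + ‖x‖) ^ (-a)) ∧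
    ∀ w : X r, ∫ x : X r, prdK f x * ee (pr w x)
      = (∏ i, ∫ t, f t * ee (w.1 i * t)) * ∫ t, f t * ee (w.2 * t)

/-- DEC_W_G (hypotheses `Stmt_G1 Stmt_PRD`). Band-limited kernel on `X r`.
Proof. `G x = (∏ i, g (x.1 i)) * g x.2`, `(G x : ℂ) = prdK (fun t => (g t : ℂ)) x`. If `‖w‖ ≥ 1` one
coordinate of `w` has absolute value `≥ 1`, so one factor of the integral vanishes. -/
def Stmt_G : Prop :=
  ∀ (r : ℕ) (a : ℝ), 0 ≤ a → ∃ (G : X r → ℝ) (C : ℝ), 0 < C ∧ Continuous G ∧ (∀ x, 0 ≤ G x) ∧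
    (∀ x, ‖x‖ ≤ 1 → 1 ≤ G x) ∧ (∀ x, G x ≤ C * (1 + ‖x‖) ^ (-a)) ∧
    ∀ w : X r, 1 ≤ ‖w‖ → ∫ x, (G x : ℂ) * ee (pr w x) = 0

/-- DEC_W_F (hypotheses `Stmt_F1 Stmt_PRD`). Reproducing kernel on `X r`: `Φ = prdK φ`. -/
def Stmt_F : Prop :=
  ∀ (r : ℕ) (a B : ℝ), 0 ≤ a → ∃ (Φ : X r → ℂ) (C : ℝ), 0 < C ∧ Continuous Φ ∧
    (∀ x, ‖Φ x‖ ≤ C * (1 + ‖x‖) ^ (-a)) ∧
    ∀ w : X r, ‖w‖ ≤ B → ∫ x, Φ x * ee (pr w x) = 1

/-! ### Local constancy -/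

/-- DEC_W_J. Reproducing kernels and Jensen's inequality.
Proof. `F z = ∑ a_i ee (pr w_i z)`, `w_i ∈ S`. Put `H z = F z * ee (pr (-q) z) = ∑ a_i ee (pr (w_i-q) z)`.
Then `∫ H (z-y) K y dy = ∑ a_i ee (pr (w_i-q) z) ∫ K y ee (pr (q-w_i) y) dy = H z` (finite sum of
integrable functions, `norm_ee`). So `‖F z‖ₑ ≤ ∫⁻ y, ‖F (z-y)‖ₑ * ‖K y‖ₑ = ∫⁻ y, ‖F y‖ₑ * ‖K (z-y)‖ₑ`
(`enorm_integral_le_lintegral_enorm`, `lintegral_sub_left_eq_self`). Hölder for `s > 1` with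
`1/s + 1/s' = 1`: `∫⁻ |F| |K| ≤ (∫⁻ |F|^s |K|)^(1/s) (∫⁻ |K|)^(1/s')` (`ENNReal.lintegral_mul_le_Lp_mul_Lq`
with `f = |F| |K|^(1/s)`, `g = |K|^(1/s')`, or with the measure `|K| dy`); raise to the power `s`. -/
def Stmt_J : Prop :=
  ∀ (r : ℕ) (s : ℝ) (K : X r → ℂ) (q : X r) (S : Set (X r)) (F : X r → ℂ), 1 ≤ s →
    Continuous K → Integrable K → (∀ w ∈ S, ∫ y, K y * ee (pr (q - w) y) = 1) → Trig F S →
    ∀ z, pw s F z ≤ (∫⁻ y, ‖K y‖ₑ) ^ (s - 1) * ∫⁻ y, pw s F y * ‖K (z - y)‖ₑ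

/-- DEC_W_CV. Change of variables for tubes.
Proof. The map is the composition of the shear `(x, t) ↦ (x + t v, t)`, which preserves the volume
(`MeasurePreserving.skew_product` after a swap, or `lintegral_prod` and translation invariance
of the inner integral), and of `(x, t) ↦ (R⁻¹ x, R⁻² t)` (`Measure.map_prod_map`,
`Measure.map_addHaar_smul`, `Real.map_volume_mul_left`), determinant `R^(-r-2)`. Alternatively
`Measure.map_linearMap_addHaar_eq_smul_addHaar` and the determinant of the linear map. -/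
def Stmt_CV : Prop :=
  ∀ (r : ℕ) (R : ℝ) (v : Fin r → ℝ), 0 < R →
    Measure.map (fun u : X r => ((R⁻¹ • (u.1 + u.2 • v), u.2 / R ^ 2) : X r)) volume
      = ENNReal.ofReal (R ^ ((r : ℝ) + 2)) • (volume : Measure (X r))

/-- DEC_W_BERN (hypotheses `Stmt_F Stmt_J`): `Stmt_Bern`.
Proof. `a₁ = a + r + 2`, `Φ`, `C` from `Stmt_F` for `a₁` and `B = b`. `K u = R^(-(r+1)) Φ (R⁻¹ • u)`,
`‖K u‖ₑ ≤ ofReal C * wt R a₁ u ≤ ofReal C * wt R a u`, `∫⁻ ‖K‖ₑ = ∫⁻ ‖Φ‖ₑ < ∞` (scaling,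
`finite_integral_one_add_norm`), and `∫ K y ee (pr (q-w) y) dy = ∫ Φ y ee (pr (R • (q-w)) y) dy = 1`
for `‖w-q‖ ≤ b/R` (`Measure.integral_comp_inv_smul`-type lemma). `Stmt_J` with
`S = {w | ‖w-q‖ ≤ b/R}`. -/
def Stmt_BERN : Prop := Stmt_Bern

/-- DEC_W_LT (hypotheses `Stmt_F Stmt_J Stmt_CV`). Local constancy on tubes.
Proof. `v = 2 A ξ`, `B = |b| + r |L| b²`, `a₁ = 2 a + r + 2`, `Φ`, `C` from `Stmt_F` for `a₁`, `B`.
`K u = R^(-(r+2)) Φ (R⁻¹ (u.1 + u.2 v), u.2/R²)`. By `Stmt_CV` (`integral_map`, the map is a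
homeomorphism) `∫⁻ ‖K‖ₑ = ∫⁻ ‖Φ‖ₑ < ∞`, and for `w = (ξ+ζ, τ)` in the box, `q = (ξ, qf A ξ)`:
`pr (q - w) u = -(ζ · u.1 + (τ - qf A ξ) u.2) = -(ζ · (u.1 + u.2 v) + (τ - qf A (ξ+ζ) + qf A ζ) u.2)`
since `qf A (ξ+ζ) = qf A ξ + ζ · v + qf A ζ` (`A` symmetric), which is the pairing of
`(u.1 + u.2 v)/R`, `u.2/R²` with `-(R ζ, R² (τ - qf A w.1 + qf A ζ))`, of norm at most
`max (b, b + L r b²) ≤ B` (`0 ≤ qf A ζ ≤ L ∑ ζ_i² ≤ L r (b/R)²`; if the box is empty, e.g. `b < 0`,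
there is nothing to prove). So `Stmt_J` applies with `S = Box A b R ξ`. Finally
`(1 + max(s,t))^(-2a) ≤ (1+s)^(-a) (1+t)^(-a)`, so `‖K u‖ₑ ≤ ofReal C * wT R a v u`. -/
def Stmt_LT : Prop :=
  ∀ (r : ℕ) (s a b l L : ℝ), 1 ≤ s → 0 ≤ a → 0 < l → ∃ C : ℝ, 0 < C ∧
    ∀ (R : ℝ) (A : Matrix (Fin r) (Fin r) ℝ) (ξ : Fin r → ℝ) (F : X r → ℂ), 0 < R → QF l L A →
      Trig F (Box A b R ξ) →
      ∀ z, pw s F z ≤ ENNReal.ofReal C * avT R a ((2 : ℝ) • (A *ᵥ ξ)) (pw s F) z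

/-- DEC_W_CT (hypothesis `Stmt_AVA`). Convolution of a tube kernel and a ball kernel.
Proof. `a' = 2 a + r + 2`. For all `u, y`: `u.1 + u.2 v = ((u-y).1 + (u-y).2 v) + (y.1 + y.2 v)` and
`‖y.1 + y.2 v‖ ≤ (1+V) ‖y‖`, so `1 + ‖u.1 + u.2 v‖/R ≤ (1 + ‖(u-y).1 + (u-y).2 v‖/R) (1+V) (1 + ‖y‖/R)`;
`1 + |u.2|/R² ≤ (1 + |(u-y).2|/R²)(1 + ‖y‖/R)` as `R ≥ 1`. Hence
`wT R a v (u-y) ≤ (1+V)^a (1 + ‖y‖/R)^(2a) wT R a v u`, and (4) of `Stmt_AVA` with `G = 2 a`. -/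
def Stmt_CT : Prop :=
  ∀ (r : ℕ) (a V : ℝ), 0 ≤ a → 0 ≤ V → ∃ a' C : ℝ, 0 ≤ a' ∧ 0 < C ∧
    ∀ (R : ℝ) (v : Fin r → ℝ) (u : X r), 1 ≤ R → ‖v‖ ≤ V →
      ∫⁻ y, wT R a v (u - y) * wt R a' y ≤ ENNReal.ofReal C * wT R a v u

/-- DEC_W_LC (hypotheses `Stmt_LT Stmt_CT`): `Stmt_LC`.
Proof. `‖v‖ = ‖2 A ξ‖ ≤ V₁ = 2 r |L| |V|`: for `A` symmetric positive
definite with `qf A ≤ L |·|²` one has `|A_ij| ≤ L` (`(e_i ± e_j)ᵀ A (e_i ± e_j) ≥ 0` and `≤ 2 L`, or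
Cauchy-Schwarz for the form, `A_ii ≤ L`), so `‖A ξ‖ ≤ r L V`. With `a', C` from `Stmt_CT`:
`av R a' (pw s F) z ≤ C ∫⁻ y, (∫⁻ x, pw s F x * wT R a v (y-x)) * wt R a' (z-y)
= C ∫⁻ x, pw s F x * ∫⁻ y, wT R a v (y-x) * wt R a' (z-y)` (Tonelli), and the inner integral is
`∫⁻ y', wT R a v ((z-x)-y') * wt R a' y' ≤ C wT R a v (z-x)` (substitution `y' = z - y`). -/
def Stmt_LCF : Prop := Stmt_LC

/-! ### Orthogonality -/

/-- DEC_W_O0. Almost orthogonality for a fixed kernel.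
Proof. All functions `F i` are bounded and continuous, `G` is integrable, so every integral below is
finite. `‖∑ F_i‖² G = ∑_{i,j} F_i conj F_j G`; the pair `(i,j)` has integral `0` if `j ∉ T_i`: it is a
finite sum of `a conj b ∫ ee (pr x z) conj (ee (pr y z)) G z dz`, `x ∈ fr i`, `y ∈ fr j`
(`ee_sub`, `pr_sub_left`). By the same token (complex conjugate) if `i ∉ T_j`. For the other
pairs `j ∈ T_i` and `i ∈ T_j`, `|∫ F_i conj F_j G| ≤ (A_i + A_j)/2`, `A_i = ∫ ‖F_i‖² G`. So the real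
part of the sum is at most `∑_i ∑_{j ∈ T_i} A_i/2 + ∑_j ∑_{i ∈ T_j} A_j/2 ≤ m ∑ A_i`. Work with real
integrals and `ofReal_integral_eq_lintegral_ofReal`. -/
def Stmt_O0 : Prop :=
  ∀ (r m : ℕ) (G : X r → ℝ), Continuous G → (∀ x, 0 ≤ G x) → Integrable G →
    ∀ (ι : Type) (S : Finset ι) (F : ι → X r → ℂ) (fr : ι → Set (X r)),
    (∀ i ∈ S, Trig (F i) (fr i)) →
    (∀ i ∈ S, ∃ T : Finset ι, T.card ≤ m ∧ ∀ j ∈ S, j ∉ T → ∀ x ∈ fr i, ∀ y ∈ fr j,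
      ∫ z, (G z : ℂ) * ee (pr (x - y) z) = 0) →
    ∫⁻ z, pw 2 (fun y => ∑ i ∈ S, F i y) z * ENNReal.ofReal (G z)
      ≤ (m : ℝ≥0∞) * ∑ i ∈ S, ∫⁻ z, pw 2 (F i) z * ENNReal.ofReal (G z)

/-- DEC_W_ORTH (hypotheses `Stmt_WTB Stmt_G Stmt_KW Stmt_O0`): `Stmt_Orth`.
Proof. `a = E + r + 2`, `G`, `C₀` from `Stmt_G`, `c₁ = max C₀ 1`, `C₁` from `Stmt_KW`,
`k_z (y) = R^(-(r+1)) G (R⁻¹ • (z - y))`. For all measurable `f ≥ 0` (Tonelli, `Stmt_KW`):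
`∫⁻ f w ≤ C₁ ∫⁻ z, w z * ∫⁻ y, f y * ofReal (k_z y)` and
`∫⁻ z, w z * ∫⁻ y, f y * ofReal (k_z y) ≤ C₁ ∫⁻ f w`. For fixed `z` apply `Stmt_O0` with the kernel
`k_z`: `∫ k_z (y) ee (pr (x-x') y) dy = ee (pr (x-x') z) ∫ G u ee (pr (-R • (x-x')) u) du = 0`
since `‖R (x-x')‖ > 1`. Result with the constant `C₁² m` (plus one if `m = 0`). -/
def Stmt_ORTH : Prop := Stmt_Orth

end DEC
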