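import Pool.Agent.DEC.WBasic
import Pool.Agent.DEC.CBasic

/-!
# l^2 decoupling, block W: further lemmas on the averages

The monotonicity of the kernels in the exponent (`wt_anti`, `av_anti`, `wT_anti`, `avT_anti`) is in
`CBasic.lean`.
-/

open MeasureTheory
open scoped ENNReal Matrix

namespace DEC

variable {r : ℕ}

/-- Scaling of the kernel: `wt R a u = R^(-(r+1)) wt 1 a (R⁻¹ u)`. -/
lemma wt_scale {R a : ℝ} (hR : 0 < R) (u : X r) :
    wt R a u = ENNReal.ofReal (R ^ (-((r : ℝ) + 1))) * wt 1 a (R⁻¹ • u) := by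
  unfold wt
  rw [← ENNReal.ofReal_mul (Real.rpow_nonneg hR.le _)]
  congr 1
  rw [Real.one_rpow, one_mul, div_one, norm_smul, norm_inv, Real.norm_of_nonneg hR.le]
  congr 3
  field_simp

lemma av_add {R a : ℝ} {f : X r → ℝ≥0∞} (hf : Measurable f) (g : X r → ℝ≥0∞) (z : X r) :
    av R a (fun y => f y + g y) z = av R a f z + av R a g z := by
  unfold av
  simp only [add_mul]
  exact lintegral_add_left (hf.mul ((measurable_wt R a).comp (measurable_const.sub measurable_id))) _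

lemma av_const_mul {R a : ℝ} {c : ℝ≥0∞} (hc : c ≠ ∞) (f : X r → ℝ≥0∞) (z : X r) :
    av R a (fun y => c * f y) z = c * av R a f z := by
  unfold av
  simp only [mul_assoc]
  exact lintegral_const_mul' c _ hc

lemma av_sum {ι : Type} {R a : ℝ} (s : Finset ι) {f : ι → X r → ℝ≥0∞}
    (hf : ∀ i ∈ s, Measurable (f i)) (z : X r) :
    av R a (fun y => ∑ i ∈ s, f i y) z = ∑ i ∈ s, av R a (f i) z := by
  unfold av
  simp only [Finset.sum_mul]
  exact lintegral_finsetSum' s fun i hi =>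
    ((hf i hi).mul ((measurable_wt R a).comp (measurable_const.sub measurable_id))).aemeasurable

/-- Pointwise triangle inequality and Cauchy-Schwarz: `|∑ F_i|^2 ≤ #S ∑ |F_i|^2`. -/
lemma pw_two_sum_le {ι : Type} (s : Finset ι) (F : ι → X r → ℂ) (z : X r) :
    pw 2 (fun y => ∑ i ∈ s, F i y) z ≤ (s.card : ℝ≥0∞) * ∑ i ∈ s, pw 2 (F i) z := by
  unfold pw
  have h0 : ∀ x : ℂ, ‖x‖ₑ ^ (2 : ℝ) = ENNReal.ofReal (‖x‖ ^ 2) := by
    intro x
    rw [← ofReal_norm, ENNReal.rpow_two, ENNReal.ofReal_pow (norm_nonneg _)]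
  simp only [h0]
  rw [← ENNReal.ofReal_sum_of_nonneg fun i _ => sq_nonneg _, ← ENNReal.ofReal_natCast,
    ← ENNReal.ofReal_mul (Nat.cast_nonneg _)]
  refine ENNReal.ofReal_le_ofReal ?_
  have h1 : ‖∑ i ∈ s, F i z‖ ≤ ∑ i ∈ s, ‖F i z‖ := norm_sum_le _ _
  have h2 : (∑ i ∈ s, ‖F i z‖) ^ 2 ≤ s.card * ∑ i ∈ s, ‖F i z‖ ^ 2 := sq_sum_le_card_mul_sum_sq
  exact (pow_le_pow_left₀ (norm_nonneg _) h1 2).trans h2

end DEC
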