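import Pool.Agent.DEC.StmtsW

/-!
# l^2 decoupling, block W: DEC_W_WTB
-/

open MeasureTheory Filter
open scoped ENNReal Matrix Topology

namespace DEC

namespace W_WTB

variable {r : ℕ}

lemma cont {R E : ℝ} (hR : 0 < R) (w : X r → ℝ≥0∞) (hw : Wt R E w) : Continuous w := by
  rw [continuous_iff_continuousAt]
  intro x
  have hc : Tendsto (fun y : X r => ENNReal.ofReal ((1 + ‖x - y‖ / R) ^ E)) (𝓝 x) (𝓝 1) := by
    have h1 : ContinuousAt (fun y : X r => ENNReal.ofReal ((1 + ‖x - y‖ / R) ^ E)) x := by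
      refine ENNReal.continuous_ofReal.continuousAt.comp ?_
      refine ContinuousAt.rpow_const ?_ (Or.inl ?_)
      · have : Continuous fun y : X r => 1 + ‖x - y‖ / R := by fun_prop
        exact this.continuousAt
      · have := br_pos hR (x - x)
        exact this.ne'
    have h2 := h1.tendsto
    simpa using h2
  have hup : Tendsto (fun y : X r => w x * ENNReal.ofReal ((1 + ‖x - y‖ / R) ^ E)) (𝓝 x)
      (𝓝 (w x)) := by
    have := ENNReal.Tendsto.const_mul (a := w x) hc (Or.inl one_ne_zero)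
    simpa using this
  have hlo : Tendsto (fun y : X r => w x * (ENNReal.ofReal ((1 + ‖x - y‖ / R) ^ E))⁻¹) (𝓝 x)
      (𝓝 (w x)) := by
    have h3 := tendsto_inv_iff.mpr hc
    have := ENNReal.Tendsto.const_mul (a := w x) h3 (Or.inl (by simp))
    simpa using this
  refine tendsto_of_tendsto_of_tendsto_of_le_of_le hlo hup ?_ ?_
  · intro y
    have h := hw x y
    show w x * (ENNReal.ofReal ((1 + ‖x - y‖ / R) ^ E))⁻¹ ≤ w y
    rw [← div_eq_mul_inv]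
    exact ENNReal.div_le_of_le_mul h
  · intro y
    have h := hw y x
    rw [norm_sub_rev] at h
    exact h

lemma br_rpow_le {R E : ℝ} (hR : 0 < R) (hE : 0 ≤ E) (x y z : X r) :
    (1 + ‖x - z‖ / R) ^ E ≤ (1 + ‖x - y‖ / R) ^ E * (1 + ‖y - z‖ / R) ^ E := by
  rw [← Real.mul_rpow (br_pos hR _).le (br_pos hR _).le]
  exact Real.rpow_le_rpow (br_pos hR _).le (br_sub_le hR x y z) hE

lemma mono_scale {R E ρ E' : ℝ} (hE : 0 ≤ E) (hρ : 0 < ρ) (hρR : ρ ≤ R) (hEE : E ≤ E')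
    (u : X r) : (1 + ‖u‖ / R) ^ E ≤ (1 + ‖u‖ / ρ) ^ E' := by
  have hR : 0 < R := lt_of_lt_of_le hρ hρR
  have h1 : 1 + ‖u‖ / R ≤ 1 + ‖u‖ / ρ := by
    have := div_le_div_of_nonneg_left (norm_nonneg u) hρ hρR
    linarith
  calc (1 + ‖u‖ / R) ^ E ≤ (1 + ‖u‖ / ρ) ^ E := Real.rpow_le_rpow (br_pos hR _).le h1 hE
    _ ≤ (1 + ‖u‖ / ρ) ^ E' := Real.rpow_le_rpow_of_exponent_le (one_le_br hρ u) hEE

lemma part3 {R E : ℝ} (hR : 0 < R) (hE : 0 ≤ E) (z : X r) :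
    Wt R E fun y => wt R E (z - y) := by
  intro x y
  show wt R E (z - x) ≤ wt R E (z - y) * ENNReal.ofReal ((1 + ‖x - y‖ / R) ^ E)
  unfold wt
  have h0 : 0 ≤ R ^ (-((r : ℝ) + 1)) := Real.rpow_nonneg hR.le _
  have hb := br_pos hR (z - y)
  have ha := br_pos hR (z - x)
  have hc := br_pos hR (x - y)
  rw [← ENNReal.ofReal_mul (mul_nonneg h0 (Real.rpow_nonneg hb.le _))]
  apply ENNReal.ofReal_le_ofReal
  rw [mul_assoc]
  refine mul_le_mul_of_nonneg_left ?_ h0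
  have h1 := br_rpow_le hR hE z x y
  rw [Real.rpow_neg ha.le, Real.rpow_neg hb.le]
  have ha' : 0 < (1 + ‖z - x‖ / R) ^ E := Real.rpow_pos_of_pos ha _
  have hb' : 0 < (1 + ‖z - y‖ / R) ^ E := Real.rpow_pos_of_pos hb _
  rw [inv_mul_eq_div, le_div_iff₀ hb', inv_mul_eq_div, div_le_iff₀ ha']
  calc (1 + ‖z - y‖ / R) ^ E ≤ (1 + ‖z - x‖ / R) ^ E * (1 + ‖x - y‖ / R) ^ E := h1
    _ = (1 + ‖x - y‖ / R) ^ E * (1 + ‖z - x‖ / R) ^ E := mul_comm _ _

lemma part2 {R E : ℝ} (hR : 0 < R) (hE : 0 ≤ E) (w : X r → ℝ≥0∞) (B : ℝ)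
    (hw : ∀ x y, w x ≤ ENNReal.ofReal B * w y * ENNReal.ofReal ((1 + ‖x - y‖ / R) ^ E)) :
    ∃ w' : X r → ℝ≥0∞, Wt R E w' ∧ ∀ x, w x ≤ w' x ∧ w' x ≤ ENNReal.ofReal B * w x := by
  refine ⟨fun x => ⨅ y, ENNReal.ofReal B * w y * ENNReal.ofReal ((1 + ‖x - y‖ / R) ^ E),
    ?_, fun x => ⟨le_iInf fun y => hw x y, ?_⟩⟩
  · intro x x'
    show (⨅ y, ENNReal.ofReal B * w y * ENNReal.ofReal ((1 + ‖x - y‖ / R) ^ E)) ≤
      (⨅ y, ENNReal.ofReal B * w y * ENNReal.ofReal ((1 + ‖x' - y‖ / R) ^ E)) *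
        ENNReal.ofReal ((1 + ‖x - x'‖ / R) ^ E)
    rw [ENNReal.iInf_mul_of_ne
      (by
        have := Real.rpow_pos_of_pos (br_pos hR (x - x')) E
        exact (ENNReal.ofReal_pos.mpr this).ne') ENNReal.ofReal_ne_top]
    refine le_iInf fun y => (iInf_le _ y).trans ?_
    rw [mul_assoc (ENNReal.ofReal B * w y)]
    refine mul_le_mul' le_rfl ?_
    rw [← ENNReal.ofReal_mul (Real.rpow_nonneg (br_pos hR _).le _)]
    apply ENNReal.ofReal_le_ofReal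
    rw [mul_comm]
    exact br_rpow_le hR hE x x' y
  · refine (iInf_le _ x).trans ?_
    simp

end W_WTB

theorem t_WTB : Stmt_WTB := by
  intro r R E hR hE
  refine ⟨fun w hw => ⟨(W_WTB.cont hR w hw).measurable, fun ρ E' hρ hρR hEE x y => ?_⟩,
    fun w B _ hw => W_WTB.part2 hR hE w B hw, fun z => W_WTB.part3 hR hE z⟩
  exact (hw x y).trans (mul_le_mul' le_rfl
    (ENNReal.ofReal_le_ofReal (W_WTB.mono_scale hE hρ hρR hEE (x - y))))

end DEC
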